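import Pool.Agent.H19.Dfs

set_option autoImplicit false

namespace Pool.Agent.H19.Berge

open SimpleGraph Pool.Agent.H19.Dfs

def arcs : List (ℕ × ℕ) := [(0, 1), (0, 2), (0, 3), (0, 4), (0, 8), (0, 9), (0, 10), (2, 1), (2, 4), (2, 6), (2, 10), (3, 1), (4, 3), (4, 6), (5, 1), (5, 3), (5, 4), (5, 6), (5, 7), (7, 1), (7, 6), (7, 8), (7, 10), (8, 1), (8, 6), (9, 3), (9, 6), (9, 8), (9, 10), (10, 6)]

def D (u v : Fin 11) : Prop := (u.1, v.1) ∈ arcs

instance : DecidableRel D := fun u v => inferInstanceAs (Decidable ((u.1, v.1) ∈ arcs))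

def G : SimpleGraph (Fin 11) where
  Adj u v := D u v ∨ D v u
  symm := ⟨fun _ _ h => h.symm⟩
  loopless := ⟨by decide⟩

instance : DecidableRel G.Adj := fun u v => inferInstanceAs (Decidable (D u v ∨ D v u))

def nb : List (List ℕ) := [[], [0], [0, 1], [0, 1], [0, 2, 3], [1, 3, 4], [2, 4, 5], [1, 5, 6], [0, 1, 6, 7], [0, 3, 6, 8], [0, 2, 6, 7, 9]]

def P : List (ℕ × ℕ × ℕ × ℕ) := [(0, 2, 4, 3), (0, 2, 4, 6), (0, 2, 10, 6), (0, 4, 3, 1), (0, 9, 3, 1), (0, 9, 8, 1), (0, 9, 8, 6), (0, 9, 10, 6), (2, 4, 3, 1), (5, 4, 3, 1), (5, 7, 8, 1), (5, 7, 8, 6), (5, 7, 10, 6)]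

def rb (g : ℕ → ℕ) (p : ℕ × ℕ × ℕ × ℕ) : Bool :=
  g p.1 != g p.2.2.1 && g p.1 != g p.2.2.2 && g p.2.1 != g p.2.2.2

def ok (i : ℕ) (cur : List ℕ) (c : ℕ) : Bool :=
  if i < 11 then okCol nb i cur c else P.any (rb fun j => cur.getD (11 - 1 - j) 0)

theorem search : dfs (fun i => if i < 11 then [0, 1, 2, 3] else [0]) ok 12 0 [] = false := by
  decide +kernel

theorem search3 : dfs (fun _ => [0, 1, 2]) (okCol nb) 11 0 [] = false := by
  decide +kernel

def ext {k : ℕ} (c : Fin 11 → Fin k) (i : ℕ) : ℕ := if h : i < 11 then (c ⟨i, h⟩).1 else 0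

theorem nb_lt : ∀ i < 11, ∀ j ∈ nb.getD i [], j < i := by decide

theorem ext_ne {k : ℕ} (c : G.Coloring (Fin k)) :
    ∀ i < 11, ∀ j ∈ nb.getD i [], ext c j ≠ ext c i := by
  intro i hi j hj
  have h1 := nb_lt i hi j hj
  have h2 : ∀ i : Fin 11, ∀ j : Fin 11, j.1 ∈ nb.getD i [] → G.Adj j i := by decide
  have h3 := c.valid (h2 ⟨i, hi⟩ ⟨j, by omega⟩ hj)
  simp only [ext, dif_pos hi, dif_pos (show j < 11 by omega)]
  exact fun h => h3 (Fin.ext h)

theorem chi : G.chromaticNumber = 4 := by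
  apply le_antisymm
  · exact Colorable.chromaticNumber_le (n := 4)
      ⟨Coloring.mk ![1, 2, 0, 0, 2, 3, 1, 0, 3, 2, 3] (by decide)⟩
  · by_contra h
    have h1 : G.chromaticNumber ≤ (3 : ℕ) := by
      have : G.chromaticNumber < ((3 : ℕ) : ℕ∞) + 1 := not_le.mp h
      exact (ENat.lt_add_one_iff (ENat.coe_ne_top 3)).mp this
    obtain ⟨c⟩ := chromaticNumber_le_iff_colorable.mp h1
    refine no_col _ nb 11 nb_lt search3 (ext c) (fun j hj => ?_) (ext_ne c)
    have := (c ⟨j, hj⟩).2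
    simp only [ext, dif_pos hj, List.mem_cons, List.not_mem_nil, or_false]
    omega

theorem norb (p : Fin 4 → Fin 11) (c : G.Coloring (Fin 4))
    (h1 : ∀ i : Fin 3, D (p i.castSucc) (p i.succ)) (h2 : Function.Injective fun i => c (p i)) :
    False := by
  have hP : ∀ a b : Fin 11, D a b → ∀ x : Fin 11, D b x → ∀ y : Fin 11, D x y →
      (a.1, b.1, x.1, y.1) ∈ P := by decide +kernel
  have := dfs_true (fun i => if i < 11 then [0, 1, 2, 3] else [0]) ok (ext c) 12
    (fun j hj => by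
      by_cases h : j < 11
      · have := (c ⟨j, h⟩).2
        simp only [ext, dif_pos h, if_pos h, List.mem_cons, List.not_mem_nil, or_false]
        omega
      · simp [ext, h])
    (fun j hj => by
      by_cases h : j < 11
      · simp only [ok, if_pos h, okCol, List.all_eq_true, bne_iff_ne]
        intro i hi
        rw [hist_getD (ext c) 0 j i (nb_lt j h i hi)]
        exact ext_ne c j h i hi
      · have e : j = 11 := by omega
        subst e
        simp only [ok, if_neg h, List.any_eq_true]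
        refine ⟨_, hP _ _ (h1 0) _ (h1 1) _ (h1 2), ?_⟩
        have k : ∀ v : Fin 11, (hist (ext c) 11).getD (11 - 1 - v.1) 0 = (c v).1 := fun v => by
          rw [hist_getD (ext c) 0 11 v.1 v.2]
          simp [ext]
        simp only [rb, k, Bool.and_eq_true, bne_iff_ne]
        refine ⟨⟨fun h => ?_, fun h => ?_⟩, fun h => ?_⟩
        · exact absurd (h2 (a₁ := 0) (a₂ := 2) (Fin.ext h)) (by decide)
        · exact absurd (h2 (a₁ := 0) (a₂ := 3) (Fin.ext h)) (by decide)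
        · exact absurd (h2 (a₁ := 1) (a₂ := 3) (Fin.ext h)) (by decide))
  rw [search] at this
  cases this

end Pool.Agent.H19.Berge
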