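import Mathlib
import Pool.Agent.H20.PlaneDefs

set_option autoImplicit false

/-! Two-page book embeddings are plane drawings. -/

namespace Pool.Agent.H19.Book

open Pool.Agent.H20

lemma planar_real {W : Type} (H : SimpleGraph W) (x : W → ℝ) (hx : Function.Injective x)
    (pg : W → W → Prop) (hs : ∀ a b, H.Adj a b → pg a b → pg b a)
    (h : ∀ a b c d, H.Adj a b → H.Adj c d → x a < x c → x c < x b → x b < x d →
      ¬ (pg a b ↔ pg c d)) : IsPlanar H := by
  classical
  let γ : W → W → C(unitInterval, ℝ × ℝ) := fun u v =>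
    ⟨fun t => (x u + t * (x v - x u),
      (if pg u v then 1 else -1) * ((t : ℝ) * (1 - t) * (x v - x u) ^ 2)), by fun_prop⟩
  have hne : ∀ u v, H.Adj u v → x v - x u ≠ 0 := fun u v h e => h.ne (hx (by linarith))
  refine ⟨fun u => (x u, 0), γ, fun a b e => hx (congrArg Prod.fst e), fun u v h => ⟨?_, ?_, ?_⟩,
    fun u v w t h t0 t1 e => ?_, fun u v u' v' s t h1 h2 hn s0 s1 t0 t1 e => ?_⟩
  · simp [γ]
  · simp [γ]
  · intro s t e
    have := congrArg Prod.fst e
    simp only [γ, ContinuousMap.coe_mk, add_right_inj] at this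
    exact Subtype.ext (mul_right_cancel₀ (hne u v h) this)
  · have := congrArg Prod.snd e
    simp only [γ, ContinuousMap.coe_mk] at this
    have h1 : 0 < (t : ℝ) * (1 - t) * (x v - x u) ^ 2 :=
      mul_pos (mul_pos t0 (by linarith)) (sq_pos_of_ne_zero (hne u v h))
    split_ifs at this <;> linarith
  · have e1 := congrArg Prod.fst e
    have e2 := congrArg Prod.snd e
    simp only [γ, ContinuousMap.coe_mk] at e1 e2
    have p1 : 0 < (s : ℝ) * (1 - s) * (x v - x u) ^ 2 :=
      mul_pos (mul_pos s0 (by linarith)) (sq_pos_of_ne_zero (hne u v h1))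
    have p2 : 0 < (t : ℝ) * (1 - t) * (x v' - x u') ^ 2 :=
      mul_pos (mul_pos t0 (by linarith)) (sq_pos_of_ne_zero (hne u' v' h2))
    have hpg : pg u v ↔ pg u' v' := by
      by_cases a : pg u v <;> by_cases b : pg u' v' <;> simp only [a, b, if_true, if_false] at e2 ⊢
      all_goals linarith
    have e3 : (s : ℝ) * (1 - s) * (x v - x u) ^ 2 = (t : ℝ) * (1 - t) * (x v' - x u') ^ 2 := by
      by_cases a : pg u v
      · simp only [a, hpg.1 a, if_true] at e2; linarith
      · have b : ¬ pg u' v' := fun b => a (hpg.2 b)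
        simp only [a, b, if_false] at e2; linarith
    have main : ∀ a b c d, H.Adj a b → H.Adj c d → (pg a b ↔ pg c d) → ∀ z : ℝ, x a < z → z < x b →
        x c < z → z < x d → (z - x a) * (x b - z) = (z - x c) * (x d - z) → a = c ∧ b = d := by
      intro a b c d h1 h2 hp z z1 z2 z3 z4 e
      rcases lt_trichotomy (x a) (x c) with l | l | l
      · exfalso
        by_cases m : x b < x d
        · exact h a b c d h1 h2 l (by linarith) m hp
        · push Not at m
          nlinarith [mul_pos (sub_pos.2 l) (sub_pos.2 z4),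
            mul_nonneg (sub_pos.2 z1).le (sub_nonneg.2 m)]
      · refine ⟨hx l, hx ?_⟩
        rw [l] at e
        have := mul_left_cancel₀ (sub_pos.2 z3).ne' e
        linarith
      · exfalso
        by_cases m : x d < x b
        · exact h c d a b h2 h1 l (by linarith) m hp.symm
        · push Not at m
          nlinarith [mul_pos (sub_pos.2 l) (sub_pos.2 z2),
            mul_nonneg (sub_pos.2 z3).le (sub_nonneg.2 m)]
    have sy : ∀ a b, H.Adj a b → (pg a b ↔ pg b a) := fun a b h => ⟨hs a b h, hs b a h.symm⟩
    set z := x u + s * (x v - x u) with hz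
    have q1 : (z - x u) * (x v - z) = (z - x u') * (x v' - z) := by
      have a1 : (z - x u) * (x v - z) = (s : ℝ) * (1 - s) * (x v - x u) ^ 2 := by rw [hz]; ring
      have a2 : (z - x u') * (x v' - z) = (t : ℝ) * (1 - t) * (x v' - x u') ^ 2 := by
        rw [e1]; ring
      rw [a1, a2, e3]
    rcases lt_or_gt_of_ne (hne u v h1) with l1 | l1 <;>
      rcases lt_or_gt_of_ne (hne u' v' h2) with l2 | l2
    · have := main v u v' u' h1.symm h2.symm (by rw [← sy _ _ h1, ← sy _ _ h2]; exact hpg) z
        (by nlinarith) (by nlinarith) (by nlinarith) (by nlinarith) (by linarith)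
      exact hn (Or.inl ⟨this.2, this.1⟩)
    · have := main v u u' v' h1.symm h2 (by rw [← sy _ _ h1]; exact hpg) z
        (by nlinarith) (by nlinarith) (by nlinarith) (by nlinarith) (by linarith)
      exact hn (Or.inr ⟨this.2, this.1⟩)
    · have := main u v v' u' h1 h2.symm (by rw [← sy _ _ h2]; exact hpg) z
        (by nlinarith) (by nlinarith) (by nlinarith) (by nlinarith) (by linarith)
      exact hn (Or.inr this)
    · have := main u v u' v' h1 h2 hpg z
        (by nlinarith) (by nlinarith) (by nlinarith) (by nlinarith) q1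
      exact hn (Or.inl this)

lemma planar_of_book {W L : Type} [Finite W] [LinearOrder L] (H : SimpleGraph W) (x : W → L)
    (hx : Function.Injective x) (pg : W → W → Prop) (hs : ∀ a b, H.Adj a b → pg a b → pg b a)
    (h : ∀ a b c d, H.Adj a b → H.Adj c d → x a < x c → x c < x b → x b < x d →
      ¬ (pg a b ↔ pg c d)) : IsPlanar H := by
  classical
  haveI := Fintype.ofFinite W
  let r : W → ℝ := fun w => ((Finset.univ.filter fun u => x u < x w).card : ℝ)
  have h1 : ∀ a b, x a < x b → r a < r b := by
    intro a b hab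
    simp only [r, Nat.cast_lt]
    refine Finset.card_lt_card ⟨fun u hu => ?_, fun hh => ?_⟩
    · simp only [Finset.mem_filter, Finset.mem_univ, true_and] at hu ⊢
      exact hu.trans hab
    · have := hh (Finset.mem_filter.2 ⟨Finset.mem_univ a, hab⟩)
      simp at this
  have h2 : ∀ a b, r a < r b → x a < x b := by
    intro a b hab
    rcases lt_trichotomy (x a) (x b) with l | l | l
    · exact l
    · rw [hx l] at hab; exact absurd hab (lt_irrefl _)
    · exact absurd (h1 _ _ l) (not_lt.2 hab.le)
  refine planar_real H r (fun a b e => ?_) pg hs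
    fun a b c d e1 e2 l1 l2 l3 => h a b c d e1 e2 (h2 _ _ l1) (h2 _ _ l2) (h2 _ _ l3)
  rcases lt_trichotomy (x a) (x b) with l | l | l
  · exact absurd (h1 _ _ l) (by rw [e]; exact lt_irrefl _)
  · exact hx l
  · exact absurd (h1 _ _ l) (by rw [e]; exact lt_irrefl _)

end Pool.Agent.H19.Book
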