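import Mathlib

set_option autoImplicit false

namespace Pool.Agent.H19.CritUnion

open SimpleGraph

variable {V : Type}

def EdgeCrit (G : SimpleGraph V) (m : ℕ) : Prop :=
  ∀ v w, G.Adj v w → ∃ φ : V → Fin m, ∀ x y, G.Adj x y → s(x, y) ≠ s(v, w) → φ x ≠ φ y

theorem parity (ψ : ℕ → Fin 2) (q : ℕ) :
    ∀ d, (∀ t, q ≤ t → t < q + d → ψ t ≠ ψ (t + 1)) → (ψ q = ψ (q + d) ↔ d % 2 = 0) := by
  intro d
  induction d with
  | zero => simp
  | succ d ih =>
    intro h
    have h1 := ih fun t h1 h2 => h t h1 (by omega)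
    have h2 := h (q + d) (by omega) (by omega)
    rw [← add_assoc]
    have : ∀ a b c : Fin 2, b ≠ c → (a = c ↔ ¬ a = b) := by decide
    rw [this _ _ _ h2, h1]
    omega

theorem odd_cycle (G : SimpleGraph V) (h : ¬ G.Colorable 2) :
    ∃ (n : ℕ) (z : ℕ → V), n % 2 = 1 ∧ 3 ≤ n ∧ (∀ k, z (k + n) = z k) ∧
      (∀ k, G.Adj (z k) (z (k + 1))) ∧ ∀ i j, i < j → j < i + n → z i ≠ z j := by
  classical
  have hex : ∃ n : ℕ, n % 2 = 1 ∧ ∃ z : ℕ → V, z n = z 0 ∧ ∀ k < n, G.Adj (z k) (z (k + 1)) := by
    rw [two_colorable_iff_forall_loop_even] at h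
    push Not at h
    obtain ⟨u, p, hp⟩ := h
    exact ⟨p.length, Nat.not_even_iff.mp hp, p.getVert, by simp,
      fun k hk => p.adj_getVert_succ hk⟩
  obtain ⟨hn, z, hz0, hz⟩ := Nat.find_spec hex
  have hmin := fun m (hm : m < Nat.find hex) => Nat.find_min hex hm
  set n := Nat.find hex
  have hn0 : 0 < n := by omega
  have hinj : ∀ i j, i < j → j < n → z i ≠ z j := by
    intro i j hij hj he
    by_cases hp : (j - i) % 2 = 1
    · refine hmin (j - i) (by omega) ⟨hp, fun k => z (i + k), ?_, fun k hk => ?_⟩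
      · simp only [add_zero]
        rw [show i + (j - i) = j by omega, he]
      · exact hz (i + k) (by omega)
    · refine hmin (n - (j - i)) (by omega) ⟨by omega,
        fun k => if k ≤ i then z k else z (k + (j - i)), ?_, fun k hk => ?_⟩
      · simp only [Nat.zero_le, if_true]
        rw [if_neg (by omega), show n - (j - i) + (j - i) = n by omega, hz0]
      · by_cases h1 : k + 1 ≤ i
        · simp only [h1, show k ≤ i by omega, if_true]
          exact hz k (by omega)
        · by_cases h2 : k ≤ i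
          · have : k = i := by omega
            subst this
            simp only [h1, le_refl, if_true, if_false]
            rw [he, show k + 1 + (j - k) = j + 1 by omega]
            exact hz j hj
          · simp only [h1, h2, if_false]
            rw [show k + 1 + (j - i) = k + (j - i) + 1 by omega]
            exact hz _ (by omega)
  refine ⟨n, fun k => z (k % n), hn, ?_, fun k => by simp, fun k => ?_, fun i j hij hj => ?_⟩
  · by_contra h3
    have h1 : n = 1 := by omega
    have := hz 0 hn0
    rw [zero_add, ← h1, hz0] at this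
    exact this.ne rfl
  · have hk := Nat.mod_lt k hn0
    have := hz _ hk
    by_cases h1 : k % n + 1 < n
    · have e : (k + 1) % n = k % n + 1 := by
        rw [← Nat.mod_add_mod, Nat.mod_eq_of_lt h1]
      simpa only [e] using this
    · have e : (k + 1) % n = 0 := by
        rw [← Nat.mod_add_mod, show k % n + 1 = n by omega, Nat.mod_self]
      rw [show k % n + 1 = n by omega, hz0] at this
      simpa only [e] using this
  · have hne : i % n ≠ j % n := by
      intro he
      have := (Nat.modEq_iff_dvd' hij.le).mp he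
      have := Nat.le_of_dvd (by omega) this
      omega
    rcases lt_or_gt_of_ne hne with h1 | h1
    · exact hinj _ _ h1 (Nat.mod_lt _ hn0)
    · exact (hinj _ _ h1 (Nat.mod_lt _ hn0)).symm

theorem col_of_prod {G : SimpleGraph V} {m : ℕ} (c : V → Fin m × Fin 2)
    (h : ∀ x y, G.Adj x y → c x ≠ c y) : G.Colorable (2 * m) := by
  have := (Coloring.mk c fun hxy => h _ _ hxy).colorable
  simpa [mul_comm] using this

theorem main (G1 G2 : SimpleGraph V) (m : ℕ) (hm : 3 ≤ m) (h1 : ¬ G1.Colorable 2)
    (h1' : EdgeCrit G1 2) (h2 : ¬ G2.Colorable m) (h2' : EdgeCrit G2 m) :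
    (G1 ⊔ G2).Colorable (2 * m) := by
  classical
  by_contra hcol
  obtain ⟨n, z, hn, hn3, hper, hadj, hinj⟩ := odd_cycle G1 h1
  have hedge : ∀ s t, s < t → t < s + n → s(z t, z (t + 1)) ≠ s(z s, z (s + 1)) := by
    intro s t h1 h2 he
    rcases Sym2.eq_iff.mp he with ⟨e, -⟩ | ⟨e1, e2⟩
    · exact hinj s t h1 h2 e.symm
    · by_cases ht : t = s + 1
      · subst ht
        exact hinj s (s + 1 + 1) (by omega) (by omega) e2.symm
      · exact hinj (s + 1) t (by omega) (by omega) e1.symm
  have hon : ∀ x y, G1.Adj x y → ∃ k, x = z k := by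
    intro x y hxy
    by_contra hx
    push Not at hx
    obtain ⟨ψ, hψ⟩ := h1' x y hxy
    have := parity (fun k => ψ (z k)) 0 n fun t _ _ => hψ _ _ (hadj t) (by
      intro he
      rcases Sym2.eq_iff.mp he with ⟨e, -⟩ | ⟨-, e⟩
      · exact hx _ e.symm
      · exact hx _ e.symm)
    have e := hper 0
    simp only [e, true_iff] at this
    omega
  have fin : ∀ (v w : V) (φ : V → Fin m) (ψ : V → Fin 2),
      (∀ x y, G2.Adj x y → s(x, y) ≠ s(v, w) → φ x ≠ φ y) → ψ v ≠ ψ w →
      (∀ x y, G1.Adj x y → φ x = φ y → ψ x ≠ ψ y) → False := by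
    intro v w φ ψ hφ hvw hψ
    refine hcol (col_of_prod (fun x => (φ x, ψ x)) fun x y hxy he => ?_)
    simp only [Prod.mk.injEq] at he
    rcases hxy with h | h
    · exact hψ x y h he.1 he.2
    · by_cases hs : s(x, y) = s(v, w)
      · rcases Sym2.eq_iff.mp hs with ⟨rfl, rfl⟩ | ⟨rfl, rfl⟩
        · exact hvw he.2
        · exact hvw he.2.symm
      · exact hφ x y h hs he.1
  have hoff : ∀ v w, G2.Adj v w → ∃ k, v = z k := by
    intro v w hvw
    by_contra hv
    push Not at hv
    obtain ⟨φ, hφ⟩ := h2' v w hvw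
    have other : ∀ a : Fin 2, ∃ b, b ≠ a := by decide
    by_cases hmono : ∀ s, φ (z s) = φ (z (s + 1))
    · have hall : ∀ s, φ (z s) = φ (z 0) := by
        intro s
        induction s with
        | zero => rfl
        | succ s ih => rw [← hmono, ih]
      obtain ⟨b, hb1, hb2⟩ : ∃ b : Fin m, b ≠ φ (z 0) ∧ b ≠ φ v := by
        obtain ⟨b, -, hb⟩ := Finset.exists_mem_notMem_of_card_lt_card (s := {φ (z 0), φ v})
          (t := Finset.univ) (lt_of_le_of_lt Finset.card_le_two (by simp; omega))
        exact ⟨b, by simpa using hb⟩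
      obtain ⟨ψ, hψ⟩ := h1' _ _ (hadj 0)
      let ψ1 : V → Fin 2 := fun x => if ∃ k, x = z k then ψ x else 0
      obtain ⟨o, ho⟩ := other (ψ1 w)
      let c : V → Fin m × Fin 2 := fun x =>
        if x = z 0 then (b, 1) else (φ x, if x = v then o else ψ1 x)
      have hsp : ∀ y, y ≠ z 0 → c y ≠ (b, 1) := by
        intro y hy he
        simp only [c, hy, if_false, Prod.mk.injEq] at he
        by_cases hyv : y = v
        · exact hb2 (hyv ▸ he.1.symm)
        · by_cases hk : ∃ k, y = z k
          · obtain ⟨k, rfl⟩ := hk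
            exact hb1 (he.1.symm.trans (hall k))
          · simp [hyv, ψ1, hk] at he
      refine hcol (col_of_prod c fun x y hxy => ?_)
      by_cases hx : x = z 0
      · have hy : y ≠ z 0 := fun e => hxy.ne (hx.trans e.symm)
        have : c x = (b, 1) := by simp [c, hx]
        rw [this]
        exact (hsp y hy).symm
      by_cases hy : y = z 0
      · have : c y = (b, 1) := by simp [c, hy]
        rw [this]
        exact hsp x hx
      intro he
      simp only [c, hx, hy, if_false, Prod.mk.injEq] at he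
      rcases hxy with h | h
      · obtain ⟨i, rfl⟩ := hon _ _ h
        obtain ⟨j, rfl⟩ := hon _ _ h.symm
        have e1 : ∀ i, z i ≠ v := fun i e => hv i e.symm
        have e2 : ∀ i, ψ1 (z i) = ψ (z i) := fun i => if_pos ⟨i, rfl⟩
        simp only [e1, if_false, e2] at he
        refine hψ _ _ h (fun hs => ?_) he.2
        rcases Sym2.eq_iff.mp hs with ⟨e, -⟩ | ⟨-, e⟩
        · exact hx e
        · exact hy e
      · by_cases hs : s(x, y) = s(v, w)
        · rcases Sym2.eq_iff.mp hs with ⟨rfl, rfl⟩ | ⟨rfl, rfl⟩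
          · simp only [if_true, h.ne', if_false] at he
            exact ho he.2
          · simp only [if_true, h.ne, if_false] at he
            exact ho he.2.symm
        · exact hφ x y h hs he.1
    · push Not at hmono
      obtain ⟨s, hs⟩ := hmono
      obtain ⟨ψ, hψ⟩ := h1' _ _ (hadj s)
      obtain ⟨o, ho⟩ := other (ψ w)
      refine fin v w φ (fun x => if x = v then o else ψ x) hφ (by simpa [hvw.ne'] using ho) ?_
      intro x y h he
      obtain ⟨i, rfl⟩ := hon _ _ h
      obtain ⟨j, rfl⟩ := hon _ _ h.symm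
      have e1 : ∀ i, z i ≠ v := fun i e => hv i e.symm
      simp only [e1, if_false]
      refine hψ _ _ h fun he2 => ?_
      rcases Sym2.eq_iff.mp he2 with ⟨a1, a2⟩ | ⟨a1, a2⟩
      · exact hs (a1 ▸ a2 ▸ he)
      · exact hs (a1 ▸ a2 ▸ he.symm)
  have harc : ∀ p q, p < q → q ≤ p + n → (q - p) % 2 = 0 → G2.Adj (z p) (z q) →
      ∀ r, p < r → r < q → ¬ G2.Adj (z p) (z r) ∧ ¬ G2.Adj (z r) (z q) := by
    intro p q hpq hq hev hG r hpr hrq
    obtain ⟨φ, hφ⟩ := h2' _ _ hG
    have hmono : ∀ s, p ≤ s → s < q → φ (z s) = φ (z (s + 1)) := by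
      intro s hs1 hs2
      by_contra hs
      obtain ⟨ψ, hψ⟩ := h1' _ _ (hadj s)
      refine fin _ _ φ ψ hφ ?_ ?_
      · have := parity (fun k => ψ (z k)) q (p + n - q) fun t h1 h2 =>
          hψ _ _ (hadj t) (hedge s t (by omega) (by omega))
        rw [show q + (p + n - q) = p + n by omega, hper] at this
        intro e
        have := this.mp e.symm
        omega
      · intro x y h he
        refine hψ _ _ h fun he2 => ?_
        rcases Sym2.eq_iff.mp he2 with ⟨rfl, rfl⟩ | ⟨rfl, rfl⟩
        · exact hs he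
        · exact hs he.symm
    have hall : ∀ d, p + d ≤ q → φ (z (p + d)) = φ (z p) := by
      intro d
      induction d with
      | zero => intro _; rfl
      | succ d ih =>
        intro hd
        rw [← add_assoc, ← hmono _ (by omega) (by omega), ih (by omega)]
    have e1 := hall (r - p) (by omega)
    have e2 := hall (q - p) (by omega)
    rw [show p + (r - p) = r by omega] at e1
    rw [show p + (q - p) = q by omega] at e2
    have n1 := hinj p r hpr (by omega)
    have n2 := hinj r q hrq (by omega)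
    constructor
    · intro h
      refine hφ _ _ h (fun he => ?_) e1.symm
      rcases Sym2.eq_iff.mp he with ⟨-, e⟩ | ⟨-, e⟩
      · exact n2 e
      · exact n1 e.symm
    · intro h
      refine hφ _ _ h (fun he => ?_) (e1.trans e2.symm)
      rcases Sym2.eq_iff.mp he with ⟨e, -⟩ | ⟨e, -⟩
      · exact n1 e.symm
      · exact n2 e
  obtain ⟨v, w, hvw⟩ : ∃ v w, G2.Adj v w := by
    by_contra h
    push Not at h
    exact h2 ⟨Coloring.mk (fun _ => ⟨0, by omega⟩) fun hxy => absurd hxy (h _ _)⟩
  obtain ⟨i, rfl⟩ := hoff v w hvw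
  have hpos : ∀ x, G2.Adj (z i) x → ∃ j, i < j ∧ j < i + n ∧ x = z j := by
    intro x hx
    obtain ⟨k, rfl⟩ := hoff _ _ hx.symm
    have hmul : ∀ a k, z (k + n * a) = z k := by
      intro a k
      induction a with
      | zero => rfl
      | succ a ih => rw [Nat.mul_succ, ← add_assoc, hper, ih]
    have e : z (i + (k + n * i - i) % n) = z k := by
      rw [← hmul ((k + n * i - i) / n), add_assoc, Nat.mod_add_div, ← hmul i k]
      congr 1
      have : i ≤ n * i := Nat.le_mul_of_pos_left _ (by omega)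
      omega
    have hlt := Nat.mod_lt (k + n * i - i) (show 0 < n by omega)
    refine ⟨_, ?_, by omega, e.symm⟩
    by_contra h0
    rw [show i + (k + n * i - i) % n = i by omega] at e
    exact hx.ne e
  have huniq : ∀ j j', i < j → j < j' → j' < i + n → (j - i) % 2 = (j' - i) % 2 →
      G2.Adj (z i) (z j) → G2.Adj (z i) (z j') → False := by
    intro j j' a1 a2 a3 a4 b1 b2
    by_cases hp : (j' - i) % 2 = 0
    · exact (harc i j' (by omega) (by omega) hp b2 j a1 a2).1 b1
    · refine (harc j (i + n) (by omega) (by omega) (by omega) ?_ j' a2 a3).2 ?_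
      · rw [hper]; exact b1.symm
      · rw [hper]; exact b2.symm
  obtain ⟨φ, hφ⟩ := h2' _ _ hvw
  have hnb : ∀ b : Fin m, ∃ x, G2.Adj (z i) x ∧ φ x = b := by
    intro b
    by_contra hb
    push Not at hb
    refine h2 ⟨Coloring.mk (fun x => if x = z i then b else φ x) ?_⟩
    intro x y hxy
    by_cases hx : x = z i
    · subst hx
      simpa [hxy.ne'] using (hb y hxy).symm
    · by_cases hy : y = z i
      · subst hy
        simpa [hx] using hb x hxy.symm
      · simp only [hx, hy, if_false]
        refine hφ _ _ hxy fun he => ?_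
        rcases Sym2.eq_iff.mp he with ⟨e, -⟩ | ⟨-, e⟩
        · exact hx e
        · exact hy e
  obtain ⟨x0, a0, c0⟩ := hnb ⟨0, by omega⟩
  obtain ⟨x1, a1, c1⟩ := hnb ⟨1, by omega⟩
  obtain ⟨x2, a2, c2⟩ := hnb ⟨2, by omega⟩
  obtain ⟨j0, p0, q0, rfl⟩ := hpos _ a0
  obtain ⟨j1, p1, q1, rfl⟩ := hpos _ a1
  obtain ⟨j2, p2, q2, rfl⟩ := hpos _ a2
  have hu2 : ∀ j j', i < j → j < i + n → i < j' → j' < i + n → (j - i) % 2 = (j' - i) % 2 →
      G2.Adj (z i) (z j) → G2.Adj (z i) (z j') → j = j' := by
    intro j j' a1 a2 a3 a4 a5 b1 b2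
    rcases lt_trichotomy j j' with h | h | h
    · exact (huniq j j' a1 h a4 a5 b1 b2).elim
    · exact h
    · exact (huniq j' j a3 h a2 a5.symm b2 b1).elim
  have : (j0 - i) % 2 = (j1 - i) % 2 ∨ (j0 - i) % 2 = (j2 - i) % 2 ∨
      (j1 - i) % 2 = (j2 - i) % 2 := by omega
  rcases this with h | h | h
  · have := hu2 _ _ p0 q0 p1 q1 h a0 a1
    subst this
    simp [c0] at c1
  · have := hu2 _ _ p0 q0 p2 q2 h a0 a2
    subst this
    simp [c0] at c2
  · have := hu2 _ _ p1 q1 p2 q2 h a1 a2
    subst this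
    simp [c1] at c2

end Pool.Agent.H19.CritUnion
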