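import Mathlib
import Pool.Agent.H19.CritUnion

set_option autoImplicit false

namespace Pool.Agent.H19.Claw

open SimpleGraph

/-- A graph that is not two-colourable has an odd closed walk without chords. -/
theorem chordless {V : Type} (G : SimpleGraph V) (h : ¬ G.Colorable 2) :
    ∃ (n : ℕ) (z : ℕ → V), n % 2 = 1 ∧ (∀ k, z (k + n) = z k) ∧
      (∀ k, G.Adj (z k) (z (k + 1))) ∧
      ∀ i d, d < n → G.Adj (z i) (z (i + d)) → d = 1 ∨ d + 1 = n := by
  classical
  have hex : ∃ n : ℕ, n % 2 = 1 ∧ ∃ z : ℕ → V, z n = z 0 ∧ ∀ k < n, G.Adj (z k) (z (k + 1)) := by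
    obtain ⟨n, z, h1, -, h2, h3, -⟩ := CritUnion.odd_cycle G h
    exact ⟨n, h1, z, by simpa using h2 0, fun k _ => h3 k⟩
  obtain ⟨hn, z, hz0, hz⟩ := Nat.find_spec hex
  have hmin := fun m (hm : m < Nat.find hex) => Nat.find_min hex hm
  set n := Nat.find hex
  have hn0 : 0 < n := by omega
  have hadj : ∀ k, G.Adj (z (k % n)) (z ((k + 1) % n)) := by
    intro k
    have hk := Nat.mod_lt k hn0
    have := hz _ hk
    by_cases h1 : k % n + 1 < n
    · have e : (k + 1) % n = k % n + 1 := by
        rw [← Nat.mod_add_mod, Nat.mod_eq_of_lt h1]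
      simpa only [e] using this
    · have e : (k + 1) % n = 0 := by
        rw [← Nat.mod_add_mod, show k % n + 1 = n by omega, Nat.mod_self]
      rw [show k % n + 1 = n by omega, hz0] at this
      simpa only [e] using this
  have hper : ∀ k, z ((k + n) % n) = z (k % n) := fun k => by simp
  generalize hy : (fun k => z (k % n)) = y
  have hy1 : ∀ k, y (k + n) = y k := fun k => by rw [← hy]; exact hper k
  have hy2 : ∀ k, G.Adj (y k) (y (k + 1)) := fun k => by rw [← hy]; exact hadj k
  refine ⟨n, y, hn, hy1, hy2, fun i d hd hA => ?_⟩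
  have key : ∀ a e, e % 2 = 0 → e + 1 < n → ¬ G.Adj (y a) (y (a + e)) := by
    intro a e he hlt hB
    refine hmin (e + 1) hlt ⟨by omega, fun k => if k ≤ e then y (a + k) else y a, ?_,
      fun k hk => ?_⟩
    · simp
    · by_cases h1 : k + 1 ≤ e
      · simp only [h1, show k ≤ e by omega, if_true]
        exact hy2 (a + k)
      · have : k = e := by omega
        subst this
        simp only [h1, le_refl, if_true, if_false]
        exact hB.symm
  by_contra hc
  push Not at hc
  by_cases hp : d % 2 = 0
  · exact key i d hp (by omega) hA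
  · refine key (i + d) (n - d) (by omega) (by omega) ?_
    rw [show i + d + (n - d) = i + n by omega, hy1]
    exact hA.symm

/-- The claw. -/
def claw : SimpleGraph (Fin 4) := fromRel fun a _ => a = 0

theorem claw_col : claw.Colorable 2 := by
  refine ⟨Coloring.mk (fun a => if a = 0 then 0 else 1) ?_⟩
  intro a b hab
  rw [claw, fromRel_adj] at hab
  revert a b
  decide

theorem main : ¬ (∀ (n : ℕ) (F : SimpleGraph (Fin n)), F ≠ ⊥ →
      ∀ r : ℕ, ∃ (m : ℕ) (G : SimpleGraph (Fin m)),
        (r : ℕ∞) < G.chromaticNumber ∧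
        G.cliqueNum = F.cliqueNum ∧
        ∀ s : Set (Fin m), ¬ F.IsIndContained (G.induce s) →
          (G.induce s).chromaticNumber ≤ F.chromaticNumber) := by
  intro H
  have a1 : claw.Adj 0 1 := by simp [claw]
  have a2 : claw.Adj 0 2 := by simp [claw]
  have a3 : claw.Adj 0 3 := by simp [claw]
  obtain ⟨m, G, h1, -, h3⟩ := H 4 claw (fun h => by rw [h] at a1; exact a1) 2
  have hG : ¬ G.Colorable 2 := fun hc =>
    absurd (chromaticNumber_le_iff_colorable.mpr hc) (not_le.mpr h1)
  obtain ⟨n, z, hn, hper, hadj, hch⟩ := chordless G hG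
  have hn0 : 0 < n := by omega
  have hmul : ∀ q k, z (k + q * n) = z k := by
    intro q
    induction q with
    | zero => simp
    | succ q ih => intro k; rw [show k + (q + 1) * n = k + q * n + n by ring, hper, ih]
  have hnb : ∀ i j, G.Adj (z i) (z j) → z j = z (i + 1) ∨ z j = z (i + (n - 1)) := by
    intro i j hA
    have e : z j = z (i + (j + i * n - i) % n) := by
      have h0 : i ≤ j + i * n := le_trans (Nat.le_mul_of_pos_right i hn0) (Nat.le_add_left _ _)
      rw [← hmul i j, ← hmul ((j + i * n - i) / n) (i + _)]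
      congr 1
      have := Nat.mod_add_div' (j + i * n - i) n
      omega
    rw [e] at hA ⊢
    rcases hch i _ (Nat.mod_lt _ hn0) hA with h | h
    · left; rw [h]
    · right; congr 2; omega
  have hfree : ¬ claw.IsIndContained (G.induce (Set.range z)) := by
    rintro ⟨f⟩
    obtain ⟨i, hi⟩ := (f 0).2
    have hk : ∀ a, claw.Adj 0 a → (f a).1 = z (i + 1) ∨ (f a).1 = z (i + (n - 1)) := by
      intro a ha
      obtain ⟨j, hj⟩ := (f a).2
      have : G.Adj (f 0).1 (f a).1 := f.map_adj_iff.mpr ha
      rw [← hi, ← hj] at this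
      rw [← hj]
      exact hnb i j this
    have hne : ∀ a b, a ≠ b → (f a).1 ≠ (f b).1 := fun a b hab he =>
      hab (f.injective (Subtype.ext he))
    have b1 := hne 1 2 (by decide)
    have b2 := hne 1 3 (by decide)
    have b3 := hne 2 3 (by decide)
    rcases hk 1 a1 with c1 | c1 <;> rcases hk 2 a2 with c2 | c2 <;>
      rcases hk 3 a3 with c3 | c3 <;> simp_all
  have hle := (h3 _ hfree).trans (chromaticNumber_le_iff_colorable.mpr claw_col)
  obtain ⟨c⟩ := chromaticNumber_le_iff_colorable.mp hle
  have := (CritUnion.parity (fun t => c ⟨z t, t, rfl⟩) 0 n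
    fun t _ _ => c.valid (show G.Adj (z t) (z (t + 1)) from hadj t)).mp
    (by simp only [zero_add]; congr 2; simpa using (hper 0).symm)
  omega

end Pool.Agent.H19.Claw
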