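import Mathlib

set_option autoImplicit false

namespace Pool.Agent.H19.ParentTree

open SimpleGraph

variable {T : Type*}

/-- the graph joining every node to its parent -/
def pgraph (p : T → T) : SimpleGraph T := fromRel fun x y => y = p x

theorem padj {p : T → T} {x y : T} : (pgraph p).Adj x y ↔ x ≠ y ∧ (y = p x ∨ x = p y) :=
  fromRel_adj _ _ _

theorem conn_sub (p : T → T) (ρ : T → ℕ) (S : Set T) (t : T) (ht : t ∈ S)
    (h : ∀ x ∈ S, x ≠ t → p x ∈ S ∧ ρ (p x) < ρ x) : ((pgraph p).induce S).Connected := by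
  have key : ∀ n (x : T) (hx : x ∈ S), ρ x = n →
      ((pgraph p).induce S).Reachable ⟨x, hx⟩ ⟨t, ht⟩ := by
    intro n
    induction n using Nat.strong_induction_on with
    | _ n ih =>
      intro x hx hn
      by_cases e : x = t
      · subst e; rfl
      · obtain ⟨h1, h2⟩ := h x hx e
        refine Reachable.trans (Adj.reachable ?_) (ih _ (hn ▸ h2) _ h1 rfl)
        refine (padj (x := x) (y := p x)).mpr ⟨fun e => ?_, Or.inl rfl⟩
        rw [← e] at h2
        exact lt_irrefl _ h2
  haveI : Nonempty S := ⟨⟨t, ht⟩⟩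
  exact ⟨fun a b => (key _ a.1 a.2 rfl).trans (key _ b.1 b.2 rfl).symm⟩

theorem isTree [Finite T] (p : T → T) (ρ : T → ℕ) (r : T) (hr : p r = r)
    (h : ∀ x, x ≠ r → ρ (p x) < ρ x) : (pgraph p).IsTree := by
  classical
  have hc : (pgraph p).Connected := by
    have := conn_sub p ρ Set.univ r trivial fun x _ hx => ⟨trivial, h x hx⟩
    exact (Iso.connected_iff (induceUnivIso _)).mp this
  rw [isTree_iff_connected_and_card]
  refine ⟨hc, le_antisymm ?_ hc.card_vert_le_card_edgeSet_add_one⟩
  have h1 : Nat.card (pgraph p).edgeSet ≤ Nat.card {x : T // x ≠ r} := by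
    refine Nat.card_le_card_of_surjective (fun x => ⟨s(x.1, p x.1),
      (padj (x := x.1) (y := p x.1)).mpr ⟨fun e => by
        have := h x.1 x.2
        rw [← e] at this
        exact lt_irrefl _ this, Or.inl rfl⟩⟩) ?_
    · rintro ⟨e, he⟩
      induction e using Sym2.ind with
      | _ a b =>
        obtain ⟨hne, rfl | rfl⟩ := (padj (x := a) (y := b)).mp he
        · exact ⟨⟨a, fun e => hne (by rw [e, hr])⟩, rfl⟩
        · exact ⟨⟨b, fun e => hne (by rw [e, hr])⟩, Subtype.ext Sym2.eq_swap⟩
  haveI := Fintype.ofFinite T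
  have h2 : Nat.card {x : T // x ≠ r} + 1 = Nat.card T := by
    have : 0 < Fintype.card T := Fintype.card_pos_iff.mpr ⟨r⟩
    simp only [Nat.card_eq_fintype_card, Fintype.card_subtype_compl, Fintype.card_unique]
    omega
  omega

theorem card_le_of_preds {V : Type*} (S : Finset V) (N : ℕ) (P : ℕ → V → Prop)
    (h1 : ∀ v ∈ S, ∃ k < N, P k v) (h2 : ∀ k v w, v ∈ S → w ∈ S → P k v → P k w → v = w) :
    S.card ≤ N := by
  classical
  choose! f hf hf' using h1
  have := Finset.card_le_card_of_injOn (s := S) (t := Finset.range N) f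
    (fun v hv => by simpa using hf v hv)
    (fun v hv w hw e => h2 (f v) v w hv hw (hf' v hv) (e ▸ hf' w hw))
  simpa using this

end Pool.Agent.H19.ParentTree
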