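import Pool.Agent.H19.Hex
import Pool.Agent.H19.ParentTree

set_option autoImplicit false

namespace Pool.Agent.H19.Cluster

open SimpleGraph Pool.Agent.H19.ParentTree Pool.Agent.H19.Hex

def XV (n m : ℕ) := {l : List (Option (Fin (m + 1))) // l.length ≤ n + 1}

instance (n m : ℕ) : Finite (XV n m) := List.finite_length_le _ _

abbrev VV (n m : ℕ) := XV n m ⊕ (XV n m × Fin (n + 1) × Fin (m + 1))

variable {n m : ℕ}

def fanAdj : Option (Fin (m + 1)) → Option (Fin (m + 1)) → Prop
  | none, some _ => True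
  | some j, some j' => j'.1 = j.1 + 1
  | _, none => False

def R0 : VV n m → VV n m → Prop
  | Sum.inl a, Sum.inl b => ∃ x y s, a.1 = x :: s ∧ b.1 = y :: s ∧ fanAdj x y
  | Sum.inl a, Sum.inr g => a.1 <:+ g.1.1 ∧ a.1.length = g.2.1.1 + 1
  | Sum.inr g, Sum.inr h => g.1 = h.1 ∧ Nb (g.2.1.1, g.2.2.1) (h.2.1.1, h.2.2.1)
  | Sum.inr _, Sum.inl _ => False

def GG (n m : ℕ) : SimpleGraph (VV n m) := fromRel R0

theorem gadj {u v : VV n m} : (GG n m).Adj u v ↔ u ≠ v ∧ (R0 u v ∨ R0 v u) := fromRel_adj _ _ _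

def lay : VV n m → ℕ
  | Sum.inl a => a.1.length
  | Sum.inr g => g.2.1.1 + 1

def near (j : ℕ) : Option (Fin (m + 1)) → Prop
  | none => True
  | some j' => j'.1 = j ∨ j'.1 = j + 1

def inB (t : XV n m × Fin (m + 1)) : VV n m → Prop
  | Sum.inl a => a.1 <:+ t.1.1 ∨ ∃ x, a.1 = x :: t.1.1 ∧ near t.2.1 x
  | Sum.inr g => g.1 = t.1 ∧ (g.2.2.1 = t.2.1 ∨ g.2.2.1 = t.2.1 + 1)

def idx : Option (Fin (m + 1)) → Fin (m + 1)
  | none => 0
  | some j => j

def pred' (j : Fin (m + 1)) : Fin (m + 1) := ⟨j.1 - 1, by omega⟩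

def tl (a : XV n m) : XV n m := ⟨a.1.tail, by have := a.2; simp; omega⟩

def par (t : XV n m × Fin (m + 1)) : XV n m × Fin (m + 1) :=
  if t.2.1 = 0 then (tl t.1, idx (t.1.1.headD none)) else (t.1, pred' t.2)

def rk (t : XV n m × Fin (m + 1)) : ℕ := t.1.1.length * (m + 1) + t.2.1

def nilX : XV n m := ⟨[], by simp⟩

theorem rk_lt (t : XV n m × Fin (m + 1)) (h : t.2.1 ≠ 0 ∨ t.1.1 ≠ []) : rk (par t) < rk t := by
  unfold par
  split_ifs with h0
  · obtain ⟨⟨l, hl⟩, j⟩ := t
    cases l with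
    | nil => simp_all
    | cons x s =>
      have := (idx x).2
      simp only [rk, tl, List.tail_cons, List.headD_cons, List.length_cons]
      nlinarith
  · simp only [rk, pred']
    omega

theorem tree : (pgraph (par (n := n) (m := m))).IsTree := by
  refine isTree par rk (nilX, 0) rfl fun t ht => rk_lt t ?_
  by_contra h
  push Not at h
  exact ht (Prod.ext (Subtype.ext h.2) (Fin.ext h.1))

theorem near_idx (x : Option (Fin (m + 1))) : near (idx x).1 x := by
  cases x <;> simp [near, idx]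

theorem bag_conn (v : VV n m) : ((pgraph par).induce {t | inB t v}).Connected := by
  rcases v with ⟨l, hl⟩ | ⟨l, i, j⟩
  · cases l with
    | nil =>
      refine conn_sub par rk _ (nilX, 0) (Or.inl List.nil_suffix) fun t _ ht =>
        ⟨Or.inl List.nil_suffix, rk_lt t ?_⟩
      by_contra h
      push Not at h
      exact ht (Prod.ext (Subtype.ext h.2) (Fin.ext h.1))
    | cons x s =>
      refine conn_sub par rk _ (⟨s, by simp at hl; omega⟩, pred' (idx x))
        (Or.inr ⟨x, rfl, ?_⟩) ?_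
      · cases x with
        | none => trivial
        | some j => simp only [near, idx, pred']; omega
      · rintro ⟨⟨t, ht⟩, j⟩ hin hne
        rcases hin with h | ⟨y, h, hy⟩
        · have htn : t ≠ [] := by
            rintro rfl
            simp at h
          refine ⟨?_, rk_lt _ (Or.inr htn)⟩
          unfold par
          split_ifs with h0
          · cases t with
            | nil => exact absurd rfl htn
            | cons y t =>
              rcases List.suffix_cons_iff.mp h with e | e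
              · obtain ⟨rfl, rfl⟩ := List.cons.inj e
                exact Or.inr ⟨x, rfl, near_idx x⟩
              · exact Or.inl e
          · exact Or.inl h
        · obtain ⟨rfl, rfl⟩ := List.cons.inj h
          have hj : j.1 ≠ (pred' (idx x)).1 := fun e => hne (Prod.ext rfl (Fin.ext e))
          have h0 : j.1 ≠ 0 ∧ near (j.1 - 1) x := by
            cases x with
            | none => exact ⟨by simpa [pred', idx] using hj, trivial⟩
            | some j' =>
              simp only [near, idx, pred'] at *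
              omega
          refine ⟨?_, rk_lt _ (Or.inl h0.1)⟩
          unfold par
          rw [if_neg h0.1]
          exact Or.inr ⟨x, rfl, h0.2⟩
  · refine conn_sub par rk _ (l, pred' j) ⟨rfl, by simp only [pred']; omega⟩ ?_
    rintro ⟨t, j'⟩ ⟨h1, h2⟩ hne
    simp only at h1 h2
    subst h1
    have hj : j'.1 ≠ (pred' j).1 := fun e => hne (Prod.ext rfl (Fin.ext e))
    simp only [pred'] at hj
    have h0 : j'.1 ≠ 0 := by omega
    refine ⟨?_, rk_lt _ (Or.inl h0)⟩
    unfold par
    rw [if_neg h0]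
    exact ⟨rfl, by simp only [pred']; omega⟩

theorem edge_bag {u v : VV n m} (h : R0 u v) : ∃ t, inB t u ∧ inB t v := by
  rcases u with a | g <;> rcases v with b | g'
  · obtain ⟨x, y, s, h1, h2, h3⟩ := h
    have hs : s.length ≤ n + 1 := by have := a.2; rw [h1] at this; simp at this; omega
    cases x with
    | none => exact ⟨(⟨s, hs⟩, idx y), Or.inr ⟨_, h1, trivial⟩, Or.inr ⟨_, h2, near_idx y⟩⟩
    | some j =>
      cases y with
      | none => exact h3.elim
      | some j' => exact ⟨(⟨s, hs⟩, j), Or.inr ⟨_, h1, Or.inl rfl⟩, Or.inr ⟨_, h2, Or.inr h3⟩⟩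
  · exact ⟨(g'.1, g'.2.2), Or.inl h.1, rfl, Or.inl rfl⟩
  · exact h.elim
  · refine ⟨(g.1, g.2.2), ⟨rfl, Or.inl rfl⟩, h.1.symm, ?_⟩
    have := h.2
    simp only [Nb] at this ⊢
    omega

theorem lay_le {u v : VV n m} (h : R0 u v) : lay u ≤ lay v + 1 ∧ lay v ≤ lay u + 1 := by
  rcases u with a | g <;> rcases v with b | g'
  · obtain ⟨x, y, s, h1, h2, -⟩ := h
    simp [lay, h1, h2]
  · simp [lay, h.2]
  · exact h.elim
  · have := h.2
    simp only [Nb, lay] at this ⊢
    omega

theorem suffix_eq {α : Type} {a b l : List α} (h1 : a <:+ l) (h2 : b <:+ l)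
    (h : a.length = b.length) : a = b :=
  (List.suffix_of_suffix_length_le h1 h2 h.le).eq_of_length h

def bagP (t : XV n m × Fin (m + 1)) (k : ℕ) : VV n m → Prop
  | Sum.inl a => (k = 0 ∧ a.1 <:+ t.1.1) ∨ (k = 1 ∧ a.1 = none :: t.1.1) ∨
      ∃ j : Fin (m + 1), a.1 = some j :: t.1.1 ∧ j.1 + 2 = t.2.1 + k ∧ 2 ≤ k ∧ k ≤ 3
  | Sum.inr g => g.1 = t.1 ∧ g.2.2.1 + 4 = t.2.1 + k ∧ 4 ≤ k

theorem width (t : XV n m × Fin (m + 1)) (i : ℕ) (S : Finset (VV n m))
    (hS : ∀ v ∈ S, inB t v ∧ lay v = i) : S.card ≤ 6 := by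
  refine card_le_of_preds S 6 (bagP t) (fun v hv => ?_) fun k v w hv hw h1 h2 => ?_
  · have := (hS v hv).1
    rcases v with a | g
    · rcases this with h | ⟨x, h, hx⟩
      · exact ⟨0, by omega, Or.inl ⟨rfl, h⟩⟩
      · cases x with
        | none => exact ⟨1, by omega, Or.inr (Or.inl ⟨rfl, h⟩)⟩
        | some j =>
          rcases hx with hx | hx
          · exact ⟨2, by omega, Or.inr (Or.inr ⟨j, h, by omega, by omega, by omega⟩)⟩
          · exact ⟨3, by omega, Or.inr (Or.inr ⟨j, h, by omega, by omega, by omega⟩)⟩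
    · rcases this.2 with h | h
      · exact ⟨4, by omega, this.1, by omega, by omega⟩
      · exact ⟨5, by omega, this.1, by omega, by omega⟩
  · have e := (hS v hv).2.trans (hS w hw).2.symm
    rcases v with a | g <;> rcases w with b | g'
    · congr 1
      apply Subtype.ext
      rcases h1 with ⟨k1, h1⟩ | ⟨k1, h1⟩ | ⟨j, h1, k1⟩ <;>
        rcases h2 with ⟨k2, h2⟩ | ⟨k2, h2⟩ | ⟨j', h2, k2⟩ <;> try omega
      · exact suffix_eq h1 h2 e
      · rw [h1, h2]
      · rw [h1, h2, show j = j' from Fin.ext (by omega)]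
    · have := h2.2.2
      rcases h1 with ⟨k1, -⟩ | ⟨k1, -⟩ | ⟨j, -, k1⟩ <;> omega
    · have := h1.2.2
      rcases h2 with ⟨k1, -⟩ | ⟨k1, -⟩ | ⟨j, -, k1⟩ <;> omega
    · simp only [lay] at e
      have := h1.2.1
      have := h2.2.1
      exact congrArg _ (Prod.ext (h1.1.trans h2.1.symm)
        (Prod.ext (Fin.ext (by omega)) (Fin.ext (by omega))))

def gridP (g : XV n m × Fin (n + 1) × Fin (m + 1)) (k : ℕ) : VV n m → Prop
  | Sum.inl _ => k = 9
  | Sum.inr h => h.2.1.1 + 1 = g.2.1.1 + k / 3 ∧ h.2.2.1 + 1 = g.2.2.1 + k % 3 ∧ k < 9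

theorem grid_deg (g : XV n m × Fin (n + 1) × Fin (m + 1)) (S : Finset (VV n m))
    (hS : ∀ v ∈ S, (GG n m).Adj (Sum.inr g) v) : S.card ≤ 10 := by
  refine card_le_of_preds S 10 (gridP g) (fun v hv => ?_) fun k v w hv hw h1 h2 => ?_
  · rcases v with a | h
    · exact ⟨9, by omega, rfl⟩
    · have : Nb (g.2.1.1, g.2.2.1) (h.2.1.1, h.2.2.1) ∨ Nb (h.2.1.1, h.2.2.1) (g.2.1.1, g.2.2.1) :=
        (gadj.mp (hS _ hv)).2.imp And.right And.right
      refine ⟨3 * (h.2.1.1 + 1 - g.2.1.1) + (h.2.2.1 + 1 - g.2.2.1), ?_⟩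
      simp only [Nb, gridP] at this ⊢
      omega
  · have a1 := (gadj.mp (hS _ hv)).2
    have a2 := (gadj.mp (hS _ hw)).2
    rcases v with a | h <;> rcases w with b | h'
    · have b1 := a1.resolve_left id
      have b2 := a2.resolve_left id
      exact congrArg _ (Subtype.ext (suffix_eq b1.1 b2.1 (b1.2.trans b2.2.symm)))
    · simp only [gridP] at h1 h2; omega
    · simp only [gridP] at h1 h2; omega
    · have b1 : g.1 = h.1 := a1.elim And.left fun x => x.1.symm
      have b2 : g.1 = h'.1 := a2.elim And.left fun x => x.1.symm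
      simp only [gridP] at h1 h2
      exact congrArg _ (Prod.ext (b1.symm.trans b2)
        (Prod.ext (Fin.ext (by omega)) (Fin.ext (by omega))))

theorem fan_nb {a b : XV n m} (h : (GG n m).Adj (Sum.inl a) (Sum.inl b)) :
    ∃ x y s, a.1 = x :: s ∧ b.1 = y :: s ∧ (fanAdj x y ∨ fanAdj y x) := by
  rcases (gadj.mp h).2 with ⟨x, y, s, h1, h2, h3⟩ | ⟨x, y, s, h1, h2, h3⟩
  · exact ⟨x, y, s, h1, h2, Or.inl h3⟩
  · exact ⟨y, x, s, h2, h1, Or.inr h3⟩

theorem path_deg (a : XV n m) (j : Fin (m + 1)) (s : List (Option (Fin (m + 1))))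
    (ha : a.1 = some j :: s) (S : Finset (VV n m))
    (hS : ∀ v ∈ S, ∃ b, v = Sum.inl b ∧ (GG n m).Adj (Sum.inl a) (Sum.inl b)) : S.card ≤ 10 := by
  refine card_le_of_preds S 10 (fun k v => ∃ b, v = Sum.inl b ∧ ((k = 3 ∧ b.1 = none :: s) ∨
    ∃ j' : Fin (m + 1), b.1 = some j' :: s ∧ j'.1 + 1 = j.1 + k ∧ k < 3)) (fun v hv => ?_) ?_
  · obtain ⟨b, rfl, hb⟩ := hS v hv
    obtain ⟨x, y, s', h1, h2, h3⟩ := fan_nb hb
    rw [ha] at h1
    obtain ⟨rfl, rfl⟩ := List.cons.inj h1
    cases y with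
    | none => exact ⟨3, by omega, b, rfl, Or.inl ⟨rfl, h2⟩⟩
    | some j' =>
      simp only [fanAdj] at h3
      exact ⟨j'.1 + 1 - j.1, by omega, b, rfl, Or.inr ⟨j', h2, by omega, by omega⟩⟩
  · rintro k v w - - ⟨b, rfl, h1⟩ ⟨b', rfl, h2⟩
    congr 1
    apply Subtype.ext
    rcases h1 with ⟨k1, h1⟩ | ⟨j1, h1, k1⟩ <;> rcases h2 with ⟨k2, h2⟩ | ⟨j2, h2, k2⟩ <;> try omega
    · rw [h1, h2]
    · rw [h1, h2, show j1 = j2 from Fin.ext (by omega)]

theorem codeg (u v : VV n m) (huv : u ≠ v) (S : Finset (VV n m))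
    (hS : ∀ w ∈ S, (GG n m).Adj u w ∧ (GG n m).Adj v w) : S.card ≤ 10 := by
  rcases u with a | g
  · rcases v with b | g
    · have hin : ∀ w ∈ S, ∃ c, w = Sum.inl c := by
        intro w hw
        rcases w with c | g
        · exact ⟨c, rfl⟩
        · have b1 := (gadj.mp (hS _ hw).1).2.resolve_right id
          have b2 := (gadj.mp (hS _ hw).2).2.resolve_right id
          exact absurd (congrArg _ (Subtype.ext (suffix_eq b1.1 b2.1 (b1.2.trans b2.2.symm)))) huv
      rcases S.eq_empty_or_nonempty with rfl | ⟨w, hw⟩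
      · simp
      · obtain ⟨c, rfl⟩ := hin w hw
        obtain ⟨x, y, s, h1, h2, -⟩ := fan_nb (hS _ hw).1
        obtain ⟨x', y', s', h1', h2', -⟩ := fan_nb (hS _ hw).2
        rw [h2] at h2'
        obtain ⟨rfl, rfl⟩ := List.cons.inj h2'
        cases x with
        | some j =>
          refine path_deg a j s h1 S fun w hw => ?_
          obtain ⟨c, rfl⟩ := hin w hw
          exact ⟨c, rfl, (hS _ hw).1⟩
        | none =>
          cases x' with
          | some j =>
            refine path_deg b j s h1' S fun w hw => ?_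
            obtain ⟨c, rfl⟩ := hin w hw
            exact ⟨c, rfl, (hS _ hw).2⟩
          | none => exact absurd (congrArg _ (Subtype.ext (h1.trans h1'.symm))) huv
    · exact grid_deg g S fun w hw => (hS w hw).2
  · exact grid_deg g S fun w hw => (hS w hw).1

theorem no_K2t : ¬ (completeBipartiteGraph (Fin 2) (Fin 11)).IsContained (GG n m) := by
  classical
  rintro ⟨f⟩
  have := codeg (f (Sum.inl 0)) (f (Sum.inl 1)) (fun h => by simpa using f.injective h)
    (Finset.univ.image fun k => f (Sum.inr k)) (by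
      intro w hw
      obtain ⟨k, -, rfl⟩ := Finset.mem_image.mp hw
      exact ⟨f.toHom.map_adj (by simp), f.toHom.map_adj (by simp)⟩)
  rw [Finset.card_image_of_injective _ (fun a b h => by simpa using f.injective h)] at this
  simp at this

def mono {V : Type} (G : SimpleGraph V) (c : V → Fin 3) : SimpleGraph V where
  Adj u v := G.Adj u v ∧ c u = c v
  symm := ⟨fun _ _ h => ⟨h.1.symm, h.2.symm⟩⟩
  loopless := ⟨fun _ h => h.1.ne rfl⟩

theorem reach_bound {V : Type} [Finite V] (G : SimpleGraph V) (c : V → Fin 3) (C : ℕ)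
    (h : ∀ S : Finset V, (∀ u ∈ S, ∀ w ∈ S, c u = c w) → (G.induce (S : Set V)).Connected →
      S.card ≤ C) (v : V) {ι : Type} (s : Finset ι) (f : ι → V) (hf : Set.InjOn f s)
    (hr : ∀ i ∈ s, (mono G c).Reachable v (f i)) : s.card ≤ C := by
  classical
  haveI := Fintype.ofFinite V
  let S : Finset V := Finset.univ.filter fun w => (mono G c).Reachable v w
  have hS : ∀ w, w ∈ S ↔ (mono G c).Reachable v w := fun w => by simp [S]
  have key : ∀ u w (p : (mono G c).Walk u w) (hu : u ∈ S), c u = c w ∧ ∃ hw : w ∈ S,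
      (G.induce (S : Set V)).Reachable ⟨u, hu⟩ ⟨w, hw⟩ := by
    intro u w p
    induction p with
    | nil => exact fun hu => ⟨rfl, hu, Reachable.refl _⟩
    | cons h p ih =>
      intro hu
      obtain ⟨e, hw, hr⟩ := ih ((hS _).mpr (((hS _).mp hu).trans h.reachable))
      refine ⟨h.2.trans e, hw, Reachable.trans (Adj.reachable ?_) hr⟩
      exact h.1
  have hv : v ∈ S := (hS v).mpr (Reachable.refl _)
  have k2 : ∀ w ∈ S, c v = c w ∧ ∃ hw : w ∈ S,
      (G.induce (S : Set V)).Reachable ⟨v, hv⟩ ⟨w, hw⟩ := fun w hw =>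
    ((hS w).mp hw).elim fun p => key v w p hv
  refine le_trans (Finset.card_le_card_of_injOn f (fun i hi => (hS _).mpr (hr i hi)) hf)
    (h S (fun u hu w hw => (k2 u hu).1.symm.trans (k2 w hw).1) ?_)
  haveI : Nonempty (S : Set V) := ⟨⟨v, hv⟩⟩
  exact ⟨fun a b => (k2 a.1 a.2).2.2.symm.trans (k2 b.1 b.2).2.2⟩

theorem key3 : ∀ a x y : Fin 3, a ≠ 0 → x ≠ 0 → y ≠ 0 → a ≠ x → a ≠ y → x = y := by
  intro a x y
  omega

theorem no_col (C : ℕ) (m : ℕ) (hm : (C + 1) * ((C + 1) * C + 1) ≤ m) (c : VV C m → Fin 3)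
    (hb : ∀ (v : VV C m) {ι : Type} (s : Finset ι) (f : ι → VV C m), Set.InjOn f s →
      (∀ i ∈ s, (mono (GG C m) c).Reachable v (f i)) → s.card ≤ C) : False := by
  classical
  have hpos : ∀ (b : Fin ((C + 1) * C + 1)) (k : ℕ), b.1 * (C + 1) + min k C < m + 1 := by
    intro b k
    have h1 : (b.1 + 1) * (C + 1) ≤ ((C + 1) * C + 1) * (C + 1) := Nat.mul_le_mul_right _ b.2
    have h2 := min_le_right k C
    nlinarith
  let pos : Fin ((C + 1) * C + 1) → ℕ → Fin (m + 1) := fun b k => ⟨_, hpos b k⟩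
  have pinj : ∀ b b' k k', pos b k = pos b' k' → b = b' := by
    intro b b' k k' h
    have h1 : (b.1 * (C + 1) + min k C) / (C + 1) = (b'.1 * (C + 1) + min k' C) / (C + 1) :=
      congrArg (fun x : Fin (m + 1) => x.1 / (C + 1)) h
    have e : ∀ a k, (a * (C + 1) + min k C) / (C + 1) = a := by
      intro a k
      rw [add_comm, Nat.add_mul_div_right _ _ (Nat.succ_pos _),
        Nat.div_eq_of_lt (by have := min_le_right k C; omega), zero_add]
    rw [e, e] at h1
    exact Fin.ext h1
  have step1 : ∀ (s : List (Option (Fin (m + 1)))) (hs : s.length ≤ C),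
      ∃ x, c (Sum.inl ⟨x :: s, by simpa using hs⟩) = 0 := by
    intro s hs
    by_contra h0
    push Not at h0
    let vx : Option (Fin (m + 1)) → VV C m := fun x => Sum.inl ⟨x :: s, by simpa using hs⟩
    have vinj : ∀ x y, vx x = vx y → x = y := fun x y h =>
      (List.cons.inj (congrArg Subtype.val (Sum.inl.inj h))).1
    have vadj : ∀ x y, x ≠ y → fanAdj x y → (GG C m).Adj (vx x) (vx y) := fun x y hne h =>
      gadj.mpr ⟨fun e => hne (vinj _ _ e), Or.inl ⟨x, y, s, rfl, rfl, h⟩⟩
    by_cases hall : ∀ b, ∃ k, c (vx none) = c (vx (some (pos b k)))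
    · choose k hk using hall
      have := hb (vx none) Finset.univ (fun b => vx (some (pos b (k b))))
        (fun b _ b' _ h => pinj _ _ _ _ (Option.some.inj (vinj _ _ h)))
        (fun b _ => Adj.reachable ⟨vadj _ _ (by simp) trivial, hk b⟩)
      simp only [Finset.card_univ, Fintype.card_fin] at this
      nlinarith
    · push Not at hall
      obtain ⟨b, hb'⟩ := hall
      have hr : ∀ k ≤ C, (mono (GG C m) c).Reachable (vx (some (pos b 0))) (vx (some (pos b k))) := by
        intro k
        induction k with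
        | zero => exact fun _ => Reachable.refl _
        | succ k ih =>
          intro hk
          have e : (pos b (k + 1)).1 = (pos b k).1 + 1 := by simp only [pos]; omega
          refine (ih (by omega)).trans (Adj.reachable ⟨vadj _ _ ?_ e, ?_⟩)
          · intro h
            rw [Option.some.inj h] at e
            omega
          · exact key3 _ _ _ (h0 none) (h0 _) (h0 _) (hb' k) (hb' (k + 1))
      have := hb _ (Finset.range (C + 1)) (fun k => vx (some (pos b k))) (by
        intro k hk k' hk' h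
        have := congrArg Fin.val (Option.some.inj (vinj _ _ h))
        simp only [pos, Finset.coe_range, Set.mem_Iio] at this hk hk'
        omega) (fun k hk => hr k (by simpa [Nat.lt_succ_iff] using hk))
      simp at this
  have step2 : ∀ k ≤ C + 1, ∃ l : List (Option (Fin (m + 1))), l.length = k ∧
      ∀ a : XV C m, a.1 <:+ l → a.1 ≠ [] → c (Sum.inl a) = 0 := by
    intro k
    induction k with
    | zero => exact fun _ => ⟨[], rfl, fun a h1 h2 => absurd (List.suffix_nil.mp h1) h2⟩
    | succ k ih =>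
      intro hk
      obtain ⟨l, hl, h⟩ := ih (by omega)
      obtain ⟨x, hx⟩ := step1 l (by omega)
      refine ⟨x :: l, by simp [hl], fun a h1 h2 => ?_⟩
      rcases List.suffix_cons_iff.mp h1 with e | e
      · rw [← hx]
        congr 2
        exact Subtype.ext e
      · exact h a e h2
  obtain ⟨l, hl, hl0⟩ := step2 (C + 1) le_rfl
  let gv : Fin ((C + 1) * C + 1) → ℕ × ℕ → VV C m := fun b a =>
    Sum.inr (⟨l, hl.le⟩, ⟨min a.1 C, by omega⟩, pos b a.2)
  by_cases hall : ∀ b, ∃ a, c (gv b a) = 0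
  · choose a ha using hall
    obtain ⟨i, hi⟩ := Fintype.exists_lt_card_fiber_of_mul_lt_card (n := C)
      (fun b => (⟨min (a b).1 C, by omega⟩ : Fin (C + 1))) (by simp)
    let x : XV C m := ⟨l.drop (C - i.1), by simp; omega⟩
    have hx : x.1.length = i.1 + 1 := by have := i.2; simp [x]; omega
    have := hb (Sum.inl x) (Finset.univ.filter fun b =>
      (⟨min (a b).1 C, by omega⟩ : Fin (C + 1)) = i) (fun b => gv b (a b))
      (fun b _ b' _ h => pinj _ _ _ _ (congrArg (fun g => g.2.2) (Sum.inr.inj h))) (by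
        intro b hb'
        refine Adj.reachable ⟨gadj.mpr ⟨by simp [gv], Or.inl ⟨List.drop_suffix _ _, ?_⟩⟩, ?_⟩
        · rw [hx, ← (Finset.mem_filter.mp hb').2]
        · rw [ha b, hl0 x (List.drop_suffix _ _) (fun e => by simp [e] at hx)])
    omega
  · push Not at hall
    obtain ⟨b, hb'⟩ := hall
    obtain ⟨a, ha⟩ := hex C (fun a => c (gv b a) = 1)
      (fun a a' => (mono (GG C m) c).Reachable (gv b a) (gv b a')) (fun _ => Reachable.refl _)
      (fun _ _ h => h.symm) (fun _ _ _ h h' => h.trans h') (by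
        intro a a' h1 h2 h3 h4
        have hnb : Nb (min a.1 C, (pos b a.2).1) (min a'.1 C, (pos b a'.2).1) := by
          simp only [Nb, pos] at h3 ⊢
          omega
        refine Adj.reachable ⟨gadj.mpr ⟨fun e => ?_, Or.inl ⟨rfl, hnb⟩⟩, ?_⟩
        · have e1 := congrArg (fun g => g.2.1.1) (Sum.inr.inj e)
          have e2 := congrArg (fun g => g.2.2.1) (Sum.inr.inj e)
          simp only [Nb] at hnb e1 e2
          omega
        · have key : ∀ x y : Fin 3, x ≠ 0 → y ≠ 0 → (x = 1 ↔ y = 1) → x = y := by decide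
          exact key _ _ (hb' a) (hb' a') h4)
    rcases ha with ha | ha
    · choose! i hi hi' using ha
      have := hb _ (Finset.range (C + 1)) (fun j => gv b (i j, j)) (by
        intro k hk k' hk' h
        have := congrArg (fun g => g.2.2.1) (Sum.inr.inj h)
        simp only [pos, Finset.coe_range, Set.mem_Iio] at this hk hk'
        omega) (fun k hk => hi' k (by simpa [Nat.lt_succ_iff] using hk))
      simp at this
    · choose! j hj hj' using ha
      have := hb _ (Finset.range (C + 1)) (fun i => gv b (i, j i)) (by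
        intro k hk k' hk' h
        have := congrArg (fun g => g.2.1.1) (Sum.inr.inj h)
        simp only [Finset.coe_range, Set.mem_Iio] at this hk hk'
        omega) (fun k hk => hj' k (by simpa [Nat.lt_succ_iff] using hk))
      simp at this

end Pool.Agent.H19.Cluster
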