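import Mathlib

set_option autoImplicit false
set_option linter.unusedSectionVars false

namespace Pool.Agent.H19.Cob

open Finset Equiv Classical

/-- Vertices `V`, edges `E` with two ends, polygons `P` with a boundary word of oriented edges. -/
structure Cx (V E P : Type) where
  src : E → V
  tgt : E → V
  bd : P → List (E × Bool)

/-- The opposite orientation. -/
def rev {E : Type} (d : E × Bool) : E × Bool := (d.1, !d.2)

/-- Normalised Hamming distance. -/
noncomputable def dh {n : ℕ} (σ τ : Perm (Fin n)) : ℝ := (#{j | σ j ≠ τ j} : ℝ) / n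

variable {V E P : Type} [Fintype V] [Fintype E] [Fintype P] (X : Cx V E P)

/-- Origin of an oriented edge. -/
def Cx.o (d : E × Bool) : V := if d.2 then X.src d.1 else X.tgt d.1

/-- Terminus of an oriented edge. -/
def Cx.t (d : E × Bool) : V := X.o (rev d)

/-- Every boundary word is a nonempty cyclically reduced closed path. -/
def Cx.Polygonal : Prop :=
  ∀ p, X.bd p ≠ [] ∧ (X.bd p ++ X.bd p).IsChain fun d d' => X.t d = X.o d' ∧ d' ≠ rev d

/-- The underlying graph is connected. -/
def Cx.Conn : Prop := ∀ u v, Relation.ReflTransGen (fun a b => ∃ d, X.o d = a ∧ X.t d = b) u v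

/-- Number of edge ends at a vertex. -/
noncomputable def Cx.deg (v : V) : ℕ := #{d | X.o d = v}

/-- The edge `e` lies on the polygon `p`. -/
def Cx.On (e : E) (p : P) : Prop := ∃ b, (e, b) ∈ X.bd p

/-- Normalise a weight function to total mass one. -/
noncomputable def nrm {A : Type} [Fintype A] (w : A → ℝ) (a : A) : ℝ := w a / ∑ b, w b

noncomputable def Cx.mu2 (_ : Cx V E P) : P → ℝ := nrm fun _ => 1

noncomputable def Cx.mu1 : E → ℝ := nrm fun e => ∑ p with X.On e p, X.mu2 p

noncomputable def Cx.mu0 : V → ℝ := nrm fun v => ∑ e with X.src e = v ∨ X.tgt e = v, X.mu1 e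

variable {n : ℕ}

/-- Coboundary of a zero-cochain. -/
def Cx.del (β : V → Perm (Fin n)) (d : E × Bool) : Perm (Fin n) := (β (X.o d))⁻¹ * β (X.t d)

/-- Distance of one-cochains. -/
noncomputable def Cx.d1 (α α' : E × Bool → Perm (Fin n)) : ℝ :=
  ∑ d, X.mu1 d.1 / 2 * dh (α d) (α' d)

/-- Norm of the coboundary of a one-cochain, averaged over all orientations of each polygon. -/
noncomputable def Cx.n2 (α : E × Bool → Perm (Fin n)) : ℝ :=
  ∑ p, ∑ i ∈ range (X.bd p).length, X.mu2 p / (2 * (X.bd p).length) *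
    (dh (((X.bd p).rotate i).map α).prod 1 +
      dh ((((X.bd p).rotate i).reverse.map rev).map α).prod 1)

/-- The Cheeger constant in dimension zero is at least `c`. -/
def Cx.Exp0 (c : ℝ) : Prop := ∀ n, 1 ≤ n → ∀ β : V → Perm (Fin n),
  ∃ σ, c * ∑ v, X.mu0 v * dh (β v) σ ≤ X.d1 (X.del β) 1

/-- The Cheeger constant in dimension one is at least `c`. -/
def Cx.Exp1 (c : ℝ) : Prop := ∀ n, 1 ≤ n → ∀ α : E × Bool → Perm (Fin n),
  (∀ d, α (rev d) = (α d)⁻¹) → ∃ β, c * X.d1 α (X.del β) ≤ X.n2 α

/-! ### Hamming distance -/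

lemma dh_nonneg (σ τ : Perm (Fin n)) : 0 ≤ dh σ τ := by unfold dh; positivity

lemma dh_mul (σ τ ρ : Perm (Fin n)) : dh (σ * ρ) (τ * ρ) = dh σ τ := by
  unfold dh
  congr 2
  refine card_bij (fun j _ => ρ j) (fun j hj => ?_)
    (fun a _ b _ h => ρ.injective h) fun j hj => ⟨ρ⁻¹ j, ?_, by simp⟩
  · exact mem_filter.2 ⟨mem_univ _, (mem_filter.1 hj).2⟩
  · refine mem_filter.2 ⟨mem_univ _, ?_⟩
    have := (mem_filter.1 hj).2
    simpa using this

lemma dh_mul' (σ τ ρ : Perm (Fin n)) : dh (ρ * σ) (ρ * τ) = dh σ τ := by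
  unfold dh
  simp

lemma dh_comm (σ τ : Perm (Fin n)) : dh σ τ = dh τ σ := by
  unfold dh
  simp only [ne_comm]

lemma dh_inv (σ τ : Perm (Fin n)) : dh σ⁻¹ τ⁻¹ = dh σ τ := by
  rw [← dh_mul _ _ σ, ← dh_mul' _ _ τ, dh_comm]
  simp

lemma dh_conj (a b : Perm (Fin n)) : dh (a * b) 1 = dh (b * a) 1 := by
  rw [← dh_mul _ _ a, ← dh_mul' (b * a) 1 a]
  simp [mul_assoc]

lemma prod_rev (α : E × Bool → Perm (Fin n)) (hα : ∀ d, α (rev d) = (α d)⁻¹)
    (l : List (E × Bool)) : ((l.reverse.map rev).map α).prod = ((l.map α).prod)⁻¹ := by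
  induction l with
  | nil => simp
  | cons a l ih =>
    simp only [List.reverse_cons, List.map_append, List.prod_append, ih]
    simp [hα]

lemma dh_rot (α : E × Bool → Perm (Fin n)) (l : List (E × Bool)) (i : ℕ) (hi : i < l.length) :
    dh ((l.rotate i).map α).prod 1 = dh (l.map α).prod 1 := by
  rw [List.rotate_eq_drop_append_take hi.le, List.map_append, List.prod_append, dh_conj,
    ← List.prod_append, ← List.map_append, List.take_append_drop]

lemma n2_eq (hX : ∀ p, X.bd p ≠ []) (α : E × Bool → Perm (Fin n))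
    (hα : ∀ d, α (rev d) = (α d)⁻¹) :
    X.n2 α = ∑ p, X.mu2 p * dh ((X.bd p).map α).prod 1 := by
  refine sum_congr rfl fun p _ => ?_
  have h : ((X.bd p).length : ℝ) ≠ 0 := by simpa using hX p
  rw [sum_congr rfl (g := fun _ => X.mu2 p / (2 * (X.bd p).length) *
    (2 * dh ((X.bd p).map α).prod 1))]
  · simp only [sum_const, card_range, nsmul_eq_mul]
    field_simp
  · intro i hi
    rw [prod_rev α hα, ← inv_one, dh_inv, inv_one, dh_rot α _ _ (mem_range.1 hi), ← two_mul]

lemma d1_eq (α α' : E × Bool → Perm (Fin n)) (hα : ∀ d, α (rev d) = (α d)⁻¹)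
    (hα' : ∀ d, α' (rev d) = (α' d)⁻¹) :
    X.d1 α α' = ∑ e, X.mu1 e * dh (α (e, true)) (α' (e, true)) := by
  unfold Cx.d1
  rw [Fintype.sum_prod_type]
  refine sum_congr rfl fun e _ => ?_
  have h1 := hα (e, true)
  have h2 := hα' (e, true)
  simp only [rev, Bool.not_true] at h1 h2
  rw [Fintype.sum_bool, h1, h2, dh_inv]
  ring

lemma del_rev (β : V → Perm (Fin n)) (d : E × Bool) : X.del β (rev d) = (X.del β d)⁻¹ := by
  simp [Cx.del, Cx.t, rev]

lemma mu1_eq [Nonempty P] (h : ∀ e p, X.On e p) (e : E) : X.mu1 e = 1 / Fintype.card E := by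
  have h0 : (Fintype.card P : ℝ) ≠ 0 := by simp
  simp [Cx.mu1, Cx.mu2, nrm, h, h0]

/-! ### Random subproducts -/

lemma subprod {A : Type} (f : A → Perm (Fin n)) (j : Fin n) (cs : List (List A)) :
    ∀ g : Perm (Fin n), (∃ c ∈ cs, (c.map f).prod j ≠ j) →
      (cs.sublists'.length : ℝ) ≤ 2 * (cs.sublists'.map fun s =>
        if (g * (s.flatten.map f).prod) j ≠ j then (1 : ℝ) else 0).sum := by
  induction cs with
  | nil => simp
  | cons a l ih =>
    intro g hg
    rw [List.sublists'_cons, List.map_append, List.sum_append, List.length_append, List.length_map,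
      List.map_map]
    have e : ((fun s : List (List A) => if (g * (s.flatten.map f).prod) j ≠ j then (1 : ℝ) else 0) ∘
        List.cons a) = fun s => if ((g * (a.map f).prod) * (s.flatten.map f).prod) j ≠ j
          then (1 : ℝ) else 0 := by
      funext s
      simp [mul_assoc]
    rw [e]
    by_cases h : ∃ c ∈ l, (c.map f).prod j ≠ j
    · have h1 := ih g h
      have h2 := ih (g * (a.map f).prod) h
      rw [Nat.cast_add]
      linarith
    · have ha : (a.map f).prod j ≠ j := by
        obtain ⟨c, hc, h'⟩ := hg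
        rcases List.mem_cons.1 hc with rfl | hc
        exacts [h', absurd ⟨c, hc, h'⟩ h]
      have hs : ∀ s : List (List A), (∀ c ∈ s, c ∈ l) → (s.flatten.map f).prod j = j := by
        intro s
        induction s with
        | nil => simp
        | cons c s ih =>
          intro hs
          have h1 : (c.map f).prod j = j := by
            by_contra h'
            exact h ⟨c, hs c (by simp), h'⟩
          rw [List.flatten_cons, List.map_append, List.prod_append, Perm.mul_apply,
            ih fun c hc => hs c (by simp [hc]), h1]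
      have key : ∀ g' : Perm (Fin n), (l.sublists'.map fun s =>
          if (g' * (s.flatten.map f).prod) j ≠ j then (1 : ℝ) else 0).sum =
          l.sublists'.length * if g' j ≠ j then (1 : ℝ) else 0 := by
        intro g'
        rw [List.map_congr_left (g := fun _ => if g' j ≠ j then (1 : ℝ) else 0)]
        · simp
        · intro s hs'
          rw [Perm.mul_apply, hs s fun c hc => (List.mem_sublists'.1 hs').subset hc]
      rw [key, key]
      have h0 : (0 : ℝ) ≤ l.sublists'.length := by positivity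
      rw [Nat.cast_add]
      by_cases h1 : g j = j
      · have h2 : (g * (a.map f).prod) j ≠ j := fun h2 => ha (g.injective (h2.trans h1.symm))
        rw [if_pos h2, if_neg (not_not.2 h1)]
        linarith
      · rw [if_pos h1]
        split_ifs <;> linarith

end Pool.Agent.H19.Cob
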