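import Pool.Agent.H19.Cob1
import Pool.Agent.H86.RoeA

set_option autoImplicit false
set_option linter.unusedSectionVars false

namespace Pool.Agent.H19.Cob

open Finset Equiv Pool.Agent.H86.Roe

open Classical in
lemma mu0_le {V E P : Type} [Fintype V] [Fintype E] [Fintype P] [Nonempty P] [Nonempty E]
    (X : Cx V E P) (hon : ∀ e p, X.On e p) (D : ℕ) (hd : ∀ v, X.deg v ≤ D) (v : V) :
    X.mu0 v ≤ D / Fintype.card E := by
  have h0 : (0 : ℝ) < Fintype.card E := by exact_mod_cast Fintype.card_pos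
  have h1 : (1 : ℝ) ≤ ∑ v, ∑ e with X.src e = v ∨ X.tgt e = v, X.mu1 e := by
    have h2 : ∑ v, ∑ e with X.src e = v, X.mu1 e = 1 := by
      rw [sum_fiberwise univ X.src X.mu1]
      simp [mu1_eq X hon]
    rw [← h2]
    refine sum_le_sum fun v _ => sum_le_sum_of_subset_of_nonneg
      (fun e he => mem_filter.2 ⟨mem_univ _, Or.inl (mem_filter.1 he).2⟩) fun e _ _ => ?_
    rw [mu1_eq X hon]
    positivity
  have h3 : #{e | X.src e = v ∨ X.tgt e = v} ≤ D := by
    refine le_trans (card_le_card_of_injOn (fun e => (e, decide (X.src e = v))) ?_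
      fun a _ b _ e => congrArg Prod.fst e) (hd v)
    intro e he
    have := (mem_filter.1 he).2
    refine mem_filter.2 ⟨mem_univ _, ?_⟩
    by_cases h : X.src e = v
    · simp [Cx.o, h]
    · simp [Cx.o, h, this.resolve_left h]
  have h4 : (#{e | X.src e = v ∨ X.tgt e = v} : ℝ) ≤ D := by exact_mod_cast h3
  unfold Cx.mu0 nrm
  refine le_trans (div_le_self (sum_nonneg fun e _ => ?_) h1) ?_
  · rw [mu1_eq X hon]
    positivity
  · simp only [mu1_eq X hon, sum_const, nsmul_eq_mul, mul_one_div]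
    gcongr

variable {k : ℕ} (τ : Fin 20 → Perm (Fin k))

abbrev Ed (k : ℕ) := Fin k × Fin 20

inductive W : Fin k → List (Ed k × Bool) → Fin k → Prop
  | nil (v : Fin k) : W v [] v
  | cons (x : Fin k) (j : Fin 20) (l : List (Ed k × Bool)) (v : Fin k) :
      W (τ j x) l v → W x (((x, j), true) :: l) v

variable {τ}

lemma W.append {u v w : Fin k} {l l' : List (Ed k × Bool)} (h : W τ u l v) (h' : W τ v l' w) :
    W τ u (l ++ l') w := by
  induction h with
  | nil => exact h'
  | cons x j l v _ ih => exact W.cons _ _ _ _ (ih h')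

lemma W.flat {v : Fin k} (s : List (List (Ed k × Bool))) (h : ∀ c ∈ s, W τ v c v) :
    W τ v s.flatten v := by
  induction s with
  | nil => exact W.nil v
  | cons c s ih => exact (h c (by simp)).append (ih fun c hc => h c (by simp [hc]))

variable (τ) in
def cx {P : Type} (bd : P → List (Ed k × Bool)) : Cx (Fin k) (Ed k) P :=
  ⟨Prod.fst, fun e => τ e.2 e.1, bd⟩

lemma W.chain {P : Type} (bd : P → List (Ed k × Bool)) {u v : Fin k} {l : List (Ed k × Bool)}
    (h : W τ u l v) :
    l.IsChain fun d d' => (cx τ bd).t d = (cx τ bd).o d' ∧ d' ≠ rev d := by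
  induction h with
  | nil => exact List.IsChain.nil
  | cons x j l v h ih =>
    cases h with
    | nil => exact List.IsChain.singleton _
    | cons _ j' l' _ h' =>
      exact List.IsChain.cons_cons ⟨by simp [Cx.t, Cx.o, rev, cx], by simp [rev]⟩ ih

lemma W.conn {P : Type} (bd : P → List (Ed k × Bool)) {u v : Fin k} {l : List (Ed k × Bool)}
    (h : W τ u l v) :
    Relation.ReflTransGen (fun a b => ∃ d, (cx τ bd).o d = a ∧ (cx τ bd).t d = b) u v := by
  induction h with
  | nil => exact .refl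
  | cons x j l v _ ih =>
    exact .head ⟨((x, j), true), by simp [Cx.o, cx], by simp [Cx.t, Cx.o, rev, cx]⟩ ih

lemma strong (hτ : Exp τ) (u v : Fin k) : ∃ l, W τ u l v := by
  classical
  let S : Finset (Fin k) := univ.filter fun w => ∃ l, W τ u l w
  have hS : ∀ j, ∀ x ∈ S, τ j x ∈ S := fun j x hx => by
    obtain ⟨l, hl⟩ := (mem_filter.1 hx).2
    exact mem_filter.2 ⟨mem_univ _, _, hl.append (W.cons _ j _ _ (W.nil _))⟩
  have h0 : u ∈ S := mem_filter.2 ⟨mem_univ _, _, W.nil _⟩
  have z : ∀ T : Finset (Fin k), (∀ j, ∀ x ∈ T, τ j x ∈ T) → 2 * T.card ≤ Fintype.card (Fin k) →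
      T = ∅ := by
    intro T hT h
    have := hτ T h
    rw [sum_eq_zero fun j _ => card_eq_zero.2 (filter_eq_empty_iff.2 fun y hy =>
      not_not.2 (hT j y hy))] at this
    exact card_eq_zero.1 (by omega)
  by_cases h : 2 * S.card ≤ Fintype.card (Fin k)
  · simp [z S hS h] at h0
  · have := z Sᶜ (fun j x hx => by
      rw [mem_compl] at hx ⊢
      intro h'
      have := Perm.perm_symm_on_of_perm_on_finset (hS j) h'
      exact hx (by simpa using this)) (by rw [card_compl]; omega)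
    rw [compl_eq_empty_iff] at this
    have hw : v ∈ S := this ▸ mem_univ _
    exact (mem_filter.1 hw).2

lemma deg_le {P : Type} [Fintype P] (bd : P → List (Ed k × Bool)) (v : Fin k) :
    (cx τ bd).deg v ≤ 40 := by
  unfold Cx.deg
  refine le_trans (card_le_card_of_injOn (t := (univ : Finset (Fin 20 × Bool)))
    (fun d => (d.1.2, d.2)) (fun _ _ => mem_univ _) ?_) (by simp)
  rintro ⟨⟨x, j⟩, b⟩ h ⟨⟨x', j'⟩, b'⟩ h' e
  simp only [Prod.mk.injEq] at e
  obtain ⟨rfl, rfl⟩ := e
  have h1 : (cx τ bd).o ((x, j), b) = v := by simpa using h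
  have h2 : (cx τ bd).o ((x', j), b) = v := by simpa using h'
  cases b
  · simp only [Cx.o, cx, Bool.false_eq_true, if_false] at h1 h2
    rw [(τ j).injective (h1.trans h2.symm)]
  · simp only [Cx.o, cx, if_true] at h1 h2
    rw [h1.trans h2.symm]

lemma dh_sum {n : ℕ} (σ ρ : Perm (Fin n)) :
    dh σ ρ = (∑ j, if σ j ≠ ρ j then (1 : ℝ) else 0) / n := by
  unfold dh
  rw [sum_boole]

lemma cut {n : ℕ} (hτ : Exp τ) (f : Fin k → Fin n) :
    ∑ u, ∑ v, (if f v ≠ f u then (1 : ℝ) else 0) ≤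
      8 * k * ∑ e : Ed k, if f (τ e.2 e.1) ≠ f e.1 then (1 : ℝ) else 0 := by
  let S : Fin n → Finset (Fin k) := fun c => univ.filter fun w => f w = c
  let T : Finset (Fin k) := univ.filter fun v => 2 * (S (f v)).card ≤ k
  have h1 : ∀ u v, (if f v ≠ f u then (1 : ℝ) else 0) ≤
      (if u ∈ T then 1 else 0) + (if v ∈ T then 1 else 0) := by
    intro u v
    by_cases h : f v ≠ f u
    · by_cases hu : u ∈ T
      · rw [if_pos h, if_pos hu]; split_ifs <;> norm_num
      · by_cases hv : v ∈ T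
        · rw [if_pos h, if_neg hu, if_pos hv]; norm_num
        · exfalso
          simp only [T, mem_filter, mem_univ, true_and, not_le] at hu hv
          have d : Disjoint (S (f u)) (S (f v)) := disjoint_filter.2 fun w _ a b => h (b.symm.trans a)
          have := card_le_univ (S (f u) ∪ S (f v))
          rw [card_union_of_disjoint d, Fintype.card_fin] at this
          omega
    · rw [if_neg h]; split_ifs <;> norm_num
  have h2 : T.card ≤ 4 * ∑ j, #{y | f (τ j y) ≠ f y} := by
    have e1 : T.card = ∑ c, #{y ∈ T | f y = c} :=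
      card_eq_sum_card_fiberwise (f := f) (t := univ) (fun _ _ => mem_coe.2 (mem_univ _))
    have e2 : ∀ j, #{y | f (τ j y) ≠ f y} =
        ∑ c, #{y ∈ (univ.filter fun y => f (τ j y) ≠ f y) | f y = c} := fun j =>
      card_eq_sum_card_fiberwise (f := f) (t := univ) (fun _ _ => mem_coe.2 (mem_univ _))
    rw [e1, sum_congr rfl fun j _ => e2 j, sum_comm, mul_sum]
    refine sum_le_sum fun c _ => ?_
    by_cases h : 2 * (S c).card ≤ k
    · have := hτ (S c) (by simpa using h)
      refine le_trans (card_le_card fun y hy => ?_) (this.trans (le_of_eq ?_))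
      · exact mem_filter.2 ⟨mem_univ _, (mem_filter.1 hy).2⟩
      · refine congrArg (4 * ·) (sum_congr rfl fun j _ => congrArg card ?_)
        ext y
        simp only [S, mem_filter, mem_univ, true_and]
        exact ⟨fun ⟨a, b⟩ => ⟨a ▸ b, a⟩, fun ⟨a, b⟩ => ⟨b, b ▸ a⟩⟩
    · have : #{y ∈ T | f y = c} = 0 := card_eq_zero.2 (filter_eq_empty_iff.2 fun y hy e => h (by
        have := (mem_filter.1 hy).2
        rwa [e] at this))
      rw [this]
      exact Nat.zero_le _
  have h3 : (∑ e : Ed k, if f (τ e.2 e.1) ≠ f e.1 then (1 : ℝ) else 0) =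
      ((∑ j, #{y | f (τ j y) ≠ f y} : ℕ) : ℝ) := by
    rw [Fintype.sum_prod_type_right, Nat.cast_sum]
    exact sum_congr rfl fun j _ => by rw [sum_boole]
  rw [h3]
  generalize ∑ j, #{y | f (τ j y) ≠ f y} = M at h2 ⊢
  have h4 : (T.card : ℝ) ≤ 4 * (M : ℝ) := by exact_mod_cast h2
  refine (sum_le_sum fun u _ => sum_le_sum fun v _ => h1 u v).trans ?_
  have h5 : (∑ v, if v ∈ T then (1 : ℝ) else 0) = T.card := by simp
  clear_value T
  simp only [sum_add_distrib, sum_const, card_univ, Fintype.card_fin, nsmul_eq_mul, ← mul_sum, h5]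
  have := mul_le_mul_of_nonneg_left h4 (Nat.cast_nonneg (α := ℝ) k)
  linarith

lemma exp0 {P : Type} [Fintype P] [Nonempty P] (bd : P → List (Ed k × Bool)) (hk : 0 < k)
    (hτ : Exp τ) (hon : ∀ e p, (cx τ bd).On e p) : (cx τ bd).Exp0 (1 / 320) := by
  intro n hn β
  have hk' : (0 : ℝ) < k := by exact_mod_cast hk
  have hn' : (0 : ℝ) < n := by exact_mod_cast hn
  have m1 : ∀ e, (cx τ bd).mu1 e = 1 / (20 * k) := fun e => by
    rw [mu1_eq _ hon]; simp [mul_comm]
  have : Nonempty (Fin k) := ⟨⟨0, hk⟩⟩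
  have m0 : ∀ v, (cx τ bd).mu0 v ≤ 2 / k := by
    intro v
    refine (mu0_le _ hon 40 (deg_le bd) v).trans (le_of_eq ?_)
    simp only [Fintype.card_prod, Fintype.card_fin]
    push_cast
    field_simp
    norm_num
  have key : ∑ u, ∑ v, dh (β v) (β u) ≤
      ∑ _u : Fin k, 8 * ∑ e : Ed k, dh (β (τ e.2 e.1)) (β e.1) := by
    simp only [dh_sum, ← sum_div, sum_const, card_univ, Fintype.card_fin, nsmul_eq_mul]
    rw [← mul_div_assoc, ← mul_div_assoc]
    refine div_le_div_of_nonneg_right ?_ hn'.le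
    rw [sum_congr rfl fun u _ => sum_comm, sum_comm, sum_comm (s := (univ : Finset (Ed k))),
      mul_sum, mul_sum]
    refine sum_le_sum fun j _ => (cut hτ fun v => β v j).trans (le_of_eq ?_)
    ring
  obtain ⟨u, -, hu⟩ := exists_le_of_sum_le univ_nonempty key
  refine ⟨β u, ?_⟩
  rw [d1_eq _ _ _ (del_rev _ β) (by simp)]
  have e : ∀ e : Ed k, dh ((cx τ bd).del β (e, true)) ((1 : Ed k × Bool → Perm (Fin n)) (e, true)) =
      dh (β (τ e.2 e.1)) (β e.1) := fun e => by
    rw [← dh_mul' _ _ (β e.1)]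
    simp [Cx.del, Cx.o, Cx.t, rev, cx]
  simp only [e, m1, ← mul_sum]
  have h1 : ∑ v, (cx τ bd).mu0 v * dh (β v) (β u) ≤ 2 / k * ∑ v, dh (β v) (β u) := by
    rw [mul_sum]
    exact sum_le_sum fun v _ => mul_le_mul_of_nonneg_right (m0 v) (dh_nonneg _ _)
  have h2 := mul_le_mul_of_nonneg_left hu (show (0 : ℝ) ≤ 2 / k by positivity)
  refine le_trans (mul_le_mul_of_nonneg_left (h1.trans h2) (by norm_num)) (le_of_eq ?_)
  field_simp
  ring

section main
variable (A B : Fin k → List (Ed k × Bool))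

variable (τ) in
def gad (d : Ed k × Bool) : List (Ed k × Bool) :=
  if d.2 then A d.1.1 ++ (d.1, true) :: B (τ d.1.2 d.1.1) else A d.1.1 ++ B d.1.1

variable (τ) in
noncomputable def CS : List (List (Ed k × Bool)) := (univ : Finset (Ed k × Bool)).toList.map (gad τ A B)

lemma gad_mem (d : Ed k × Bool) : gad τ A B d ∈ CS τ A B :=
  List.mem_map.2 ⟨d, by simp, rfl⟩

variable (τ) in
noncomputable def bdy (p : Fin (CS τ A B).sublists'.length) : List (Ed k × Bool) :=
  (CS τ A B).flatten ++ ((CS τ A B).sublists'[p.1]).flatten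

instance : Nonempty (Fin (CS τ A B).sublists'.length) := ⟨⟨0, by simp⟩⟩

lemma on_all (e : Ed k) (p : Fin (CS τ A B).sublists'.length) : (cx τ (bdy τ A B)).On e p :=
  ⟨true, List.mem_append_left _ (List.mem_flatten.2 ⟨_, gad_mem A B (e, true), by simp [gad]⟩)⟩

lemma ne_nil (hk : 0 < k) (p : Fin (CS τ A B).sublists'.length) :
    (cx τ (bdy τ A B)).bd p ≠ [] := by
  obtain ⟨b, hb⟩ := on_all A B (⟨0, hk⟩, 0) p
  exact List.ne_nil_of_mem hb

lemma polyg (hk : 0 < k) (v0 : Fin k) (hA : ∀ v, W τ v0 (A v) v) (hB : ∀ v, W τ v (B v) v0) :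
    (cx τ (bdy τ A B)).Polygonal := by
  intro p
  have h1 : ∀ c ∈ CS τ A B, W τ v0 c v0 := by
    intro c hc
    obtain ⟨⟨⟨x, j⟩, b⟩, -, rfl⟩ := List.mem_map.1 hc
    cases b
    · exact (hA x).append (hB x)
    · exact (hA x).append (W.cons _ _ _ _ (hB _))
  have h2 : W τ v0 (bdy τ A B p) v0 := (W.flat _ h1).append (W.flat _ fun c hc =>
    h1 c ((List.mem_sublists'.1 (List.getElem_mem p.2)).subset hc))
  exact ⟨ne_nil A B hk p, (h2.append h2).chain _⟩

lemma exp1 (hk : 0 < k) : (cx τ (bdy τ A B)).Exp1 (1 / 2) := by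
  classical
  intro n hn α hα
  have hn' : (0 : ℝ) < n := by exact_mod_cast hn
  have : Nonempty (Fin k) := ⟨⟨0, hk⟩⟩
  let γ : Fin k → Perm (Fin n) := fun v => ((B v).map α).prod
  let bad : Finset (Fin n) := univ.filter fun j => ∃ c ∈ CS τ A B, (c.map α).prod j ≠ j
  refine ⟨fun v => (γ v)⁻¹, ?_⟩
  rw [d1_eq _ _ _ hα (del_rev _ _), n2_eq _ (ne_nil A B hk) α hα]
  have h1 : ∀ e : Ed k, dh (α (e, true)) ((cx τ (bdy τ A B)).del (fun v => (γ v)⁻¹) (e, true)) ≤
      (bad.card : ℝ) / n := by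
    intro e
    have e1 : (cx τ (bdy τ A B)).del (fun v => (γ v)⁻¹) (e, true) = γ e.1 * (γ (τ e.2 e.1))⁻¹ := by
      simp [Cx.del, Cx.o, Cx.t, rev, cx]
    rw [e1, ← dh_mul _ _ (γ (τ e.2 e.1)), inv_mul_cancel_right, dh_sum, sum_boole]
    refine div_le_div_of_nonneg_right (Nat.cast_le.2 (card_le_card fun j hj => ?_)) hn'.le
    refine mem_filter.2 ⟨mem_univ _, ?_⟩
    by_contra hc
    have hc' : ∀ d, ((gad τ A B d).map α).prod j = j := fun d => by
      by_contra h
      exact hc ⟨_, gad_mem A B d, h⟩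
    have a1 := hc' (e, true)
    have a2 := hc' (e, false)
    simp only [gad, if_true, Bool.false_eq_true, if_false, List.map_append, List.prod_append,
      List.map_cons, List.prod_cons, Perm.mul_apply] at a1 a2
    exact (mem_filter.1 hj).2 (((A e.1).map α).prod.injective (a1.trans a2.symm))
  have h2 : ∑ e, (cx τ (bdy τ A B)).mu1 e *
      dh (α (e, true)) ((cx τ (bdy τ A B)).del (fun v => (γ v)⁻¹) (e, true)) ≤ (bad.card : ℝ) / n := by
    refine (sum_le_sum fun e _ => mul_le_mul_of_nonneg_left (h1 e) (by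
      rw [mu1_eq _ (on_all A B)]; positivity)).trans (le_of_eq ?_)
    rw [← sum_mul, sum_congr rfl fun e _ => mu1_eq _ (on_all A B) e, sum_const, card_univ,
      nsmul_eq_mul, mul_one_div_cancel (by exact_mod_cast Fintype.card_ne_zero), one_mul]
  have hN : (0 : ℝ) < (CS τ A B).sublists'.length := by simp
  have m2 : ∀ p, (cx τ (bdy τ A B)).mu2 p = 1 / (CS τ A B).sublists'.length := fun p => by
    simp only [Cx.mu2, nrm, sum_const, card_univ, Fintype.card_fin, nsmul_eq_mul, mul_one]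
  have h3 : ∀ j, (if j ∈ bad then ((CS τ A B).sublists'.length : ℝ) / 2 else 0) ≤
      ∑ p, if (((cx τ (bdy τ A B)).bd p).map α).prod j ≠ (1 : Perm (Fin n)) j then (1 : ℝ) else 0 := by
    intro j
    split_ifs with hj
    · have := subprod α j (CS τ A B) ((CS τ A B).flatten.map α).prod (mem_filter.1 hj).2
      rw [← Fin.sum_univ_fun_getElem] at this
      simp only [cx, bdy, List.map_append, List.prod_append, Perm.one_apply]
      linarith
    · exact sum_nonneg fun p _ => by split_ifs <;> norm_num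
  have h4 := sum_le_sum fun j (_ : j ∈ univ) => h3 j
  rw [sum_comm, ← sum_filter, sum_const, nsmul_eq_mul, filter_mem_eq_inter, univ_inter] at h4
  simp only [m2, dh_sum (((_ : List (Ed k × Bool)).map α).prod), ← mul_sum, ← sum_div]
  refine le_trans (mul_le_mul_of_nonneg_left h2 (by norm_num)) ?_
  refine le_trans (le_of_eq ?_) (mul_le_mul_of_nonneg_left
    (div_le_div_of_nonneg_right h4 hn'.le) (by positivity))
  field_simp

end main

theorem main (m : ℕ) : ∃ (P : Type) (_ : Fintype P) (X : Cx (Fin (m + 3)) (Ed (m + 3)) P),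
    X.Polygonal ∧ X.Conn ∧ (∀ v, X.deg v ≤ 40) ∧ Nonempty P ∧ (∀ e p, X.On e p) ∧
      X.Exp0 (1 / 320) ∧ X.Exp1 (1 / 2) := by
  obtain ⟨τ, hτ⟩ := exists_exp (m + 3) (by omega)
  choose R hR using strong hτ
  refine ⟨_, inferInstance, cx τ (bdy τ (R 0) fun v => R v 0),
    polyg _ _ (by omega) 0 (hR 0) fun v => hR v 0, fun u v => (hR u v).conn _, deg_le _,
    inferInstance, on_all _ _, exp0 _ (by omega) hτ (on_all _ _), exp1 _ _ (by omega)⟩

end Pool.Agent.H19.Cob
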