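import Pool.Agent.H19.CovDefs

set_option autoImplicit false

namespace Pool.Agent.H19.Cov

open Finset

abbrev AA (r : ℕ) := Fin r ⊕ (Fin (r + 3) × Fin (2 * r + 2))
abbrev BB (r : ℕ) := Equiv.Perm (Fin (r + 3)) × Fin (2 * r + 2)

def val (r : ℕ) (t : ℕ) (x : Fin (r + 3)) : ℕ :=
  if x.1 < r then x.1 else if x.1 < r + 2 then r else r + 1 + t

def z0 (r : ℕ) : Fin (r + 3) := ⟨r, by omega⟩
def z1 (r : ℕ) : Fin (r + 3) := ⟨r + 1, by omega⟩
def z2 (r : ℕ) : Fin (r + 3) := ⟨r + 2, by omega⟩
def row {r : ℕ} (c : Fin r) : Fin (r + 3) := ⟨c.1, by omega⟩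

def vec (r : ℕ) : AA r ⊕ BB r → Fin (r + 3) → ℕ
  | Sum.inl (Sum.inl c), _ => c.1
  | Sum.inl (Sum.inr p), j => if j = p.1 then r + 1 + p.2.1 else r
  | Sum.inr b, j => val r b.2.1 (b.1 j)

def col (r : ℕ) : AA r → BB r → Fin (r + 3)
  | Sum.inl c, b => b.1.symm (row c)
  | Sum.inr p, b => if b.1 p.1 = z2 r ∧ p.2 = b.2 then p.1
      else if b.1 p.1 = z0 r then b.1.symm (z1 r) else b.1.symm (z0 r)

theorem agree (r : ℕ) (a : AA r) (b : BB r) :
    vec r (Sum.inl a) (col r a b) = vec r (Sum.inr b) (col r a b) := by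
  rcases a with c | p
  · simp [vec, col, val, row]
  · simp only [col]
    split_ifs with h1 h2
    · simp [vec, val, h1.1, h1.2, z2]
    · have : b.1.symm (z1 r) ≠ p.1 := by
        intro h
        rw [← h] at h2
        simp [z0, z1] at h2
      simp only [vec, this, if_false, Equiv.apply_symm_apply]
      simp [val, z1]
    · have : b.1.symm (z0 r) ≠ p.1 := by
        intro h
        rw [← h] at h2
        simp at h2
      simp only [vec, this, if_false, Equiv.apply_symm_apply]
      simp [val, z0]

theorem spanning (r : ℕ) : Spanning (col r) := by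
  intro j _
  constructor
  · rintro (c | ⟨i, t⟩)
    · exact ⟨(Equiv.swap j (row c), 0), by simp [col]⟩
    · by_cases h : j = i
      · subst h
        exact ⟨(Equiv.swap j (z2 r), t), by simp [col]⟩
      · obtain ⟨t', ht'⟩ := exists_ne t
        refine ⟨(Equiv.swap j (z0 r), t'), ?_⟩
        have h2 : Equiv.swap j (z0 r) i ≠ z0 r := by
          intro h3
          apply h
          have := congrArg (Equiv.swap j (z0 r)) h3
          simpa using this.symm
        simp [col, ht'.symm, h2]
  · rintro ⟨σ, t⟩
    by_cases h : (σ j).1 < r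
    · refine ⟨Sum.inl ⟨(σ j).1, h⟩, ?_⟩
      simp [col, row]
    · have h3 : σ j = z0 r ∨ σ j = z1 r ∨ σ j = z2 r := by
        have := (σ j).2
        simp only [z0, z1, z2, Fin.ext_iff]
        omega
      have e01 : z0 r ≠ z1 r := by simp [z0, z1]
      have e02 : z0 r ≠ z2 r := by simp [z0, z2]
      have e12 : z1 r ≠ z2 r := by simp [z1, z2]
      rcases h3 with h3 | h3 | h3
      · refine ⟨Sum.inr (σ.symm (z1 r), t), ?_⟩
        simp [col, e12, e01.symm, Equiv.symm_apply_eq, h3]
      · refine ⟨Sum.inr (σ.symm (z0 r), t), ?_⟩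
        simp [col, e02, Equiv.symm_apply_eq, h3]
      · exact ⟨Sum.inr (j, t), by simp [col, h3]⟩

theorem vec_const (r : ℕ) (i : Fin (r + 3)) {x y : AA r ⊕ BB r}
    (h : (colourGraph (col r) i).Reachable x y) : vec r x i = vec r y i := by
  obtain ⟨p⟩ := h
  induction p with
  | nil => rfl
  | cons h _ ih =>
    rw [← ih]
    obtain ⟨a, b, rfl, ⟨rfl, rfl⟩ | ⟨rfl, rfl⟩⟩ := h
    · exact agree r a b
    · exact (agree r a b).symm

theorem hit_bound (r : ℕ) (T : Finset (Fin (r + 3) × ℕ))
    (hT : ∀ v, ∃ j, (j, vec r v j) ∈ T) : 2 * r + 2 ≤ T.card := by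
  by_contra hlt
  push Not at hlt
  obtain ⟨t, ht⟩ : ∃ t : Fin (2 * r + 2), ∀ j, (j, r + 1 + t.1) ∉ T := by
    by_contra h
    push Not at h
    choose f hf using h
    have := card_le_card_of_injOn (s := (univ : Finset (Fin (2 * r + 2)))) (t := T)
      (fun t => (f t, r + 1 + t.1)) (fun t _ => hf t) (by
        intro a _ b _ hab
        simp only [Prod.mk.injEq] at hab
        exact Fin.ext (by omega))
    simp at this
    omega
  set F : ℕ → Finset (Fin (r + 3)) := fun v => univ.filter (fun j => (j, v) ∈ T) with hF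
  have hsum : ∑ v ∈ range (r + 1), (F v).card ≤ T.card := by
    have h1 : ∀ v, (F v).card ≤ (T.filter (fun p => p.2 = v)).card := by
      intro v
      refine card_le_card_of_injOn (fun j => (j, v)) ?_ ?_
      · intro j hj
        simpa [hF] using hj
      · intro a _ b _ hab
        simpa using hab
    calc _ ≤ ∑ v ∈ range (r + 1), (T.filter (fun p => p.2 = v)).card := sum_le_sum fun v _ => h1 v
      _ = (T.filter (fun p => p.2 ∈ range (r + 1))).card :=
          sum_card_fiberwise_eq_card_filter _ _ _
      _ ≤ _ := card_filter_le _ _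
  have hrow : ∀ c < r, 1 ≤ (F c).card := by
    intro c hc
    obtain ⟨j, hj⟩ := hT (Sum.inl (Sum.inl ⟨c, hc⟩))
    exact card_pos.mpr ⟨j, by simpa [hF, vec] using hj⟩
  have hall : ∀ X : Finset (Fin (r + 3)),
      X.card ≤ (X.biUnion (fun x => (F (val r t.1 x))ᶜ)).card := by
    intro X
    by_contra hX
    push Not at hX
    set W := (X.biUnion (fun x => (F (val r t.1 x))ᶜ))ᶜ with hW
    have hXle : X.card ≤ r + 3 := by simpa using card_le_univ X
    have hWc : r + 4 ≤ W.card + X.card := by
      rw [hW, card_compl, Fintype.card_fin]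
      have := card_le_univ (X.biUnion (fun x => (F (val r t.1 x))ᶜ))
      simp only [Fintype.card_fin] at this
      omega
    have hsub : ∀ x ∈ X, W ⊆ F (val r t.1 x) := by
      intro x hx j hj
      simp only [hW, mem_compl, mem_biUnion, not_exists, not_and, not_not] at hj
      exact hj x hx
    have hz2 : z2 r ∉ X := by
      intro h
      obtain ⟨j, hj⟩ := card_pos.mp (show 0 < W.card by omega)
      have := hsub _ h hj
      simp [hF, val, z2] at this
      exact ht j this
    set Y := (X.filter (fun x => x.1 < r)).image Fin.val with hY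
    have hYc : Y.card = (X.filter (fun x => x.1 < r)).card :=
      card_image_of_injective _ Fin.val_injective
    have hYsub : Y ⊆ range r := by
      intro v hv
      obtain ⟨x, hx, rfl⟩ := mem_image.mp hv
      simpa using (mem_filter.mp hx).2
    have hYr : Y.card ≤ r := by simpa using card_le_card hYsub
    have hs1 : Y.card * W.card ≤ ∑ v ∈ Y, (F v).card := by
      rw [← smul_eq_mul]
      refine card_nsmul_le_sum _ _ _ ?_
      intro v hv
      obtain ⟨x, hx, rfl⟩ := mem_image.mp hv
      have h1 := hsub x (mem_filter.mp hx).1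
      have h2 : val r t.1 x = x.1 := by simp [val, (mem_filter.mp hx).2]
      rw [h2] at h1
      exact card_le_card h1
    have hs2 : r - Y.card ≤ ∑ v ∈ range r \ Y, (F v).card := by
      have := card_nsmul_le_sum (range r \ Y) (fun v => (F v).card) 1
        (fun v hv => hrow v (by simpa using (mem_sdiff.mp hv).1))
      rw [card_sdiff_of_subset hYsub] at this
      simpa using this
    have hs3 := sum_sdiff (f := fun v => (F v).card) hYsub
    rw [sum_range_succ] at hsum
    have hsplit := card_filter_add_card_filter_not (s := X) (fun x => x.1 < r)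
    by_cases hz : (X.filter (fun x => ¬ x.1 < r)).Nonempty
    · obtain ⟨x, hx⟩ := hz
      have hxs : ∀ x ∈ X.filter (fun x => ¬ x.1 < r), x = z0 r ∨ x = z1 r := by
        intro x hx
        have h1 := (mem_filter.mp hx).2
        have h2 : x ≠ z2 r := fun h => hz2 (h ▸ (mem_filter.mp hx).1)
        have := x.2
        simp only [z0, z1, z2, Fin.ext_iff, ne_eq] at *
        omega
      have hc2 : (X.filter (fun x => ¬ x.1 < r)).card ≤ 2 := by
        refine le_trans (card_le_card (t := {z0 r, z1 r}) ?_) card_le_two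
        intro y hy
        simpa using hxs y hy
      have h1 := hsub x (mem_filter.mp hx).1
      have h2 : val r t.1 x = r := by
        rcases hxs x hx with rfl | rfl <;> simp [val, z0, z1]
      rw [h2] at h1
      have h3 := card_le_card h1
      obtain ⟨d, hd⟩ := Nat.exists_eq_add_of_le hYr
      have h4 : d + 2 ≤ W.card := by omega
      have h5 : Y.card * 2 ≤ Y.card * W.card := Nat.mul_le_mul_left _ (by omega)
      omega
    · rw [not_nonempty_iff_eq_empty] at hz
      rw [hz, card_empty] at hsplit
      obtain ⟨d, hd⟩ := Nat.exists_eq_add_of_le hYr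
      have h4 : d + 4 ≤ W.card := by omega
      have h5 : Y.card * (d + 4) ≤ Y.card * W.card := Nat.mul_le_mul_left _ h4
      have h6 : 1 ≤ Y.card := by omega
      have h7 : d ≤ Y.card * d := Nat.le_mul_of_pos_left _ h6
      rw [Nat.mul_add] at h5
      omega
  obtain ⟨f, hf, hf'⟩ := (all_card_le_biUnion_card_iff_exists_injective _).mp hall
  have hbij : Function.Bijective f := Finite.injective_iff_bijective.mp hf
  obtain ⟨j, hj⟩ := hT (Sum.inr ((Equiv.ofBijective f hbij).symm, t))
  obtain ⟨x, rfl⟩ := hbij.2 j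
  have := hf' x
  simp only [vec, Equiv.ofBijective_symm_apply_apply] at hj
  simp [hF, hj] at this

theorem main (r : ℕ) (S : Finset (Σ i : Fin (r + 3), (colourGraph (col r) i).ConnectedComponent))
    (hS : Covers (col r) S) : 2 * r + 2 ≤ S.card := by
  classical
  refine le_trans (hit_bound r (S.image (fun C => (C.1, vec r C.2.out C.1))) ?_) card_image_le
  intro v
  obtain ⟨C, hC, hv⟩ := hS v
  refine ⟨C.1, mem_image.mpr ⟨C, hC, ?_⟩⟩
  congr 1
  apply vec_const
  rw [← SimpleGraph.ConnectedComponent.eq]
  rw [SimpleGraph.ConnectedComponent.mem_supp_iff] at hv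
  rw [hv]
  exact Quot.out_eq _

end Pool.Agent.H19.Cov
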