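import Mathlib

set_option autoImplicit false

namespace Pool.Agent.H19.Cov

/-- The subgraph of the complete bipartite graph on `A ⊕ B` formed by the edges of colour `i`. -/
def colourGraph {A B : Type} {k : ℕ} (col : A → B → Fin k) (i : Fin k) : SimpleGraph (A ⊕ B) where
  Adj x y := ∃ a b, col a b = i ∧
    ((x = Sum.inl a ∧ y = Sum.inr b) ∨ (x = Sum.inr b ∧ y = Sum.inl a))
  symm := ⟨by
    rintro x y ⟨a, b, h, h' | h'⟩
    · exact ⟨a, b, h, Or.inr ⟨h'.2, h'.1⟩⟩
    · exact ⟨a, b, h, Or.inl ⟨h'.2, h'.1⟩⟩⟩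
  loopless := ⟨by
    rintro x ⟨a, b, -, ⟨rfl, h⟩ | ⟨rfl, h⟩⟩ <;> cases h⟩

/-- Every vertex is incident with an edge of each colour that occurs. -/
def Spanning {A B : Type} {k : ℕ} (col : A → B → Fin k) : Prop :=
  ∀ i, (∃ a b, col a b = i) → (∀ a, ∃ b, col a b = i) ∧ (∀ b, ∃ a, col a b = i)

/-- `S` is a set of monochromatic components whose vertex sets cover all vertices. -/
def Covers {A B : Type} {k : ℕ} (col : A → B → Fin k)
    (S : Finset (Σ i : Fin k, (colourGraph col i).ConnectedComponent)) : Prop :=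
  ∀ v : A ⊕ B, ∃ C ∈ S, v ∈ C.2.supp

end Pool.Agent.H19.Cov
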