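import Mathlib

set_option autoImplicit false

namespace Pool.Agent.H19.Csp
open SimpleGraph

/-- A graph together with forbidden pairs (variable = colour, variable = colour). -/
structure Inst (q : ℕ) (V Φ : Type) where
  H : SimpleGraph V
  act : Φ → Prop
  v1 : Φ → V
  v2 : Φ → V
  c1 : Φ → Fin q
  c2 : Φ → Fin q
  e : Φ → Fin q
  f : Φ → Fin q
  e1 : ∀ p, e p ≠ c1 p
  e2 : ∀ p, e p ≠ c2 p
  f1 : ∀ p, f p ≠ e p
  f2 : ∀ p, f p ≠ c2 p

theorem exists_inst (q : ℕ) (hq : 3 ≤ q) (V Φ : Type) (H : SimpleGraph V) (act : Φ → Prop)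
    (v1 v2 : Φ → V) (c1 c2 : Φ → Fin q) : ∃ I : Inst q V Φ, I.H = H ∧ I.act = act ∧ I.v1 = v1 ∧
      I.v2 = v2 ∧ I.c1 = c1 ∧ I.c2 = c2 := by
  have key : ∀ a b : Fin q, ∃ c, c ≠ a ∧ c ≠ b := by
    intro a b
    by_contra h
    push Not at h
    have h1 : (Finset.univ : Finset (Fin q)) ⊆ {a, b} := by
      intro c _
      by_cases h2 : c = a
      · simp [h2]
      · simp [h c h2]
    have h2 := (Finset.card_le_card h1).trans Finset.card_le_two
    simp at h2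
    omega
  choose g hg using key
  exact ⟨⟨H, act, v1, v2, c1, c2, fun p => g (c1 p) (c2 p), fun p => g (g (c1 p) (c2 p)) (c2 p),
    fun p => (hg _ _).1, fun p => (hg _ _).2, fun p => (hg _ _).1, fun p => (hg _ _).2⟩,
    rfl, rfl, rfl, rfl, rfl, rfl⟩

variable {q : ℕ} {V Φ : Type} (I : Inst q V Φ)

def R : V ⊕ Fin q ⊕ Φ × Fin 3 → V ⊕ Fin q ⊕ Φ × Fin 3 → Prop
  | .inl x, .inl y => I.H.Adj x y
  | .inr (.inl _), .inr (.inl _) => True
  | .inr (.inr (p, j)), .inl x => (j = 0 ∧ x = I.v1 p) ∨ (j = 2 ∧ x = I.v2 p ∧ I.act p)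
  | .inr (.inr (p, j)), .inr (.inl d) => (j = 0 ∧ d ≠ I.c1 p ∧ d ≠ I.e p) ∨
      (j = 1 ∧ d ≠ I.e p ∧ d ≠ I.f p) ∨ (j = 2 ∧ d ≠ I.f p ∧ d ≠ I.c2 p)
  | .inr (.inr (p, j)), .inr (.inr (p', j')) => p = p' ∧ ((j = 0 ∧ j' = 1) ∨ (j = 1 ∧ j' = 2))
  | _, _ => False

def F : SimpleGraph (V ⊕ Fin q ⊕ Φ × Fin 3) := SimpleGraph.fromRel (R I)

theorem adj_of (x y : V ⊕ Fin q ⊕ Φ × Fin 3) (h : R I x y) (hne : x ≠ y) : (F I).Adj x y := by
  unfold F
  rw [fromRel_adj]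
  exact ⟨hne, Or.inl h⟩

theorem adj_inl (x y : V) (h : I.H.Adj x y) : (F I).Adj (.inl x) (.inl y) :=
  adj_of I _ _ h (fun e => h.ne (Sum.inl_injective e))

theorem sol_of_col (h : (F I).Colorable q) : ∃ a : V → Fin q, (∀ x y, I.H.Adj x y → a x ≠ a y) ∧
    ∀ p, I.act p → a (I.v1 p) = I.c1 p → a (I.v2 p) ≠ I.c2 p := by
  obtain ⟨χ⟩ := h
  have hinj : Function.Injective fun d : Fin q => χ (.inr (.inl d)) := by
    intro d d' e
    by_contra hne
    exact χ.valid (adj_of I (.inr (.inl d)) (.inr (.inl d')) trivial (by simpa using hne)) e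
  let π := Equiv.ofBijective _ (Finite.injective_iff_bijective.mp hinj)
  have hψ : ∀ x y, R I x y → x ≠ y → π.symm (χ x) ≠ π.symm (χ y) := fun x y h hne e =>
    χ.valid (adj_of I x y h hne) (π.symm.injective e)
  have ha : ∀ d, π.symm (χ (.inr (.inl d))) = d := fun d => π.symm_apply_apply d
  have hl : ∀ (p : Φ) (j : Fin 3), ¬ R I (.inr (.inr (p, j)))
      (.inr (.inl (π.symm (χ (.inr (.inr (p, j))))))) := fun p j h =>
    hψ _ _ h (by simp) (ha _).symm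
  refine ⟨fun x => π.symm (χ (.inl x)), fun x y h => hψ (.inl x) (.inl y) h
    (fun e => h.ne (Sum.inl_injective e)), ?_⟩
  intro p hp h1 h2
  simp only at h1 h2
  have a0 := hl p 0
  have a1 := hl p 1
  have a2 := hl p 2
  have b0 := hψ (.inr (.inr (p, 0))) (.inl (I.v1 p)) (Or.inl ⟨rfl, rfl⟩) (by simp)
  have b1 := hψ (.inr (.inr (p, 0))) (.inr (.inr (p, 1))) ⟨rfl, Or.inl ⟨rfl, rfl⟩⟩ (by simp)
  have b2 := hψ (.inr (.inr (p, 1))) (.inr (.inr (p, 2))) ⟨rfl, Or.inr ⟨rfl, rfl⟩⟩ (by simp)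
  have b3 := hψ (.inr (.inr (p, 2))) (.inl (I.v2 p)) (Or.inr ⟨rfl, rfl, hp⟩) (by simp)
  rw [h1] at b0
  rw [h2] at b3
  simp only [R, true_and, not_or, not_and, not_not] at a0 a1 a2
  have d0 := a0.1 b0
  have d1 := a1.2.1 (d0 ▸ b1.symm)
  exact b3 (a2.2.2 (d1 ▸ b2.symm))

open Classical in
noncomputable def ext (a : V → Fin q) : V ⊕ Fin q ⊕ Φ × Fin 3 → Fin q
  | .inl x => a x
  | .inr (.inl d) => d
  | .inr (.inr (p, j)) => if a (I.v1 p) = I.c1 p then ![I.e p, I.f p, I.c2 p] j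
      else ![I.c1 p, I.e p, if a (I.v2 p) = I.c2 p then I.f p else I.c2 p] j

theorem col_of_sol (x y : V) (a : V → Fin q)
    (h1 : ∀ u v, I.H.Adj u v → a u = a v → s(u, v) = s(x, y))
    (h2 : ∀ p, I.act p → a (I.v1 p) = I.c1 p → a (I.v2 p) ≠ I.c2 p) :
    ((F I).deleteEdges {s(.inl x, .inl y)}).Colorable q := by
  have key : ∀ u v, R I u v → u ≠ v → ext I a u = ext I a v →
      s(u, v) = s(.inl x, .inl y) := by
    intro u v h hne he
    rcases u with u | d | ⟨p, j⟩ <;> rcases v with v | d' | ⟨p', j'⟩ <;> simp only [R] at h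
    · have := congrArg (Sym2.map (Sum.inl : V → V ⊕ Fin q ⊕ Φ × Fin 3)) (h1 u v h he)
      simpa using this
    · exact absurd he (by simpa [ext] using hne)
    all_goals
      exfalso
      have e1 := I.e1 p
      have e2 := I.e2 p
      have f1 := I.f1 p
      have f2 := I.f2 p
      have h3 := h2 p
    · clear h1 h2
      rcases h with ⟨rfl, rfl⟩ | ⟨rfl, rfl, h⟩ <;> simp only [ext] at he <;>
        split_ifs at he <;> simp at he <;> grind
    · rcases h with ⟨rfl, h, h'⟩ | ⟨rfl, h, h'⟩ | ⟨rfl, h, h'⟩ <;> simp only [ext] at he <;>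
        split_ifs at he <;> simp_all
    · obtain ⟨rfl, ⟨rfl, rfl⟩ | ⟨rfl, rfl⟩⟩ := h <;> simp only [ext] at he <;>
        split_ifs at he <;> simp_all
  refine ⟨Coloring.mk (ext I a) ?_⟩
  intro u v huv he
  rw [deleteEdges_adj] at huv
  obtain ⟨h3, h4⟩ := huv
  unfold F at h3
  rw [fromRel_adj] at h3
  apply h4
  rcases h3.2 with h5 | h5
  · exact key u v h5 h3.1 he
  · rw [Set.mem_singleton_iff, Sym2.eq_swap]; exact key v u h5 h3.1.symm he.symm

end Pool.Agent.H19.Csp
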