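import Mathlib

set_option autoImplicit false

namespace Pool.Agent.H19.DPPoly

open Finset

variable {m : ℕ}

def ind (σ : Equiv.Perm (Fin m)) (x y : Fin m) : ℤ := if σ x = y then 1 else 0

theorem ind_row (σ : Equiv.Perm (Fin m)) (x : Fin m) : ∑ y, ind σ x y = 1 := by simp [ind]
theorem ind_col (σ : Equiv.Perm (Fin m)) (y : Fin m) : ∑ x, ind σ x y = 1 := by
  simp [ind, Equiv.apply_eq_iff_eq_symm_apply]
theorem ind_nonneg (σ : Equiv.Perm (Fin m)) (x y : Fin m) : 0 ≤ ind σ x y := by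
  unfold ind; split_ifs <;> simp
theorem ind_le (σ : Equiv.Perm (Fin m)) (x y : Fin m) : ind σ x y ≤ 1 := by
  unfold ind; split_ifs <;> simp

theorem ind_mul (σ τ : Equiv.Perm (Fin m)) (x y : Fin m) :
    ∑ w, ind σ x w * ind τ w y = ind (τ * σ) x y := by
  simp only [ind, ite_mul, one_mul, zero_mul, sum_ite_eq, mem_univ, if_true,
    Equiv.Perm.mul_apply]
  congr

theorem path2 (σ τ : Equiv.Perm (Fin m)) (x y : Fin m) :
    ∑ w, (1 - ind σ x w) * (1 - ind τ w y) = (m - 2 : ℤ) + ind (τ * σ) x y := by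
  have e : ∀ w, (1 - ind σ x w) * (1 - ind τ w y) =
      1 - ind σ x w - ind τ w y + ind σ x w * ind τ w y := fun w => by ring
  simp only [e, sum_add_distrib, sum_sub_distrib, ind_row, ind_col, ind_mul]
  simp
  ring

theorem path3 (σ τ ρ : Equiv.Perm (Fin m)) (x y : Fin m) :
    ∑ w : Fin m × Fin m, (1 - ind σ x w.1) * (1 - ind τ w.1 w.2) * (1 - ind ρ w.2 y) =
      ((m : ℤ) ^ 2 - 3 * m + 3) - ind (ρ * (τ * σ)) x y := by
  rw [Fintype.sum_prod_type, sum_comm]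
  simp only [← sum_mul, path2]
  have e : ∀ w, ((m - 2 : ℤ) + ind (τ * σ) x w) * (1 - ind ρ w y) =
      (m - 2 : ℤ) + ind (τ * σ) x w - (m - 2 : ℤ) * ind ρ w y - ind (τ * σ) x w * ind ρ w y :=
    fun w => by ring
  simp only [e, sum_add_distrib, sum_sub_distrib, ind_row, ind_col, ← mul_sum, ind_mul]
  simp
  ring

def E : List (Fin 11 × Fin 11) :=
  [(0, 3), (3, 1), (0, 4), (4, 1), (1, 5), (5, 2), (1, 6), (6, 2), (2, 7), (7, 8), (8, 0),
   (2, 9), (9, 10), (10, 0)]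

def G0 : SimpleGraph (Fin 11) := SimpleGraph.fromRel fun u v => (u, v) ∈ E

def sp (C : Type) : (Fin 11 → C) ≃ C × C × C × C × C × C × C × (C × C) × (C × C) where
  toFun f := (f 0, f 1, f 2, f 3, f 4, f 5, f 6, (f 7, f 8), (f 9, f 10))
  invFun p := ![p.1, p.2.1, p.2.2.1, p.2.2.2.1, p.2.2.2.2.1, p.2.2.2.2.2.1, p.2.2.2.2.2.2.1,
    p.2.2.2.2.2.2.2.1.1, p.2.2.2.2.2.2.2.1.2, p.2.2.2.2.2.2.2.2.1, p.2.2.2.2.2.2.2.2.2]
  left_inv f := by funext i; fin_cases i <;> rfl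
  right_inv _ := rfl

def NN (A1 A2 B1 B2 C1 C2 : Equiv.Perm (Fin m)) : ℤ :=
  ∑ x, ∑ y, ∑ z, ((m - 2 : ℤ) + ind A1 x y) * (((m - 2 : ℤ) + ind A2 x y) *
    (((m - 2 : ℤ) + ind B1 y z) * (((m - 2 : ℤ) + ind B2 y z) *
    ((((m : ℤ) ^ 2 - 3 * m + 3) - ind C1 z x) * (((m : ℤ) ^ 2 - 3 * m + 3) - ind C2 z x)))))

theorem count (σ : Fin 11 → Fin 11 → Equiv.Perm (Fin m)) :
    (Set.ncard {f : Fin 11 → Fin m | ∀ p ∈ E, σ p.1 p.2 (f p.1) ≠ f p.2} : ℤ) =
      NN (σ 3 1 * σ 0 3) (σ 4 1 * σ 0 4) (σ 5 2 * σ 1 5) (σ 6 2 * σ 1 6)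
        (σ 8 0 * (σ 7 8 * σ 2 7)) (σ 10 0 * (σ 9 10 * σ 2 9)) := by
  classical
  rw [Set.ncard_eq_toFinset_card', Set.toFinset_setOf, card_filter]
  push_cast
  have e : ∀ f : Fin 11 → Fin m,
      (if ∀ p ∈ E, σ p.1 p.2 (f p.1) ≠ f p.2 then (1 : ℤ) else 0) =
      ((1 - ind (σ 0 3) (f 0) (f 3)) * (1 - ind (σ 3 1) (f 3) (f 1))) *
      (((1 - ind (σ 0 4) (f 0) (f 4)) * (1 - ind (σ 4 1) (f 4) (f 1))) *
      (((1 - ind (σ 1 5) (f 1) (f 5)) * (1 - ind (σ 5 2) (f 5) (f 2))) *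
      (((1 - ind (σ 1 6) (f 1) (f 6)) * (1 - ind (σ 6 2) (f 6) (f 2))) *
      (((1 - ind (σ 2 7) (f 2) (f 7)) * (1 - ind (σ 7 8) (f 7) (f 8)) *
        (1 - ind (σ 8 0) (f 8) (f 0))) *
      ((1 - ind (σ 2 9) (f 2) (f 9)) * (1 - ind (σ 9 10) (f 9) (f 10)) *
        (1 - ind (σ 10 0) (f 10) (f 0))))))) := by
    intro f
    have e1 : ∀ (τ : Equiv.Perm (Fin m)) x y, 1 - ind τ x y = if τ x ≠ y then 1 else 0 := by
      intro τ x y
      by_cases h : τ x = y <;> simp [ind, h]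
    simp only [e1, mul_ite, mul_one, mul_zero, ← ite_and]
    refine if_congr ?_ rfl rfl
    simp only [E, List.forall_mem_cons, List.not_mem_nil, false_imp_iff, implies_true, and_true]
    tauto
  rw [sum_congr rfl fun f _ => e f, ← (sp (Fin m)).symm.sum_comp]
  simp only [NN, ← path2, ← path3]
  rw [Fintype.sum_prod_type]
  refine sum_congr rfl fun x _ => ?_
  rw [Fintype.sum_prod_type]
  refine sum_congr rfl fun y _ => ?_
  rw [Fintype.sum_prod_type]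
  refine sum_congr rfl fun z _ => ?_
  rw [Fintype.sum_prod_type, sum_mul]
  refine sum_congr rfl fun w3 _ => ?_
  rw [Fintype.sum_prod_type, sum_mul, mul_sum]
  refine sum_congr rfl fun w4 _ => ?_
  rw [Fintype.sum_prod_type, sum_mul, mul_sum, mul_sum]
  refine sum_congr rfl fun w5 _ => ?_
  rw [Fintype.sum_prod_type, sum_mul, mul_sum, mul_sum, mul_sum]
  refine sum_congr rfl fun w6 _ => ?_
  rw [Fintype.sum_prod_type, sum_mul, mul_sum, mul_sum, mul_sum, mul_sum]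
  refine sum_congr rfl fun w7 _ => ?_
  rw [mul_sum, mul_sum, mul_sum, mul_sum, mul_sum]
  rfl

def DS (α : Fin m → Fin m → ℤ) : Prop := (∀ x, ∑ y, α x y = 2) ∧ ∀ y, ∑ x, α x y = 2

theorem DS_ind (σ τ : Equiv.Perm (Fin m)) : DS fun x y => ind σ x y + ind τ x y :=
  ⟨fun x => by simp [sum_add_distrib, ind_row], fun y => by simp [sum_add_distrib, ind_col]⟩

theorem two_sum {α β : Fin m → Fin m → ℤ} (ha : DS α) (hb : DS β) :
    ∑ x, ∑ y, ∑ z, α x y * β y z = 4 * m := by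
  simp only [← mul_sum, hb.1, ← sum_mul, ha.1]
  simp
  ring

theorem rot (F : Fin m → Fin m → Fin m → ℤ) :
    ∑ x, ∑ y, ∑ z, F x y z = ∑ y, ∑ z, ∑ x, F x y z := by
  rw [sum_comm]
  exact sum_congr rfl fun y _ => sum_comm

theorem s3_mul (c : ℤ) (F : Fin m → Fin m → Fin m → ℤ) :
    ∑ x, ∑ y, ∑ z, c * F x y z = c * ∑ x, ∑ y, ∑ z, F x y z := by
  simp only [mul_sum]

theorem s3_add (F G : Fin m → Fin m → Fin m → ℤ) :
    ∑ x, ∑ y, ∑ z, (F x y z + G x y z) = ∑ x, ∑ y, ∑ z, F x y z + ∑ x, ∑ y, ∑ z, G x y z := by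
  simp only [sum_add_distrib]

theorem s3_nonneg {F : Fin m → Fin m → Fin m → ℤ} (h : ∀ x y z, 0 ≤ F x y z) :
    0 ≤ ∑ x, ∑ y, ∑ z, F x y z :=
  sum_nonneg fun x _ => sum_nonneg fun y _ => sum_nonneg fun z _ => h x y z

theorem s3_single {F : Fin m → Fin m → Fin m → ℤ} (h : ∀ x y z, 0 ≤ F x y z) (x y z : Fin m) :
    F x y z ≤ ∑ x, ∑ y, ∑ z, F x y z :=
  le_trans (single_le_sum (f := fun z => F x y z) (fun z _ => h x y z) (mem_univ z))
    (le_trans (single_le_sum (f := fun y => ∑ z, F x y z)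
      (fun y _ => sum_nonneg fun z _ => h x y z) (mem_univ y))
      (single_le_sum (f := fun x => ∑ y, ∑ z, F x y z)
        (fun x _ => sum_nonneg fun y _ => sum_nonneg fun z _ => h x y z) (mem_univ x)))

def KK (s t n : ℤ) : ℤ :=
  s ^ 4 * t ^ 2 * n ^ 3 + 4 * s ^ 3 * t ^ 2 * n ^ 2 - 2 * s ^ 4 * t * n ^ 2 + 4 * s ^ 2 * t ^ 2 * n
    - 8 * s ^ 3 * t * n

theorem expand {α β γ : Fin m → Fin m → ℤ} (ha : DS α) (hb : DS β) (hc : DS γ) (s t : ℤ) :
    ∑ x, ∑ y, ∑ z, (s ^ 2 + s * α x y) * (s ^ 2 + s * β y z) * (t ^ 2 - t * γ z x) =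
      KK s t m - s ^ 2 * t * ∑ x, ∑ y, ∑ z, α x y * β y z * γ z x := by
  have e : ∀ x y z, (s ^ 2 + s * α x y) * (s ^ 2 + s * β y z) * (t ^ 2 - t * γ z x) =
      s ^ 4 * t ^ 2 + s ^ 3 * t ^ 2 * α x y + s ^ 3 * t ^ 2 * β y z - s ^ 4 * t * γ z x
      + s ^ 2 * t ^ 2 * (α x y * β y z) - s ^ 3 * t * (β y z * γ z x) - s ^ 3 * t * (γ z x * α x y)
      - s ^ 2 * t * (α x y * β y z * γ z x) := fun x y z => by ring
  have one : ∀ {δ : Fin m → Fin m → ℤ}, DS δ → ∑ x, ∑ y, ∑ _z : Fin m, δ x y = 2 * m ^ 2 := by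
    intro δ hd
    simp only [sum_const, card_univ, Fintype.card_fin, nsmul_eq_mul, ← mul_sum, hd.1]
    ring
  have h1 := one ha
  have h2 : ∑ _x : Fin m, ∑ y, ∑ z, β y z = 2 * m ^ 2 := by rw [rot]; exact one hb
  have h3 : ∑ x, ∑ _y : Fin m, ∑ z, γ z x = 2 * m ^ 2 := by rw [rot, rot]; exact one hc
  have h4 := two_sum ha hb
  have h5 : ∑ x, ∑ y, ∑ z, β y z * γ z x = 4 * m := by rw [rot]; exact two_sum hb hc
  have h6 : ∑ x, ∑ y, ∑ z, γ z x * α x y = 4 * m := by rw [rot, rot]; exact two_sum hc ha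
  simp only [e, sum_add_distrib, sum_sub_distrib]
  rw [s3_mul, s3_mul, s3_mul, s3_mul, s3_mul, s3_mul, s3_mul, s3_mul, h1, h2, h3, h4, h5, h6]
  simp [KK]
  ring

def QQ (n : ℤ) : ℤ :=
  KK (n - 2) (n ^ 2 - 3 * n + 3) n - (n - 2) ^ 2 * (n ^ 2 - 3 * n + 3) * (4 * n)

theorem even_case (τ : Equiv.Perm (Fin m)) (h1 : ∀ x, τ x ≠ x) (h2 : ∀ x, τ (τ x) = x) :
    NN 1 τ 1 τ 1 τ = QQ m := by
  have hd := DS_ind (1 : Equiv.Perm (Fin m)) τ
  have h0 : ∀ x y, ind 1 x y * ind τ x y = 0 := by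
    intro x y
    by_cases h : x = y
    · subst h; simp [ind, h1]
    · simp [ind, h]
  have e := expand hd hd hd (m - 2) ((m : ℤ) ^ 2 - 3 * m + 3)
  have e2 : ∑ x, ∑ y, ∑ z, (ind 1 x y + ind τ x y) * (ind 1 y z + ind τ y z) *
      (ind 1 z x + ind τ z x) = 4 * m := by
    rw [← two_sum hd hd]
    refine sum_congr rfl fun x _ => sum_congr rfl fun y _ => sum_congr rfl fun z _ => ?_
    by_cases a1 : x = y
    · subst a1
      by_cases a2 : x = z
      · subst a2; simp [ind, h1]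
      · by_cases a3 : τ x = z
        · subst a3; simp [ind, h1, h2, (h1 x).symm]
        · simp [ind, a2, a3]
    · by_cases a1' : τ x = y
      · subst a1'
        by_cases a2 : τ x = z
        · subst a2; simp [ind, h1, h2, (h1 x).symm]
        · by_cases a3 : x = z
          · subst a3; simp [ind, h1, h2, (h1 x).symm]
          · simp [ind, a2, a3, h2]
      · simp [ind, a1, a1']
  rw [e2] at e
  rw [QQ, ← e, NN]
  refine sum_congr rfl fun x _ => sum_congr rfl fun y _ => sum_congr rfl fun z _ => ?_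
  have p1 := h0 x y
  have p2 := h0 y z
  have p3 := h0 z x
  generalize ((m : ℤ) ^ 2 - 3 * m + 3) = t
  generalize ((m : ℤ) - 2) = s
  have q1 : (s + ind 1 x y) * (s + ind τ x y) = s ^ 2 + s * (ind 1 x y + ind τ x y) := by
    linear_combination p1
  have q2 : (s + ind 1 y z) * (s + ind τ y z) = s ^ 2 + s * (ind 1 y z + ind τ y z) := by
    linear_combination p2
  have q3 : (t - ind 1 z x) * (t - ind τ z x) = t ^ 2 - t * (ind 1 z x + ind τ z x) := by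
    linear_combination p3
  rw [← q1, ← q2, ← q3]
  ring

theorem pointwise (s t a1 a2 b1 b2 c1 c2 : ℤ) (hs : 1 ≤ s) (ht : 3 ≤ t)
    (h1 : 0 ≤ a1) (h2 : 0 ≤ a2) (h3 : 0 ≤ b1) (h4 : 0 ≤ b2) (h5 : 0 ≤ c1) (h6 : 0 ≤ c2)
    (h7 : c1 ≤ 1) (h8 : c2 ≤ 1) :
    (s ^ 2 + s * (a1 + a2)) * (s ^ 2 + s * (b1 + b2)) * (t ^ 2 - t * (c1 + c2))
      + a1 * a2 + b1 * b2 + s ^ 4 * (c1 * c2) ≤
    (s + a1) * ((s + a2) * ((s + b1) * ((s + b2) * ((t - c1) * (t - c2))))) := by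
  have x1 : 1 ≤ s ^ 2 := one_le_pow₀ hs
  have xa : s ^ 2 ≤ s ^ 2 + s * (a1 + a2) := le_add_of_nonneg_right (by positivity)
  have xb : s ^ 2 ≤ s ^ 2 + s * (b1 + b2) := le_add_of_nonneg_right (by positivity)
  have xc : 1 ≤ t ^ 2 - t * (c1 + c2) := by nlinarith
  have da : 0 ≤ a1 * a2 := by positivity
  have db : 0 ≤ b1 * b2 := by positivity
  have dc : 0 ≤ c1 * c2 := by positivity
  have e : (s + a1) * ((s + a2) * ((s + b1) * ((s + b2) * ((t - c1) * (t - c2))))) =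
      ((s ^ 2 + s * (a1 + a2)) + a1 * a2) * ((s ^ 2 + s * (b1 + b2)) + b1 * b2) *
      ((t ^ 2 - t * (c1 + c2)) + c1 * c2) := by ring
  rw [e, show s ^ 4 = s ^ 2 * s ^ 2 by ring]
  generalize s ^ 2 + s * (a1 + a2) = X at *
  generalize s ^ 2 + s * (b1 + b2) = Y at *
  generalize t ^ 2 - t * (c1 + c2) = Z at *
  generalize a1 * a2 = p at *
  generalize b1 * b2 = q at *
  generalize c1 * c2 = r at *
  generalize s ^ 2 = u at *
  have hX : 0 ≤ X := by omega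
  have hY : 0 ≤ Y := by omega
  have hZ : 0 ≤ Z := by omega
  have k1 : u * u * r ≤ X * Y * r :=
    mul_le_mul_of_nonneg_right (mul_le_mul xa xb (by omega) hX) dc
  have k2 : p ≤ p * (Y * Z) := le_mul_of_one_le_right da (one_le_mul_of_one_le_of_one_le (by omega) xc)
  have k3 : q ≤ q * (X * Z) := le_mul_of_one_le_right db (one_le_mul_of_one_le_of_one_le (by omega) xc)
  have k4 : 0 ≤ p * q * Z + p * Y * r + X * q * r + p * q * r := by positivity
  nlinarith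

theorem odd_case (hm : 10 ≤ m) (hodd : ¬ 2 ∣ m) (A1 A2 B1 B2 C1 C2 : Equiv.Perm (Fin m)) :
    QQ m < NN A1 A2 B1 B2 C1 C2 := by
  have hm' : (10 : ℤ) ≤ m := by exact_mod_cast hm
  have ha := DS_ind A1 A2
  have hb := DS_ind B1 B2
  have hc := DS_ind C1 C2
  have e := expand ha hb hc (m - 2) ((m : ℤ) ^ 2 - 3 * m + 3)
  have hle : ∑ x, ∑ y, ∑ z, (((m - 2 : ℤ) ^ 2 + (m - 2) * (ind A1 x y + ind A2 x y)) *
      ((m - 2 : ℤ) ^ 2 + (m - 2) * (ind B1 y z + ind B2 y z)) *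
      (((m : ℤ) ^ 2 - 3 * m + 3) ^ 2 - ((m : ℤ) ^ 2 - 3 * m + 3) * (ind C1 z x + ind C2 z x))
      + ind A1 x y * ind A2 x y + ind B1 y z * ind B2 y z
      + (m - 2 : ℤ) ^ 4 * (ind C1 z x * ind C2 z x)) ≤ NN A1 A2 B1 B2 C1 C2 :=
    sum_le_sum fun x _ => sum_le_sum fun y _ => sum_le_sum fun z _ =>
      pointwise _ _ _ _ _ _ _ _ (by omega) (by nlinarith) (ind_nonneg ..) (ind_nonneg ..)
        (ind_nonneg ..) (ind_nonneg ..) (ind_nonneg ..) (ind_nonneg ..) (ind_le ..) (ind_le ..)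
  rw [s3_add, s3_add, s3_add, s3_mul, e] at hle
  have nn : ∀ (σ τ : Equiv.Perm (Fin m)) x y, 0 ≤ ind σ x y * ind τ x y := fun σ τ x y =>
    mul_nonneg (ind_nonneg ..) (ind_nonneg ..)
  have na : ∀ (σ τ : Equiv.Perm (Fin m)) x y, 0 ≤ ind σ x y + ind τ x y := fun σ τ x y =>
    add_nonneg (ind_nonneg ..) (ind_nonneg ..)
  have hPa : 0 ≤ ∑ x, ∑ y, ∑ _z : Fin m, ind A1 x y * ind A2 x y := s3_nonneg fun x y _ => nn ..
  have hPb : 0 ≤ ∑ _x : Fin m, ∑ y, ∑ z, ind B1 y z * ind B2 y z := s3_nonneg fun _ y z => nn ..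
  have hPc : ∑ x, ∑ _y : Fin m, ∑ z, ind C1 z x * ind C2 z x =
      m * ∑ x, ∑ z, ind C1 z x * ind C2 z x := by
    simp [mul_sum]
  have hfc : 0 ≤ ∑ x, ∑ z, ind C1 z x * ind C2 z x :=
    sum_nonneg fun x _ => sum_nonneg fun z _ => nn ..
  have hR : ∑ x, ∑ y, ∑ z, (ind A1 x y + ind A2 x y) * (ind B1 y z + ind B2 y z) *
      (ind C1 z x * ind C2 z x) ≤ 4 * ∑ x, ∑ z, ind C1 z x * ind C2 z x := by
    rw [mul_sum]
    refine sum_le_sum fun x _ => ?_
    rw [sum_comm, mul_sum]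
    refine sum_le_sum fun z _ => ?_
    rw [← sum_mul]
    refine mul_le_mul_of_nonneg_right ?_ (nn ..)
    calc _ ≤ ∑ y, (ind A1 x y + ind A2 x y) * 2 := sum_le_sum fun y _ =>
          mul_le_mul_of_nonneg_left (by linarith [ind_le B1 y z, ind_le B2 y z]) (na ..)
      _ = 4 := by rw [← sum_mul, ha.1]; norm_num
  have nU : ∀ x y z, 0 ≤ (ind A1 x y + ind A2 x y) * (ind B1 y z + ind B2 y z) *
      ((1 - ind C1 z x) * (1 - ind C2 z x)) := fun x y z =>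
    mul_nonneg (mul_nonneg (na ..) (na ..))
      (mul_nonneg (by linarith [ind_le C1 z x]) (by linarith [ind_le C2 z x]))
  have hU := s3_nonneg nU
  have hT : ∑ x, ∑ y, ∑ z, (ind A1 x y + ind A2 x y) * (ind B1 y z + ind B2 y z) *
      (ind C1 z x + ind C2 z x) + ∑ x, ∑ y, ∑ z, (ind A1 x y + ind A2 x y) *
      (ind B1 y z + ind B2 y z) * ((1 - ind C1 z x) * (1 - ind C2 z x)) = 4 * m +
      ∑ x, ∑ y, ∑ z, (ind A1 x y + ind A2 x y) * (ind B1 y z + ind B2 y z) *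
      (ind C1 z x * ind C2 z x) := by
    rw [← two_sum ha hb, ← s3_add, ← s3_add]
    exact sum_congr rfl fun x _ => sum_congr rfl fun y _ => sum_congr rfl fun z _ => by ring
  have hpos : 0 < ∑ x, ∑ y, ∑ _z : Fin m, ind A1 x y * ind A2 x y ∨
      0 < ∑ _x : Fin m, ∑ y, ∑ z, ind B1 y z * ind B2 y z ∨
      0 < ∑ x, ∑ y, ∑ z, (ind A1 x y + ind A2 x y) * (ind B1 y z + ind B2 y z) *
      ((1 - ind C1 z x) * (1 - ind C2 z x)) := by
    by_contra hn
    push Not at hn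
    obtain ⟨n1, n2, n3⟩ := hn
    have fa : ∀ x, A1 x ≠ A2 x := by
      intro x h
      have := s3_single (F := fun x y _ => ind A1 x y * ind A2 x y) (fun x y _ => nn ..) x (A1 x) x
      simp only [ind, h, if_true] at this n1
      omega
    have fb : ∀ x, B1 x ≠ B2 x := by
      intro x h
      have := s3_single (F := fun _ y z => ind B1 y z * ind B2 y z) (fun _ y z => nn ..) x x (B1 x)
      simp only [ind, h, if_true] at this n2
      omega
    have fc : ∀ x y z, (A1 x = y ∨ A2 x = y) → (B1 y = z ∨ B2 y = z) → C1 z = x ∨ C2 z = x := by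
      intro x y z h1 h2
      by_contra h3
      push Not at h3
      have k := (s3_single nU x y z).trans n3
      have k1 : 1 ≤ ind A1 x y + ind A2 x y := by
        have := ind_nonneg A1 x y
        have := ind_nonneg A2 x y
        rcases h1 with h | h <;> simp only [ind, h, if_true] at * <;> omega
      have k2 : 1 ≤ ind B1 y z + ind B2 y z := by
        have := ind_nonneg B1 y z
        have := ind_nonneg B2 y z
        rcases h2 with h | h <;> simp only [ind, h, if_true] at * <;> omega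
      have k3 : (1 - ind C1 z x) * (1 - ind C2 z x) = 1 := by simp [ind, h3.1, h3.2]
      rw [k3, mul_one] at k
      nlinarith
    have three : ∀ x p q r, (C1 p = x ∨ C2 p = x) → (C1 q = x ∨ C2 q = x) →
        (C1 r = x ∨ C2 r = x) → p ≠ q → p ≠ r → q = r := by
      intro x p q r h1 h2 h3 n1 n2
      rcases h1 with h1 | h1 <;> rcases h2 with h2 | h2 <;> rcases h3 with h3 | h3 <;>
        first
        | exact absurd (C1.injective (h1.trans h2.symm)) n1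
        | exact absurd (C2.injective (h1.trans h2.symm)) n1
        | exact absurd (C1.injective (h1.trans h3.symm)) n2
        | exact absurd (C2.injective (h1.trans h3.symm)) n2
        | exact C1.injective (h2.trans h3.symm)
        | exact C2.injective (h2.trans h3.symm)
    have e1 : ∀ x, B2 (A1 x) = B1 (A2 x) := fun x =>
      three x (B1 (A1 x)) _ _ (fc x _ _ (Or.inl rfl) (Or.inl rfl))
        (fc x _ _ (Or.inl rfl) (Or.inr rfl)) (fc x _ _ (Or.inr rfl) (Or.inl rfl)) (fb _)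
        (fun h => fa x (B1.injective h))
    have e2 : ∀ x, B2 (A2 x) = B1 (A1 x) := fun x =>
      three x (B1 (A2 x)) _ _ (fc x _ _ (Or.inr rfl) (Or.inl rfl))
        (fc x _ _ (Or.inr rfl) (Or.inr rfl)) (fc x _ _ (Or.inl rfl) (Or.inl rfl)) (fb _)
        (fun h => fa x (B1.injective h).symm)
    haveI : Fact (Nat.Prime 2) := ⟨Nat.prime_two⟩
    obtain ⟨x, hx⟩ := Equiv.Perm.exists_fixed_point_of_prime (p := 2) (n := 1)
      (σ := B1⁻¹ * B2) (by simpa using hodd) (by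
        ext y
        obtain ⟨x, rfl⟩ := A1.surjective y
        simp [pow_two, e1, e2])
    refine fb x ?_
    have := congrArg B1 hx
    simpa using this.symm
  rw [hPc] at hle
  rw [QQ]
  have hs : (8 : ℤ) ≤ m - 2 := by omega
  have ht : (1 : ℤ) ≤ (m : ℤ) ^ 2 - 3 * m + 3 := by nlinarith
  have hk : 4 * ((m : ℤ) ^ 2 - 3 * m + 3) ≤ (m - 2) ^ 2 * m := by nlinarith
  generalize (∑ x, ∑ y, ∑ z, (ind A1 x y + ind A2 x y) * (ind B1 y z + ind B2 y z) *
      ((1 - ind C1 z x) * (1 - ind C2 z x))) = U at *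
  generalize (∑ x, ∑ y, ∑ z, (ind A1 x y + ind A2 x y) * (ind B1 y z + ind B2 y z) *
      (ind C1 z x * ind C2 z x)) = R at *
  generalize (∑ x, ∑ y, ∑ z, (ind A1 x y + ind A2 x y) * (ind B1 y z + ind B2 y z) *
      (ind C1 z x + ind C2 z x)) = T at *
  generalize (∑ x, ∑ z, ind C1 z x * ind C2 z x) = fc at *
  generalize (∑ x, ∑ y, ∑ _z : Fin m, ind A1 x y * ind A2 x y) = Pa at *
  generalize (∑ _x : Fin m, ∑ y, ∑ z, ind B1 y z * ind B2 y z) = Pb at *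
  generalize KK (m - 2) ((m : ℤ) ^ 2 - 3 * m + 3) m = K at *
  generalize ((m : ℤ) ^ 2 - 3 * m + 3) = t at *
  generalize ((m : ℤ) - 2) = s at *
  have hc1 : 1 ≤ s ^ 2 * t := one_le_mul_of_one_le_of_one_le (one_le_pow₀ (by omega)) ht
  have k1 : s ^ 2 * t * R ≤ s ^ 4 * (m * fc) := by
    calc s ^ 2 * t * R ≤ s ^ 2 * t * (4 * fc) := mul_le_mul_of_nonneg_left hR (by omega)
      _ = s ^ 2 * fc * (4 * t) := by ring
      _ ≤ s ^ 2 * fc * (s ^ 2 * m) := mul_le_mul_of_nonneg_left hk (by positivity)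
      _ = _ := by ring
  have k2 : U ≤ s ^ 2 * t * U := le_mul_of_one_le_left hU hc1
  have k3 : s ^ 2 * t * T = s ^ 2 * t * (4 * m) + s ^ 2 * t * R - s ^ 2 * t * U := by
    rw [show T = 4 * m + R - U by omega]; ring
  rcases hpos with h | h | h <;> linarith

def Cov (m : ℕ) : Set ℕ :=
  {k : ℕ | ∃ M : Fin 11 → Fin 11 → Fin m → Fin m → Prop,
    (∀ u v i j, M u v i j → G0.Adj u v) ∧
    (∀ u v i j, M u v i j → M v u j i) ∧
    (∀ u v i j j', M u v i j → M u v i j' → j = j') ∧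
    (∀ u v i i' j, M u v i j → M u v i' j → i = i') ∧
    k = Set.ncard {f : Fin 11 → Fin m | ∀ u v, ¬ M u v (f u) (f v)}}

theorem mem_full (σ : Fin 11 → Fin 11 → Equiv.Perm (Fin m)) :
    Set.ncard {f : Fin 11 → Fin m | ∀ p ∈ E, σ p.1 p.2 (f p.1) ≠ f p.2} ∈ Cov m := by
  have hE : ∀ u v : Fin 11, (u, v) ∈ E → u ≠ v ∧ (v, u) ∉ E := by decide
  refine ⟨fun u v i j => ((u, v) ∈ E ∧ σ u v i = j) ∨ ((v, u) ∈ E ∧ σ v u j = i), ?_, ?_, ?_, ?_, ?_⟩
  · rintro u v i j (⟨h, -⟩ | ⟨h, -⟩)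
    · exact (SimpleGraph.fromRel_adj _ _ _).mpr ⟨(hE _ _ h).1, Or.inl h⟩
    · exact (SimpleGraph.fromRel_adj _ _ _).mpr ⟨(hE _ _ h).1.symm, Or.inr h⟩
  · intro u v i j h
    exact h.symm
  · rintro u v i j j' (⟨h, e⟩ | ⟨h, e⟩) (⟨h', e'⟩ | ⟨h', e'⟩)
    · exact e.symm.trans e'
    · exact absurd h' (hE _ _ h).2
    · exact absurd h (hE _ _ h').2
    · exact (σ v u).injective (e.trans e'.symm)
  · rintro u v i i' j (⟨h, e⟩ | ⟨h, e⟩) (⟨h', e'⟩ | ⟨h', e'⟩)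
    · exact (σ u v).injective (e.trans e'.symm)
    · exact absurd h' (hE _ _ h).2
    · exact absurd h (hE _ _ h').2
    · exact e.symm.trans e'
  · congr 1
    ext f
    simp only [Set.mem_setOf_eq, not_or, not_and]
    exact ⟨fun h u v => ⟨fun h1 => h _ h1, fun h1 => h _ h1⟩, fun h p hp => (h p.1 p.2).1 hp⟩

theorem lower (hm : 10 ≤ m) (hodd : ¬ 2 ∣ m) : QQ m < (sInf (Cov m) : ℕ) := by
  obtain ⟨M, h1, h2, h3, h4, h5⟩ := Nat.sInf_mem (⟨_, mem_full fun _ _ => 1⟩ : (Cov m).Nonempty)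
  have hex : ∀ u v, ∃ σ : Equiv.Perm (Fin m), ∀ i j, M u v i j → σ i = j := by
    intro u v
    obtain ⟨σ, hσ⟩ := Equiv.Perm.exists_extending_pair
      (f := fun p : {p : Fin m × Fin m // M u v p.1 p.2} => p.1.1)
      (g := fun p : {p : Fin m × Fin m // M u v p.1 p.2} => p.1.2)
      (fun p q h => Subtype.ext (Prod.ext h (h3 u v p.1.1 _ _ p.2 (by
        have := q.2; simp only at h; rwa [← h] at this))))
      (fun p q h => Subtype.ext (Prod.ext (h4 u v _ _ p.1.2 p.2 (by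
        have := q.2; simp only at h; rwa [← h] at this)) h))
    exact ⟨σ, fun i j h => hσ ⟨(i, j), h⟩⟩
  choose σ hσ using hex
  refine lt_of_lt_of_le (odd_case hm hodd _ _ _ _ _ _) ((count σ).symm.le.trans ?_)
  rw [h5]
  refine Nat.cast_le.mpr (Set.ncard_le_ncard (fun f hf u v hM => ?_) (Set.toFinite _))
  rcases ((SimpleGraph.fromRel_adj _ _ _).mp (h1 _ _ _ _ hM)).2 with h | h
  · exact hf _ h (hσ _ _ _ _ hM)
  · exact hf _ h (hσ _ _ _ _ (h2 _ _ _ _ hM))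

theorem upper (hev : 2 ∣ m) : ((sInf (Cov m) : ℕ) : ℤ) ≤ QQ m := by
  have h1 : ∀ x : Fin m, Fin.revPerm x ≠ x := by
    intro x h
    have := congrArg Fin.val h
    simp only [Fin.revPerm_apply, Fin.val_rev] at this
    have := x.2
    omega
  rw [← even_case Fin.revPerm h1 (by simp)]
  let σ : Fin 11 → Fin 11 → Equiv.Perm (Fin m) := fun u v =>
    if (u, v) = (0, 4) ∨ (u, v) = (1, 6) ∨ (u, v) = (2, 9) then Fin.revPerm else 1
  refine (Nat.cast_le.mpr (Nat.sInf_le (mem_full σ))).trans ((count σ).le.trans (le_of_eq ?_))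
  simp only [σ, Prod.mk.injEq, Fin.reduceEq, and_true, and_false, false_and, or_false, false_or,
    if_true, if_false, one_mul, mul_one, and_self, true_or, or_true]

theorem not_poly : ¬ ∃ N : ℕ, ∃ p : Polynomial ℝ, ∀ m : ℕ, N ≤ m →
    ((sInf (Cov m) : ℕ) : ℝ) = p.eval (m : ℝ) := by
  rintro ⟨N, p, hp⟩
  obtain ⟨q, hq⟩ : ∃ q : Polynomial ℝ, ∀ m : ℕ, q.eval (m : ℝ) = (QQ m : ℤ) := by
    refine ⟨(Polynomial.X - 2) ^ 4 * (Polynomial.X ^ 2 - 3 * Polynomial.X + 3) ^ 2 * Polynomial.X ^ 3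
      + 4 * (Polynomial.X - 2) ^ 3 * (Polynomial.X ^ 2 - 3 * Polynomial.X + 3) ^ 2 * Polynomial.X ^ 2
      - 2 * (Polynomial.X - 2) ^ 4 * (Polynomial.X ^ 2 - 3 * Polynomial.X + 3) * Polynomial.X ^ 2
      + 4 * (Polynomial.X - 2) ^ 2 * (Polynomial.X ^ 2 - 3 * Polynomial.X + 3) ^ 2 * Polynomial.X
      - 8 * (Polynomial.X - 2) ^ 3 * (Polynomial.X ^ 2 - 3 * Polynomial.X + 3) * Polynomial.X
      - (Polynomial.X - 2) ^ 2 * (Polynomial.X ^ 2 - 3 * Polynomial.X + 3) * (4 * Polynomial.X),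
      fun m => ?_⟩
    simp [QQ, KK]
  have hodd : ∀ j : ℕ, N + 5 ≤ j → 0 < (p - q).eval ((2 * j + 1 : ℕ) : ℝ) := by
    intro j hj
    rw [Polynomial.eval_sub, ← hp _ (by omega), hq, sub_pos]
    exact_mod_cast lower (m := 2 * j + 1) (by omega) (by omega)
  have hev : ∀ j : ℕ, N + 5 ≤ j → (p - q).eval ((2 * j : ℕ) : ℝ) ≤ 0 := by
    intro j hj
    rw [Polynomial.eval_sub, ← hp _ (by omega), hq, sub_nonpos]
    exact_mod_cast upper (m := 2 * j) (by omega)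
  have h0 : p - q = 0 := by
    apply Polynomial.eq_zero_of_infinite_isRoot
    apply Set.infinite_of_forall_exists_gt
    intro a
    obtain ⟨j, hj⟩ := exists_nat_gt a
    have hle : (((2 * (j + N + 5) : ℕ) : ℝ)) ≤ ((2 * (j + N + 5) + 1 : ℕ) : ℝ) := by
      exact_mod_cast Nat.le_succ _
    obtain ⟨x, hx, hx0⟩ := intermediate_value_Icc hle (p - q).continuous.continuousOn
      ⟨hev (j + N + 5) (by omega), (hodd (j + N + 5) (by omega)).le⟩
    refine ⟨x, hx0, lt_of_lt_of_le (hj.trans_le ?_) hx.1⟩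
    exact_mod_cast (by omega : j ≤ 2 * (j + N + 5))
  have := hodd (N + 5) le_rfl
  simp [h0] at this

end Pool.Agent.H19.DPPoly
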