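import Mathlib

set_option autoImplicit false

namespace Pool.Agent.H19.Stiebitz

open SimpleGraph

theorem chi_lt {V : Type} (G : SimpleGraph V) (q : ℕ) :
    G.chromaticNumber < ((q + 1 : ℕ) : ℕ∞) ↔ G.Colorable q := by
  rw [← chromaticNumber_le_iff_colorable, Nat.cast_add, Nat.cast_one]
  exact ENat.lt_add_one_iff (ENat.coe_ne_top q)

theorem extract {U : Type} [Finite U] (F : SimpleGraph U) (q : ℕ) (hq : 0 < q)
    (hF : ¬ F.Colorable q) :
    ∃ (m : ℕ) (G : SimpleGraph (Fin m)), G.chromaticNumber = ((q + 1 : ℕ) : ℕ∞) ∧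
      (∀ v w : Fin m, G.Adj v w →
        (G.deleteEdges {s(v, w)}).chromaticNumber < ((q + 1 : ℕ) : ℕ∞)) ∧
      (∀ v : Fin m, (G.induce ({v}ᶜ : Set (Fin m))).chromaticNumber < ((q + 1 : ℕ) : ℕ∞)) ∧
      m ≤ Nat.card U ∧ ∃ g : Fin m → U, Function.Injective g ∧
        ∀ x y, F.Adj x y → (F.deleteEdges {s(x, y)}).Colorable q →
          ∃ a b, g a = x ∧ g b = y ∧ G.Adj a b := by
  classical
  obtain ⟨G1, hle, hmin⟩ := exists_minimal_le_of_wellFoundedLT (fun G : SimpleGraph U => ¬ G.Colorable q) F hF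
  have hdel : ∀ x y, G1.Adj x y → (G1.deleteEdges {s(x, y)}).Colorable q := by
    intro x y h
    by_contra hc
    have := hmin.2 hc (deleteEdges_le _) h
    simp at this
  haveI := Fintype.ofFinite G1.support
  let e := (Fintype.equivFin G1.support).symm
  let g : Fin (Fintype.card G1.support) → U := fun a => (e a).1
  have ginj : Function.Injective g := Subtype.val_injective.comp e.injective
  have gsur : ∀ x y, G1.Adj x y → ∃ a, g a = x := fun x y h =>
    ⟨e.symm ⟨x, y, h⟩, by simp [g]⟩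
  have hnc : ¬ (G1.comap g).Colorable q := by
    rintro ⟨c⟩
    refine hmin.1 ⟨Coloring.mk (fun x => if h : ∃ a, g a = x then c h.choose else ⟨0, hq⟩) ?_⟩
    intro x y hxy
    have h1 := gsur x y hxy
    have h2 := gsur y x hxy.symm
    simp only [h1, h2, dif_pos]
    exact c.valid (by simpa [h1.choose_spec, h2.choose_spec] using hxy)
  have hd2 : ∀ v w, (G1.comap g).Adj v w → ((G1.comap g).deleteEdges {s(v, w)}).Colorable q := by
    intro v w h
    obtain ⟨c⟩ := hdel _ _ h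
    refine ⟨Coloring.mk (fun a => c (g a)) fun {a b} hab => c.valid ?_⟩
    simp only [deleteEdges_adj, comap_adj, Set.mem_singleton_iff] at hab ⊢
    refine ⟨hab.1, fun he => hab.2 ?_⟩
    rcases Sym2.eq_iff.mp he with ⟨h1, h2⟩ | ⟨h1, h2⟩
    · rw [ginj h1, ginj h2]
    · rw [ginj h1, ginj h2, Sym2.eq_swap]
  have hv : ∀ v, ((G1.comap g).induce ({v}ᶜ : Set _)).Colorable q := by
    intro v
    obtain ⟨y, hy⟩ := (e v).2
    obtain ⟨w, rfl⟩ := gsur y _ hy.symm
    obtain ⟨c⟩ := hd2 v w hy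
    refine ⟨Coloring.mk (fun a => c a.1) fun {a b} hab => c.valid ?_⟩
    simp only [deleteEdges_adj, Set.mem_singleton_iff]
    refine ⟨hab, fun he => ?_⟩
    rcases Sym2.eq_iff.mp he with ⟨h1, -⟩ | ⟨-, h2⟩
    · exact a.2 h1
    · exact b.2 h2
  refine ⟨_, G1.comap g, le_antisymm ?_ (not_lt.mp fun h => hnc ((chi_lt _ _).mp h)),
    fun v w h => (chi_lt _ _).mpr (hd2 v w h), fun v => (chi_lt _ _).mpr (hv v), ?_, g, ginj, ?_⟩
  · rcases isEmpty_or_nonempty (Fin (Fintype.card G1.support)) with h | ⟨⟨v⟩⟩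
    · exact absurd (Colorable.of_isEmpty _) hnc
    · obtain ⟨c⟩ := hv v
      refine Colorable.chromaticNumber_le ⟨Coloring.mk
        (fun a => if h : a = v then Fin.last q else (c ⟨a, h⟩).castSucc) ?_⟩
      intro a b hab
      by_cases ha : a = v
      · have hb : b ≠ v := fun h => hab.ne (ha.trans h.symm)
        simpa [ha, hb] using (Fin.castSucc_ne_last _).symm
      · by_cases hb : b = v
        · simp [ha, hb]
        · simpa [ha, hb] using c.valid (v := ⟨a, ha⟩) (w := ⟨b, hb⟩) hab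
  · simpa using Nat.card_le_card_of_injective g ginj
  · intro x y hxy hc
    have h1 : G1.Adj x y := by
      by_contra h
      refine hmin.1 (hc.mono_left fun a b hab => ?_)
      simp only [deleteEdges_adj, Set.mem_singleton_iff]
      refine ⟨hle hab, fun he => h ?_⟩
      rcases Sym2.eq_iff.mp he with ⟨rfl, rfl⟩ | ⟨rfl, rfl⟩
      · exact hab
      · exact hab.symm
    obtain ⟨a, rfl⟩ := gsur x y h1
    obtain ⟨b, rfl⟩ := gsur y _ h1.symm
    exact ⟨a, b, rfl, rfl, h1⟩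

inductive U (N p : ℕ)
  | o (x : Fin N)
  | s (b : Bool) (x : Fin N)
  | w (b : Bool) (x : Fin N)
  | v (b : Bool) (x : Fin N)
  | a (b : Bool) (x : Fin N) (c : Fin (p + 3))
  | u (b : Bool) (x : Fin N) (c : Fin (p + 3))
  | pal (c : Fin (p + 3))
  deriving DecidableEq, Fintype

variable {N p : ℕ}

def code : U N p → (Fin N × Fin 7) ⊕ (Fin N × Fin 4 × Fin (p + 3)) ⊕ Fin (p + 3)
  | U.o x => Sum.inl (x, 0)
  | U.s b x => Sum.inl (x, if b then 1 else 2)
  | U.w b x => Sum.inl (x, if b then 3 else 4)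
  | U.v b x => Sum.inl (x, if b then 5 else 6)
  | U.a b x c => Sum.inr (Sum.inl (x, if b then 0 else 1, c))
  | U.u b x c => Sum.inr (Sum.inl (x, if b then 2 else 3, c))
  | U.pal c => Sum.inr (Sum.inr c)

theorem card_U : Nat.card (U N p) ≤ N * 7 + (N * (4 * (p + 3)) + (p + 3)) := by
  have : Function.Injective (code (N := N) (p := p)) := by
    intro x y h
    rcases x with _ | ⟨_ | _, _⟩ | ⟨_ | _, _⟩ | ⟨_ | _, _⟩ | ⟨_ | _, _, _⟩ | ⟨_ | _, _, _⟩ | _ <;>
    rcases y with _ | ⟨_ | _, _⟩ | ⟨_ | _, _⟩ | ⟨_ | _, _⟩ | ⟨_ | _, _, _⟩ | ⟨_ | _, _, _⟩ | _ <;>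
    simp_all [code]
  simpa using Nat.card_le_card_of_injective _ this

def cin (b : Bool) : ℕ := if b then 2 else 1
def cout (b : Bool) : ℕ := if b then 1 else 2
def dd (c : ℕ) : ℕ := if c = 1 then 2 else 1

def allow : U N p → ℕ → Prop
  | U.o _, _ => True
  | U.s b _, c => c = 0 ∨ c = cin b
  | U.w b x, c => c = 0 ∨ c = cin b ∨ (c = cout b ∧ x.1 ≠ 0)
  | U.v b x, c => c = 0 ∨ (c = cout b ∧ x.1 + 1 ≠ N)
  | U.a _ _ c', c => c = 0 ∨ c = dd c'.1
  | U.u _ _ c', c => c = dd c'.1 ∨ c = c'.1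
  | U.pal c', c => c = c'.1

def R0 (H : SimpleGraph (Fin N)) : U N p → U N p → Prop
  | U.o x, U.o y => H.Adj x y
  | U.s b x, U.s b' y => b = false ∧ b' = true ∧ ¬ H.Adj x y
  | U.s b x, U.w b' y => b = b' ∧ x = y
  | U.w b x, U.v b' y => b = b' ∧ x = y
  | U.v b x, U.w b' y => b = b' ∧ y.1 = x.1 + 1
  | U.s b x, U.a b' y _ => b = b' ∧ x = y
  | U.a b x c, U.u b' y c' => b = b' ∧ x = y ∧ c = c'
  | U.u _ x c, U.o y => x = y ∧ c.1 ≠ 0
  | _, _ => False

def RR (H : SimpleGraph (Fin N)) (x y : U N p) : Prop :=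
  R0 H x y ∨ ∃ c, y = U.pal c ∧ ¬ allow x c.1

def FF (H : SimpleGraph (Fin N)) (p : ℕ) : SimpleGraph (U N p) := fromRel (RR H)

theorem not_col (H : SimpleGraph (Fin N)) (hN : 0 < N) : ¬ (FF H p).Colorable (p + 3) := by
  rintro ⟨c⟩
  have hR : ∀ x y, x ≠ y → RR H x y → c x ≠ c y := fun x y h h' =>
    c.valid ((fromRel_adj _ _ _).mpr ⟨h, Or.inl h'⟩)
  have hinj : Function.Injective fun i => c (U.pal i) := by
    intro i j h
    by_contra hne
    exact hR (U.pal i) (U.pal j) (by simpa using hne)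
      (Or.inr ⟨j, rfl, fun e => hne (Fin.ext (Eq.symm e))⟩) h
  have hsur := Finite.injective_iff_surjective.mp hinj
  choose π hπ using hsur
  let ψ : U N p → ℕ := fun x => (π (c x)).1
  have hA : ∀ x, allow x (ψ x) := by
    intro x
    by_contra h
    by_cases hx : x = U.pal (π (c x))
    · exact h (by rw [hx]; simp only [allow, ψ]; rw [← hx])
    · exact hR _ _ hx (Or.inr ⟨_, rfl, h⟩) (hπ (c x)).symm
  have hE : ∀ x y, x ≠ y → R0 H x y → ψ x ≠ ψ y := by
    intro x y h h' e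
    refine hR x y h (Or.inl h') ?_
    rw [← hπ (c x), ← hπ (c y), Fin.ext e]
  have hact : ∀ b, ∃ x, ψ (U.s b x) = 0 := by
    intro b
    by_contra h
    push Not at h
    have hs : ∀ x, ψ (U.s b x) = cin b := fun x => (hA (U.s b x)).resolve_left (h x)
    have key : ∀ i (hi : i < N), ψ (U.w b ⟨i, hi⟩) = 0 := by
      intro i
      induction i with
      | zero =>
        intro hi
        have h1 := hA (U.w b ⟨0, hi⟩)
        have h2 := hE (U.s b ⟨0, hi⟩) (U.w b ⟨0, hi⟩) (by simp) ⟨rfl, rfl⟩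
        rw [hs] at h2
        simp only [allow] at h1
        omega
      | succ i ih =>
        intro hi
        have h0 := ih (by omega)
        have h1 := hA (U.w b ⟨i + 1, hi⟩)
        have h2 := hE (U.s b ⟨i + 1, hi⟩) (U.w b ⟨i + 1, hi⟩) (by simp) ⟨rfl, rfl⟩
        have h3 := hA (U.v b ⟨i, by omega⟩)
        have h4 := hE (U.w b ⟨i, by omega⟩) (U.v b ⟨i, by omega⟩) (by simp) ⟨rfl, rfl⟩
        have h5 := hE (U.v b ⟨i, by omega⟩) (U.w b ⟨i + 1, hi⟩) (by simp) ⟨rfl, rfl⟩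
        rw [hs] at h2
        simp only [allow] at h1 h3
        omega
    have h0 := key (N - 1) (by omega)
    have h3 := hA (U.v b ⟨N - 1, by omega⟩)
    have h4 := hE (U.w b ⟨N - 1, by omega⟩) (U.v b ⟨N - 1, by omega⟩) (by simp) ⟨rfl, rfl⟩
    simp only [allow] at h3
    omega
  have himp : ∀ b x, ψ (U.s b x) = 0 → ψ (U.o x) = 0 := by
    intro b x h
    by_contra h0
    have h1 := hA (U.a b x (π (c (U.o x))))
    have h2 := hA (U.u b x (π (c (U.o x))))
    have h3 := hE (U.s b x) (U.a b x (π (c (U.o x)))) (by simp) ⟨rfl, rfl⟩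
    have h4 := hE (U.a b x (π (c (U.o x)))) (U.u b x (π (c (U.o x)))) (by simp) ⟨rfl, rfl, rfl⟩
    have h5 := hE (U.u b x (π (c (U.o x)))) (U.o x) (by simp) ⟨rfl, h0⟩
    have h6 : ψ (U.o x) = (π (c (U.o x))).1 := rfl
    simp only [allow] at h1 h2
    omega
  obtain ⟨x, hx⟩ := hact false
  obtain ⟨y, hy⟩ := hact true
  by_cases h : H.Adj x y
  · exact hE (U.o x) (U.o y) (by simpa using h.ne) h ((himp _ _ hx).trans (himp _ _ hy).symm)
  · exact hE (U.s false x) (U.s true y) (by simp) ⟨rfl, rfl, h⟩ (hx.trans hy.symm)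

def sel (x0 y0 : Fin N) (b : Bool) : Fin N := if b then y0 else x0

def psi (x0 y0 : Fin N) (φ : Fin N → ℕ) : U N p → ℕ
  | U.o x => φ x
  | U.s b x => if x = sel x0 y0 b then 0 else cin b
  | U.w b x => if x.1 < (sel x0 y0 b).1 then 0 else if x = sel x0 y0 b then cin b else cout b
  | U.v b x => if x.1 < (sel x0 y0 b).1 then cout b else 0
  | U.a b x c => if x = sel x0 y0 b then dd c.1 else 0
  | U.u b x c => if x = sel x0 y0 b ∨ (φ x = dd c.1 ∧ c.1 ≠ 0) then c.1 else dd c.1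
  | U.pal c => c.1

theorem del_col (H : SimpleGraph (Fin N)) (x0 y0 : Fin N) (h : H.Adj x0 y0)
    (φ : Fin N → Fin (p + 3)) (h1 : φ x0 = 0) (h2 : φ y0 = 0)
    (h3 : ∀ x y, H.Adj x y → s(x, y) ≠ s(x0, y0) → φ x ≠ φ y) :
    ((FF H p).deleteEdges {s(U.o x0, U.o y0)}).Colorable (p + 3) := by
  let ψ : U N p → ℕ := psi x0 y0 fun x => (φ x).1
  have d1 : ∀ c, dd c ≠ 0 ∧ dd c ≠ c ∧ dd c < 3 := fun c => by unfold dd; split_ifs <;> omega
  have d2 : ∀ b, cin b ≠ 0 ∧ cout b ≠ 0 ∧ cin b ≠ cout b ∧ cin b < 3 ∧ cout b < 3 := by decide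
  have hsel : ∀ b, (φ (sel x0 y0 b)).1 = 0 := fun b => by cases b <;> simp [sel, h1, h2]
  have hlt : ∀ x, ψ x < p + 3 := by
    intro x
    rcases x with x | ⟨b, x⟩ | ⟨b, x⟩ | ⟨b, x⟩ | ⟨b, x, c⟩ | ⟨b, x, c⟩ | c <;> simp only [ψ, psi]
    · exact (φ x).2
    · have := d2 b; split_ifs <;> omega
    · have := d2 b; split_ifs <;> omega
    · have := d2 b; split_ifs <;> omega
    · have := d1 c; split_ifs <;> omega
    · have := d1 c; split_ifs <;> omega
    · exact c.2
  have hA : ∀ x, allow x (ψ x) := by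
    intro x
    rcases x with x | ⟨b, x⟩ | ⟨b, x⟩ | ⟨b, x⟩ | ⟨b, x, c⟩ | ⟨b, x, c⟩ | c <;>
      simp only [ψ, psi, allow]
    · split_ifs <;> simp
    · split_ifs with a1 a2
      · simp
      · simp
      · rw [Fin.ext_iff] at a2
        omega
    · have := (sel x0 y0 b).2
      split_ifs <;> omega
    · split_ifs <;> simp
    · split_ifs <;> simp
  have hE : ∀ x y, R0 H x y → s(x, y) ≠ s(U.o x0, U.o y0) → ψ x ≠ ψ y := by
    intro x y hr hs
    rcases x with x | ⟨b, x⟩ | ⟨b, x⟩ | ⟨b, x⟩ | ⟨b, x, c⟩ | ⟨b, x, c⟩ | c <;>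
      rcases y with y | ⟨b', y⟩ | ⟨b', y⟩ | ⟨b', y⟩ | ⟨b', y, c'⟩ | ⟨b', y, c'⟩ | c' <;>
      simp only [R0] at hr <;> simp only [ψ, psi]
    · exact fun e => h3 x y hr (fun he => hs (by simpa using he)) (Fin.ext e)
    · obtain ⟨rfl, rfl, hr⟩ := hr
      split_ifs with a1 a2 a2
      · exact absurd (a1 ▸ a2 ▸ h) hr
      · decide
      · decide
      · decide
    · obtain ⟨rfl, rfl⟩ := hr
      have := d2 b
      simp only [Fin.ext_iff]
      split_ifs <;> omega
    · obtain ⟨rfl, rfl⟩ := hr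
      have := d2 b
      have := d1 c'
      split_ifs <;> omega
    · obtain ⟨rfl, rfl⟩ := hr
      have := d2 b
      simp only [Fin.ext_iff]
      split_ifs <;> omega
    · obtain ⟨rfl, hr⟩ := hr
      have := d2 b
      simp only [Fin.ext_iff]
      split_ifs <;> omega
    · obtain ⟨rfl, rfl, rfl⟩ := hr
      have := d1 c
      split_ifs with a1 a2 a2
      · omega
      · omega
      · have := a2.resolve_left a1
        omega
      · omega
    · obtain ⟨rfl, hr⟩ := hr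
      have := d1 c
      split_ifs with a1
      · rcases a1 with a1 | a1
        · rw [a1, hsel]; exact hr
        · omega
      · exact fun e => a1 (Or.inr ⟨e.symm, hr⟩)
  refine ⟨Coloring.mk (fun x => ⟨ψ x, hlt x⟩) fun {x y} hxy e => ?_⟩
  have e : ψ x = ψ y := congrArg Fin.val e
  simp only [deleteEdges_adj, Set.mem_singleton_iff] at hxy
  have key : ∀ x y, RR H x y → s(x, y) ≠ s(U.o x0, U.o y0) → ψ x ≠ ψ y := by
    rintro x y (hr | ⟨c, rfl, hc⟩) hs
    · exact hE x y hr hs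
    · exact fun e => hc ((show ψ x = c.1 from e) ▸ hA x)
  rcases ((fromRel_adj _ _ _).mp hxy.1).2 with hr | hr
  · exact key _ _ hr hxy.2 e
  · exact key _ _ hr (by rw [Sym2.eq_swap]; exact hxy.2) e.symm

theorem main (p n : ℕ) (hn : 0 < n) (H : SimpleGraph (Fin n)) (m : ℕ) (K : SimpleGraph (Fin m))
    (h1 : K.chromaticNumber = ((p + 3 + 1 : ℕ) : ℕ∞))
    (h2 : ∀ v w : Fin m, K.Adj v w →
      (K.deleteEdges {s(v, w)}).chromaticNumber < ((p + 3 + 1 : ℕ) : ℕ∞))
    (h3 : ∀ v : Fin m, (K.induce ({v}ᶜ : Set (Fin m))).chromaticNumber < ((p + 3 + 1 : ℕ) : ℕ∞))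
    (f : H →g K) (hf : Function.Injective f) :
    ∃ m : ℕ, ∃ G : SimpleGraph (Fin m),
      G.chromaticNumber = ((p + 3 + 1 : ℕ) : ℕ∞) ∧
      (∀ v w : Fin m, G.Adj v w →
        (G.deleteEdges {s(v, w)}).chromaticNumber < ((p + 3 + 1 : ℕ) : ℕ∞)) ∧
      (∀ v : Fin m, (G.induce ({v}ᶜ : Set (Fin m))).chromaticNumber < ((p + 3 + 1 : ℕ) : ℕ∞)) ∧
      (∃ f : H →g G, Function.Injective f) ∧ m ≤ (14 + 9 * (p + 3)) * n := by
  classical
  have hK : ¬ K.Colorable (p + 3) := fun h => by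
    have := (chi_lt _ _).mpr h
    rw [h1] at this
    exact lt_irrefl _ this
  have hnb : ∀ v, ∃ w, K.Adj v w := by
    intro v
    by_contra h
    push Not at h
    obtain ⟨c⟩ := (chi_lt _ _).mp (h3 v)
    refine hK ⟨Coloring.mk (fun a => if h : a = v then 0 else c ⟨a, h⟩) fun {a b} hab => ?_⟩
    have ha : a ≠ v := fun e => h b (e ▸ hab)
    have hb : b ≠ v := fun e => h a (e ▸ hab.symm)
    simpa [ha, hb] using c.valid (v := ⟨a, ha⟩) (w := ⟨b, hb⟩) hab
  choose nb hnb using hnb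
  let S : Finset (Fin m) := Finset.univ.image f ∪ Finset.univ.image fun i => nb (f i)
  have hS : S.card ≤ 2 * n := by
    refine (Finset.card_union_le _ _).trans ?_
    have a1 := Finset.card_image_le (s := Finset.univ) (f := f)
    have a2 := Finset.card_image_le (s := Finset.univ) (f := fun i => nb (f i))
    simp only [Finset.card_univ, Fintype.card_fin] at a1 a2
    omega
  let e : Fin S.card → Fin m := fun i => (S.equivFin.symm i).1
  have einj : Function.Injective e := Subtype.val_injective.comp S.equivFin.symm.injective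
  have esur : ∀ v ∈ S, ∃ i, e i = v := fun v hv => ⟨S.equivFin ⟨v, hv⟩, by simp [e]⟩
  have hi : ∀ i, ∃ x, e x = f i := fun i => esur _ (by simp [S])
  choose ι hι using hi
  have hN : 0 < S.card := Fin.pos (ι ⟨0, hn⟩)
  obtain ⟨m', G, g1, g2, g3, g4, g, ginj, hg⟩ :=
    extract (FF (K.comap e) p) (p + 3) (by omega) (not_col _ hN)
  have key : ∀ x y, K.Adj (e x) (e y) → ∃ a b, g a = U.o x ∧ g b = U.o y ∧ G.Adj a b := by
    intro x y h
    have hne : x ≠ y := fun e' => h.ne (by rw [e'])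
    refine hg _ _ ((fromRel_adj _ _ _).mpr ⟨by simpa using hne, Or.inl (Or.inl h)⟩) ?_
    obtain ⟨c⟩ := (chi_lt _ _).mp (h2 _ _ h)
    have hc : c (e x) = c (e y) := by
      by_contra hc
      refine hK ⟨Coloring.mk c fun {a b} hab => ?_⟩
      by_cases hs : s(a, b) = s(e x, e y)
      · rcases Sym2.eq_iff.mp hs with ⟨rfl, rfl⟩ | ⟨rfl, rfl⟩
        · exact hc
        · exact Ne.symm hc
      · exact c.valid (by simpa using ⟨hab, by simpa using hs⟩)
    refine del_col _ x y h (fun z => Equiv.swap (c (e x)) 0 (c (e z))) (by simp) (by simp [hc]) ?_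
    intro a b hab hs he
    refine c.valid (v := e a) (w := e b) ?_ ((Equiv.swap _ _).injective he)
    simp only [deleteEdges_adj, Set.mem_singleton_iff]
    refine ⟨hab, fun he => hs ?_⟩
    rcases Sym2.eq_iff.mp he with ⟨h1, h2⟩ | ⟨h1, h2⟩
    · rw [einj h1, einj h2]
    · rw [einj h1, einj h2, Sym2.eq_swap]
  have hv : ∀ i, ∃ a, g a = U.o (ι i) := by
    intro i
    obtain ⟨y, hy⟩ := esur (nb (f i)) (by simp [S])
    obtain ⟨a, -, ha, -⟩ := key (ι i) y (by rw [hι, hy]; exact hnb _)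
    exact ⟨a, ha⟩
  choose α hα using hv
  refine ⟨m', G, g1, g2, g3, ⟨⟨α, fun {i j} hij => ?_⟩, fun i j h => ?_⟩, ?_⟩
  · obtain ⟨a, b, ha, hb, h⟩ := key (ι i) (ι j) (by rw [hι, hι]; exact f.map_adj hij)
    rwa [ginj (ha.trans (hα i).symm), ginj (hb.trans (hα j).symm)] at h
  · have h : α i = α j := h
    have := (hα i).symm.trans (h ▸ hα j)
    exact hf (by rw [← hι, ← hι, U.o.inj this])
  · have := card_U (N := S.card) (p := p)
    have a1 : S.card * (4 * (p + 3)) ≤ 2 * n * (4 * (p + 3)) := Nat.mul_le_mul_right _ hS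
    have a2 : p + 3 ≤ (p + 3) * n := Nat.le_mul_of_pos_right _ hn
    nlinarith

end Pool.Agent.H19.Stiebitz
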