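import Mathlib
import Pool.Agent.H19.Csp
import Pool.Agent.H19.Stiebitz

set_option autoImplicit false

namespace Pool.Agent.H19.DenseCrit
open SimpleGraph

abbrev X (m : ℕ) := Fin 4 × Fin (m + 1) × Fin (m + 1)
abbrev W (m : ℕ) := Fin 2 × Fin 8 × Fin 8 × Fin (m + 1)
abbrev Vr (m : ℕ) := X m ⊕ W m ⊕ Fin 2
abbrev Ph (m : ℕ) := (W m × Fin 8) ⊕ (Fin 2 × Fin 8 × Fin 8 × Fin m)

variable (m : ℕ)

def RH : Vr m → Vr m → Prop
  | .inl x, .inl y => x.1 ≠ y.1
  | .inl x, .inr (.inl (r, i, d, u)) => i.val = x.1.val ∧ d.val ≠ 4 ∧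
      (d.val = 2 * r.val → u.val = x.2.1.val) ∧ (d.val = 2 * r.val + 1 → u.val = x.2.2.val)
  | .inr (.inr _), .inr (.inr _) => True
  | _, _ => False

def H : SimpleGraph (Vr m) := SimpleGraph.fromRel (RH m)

def allowed (r i d u c : ℕ) : Prop :=
  i < 4 ∧ (c = d ∨ (d / 2 = r ∧ ((c = 6 ∧ u ≠ m) ∨ (c = 7 ∧ u ≠ 0))))

def act : Ph m → Prop
  | .inl ((r, i, d, u), c) => ¬ allowed m r i d u c
  | .inr _ => True

def v1 : Ph m → Vr m
  | .inl ((r, _), _) => .inr (.inr r)
  | .inr (r, i, d, u) => .inr (.inl (r, i, d, u.castSucc))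

def v2 : Ph m → Vr m
  | .inl (w, _) => .inr (.inl w)
  | .inr (r, i, d, u) => .inr (.inl (r, i, d, u.succ))

def c1 : Ph m → Fin 8
  | .inl ((_, i, _), _) => i
  | .inr _ => 6

def c2 : Ph m → Fin 8
  | .inl (_, c) => c
  | .inr _ => 7

theorem adjH (x y : Vr m) (h : RH m x y) (hne : x ≠ y) : (H m).Adj x y := by
  unfold H
  rw [fromRel_adj]
  exact ⟨hne, Or.inl h⟩

theorem unsat (a : Vr m → Fin 8) (h1 : ∀ x y, (H m).Adj x y → a x ≠ a y)
    (h2 : ∀ p, act m p → a (v1 m p) = c1 m p → a (v2 m p) ≠ c2 m p) : False := by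
  have forced : ∀ r : Fin 2, ∃ x : X m, x.1.val = (a (.inr (.inr r))).val ∧ a (.inl x) = 4 := by
    intro r
    set i := a (.inr (.inr r)) with hi
    have hal : ∀ (d : Fin 8) (u : Fin (m + 1)), allowed m r i d u (a (.inr (.inl (r, i, d, u)))) := by
      intro d u
      by_contra h
      exact h2 (.inl ((r, i, d, u), a (.inr (.inl (r, i, d, u))))) h rfl rfl
    have hex : ∀ d : Fin 8, ∃ u, a (.inr (.inl (r, i, d, u))) = d := by
      intro d
      by_contra h
      push Not at h
      have h3 : ∀ u : Fin (m + 1), ((a (.inr (.inl (r, i, d, u)))).val = 6 ∧ u.val ≠ m) ∨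
          ((a (.inr (.inl (r, i, d, u)))).val = 7 ∧ u.val ≠ 0) := by
        intro u
        rcases (hal d u).2 with h4 | h4
        · exact absurd (Fin.ext h4) (h u)
        · exact h4.2
      have h4 : ∀ u : Fin (m + 1), a (.inr (.inl (r, i, d, u))) = 6 := by
        intro u
        induction u using Fin.induction with
        | zero =>
          rcases h3 0 with h5 | h5
          · exact Fin.ext h5.1
          · exact absurd rfl h5.2
        | succ u ih =>
          rcases h3 u.succ with h5 | h5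
          · exact Fin.ext h5.1
          · exact absurd (Fin.ext h5.1) (h2 (.inr (r, i, d, u)) trivial ih)
      have h5 := h3 (Fin.last m)
      rw [h4] at h5
      simp at h5
    have hi4 : i.val < 4 := (hal 0 0).1
    obtain ⟨s, hs⟩ := hex ⟨2 * r.val, by omega⟩
    obtain ⟨t, ht⟩ := hex ⟨2 * r.val + 1, by omega⟩
    refine ⟨(⟨i.val, hi4⟩, s, t), rfl, ?_⟩
    by_contra hd
    set d := a (.inl (⟨i.val, hi4⟩, s, t)) with hd'
    have hd4 : d.val ≠ 4 := fun e => hd (Fin.ext e)
    have key : ∀ u : Fin (m + 1), (d.val = 2 * r.val → u.val = s.val) →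
        (d.val = 2 * r.val + 1 → u.val = t.val) → a (.inr (.inl (r, i, d, u))) ≠ d := by
      intro u e1 e2
      exact (h1 _ _ (adjH m (.inl (⟨i.val, hi4⟩, s, t)) (.inr (.inl (r, i, d, u)))
        ⟨rfl, hd4, e1, e2⟩ (by simp))).symm
    by_cases e1 : d.val = 2 * r.val
    · have : d = ⟨2 * r.val, by omega⟩ := Fin.ext e1
      rw [← this] at hs
      exact key s (fun _ => rfl) (fun _ => by omega) hs
    by_cases e2 : d.val = 2 * r.val + 1
    · have : d = ⟨2 * r.val + 1, by omega⟩ := Fin.ext e2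
      rw [← this] at ht
      exact key t (fun _ => by omega) (fun _ => rfl) ht
    obtain ⟨u, hu⟩ := hex d
    exact key u (fun h => absurd h e1) (fun h => absurd h e2) hu
  obtain ⟨x, hx, hx'⟩ := forced 0
  obtain ⟨y, hy, hy'⟩ := forced 1
  have h3 := h1 _ _ (adjH m (.inr (.inr 0)) (.inr (.inr 1)) trivial (by simp))
  have h4 : x.1 ≠ y.1 := fun e => h3 (Fin.ext (by rw [← hx, ← hy, e]))
  exact h1 _ _ (adjH m (.inl x) (.inl y) h4 (fun e => h4 (by rw [Sum.inl_injective e])))
    (hx'.trans hy'.symm)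

def ch (s u d : ℕ) : ℕ := if u < s then 6 else if u = s then d else 7

def aW (i0 s0 t0 r i d u : ℕ) : ℕ :=
  if i = i0 then (if d = 2 * r then ch s0 u d else if d = 2 * r + 1 then ch t0 u d else d) else 7

def aX (s0 t0 r s t : ℕ) : ℕ := if s ≠ s0 then 2 * r else if t ≠ t0 then 2 * r + 1 else 4

def sol (x y : X m) : Vr m → ℕ
  | .inl z => if z.1.val = x.1.val then aX x.2.1 x.2.2 0 z.2.1 z.2.2
      else if z.1.val = y.1.val then aX y.2.1 y.2.2 1 z.2.1 z.2.2
      else if 2 * z.1.val + x.1.val + y.1.val < 6 then 5 else 6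
  | .inr (.inl (r, i, d, u)) => if r.val = 0 then aW x.1 x.2.1 x.2.2 0 i d u
      else aW y.1 y.2.1 y.2.2 1 i d u
  | .inr (.inr r) => if r.val = 0 then x.1.val else y.1.val

theorem sol_lt (x y : X m) (v : Vr m) : sol m x y v < 8 := by
  rcases v with z | ⟨r, i, d, u⟩ | r <;> simp only [sol, aX, aW, ch] <;> split_ifs <;> omega

theorem sat (x y : X m) (hxy : x.1 ≠ y.1) : ∃ a : Vr m → Fin 8,
    (∀ u v, (H m).Adj u v → a u = a v → s(u, v) = s(.inl x, .inl y)) ∧
    ∀ p, act m p → a (v1 m p) = c1 m p → a (v2 m p) ≠ c2 m p := by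
  have hxy' : x.1.val ≠ y.1.val := fun e => hxy (Fin.ext e)
  refine ⟨fun v => ⟨sol m x y v, sol_lt m x y v⟩, ?_, ?_⟩
  · have key : ∀ u v, RH m u v → u ≠ v → sol m x y u = sol m x y v →
        s(u, v) = s(.inl x, .inl y) := by
      intro u v h hne he
      rcases u with z | ⟨r, i, d, u⟩ | r <;> rcases v with z' | ⟨r', i', d', u'⟩ | r' <;>
        simp only [RH] at h
      · obtain ⟨x1, x2, x3⟩ := x
        obtain ⟨y1, y2, y3⟩ := y
        obtain ⟨z1, z2, z3⟩ := z
        obtain ⟨w1, w2, w3⟩ := z'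
        simp only [Sym2.eq_iff, Sum.inl.injEq, Prod.mk.injEq, Fin.ext_iff, ne_eq] at h hxy' ⊢
        simp only [sol, aX] at he
        split_ifs at he <;> omega
      · exfalso
        simp only [sol, aX, aW, ch] at he
        split_ifs at he <;> omega
      · exfalso
        simp only [sol] at he
        simp only [ne_eq, Sum.inr.injEq, Fin.ext_iff] at hne
        split_ifs at he <;> omega
    intro u v huv he
    have he' : sol m x y u = sol m x y v := congrArg Fin.val he
    unfold H at huv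
    rw [fromRel_adj] at huv
    rcases huv.2 with h | h
    · exact key u v h huv.1 he'
    · rw [Sym2.eq_swap]; exact key v u h huv.1.symm he'.symm
  · rintro (⟨⟨r, i, d, u⟩, c⟩ | ⟨r, i, d, u⟩) h e1 e2
    · apply h
      have e1' := congrArg Fin.val e1
      have e2' := congrArg Fin.val e2
      simp only [v1, v2, c1, c2, sol, aW, ch] at e1' e2'
      unfold allowed
      split_ifs at e1' e2' <;> omega
    · have e1' := congrArg Fin.val e1
      have e2' := congrArg Fin.val e2
      simp only [v1, v2, c1, c2, sol, aW, ch, Fin.val_castSucc, Fin.val_succ] at e1' e2'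
      have : ((6 : Fin 8) : ℕ) = 6 := rfl
      have : ((7 : Fin 8) : ℕ) = 7 := rfl
      split_ifs at e1' e2' <;> omega

theorem dense : ∃ (n : ℕ) (G : SimpleGraph (Fin n)), G.chromaticNumber = 9 ∧
      (∀ v w : Fin n, G.Adj v w → (G.deleteEdges {s(v, w)}).chromaticNumber < 9) ∧
      (∀ v : Fin n, (G.induce ({v}ᶜ : Set (Fin n))).chromaticNumber < 9) ∧
      m ≤ n ∧ n ≤ 4 * (m + 1) ^ 2 + 3600 * (m + 1) ∧ 6 * (m + 1) ^ 4 ≤ G.edgeSet.ncard := by
  classical
  obtain ⟨I, e1, e2, e3, e4, e5, e6⟩ := Csp.exists_inst 8 (by norm_num) (Vr m) (Ph m) (H m)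
    (act m) (v1 m) (v2 m) (c1 m) (c2 m)
  have hF : ¬ (Csp.F I).Colorable 8 := by
    intro h
    obtain ⟨a, h1, h2⟩ := Csp.sol_of_col I h
    rw [e1] at h1
    rw [e2, e3, e4, e5, e6] at h2
    exact unsat m a h1 h2
  obtain ⟨n, G, h1, h2, h3, h4, g, ginj, hg⟩ := Stiebitz.extract (Csp.F I) 8 (by norm_num) hF
  have hpair : ∀ x y : X m, x.1 ≠ y.1 → ∃ a b, g a = .inl (.inl x) ∧ g b = .inl (.inl y) ∧
      G.Adj a b := by
    intro x y hxy
    refine hg _ _ (Csp.adj_inl I _ _ ?_) ?_
    · rw [e1]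
      exact adjH m _ _ hxy (fun e => hxy (by rw [Sum.inl_injective e]))
    · obtain ⟨a, ha1, ha2⟩ := sat m x y hxy
      refine Csp.col_of_sol I _ _ a (by rw [e1]; exact ha1) ?_
      rw [e2, e3, e4, e5, e6]
      exact ha2
  have hv : ∀ x : X m, ∃ a, g a = .inl (.inl x) := by
    intro x
    obtain ⟨a, -, ha, -⟩ := hpair x (x.1 + 1, x.2) (by
      have : ∀ i : Fin 4, i ≠ i + 1 := by decide
      exact this _)
    exact ⟨a, ha⟩
  choose b hb using hv
  have binj : Function.Injective b := by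
    intro x y e
    have := (hb x).symm.trans (e ▸ hb y : g (b x) = _)
    simpa using this
  refine ⟨n, G, by simpa using h1, by simpa using h2, by simpa using h3, ?_, ?_, ?_⟩
  · have := Fintype.card_le_of_injective b binj
    simp only [Fintype.card_prod, Fintype.card_fin] at this
    nlinarith
  · simp only [Nat.card_eq_fintype_card, Fintype.card_sum, Fintype.card_prod,
      Fintype.card_fin] at h4
    nlinarith
  · have h5 := G.two_mul_card_edgeFinset
    have h6 : (Finset.univ.filter fun p : X m × X m => p.1.1 ≠ p.2.1).card ≤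
        (Finset.univ.filter fun p : Fin n × Fin n => G.Adj p.1 p.2).card := by
      refine Finset.card_le_card_of_injOn (fun p => (b p.1, b p.2)) ?_ ?_
      · intro p hp
        simp only [Finset.coe_filter, Finset.mem_univ, true_and, Set.mem_setOf_eq] at hp ⊢
        obtain ⟨a, a', ha, ha', hadj⟩ := hpair _ _ hp
        rwa [← ginj (ha.trans (hb _).symm), ← ginj (ha'.trans (hb _).symm)]
      · intro p _ p' _ e
        simp only [Prod.mk.injEq] at e
        exact Prod.ext (binj e.1) (binj e.2)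
    have h7 : (Finset.univ.filter fun p : X m × X m => p.1.1 ≠ p.2.1).card =
        12 * (m + 1) ^ 4 := by
      rw [Finset.card_filter]
      simp only [Fintype.sum_prod_type, Finset.sum_const, Finset.card_univ, Fintype.card_fin,
        Fin.sum_univ_four]
      simp
      ring
    have h8 : G.edgeSet.ncard = G.edgeFinset.card := by
      rw [← coe_edgeFinset, Set.ncard_coe_finset]
    have h9 : (Finset.univ.filter fun p : Fin n × Fin n => G.Adj p.1 p.2).card =
        2 * G.edgeFinset.card := h5.symm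
    omega

end Pool.Agent.H19.DenseCrit
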