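import Mathlib

set_option autoImplicit false

namespace Pool.Agent.H19.Dfs

/-- Backtracking search: `dom i` are the values of variable `i`, `ok i cur c` tests the value `c`
of variable `i` against the values `cur` of the variables `i-1, i-2, …, 0`. -/
def dfs {α : Type} (dom : ℕ → List α) (ok : ℕ → List α → α → Bool) :
    ℕ → ℕ → List α → Bool
  | 0, _, _ => true
  | r + 1, i, cur => (dom i).any fun c => ok i cur c && dfs dom ok r (i + 1) (c :: cur)

def hist {α : Type} (f : ℕ → α) : ℕ → List α
  | 0 => []
  | i + 1 => f i :: hist f i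

theorem hist_getD {α : Type} (f : ℕ → α) (x : α) :
    ∀ i j, j < i → (hist f i).getD (i - 1 - j) x = f j := by
  intro i
  induction i with
  | zero => intro j h; omega
  | succ i ih =>
    intro j h
    by_cases hj : j = i
    · subst hj; simp [hist]
    · have e : i + 1 - 1 - j = (i - 1 - j) + 1 := by omega
      rw [e, hist, List.getD_cons_succ]
      exact ih j (by omega)

theorem dfs_aux {α : Type} (dom : ℕ → List α) (ok : ℕ → List α → α → Bool) (f : ℕ → α) :
    ∀ r i, (∀ j < i + r, f j ∈ dom j) → (∀ j < i + r, ok j (hist f j) (f j) = true) →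
      dfs dom ok r i (hist f i) = true := by
  intro r
  induction r with
  | zero => intro i _ _; rfl
  | succ r ih =>
    intro i h1 h2
    simp only [dfs, List.any_eq_true, Bool.and_eq_true]
    refine ⟨f i, h1 i (by omega), h2 i (by omega), ?_⟩
    exact ih (i + 1) (fun j hj => h1 j (by omega)) (fun j hj => h2 j (by omega))

theorem dfs_true {α : Type} (dom : ℕ → List α) (ok : ℕ → List α → α → Bool) (f : ℕ → α) (n : ℕ)
    (h1 : ∀ j < n, f j ∈ dom j) (h2 : ∀ j < n, ok j (hist f j) (f j) = true) :
    dfs dom ok n 0 [] = true :=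
  dfs_aux dom ok f n 0 (by simpa using h1) (by simpa using h2)

/-- test for list colouring: `nb.getD i []` lists earlier neighbours of vertex `i`. -/
def okCol (nb : List (List ℕ)) (i : ℕ) (cur : List ℕ) (c : ℕ) : Bool :=
  (nb.getD i []).all fun j => cur.getD (i - 1 - j) 0 != c

/-- If the search fails there is no proper colouring from the lists `dom`. -/
theorem no_col (dom : ℕ → List ℕ) (nb : List (List ℕ)) (n : ℕ)
    (hlt : ∀ i < n, ∀ j ∈ nb.getD i [], j < i)
    (h : dfs dom (okCol nb) n 0 [] = false) (f : ℕ → ℕ) (h1 : ∀ j < n, f j ∈ dom j)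
    (h2 : ∀ i < n, ∀ j ∈ nb.getD i [], f j ≠ f i) : False := by
  have := dfs_true dom (okCol nb) f n h1 (by
    intro i hi
    simp only [okCol, List.all_eq_true, bne_iff_ne]
    intro j hj
    rw [hist_getD f 0 i j (hlt i hi j hj)]
    exact h2 i hi j hj)
  rw [h] at this
  cases this

end Pool.Agent.H19.Dfs
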