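import Mathlib

set_option autoImplicit false

namespace Pool.Agent.H19.Ref3

/-- Evaluate `n` before passing it on. -/
def force (n : ℕ) (f : ℕ → Bool) : Bool :=
  match n with
  | 0 => f 0
  | k + 1 => f (Nat.succ k)

theorem force_eq (n : ℕ) (f : ℕ → Bool) : force n f = f n := by
  cases n <;> rfl

/-- Search for a refutation of three-colourability; `F0 F1 F2` are the masks of vertices that
cannot get colour 0, 1, 2, and `un` the mask of vertices not yet branched on. -/
def ref (adj : ℕ → ℕ) : ℕ → ℕ → ℕ → ℕ → ℕ → Bool
  | 0, _, _, _, _ => false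
  | k + 1, un, F0, F1, F2 =>
    bif Nat.beq (Nat.land (Nat.land F0 F1) F2) 0 then
      force (Nat.land (Nat.lor (Nat.lor (Nat.land F0 F1) (Nat.land F0 F2)) (Nat.land F1 F2)) un)
      fun t => force (Nat.log2 (bif Nat.beq t 0 then Nat.land (Nat.lor (Nat.lor F0 F1) F2) un
        else t)) fun x => force (Nat.pow 2 x) fun b => force (Nat.xor un b) fun un' =>
      force (adj x) fun a =>
      (bif Nat.beq (Nat.land F0 b) 0 then force (Nat.lor F0 a) fun F => ref adj k un' F F1 F2
        else true) &&
      ((bif Nat.beq (Nat.land F1 b) 0 then force (Nat.lor F1 a) fun F => ref adj k un' F0 F F2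
        else true) &&
      (bif Nat.beq (Nat.land F2 b) 0 then force (Nat.lor F2 a) fun F => ref adj k un' F0 F1 F
        else true))
    else true

theorem ref_sound (adj : ℕ → ℕ) (c : ℕ → Fin 3)
    (hc : ∀ x y, (adj x).testBit y = true → c x ≠ c y) :
    ∀ k un F0 F1 F2, (∀ y, F0.testBit y = true → c y ≠ 0) →
      (∀ y, F1.testBit y = true → c y ≠ 1) → (∀ y, F2.testBit y = true → c y ≠ 2) →
      ref adj k un F0 F1 F2 = false := by
  intro k
  induction k with
  | zero => intro _ _ _ _ _ _ _; rfl
  | succ k ih =>
    intro un F0 F1 F2 h0 h1 h2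
    have step : ∀ (F : ℕ) (i : Fin 3) (x : ℕ), c x = i → (∀ y, F.testBit y = true → c y ≠ i) →
        Nat.beq (F &&& Nat.pow 2 x) 0 = true ∧ ∀ y, (F ||| adj x).testBit y = true → c y ≠ i := by
      intro F i x hx h
      have e : F.testBit x = false := by simpa using fun h' => h x h' hx
      refine ⟨by rw [Nat.beq_eq, Nat.pow_eq, Nat.and_two_pow, e]; simp, fun y hy => ?_⟩
      rw [Nat.testBit_or, Bool.or_eq_true] at hy
      rcases hy with hy | hy
      · exact h y hy
      · rw [← hx]
        exact (hc x y hy).symm
    unfold ref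
    simp only [force_eq, Nat.lor_eq, Nat.land_eq]
    by_cases hz : F0 &&& F1 &&& F2 = 0
    · rw [hz, show Nat.beq 0 0 = true from rfl, cond_true]
      generalize Nat.log2 _ = x
      generalize Nat.xor _ _ = un'
      have : c x = 0 ∨ c x = 1 ∨ c x = 2 := by
        generalize c x = a
        revert a
        decide
      rcases this with hx | hx | hx
      · obtain ⟨e1, e2⟩ := step F0 0 x hx h0
        rw [e1, ih _ _ _ _ e2 h1 h2]
        rfl
      · obtain ⟨e1, e2⟩ := step F1 1 x hx h1
        rw [e1, ih _ _ _ _ h0 e2 h2]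
        simp
      · obtain ⟨e1, e2⟩ := step F2 2 x hx h2
        rw [e1, ih _ _ _ _ h0 h1 e2]
        simp
    · exfalso
      obtain ⟨y, hy⟩ := Nat.exists_testBit_of_ne_zero hz
      simp only [Nat.testBit_and, Bool.and_eq_true] at hy
      have a0 := h0 y hy.1.1
      have a1 := h1 y hy.1.2
      have a2 := h2 y hy.2
      generalize c y = a at a0 a1 a2
      revert a
      decide

/-- No colouring gives `u` and `v` the same colour when the search started there succeeds. -/
theorem no_same (adj : ℕ → ℕ) (c : ℕ → Fin 3)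
    (hc : ∀ x y, (adj x).testBit y = true → c x ≠ c y) (u v k un : ℕ) (h : c u = c v)
    (hr : ref adj k un (adj u ||| adj v) 0 0 = true) : False := by
  let σ := Equiv.swap (c u) 0
  have := ref_sound adj (fun x => σ (c x)) (fun x y hxy e => hc x y hxy (σ.injective e)) k un
    (adj u ||| adj v) 0 0 (fun y hy e => by
      have e0 : σ (c u) = 0 := Equiv.swap_apply_left _ _
      have e1 : c y = c u := σ.injective (e.trans e0.symm)
      rw [Nat.testBit_or, Bool.or_eq_true] at hy
      rcases hy with hy | hy
      · exact hc u y hy e1.symm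
      · exact hc v y hy (h.symm.trans e1.symm)) (by simp) (by simp)
  rw [hr] at this
  exact absurd this (by simp)

end Pool.Agent.H19.Ref3
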