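import Mathlib
import Pool.Agent.H19.Ref3

set_option autoImplicit false

namespace Pool.Agent.H19.Dirac4

open SimpleGraph

/-- Neighbourhood masks of the Cayley graph of the semidirect product of Z15 by Z4 (acting by
doubling) with connection set (0,2), (6,2), (9,1), (3,3), (8,1), (11,3); the pair (a,b) is the
vertex a + 15 b. -/
def big : ℕ := 20692993082665617816088686859696887608039276614081989805487697451821651027653212852957671722753608680503446950280510249682383957749273056450870664513092345969061374728508075855039432438952380596976296764898820410072891493322303607895019863505936323256634122905107268406934092088113699855021466837380905099872044771489354318085868156004972645915722185014468964842954394889048956168706835216514861262463481331780370308439967004101368349467837983764068752796006957194139069239472233513151630509528655405865808824965401835857372841226573479493104297164937385013050459709180585313213803874336265700951632481929525394872968195135717402113754438599208370765416917496678960385807542241930216897000284231459803241421504414685501736603155685568369273522663009134641019961558879323782940730672515863057094056135318927073970168848179811494443487493083138788398903644508688826412485269572908655803711071176831981672223823375817879374286090213417703814873359469759600798770144051482452452881507271621199173347051203213326013465771187286334006158952834814453524946894243658796858808960496435200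

def cols : ℕ := 166066475609388922552439419521583944229382424234538723864448047638780741907998483599253308681080022899796308160637841168911580961103692348364738678961893392286110141188434091331196143317054877094303061125086140281301220012990561415776757154467550791970730414272077346990695277124707079491243679821668148931779711064042604170592019367488974468046222396587453197388603233518949175302470248386704955447781234624407273616522213818720279725293769821780836572906122476124043838340641076771635876548107741108192413891389367283490885206631052371029555204174921020504488038839587921944062483455558003226332202269018749812041701387180095880806933385585128219398397517575460813472356811936660053004198315039375042946773077959716847732376241867068860553495344597038298222926624892861207099950056854951287417533636464261834709041404428160834896469979602633057154581391423846871183725452954695539964219908844331455515462862637094048940926401528736077116146561855342753849480316212371735608263724083756867153191405822418087983316365434083772042650384630150915180723529941807297137166340086494444772819036249224263235428112545424145188401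5259551330667922941482581103425134181757385229596091862484976976081045956441778594780228672545310968836138373208577628510694771880421620408289690882357636609719749693539174173191884629462022129282756679758668270374082654353290504378534305537888579136937107266126546548298306353790104894537619163542431102804107160937466241785678928089508015774435989315367634327833464881225901176428862097295638100161368991696552028401340300367028535442720687447957388129733153059241069430337309095447741109282061492080712996223784731262733131751199118519210396354320655691253623801027203927500667931186881297944969461557946427160314497021595887897742172556217812709349325755623605997229554465422427955170359343978014428933702816023733077683189030646467984037820331013821483841760699563188066231903655395422351646546798841285679546231188512939689395504878755567179141390760308213707035351953179441807085560529939269761040018739421652490551528783657912358062858718881298132557649415103908674424174083511877709990254789858608845097181820848040709404519206485565540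

def adj (x : ℕ) : ℕ :=
  bif Nat.blt x 60 then Nat.mod (Nat.shiftRight big (Nat.mul 60 x)) (Nat.pow 2 60) else 0

def allB (p : ℕ → Bool) : ℕ → Bool
  | 0 => true
  | k + 1 => p k && allB p k

theorem allB_spec (p : ℕ → Bool) : ∀ n, allB p n = true → ∀ k < n, p k = true := by
  intro n
  induction n with
  | zero => intro _ k hk; omega
  | succ n ih =>
    intro h k hk
    simp only [allB, Bool.and_eq_true] at h
    rcases Nat.lt_succ_iff_lt_or_eq.mp hk with h1 | rfl
    · exact ih h.2 k h1
    · exact h.1

def adjE (u v x : ℕ) : ℕ :=
  bif Nat.beq x u then Nat.xor (adj x) (Nat.pow 2 v)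
  else bif Nat.beq x v then Nat.xor (adj x) (Nat.pow 2 u) else adj x

theorem adjE_eq (u v x : ℕ) : adjE u v x =
    if x = u then adj x ^^^ 2 ^ v else if x = v then adj x ^^^ 2 ^ u else adj x := by
  unfold adjE
  by_cases h1 : x = u
  · simp [h1]
  · have e1 : Nat.beq x u = false := by rw [← Bool.not_eq_true, Nat.beq_eq]; exact h1
    by_cases h2 : x = v
    · subst h2
      simp [h1, e1]
    · have e2 : Nat.beq x v = false := by rw [← Bool.not_eq_true, Nat.beq_eq]; exact h2
      simp [h1, h2, e1, e2]

def col (x y : ℕ) : ℕ := Nat.mod (Nat.shiftRight cols (Nat.add (Nat.mul 120 x) (Nat.mul 2 y))) 4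

theorem symm0 : allB (fun x => Ref3.force (adj x) fun a => allB (fun y =>
    bif a.testBit y then (adj y).testBit x else true) 60) 60 = true := by decide +kernel

theorem symm (x y : Fin 60) (h : (adj x).testBit y = true) : (adj y).testBit x = true := by
  have h1 := allB_spec _ _ symm0 x x.2
  rw [Ref3.force_eq] at h1
  simpa [h] using allB_spec _ _ h1 y y.2

theorem irr0 : allB (fun x => !(adj x).testBit x) 60 = true := by decide +kernel

theorem irr (x : Fin 60) : (adj x).testBit x = false := by
  simpa using allB_spec _ _ irr0 x x.2

def G : SimpleGraph (Fin 60) where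
  Adj x y := (adj x).testBit y = true
  symm := ⟨fun x y h => symm x y h⟩
  loopless := ⟨fun x h => by rw [irr] at h; exact absurd h (by simp)⟩

theorem cols0 : allB (fun x => allB (fun y => Ref3.force (adj y) fun a =>
    Ref3.force (col x y) fun c => Nat.blt c 3 && (Nat.beq y x || allB (fun z =>
      !a.testBit z || Nat.beq z x || !Nat.beq c (col x z)) 60)) 60) 60 = true := by
  decide +kernel

theorem cols_ok (x y : Fin 60) : col x y < 3 ∧ ∀ z : Fin 60, (adj y).testBit z = true →
    y = x ∨ z = x ∨ col x y ≠ col x z := by
  have h := allB_spec _ _ (allB_spec _ _ cols0 x x.2) y y.2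
  simp only [Ref3.force_eq, Bool.and_eq_true, Bool.or_eq_true, Nat.blt_eq, Nat.beq_eq] at h
  refine ⟨h.1, fun z hz => ?_⟩
  rcases h.2 with h2 | h2
  · exact Or.inl (Fin.ext h2)
  · have := allB_spec _ _ h2 z z.2
    simp only [hz, Bool.not_true, Bool.false_or, Bool.or_eq_true, Nat.beq_eq,
      Bool.not_eq_true'] at this
    rcases this with h3 | h3
    · exact Or.inr (Or.inl (Fin.ext h3))
    · exact Or.inr (Or.inr (Nat.ne_of_beq_eq_false h3))

theorem ref0 : Ref3.ref adj 60 (2 ^ 60 - 2) (adj 0 ||| adj 0) 0 0 = true := by decide +kernel

theorem refE0 : allB (fun v => allB (fun u => !(adj u).testBit v ||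
    Ref3.ref (adjE u v) 60 ((2 ^ 60 - 1) ^^^ 2 ^ u ^^^ 2 ^ v)
      (adjE u v u ||| adjE u v v) 0 0) v) 60 = true := by decide +kernel

theorem refE (u v : Fin 60) (h : (adj u).testBit v = true) (huv : u < v) :
    Ref3.ref (adjE u v) 60 ((2 ^ 60 - 1) ^^^ 2 ^ u.1 ^^^ 2 ^ v.1)
      (adjE u v u ||| adjE u v v) 0 0 = true := by
  simpa [h] using allB_spec _ _ (allB_spec _ _ refE0 v v.2) u huv

theorem lt_of (x y : ℕ) (h : (adj x).testBit y = true) : x < 60 ∧ y < 60 := by
  unfold adj at h
  by_cases hx : x < 60
  · rw [Nat.blt_eq.mpr hx, cond_true] at h
    change Nat.testBit (_ % 2 ^ 60) y = true at h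
    rw [Nat.testBit_mod_two_pow] at h
    simp only [Bool.and_eq_true, decide_eq_true_eq] at h
    exact ⟨hx, h.1⟩
  · have : Nat.blt x 60 = false := by
      rw [← Bool.not_eq_true, Nat.blt_eq]
      exact hx
    simp [this] at h

def ext (c : Fin 60 → Fin 3) (x : ℕ) : Fin 3 := if h : x < 60 then c ⟨x, h⟩ else 0

theorem not_col : ¬ G.Colorable 3 := by
  rintro ⟨c⟩
  refine Ref3.no_same adj (ext c) (fun x y h => ?_) 0 0 _ _ rfl ref0
  obtain ⟨hx, hy⟩ := lt_of x y h
  simp only [ext, hx, hy, dif_pos]
  exact c.valid h

theorem not_colE (u v : Fin 60) (h : G.Adj u v) (huv : u < v) :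
    ¬ (G.deleteEdges {s(u, v)}).Colorable 3 := by
  rintro ⟨c⟩
  have hc : ∀ x y, G.Adj x y → s(x, y) ≠ s(u, v) → c x ≠ c y := fun x y h1 h2 =>
    c.valid (by simpa [deleteEdges_adj] using ⟨h1, by simpa using h2⟩)
  by_cases he : c u = c v
  · refine Ref3.no_same (adjE u v) (ext c) (fun x y hxy => ?_) u v _ _ (by simpa [ext] using he)
      (refE u v h huv)
    have h' : (adj u).testBit v = true := h
    have h'' : (adj v).testBit u = true := h.symm
    have key : (adj x).testBit y = true ∧ ¬ (x = u ∧ y = v) ∧ ¬ (x = v ∧ y = u) := by
      rw [adjE_eq] at hxy
      have hne : u.1 ≠ v.1 := (Fin.lt_def.mp huv).ne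
      split_ifs at hxy with h1 h2
      · subst h1
        rw [Nat.testBit_xor, Nat.testBit_two_pow] at hxy
        by_cases h3 : v.1 = y
        · subst h3
          simp [h'] at hxy
        · simp only [h3, decide_false, Bool.xor_false] at hxy
          exact ⟨hxy, fun h4 => h3 h4.2.symm, fun h4 => hne h4.1⟩
      · subst h2
        rw [Nat.testBit_xor, Nat.testBit_two_pow] at hxy
        by_cases h3 : u.1 = y
        · subst h3
          simp [h''] at hxy
        · simp only [h3, decide_false, Bool.xor_false] at hxy
          exact ⟨hxy, fun h4 => h1 h4.1, fun h4 => h3 h4.2.symm⟩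
      · exact ⟨hxy, fun h4 => h1 h4.1, fun h4 => h2 h4.1⟩
    obtain ⟨hx, hy⟩ := lt_of x y key.1
    simp only [ext, hx, hy, dif_pos]
    refine hc _ _ key.1 fun e => ?_
    rcases Sym2.eq_iff.mp e with ⟨e1, e2⟩ | ⟨e1, e2⟩
    · exact key.2.1 ⟨congrArg Fin.val e1, congrArg Fin.val e2⟩
    · exact key.2.2 ⟨congrArg Fin.val e1, congrArg Fin.val e2⟩
  · refine not_col ⟨Coloring.mk c fun {x y} hxy => ?_⟩
    by_cases e : s(x, y) = s(u, v)
    · rcases Sym2.eq_iff.mp e with ⟨rfl, rfl⟩ | ⟨rfl, rfl⟩
      · exact he
      · exact fun e' => he e'.symm
    · exact hc x y hxy e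

theorem colV (x : Fin 60) : ∃ c : Fin 60 → Fin 3,
    ∀ y z, G.Adj y z → y ≠ x → z ≠ x → c y ≠ c z :=
  ⟨fun y => ⟨col x y, (cols_ok x y).1⟩, fun y z h hy hz e => by
    rcases (cols_ok x y).2 z h with h1 | h1 | h1
    · exact hy h1
    · exact hz h1
    · exact h1 (congrArg Fin.val e)⟩

theorem chi_eq {V : Type} (H : SimpleGraph V) (q : ℕ) (h1 : H.Colorable (q + 1))
    (h2 : ¬ H.Colorable q) : H.chromaticNumber = ((q + 1 : ℕ) : ℕ∞) := by
  refine le_antisymm h1.chromaticNumber_le ?_
  by_contra h
  rw [not_le, Nat.cast_add, Nat.cast_one, ENat.lt_add_one_iff (ENat.coe_ne_top q),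
    chromaticNumber_le_iff_colorable] at h
  exact h2 h

theorem add_one (x : Fin 60) (q : ℕ) (h : (G.induce {x}ᶜ).Colorable q) : G.Colorable (q + 1) := by
  obtain ⟨c⟩ := h
  refine ⟨Coloring.mk (fun a => if h : a = x then Fin.last q else (c ⟨a, h⟩).castSucc) ?_⟩
  intro a b hab
  by_cases ha : a = x
  · have hb : b ≠ x := fun h => hab.ne (ha.trans h.symm)
    simpa [ha, hb] using (Fin.castSucc_ne_last _).symm
  · by_cases hb : b = x
    · simp [ha, hb]
    · simpa [ha, hb] using c.valid (v := ⟨a, ha⟩) (w := ⟨b, hb⟩) hab

theorem main : G.chromaticNumber = 4 ∧ (∀ x, (G.induce {x}ᶜ).chromaticNumber = 3) ∧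
    ∀ e ∈ G.edgeSet, (G.deleteEdges {e}).chromaticNumber = 4 := by
  have h3 : ∀ x, (G.induce {x}ᶜ).Colorable 3 := fun x => by
    obtain ⟨c, hc⟩ := colV x
    exact ⟨Coloring.mk (fun a => c a.1) fun {a b} hab => hc _ _ hab a.2 b.2⟩
  have h4 := add_one 0 3 (h3 0)
  refine ⟨chi_eq G 3 h4 not_col, fun x => chi_eq _ 2 (h3 x) fun h => not_col (add_one x 2 h), ?_⟩
  intro e he
  induction e using Sym2.ind with
  | _ u v =>
    refine chi_eq _ 3 (h4.mono_left (deleteEdges_le _)) ?_
    have h : G.Adj u v := he
    rcases lt_or_gt_of_ne h.ne with h1 | h1
    · exact not_colE u v h h1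
    · rw [Sym2.eq_swap]
      exact not_colE v u h.symm h1

end Pool.Agent.H19.Dirac4
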