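import Mathlib

set_option autoImplicit false

namespace Pool.Agent.H19.Diss

/-- Distinct subsets of `B` have distinct sums. -/
def Dissoc {G : Type} [AddCommGroup G] (B : Finset G) : Prop :=
  ∀ S ∈ B.powerset, ∀ T ∈ B.powerset, ∑ x ∈ S, x = ∑ x ∈ T, x → S = T

/-- The largest size of a dissociated subset of `A`. -/
noncomputable def dim {G : Type} [AddCommGroup G] (A : Finset G) : ℕ :=
  sSup {k | ∃ B ⊆ A, Dissoc B ∧ B.card = k}

/-- The least dimension of an `m`-element subset of `G`. -/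
noncomputable def dimG (G : Type) [AddCommGroup G] (m : ℕ) : ℕ :=
  sInf {d | ∃ A : Finset G, A.card = m ∧ dim A = d}

def L : List (Finset (ZMod 17)) := [{1, 2, 4, 8}, {16, 15, 13, 9}, {3, 6, 12, 7}, {14, 11, 5, 10}]

lemma quad (a b c d : ZMod 17) (hab : a ≠ b) (hac : a ≠ c) (had : a ≠ d) (hbc : b ≠ c)
    (hbd : b ≠ d) (hcd : c ≠ d)
    (h : ∀ p1 p2 p3 p4 q1 q2 q3 q4 : Bool,
      cond p1 a 0 + (cond p2 b 0 + (cond p3 c 0 + cond p4 d 0)) =
        cond q1 a 0 + (cond q2 b 0 + (cond q3 c 0 + cond q4 d 0)) →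
      p1 = q1 ∧ p2 = q2 ∧ p3 = q3 ∧ p4 = q4) :
    Dissoc ({a, b, c, d} : Finset (ZMod 17)) := by
  have key : ∀ S ⊆ ({a, b, c, d} : Finset (ZMod 17)), ∑ x ∈ S, x =
      cond (decide (a ∈ S)) a 0 + (cond (decide (b ∈ S)) b 0 +
        (cond (decide (c ∈ S)) c 0 + cond (decide (d ∈ S)) d 0)) := by
    intro S hS
    rw [← Finset.inter_eq_right.2 hS, ← Finset.sum_ite_mem, Finset.inter_eq_right.2 hS,
      Finset.sum_insert (by simp [hab, hac, had]), Finset.sum_insert (by simp [hbc, hbd]),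
      Finset.sum_insert (by simp [hcd]), Finset.sum_singleton]
    simp only [Bool.cond_decide]
  intro S hS T hT e
  rw [Finset.mem_powerset] at hS hT
  rw [key S hS, key T hT] at e
  obtain ⟨h1, h2, h3, h4⟩ := h _ _ _ _ _ _ _ _ e
  rw [decide_eq_decide] at h1 h2 h3 h4
  ext x
  by_cases hx : x ∈ ({a, b, c, d} : Finset (ZMod 17))
  · simp only [Finset.mem_insert, Finset.mem_singleton] at hx
    rcases hx with rfl | rfl | rfl | rfl <;> assumption
  · exact ⟨fun h => absurd (hS h) hx, fun h => absurd (hT h) hx⟩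

lemma hL : ∀ B ∈ L, Dissoc B ∧ B.card = 4 := by
  intro B hB
  simp only [L, List.mem_cons, List.not_mem_nil, or_false] at hB
  rcases hB with rfl | rfl | rfl | rfl <;>
    exact ⟨quad _ _ _ _ (by decide) (by decide) (by decide) (by decide) (by decide) (by decide)
      (by decide +kernel), by decide +kernel⟩

lemma hM : ∀ x y z : ZMod 17, ∃ B ∈ L, x ∉ B ∧ y ∉ B ∧ z ∉ B := by
  decide +kernel

lemma small {B : Finset (ZMod 17)} (h : Dissoc B) : B.card ≤ 4 := by
  have h1 : B.powerset.card ≤ (Finset.univ : Finset (ZMod 17)).card :=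
    Finset.card_le_card_of_injOn (fun S => ∑ x ∈ S, x) (fun _ _ => by simp)
      (fun S hS T hT e => h S (by simpa using hS) T (by simpa using hT) e)
  rw [Finset.card_powerset, Finset.card_univ, ZMod.card] at h1
  by_contra h2
  have : 2 ^ 5 ≤ 2 ^ B.card := Nat.pow_le_pow_right (by norm_num) (by omega)
  omega

lemma four (A : Finset (ZMod 17)) (hA : A.card = 14) : dim A = 4 := by
  have hc : Aᶜ.card = 3 := by rw [Finset.card_compl, ZMod.card, hA]
  obtain ⟨x, y, z, -, -, -, e⟩ := Finset.card_eq_three.1 hc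
  obtain ⟨B, hB, hx, hy, hz⟩ := hM x y z
  have hBA : B ⊆ A := by
    intro b hb
    by_contra h
    have : b ∈ Aᶜ := Finset.mem_compl.2 h
    rw [e] at this
    simp only [Finset.mem_insert, Finset.mem_singleton] at this
    rcases this with rfl | rfl | rfl <;> contradiction
  apply IsGreatest.csSup_eq
  refine ⟨⟨B, hBA, hL B hB⟩, ?_⟩
  rintro k ⟨C, -, hC, rfl⟩
  exact small hC

theorem val : dimG (ZMod 17) 14 = 4 := by
  apply IsLeast.csInf_eq
  obtain ⟨A, -, hA⟩ := Finset.exists_subset_card_eq (s := (Finset.univ : Finset (ZMod 17)))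
    (n := 14) (by rw [Finset.card_univ, ZMod.card]; norm_num)
  refine ⟨⟨A, hA, four A hA⟩, ?_⟩
  rintro d ⟨C, hC, rfl⟩
  exact (four C hC).ge

theorem main : ¬ ∀ n m : ℕ, 1 ≤ m → m ≤ n → dimG (ZMod n) m = Nat.log 2 m := by
  intro h
  have h1 := h 17 14 (by norm_num) (by norm_num)
  rw [val] at h1
  have : Nat.log 2 14 = 3 := by norm_num
  omega

end Pool.Agent.H19.Diss
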