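import Mathlib

set_option autoImplicit false

namespace Pool.Agent.H19.Elem

open Nat

/-- Elementary sequences. -/
def IsElem (l : List ℕ) : Prop :=
  l.Pairwise (· ≤ ·) ∧ (∃ t, l = 1 :: 1 :: t) ∧ (∀ x ∈ l, 0 < x) ∧
    ∀ i : Fin l.length, 1 < l.get i → ∃ j k : Fin l.length, j ≠ k ∧ l.get i = l.get j + l.get k

def Good (S : Finset ℕ) : Prop :=
  1 ∈ S ∧ 0 ∉ S ∧ ∀ x ∈ S, 1 < x → x = 2 ∨ ∃ a ∈ S, ∃ b ∈ S, a ≠ b ∧ x = a + b

lemma Good.pos {S : Finset ℕ} (h : Good S) {x : ℕ} (hx : x ∈ S) : 0 < x :=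
  Nat.pos_of_ne_zero fun e => h.2.1 (e ▸ hx)

lemma toList {S : Finset ℕ} (h : Good S) :
    ∃ l, IsElem l ∧ l.length = S.card + 1 ∧ ∀ x ∈ S, x ∈ l := by
  have mem : ∀ x, x ∈ (1 :: 1 :: (S.erase 1).sort (· ≤ ·)) ↔ x ∈ S := by
    intro x
    simp only [List.mem_cons, Finset.mem_sort, Finset.mem_erase]
    constructor
    · rintro (rfl | rfl | h')
      exacts [h.1, h.1, h'.2]
    · intro hx
      by_cases e : x = 1
      · exact Or.inl e
      · exact Or.inr (Or.inr ⟨e, hx⟩)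
  refine ⟨1 :: 1 :: (S.erase 1).sort (· ≤ ·), ⟨?_, ⟨_, rfl⟩, fun x hx => h.pos ((mem x).1 hx), ?_⟩,
    ?_, fun x hx => (mem x).2 hx⟩
  · refine List.Pairwise.cons (fun x hx => h.pos ((mem x).1 (List.mem_cons_of_mem _ hx))) ?_
    refine List.Pairwise.cons (fun x hx => h.pos ((mem x).1
      (List.mem_cons_of_mem _ (List.mem_cons_of_mem _ hx)))) ?_
    exact Finset.pairwise_sort _ _
  · intro i hi
    rcases h.2.2 _ ((mem _).1 (List.get_mem _ i)) hi with e | ⟨a, ha, b, hb, hab, e⟩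
    · exact ⟨⟨0, by simp⟩, ⟨1, by simp⟩, by simp, e⟩
    · obtain ⟨j, hj⟩ := List.get_of_mem ((mem a).2 ha)
      obtain ⟨k, hk⟩ := List.get_of_mem ((mem b).2 hb)
      exact ⟨j, k, fun e' => hab (by rw [← hj, ← hk, e']), by rw [hj, hk, e]⟩
  · have := Finset.card_erase_add_one h.1
    simp only [List.length_cons, Finset.length_sort]
    omega

lemma Good.ins {S : Finset ℕ} (h : Good S) {a b : ℕ} (ha : a ∈ S) (hb : b ∈ S) (hab : a ≠ b) :
    Good (insert (a + b) S) := by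
  refine ⟨Finset.mem_insert_of_mem h.1, ?_, ?_⟩
  · have := h.pos ha
    rw [Finset.mem_insert, not_or]
    exact ⟨by omega, h.2.1⟩
  · intro x hx h1
    rcases Finset.mem_insert.1 hx with rfl | hx
    · exact Or.inr ⟨a, Finset.mem_insert_of_mem ha, b, Finset.mem_insert_of_mem hb, hab, rfl⟩
    · rcases h.2.2 x hx h1 with e | ⟨c, hc, d, hd, hcd, e⟩
      · exact Or.inl e
      · exact Or.inr ⟨c, Finset.mem_insert_of_mem hc, d, Finset.mem_insert_of_mem hd, hcd, e⟩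

lemma good_Icc (W : ℕ) (hW : 1 ≤ W) : Good (Finset.Icc 1 W) := by
  refine ⟨by simp [hW], by simp, fun x hx h1 => ?_⟩
  by_cases e : x = 2
  · exact Or.inl e
  · rw [Finset.mem_Icc] at hx
    exact Or.inr ⟨1, by simp [hW], x - 1, Finset.mem_Icc.2 (by omega), by omega, by omega⟩

lemma steps (t : ℕ) : ∀ (S : Finset ℕ) (a b : ℕ), Good S → a ∈ S → b ∈ S → a < b →
    ∃ S' a' b', Good S' ∧ S ⊆ S' ∧ S'.card ≤ S.card + t ∧ a' ∈ S' ∧ b' ∈ S' ∧ a' < b' ∧ b ≤ b' ∧
      ∀ u, a * fib (u + t) + b * fib (u + t + 1) = a' * fib u + b' * fib (u + 1) := by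
  induction t with
  | zero => exact fun S a b h ha hb hab => ⟨S, a, b, h, le_rfl, le_rfl, ha, hb, hab, le_rfl,
      fun _ => rfl⟩
  | succ t ih =>
    intro S a b h ha hb hab
    have hp := h.pos ha
    obtain ⟨S', a', b', g, hs, hc, ha', hb', hlt, hle, hu⟩ := ih (insert (a + b) S) b (a + b)
      (h.ins ha hb hab.ne) (Finset.mem_insert_of_mem hb) (Finset.mem_insert_self _ _) (by omega)
    have := Finset.card_insert_le (a + b) S
    refine ⟨S', a', b', g, (Finset.subset_insert _ _).trans hs, by omega, ha', hb', hlt, by omega,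
      fun u => ?_⟩
    rw [← hu u, ← add_assoc, fib_add_two]
    ring

lemma fib_le (u r : ℕ) : fib (u + r + 1) ≤ 2 ^ r * fib (u + 1) := by
  induction r with
  | zero => simp
  | succ r ih =>
    have h1 : fib (u + r) ≤ fib (u + r + 1) := fib_le_fib_succ
    rw [← add_assoc, fib_add_two, pow_succ]
    nlinarith

lemma blocks (r m : ℕ) : ∀ (S : Finset ℕ) (a b ρ : ℕ), Good S → Finset.Icc 1 (2 ^ r) ⊆ S →
    a ∈ S → b ∈ S → a < b → 2 ^ r ≤ b → ρ < fib (m * r + 1) →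
    ∃ S', Good S' ∧ S'.card ≤ S.card + m * (r + 1) ∧
      a * fib (m * r) + b * fib (m * r + 1) + ρ ∈ S' := by
  induction m with
  | zero =>
    intro S a b ρ h _ _ hb _ _ hρ
    have : ρ = 0 := by simpa using hρ
    exact ⟨S, h, by simp, by simpa [this] using hb⟩
  | succ m ih =>
    intro S a b ρ h hI ha hb hab hW hρ
    obtain ⟨S1, a', b', g, hs, hc, ha', hb', hlt, hle, hu⟩ := steps r S a b h ha hb hab
    have hF : 0 < fib (m * r + 1) := fib_pos.2 (by omega)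
    have e : (m + 1) * r = m * r + r := by ring
    rw [e] at hρ ⊢
    have hw : ρ / fib (m * r + 1) < 2 ^ r :=
      Nat.div_lt_of_lt_mul (by rw [mul_comm]; exact hρ.trans_le (fib_le _ _))
    have hd := Nat.div_add_mod ρ (fib (m * r + 1))
    have hm := Nat.mod_lt ρ hF
    generalize ρ / fib (m * r + 1) = w at hw hd
    have key : ∃ S2, Good S2 ∧ S1 ⊆ S2 ∧ S2.card ≤ S1.card + 1 ∧ b' + w ∈ S2 := by
      rcases Nat.eq_zero_or_pos w with e0 | e0
      · exact ⟨S1, g, le_rfl, by omega, by rw [e0]; exact hb'⟩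
      · exact ⟨_, g.ins hb' (hs (hI (Finset.mem_Icc.2 ⟨e0, hw.le⟩))) (by omega),
          Finset.subset_insert _ _, Finset.card_insert_le _ _, Finset.mem_insert_self _ _⟩
    obtain ⟨S2, g2, hs2, hc2, hb2⟩ := key
    obtain ⟨S3, g3, hc3, hk⟩ := ih S2 a' (b' + w) _ g2 (hI.trans (hs.trans hs2)) (hs2 ha') hb2
      (by omega) (by omega) hm
    refine ⟨S3, g3, by nlinarith, ?_⟩
    rw [hu (m * r)]
    have : a' * fib (m * r) + b' * fib (m * r + 1) + ρ =
        a' * fib (m * r) + (b' + w) * fib (m * r + 1) + ρ % fib (m * r + 1) := by nlinarith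
    rwa [this]

theorem main (n k r : ℕ) (hk : 1 ≤ k) (hn : k < fib (n + 1)) (hr : 1 ≤ r) :
    ∃ l, IsElem l ∧ k ∈ l ∧ l.length ≤ n + n / r + 2 * 4 ^ r + 1 := by
  classical
  have h4 : 4 ^ r = 2 ^ r * 2 ^ r := by rw [← mul_pow]; norm_num
  have h2 : 2 ≤ 2 ^ r := by simpa using Nat.pow_le_pow_right (n := 2) (by norm_num) hr
  suffices h : ∃ S, Good S ∧ S.card ≤ n + n / r + 2 * 4 ^ r ∧ k ∈ S by
    obtain ⟨S, g, hc, hk⟩ := h
    obtain ⟨l, h1, h2, h3⟩ := toList g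
    exact ⟨l, h1, h3 k hk, by omega⟩
  by_cases hs : k < 2 ^ r
  · refine ⟨_, good_Icc k hk, ?_, by simp [hk]⟩
    have : 2 ^ r ≤ 2 * 4 ^ r := by nlinarith
    simp only [Nat.card_Icc]
    generalize n / r = d
    omega
  have hex : ∃ m, k < fib (m * r) + 2 ^ r * fib (m * r + 1) := by
    refine ⟨k + 1, ?_⟩
    have h1 := le_fib_add_one ((k + 1) * r + 1)
    have h3 : k + 1 ≤ (k + 1) * r := Nat.le_mul_of_pos_right _ hr
    nlinarith [Nat.zero_le (fib ((k + 1) * r))]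
  have h0 : Nat.find hex ≠ 0 := by
    intro e
    have := Nat.find_spec hex
    rw [e] at this
    simp at this
    omega
  obtain ⟨m, hm⟩ := Nat.exists_eq_succ_of_ne_zero h0
  have hup := Nat.find_spec hex
  have hlo := not_lt.1 (Nat.find_min hex (show m < Nat.find hex by omega))
  rw [hm, Nat.succ_mul] at hup
  have hF : 0 < fib (m * r + 1) := fib_pos.2 (by omega)
  have f1 := fib_le (m * r) r
  have f2 : fib (m * r + r) ≤ fib (m * r + r + 1) := fib_le_fib_succ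
  have hd := Nat.div_add_mod (k - fib (m * r)) (fib (m * r + 1))
  have hmod := Nat.mod_lt (k - fib (m * r)) hF
  have hb1 : 2 ^ r ≤ (k - fib (m * r)) / fib (m * r + 1) :=
    (Nat.le_div_iff_mul_le hF).2 (by omega)
  have hb2 : (k - fib (m * r)) / fib (m * r + 1) ≤ 2 * 4 ^ r := by
    apply Nat.div_le_of_le_mul
    have f3 : 2 ^ r * fib (m * r + r + 1) ≤ 2 ^ r * (2 ^ r * fib (m * r + 1)) :=
      Nat.mul_le_mul_left _ f1
    have f4 : 2 ^ r * fib (m * r + 1) ≤ 2 ^ r * (2 ^ r * fib (m * r + 1)) :=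
      Nat.le_mul_of_pos_left _ (by omega)
    have f5 : fib (m * r + 1) * (2 * 4 ^ r) = 2 * (2 ^ r * (2 ^ r * fib (m * r + 1))) := by
      rw [h4]; ring
    omega
  have hW : 2 ^ r ≤ 2 * 4 ^ r := by nlinarith
  obtain ⟨S, g, hc, hkS⟩ := blocks r m (Finset.Icc 1 (2 * 4 ^ r)) 1 _ _ (good_Icc _ (by omega))
    (Finset.Icc_subset_Icc_right hW) (Finset.mem_Icc.2 (by omega))
    (Finset.mem_Icc.2 ⟨by omega, hb2⟩) (by omega) hb1 hmod
  have hmn : m * r < n := by
    by_contra h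
    have : fib (n + 1) ≤ fib (m * r + 1) := fib_mono (by omega)
    nlinarith [Nat.zero_le (fib (m * r))]
  have hm2 : m ≤ n / r := (Nat.le_div_iff_mul_le hr).2 hmn.le
  refine ⟨S, g, ?_, ?_⟩
  · rw [Nat.card_Icc, mul_add, mul_one] at hc
    generalize n / r = d at hm2 ⊢
    omega
  · have : 1 * fib (m * r) + (k - fib (m * r)) / fib (m * r + 1) * fib (m * r + 1) +
        (k - fib (m * r)) % fib (m * r + 1) = k := by
      rw [mul_comm ((k - fib (m * r)) / fib (m * r + 1))]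
      omega
    rwa [this] at hkS

end Pool.Agent.H19.Elem
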