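import Mathlib

set_option autoImplicit false

namespace Pool.Agent.H19.Endv

/-- `v` has degree one. -/
def IsEnd {V : Type} (G : SimpleGraph V) (v : V) : Prop := (G.neighborSet v).ncard = 1

/-- No isolated vertex. -/
def NoIso {V : Type} (G : SimpleGraph V) : Prop := ∀ v, ∃ w, G.Adj v w

/-- The two graphs have the same endvertex-deck. -/
def SameDeck {V W : Type} (G : SimpleGraph V) (H : SimpleGraph W) : Prop :=
  ∃ e : {v // IsEnd G v} ≃ {w // IsEnd H w},
    ∀ v, Nonempty (G.induce {x | x ≠ v.1} ≃g H.induce {y | y ≠ (e v).1})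

/-- Endvertex-reconstructible. -/
def Recon {V : Type} (G : SimpleGraph V) : Prop :=
  ∀ (W : Type) [Finite W] (H : SimpleGraph W), NoIso H → SameDeck G H → Nonempty (G ≃g H)

/-- The proportion `α` of endvertices forces reconstructibility. -/
def Sufficient (α : ℝ) : Prop :=
  ∀ (V : Type) [Finite V] (G : SimpleGraph V), NoIso G →
    α * Nat.card V ≤ ({v | IsEnd G v}.ncard : ℝ) → Recon G

def bull : SimpleGraph (Fin 5) :=
  SimpleGraph.fromRel fun a b => (a, b) ∈ [(0, 1), (0, 2), (1, 2), (0, 3), (1, 4)]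

def cricket : SimpleGraph (Fin 5) :=
  SimpleGraph.fromRel fun a b => (a, b) ∈ [(0, 1), (0, 2), (1, 2), (0, 3), (0, 4)]

instance : DecidableRel bull.Adj := fun a b => by unfold bull; infer_instance
instance : DecidableRel cricket.Adj := fun a b => by unfold cricket; infer_instance

lemma end_iff (G : SimpleGraph (Fin 5)) [DecidableRel G.Adj] (v : Fin 5) :
    IsEnd G v ↔ G.degree v = 1 := by
  unfold IsEnd
  rw [← SimpleGraph.card_neighborSet_eq_degree, Set.ncard_eq_toFinset_card', Set.toFinset_card]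

lemma bull_end (v : Fin 5) : IsEnd bull v ↔ v = 3 ∨ v = 4 := by
  rw [end_iff]; revert v; decide

lemma cricket_end (v : Fin 5) : IsEnd cricket v ↔ v = 3 ∨ v = 4 := by
  rw [end_iff]; revert v; decide

def isoOf (σ : Equiv.Perm (Fin 5)) (v : Fin 5) (hv : σ v = v)
    (h : ∀ a b, a ≠ v → b ≠ v → (cricket.Adj (σ a) (σ b) ↔ bull.Adj a b)) :
    bull.induce {x | x ≠ v} ≃g cricket.induce {y | y ≠ v} where
  toEquiv := Equiv.subtypeEquiv σ (fun a => by
    simp only [Set.mem_ofPred_eq, ne_eq]
    rw [← σ.injective.eq_iff, hv])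
  map_rel_iff' := fun {a b} => h a.1 b.1 a.2 b.2

theorem main (α : ℝ) (h : Sufficient α) : 2 / 5 < α := by
  by_contra hα
  rw [not_lt] at hα
  have hs : {v | IsEnd bull v} = {3, 4} := by
    ext v; simp [bull_end]
  have hr := h (Fin 5) bull (by unfold NoIso; decide) (by
    rw [hs, Set.ncard_pair (by decide)]
    simp only [Nat.card_eq_fintype_card, Fintype.card_fin]
    push_cast
    linarith)
  obtain ⟨φ⟩ := hr (Fin 5) cricket (by unfold NoIso; decide) ⟨Equiv.subtypeEquivRight
    (fun v => by rw [bull_end, cricket_end]), fun v => by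
      obtain ⟨v, hv⟩ := v
      rcases (bull_end v).1 hv with rfl | rfl
      · exact ⟨isoOf (Equiv.swap 0 1) 3 (by decide) (by decide)⟩
      · exact ⟨isoOf (Equiv.refl _) 4 (by decide) (by decide)⟩⟩
  have h1 : ∀ v, bull.degree v ≠ 4 := by decide
  have h2 : cricket.degree 0 = 4 := by decide
  have := φ.degree_eq (φ.symm 0)
  rw [φ.apply_symm_apply, h2] at this
  exact h1 _ this.symm

end Pool.Agent.H19.Endv
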