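import Mathlib

set_option autoImplicit false

namespace Pool.Agent.H19.Equi

open Finset

/-- All pairs of distinct vertices of `S` are at the same finite positive distance. -/
def Equidistant {V : Type} (G : SimpleGraph V) (S : Finset V) : Prop :=
  ∃ k : ℕ, 1 ≤ k ∧ ∀ u ∈ S, ∀ v ∈ S, u ≠ v → G.edist u v = k

/-- The equidistant number of `G` is `a`. -/
def EqNum {V : Type} (G : SimpleGraph V) (a : ℕ) : Prop :=
  IsGreatest {m | ∃ S : Finset V, Equidistant G S ∧ S.card = m} a

lemma ram {V : Type} [DecidableEq V] (G : SimpleGraph V) (N : ℕ) : ∀ (s t : ℕ) (S : Finset V),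
    s + t = N → (s + t).choose s ≤ S.card →
    (∃ K ⊆ S, K.card = s + 1 ∧ ∀ u ∈ K, ∀ v ∈ K, u ≠ v → G.Adj u v) ∨
    (∃ K ⊆ S, K.card = t + 1 ∧ ∀ u ∈ K, ∀ v ∈ K, ¬ G.Adj u v) := by
  classical
  induction N with
  | zero =>
    intro s t S h hc
    obtain ⟨rfl, rfl⟩ : s = 0 ∧ t = 0 := by omega
    obtain ⟨x, hx⟩ := card_pos.1 (show 0 < S.card by simpa using hc)
    exact Or.inl ⟨{x}, by simpa using hx, by simp, by simp⟩
  | succ N ih =>
    intro s t S h hc
    obtain ⟨x, hx⟩ := card_pos.1 (lt_of_lt_of_le (Nat.choose_pos (by omega)) hc)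
    rcases s with _ | s
    · exact Or.inl ⟨{x}, by simpa using hx, by simp, by simp⟩
    rcases t with _ | t
    · exact Or.inr ⟨{x}, by simpa using hx, by simp, by simp⟩
    have e : (s + 1 + (t + 1)).choose (s + 1) =
        (s + (t + 1)).choose s + (s + 1 + t).choose (s + 1) := by
      rw [show s + 1 + (t + 1) = (s + (t + 1)) + 1 by ring, Nat.choose_succ_succ',
        show s + 1 + t = s + (t + 1) by ring]
    have h1 := card_filter_add_card_filter_not (s := S.erase x) (fun y => G.Adj x y)
    have h2 := card_erase_add_one hx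
    by_cases hA : (s + (t + 1)).choose s ≤ ((S.erase x).filter (fun y => G.Adj x y)).card
    · rcases ih s (t + 1) _ (by omega) hA with ⟨K, hK, hc', ha⟩ | ⟨K, hK, hc', ha⟩
      · have hxK : x ∉ K := fun h => by simpa using hK h
        refine Or.inl ⟨insert x K, insert_subset hx fun y hy =>
          mem_of_mem_erase (mem_filter.1 (hK hy)).1, by rw [card_insert_of_notMem hxK, hc'], ?_⟩
        intro u hu v hv huv
        rcases mem_insert.1 hu with rfl | hu' <;> rcases mem_insert.1 hv with rfl | hv'
        · exact absurd rfl huv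
        · exact (mem_filter.1 (hK hv')).2
        · exact (mem_filter.1 (hK hu')).2.symm
        · exact ha u hu' v hv' huv
      · exact Or.inr ⟨K, fun y hy => mem_of_mem_erase (mem_filter.1 (hK hy)).1, hc', ha⟩
    · rcases ih (s + 1) t ((S.erase x).filter (fun y => ¬ G.Adj x y)) (by omega) (by omega) with
        ⟨K, hK, hc', ha⟩ | ⟨K, hK, hc', ha⟩
      · exact Or.inl ⟨K, fun y hy => mem_of_mem_erase (mem_filter.1 (hK hy)).1, hc', ha⟩
      · have hxK : x ∉ K := fun h => by simpa using hK h
        refine Or.inr ⟨insert x K, insert_subset hx fun y hy =>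
          mem_of_mem_erase (mem_filter.1 (hK hy)).1, by rw [card_insert_of_notMem hxK, hc'], ?_⟩
        intro u hu v hv
        rcases mem_insert.1 hu with rfl | hu' <;> rcases mem_insert.1 hv with rfl | hv'
        · exact G.irrefl
        · exact (mem_filter.1 (hK hv')).2
        · exact fun h => (mem_filter.1 (hK hu')).2 h.symm
        · exact ha u hu' v hv'

theorem main {V : Type} [Fintype V] (G : SimpleGraph V) (a : ℕ) (ha : 1 ≤ a) (h : EqNum G a) :
    2 * G.edgeSet.ncard ≤ Fintype.card V * ((2 * a - 1).choose a - 1) := by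
  classical
  obtain ⟨b, rfl⟩ : ∃ b, a = b + 1 := ⟨a - 1, by omega⟩
  have hd : ∀ x, G.degree x ≤ (2 * (b + 1) - 1).choose (b + 1) - 1 := by
    intro x
    by_contra hx
    have e : (2 * (b + 1) - 1).choose (b + 1) = (b + (b + 1)).choose b := by
      rw [show 2 * (b + 1) - 1 = b + (b + 1) by omega]
      exact (Nat.choose_symm_add).symm
    have hc : (b + (b + 1)).choose b ≤ (G.neighborFinset x).card := by
      rw [SimpleGraph.card_neighborFinset_eq_degree]
      omega
    rcases ram G _ b (b + 1) _ rfl hc with ⟨K, hK, hc', hA⟩ | ⟨K, hK, hc', hA⟩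
    · have hxK : x ∉ K := fun h => by simpa using hK h
      have := h.2 ⟨insert x K, ⟨1, le_rfl, ?_⟩, rfl⟩
      · rw [card_insert_of_notMem hxK] at this
        omega
      · intro u hu v hv huv
        rw [Nat.cast_one, SimpleGraph.edist_eq_one_iff_adj]
        rcases mem_insert.1 hu with rfl | hu' <;> rcases mem_insert.1 hv with rfl | hv'
        · exact absurd rfl huv
        · simpa using hK hv'
        · exact SimpleGraph.Adj.symm (by simpa using hK hu')
        · exact hA u hu' v hv' huv
    · have := h.2 ⟨K, ⟨2, by norm_num, ?_⟩, rfl⟩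
      · omega
      · intro u hu v hv huv
        rw [Nat.cast_ofNat, SimpleGraph.edist_eq_two_iff]
        refine ⟨huv, hA u hu v hv, x, ?_, ?_⟩
        · exact SimpleGraph.Adj.symm (by simpa using hK hu)
        · exact SimpleGraph.Adj.symm (by simpa using hK hv)
  rw [← SimpleGraph.coe_edgeFinset, Set.ncard_coe_finset,
    ← SimpleGraph.sum_degrees_eq_twice_card_edges]
  simpa using Finset.sum_le_card_nsmul univ (fun x => G.degree x) _ (fun x _ => hd x)

end Pool.Agent.H19.Equi
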