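import Mathlib

set_option autoImplicit false

namespace Pool.Agent.H19.Flex

open Polynomial Sum

/-- every continuous motion keeping the edge lengths of `H` keeps all distances in `H` -/
def Rigid {V : Type} {G : SimpleGraph V} (p : V → ℂ) (H : G.Subgraph) : Prop :=
  ∀ γ : V → ℝ → ℂ, (∀ v, Continuous (γ v)) → (∀ v, γ v 0 = p v) →
    (∀ t a b, H.Adj a b → dist (γ a t) (γ b t) = dist (p a) (p b)) →
    ∀ t, ∀ a ∈ H.verts, ∀ b ∈ H.verts, dist (γ a t) (γ b t) = dist (p a) (p b)

variable {k : ℕ}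

def ee (S : Fin k → Bool) (l : Fin k) : ℕ := if S l then 1 else l + 2

noncomputable def P (S : Fin k → Bool) : ℕ[X] := ∏ l : Fin k, (C (ee S l) * X + C (l.1 + 3))

noncomputable def pl (c : ℕ) (x : Fin k → ℕ) (j : ℕ) : ℕ[X] :=
  C c + ∑ i : Fin k, monomial (i + 1) (x i) + monomial (k + 1) j

lemma pl0 (c : ℕ) (x : Fin k → ℕ) (j : ℕ) : (pl c x j).coeff 0 = c := by
  simp [pl, coeff_monomial]

lemma pl1 (c : ℕ) (x : Fin k → ℕ) (j : ℕ) (i : Fin k) : (pl c x j).coeff (i + 1) = x i := by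
  have := i.2
  simp [pl, coeff_monomial, Fin.val_inj, show k ≠ i by omega]

lemma pl2 (c : ℕ) (x : Fin k → ℕ) (j : ℕ) : (pl c x j).coeff (k + 1) = j := by
  have : ∀ i : Fin k, (i : ℕ) ≠ k := fun i => i.2.ne
  simp [pl, coeff_monomial, this]

def M (k : ℕ) : ℕ := ∏ l : Fin k, (l.1 + 3)

lemma M0 : M k ≠ 0 := Finset.prod_ne_zero_iff.2 fun l _ => by omega

lemma Pdeg (S : Fin k → Bool) : (P S).natDegree < k + 1 := by
  refine Nat.lt_succ_of_le ((natDegree_prod_le _ _).trans ?_)
  refine (Finset.sum_le_card_nsmul _ _ 1 fun l _ => natDegree_linear_le).trans (by simp)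

lemma Peq (S : Fin k → Bool) (x : Fin k → ℕ) :
    pl (M k) (fun i => x i + (P S).coeff (i + 1)) 0 = pl 0 x 0 + P S := by
  have h0 : (P S).coeff 0 = M k := by
    rw [coeff_zero_eq_eval_zero, P, eval_prod]; simp [M]
  conv_rhs => rw [(P S).as_sum_range' _ (Pdeg S), Finset.sum_range_succ', h0,
    ← Fin.sum_univ_eq_sum_range (fun i => monomial (i + 1) ((P S).coeff (i + 1)))]
  simp only [pl, map_add, Finset.sum_add_distrib, map_zero, monomial_zero_left]
  abel

lemma Pb (S : Fin k → Bool) (i : ℕ) : (P S).coeff i ≤ (2 * k + 3) ^ k := by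
  have h1 : (P S).coeff i ≤ (P S).eval 1 := by
    by_cases h : i ∈ (P S).support
    · rw [eval_eq_sum, Polynomial.sum]
      simpa using Finset.single_le_sum (f := fun n => (P S).coeff n) (fun _ _ => Nat.zero_le _) h
    · rw [notMem_support_iff.1 h]; exact Nat.zero_le _
  refine h1.trans ?_
  rw [P, eval_prod]
  refine (Finset.prod_le_pow_card _ _ (2 * k + 3) fun l _ => ?_).trans (by simp)
  have := l.2
  simp only [eval_add, eval_mul, eval_C, eval_X, ee]
  split_ifs <;> omega

lemma Pev (S : Fin k → Bool) {A : Type} [CommRing A] (u : A) :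
    aeval u (P S) = ∏ l : Fin k, ((ee S l : A) * u + ((l.1 + 3 : ℕ) : A)) := by
  simp only [P, map_prod, map_add, map_mul, aeval_X, eq_natCast, map_natCast, Nat.cast_add]

lemma Pinj : Function.Injective (P (k := k)) := by
  have key : ∀ (S : Fin k → Bool) (j : Fin k), aeval (-(j + 3 : ℤ)) (P S) = 0 ↔ S j = true := by
    intro S j
    rw [Pev, Finset.prod_eq_zero_iff]
    constructor
    · rintro ⟨l, -, h⟩
      unfold ee at h
      split_ifs at h with g
      · rwa [show j = l from Fin.ext (by omega)]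
      · push_cast at h
        nlinarith [Int.natCast_nonneg l.1, Int.natCast_nonneg j.1]
    · exact fun h => ⟨j, Finset.mem_univ _, by simp [ee, h]⟩
  intro S S' h
  funext j
  rw [Bool.eq_iff_iff, ← key, ← key, h]

lemma fac (θ : ℝ) (j : ℕ) : ‖(j + 2 : ℂ) * circleMap (-1) 1 θ + (j + 3)‖ =
    ‖circleMap (-1) 1 θ + (j + 3)‖ ∧ circleMap (-1) 1 θ + (j + 3) ≠ 0 := by
  have e := Real.sin_sq_add_cos_sq θ
  have c : circleMap (-1) 1 θ = ⟨Real.cos θ - 1, Real.sin θ⟩ := by
    apply Complex.ext <;> simp [circleMap, Complex.exp_ofReal_mul_I_re, Complex.exp_ofReal_mul_I_im]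
    ring
  rw [c]
  constructor
  · rw [Complex.norm_def, Complex.norm_def]
    congr 1
    simp [Complex.normSq_apply]
    linear_combination ((j + 2 : ℝ) ^ 2 - 1) * e
  · intro h
    have := congrArg Complex.re h
    simp at this
    linarith [Real.neg_one_le_cos θ, Nat.cast_nonneg (α := ℝ) j]

noncomputable def rho (k : ℕ) (θ : ℝ) : ℂ := ∏ l : Fin k, (circleMap (-1) 1 θ + (l.1 + 3))

lemma rho0 (θ : ℝ) : rho k θ ≠ 0 := Finset.prod_ne_zero_iff.2 fun l _ => (fac θ l).2

lemma Pn (S : Fin k → Bool) (θ : ℝ) : ‖aeval (circleMap (-1) 1 θ) (P S)‖ = ‖rho k θ‖ := by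
  rw [Pev, rho, norm_prod, norm_prod]
  refine Finset.prod_congr rfl fun l _ => ?_
  unfold ee
  split_ifs
  · simp
  · simpa using (fac θ l).1

abbrev Vx (k R K n : ℕ) := (Fin k → Fin R) ⊕ (Fin k → Fin (R + K)) ⊕ Fin n

variable {R K n : ℕ}

noncomputable def po : Vx k R K n → ℕ[X]
  | inl x => pl 0 (fun i => (x i).1) 0
  | inr (inl y) => pl (M k) (fun i => (y i).1) 0
  | inr (inr j) => pl 0 (fun _ : Fin k => 0) (j + 1)

lemma po_inj : Function.Injective (po : Vx k R K n → ℕ[X]) := by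
  intro a b h
  have h0 := congrArg (coeff · 0) h
  have h1 := fun i : Fin k => congrArg (coeff · (i + 1)) h
  have h2 := congrArg (coeff · (k + 1)) h
  have := M0 (k := k)
  rcases a with a | a | a <;> rcases b with b | b | b <;>
    simp only [po, pl0, pl1, pl2] at h0 h1 h2 <;> first
      | omega
      | exact congrArg _ (funext fun i => Fin.ext (h1 i))
      | exact congrArg _ (congrArg _ (funext fun i => Fin.ext (h1 i)))
      | exact congrArg _ (congrArg _ (Fin.ext (by omega)))

def gr (k R K n : ℕ) : SimpleGraph (Vx k R K n) :=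
  SimpleGraph.fromRel fun a b => ∃ S : Fin k → Bool, po b = po a + P S

noncomputable def mo (v : Vx k R K n) (θ : ℝ) : ℂ := aeval (circleMap (-1) 1 θ) (po v) / rho k θ

lemma unit {a b : Vx k R K n} (h : (gr k R K n).Adj a b) (θ : ℝ) : dist (mo a θ) (mo b θ) = 1 := by
  have k1 : ∀ a b : Vx k R K n, (∃ S : Fin k → Bool, po b = po a + P S) →
      dist (mo b θ) (mo a θ) = 1 := by
    rintro a b ⟨S, h⟩
    rw [dist_eq_norm, mo, mo, ← sub_div, h, map_add, add_sub_cancel_left, norm_div, Pn,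
      div_self (norm_ne_zero_iff.2 (rho0 θ))]
  rcases ((SimpleGraph.fromRel_adj _ _ _).1 h).2 with h | h
  · rw [dist_comm]; exact k1 _ _ h
  · exact k1 _ _ h

lemma edges (hK : (2 * k + 3) ^ k ≤ K) : R ^ k * 2 ^ k ≤ (gr k R K n).edgeSet.ncard := by
  let y : (Fin k → Fin R) × (Fin k → Bool) → Fin k → Fin (R + K) := fun z i =>
    ⟨z.1 i + (P z.2).coeff (i + 1), by have := Pb z.2 (i + 1); have := (z.1 i).2; omega⟩
  have e : ∀ z, po (inr (inl (y z)) : Vx k R K n) = po (inl z.1 : Vx k R K n) + P z.2 :=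
    fun z => Peq z.2 _
  have := Set.ncard_le_ncard_of_injOn (s := Set.univ) (t := (gr k R K n).edgeSet)
    (fun z : (Fin k → Fin R) × (Fin k → Bool) => s(inl z.1, inr (inl (y z))))
    (fun z _ => show (gr k R K n).Adj (inl z.1) (inr (inl (y z))) from
      (SimpleGraph.fromRel_adj _ _ _).2 ⟨by simp, Or.inl ⟨z.2, e z⟩⟩)
    (fun z _ z' _ h => by
      simp only [Sym2.eq_iff, inl.injEq, inr.injEq, reduceCtorEq, and_self, or_false] at h
      have := e z
      rw [h.2, e z', h.1] at this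
      refine Prod.ext h.1 (Pinj (Polynomial.ext fun i => ?_))
      have := congrArg (coeff · i) this
      simp only [coeff_add] at this
      omega) (Set.toFinite _)
  simpa using this

lemma pw {a b : ℕ} (hk : 1 ≤ k) (h : k * b ≤ a) : (a + b) ^ k ≤ 3 * a ^ k := by
  have k0 : (0 : ℝ) < k := by exact_mod_cast hk
  have h1 : ((a + b : ℕ) : ℝ) ≤ (1 + (k : ℝ)⁻¹) * a := by
    have : (k : ℝ) * b ≤ a := by exact_mod_cast h
    have : (b : ℝ) ≤ (k : ℝ)⁻¹ * a := by rw [le_inv_mul_iff₀ k0]; exact this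
    push_cast
    linarith
  have h2 := pow_le_pow_left₀ (by positivity) h1 k
  rw [mul_pow] at h2
  have h3 : (1 + (k : ℝ)⁻¹) ^ k ≤ 3 :=
    Real.one_add_inv_pow_le_exp.trans (by linarith [Real.exp_one_lt_d9])
  have := h2.trans (mul_le_mul_of_nonneg_right h3 (by positivity))
  exact_mod_cast this

theorem main (k n : ℕ) (hk : 1 ≤ k) (hn : 4 * (k * (2 * k + 3) ^ k) ^ k ≤ n) :
    ∃ (V : Type) (_ : Fintype V) (G : SimpleGraph V) (p : V → ℂ), Fintype.card V = n ∧
      Function.Injective p ∧ (∀ a b, G.Adj a b → dist (p a) (p b) = 1) ∧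
      2 ^ k * n ≤ 12 * G.edgeSet.ncard ∧ ∀ H : G.Subgraph, 3 ≤ H.verts.ncard → ¬ Rigid p H := by
  classical
  set K := (2 * k + 3) ^ k with hK
  have K1 : 1 ≤ K := Nat.one_le_pow _ _ (by omega)
  obtain ⟨R, r1, r2, r3⟩ : ∃ R, k * K ≤ R ∧ 4 * R ^ k ≤ n ∧ n < 4 * (R + 1) ^ k := by
    have b : k * K ≤ n := (Nat.le_self_pow (n := k) (by omega) _).trans (by omega)
    refine ⟨Nat.findGreatest (fun R => 4 * R ^ k ≤ n) n, Nat.le_findGreatest b hn,
      Nat.findGreatest_spec (P := fun R => 4 * R ^ k ≤ n) b hn, not_le.1 fun h => ?_⟩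
    have := Nat.le_findGreatest (P := fun R => 4 * R ^ k ≤ n)
      ((Nat.le_self_pow (n := k) (by omega) _).trans (le_trans (by omega) h)) h
    omega
  have a1 := pw hk r1
  have a2 := pw (a := R) (b := 1) hk (by nlinarith)
  obtain ⟨θ, hθ⟩ : ∃ θ : ℝ, Transcendental ℚ (circleMap (-1) 1 θ) := by
    by_contra h
    push Not at h
    refine Cardinal.not_countable_real
      (((Algebraic.countable ℚ ℂ).preimage_circleMap (-1) one_ne_zero).mono fun θ _ => ?_)
    exact not_not.1 (h θ)
  have inj : Function.Injective fun v : Vx k R K (n - (R ^ k + (R + K) ^ k)) => mo v θ := by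
    intro a b h
    have h1 := (div_left_inj' (rho0 θ)).1 h
    rw [← aeval_map_algebraMap ℚ, ← aeval_map_algebraMap ℚ _ (po b)] at h1
    exact po_inj (map_injective _ Nat.cast_injective (transcendental_iff_injective.1 hθ h1))
  refine ⟨Vx k R K (n - (R ^ k + (R + K) ^ k)), inferInstance, gr k R K _, fun v => mo v θ,
    by simp; omega, inj, fun a b h => unit h θ, ?_, fun H h3 hr => ?_⟩
  · have := edges (R := R) (n := n - (R ^ k + (R + K) ^ k)) (le_refl K)
    have : 2 ^ k * n ≤ 2 ^ k * (12 * R ^ k) := Nat.mul_le_mul_left _ (by omega)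
    nlinarith
  · have h := hr (fun v t => mo v (θ - t)) (fun v => by
        refine Continuous.div ?_ (by unfold rho; fun_prop) fun t => rho0 _
        exact (po v).continuous_aeval.comp (by fun_prop)) (fun v => by simp)
      (fun t a b h => by rw [unit (H.adj_sub h), unit (H.adj_sub h)]) θ
    have z : ∀ a b : Vx k R K (n - (R ^ k + (R + K) ^ k)), (po a).coeff 0 = (po b).coeff 0 →
        mo a 0 = mo b 0 := fun a b e => by
      simp only [mo, circleMap, Complex.ofReal_zero, zero_mul, Complex.exp_zero,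
        Complex.ofReal_one, mul_one, neg_add_cancel, ← coeff_zero_eq_aeval_zero', e]
    have w : ∀ a ∈ H.verts, ∀ b ∈ H.verts, (po a).coeff 0 = (po b).coeff 0 → a = b :=
      fun a ha b hb e => by
        have := h a ha b hb
        rw [sub_self, z a b e, dist_self] at this
        exact inj (dist_eq_zero.1 this.symm)
    have := Set.ncard_le_ncard_of_injOn (t := {0, M k}) (fun v => (po v).coeff 0)
      (fun v _ => by rcases v with v | v | v <;> simp [po, pl0]) w (Set.toFinite _)
    have := this.trans (Set.ncard_insert_le _ _)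
    rw [Set.ncard_singleton] at this
    omega

end Pool.Agent.H19.Flex
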