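import Mathlib

set_option autoImplicit false

namespace Pool.Agent.H19.Hex

open Finset

theorem tele (f : ℕ → ZMod 2) (n : ℕ) : ∑ j ∈ range n, (f j + f (j + 1)) = f 0 + f n := by
  induction n with
  | zero => simp [CharTwo.add_self_eq_zero]
  | succ n ih =>
    rw [sum_range_succ, ih]
    have := CharTwo.add_self_eq_zero (f n)
    linear_combination this

def gg (a b : Fin 3) : ZMod 2 := if (a = 1 ∧ b = 2) ∨ (a = 2 ∧ b = 1) then 1 else 0
def ph (a : Fin 3) : ZMod 2 := if a = 2 then 1 else 0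

def Nb (a b : ℕ × ℕ) : Prop :=
  (b.1 = a.1 ∧ b.2 = a.2 + 1) ∨ (b.1 = a.1 + 1 ∧ b.2 = a.2) ∨ (b.1 = a.1 + 1 ∧ b.2 = a.2 + 1)

/-- The Hex lemma for the triangulated grid `[0,n]²`. -/
theorem hex (n : ℕ) (r : ℕ × ℕ → Prop) (R : ℕ × ℕ → ℕ × ℕ → Prop) (hrefl : ∀ a, R a a)
    (hsymm : ∀ a b, R a b → R b a) (htrans : ∀ a b c, R a b → R b c → R a c)
    (hstep : ∀ a b, b.1 ≤ n → b.2 ≤ n → Nb a b → (r a ↔ r b) → R a b) :
    ∃ a, (∀ j ≤ n, ∃ i ≤ n, R a (i, j)) ∨ (∀ i ≤ n, ∃ j ≤ n, R a (i, j)) := by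
  classical
  by_contra hcon
  let L0 : ℕ × ℕ → Prop := fun a => r a ∧ ∀ j ≤ a.2, ∃ i ≤ n, R a (i, j)
  let L1 : ℕ × ℕ → Prop := fun a => ¬ r a ∧ ∀ i ≤ a.1, ∃ j ≤ n, R a (i, j)
  let Ad : ℕ × ℕ → ℕ × ℕ → Prop := fun a b =>
    a.1 ≤ n ∧ a.2 ≤ n ∧ b.1 ≤ n ∧ b.2 ≤ n ∧ (Nb a b ∨ Nb b a)
  have hR : ∀ a b, Ad a b → (r a ↔ r b) → R b a := by
    rintro a b ⟨h1, h2, h3, h4, h | h⟩ e
    · exact hsymm _ _ (hstep a b h3 h4 h e)
    · exact hstep b a h1 h2 h e.symm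
  have c0 : ∀ a b, Ad a b → L0 a → r b → L0 b := by
    intro a b h ha hb
    refine ⟨hb, fun j hj => ?_⟩
    by_cases e : j = b.2
    · exact ⟨b.1, h.2.2.1, e ▸ hrefl b⟩
    · obtain ⟨i, hi, hi'⟩ := ha.2 j (by
        obtain ⟨-, -, -, -, h⟩ := h
        unfold Nb at h
        omega)
      exact ⟨i, hi, htrans _ _ _ (hR a b h (iff_of_true ha.1 hb)) hi'⟩
  have c1 : ∀ a b, Ad a b → L1 a → ¬ r b → L1 b := by
    intro a b h ha hb
    refine ⟨hb, fun i hi => ?_⟩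
    by_cases e : i = b.1
    · exact ⟨b.2, h.2.2.2.1, e ▸ hrefl b⟩
    · obtain ⟨j, hj, hj'⟩ := ha.2 i (by
        obtain ⟨-, -, -, -, h⟩ := h
        unfold Nb at h
        omega)
      exact ⟨j, hj, htrans _ _ _ (hR a b h (iff_of_false ha.1 hb)) hj'⟩
  let lab : ℕ × ℕ → Fin 3 := fun a => if L0 a then 0 else if L1 a then 1 else 2
  have l0 : ∀ a, lab a = 0 ↔ L0 a := by
    intro a
    simp only [lab]
    split_ifs with h1 h2 <;> simp [h1]
  have l1 : ∀ a, lab a = 1 ↔ L1 a := by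
    intro a
    simp only [lab]
    split_ifs with h1 h2
    · exact iff_of_false (by decide) fun h => h.1 h1.1
    · simp [h2]
    · simp [h2]
  have rain : ∀ a b c, Ad a c → Ad b c → lab a = 0 → lab b = 1 → lab c ≠ 2 := by
    intro a b c h1 h2 ha hb hc
    by_cases h : r c
    · rw [(l0 c).mpr (c0 a c h1 ((l0 a).mp ha) h)] at hc
      exact absurd hc (by decide)
    · rw [(l1 c).mpr (c1 b c h2 ((l1 b).mp hb) h)] at hc
      exact absurd hc (by decide)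
  have asym : ∀ a b, Ad a b → Ad b a := fun a b h =>
    ⟨h.2.2.1, h.2.2.2.1, h.1, h.2.1, h.2.2.2.2.symm⟩
  have tri : ∀ a b c, Ad a b → Ad b c → Ad a c →
      gg (lab a) (lab b) + gg (lab b) (lab c) + gg (lab a) (lab c) = 0 := by
    intro a b c h1 h2 h3
    have key : ∀ x y z : Fin 3, (x = 0 → y = 1 → z ≠ 2) → (y = 0 → x = 1 → z ≠ 2) →
        (x = 0 → z = 1 → y ≠ 2) → (z = 0 → x = 1 → y ≠ 2) → (y = 0 → z = 1 → x ≠ 2) →
        (z = 0 → y = 1 → x ≠ 2) → gg x y + gg y z + gg x z = 0 := by decide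
    exact key _ _ _ (rain a b c h3 h2) (rain b a c h2 h3) (rain a c b h1 (asym _ _ h2))
      (rain c a b (asym _ _ h2) h1) (rain b c a (asym _ _ h1) (asym _ _ h3))
      (rain c b a (asym _ _ h3) (asym _ _ h1))
  let H : ℕ → ℕ → ZMod 2 := fun i j => gg (lab (i, j)) (lab (i, j + 1))
  let V : ℕ → ℕ → ZMod 2 := fun i j => gg (lab (i, j)) (lab (i + 1, j))
  have cell : ∀ i < n, ∀ j < n, H i j + H (i + 1) j = V i j + V i (j + 1) := by
    intro i hi j hj
    have t1 := tri (i, j) (i, j + 1) (i + 1, j + 1) (by simp [Ad, Nb]; omega)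
      (by simp [Ad, Nb]; omega) (by simp [Ad, Nb]; omega)
    have t2 := tri (i, j) (i + 1, j) (i + 1, j + 1) (by simp [Ad, Nb]; omega)
      (by simp [Ad, Nb]; omega) (by simp [Ad, Nb]; omega)
    have e1 := CharTwo.add_self_eq_zero (V i j)
    have e2 := CharTwo.add_self_eq_zero (V i (j + 1))
    have e3 := CharTwo.add_self_eq_zero (gg (lab (i, j)) (lab (i + 1, j + 1)))
    simp only [H, V] at *
    linear_combination t1 + t2 - e1 - e2 - e3
  have row : ∀ i ∈ range n, ∑ j ∈ range n, H i j + ∑ j ∈ range n, H (i + 1) j = V i 0 + V i n := by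
    intro i hi
    rw [← sum_add_distrib, ← tele (V i)]
    exact sum_congr rfl fun j hj => cell i (mem_range.mp hi) j (mem_range.mp hj)
  have tot := tele (fun i => ∑ j ∈ range n, H i j) n
  rw [sum_congr rfl row, sum_add_distrib] at tot
  have nr : ∀ i, lab (i, n) ≠ 0 := fun i h => hcon ⟨_, Or.inl ((l0 _).mp h).2⟩
  have nb : ∀ j, lab (n, j) ≠ 1 := fun j h => hcon ⟨_, Or.inr ((l1 _).mp h).2⟩
  have lf : ∀ i ≤ n, r (i, 0) → lab (i, 0) = 0 := fun i hi h =>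
    (l0 _).mpr ⟨h, fun j hj => ⟨i, hi, by rw [Nat.le_zero.mp hj]; exact hrefl _⟩⟩
  have tp : ∀ j ≤ n, ¬ r (0, j) → lab (0, j) = 1 := fun j hj h =>
    (l1 _).mpr ⟨h, fun i hi => ⟨j, hj, by rw [Nat.le_zero.mp hi]; exact hrefl _⟩⟩
  have lf2 : ∀ a b, Ad a b → b.2 = 0 → lab a = 1 → lab b ≠ 2 := by
    intro a b h e ha hb
    by_cases hr : r b
    · have := lf b.1 h.2.2.1 (e ▸ hr)
      rw [← e, hb] at this
      exact absurd this (by decide)
    · rw [(l1 b).mpr (c1 a b h ((l1 a).mp ha) hr)] at hb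
      exact absurd hb (by decide)
  have tp2 : ∀ a b, Ad a b → b.1 = 0 → lab a = 0 → lab b ≠ 2 := by
    intro a b h e ha hb
    by_cases hr : r b
    · rw [(l0 b).mpr (c0 a b h ((l0 a).mp ha) hr)] at hb
      exact absurd hb (by decide)
    · have := tp b.2 h.2.2.2.1 (e ▸ hr)
      rw [← e, hb] at this
      exact absurd this (by decide)
  have s1 : ∑ i ∈ range n, V i 0 = 0 := by
    refine sum_eq_zero fun i hi => ?_
    have hi := mem_range.mp hi
    have key : ∀ x y : Fin 3, (x = 1 → y ≠ 2) → (y = 1 → x ≠ 2) → gg x y = 0 := by decide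
    exact key _ _ (lf2 _ _ (by simp [Ad, Nb]; omega) rfl) (lf2 _ _ (by simp [Ad, Nb]; omega) rfl)
  have s2 : ∑ j ∈ range n, H n j = 0 := by
    refine sum_eq_zero fun j _ => ?_
    have key : ∀ x y : Fin 3, x ≠ 1 → y ≠ 1 → gg x y = 0 := by decide
    exact key _ _ (nb _) (nb _)
  have s3 : ∑ i ∈ range n, V i n = ph (lab (0, n)) + ph (lab (n, n)) := by
    rw [← tele (fun i => ph (lab (i, n)))]
    refine sum_congr rfl fun i _ => ?_
    have key : ∀ x y : Fin 3, x ≠ 0 → y ≠ 0 → gg x y = ph x + ph y := by decide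
    exact key _ _ (nr _) (nr _)
  have s4 : ∑ j ∈ range n, H 0 j = ph (lab (0, 0)) + ph (lab (0, n)) := by
    rw [← tele (fun j => ph (lab (0, j)))]
    refine sum_congr rfl fun j hj => ?_
    have hj := mem_range.mp hj
    have key : ∀ x y : Fin 3, (x = 0 → y ≠ 2) → (y = 0 → x ≠ 2) → gg x y = ph x + ph y := by decide
    exact key _ _ (tp2 _ _ (by simp [Ad, Nb]; omega) rfl) (tp2 _ _ (by simp [Ad, Nb]; omega) rfl)
  rw [s1, s2, s3, s4] at tot
  have p1 : ph (lab (0, 0)) = 0 := by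
    by_cases h : r (0, 0)
    · rw [lf 0 (Nat.zero_le _) h]; decide
    · rw [tp 0 (Nat.zero_le _) h]; decide
  have p2 : ph (lab (n, n)) = 1 := by
    have key : ∀ x : Fin 3, x ≠ 0 → x ≠ 1 → ph x = 1 := by decide
    exact key _ (nr _) (nb _)
  rw [p1, p2] at tot
  have : (1 : ZMod 2) = 0 := by linear_combination tot
  exact absurd this (by decide)

end Pool.Agent.H19.Hex
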