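import Mathlib

set_option autoImplicit false

namespace Pool.Agent.H19.Laz

open SimpleGraph Finset

abbrev W (a b : ℕ) := (Fin 3 × Fin a) ⊕ (Fin 7 × Fin b)

variable {a b : ℕ}

def part : W a b → Fin 3 ⊕ Fin 7 := Sum.map Prod.fst Prod.fst

def K (a b : ℕ) : SimpleGraph (W a b) := (⊤ : SimpleGraph (Fin 3 ⊕ Fin 7)).comap part

instance : DecidableRel (K a b).Adj := fun u v => inferInstanceAs (Decidable (part u ≠ part v))

theorem cardW : Fintype.card (W a b) = 3 * a + 7 * b := by simp

theorem deg (v : W a b) :
    3 * a + 7 * b ≤ (K a b).degree v + Sum.elim (fun _ => a) (fun _ => b) v := by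
  have h1 : (K a b).degree v + #(univ.filter fun u : W a b => part v = part u) = 3 * a + 7 * b := by
    have h0 : (K a b).neighborFinset v = univ.filter fun u => ¬ part v = part u := by
      ext u
      simp only [mem_neighborFinset, mem_filter, mem_univ, true_and]
      rfl
    rw [← card_neighborFinset_eq_degree, h0, add_comm, card_filter_add_card_filter_not,
      card_univ, cardW]
  rcases v with ⟨i, x⟩ | ⟨i, x⟩
  · have : #(univ.filter fun u : W a b => part (.inl (i, x) : W a b) = part u) ≤
        #(univ.image fun y : Fin a => (Sum.inl (i, y) : W a b)) := by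
      apply card_le_card
      rintro (⟨j, y⟩ | ⟨j, y⟩) hu
      · have : i = j := by simpa [part] using hu
        subst this
        exact mem_image.mpr ⟨y, mem_univ _, rfl⟩
      · simp [part] at hu
    have h2 := card_image_le (s := univ) (f := fun y : Fin a => (Sum.inl (i, y) : W a b))
    simp only [card_univ, Fintype.card_fin, Sum.elim_inl] at h2 ⊢
    omega
  · have : #(univ.filter fun u : W a b => part (.inr (i, x) : W a b) = part u) ≤
        #(univ.image fun y : Fin b => (Sum.inr (i, y) : W a b)) := by
      apply card_le_card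
      rintro (⟨j, y⟩ | ⟨j, y⟩) hu
      · simp [part] at hu
      · have : i = j := by simpa [part] using hu
        subst this
        exact mem_image.mpr ⟨y, mem_univ _, rfl⟩
    have h2 := card_image_le (s := univ) (f := fun y : Fin b => (Sum.inr (i, y) : W a b))
    simp only [card_univ, Fintype.card_fin, Sum.elim_inr] at h2 ⊢
    omega

theorem edgesK' : (3 * a + 7 * b) * (3 * a + 7 * b) ≤
    2 * #(K a b).edgeFinset + (3 * a * a + 7 * b * b) := by
  have h1 := sum_degrees_eq_twice_card_edges (K a b)
  have h2 := sum_le_sum (s := univ) fun (v : W a b) _ => deg v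
  have h3 : ∑ v : W a b, Sum.elim (fun _ => a) (fun _ => b) v = 3 * a * a + 7 * b * b := by
    rw [Fintype.sum_sum_type]
    simp only [sum_const, card_univ, Sum.elim_inl, Sum.elim_inr, Fintype.card_prod,
      Fintype.card_fin, smul_eq_mul]
  rwa [sum_const, sum_add_distrib, h1, h3, card_univ, cardW, smul_eq_mul] at h2

theorem edgesK : 36000000 ≤ #(K 1355 705).edgeFinset := by
  have := edgesK' (a := 1355) (b := 705)
  omega

def colK (b : Fin 3 × Fin 1355 → Bool) : W 1355 705 → Fin 13
  | .inl x => ⟨2 * x.1.1 + (b x).toNat, by have := x.1.2; have := (b x).toNat_le; omega⟩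
  | .inr x => ⟨6 + x.1.1, by have := x.1.2; omega⟩

theorem colK_valid (b : Fin 3 × Fin 1355 → Bool) {u v : W 1355 705} (h : (K 1355 705).Adj u v) :
    colK b u ≠ colK b v := by
  have h' : part u ≠ part v := h
  rcases u with x | x <;> rcases v with y | y <;>
    simp only [part, Sum.map_inl, Sum.map_inr, ne_eq, Sum.inl.injEq, Sum.inr.injEq,
      Fin.ext_iff] at h' <;>
    simp only [colK, ne_eq, Fin.mk.injEq]
  · have := (b x).toNat_le; have := (b y).toNat_le; omega
  · have := (b x).toNat_le; have := x.1.2; omega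
  · have := (b y).toNat_le; have := y.1.2; omega
  · omega

theorem exG : ∃ G : SimpleGraph (Fin 9000), Nat.card G.edgeSet = 36000000 ∧
    2 ^ 4065 ≤ Nat.card (G.Coloring (Fin 13)) := by
  classical
  obtain ⟨s, hs, hc⟩ := exists_subset_card_eq edgesK
  let H : SimpleGraph (W 1355 705) := fromEdgeSet (s : Set (Sym2 (W 1355 705)))
  have hE : H.edgeSet = (s : Set (Sym2 (W 1355 705))) := by
    rw [edgeSet_fromEdgeSet]
    ext e
    simp only [Set.mem_diff, mem_coe, Sym2.mem_diagSet, and_iff_left_iff_imp]
    intro he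
    exact (K 1355 705).not_isDiag_of_mem_edgeSet (mem_edgeFinset.mp (hs he))
  have hle : ∀ u v, H.Adj u v → (K 1355 705).Adj u v := fun u v h => by
    have : s(u, v) ∈ H.edgeSet := h
    rw [hE] at this
    exact mem_edgeFinset.mp (hs this)
  let e : Fin 9000 ≃ W 1355 705 := (Fintype.equivFinOfCardEq (cardW.trans (by norm_num))).symm
  refine ⟨H.comap e, ?_, ?_⟩
  · rw [Nat.card_congr (Iso.comap e H).mapEdgeSet, hE]
    simpa using hc
  · have h1 : Nat.card (Fin 3 × Fin 1355 → Bool) = 2 ^ 4065 := by
      rw [Nat.card_fun]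
      simp
    rw [← h1]
    haveI : Finite ((H.comap e).Coloring (Fin 13)) :=
      Finite.of_injective (fun c => (c : Fin 9000 → Fin 13)) DFunLike.coe_injective
    refine Nat.card_le_card_of_injective
      (fun b => Coloring.mk (fun v => colK b (e v)) fun {u v} h => colK_valid b (hle _ _ h)) ?_
    intro b b' hb
    funext x
    have := congrArg (fun c : (H.comap e).Coloring (Fin 13) => (c (e.symm (.inl x))).1) hb
    change (colK b (e (e.symm (.inl x)))).1 = (colK b' (e (e.symm (.inl x)))).1 at this
    rw [e.apply_symm_apply] at this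
    simp only [colK, add_right_inj] at this
    revert this
    cases b x <;> cases b' x <;> simp

def pt (v : Fin 9000) : Fin 9 := ⟨v.1 % 9, Nat.mod_lt _ (by norm_num)⟩

theorem prod_le (f : Fin 13 → Fin 9) :
    ∏ v : Fin 9000, #(univ.filter fun c => f c = pt v) ≤ 16 ^ 1000 := by
  have h1 : ∏ v : Fin 9000, #(univ.filter fun c => f c = pt v) =
      ∏ x : Fin 1000 × Fin 9, #(univ.filter fun c => f c = x.2) := by
    refine (Fintype.prod_equiv (finProdFinEquiv (m := 1000) (n := 9)) _ _ fun x => ?_).symm
    have : pt (finProdFinEquiv x) = x.2 := by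
      apply Fin.ext
      simp [pt, finProdFinEquiv, Nat.mod_eq_of_lt x.2.2]
    rw [this]
  rw [h1, Fintype.prod_prod_type]
  simp only [prod_const, card_univ, Fintype.card_fin]
  apply Nat.pow_le_pow_left
  have h2 : ∑ i : Fin 9, #(univ.filter fun c => f c = i) = 13 := by
    rw [← card_eq_sum_card_fiberwise (f := f) (s := univ) (t := univ) (by simp)]
    simp
  have h3 : ∏ i : Fin 9, (2 * #(univ.filter fun c => f c = i)) ≤
      ∏ i : Fin 9, 2 ^ #(univ.filter fun c => f c = i) := by
    apply prod_le_prod'
    intro i _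
    generalize #(univ.filter fun c => f c = i) = k
    rcases k with _ | k
    · simp
    · have := Nat.lt_two_pow_self (n := k)
      rw [pow_succ]
      omega
  rw [prod_pow_eq_pow_sum, h2, prod_mul_distrib] at h3
  simp only [prod_const, card_univ, Fintype.card_fin] at h3
  omega

theorem gen_le {V ι C : Type} [Fintype V] [Fintype ι] [Fintype C] [DecidableEq V] [DecidableEq ι]
    [DecidableEq C] (G : SimpleGraph V) (p : V → ι) (i0 : ι) (hG : ∀ u v, p u ≠ p v → G.Adj u v)
    (B : ℕ) (hB : ∀ f : C → ι, ∏ v : V, #(univ.filter fun c => f c = p v) ≤ B) :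
    Nat.card (G.Coloring C) ≤ Fintype.card ι ^ Fintype.card C * B := by
  classical
  let S : Finset (V → C) := univ.biUnion fun f : C → ι =>
    Fintype.piFinset fun v => univ.filter fun c => f c = p v
  have h1 : #S ≤ Fintype.card ι ^ Fintype.card C * B := by
    refine le_trans (card_biUnion_le_card_mul _ _ B fun f _ => ?_) ?_
    · rw [Fintype.card_piFinset]
      exact hB f
    · simp
  refine le_trans ?_ h1
  rw [← Nat.card_eq_finsetCard]
  refine Nat.card_le_card_of_injective (fun c => ⟨fun v => c v, ?_⟩) ?_
  · refine mem_biUnion.mpr ⟨fun a => if h : ∃ u, c u = a then p h.choose else i0, mem_univ _, ?_⟩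
    rw [Fintype.mem_piFinset]
    intro v
    have h : ∃ u, c u = c v := ⟨v, rfl⟩
    simp only [mem_filter, mem_univ, true_and, dif_pos h]
    by_contra hne
    exact c.valid (hG _ _ hne) h.choose_spec
  · intro c c' h
    exact DFunLike.coe_injective (congrArg Subtype.val h)

theorem turan_le : Nat.card ((turanGraph 9000 9).Coloring (Fin 13)) ≤ 9 ^ 13 * 16 ^ 1000 := by
  have := gen_le (C := Fin 13) (turanGraph 9000 9) pt 0
    (fun u v h => turanGraph_adj.mpr fun h2 => h (Fin.ext h2)) _ prod_le
  rwa [Fintype.card_fin, Fintype.card_fin] at this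

theorem edgesT : Nat.card (turanGraph 9000 9).edgeSet = 36000000 := by
  rw [Nat.card_eq_fintype_card, ← edgeFinset_card, card_edgeFinset_turanGraph]
  norm_num

theorem num : 9 ^ 13 * 16 ^ 1000 < 2 ^ 4065 := by decide +kernel

end Pool.Agent.H19.Laz
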