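import Mathlib

set_option autoImplicit false

namespace Pool.Agent.H19.Leaf

open SimpleGraph
open scoped Pointwise

/-- a tree all of whose degrees are one or three -/
def OneThree {V : Type} (T : SimpleGraph V) : Prop :=
  T.IsTree ∧ ∀ v, (T.neighborSet v).ncard = 1 ∨ (T.neighborSet v).ncard = 3

/-- lengths up to `N` of leaf-to-leaf paths -/
def Len {V : Type} (T : SimpleGraph V) (N : ℕ) : Set ℕ :=
  {l | l ≤ N ∧ ∃ (u v : V) (p : T.Walk u v), (T.neighborSet u).ncard = 1 ∧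
    (T.neighborSet v).ncard = 1 ∧ p.IsPath ∧ p.length = l}

/-- the property of the exponent `c` -/
def Pc (c : ℝ) : Prop :=
  ∃ κ : ℝ, 0 < κ ∧ ∀ N : ℕ, 1 ≤ N → ∃ n0 : ℕ, ∀ n, n0 ≤ n → Even n →
    ∀ (V : Type) [Finite V] (T : SimpleGraph V), Nat.card V = n → OneThree T →
      κ * (N : ℝ) ^ c ≤ (Len T N).ncard

variable (n : ℕ) (a : ℕ → ℕ)

abbrev Vt := {v : ℕ × ℕ // v.1 ≤ n + 1 ∧ v.2 < 2 ^ a v.1}

instance : Finite (Vt n a) := by
  refine Set.Finite.to_subtype (s := {v : ℕ × ℕ | v.1 ≤ n + 1 ∧ v.2 < 2 ^ a v.1}) ?_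
  refine (Set.Finite.biUnion (Set.finite_Iic (n + 1)) fun i _ =>
    (Set.finite_Iio (2 ^ a i)).image (Prod.mk i)).subset ?_
  rintro ⟨i, x⟩ ⟨h1, h2⟩
  exact Set.mem_biUnion h1 ⟨x, h2, rfl⟩

def par (v : Vt n a) : Vt n a :=
  if v.1.2 = 0 then ⟨(v.1.1 - 1, 0), by have := v.2.1; simp only; omega, by positivity⟩
  else ⟨(v.1.1, v.1.2 / 2), v.2.1, (Nat.div_le_self _ _).trans_lt v.2.2⟩

def rt : Vt n a := ⟨(0, 0), by omega, by positivity⟩

def tr : SimpleGraph (Vt n a) := fromRel fun u v => u ≠ rt n a ∧ par n a u = v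

variable {n a}

lemma adj (u v : Vt n a) : (tr n a).Adj u v ↔
    (u.1.2 = 0 ∧ v.1.2 = 0 ∧ (u.1.1 = v.1.1 + 1 ∨ v.1.1 = u.1.1 + 1)) ∨
    (u.1.1 = v.1.1 ∧ ((u.1.2 ≠ 0 ∧ v.1.2 = u.1.2 / 2) ∨ (v.1.2 ≠ 0 ∧ u.1.2 = v.1.2 / 2))) := by
  obtain ⟨⟨i, x⟩, h⟩ := u
  obtain ⟨⟨j, y⟩, h'⟩ := v
  simp only [tr, fromRel_adj, par, rt, ne_eq]
  split_ifs <;> simp only [Subtype.mk.injEq, Prod.mk.injEq] at * <;> omega

lemma sz {x : ℕ} (h : x ≠ 0) : (x / 2).size + 1 = x.size := by
  refine eq_of_forall_ge_iff fun m => ?_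
  rcases m with _ | m
  · have := Nat.size_pos.2 (Nat.pos_of_ne_zero h); omega
  · rw [Nat.add_le_add_iff_right, Nat.size_le, Nat.size_le, pow_succ]; omega

lemma up (i x : ℕ) : ∀ (h : i ≤ n + 1 ∧ x < 2 ^ a i), ∃ p : (tr n a).Walk ⟨(i, x), h⟩
    ⟨(i, 0), h.1, by positivity⟩, p.length = x.size := by
  induction x using Nat.strong_induction_on with
  | _ x ih =>
    intro h
    by_cases hx : x = 0
    · subst hx; exact ⟨Walk.nil, by simp⟩
    · obtain ⟨p, hp⟩ := ih (x / 2) (by omega) ⟨h.1, (Nat.div_le_self _ _).trans_lt h.2⟩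
      exact ⟨Walk.cons ((adj _ _).2 (by simp [hx])) p, by simp [hp, sz hx]⟩

lemma sp (i d : ℕ) : ∀ (h : i + d ≤ n + 1), ∃ p : (tr n a).Walk ⟨(i + d, 0), h, by positivity⟩
    ⟨(i, 0), by omega, by positivity⟩, p.length = d := by
  induction d with
  | zero => exact fun h => ⟨Walk.nil, rfl⟩
  | succ d ih =>
    intro h
    obtain ⟨p, hp⟩ := ih (by omega)
    exact ⟨Walk.cons ((adj _ _).2 (by simp [add_assoc])) p, by simp [hp]⟩

lemma wk (u v : Vt n a) (h : u.1.1 ≤ v.1.1) :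
    ∃ p : (tr n a).Walk u v, p.length = u.1.2.size + v.1.2.size + (v.1.1 - u.1.1) := by
  obtain ⟨⟨i, x⟩, h1⟩ := u
  obtain ⟨⟨j, y⟩, h2⟩ := v
  obtain ⟨d, rfl⟩ := Nat.exists_eq_add_of_le (show i ≤ j from h)
  obtain ⟨p, hp⟩ := up i x h1
  obtain ⟨q, hq⟩ := up _ y h2
  obtain ⟨r, hr⟩ := sp (a := a) i d h2.1
  exact ⟨p.append (r.reverse.append q.reverse), by simp [hp, hq, hr]; omega⟩

lemma tree : (tr n a).IsTree := by
  have c : (tr n a).Connected := by
    have : Nonempty (Vt n a) := ⟨rt n a⟩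
    refine Connected.mk fun u v => ?_
    rcases le_total u.1.1 v.1.1 with h | h
    · exact ⟨(wk u v h).choose⟩
    · exact ⟨(wk v u h).choose.reverse⟩
  refine isTree_iff_connected_and_card.2 ⟨c, le_antisymm ?_ c.card_vert_le_card_edgeSet_add_one⟩
  have h1 : (tr n a).edgeSet ⊆ (fun v => s(v, par n a v)) '' {rt n a}ᶜ := by
    intro e he
    induction e using Sym2.ind with
    | h u v =>
      have he' : (fromRel fun u v => u ≠ rt n a ∧ par n a u = v).Adj u v := he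
      rcases ((fromRel_adj _ _ _).1 he').2 with ⟨h, rfl⟩ | ⟨h, rfl⟩
      · exact ⟨u, h, rfl⟩
      · exact ⟨v, h, Sym2.eq_swap⟩
  have h2 := (Set.ncard_le_ncard h1 (Set.toFinite _)).trans (Set.ncard_image_le (Set.toFinite _))
  have h3 := Set.ncard_add_ncard_compl {rt n a}
  rw [Set.ncard_singleton] at h3
  rw [Nat.card_coe_set_eq]
  omega

lemma lip (f : Vt n a → ℤ) (hf : ∀ u v, (tr n a).Adj u v → f v ≤ f u + 1) {u v : Vt n a}
    (p : (tr n a).Walk u v) : f v ≤ f u + p.length := by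
  induction p with
  | nil => simp
  | cons h p ih => have := hf _ _ h; simp only [Walk.length_cons]; push_cast; omega

lemma len {u v : Vt n a} (p : (tr n a).Walk u v) (hp : p.IsPath) (h : u.1.1 ≤ v.1.1) :
    p.length ≤ u.1.2.size + v.1.2.size + (v.1.1 - u.1.1) ∧
      (u.1.1 < v.1.1 → p.length = u.1.2.size + v.1.2.size + (v.1.1 - u.1.1)) := by
  obtain ⟨q, hq, e⟩ := tree.connected.exists_path_of_dist u v
  have e1 : p = q := congrArg Subtype.val
    ((tree.isAcyclic.subsingleton_path u v).elim ⟨p, hp⟩ ⟨q, hq⟩)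
  obtain ⟨r, hr⟩ := wk u v h
  have e2 := dist_le r
  have b : p.length ≤ u.1.2.size + v.1.2.size + (v.1.1 - u.1.1) := by rw [e1, e, ← hr]; exact e2
  refine ⟨b, fun h' => le_antisymm b ?_⟩
  have := lip (fun w => if w.1.1 ≤ u.1.1 then w.1.1 - w.1.2.size else w.1.1 + w.1.2.size)
    (fun w w' hw => by
      rcases (adj _ _).1 hw with ⟨h1, h2, h3⟩ | ⟨h1, ⟨h2, h3⟩ | ⟨h2, h3⟩⟩
      · simp only [h1, h2, Nat.size_zero]; split_ifs <;> omega
      · have := sz h2; rw [h3]; split_ifs <;> omega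
      · have := sz h2; rw [h3]; split_ifs <;> omega) p
  simp only [le_refl, if_true, if_neg (not_le.2 h')] at this
  omega

lemma dg (h0 : a 0 = 0) (h1 : a (n + 1) = 0) (h2 : ∀ i, 1 ≤ i → i ≤ n → 1 ≤ a i) (v : Vt n a) :
    (((tr n a).neighborSet v).ncard = 1 ∧ v.1.2.size = a v.1.1) ∨
      ((tr n a).neighborSet v).ncard = 3 := by
  obtain ⟨⟨i, x⟩, hi, hx⟩ := v
  simp only at hi hx
  have one : ∀ w : Vt n a, (∀ w', (tr n a).Adj ⟨(i, x), hi, hx⟩ w' ↔ w' = w) →
      ((tr n a).neighborSet ⟨(i, x), hi, hx⟩).ncard = 1 := fun w h =>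
    Set.ncard_eq_one.2 ⟨w, Set.ext h⟩
  by_cases x0 : x = 0
  · subst x0
    by_cases i0 : i = 0
    · subst i0
      refine Or.inl ⟨one ⟨(1, 0), by omega, by positivity⟩ ?_, by simp [h0]⟩
      rintro ⟨⟨j, y⟩, hj, hy⟩
      simp only [adj, Subtype.mk.injEq, Prod.mk.injEq, true_and, ne_eq, not_true, false_and, false_or]
      have : j = 0 → y = 0 := fun e => by rw [e, h0] at hy; simpa using hy
      omega
    by_cases i1 : i = n + 1
    · subst i1
      refine Or.inl ⟨one ⟨(n, 0), by omega, by positivity⟩ ?_, by simp [h1]⟩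
      rintro ⟨⟨j, y⟩, hj, hy⟩
      simp only [adj, Subtype.mk.injEq, Prod.mk.injEq, true_and, ne_eq, not_true, false_and, false_or]
      have : j = n + 1 → y = 0 := fun e => by rw [e, h1] at hy; simpa using hy
      simp only at hj
      omega
    refine Or.inr (Set.ncard_eq_three.2 ⟨⟨(i - 1, 0), by simp only; omega, by positivity⟩,
      ⟨(i + 1, 0), by simp only; omega, by positivity⟩,
      ⟨(i, 1), hi, Nat.one_lt_two_pow (by have := h2 i (by omega) (by omega); simp only; omega)⟩,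
      by simp, by simp, by simp, Set.ext ?_⟩)
    rintro ⟨⟨j, y⟩, hj, hy⟩
    simp only [mem_neighborSet, adj, Set.mem_insert_iff, Set.mem_singleton_iff, Subtype.mk.injEq,
      Prod.mk.injEq, true_and, ne_eq, not_true, false_and, false_or]
    omega
  · obtain ⟨b, hb⟩ : ∃ b, a i = b + 1 := Nat.exists_eq_succ_of_ne_zero fun e => by
      rw [e] at hx; omega
    have e : 2 ^ a i = 2 ^ b * 2 := by rw [hb, pow_succ]
    by_cases hl : 2 ^ b ≤ x
    · refine Or.inl ⟨one ⟨(i, x / 2), hi, (Nat.div_le_self _ _).trans_lt hx⟩ ?_,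
        le_antisymm (Nat.size_le.2 hx) (hb.le.trans (Nat.lt_size.2 hl))⟩
      rintro ⟨⟨j, y⟩, hj, hy⟩
      simp only [adj, Subtype.mk.injEq, Prod.mk.injEq]
      have : j = i → y < 2 ^ b * 2 := fun e' => by rw [← e, ← e']; exact hy
      omega
    · refine Or.inr (Set.ncard_eq_three.2 ⟨⟨(i, x / 2), hi, (Nat.div_le_self _ _).trans_lt hx⟩,
        ⟨(i, 2 * x), hi, by simp only; omega⟩, ⟨(i, 2 * x + 1), hi, by simp only; omega⟩,
        by simp; omega, by simp; omega, by simp, Set.ext ?_⟩)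
      rintro ⟨⟨j, y⟩, hj, hy⟩
      simp only [mem_neighborSet, adj, Set.mem_insert_iff, Set.mem_singleton_iff, Subtype.mk.injEq,
        Prod.mk.injEq]
      omega

def U : Finset ℤ := {0, 1, 3, 13, 32, 36, 43, 52}

lemma U1 : (U + U).card ≤ 36 := by decide +kernel

lemma U2 : ∀ r : Fin 57, ∃ x ∈ U, ∃ y ∈ U, (y - x - r.1) % 57 = 0 := by decide +kernel

lemma dig (k : ℕ) : ∃ X : Finset ℤ, 0 ∈ X ∧ (X + X).card ≤ 36 ^ k ∧
    ∀ t : ℤ, ∃ x ∈ X, ∃ y ∈ X, (57 ^ k : ℤ) ∣ y - x - t := by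
  induction k with
  | zero => exact ⟨{0}, by simp, by simp, fun t => ⟨0, by simp, 0, by simp, by simp⟩⟩
  | succ k ih =>
    obtain ⟨X, h0, h1, h2⟩ := ih
    have u0 : (0 : ℤ) ∈ U := by decide
    have u1 := U1
    have u2 := U2
    generalize U = W at u0 u1 u2
    refine ⟨(W ×ˢ X).image fun q => q.1 + 57 * q.2,
      Finset.mem_image.2 ⟨(0, 0), Finset.mem_product.2 ⟨u0, h0⟩, by simp⟩, ?_, fun t => ?_⟩
    · refine (Finset.card_le_card (t := ((W + W) ×ˢ (X + X)).image fun q => q.1 + 57 * q.2)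
        fun z hz => ?_).trans (Finset.card_image_le.trans ?_)
      · obtain ⟨_, h1, _, h2, rfl⟩ := Finset.mem_add.1 hz
        obtain ⟨p, hp, rfl⟩ := Finset.mem_image.1 h1
        obtain ⟨q, hq, rfl⟩ := Finset.mem_image.1 h2
        rw [Finset.mem_product] at hp hq
        exact Finset.mem_image.2 ⟨(p.1 + q.1, p.2 + q.2), Finset.mem_product.2
          ⟨Finset.add_mem_add hp.1 hq.1, Finset.add_mem_add hp.2 hq.2⟩, by ring⟩
      · rw [Finset.card_product, pow_succ']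
        exact Nat.mul_le_mul u1 h1
    · obtain ⟨x, hx, y, hy, e⟩ := u2 ⟨(t % 57).toNat, by omega⟩
      obtain ⟨s, hs⟩ : (57 : ℤ) ∣ y - x - t := by simp only at e; omega
      obtain ⟨x', hx', y', hy', c, hc⟩ := h2 (-s)
      refine ⟨_, Finset.mem_image.2 ⟨(x, x'), Finset.mem_product.2 ⟨hx, hx'⟩, rfl⟩, _,
        Finset.mem_image.2 ⟨(y, y'), Finset.mem_product.2 ⟨hy, hy'⟩, rfl⟩, c, ?_⟩
      linear_combination hs + 57 * hc

theorem few (k N n0 : ℕ) : ∃ (n : ℕ) (a : ℕ → ℕ), n0 ≤ Nat.card (Vt n a) ∧ OneThree (tr n a) ∧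
    (Len (tr n a) N).ncard ≤ 4 * 57 ^ k + 1 + 36 ^ k * (N / 57 ^ k + 1) := by
  classical
  obtain ⟨X, h0, h1, h2⟩ := dig k
  choose x hx y hy e using h2
  set M := 57 ^ k with hM
  have M0 : 0 < M := by positivity
  have eM : (57 : ℤ) ^ k = M := by rw [hM]; push_cast; rfl
  rw [eM] at e
  obtain ⟨n, hn⟩ : ∃ n, n + 1 = M * (n0 + 1) := ⟨_, Nat.sub_add_cancel (Nat.mul_pos M0 (by omega))⟩
  let a : ℕ → ℕ := fun i => if i = 0 ∨ i = n + 1 then 0 else ((x (2 * i) + i) % M).toNat + M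
  have a0 : a 0 = 0 := by simp [a]
  have a1 : a (n + 1) = 0 := by simp [a]
  have a2 : ∀ i, 1 ≤ i → i ≤ n → 1 ≤ a i := fun i _ _ => by
    simp only [a]; rw [if_neg (by omega)]; omega
  have Mz : (0 : ℤ) < M := by exact_mod_cast M0
  have a3 : ∀ i, a i ≤ 2 * M := fun i => by
    have := Int.emod_lt_of_pos (x (2 * i) + i) Mz
    simp only [a]; split_ifs <;> omega
  have a4 : ∀ i, i ≠ 0 → i ≠ n + 1 → (M : ℤ) ∣ a i - (x (2 * i) + i) := fun i _ _ => by
    have := Int.emod_nonneg (x (2 * i) + i) Mz.ne'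
    simp only [a]
    rw [if_neg (by omega)]
    push_cast
    rw [Int.toNat_of_nonneg this, Int.emod_def]
    exact ⟨1 - (x (2 * i) + i) / M, by ring⟩
  have a5 : ∀ i, i ≠ n + 1 → ∃ z ∈ X, (M : ℤ) ∣ a i - i - z := fun i h => by
    by_cases i0 : i = 0
    · exact ⟨0, h0, by simp [i0, a0]⟩
    · exact ⟨_, hx (2 * i), by have := a4 i i0 h; rwa [add_comm, ← sub_sub] at this⟩
  have a6 : ∀ i, i ≠ 0 → ∃ z ∈ X, (M : ℤ) ∣ a i + i - z := fun i h => by
    by_cases i0 : i = n + 1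
    · exact ⟨0, h0, by rw [i0, a1, hn]; simp⟩
    · obtain ⟨c, hc⟩ := a4 i h i0
      obtain ⟨d, hd⟩ := e (2 * i)
      exact ⟨_, hy (2 * i), c - d, by linear_combination hc - hd⟩
  refine ⟨n, a, ?_, ⟨tree, fun v => (dg a0 a1 a2 v).imp_left And.left⟩, ?_⟩
  · have := Nat.card_le_card_of_injective (α := Fin (n + 1)) (β := Vt n a)
      (fun i => ⟨(i, 0), by have := i.2; simp only; omega, by positivity⟩)
      fun i j h => Fin.ext (by simpa using h)
    rw [Nat.card_eq_fintype_card, Fintype.card_fin, hn] at this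
    nlinarith
  · have key : ∀ (u v : Vt n a) (p : (tr n a).Walk u v), ((tr n a).neighborSet u).ncard = 1 →
        ((tr n a).neighborSet v).ncard = 1 → p.IsPath → u.1.1 ≤ v.1.1 →
        p.length ≤ 4 * M ∨ ∃ z ∈ X + X, (M : ℤ) ∣ p.length - z := by
      intro u v p hu hv hp h
      have s1 := ((dg a0 a1 a2 u).resolve_right (by omega)).2
      have s2 := ((dg a0 a1 a2 v).resolve_right (by omega)).2
      obtain ⟨l1, l2⟩ := len p hp h
      rcases h.eq_or_lt with h' | h'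
      · have := a3 u.1.1
        have := a3 v.1.1
        exact Or.inl (by omega)
      · have := v.2.1
        obtain ⟨z, hz, c, hc⟩ := a5 u.1.1 (by omega)
        obtain ⟨z', hz', d, hd⟩ := a6 v.1.1 (by omega)
        refine Or.inr ⟨_, Finset.add_mem_add hz hz', c + d, ?_⟩
        rw [l2 h', s1, s2]
        push_cast [h]
        linear_combination hc + hd
    have sub : Len (tr n a) N ⊆ ((Finset.range (4 * M + 1) ∪
        ((X + X) ×ˢ Finset.range (N / M + 1)).image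
          fun q : ℤ × ℕ => (q.1 % (M : ℤ)).toNat + M * q.2 : Finset ℕ) : Set ℕ) := by
      rintro l ⟨hl, u, v, p, hu, hv, hp, rfl⟩
      have : p.length ≤ 4 * M ∨ ∃ z ∈ X + X, (M : ℤ) ∣ p.length - z := by
        rcases le_total u.1.1 v.1.1 with h | h
        · exact key u v p hu hv hp h
        · simpa using key v u p.reverse hv hu hp.reverse h
      rw [Finset.mem_coe, Finset.mem_union, Finset.mem_range, Finset.mem_image]
      refine this.imp (fun h => by omega) fun ⟨z, hz, h⟩ => ⟨(z, p.length / M),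
        Finset.mem_product.2 ⟨hz, Finset.mem_range.2 (Nat.lt_succ_of_le (Nat.div_le_div_right hl))⟩,
        ?_⟩
      have : z % M = ((p.length % M : ℕ) : ℤ) := by
        push_cast; exact (Int.emod_emod_of_dvd _ dvd_rfl).symm.trans (by
          rw [Int.emod_emod_of_dvd _ dvd_rfl]; exact (Int.modEq_iff_dvd.2 h))
      simp only [this, Int.toNat_natCast, Nat.mod_add_div]
    refine (Set.ncard_le_ncard sub (Finset.finite_toSet _)).trans ?_
    rw [Set.ncard_coe_finset]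
    refine (Finset.card_union_le _ _).trans (Nat.add_le_add (by simp) (Finset.card_image_le.trans ?_))
    rw [Finset.card_product, Finset.card_range]
    exact Nat.mul_le_mul_right _ h1

lemma evn {V : Type} [Finite V] {T : SimpleGraph V} (h : OneThree T) : Even (Nat.card V) := by
  classical
  have := Fintype.ofFinite V
  have e := T.even_card_odd_degree_vertices
  rw [Finset.filter_true_of_mem fun v _ => by
    rw [← card_neighborSet_eq_degree, ← Nat.card_eq_fintype_card, Nat.card_coe_set_eq]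
    rcases h.2 v with h | h <;> rw [h] <;> decide] at e
  simpa using e

theorem main (c : ℝ) (h : Pc c) : c ≤ (2 - Real.log 36 / Real.log 57)⁻¹ := by
  obtain ⟨κ, k0, h⟩ := h
  by_contra hc
  push Not at hc
  have l1 : 0 < Real.log 57 := Real.log_pos (by norm_num)
  have l2 : Real.log 36 < Real.log 57 := Real.log_lt_log (by norm_num) (by norm_num)
  have l3 : 0 < 2 - Real.log 36 / Real.log 57 := by
    have := (div_lt_one l1).2 l2; linarith
  have c0 : 0 < c := (inv_pos.2 l3).trans hc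
  have r1 : 1 < (57 ^ 2 / 36 : ℝ) ^ c / 57 := by
    rw [one_lt_div (by norm_num), Real.lt_rpow_iff_log_lt (by norm_num) (by norm_num),
      Real.log_div (by norm_num) (by norm_num), Real.log_pow]
    rw [inv_lt_iff_one_lt_mul₀ l3] at hc
    have := mul_lt_mul_of_pos_right hc l1
    have e : c * (2 - Real.log 36 / Real.log 57) * Real.log 57 =
      c * (2 * Real.log 57 - Real.log 36) := by field_simp
    push_cast
    linarith
  obtain ⟨k, hk⟩ := pow_unbounded_of_one_lt (8 / κ) r1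
  set N := (57 ^ 2) ^ k / 36 ^ k + 1 with hN
  obtain ⟨n0, h⟩ := h N (Nat.le_add_left _ _)
  obtain ⟨n, a, t1, t2, t3⟩ := few k N n0
  have b1 := h _ t1 (evn t2) _ _ rfl t2
  have p1 : 36 ^ k ≤ 57 ^ k := Nat.pow_le_pow_left (by norm_num) k
  have p2 : 1 ≤ 36 ^ k := Nat.one_le_pow _ _ (by norm_num)
  have b2 : 36 ^ k * (N / 57 ^ k) ≤ 2 * 57 ^ k := by
    have q1 : 36 ^ k * N ≤ 57 ^ k * 57 ^ k + 36 ^ k := by
      rw [hN, mul_add, mul_one, ← mul_pow]
      exact Nat.add_le_add_right (Nat.mul_div_le _ _) _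
    have q2 := Nat.mul_div_le N (57 ^ k)
    refine Nat.le_of_mul_le_mul_left ?_ (show 0 < 57 ^ k by positivity)
    nlinarith [Nat.mul_le_mul_left (36 ^ k) q2]
  have b3 : ((Len (tr n a) N).ncard : ℝ) ≤ 8 * 57 ^ k := by
    have : (Len (tr n a) N).ncard ≤ 8 * 57 ^ k := by rw [mul_add] at t3; omega
    exact_mod_cast this
  have b4 : ((57 ^ 2 / 36 : ℝ) ^ c) ^ k ≤ (N : ℝ) ^ c := by
    rw [← Real.rpow_natCast, ← Real.rpow_mul (by norm_num), mul_comm, Real.rpow_mul (by norm_num),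
      Real.rpow_natCast]
    refine Real.rpow_le_rpow (by positivity) ?_ c0.le
    rw [div_pow, div_le_iff₀ (by positivity)]
    have := (Nat.lt_div_mul_add (a := (57 ^ 2) ^ k) (b := 36 ^ k) p2).le
    have : (57 ^ 2) ^ k ≤ N * 36 ^ k := by rw [hN, add_mul, one_mul]; exact this
    exact_mod_cast this
  rw [div_pow, div_lt_div_iff₀ k0 (by positivity)] at hk
  nlinarith [mul_le_mul_of_nonneg_left b4 k0.le]

end Pool.Agent.H19.Leaf
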