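import Mathlib

set_option autoImplicit false

namespace Pool.Agent.H19.MaxDet
open Matrix
open scoped MatrixOrder

/-- if `K` is the inverse of a positive definite `M` and `tr (N K)` is the dimension, then
`det N ≤ det M`, with equality only for `N = M` -/
theorem key {V : Type} [Fintype V] [DecidableEq V] (M K N : Matrix V V ℝ) (hM : M.PosDef)
    (hK : K * M = 1) (hN : N.PosDef) (ht : (N * K).trace = Fintype.card V) :
    N.det ≤ M.det ∧ (M.det ≤ N.det → N = M) := by
  have eK : K = M⁻¹ := (Matrix.inv_eq_left_inv hK).symm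
  have pK : K.PosDef := eK ▸ hM.inv
  obtain ⟨S, hS⟩ := CStarAlgebra.nonneg_iff_eq_star_mul_self.mp pK.posSemidef.nonneg
  rw [star_eq_conjTranspose] at hS
  have dKM : K.det * M.det = 1 := by rw [← det_mul, hK, det_one]
  have dS : K.det = S.det * S.det := by rw [hS, det_mul, det_conjTranspose]; simp
  have dK := pK.det_pos
  have dM := hM.det_pos
  have S0 : S.det ≠ 0 := by intro h; rw [h] at dS; linarith
  have uS : IsUnit S := (isUnit_iff_isUnit_det S).2 (IsUnit.mk0 _ S0)
  have pP : (S * N * Sᴴ).PosDef :=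
    hN.mul_mul_conjTranspose_same (Matrix.vecMul_injective_iff_isUnit.2 uS)
  have tP : (S * N * Sᴴ).trace = Fintype.card V := by
    rw [← ht, hS, Matrix.mul_assoc, trace_mul_comm, Matrix.mul_assoc]
  have dP : (S * N * Sᴴ).det = N.det * K.det := by
    rw [det_mul, det_mul, det_conjTranspose, dS]; simp; ring
  have e1 := pP.1.det_eq_prod_eigenvalues
  have e2 := pP.1.trace_eq_sum_eigenvalues
  have ep := pP.eigenvalues_pos
  simp only [RCLike.ofReal_real_eq_id, id] at e1 e2
  have lg : Real.log (N.det * K.det) = ∑ i, Real.log (pP.1.eigenvalues i) := by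
    rw [← dP, e1, Real.log_prod fun i _ => (ep i).ne']
  have sm : ∑ i, (pP.1.eigenvalues i - 1) = 0 := by
    rw [Finset.sum_sub_distrib, ← e2, tP]; simp
  have le1 : ∀ i, Real.log (pP.1.eigenvalues i) ≤ pP.1.eigenvalues i - 1 := fun i =>
    Real.log_le_sub_one_of_pos (ep i)
  have pos : 0 < N.det * K.det := mul_pos hN.det_pos dK
  constructor
  · have : Real.log (N.det * K.det) ≤ 0 := by
      rw [lg]; exact (Finset.sum_le_sum fun i _ => le1 i).trans sm.le
    have h1 : N.det * K.det ≤ 1 := (Real.log_nonpos_iff pos.le).1 this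
    nlinarith
  · intro h
    have h1 : 1 ≤ N.det * K.det := by nlinarith
    have h2 : 0 ≤ Real.log (N.det * K.det) := Real.log_nonneg h1
    have all : ∀ i, pP.1.eigenvalues i = 1 := by
      intro i
      by_contra hne
      have : ∑ i, Real.log (pP.1.eigenvalues i) < ∑ i, (pP.1.eigenvalues i - 1) :=
        Finset.sum_lt_sum (fun j _ => le1 j)
          ⟨i, Finset.mem_univ i, Real.log_lt_sub_one_of_pos (ep i) hne⟩
      linarith
    have P1 : S * N * Sᴴ = 1 := by
      have sp := pP.1.spectral_theorem
      have : (diagonal (RCLike.ofReal ∘ pP.1.eigenvalues) : Matrix V V ℝ) = 1 := by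
        rw [← diagonal_one]
        exact congrArg diagonal (funext fun i => all i)
      rw [this, map_one] at sp
      exact sp
    have q1 : Sᴴ * (S * N) = 1 := mul_eq_one_comm.1 P1
    have q2 : K * N = 1 := by rw [hS, Matrix.mul_assoc]; exact q1
    calc N = (M * K) * N := by rw [mul_eq_one_comm.1 hK, Matrix.one_mul]
      _ = M := by rw [Matrix.mul_assoc, q2, Matrix.mul_one]

end Pool.Agent.H19.MaxDet
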