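import Mathlib

set_option autoImplicit false

namespace Pool.Agent.H19.TwoSat
open SimpleGraph Finset

variable {V : Type} [Fintype V] [DecidableEq V] (G : SimpleGraph V)

theorem force (M : V → Finset (Fin 3)) (v : V) (c : Fin 3) (hc : c ∈ M v) :
    ∃ R : Finset (V × Fin 3), (∃ O : Finset (V × V), (v, c) ∈ R ∧ (∀ p ∈ R, p.2 ∈ M p.1) ∧
      (∀ e ∈ O, G.Adj e.1 e.2) ∧ O.card ≤ R.card ∧
      (∀ φ : V → Fin 3, (∀ w, (M w).card = 2 → φ w ∈ M w) → φ v = c → (∀ e ∈ O, φ e.1 ≠ φ e.2) →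
        ∀ p ∈ R, φ p.1 = p.2)) ∧
      ∀ p ∈ R, ∀ u a, G.Adj p.1 u → (M u).card = 2 → p.2 ∈ M u → a ∈ M u → a ≠ p.2 →
        (u, a) ∈ R := by
  classical
  obtain ⟨R, hR, hmax⟩ := Finset.exists_max_image
    (univ.filter fun R : Finset (V × Fin 3) => ∃ O : Finset (V × V), (v, c) ∈ R ∧
      (∀ p ∈ R, p.2 ∈ M p.1) ∧ (∀ e ∈ O, G.Adj e.1 e.2) ∧ O.card ≤ R.card ∧
      (∀ φ : V → Fin 3, (∀ w, (M w).card = 2 → φ w ∈ M w) → φ v = c → (∀ e ∈ O, φ e.1 ≠ φ e.2) →
        ∀ p ∈ R, φ p.1 = p.2)) Finset.card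
    ⟨{(v, c)}, by
      rw [mem_filter]
      refine ⟨mem_univ _, ∅, by simp, by simpa using hc, by simp, by simp, ?_⟩
      intro φ _ h _ p hp
      rw [mem_singleton] at hp
      rw [hp]; exact h⟩
  rw [mem_filter] at hR
  refine ⟨R, hR.2, ?_⟩
  obtain ⟨O, h1, h2, h3, h4, h5⟩ := hR.2
  intro p hp u a hadj hcard hpu ha hne
  by_contra hnot
  have := hmax (insert (u, a) R) (by
    rw [mem_filter]
    refine ⟨mem_univ _, insert (p.1, u) O, mem_insert_of_mem h1, ?_, ?_, ?_, ?_⟩
    · intro q hq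
      rcases mem_insert.mp hq with rfl | hq
      · exact ha
      · exact h2 q hq
    · intro e he
      rcases mem_insert.mp he with rfl | he
      · exact hadj
      · exact h3 e he
    · rw [card_insert_of_notMem hnot]
      exact (card_insert_le _ _).trans (by omega)
    · intro φ hφ hv hO q hq
      have hR' := h5 φ hφ hv (fun e he => hO e (mem_insert_of_mem he))
      rcases mem_insert.mp hq with rfl | hq
      · have e1 := hR' p hp
        have e2 := hO _ (mem_insert_self _ _)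
        have e3 := hφ u hcard
        simp only at e2 ⊢
        rw [e1] at e2
        by_contra e4
        have : ({φ u, a, p.2} : Finset (Fin 3)) ⊆ M u := by
          intro z hz
          simp only [mem_insert, mem_singleton] at hz
          rcases hz with rfl | rfl | rfl <;> assumption
        have h6 := card_le_card this
        rw [card_eq_three.mpr ⟨_, _, _, e4, e2.symm, hne, rfl⟩] at h6
        omega
      · exact hR' q hq)
  rw [card_insert_of_notMem hnot] at this
  omega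

def Bad (M : V → Finset (Fin 3)) (v : V) (c : Fin 3) : Prop :=
  ∃ (O : Finset (V × V)) (U : Finset V), O.card ≤ 3 * Fintype.card V + 1 ∧ U.card ≤ 1 ∧
    (∀ e ∈ O, G.Adj e.1 e.2) ∧ ∀ φ : V → Fin 3, (∀ w, (M w).card = 2 → φ w ∈ M w) →
      (∀ w ∈ U, φ w ∈ M w) → (∀ e ∈ O, φ e.1 ≠ φ e.2) → φ v ≠ c

def Aut (M : V → Finset (Fin 3)) (R : Finset (V × Fin 3)) : Prop :=
  (∀ p ∈ R, p.2 ∈ M p.1) ∧ (∀ p ∈ R, ∀ q ∈ R, p.1 = q.1 → p.2 = q.2) ∧
    ∀ p ∈ R, ∀ u, G.Adj p.1 u → p.2 ∈ M u → ∃ a, a ≠ p.2 ∧ (u, a) ∈ R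

theorem aut_of_not_bad (M : V → Finset (Fin 3)) (hM : ∀ w, (M w).card ≤ 2) (v : V) (c : Fin 3)
    (hc : c ∈ M v) (hb : ¬ Bad G M v c) : ∃ R, Aut G M R ∧ (v, c) ∈ R := by
  obtain ⟨R, ⟨O, h1, h2, h3, h4, h5⟩, h6⟩ := force G M v c hc
  have hR : R.card ≤ 3 * Fintype.card V := by
    have := card_le_univ R
    rw [Fintype.card_prod, Fintype.card_fin] at this
    omega
  refine ⟨R, ⟨h2, ?_, ?_⟩, h1⟩
  · intro p hp q hq hpq
    by_contra hne
    refine hb ⟨O, ∅, by omega, by simp, h3, fun φ hφ _ hO hv => hne ?_⟩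
    rw [← h5 φ hφ hv hO p hp, ← h5 φ hφ hv hO q hq, hpq]
  · intro p hp u hadj hpu
    by_cases hcard : (M u).card = 2
    · obtain ⟨a, ha, hne⟩ := Finset.exists_mem_ne (s := M u) (by omega) p.2
      exact ⟨a, hne, h6 p hp u a hadj hcard hpu ha hne⟩
    · exfalso
      have h7 : (M u).card ≤ 1 := by have := hM u; omega
      refine hb ⟨insert (p.1, u) O, {u}, (card_insert_le _ _).trans (by omega), by simp, ?_, ?_⟩
      · intro e he
        rcases mem_insert.mp he with rfl | he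
        · exact hadj
        · exact h3 e he
      · intro φ hφ hU hO hv
        have e1 := h5 φ hφ hv (fun e he => hO e (mem_insert_of_mem he)) p hp
        have e2 := hO _ (mem_insert_self _ _)
        have e3 := hU u (mem_singleton_self _)
        exact e2 (e1.trans (card_le_one.mp h7 _ hpu _ e3))

theorem col_of_aut (M : V → Finset (Fin 3)) (h : ∀ v, ∃ c R, Aut G M R ∧ (v, c) ∈ R) :
    G.Colorable 3 := by
  classical
  obtain ⟨A, hA, hmax⟩ := Finset.exists_max_image
    (univ.filter fun R : Finset (V × Fin 3) => Aut G M R) Finset.card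
    ⟨∅, by rw [mem_filter]; exact ⟨mem_univ _, by simp, by simp, by simp⟩⟩
  rw [mem_filter] at hA
  obtain ⟨-, a1, a2, a3⟩ := hA
  have hall : ∀ v, ∃ c, (v, c) ∈ A := by
    intro v
    by_contra hv
    obtain ⟨c, R, ⟨r1, r2, r3⟩, hvc⟩ := h v
    have := hmax (A ∪ R.filter fun p => ¬ ∃ b, (p.1, b) ∈ A) (by
      rw [mem_filter]
      refine ⟨mem_univ _, ?_, ?_, ?_⟩
      · intro p hp
        rcases mem_union.mp hp with hp | hp
        · exact a1 p hp
        · exact r1 p (mem_filter.mp hp).1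
      · intro p hp q hq hpq
        rcases mem_union.mp hp with hp | hp <;> rcases mem_union.mp hq with hq | hq
        · exact a2 p hp q hq hpq
        · exact absurd ⟨p.2, hpq ▸ hp⟩ (mem_filter.mp hq).2
        · exact absurd ⟨q.2, hpq.symm ▸ hq⟩ (mem_filter.mp hp).2
        · exact r2 p (mem_filter.mp hp).1 q (mem_filter.mp hq).1 hpq
      · intro p hp u hadj hpu
        rcases mem_union.mp hp with hp | hp
        · obtain ⟨a, ha, hu⟩ := a3 p hp u hadj hpu
          exact ⟨a, ha, mem_union_left _ hu⟩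
        · obtain ⟨hp1, hp2⟩ := mem_filter.mp hp
          by_cases hu : ∃ b, (u, b) ∈ A
          · obtain ⟨b, hb⟩ := hu
            refine ⟨b, fun e => hp2 ?_, mem_union_left _ hb⟩
            obtain ⟨a, -, ha⟩ := a3 (u, b) hb p.1 hadj.symm (by simpa [e] using r1 p hp1)
            exact ⟨a, ha⟩
          · obtain ⟨a, ha, hu'⟩ := r3 p hp1 u hadj hpu
            exact ⟨a, ha, mem_union_right _ (mem_filter.mpr ⟨hu', hu⟩)⟩)
    have h2 : A ⊂ A ∪ R.filter fun p => ¬ ∃ b, (p.1, b) ∈ A := by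
      refine ⟨subset_union_left, fun hs => hv ⟨c, hs ?_⟩⟩
      exact mem_union_right _ (mem_filter.mpr ⟨hvc, hv⟩)
    have := card_lt_card h2
    omega
  choose φ hφ using hall
  refine ⟨Coloring.mk φ ?_⟩
  intro v u hadj e
  obtain ⟨a, ha, hu⟩ := a3 _ (hφ v) u hadj (by simpa [e] using a1 _ (hφ u))
  exact ha ((a2 _ hu _ (hφ u) rfl).trans e.symm)

/-- An uncolourable list assignment with lists of size one or two has an obstruction with
few edges that uses at most two lists of size one. -/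
theorem obstruction (hG : ¬ G.Colorable 3) (M : V → Finset (Fin 3)) (hM : ∀ w, (M w).card ≤ 2)
    (hM0 : ∀ w, (M w).Nonempty) :
    ∃ (O : Finset (V × V)) (U : Finset V), O.card ≤ 6 * Fintype.card V + 2 ∧ U.card ≤ 2 ∧
      (∀ e ∈ O, G.Adj e.1 e.2) ∧ ∀ φ : V → Fin 3, (∀ w, (M w).card = 2 → φ w ∈ M w) →
        (∀ w ∈ U, φ w ∈ M w) → ∃ e ∈ O, φ e.1 = φ e.2 := by
  have h : ∃ v, ∀ c ∈ M v, Bad G M v c := by
    by_contra h
    push Not at h
    refine hG (col_of_aut G M fun v => ?_)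
    obtain ⟨c, hc, hb⟩ := h v
    exact ⟨c, aut_of_not_bad G M hM v c hc hb⟩
  obtain ⟨v, hv⟩ := h
  by_cases hcard : (M v).card = 2
  · obtain ⟨a, b, -, hab⟩ := card_eq_two.mp hcard
    obtain ⟨O1, U1, p1, p2, p3, p4⟩ := hv a (by simp [hab])
    obtain ⟨O2, U2, q1, q2, q3, q4⟩ := hv b (by simp [hab])
    refine ⟨O1 ∪ O2, U1 ∪ U2, (card_union_le _ _).trans (by omega),
      (card_union_le _ _).trans (by omega), ?_, ?_⟩
    · intro e he
      rcases mem_union.mp he with he | he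
      · exact p3 e he
      · exact q3 e he
    · intro φ hφ hU
      by_contra hO
      push Not at hO
      have e1 := p4 φ hφ (fun w hw => hU w (mem_union_left _ hw))
        (fun e he => hO e (mem_union_left _ he))
      have e2 := q4 φ hφ (fun w hw => hU w (mem_union_right _ hw))
        (fun e he => hO e (mem_union_right _ he))
      have e3 := hφ v hcard
      rw [hab] at e3
      simp [e1, e2] at e3
  · obtain ⟨a, ha⟩ := hM0 v
    have h7 : (M v).card ≤ 1 := by have := hM v; omega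
    obtain ⟨O1, U1, p1, p2, p3, p4⟩ := hv a ha
    refine ⟨O1, insert v U1, by omega, (card_insert_le _ _).trans (by omega), p3, ?_⟩
    intro φ hφ hU
    by_contra hO
    push Not at hO
    exact p4 φ hφ (fun w hw => hU w (mem_insert_of_mem hw)) hO
      (card_le_one.mp h7 _ (hU v (mem_insert_self _ _)) _ ha)

end Pool.Agent.H19.TwoSat
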