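import Mathlib
import Pool.Agent.H19.TwoSat

set_option autoImplicit false

namespace Pool.Agent.H19.MinDeg4
open SimpleGraph Finset Classical

variable {V : Type} [Fintype V] [DecidableEq V] (G : SimpleGraph V)

def Good (φ : V → Fin 3) (x y : V) : Prop :=
  ∀ u w, G.Adj u w → φ u = φ w → (u = x ∧ w = y) ∨ (u = y ∧ w = x)

noncomputable def E (L : V → Finset (Fin 3)) : Finset (V × V) :=
  univ.filter fun d => G.Adj d.1 d.2 ∧ ∃ φ, Good G φ d.1 d.2 ∧ ∀ v, φ v ∈ L v

noncomputable def dg (v : V) : ℕ := (univ.filter fun u => G.Adj v u).card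

noncomputable def gain (L : V → Finset (Fin 3)) (v : V) (c : Fin 3) : ℕ :=
  (univ.filter fun u => G.Adj v u ∧ c ∈ L u).card

noncomputable def cut (L : V → Finset (Fin 3)) (v : V) (c : Fin 3) (u : V) : Finset (Fin 3) :=
  if G.Adj v u then (L u).erase c else L u

theorem cut_sum (L : V → Finset (Fin 3)) (v : V) (c : Fin 3) :
    ∑ u, (cut G L v c u).card + gain G L v c = ∑ u, (L u).card := by
  unfold gain
  rw [card_filter, ← sum_add_distrib]
  refine sum_congr rfl fun u _ => ?_
  unfold cut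
  by_cases h1 : G.Adj v u <;> by_cases h2 : c ∈ L u <;> simp [h1, h2]
  have := card_pos.mpr ⟨c, h2⟩
  omega

theorem typical (L : V → Finset (Fin 3)) (v : V) (h : ∀ u, G.Adj v u → 2 ≤ (L u).card) :
    ∃ τ : Fin 3, ∀ c, c ≠ τ → dg G v ≤ 2 * gain G L v c := by
  obtain ⟨τ, -, hτ⟩ := Finset.exists_min_image univ (gain G L v) univ_nonempty
  refine ⟨τ, fun c hc => ?_⟩
  have h1 := hτ c (mem_univ _)
  have h2 : dg G v ≤ gain G L v c + gain G L v τ := by
    unfold dg gain
    refine (card_le_card ?_).trans (card_union_le _ _)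
    intro u hu
    simp only [mem_filter, mem_univ, true_and, mem_union] at hu ⊢
    have h3 := h u hu
    have key : ∀ (S : Finset (Fin 3)) (a b : Fin 3), a ≠ b → 2 ≤ S.card → a ∈ S ∨ b ∈ S := by
      decide
    rcases key _ _ _ hc h3 with h4 | h4
    · exact Or.inl ⟨hu, h4⟩
    · exact Or.inr ⟨hu, h4⟩
  omega

theorem defaults (L : V → Finset (Fin 3)) (hL : ∀ v, (L v).Nonempty) (v : V) :
    ∃ (S : Finset (Fin 3)) (u : V), S.Nonempty ∧ S.card ≤ 2 ∧
      ∀ φ : V → Fin 3, (∀ w, φ w ∈ L w) → (G.Adj v u → φ v ≠ φ u) → φ v ∉ S →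
        S.card ≠ 2 ∧ dg G v ≤ 2 * gain G L v (φ v) := by
  by_cases h1 : (L v).card ≤ 2
  · exact ⟨L v, v, hL v, h1, fun φ hφ _ h => absurd (hφ v) h⟩
  by_cases h2 : ∀ u, G.Adj v u → 2 ≤ (L u).card
  · obtain ⟨τ, hτ⟩ := typical G L v h2
    exact ⟨{τ}, v, by simp, by simp, fun φ _ _ h => ⟨by simp, hτ _ (by simpa using h)⟩⟩
  · push Not at h2
    obtain ⟨u, hu, h3⟩ := h2
    obtain ⟨a, ha⟩ := hL u
    refine ⟨univ.erase a, u, ?_, by simp, fun φ hφ h4 h => ?_⟩
    · rw [← card_pos]; simp
    · exfalso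
      apply h
      rw [mem_erase]
      refine ⟨fun e => h4 hu ?_, mem_univ _⟩
      rw [e]
      exact card_le_one.mp (by omega) _ ha _ (hφ u)

def K : ℕ → ℕ
  | 0 => 0
  | k + 1 => 6 * K k + 30

theorem bound (hG : ¬ G.Colorable 3) (δ : ℕ) (hδ : ∀ v, δ ≤ dg G v) (k : ℕ) :
    ∀ L : V → Finset (Fin 3), 2 * ∑ u, (L u).card ≤ k * δ →
      (E G L).card ≤ K k * Fintype.card V := by
  have hempty : ∀ L : V → Finset (Fin 3), (∃ v, L v = ∅) → (E G L).card = 0 := by
    rintro L ⟨v, hv⟩
    rw [card_eq_zero, eq_empty_iff_forall_notMem]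
    intro d hd
    obtain ⟨-, φ, -, h⟩ := (mem_filter.mp hd).2
    simpa [hv] using h v
  have hV : Nonempty V := by
    by_contra h
    rw [not_nonempty_iff] at h
    exact hG ⟨Coloring.mk (fun _ => 0) (fun {v} => isEmptyElim v)⟩
  have hn : 1 ≤ Fintype.card V := Fintype.card_pos
  induction k with
  | zero =>
    intro L hL
    obtain ⟨v⟩ := hV
    have h1 : (L v).card ≤ ∑ u, (L u).card :=
      single_le_sum (f := fun u => (L u).card) (fun _ _ => Nat.zero_le _) (mem_univ v)
    rw [hempty L ⟨v, card_eq_zero.mp (by omega)⟩]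
    exact Nat.zero_le _
  | succ k ih =>
    intro L hL
    by_cases h0 : ∃ v, L v = ∅
    · rw [hempty L h0]; exact Nat.zero_le _
    push Not at h0
    choose M w hM0 hM2 hM using defaults G L h0
    obtain ⟨O, U, hO, hU, hOadj, hob⟩ := TwoSat.obstruction G hG M hM2 hM0
    let O1 : Finset (V × V) := O ∪ univ.image fun v => (v, w v)
    have hO1 : O1.card ≤ 9 * Fintype.card V := by
      refine (card_union_le _ _).trans ?_
      have : (univ.image fun v => (v, w v)).card ≤ Fintype.card V := card_image_le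
      omega
    let B : Finset (V × Fin 3) := (U ×ˢ univ).filter fun p => dg G p.1 ≤ 2 * gain G L p.1 p.2
    have hB : B.card ≤ 6 := by
      refine (card_filter_le _ _).trans ?_
      rw [card_product, card_univ, Fintype.card_fin]
      omega
    let T : V × Fin 3 → Finset (V × V) := fun p => E G (cut G L p.1 p.2) ∪
      ((univ.image fun v => (p.1, v)) ∪ univ.image fun v => (v, p.1))
    have hT : ∀ p ∈ B, (T p).card ≤ (K k + 2) * Fintype.card V := by
      intro p hp
      have h1 := (mem_filter.mp hp).2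
      have h2 := cut_sum G L p.1 p.2
      have h3 := hδ p.1
      have h4 := ih (cut G L p.1 p.2) (by rw [add_mul] at hL; omega)
      have h5 : (univ.image fun v => (p.1, v)).card ≤ Fintype.card V := card_image_le
      have h6 : (univ.image fun v => (v, p.1)).card ≤ Fintype.card V := card_image_le
      refine (card_union_le _ _).trans ?_
      have h7 := card_union_le (univ.image fun v => (p.1, v)) (univ.image fun v => (v, p.1))
      rw [add_mul]
      omega
    have hsub : E G L ⊆ (O1 ∪ O1.image Prod.swap) ∪ B.biUnion T := by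
      rintro ⟨x, y⟩ hd
      obtain ⟨hxy, φ, hφ, hφL⟩ := (mem_filter.mp hd).2
      by_contra hc
      rw [mem_union, mem_union, not_or, not_or] at hc
      obtain ⟨⟨c1, c2⟩, c3⟩ := hc
      have hp : ∀ e ∈ O1, G.Adj e.1 e.2 → φ e.1 ≠ φ e.2 := by
        rintro ⟨a, b⟩ he hadj h
        rcases hφ _ _ hadj h with ⟨h1, h2⟩ | ⟨h1, h2⟩
        · simp only at h1 h2
          subst h1 h2
          exact c1 he
        · simp only at h1 h2
          subst h1 h2
          exact c2 (mem_image.mpr ⟨_, he, rfl⟩)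
      have hM' := fun v => hM v φ hφL
        (hp (v, w v) (mem_union_right _ (mem_image.mpr ⟨v, mem_univ _, rfl⟩)))
      have hU' : ∃ u ∈ U, φ u ∉ M u := by
        by_contra h
        push Not at h
        obtain ⟨e, he, h1⟩ := hob φ (fun v hv => by
          by_contra h2
          exact (hM' v h2).1 hv) h
        exact hp e (mem_union_left _ he) (hOadj e he) h1
      obtain ⟨u, hu, hu'⟩ := hU'
      apply c3
      rw [mem_biUnion]
      refine ⟨(u, φ u), mem_filter.mpr ⟨mem_product.mpr ⟨hu, mem_univ _⟩, (hM' u hu').2⟩, ?_⟩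
      by_cases hx : u = x
      · exact mem_union_right _ (mem_union_left _ (mem_image.mpr ⟨y, mem_univ _, by simp [hx]⟩))
      by_cases hy : u = y
      · exact mem_union_right _ (mem_union_right _ (mem_image.mpr ⟨x, mem_univ _, by simp [hy]⟩))
      refine mem_union_left _ (mem_filter.mpr ⟨mem_univ _, hxy, φ, hφ, fun v => ?_⟩)
      unfold cut
      split_ifs with hadj
      · refine mem_erase.mpr ⟨fun e => ?_, hφL v⟩
        rcases hφ _ _ hadj e.symm with h | h
        · exact hx h.1
        · exact hy h.1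
      · exact hφL v
    have h1 := card_le_card hsub
    have h2 := card_union_le (O1 ∪ O1.image Prod.swap) (B.biUnion T)
    have h3 := card_union_le O1 (O1.image Prod.swap)
    have h4 : (O1.image Prod.swap).card ≤ O1.card := card_image_le
    have h5 : (B.biUnion T).card ≤ B.card * ((K k + 2) * Fintype.card V) :=
      card_biUnion_le_card_mul _ _ _ hT
    have h6 : B.card * ((K k + 2) * Fintype.card V) ≤ 6 * ((K k + 2) * Fintype.card V) :=
      Nat.mul_le_mul_right _ hB
    have h7 : K (k + 1) * Fintype.card V =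
        18 * Fintype.card V + 6 * ((K k + 2) * Fintype.card V) := by
      rw [K]; ring
    omega

theorem mindeg (hG : ¬ G.Colorable 3)
    (hc : ∀ x y, G.Adj x y → (G.deleteEdges {s(x, y)}).Colorable 3)
    (δ : ℕ) (hδ : ∀ v, δ ≤ dg G v) (k : ℕ) (hk : 6 * Fintype.card V ≤ k * δ) : δ ≤ K k := by
  have hV : Nonempty V := by
    by_contra h
    rw [not_nonempty_iff] at h
    exact hG ⟨Coloring.mk (fun _ => 0) (fun {v} => isEmptyElim v)⟩
  have hn : 0 < Fintype.card V := Fintype.card_pos
  have h1 := bound G hG δ hδ k (fun _ => univ) (by simp; omega)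
  have h2 : E G (fun _ => univ) = univ.filter fun d : V × V => G.Adj d.1 d.2 := by
    ext ⟨x, y⟩
    simp only [E, mem_filter, mem_univ, true_and, implies_true, and_true, and_iff_left_iff_imp]
    intro h
    obtain ⟨φ⟩ := hc x y h
    refine ⟨φ, fun u w huw e => ?_⟩
    by_contra h3
    refine φ.valid (v := u) (w := w) ?_ e
    rw [deleteEdges_adj]
    refine ⟨huw, fun h4 => h3 ?_⟩
    simpa using h4
  have h3 : (univ.filter fun d : V × V => G.Adj d.1 d.2).card = ∑ v, dg G v := by
    unfold dg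
    simp only [card_filter]
    rw [Fintype.sum_prod_type]
  have h4 : Fintype.card V * δ ≤ ∑ v, dg G v := by
    have := card_nsmul_le_sum univ (dg G) δ (fun v _ => hδ v)
    simpa using this
  rw [h2, h3] at h1
  have h5 : Fintype.card V * δ ≤ Fintype.card V * K k := by
    rw [mul_comm _ (K k)]; omega
  exact Nat.le_of_mul_le_mul_left h5 hn

theorem main : ¬ (∃ c : ℝ, 0 < c ∧ ∀ N : ℕ, ∃ n : ℕ, N ≤ n ∧
      ∃ G : SimpleGraph (Fin n),
        G.chromaticNumber = 4 ∧
        (∀ e ∈ G.edgeSet, (G.deleteEdges {e}).chromaticNumber = 3) ∧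
        ∀ v : Fin n, c * (n : ℝ) ≤ (Nat.card (G.neighborSet v) : ℝ)) := by
  rintro ⟨c, hc, h⟩
  obtain ⟨k, hk⟩ := exists_nat_ge (6 / c)
  obtain ⟨N, hN⟩ := exists_nat_gt ((K k : ℝ) / c)
  obtain ⟨n, hn, G, h1, h2, h3⟩ := h N
  have hG : ¬ G.Colorable 3 := by
    intro h4
    have := h4.chromaticNumber_le
    rw [h1] at this
    exact absurd this (by decide)
  have h5 := mindeg G hG (fun x y hxy => by
    rw [← chromaticNumber_le_iff_colorable, h2 _ (by simpa using hxy)]
    rfl) ⌈c * n⌉₊ (fun v => by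
    rw [Nat.ceil_le]
    refine (h3 v).trans (le_of_eq ?_)
    congr 1
    unfold dg
    rw [Nat.card_eq_fintype_card, Fintype.card_subtype]
    congr 1) k (by
    have h6 := Nat.le_ceil (c * n)
    rw [div_le_iff₀ hc] at hk
    have h7 : (6 * n : ℝ) ≤ k * ⌈c * n⌉₊ := by
      have h8 : (0 : ℝ) ≤ n := Nat.cast_nonneg _
      have h9 : (0 : ℝ) ≤ k := Nat.cast_nonneg _
      nlinarith
    rw [Fintype.card_fin]
    exact_mod_cast h7)
  have h6 := Nat.le_ceil (c * n)
  have h7 : (⌈c * n⌉₊ : ℝ) ≤ K k := by exact_mod_cast h5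
  have h8 : (N : ℝ) ≤ n := by exact_mod_cast hn
  rw [div_lt_iff₀ hc] at hN
  nlinarith

end Pool.Agent.H19.MinDeg4
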