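import Mathlib
import Pool.Agent.H19.Stiebitz

set_option autoImplicit false

namespace Pool.Agent.H19.MinDeg5
open SimpleGraph

def cyc (N i j : ℕ) : Prop := j = i + 1 ∨ (i + 1 = N ∧ j = 0)

/-- parts: 0 = A, 1 = D (odd cycles), 2 = M1, 3 = M2, 4 = B, 5 = C -/
def R (N : ℕ) (x y : Fin 6 × Fin N) : Prop :=
  (x.1 = 0 ∧ y.1 = 0 ∧ cyc N x.2 y.2) ∨ (x.1 = 1 ∧ y.1 = 1 ∧ cyc N x.2 y.2) ∨
  (x.1 = 0 ∧ y.1 = 2) ∨ (x.1 = 1 ∧ y.1 = 3) ∨ (x.1 = 4 ∧ y.1 = 5) ∨
  (x.1 = 0 ∧ y.1 = 4 ∧ x.2 = y.2) ∨ (x.1 = 1 ∧ y.1 = 5 ∧ x.2 = y.2) ∨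
  (x.1 = 1 ∧ y.1 = 2 ∧ x.2 = y.2) ∨ (x.1 = 4 ∧ y.1 = 3 ∧ x.2 = y.2) ∨
  (x.1 = 5 ∧ y.1 = 3 ∧ x.2 = y.2)

def F (N : ℕ) : SimpleGraph (Fin 6 × Fin N) := SimpleGraph.fromRel (R N)

theorem odd (k : ℕ) (f : Fin (2 * k + 3) → Fin 4)
    (hf : ∀ i j : Fin (2 * k + 3), cyc (2 * k + 3) i j → f i ≠ f j) (x y : Fin 4) (hxy : x ≠ y) :
    ∃ i, f i = x ∨ f i = y := by
  by_contra hc
  push Not at hc
  have key : ∀ a b c x y : Fin 4, x ≠ y → a ≠ x → a ≠ y → b ≠ x → b ≠ y → c ≠ x → c ≠ y →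
      a ≠ b → b ≠ c → a = c := by decide
  have h : ∀ m (hm : 2 * m < 2 * k + 3), f ⟨0, by omega⟩ = f ⟨2 * m, hm⟩ := by
    intro m
    induction m with
    | zero => intro hm; rfl
    | succ m ih =>
      intro hm
      rw [ih (by omega)]
      exact key _ (f ⟨2 * m + 1, by omega⟩) _ x y hxy (hc _).1 (hc _).2 (hc _).1 (hc _).2
        (hc _).1 (hc _).2 (hf _ _ (Or.inl rfl)) (hf _ _ (Or.inl (by simp; omega)))
  exact hf ⟨2 * (k + 1), by omega⟩ ⟨0, by omega⟩ (Or.inr ⟨by simp; omega, rfl⟩)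
    (h (k + 1) (by omega)).symm

theorem adj_of (N : ℕ) (x y : Fin 6 × Fin N) (h : R N x y) (hne : x ≠ y) : (F N).Adj x y := by
  unfold F
  rw [fromRel_adj]
  exact ⟨hne, Or.inl h⟩

theorem not_col (k : ℕ) : ¬ (F (2 * k + 3)).Colorable 4 := by
  rintro ⟨c⟩
  have E : ∀ (s t : Fin 6) (i j : Fin (2 * k + 3)), s ≠ t → R _ (s, i) (t, j) →
      c (s, i) ≠ c (t, j) := fun s t i j hst h =>
    c.valid (adj_of _ _ _ h (fun e => hst (congrArg Prod.fst e)))
  have Cy : ∀ (s : Fin 6), s = 0 ∨ s = 1 → ∀ i j : Fin (2 * k + 3), cyc (2 * k + 3) i j →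
      c (s, i) ≠ c (s, j) := by
    intro s hs i j h
    refine c.valid (adj_of _ _ _ ?_ ?_)
    · rcases hs with rfl | rfl
      · exact Or.inl ⟨rfl, rfl, h⟩
      · exact Or.inr (Or.inl ⟨rfl, rfl, h⟩)
    · intro e
      have : i = j := congrArg Prod.snd e
      subst this
      unfold cyc at h
      omega
  have oA := odd k (fun i => c (0, i)) (Cy 0 (Or.inl rfl))
  have oD := odd k (fun i => c (1, i)) (Cy 1 (Or.inr rfl))
  have e02 : ∀ i j, c (0, i) ≠ c (2, j) := fun i j => E 0 2 i j (by decide) (by simp [R])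
  have e13 : ∀ i j, c (1, i) ≠ c (3, j) := fun i j => E 1 3 i j (by decide) (by simp [R])
  have e45 : ∀ i j, c (4, i) ≠ c (5, j) := fun i j => E 4 5 i j (by decide) (by simp [R])
  have e04 : ∀ i, c (0, i) ≠ c (4, i) := fun i => E 0 4 i i (by decide) (by simp [R])
  have e15 : ∀ i, c (1, i) ≠ c (5, i) := fun i => E 1 5 i i (by decide) (by simp [R])
  have e12 : ∀ i, c (1, i) ≠ c (2, i) := fun i => E 1 2 i i (by decide) (by simp [R])
  have e43 : ∀ i, c (4, i) ≠ c (3, i) := fun i => E 4 3 i i (by decide) (by simp [R])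
  have e53 : ∀ i, c (5, i) ≠ c (3, i) := fun i => E 5 3 i i (by decide) (by simp [R])
  have m1 : ∀ i j, c (2, i) = c (2, j) := by
    intro i j
    by_contra h
    obtain ⟨a, ha | ha⟩ := oA _ _ h
    · exact e02 _ _ ha
    · exact e02 _ _ ha
  have m2 : ∀ i j, c (3, i) = c (3, j) := by
    intro i j
    by_contra h
    obtain ⟨a, ha | ha⟩ := oD _ _ h
    · exact e13 _ _ ha
    · exact e13 _ _ ha
  have m12 : c (2, 0) = c (3, 0) := by
    by_contra h
    obtain ⟨a, ha | ha⟩ := oD _ _ h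
    · exact e12 a (ha.trans (m1 _ _))
    · exact e13 _ _ ha
  have b1 : ∀ i, c (4, i) ≠ c (3, 0) := fun i h => e43 i (h.trans (m2 _ _))
  have c1 : ∀ i, c (5, i) ≠ c (3, 0) := fun i h => e53 i (h.trans (m2 _ _))
  have hb : ∃ i, c (4, i) ≠ c (4, 0) := by
    by_contra h
    push Not at h
    obtain ⟨a, ha | ha⟩ := oA _ _ (b1 0)
    · exact e04 a (ha.trans (h a).symm)
    · exact e02 a 0 (ha.trans m12.symm)
  have hc : ∃ i, c (5, i) ≠ c (5, 0) := by
    by_contra h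
    push Not at h
    obtain ⟨a, ha | ha⟩ := oD _ _ (c1 0)
    · exact e15 a (ha.trans (h a).symm)
    · exact e13 a 0 ha
  obtain ⟨i, hi⟩ := hb
  obtain ⟨j, hj⟩ := hc
  have key : ∀ a b c d e : Fin 4, a ≠ b → c ≠ d → a ≠ c → a ≠ d → b ≠ c → b ≠ d → a ≠ e →
      b ≠ e → c ≠ e → d ≠ e → False := by
    intro a b c d e
    simp only [ne_eq, Fin.ext_iff]
    omega
  exact key _ _ _ _ _ hi hj (e45 _ _) (e45 _ _) (e45 _ _) (e45 _ _) (b1 _) (b1 _) (c1 _) (c1 _)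

def p (N a i : ℕ) : ℕ := if a < i then (i - a) % 2 else (i + N - a) % 2

theorem p_lt (N a i : ℕ) : p N a i < 2 := by
  unfold p; split_ifs <;> omega

theorem p_ne (N a i j : ℕ) (ha : a < N) (hi : i ≠ a) (hj : j ≠ a) (h : cyc N i j) :
    p N a i ≠ p N a j := by
  unfold p; unfold cyc at h
  split_ifs <;> omega

theorem col (N : ℕ) (x y : Fin 6 × Fin N) (f : Fin 6 → ℕ → ℕ) (hf : ∀ s i, f s i < 4)
    (h : ∀ u v, R N u v → u ≠ v → f u.1 u.2 = f v.1 v.2 → u = x ∧ v = y) :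
    ((F N).deleteEdges {s(x, y)}).Colorable 4 := by
  refine ⟨Coloring.mk (fun u => ⟨f u.1 u.2, hf _ _⟩) ?_⟩
  intro u v huv he
  rw [deleteEdges_adj] at huv
  obtain ⟨h1, h2⟩ := huv
  unfold F at h1
  rw [fromRel_adj] at h1
  have he' : f u.1 u.2 = f v.1 v.2 := congrArg Fin.val he
  apply h2
  rcases h1.2 with h3 | h3
  · obtain ⟨rfl, rfl⟩ := h u v h3 h1.1 he'
    simp
  · obtain ⟨rfl, rfl⟩ := h v u h3 h1.1.symm he'.symm
    simp

theorem cycok (N a : ℕ) (ha : a < N) (hN : 3 ≤ N) (g l : ℕ) (o : ℕ) (hl : 0 < l)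
    (hg : g ≠ o) (hg' : g ≠ o + l) (i j : ℕ) (h : cyc N i j) :
    (if i = a then g else o + l * p N a i) ≠ (if j = a then g else o + l * p N a j) := by
  have h1 := p_lt N a i
  have h2 := p_lt N a j
  have h3 := p_ne N a i j ha
  have hij : i ≠ j := by unfold cyc at h; omega
  split_ifs with hi hj hj
  · omega
  · have : p N a j = 0 ∨ p N a j = 1 := by omega
    rcases this with e | e <;> rw [e] <;> omega
  · have : p N a i = 0 ∨ p N a i = 1 := by omega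
    rcases this with e | e <;> rw [e] <;> omega
  · have h4 := h3 hi hj h
    intro e
    have := Nat.eq_of_mul_eq_mul_left hl (Nat.add_left_cancel e)
    exact h4 this

theorem col02 (N : ℕ) (hN : 3 ≤ N) (a m : Fin N) :
    ((F N).deleteEdges {s(((0 : Fin 6), a), ((2 : Fin 6), m))}).Colorable 4 := by
  refine col N _ _ ![fun i => if i = a then 1 else 2 + 1 * p N a i,
    fun i => if i = m then 0 else 2 + 1 * p N m i, fun i => if i = m then 1 else 0, fun _ => 1,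
    fun _ => 0, fun i => if i = m then 2 else 3 - p N m i] ?_ ?_
  · intro s i
    have := p_lt N a i
    have := p_lt N m i
    fin_cases s <;> simp <;> split_ifs <;> omega
  · rintro ⟨s, i⟩ ⟨t, j⟩ h hne he
    have h1 := p_lt N a i
    have h2 := p_lt N m i
    have h3 := p_lt N m j
    simp only [R] at h
    rcases h with ⟨rfl, rfl, h⟩ | ⟨rfl, rfl, h⟩ | ⟨rfl, rfl⟩ | ⟨rfl, rfl⟩ | ⟨rfl, rfl⟩ |
      ⟨rfl, rfl, rfl⟩ | ⟨rfl, rfl, rfl⟩ | ⟨rfl, rfl, rfl⟩ | ⟨rfl, rfl, rfl⟩ | ⟨rfl, rfl, rfl⟩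
    · exact absurd he (cycok N a a.2 hN 1 1 2 (by omega) (by omega) (by omega) i j h)
    · exact absurd he (cycok N m m.2 hN 0 1 2 (by omega) (by omega) (by omega) i j h)
    all_goals
      simp only [Prod.mk.injEq, Fin.ext_iff] at *
      simp at he ⊢
      try (split_ifs at he <;> omega)

theorem col13 (N : ℕ) (hN : 3 ≤ N) (a m : Fin N) :
    ((F N).deleteEdges {s(((1 : Fin 6), a), ((3 : Fin 6), m))}).Colorable 4 := by
  refine col N _ _ ![fun i => if i = m then 1 else 2 + 1 * p N m i,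
    fun i => if i = a then 1 else 2 + 1 * p N a i, fun _ => 0, fun i => if i = m then 1 else 0,
    fun i => if i = m then 0 else 1, fun i => if i = a then 2 else 3 - p N a i] ?_ ?_
  · intro s i
    have := p_lt N a i
    have := p_lt N m i
    fin_cases s <;> simp <;> split_ifs <;> omega
  · rintro ⟨s, i⟩ ⟨t, j⟩ h hne he
    have h1 := p_lt N a i
    have h2 := p_lt N m i
    have h3 := p_lt N a j
    simp only [R] at h
    rcases h with ⟨rfl, rfl, h⟩ | ⟨rfl, rfl, h⟩ | ⟨rfl, rfl⟩ | ⟨rfl, rfl⟩ | ⟨rfl, rfl⟩ |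
      ⟨rfl, rfl, rfl⟩ | ⟨rfl, rfl, rfl⟩ | ⟨rfl, rfl, rfl⟩ | ⟨rfl, rfl, rfl⟩ | ⟨rfl, rfl, rfl⟩
    · exact absurd he (cycok N m m.2 hN 1 1 2 (by omega) (by omega) (by omega) i j h)
    · exact absurd he (cycok N a a.2 hN 1 1 2 (by omega) (by omega) (by omega) i j h)
    all_goals
      simp only [Prod.mk.injEq, Fin.ext_iff] at *
      simp at he ⊢
      try (split_ifs at he <;> omega)

theorem col45 (N : ℕ) (hN : 3 ≤ N) (a m : Fin N) :
    ((F N).deleteEdges {s(((4 : Fin 6), a), ((5 : Fin 6), m))}).Colorable 4 := by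
  refine col N _ _ ![fun i => if i = a then 1 else 2 + 1 * p N a i,
    fun i => if i = m then 2 else 1 + 2 * p N m i, fun _ => 0, fun _ => 0,
    fun i => if i = a then 3 else 1, fun i => if i = m then 3 else 2] ?_ ?_
  · intro s i
    have := p_lt N a i
    have := p_lt N m i
    fin_cases s <;> simp <;> split_ifs <;> omega
  · rintro ⟨s, i⟩ ⟨t, j⟩ h hne he
    have h1 := p_lt N a i
    have h2 := p_lt N m i
    simp only [R] at h
    rcases h with ⟨rfl, rfl, h⟩ | ⟨rfl, rfl, h⟩ | ⟨rfl, rfl⟩ | ⟨rfl, rfl⟩ | ⟨rfl, rfl⟩ |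
      ⟨rfl, rfl, rfl⟩ | ⟨rfl, rfl, rfl⟩ | ⟨rfl, rfl, rfl⟩ | ⟨rfl, rfl, rfl⟩ | ⟨rfl, rfl, rfl⟩
    · exact absurd he (cycok N a a.2 hN 1 1 2 (by omega) (by omega) (by omega) i j h)
    · exact absurd he (cycok N m m.2 hN 2 2 1 (by omega) (by omega) (by omega) i j h)
    all_goals
      simp only [Prod.mk.injEq, Fin.ext_iff] at *
      simp at he ⊢
      try (split_ifs at he <;> omega)

theorem partner (N : ℕ) (hN : 3 ≤ N) (s : Fin 6) : ∃ t : Fin 6, ∀ i j : Fin N,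
    (F N).Adj (s, i) (t, j) ∧ ((F N).deleteEdges {s((s, i), (t, j))}).Colorable 4 := by
  have A : ∀ (s t : Fin 6) (i j : Fin N), s ≠ t → R _ (s, i) (t, j) → (F N).Adj (s, i) (t, j) :=
    fun s t i j hst h => adj_of _ _ _ h (fun e => hst (congrArg Prod.fst e))
  fin_cases s
  · exact ⟨2, fun i j => ⟨A 0 2 i j (by decide) (by simp [R]), col02 N hN i j⟩⟩
  · exact ⟨3, fun i j => ⟨A 1 3 i j (by decide) (by simp [R]), col13 N hN i j⟩⟩
  · exact ⟨0, fun i j => ⟨(A 0 2 j i (by decide) (by simp [R])).symm,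
      by rw [Sym2.eq_swap]; exact col02 N hN j i⟩⟩
  · exact ⟨1, fun i j => ⟨(A 1 3 j i (by decide) (by simp [R])).symm,
      by rw [Sym2.eq_swap]; exact col13 N hN j i⟩⟩
  · exact ⟨5, fun i j => ⟨A 4 5 i j (by decide) (by simp [R]), col45 N hN i j⟩⟩
  · exact ⟨4, fun i j => ⟨(A 4 5 j i (by decide) (by simp [R])).symm,
      by rw [Sym2.eq_swap]; exact col45 N hN j i⟩⟩

theorem main : ∃ c : ℝ, 0 < c ∧ ∀ N : ℕ, ∃ n : ℕ, N ≤ n ∧
      ∃ G : SimpleGraph (Fin n),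
        G.chromaticNumber = 5 ∧
        (∀ e ∈ G.edgeSet, (G.deleteEdges {e}).chromaticNumber < 5) ∧
        ∀ v : Fin n, c * (n : ℝ) ≤ ((G.neighborSet v).ncard : ℝ) := by
  refine ⟨1 / 6, by norm_num, fun k => ?_⟩
  obtain ⟨m, G, h1, h2, -, h4, g, ginj, hg⟩ :=
    Stiebitz.extract (F (2 * k + 3)) 4 (by norm_num) (not_col k)
  have hdeg : ∀ v : Fin m, 2 * k + 3 ≤ (G.neighborSet v).ncard := by
    intro v
    obtain ⟨t, ht⟩ := partner (2 * k + 3) (by omega) (g v).1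
    have : ∀ j : Fin (2 * k + 3), ∃ b, g b = (t, j) ∧ G.Adj v b := by
      intro j
      obtain ⟨a, b, ha, hb, hab⟩ := hg _ _ (ht (g v).2 j).1 (ht (g v).2 j).2
      have : a = v := ginj ha
      subst this
      exact ⟨b, hb, hab⟩
    choose b hb using this
    have binj : Function.Injective b := by
      intro i j e
      have := (hb i).1.symm.trans (e ▸ (hb j).1 : g (b i) = (t, j))
      exact congrArg Prod.snd this
    have h5 : (Set.range b).ncard ≤ (G.neighborSet v).ncard :=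
      Set.ncard_le_ncard (by rintro _ ⟨j, rfl⟩; exact (hb j).2) (Set.toFinite _)
    rwa [Set.ncard_range_of_injective binj, Nat.card_eq_fintype_card, Fintype.card_fin] at h5
  have hm : m ≤ 6 * (2 * k + 3) := by simpa using h4
  refine ⟨m, ?_, G, by simpa using h1, ?_, ?_⟩
  · obtain ⟨t, ht⟩ := partner (2 * k + 3) (by omega) 0
    obtain ⟨a, -⟩ := hg _ _ (ht 0 0).1 (ht 0 0).2
    have h5 := hdeg a
    have h6 : (G.neighborSet a).ncard ≤ m := by
      have := Set.ncard_le_card (G.neighborSet a)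
      simpa using this
    omega
  · intro e he
    induction e using Sym2.ind with
    | _ v w => simpa using h2 v w he
  · intro v
    have h5 : ((2 * k + 3 : ℕ) : ℝ) ≤ ((G.neighborSet v).ncard : ℝ) := by exact_mod_cast hdeg v
    have h6 : (m : ℝ) ≤ ((6 * (2 * k + 3) : ℕ) : ℝ) := by exact_mod_cast hm
    push_cast at h5 h6
    linarith

end Pool.Agent.H19.MinDeg5
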