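import Mathlib

set_option autoImplicit false

namespace Pool.Agent.H19.NonRep

open SimpleGraph

variable {V X K : Type}

/-- list form of nonrepetitiveness -/
def NR (G : SimpleGraph V) (c : V → K) : Prop :=
  ∀ l1 l2 : List V, l1 ≠ [] → (l1 ++ l2).IsChain G.Adj → (l1 ++ l2).Nodup → l1.map c ≠ l2.map c

theorem NR_of (G : SimpleGraph V) (c : V → K)
    (h : ∀ (u v : V) (p : G.Walk u v), p.IsPath → Even p.support.length →
      (p.support.map c).take (p.support.length / 2) ≠
        (p.support.map c).drop (p.support.length / 2)) : NR G c := by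
  intro l1 l2 hne hch hnd he
  have hl : l1.length = l2.length := by simpa using congrArg List.length he
  have := h _ _ (Walk.ofSupport (l1 ++ l2) (by simp [hne]) hch)
    (by rw [Walk.isPath_def]; simpa using hnd) (by simp [hl])
  apply this
  have e : (l1 ++ l2).length / 2 = (l1.map c).length := by simp [hl]; omega
  rw [Walk.support_ofSupport, e, List.map_append, List.take_left, List.drop_left, he]

theorem of_NR (G : SimpleGraph V) (c : V → K) (h : NR G c) (u v : V) (p : G.Walk u v)
    (hp : p.IsPath) (he : Even p.support.length) :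
    (p.support.map c).take (p.support.length / 2) ≠
      (p.support.map c).drop (p.support.length / 2) := by
  rw [← List.map_take, ← List.map_drop]
  refine h _ _ ?_ (by simpa using p.isChain_adj_support) (by simpa using hp.support_nodup)
  have : 0 < p.support.length := by simp
  obtain ⟨r, hr⟩ := he
  intro e
  have := congrArg List.length e
  simp only [List.length_take, List.length_nil] at this
  omega

structure Sides (G : SimpleGraph V) (X : Type) where
  π : V → X
  sd : X → Bool → V
  h1 : ∀ x s, π (sd x s) = x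
  h3 : ∀ x s s', sd x s = sd x s' ∨ G.Adj (sd x s) (sd x s')

variable {G : SimpleGraph V}

open Classical in
noncomputable def seg (S : Sides G X) (a : X × Bool × Bool) : List V :=
  if S.sd a.1 a.2.1 = S.sd a.1 a.2.2 then [S.sd a.1 a.2.1] else [S.sd a.1 a.2.1, S.sd a.1 a.2.2]

def Lk (S : Sides G X) (a b : X × Bool × Bool) : Prop := G.Adj (S.sd a.1 a.2.2) (S.sd b.1 b.2.1)

def kap (S : Sides G X) (c : V → K) (x : X) : Bool → K := fun s => c (S.sd x s)

theorem NR.proper {c : V → K} (h : NR G c) {u v : V} (huv : G.Adj u v) : c u ≠ c v := by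
  have := h [u] [v] (by simp) (by simpa using huv) (by simpa using huv.ne)
  simpa using this

theorem seg_head (S : Sides G X) (a : X × Bool × Bool) :
    (seg S a).head? = some (S.sd a.1 a.2.1) := by
  unfold seg; split_ifs <;> rfl

theorem seg_chain (S : Sides G X) :
    ∀ L : List (X × Bool × Bool), L.IsChain (Lk S) → (L.flatMap (seg S)).IsChain G.Adj := by
  intro L
  induction L with
  | nil => simp
  | cons a L ih =>
    intro h
    rw [List.flatMap_cons]
    refine List.IsChain.append ?_ (ih h.of_cons) ?_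
    · unfold seg
      split_ifs with e
      · simp
      · simpa using (S.h3 _ _ _).resolve_left e
    · intro x hx y hy
      cases L with
      | nil => simp at hy
      | cons b L =>
        have e1 : x = S.sd a.1 a.2.2 := by
          unfold seg at hx
          split_ifs at hx with e
          · simpa [e, eq_comm] using hx
          · simpa [eq_comm] using hx
        have e2 : y = S.sd b.1 b.2.1 := by
          rw [List.flatMap_cons, List.head?_append, seg_head] at hy
          simpa [eq_comm] using hy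
        rw [e1, e2]
        exact h.rel

theorem seg_nodup (S : Sides G X) (L : List (X × Bool × Bool)) (h : (L.map Prod.fst).Nodup) :
    (L.flatMap (seg S)).Nodup := by
  have hm : ∀ a, ∀ v ∈ seg S a, S.π v = a.1 := by
    intro a v hv
    unfold seg at hv
    split_ifs at hv <;> simp only [List.mem_cons, List.not_mem_nil, or_false] at hv
    · rw [hv, S.h1]
    · rcases hv with rfl | rfl <;> exact S.h1 _ _
  rw [List.nodup_flatMap]
  constructor
  · intro a _
    unfold seg
    split_ifs with e
    · simp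
    · simpa using e
  · rw [List.Nodup, List.pairwise_map] at h
    exact h.imp fun {a b} hab v h1 h2 => hab ((hm a v h1).symm.trans (hm b v h2))

theorem rep (S : Sides G X) {c : V → K} (h : NR G c) (L1 L2 : List (X × Bool × Bool))
    (hne : L1 ≠ []) (hch : (L1 ++ L2).IsChain (Lk S)) (hnd : ((L1 ++ L2).map Prod.fst).Nodup)
    (he : L1.map (fun a => (kap S c a.1, a.2)) = L2.map (fun a => (kap S c a.1, a.2))) : False := by
  classical
  let g : (Bool → K) × Bool × Bool → List K := fun b =>
    if b.1 b.2.1 = b.1 b.2.2 then [b.1 b.2.1] else [b.1 b.2.1, b.1 b.2.2]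
  have e : ∀ L : List (X × Bool × Bool), (L.flatMap (seg S)).map c =
      (L.map (fun a => (kap S c a.1, a.2))).flatMap g := by
    intro L
    rw [List.map_flatMap, List.flatMap_map]
    congr 1
    funext a
    simp only [seg, g, kap]
    by_cases e : S.sd a.1 a.2.1 = S.sd a.1 a.2.2
    · simp [e]
    · simp [e, h.proper ((S.h3 _ _ _).resolve_left e)]
  refine h (L1.flatMap (seg S)) (L2.flatMap (seg S)) ?_ ?_ ?_ (by rw [e, e, he])
  · cases L1 with
    | nil => exact absurd rfl hne
    | cons a L =>
      intro e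
      have := congrArg List.head? e
      rw [List.flatMap_cons, List.head?_append, seg_head] at this
      simp at this
  · rw [← List.flatMap_append]; exact seg_chain S _ hch
  · rw [← List.flatMap_append]; exact seg_nodup S _ hnd

theorem kap_ne (S : Sides G X) {c : V → K} (h : NR G c) {x y : X} {s s' : Bool} (hxy : x ≠ y)
    (ha : G.Adj (S.sd x s) (S.sd y s')) : kap S c x ≠ kap S c y := fun e =>
  rep S h [(x, s', s)] [(y, s', s)] (by simp) (by simpa [Lk] using ha) (by simpa using hxy)
    (by simp [e])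

def Arr (G : SimpleGraph V) (c : V → K) (a b : V) : Prop :=
  G.Adj a b ∧ ∀ b', G.Adj a b' → c b' = c b → b' = b

theorem arr_or {c : V → K} (h : NR G c) {a b : V} (hab : G.Adj a b) : Arr G c a b ∨ Arr G c b a := by
  by_contra hc
  simp only [Arr, not_or, not_and, not_forall] at hc
  obtain ⟨b', h1, h2, h3⟩ := hc.1 hab
  obtain ⟨a', h4, h5, h6⟩ := hc.2 hab.symm
  have n1 : b' ≠ a' := fun e => h.proper hab (by rw [← h5, ← e, h2])
  refine h [b', a] [b, a'] (by simp) (by simp [h1.symm, hab, h4]) ?_ (by simp [h2, h5])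
  have := h1.ne'
  have := hab.ne
  have := h4.ne
  have h6' : a ≠ a' := fun e => h6 e.symm
  simp [*]

abbrev Chi (K : Type) := (Bool → K) × Set (Bool × (Bool → K) × Bool × Bool × Bool)

def Via (S : Sides G X) (c : V → K) (x y z : X) (P : Bool × (Bool → K) × Bool × Bool × Bool) :
    Prop :=
  z ≠ x ∧ y ≠ x ∧ y ≠ z ∧ kap S c z = kap S c x ∧ kap S c y = P.2.1 ∧
    G.Adj (S.sd x P.1) (S.sd y P.2.2.1) ∧ Arr G c (S.sd y P.2.2.2.1) (S.sd z P.2.2.2.2)

def chi (S : Sides G X) (c : V → K) (x : X) : Chi K := (kap S c x, {P | ∃ y z, Via S c x y z P})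

theorem chi_ne (S : Sides G X) {c : V → K} (h : NR G c) {x y z : X} {s r r' s' : Bool}
    (h1 : z ≠ x) (h2 : y ≠ x) (h3 : y ≠ z) (ha : G.Adj (S.sd x s) (S.sd y r))
    (hb : Arr G c (S.sd y r') (S.sd z s')) : chi S c x ≠ chi S c z := by
  intro e
  have ek : kap S c x = kap S c z := congrArg Prod.fst e
  have hx : (s, kap S c y, r, r', s') ∈ (chi S c x).2 := ⟨y, z, h1, h2, h3, ek.symm, rfl, ha, hb⟩
  rw [e] at hx
  obtain ⟨y', w, g1, g2, -, g4, g5, g6, g7⟩ := hx
  simp only at g5 g6 g7
  have n1 : y ≠ y' := by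
    rintro rfl
    have := hb.2 _ g7.1 (congrFun g4 s')
    exact g1 (by rw [← S.h1 w s', this, S.h1])
  have n2 : x ≠ y' := by
    rintro rfl
    exact kap_ne S h h2.symm ha g5
  refine rep S h [(x, s', s), (y, r, r')] [(z, s', s), (y', r, r')] (by simp)
    (by simp [Lk, ha, hb.1, g6]) ?_ (by simp [ek, g5])
  have := h1.symm
  have := h2.symm
  have := g2.symm
  simp [*]

abbrev Col (K : Type) := Chi K × Set (Bool × Bool × Chi K)

def phi (S : Sides G X) (c : V → K) (x : X) : Col K :=
  (chi S c x, {q | ∃ z, z ≠ x ∧ chi S c z = q.2.2 ∧ Arr G c (S.sd x q.1) (S.sd z q.2.1)})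

def Good (a b : Col K) (t : Bool × Bool) : Prop :=
  (t.1, t.2, b.1) ∈ a.2 ∨ (t.2, t.1, a.1) ∈ b.2

open Classical in
noncomputable def tau (a b : Col K) : Bool × Bool :=
  if h : ∃ t, Good a b t then h.choose else (false, false)

theorem tau_adj (S : Sides G X) {c : V → K} (h : NR G c) {x y : X} {s s' : Bool} (hxy : x ≠ y)
    (ha : G.Adj (S.sd x s) (S.sd y s')) :
    G.Adj (S.sd x (tau (phi S c x) (phi S c y)).1) (S.sd y (tau (phi S c x) (phi S c y)).2) := by
  have hex : ∃ t, Good (phi S c x) (phi S c y) t := by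
    refine ⟨(s, s'), ?_⟩
    rcases arr_or h ha with h1 | h1
    · exact Or.inl ⟨y, hxy.symm, rfl, h1⟩
    · exact Or.inr ⟨x, hxy, rfl, h1⟩
  rw [tau, dif_pos hex]
  rcases hex.choose_spec with ⟨z, h1, h2, h3⟩ | ⟨z, h1, h2, h3⟩
  · by_cases e : z = y
    · subst e; exact h3.1
    · exact absurd h2.symm (chi_ne S h e hxy h1.symm ha.symm h3)
  · by_cases e : z = x
    · subst e; exact h3.1.symm
    · exact absurd h2.symm (chi_ne S h e hxy.symm h1.symm ha h3)

noncomputable def ann {Y : Type} (φ : Y → Col K) : Bool → Bool → List Y → List (Y × Bool × Bool)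
  | _, _, [] => []
  | i, o, [x] => [(x, i, o)]
  | i, o, x :: y :: r => (x, i, (tau (φ x) (φ y)).1) :: ann φ (tau (φ x) (φ y)).2 o (y :: r)

theorem ann_fst {Y : Type} (φ : Y → Col K) :
    ∀ (l : List Y) (i o : Bool), (ann φ i o l).map Prod.fst = l
  | [], _, _ => rfl
  | [_], _, _ => rfl
  | x :: y :: r, i, o => by rw [ann, List.map_cons, ann_fst φ (y :: r)]

theorem ann_map {Y : Type} (φ : Y → Col K) :
    ∀ (l : List Y) (i o : Bool),
      (ann φ i o l).map (fun a => (φ a.1, a.2)) = ann id i o (l.map φ)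
  | [], _, _ => rfl
  | [_], _, _ => rfl
  | x :: y :: r, i, o => by
    rw [ann, List.map_cons, ann_map φ (y :: r)]
    rfl

theorem ann_head {Y : Type} (φ : Y → Col K) (x : Y) (l : List Y) (i o : Bool) :
    ∃ t, (ann φ i o (x :: l)).head? = some (x, i, t) := by
  cases l <;> exact ⟨_, rfl⟩

theorem ann_last {Y : Type} (φ : Y → Col K) :
    ∀ (l : List Y) (i o : Bool) (x : Y), x ∈ l.getLast? →
      ∃ t, (ann φ i o l).getLast? = some (x, t, o)
  | [], _, _, _, h => by simp at h
  | [_], i, _, _, h => ⟨i, by simpa [ann, eq_comm] using h⟩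
  | x :: y :: r, i, o, z, h => by
    obtain ⟨t, ht⟩ := ann_last φ (y :: r) (tau (φ x) (φ y)).2 o z (by simpa using h)
    refine ⟨t, ?_⟩
    rw [ann, List.getLast?_cons, ht]
    rfl

def HA (S : Sides G X) (x y : X) : Prop := x ≠ y ∧ ∃ s s', G.Adj (S.sd x s) (S.sd y s')

theorem ann_chain (S : Sides G X) {c : V → K} (h : NR G c) :
    ∀ (l : List X) (i o : Bool), l.IsChain (HA S) → (ann (phi S c) i o l).IsChain (Lk S)
  | [], _, _, _ => by simp [ann]
  | [_], _, _, _ => by simp [ann]
  | x :: y :: r, i, o, hc => by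
    rw [ann, List.isChain_cons]
    refine ⟨fun b hb => ?_, ann_chain S h (y :: r) _ o hc.of_cons⟩
    obtain ⟨t, ht⟩ := ann_head (phi S c) y r (tau (phi S c x) (phi S c y)).2 o
    rw [ht] at hb
    obtain rfl : _ = b := Option.some.inj hb
    obtain ⟨h1, s, s', h2⟩ := hc.rel
    exact tau_adj S h h1 h2

theorem main (S : Sides G X) {c : V → K} (h : NR G c) (H : SimpleGraph X)
    (hH : ∀ x y, H.Adj x y → HA S x y) : NR H (phi S c) := by
  intro l1 l2 hne hch hnd he
  have hch' : (l1 ++ l2).IsChain (HA S) := hch.imp hH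
  obtain ⟨x, hx⟩ : ∃ x, x ∈ l1.getLast? := ⟨_, List.getLast?_eq_some_getLast hne⟩
  cases l2 with
  | nil => exact hne (by simpa using he)
  | cons y r =>
    obtain ⟨c1, c2, c3⟩ := List.isChain_append.mp hch'
    obtain ⟨h1, s, s', h2⟩ := c3 x hx y rfl
    set t := tau (phi S c x) (phi S c y)
    refine rep S h (ann (phi S c) t.2 t.1 l1) (ann (phi S c) t.2 t.1 (y :: r)) ?_ ?_ ?_ ?_
    · intro e
      exact hne (by rw [← ann_fst (phi S c) l1 t.2 t.1, e]; rfl)
    · refine List.IsChain.append (ann_chain S h _ _ _ c1) (ann_chain S h _ _ _ c2) ?_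
      intro a ha b hb
      obtain ⟨u, hu⟩ := ann_last (phi S c) l1 t.2 t.1 x hx
      obtain ⟨w, hw⟩ := ann_head (phi S c) y r t.2 t.1
      rw [hu] at ha
      rw [hw] at hb
      obtain rfl : _ = a := Option.some.inj ha
      obtain rfl : _ = b := Option.some.inj hb
      exact tau_adj S h h1 h2
    · rw [List.map_append, ann_fst, ann_fst]
      exact hnd
    · have := congrArg (List.map fun a : Col K × Bool × Bool => (a.1.1.1, a.2))
        ((ann_map (phi S c) l1 t.2 t.1).trans (he ▸ (ann_map (phi S c) (y :: r) t.2 t.1).symm))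
      simp only [List.map_map] at this
      exact this

theorem sides (M : G.Subgraph) (hM : M.IsMatching) :
    ∃ S : Sides G (Quot M.Adj), S.π = Quot.mk M.Adj ∧
      ∀ u, ∃ s, u = S.sd (Quot.mk M.Adj u) s := by
  classical
  have hp : ∀ u, ∃ v, (M.Adj u v ∨ (v = u ∧ u ∉ M.verts)) := by
    intro u
    by_cases hu : u ∈ M.verts
    · obtain ⟨v, hv, -⟩ := hM hu
      exact ⟨v, Or.inl hv⟩
    · exact ⟨u, Or.inr ⟨rfl, hu⟩⟩
  choose p hp using hp
  have hp2 : ∀ u v, M.Adj u v → p u = v := by
    intro u v h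
    rcases hp u with h1 | h1
    · exact (hM (M.edge_vert h)).unique h1 h
    · exact absurd (M.edge_vert h) h1.2
  have hq : ∀ u v, Quot.mk M.Adj u = Quot.mk M.Adj v → s(u, p u) = s(v, p v) := by
    intro u v h
    exact congrArg (Quot.lift (fun u => s(u, p u)) (fun a b hab => by
      rw [hp2 a b hab, hp2 b a hab.symm, Sym2.eq_swap])) h
  have hadj : ∀ u, p u = u ∨ G.Adj u (p u) := fun u =>
    (hp u).elim (fun h => Or.inr (M.adj_sub h)) fun h => Or.inl h.1
  refine ⟨⟨Quot.mk M.Adj, fun x s => if s then p x.out else x.out, fun x s => ?_,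
    fun x s s' => ?_⟩, rfl, fun u => ?_⟩
  · cases s
    · simp
    · simp only [if_true]
      rcases hp x.out with h | h
      · rw [← Quot.sound h]; simp
      · rw [h.1]; simp
  · have := hadj x.out
    cases s <;> cases s' <;> simp only [if_true, Bool.false_eq_true, if_false, true_or]
    · exact this.imp Eq.symm id
    · exact this.imp id Adj.symm
  · rcases Sym2.eq_iff.mp (hq u (Quot.mk M.Adj u).out (by simp)) with h | h
    · exact ⟨false, by simpa using h.1⟩
    · exact ⟨true, by simpa using h.1⟩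

end Pool.Agent.H19.NonRep
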