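import Mathlib

set_option autoImplicit false

namespace Pool.Agent.H19.PAut

open Finset

lemma sum_range_mul' {M : Type*} [AddCommMonoid M] (P Q : ℕ) (φ : ℕ → M) :
    ∑ n ∈ range (P * Q), φ n = ∑ i ∈ range P, ∑ m ∈ range Q, φ (i + m * P) := by
  induction Q with
  | zero => simp
  | succ Q ih =>
    rw [Nat.mul_succ, Finset.sum_range_add, ih, ← Finset.sum_add_distrib]
    refine Finset.sum_congr rfl fun i _ => ?_
    rw [Finset.sum_range_succ, mul_comm Q P, add_comm i]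

variable {ι : Type*}

/-- line sums -/
def N {M : Type*} [AddCommMonoid M] (n : ℕ) (t : ι → ℤ) (φ : (ι → ℤ) → M) (s : ι → ℤ) : M :=
  ∑ i ∈ range n, φ (s + (i : ℤ) • t)

def Prim (p : ℕ) (t : ι → ℤ) : Prop := ∃ j, ¬ (p : ℤ) ∣ t j

def Per {M : Type*} (n : ℤ) (φ : (ι → ℤ) → M) : Prop := ∀ s y : ι → ℤ, φ (s + n • y) = φ s

lemma Per.of_dvd {M : Type*} {n n' : ℤ} {φ : (ι → ℤ) → M} (h : Per n φ) (hd : n ∣ n') :
    Per n' φ := by
  obtain ⟨c, rfl⟩ := hd
  intro s y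
  rw [mul_smul]
  exact h s _

lemma Per.congr {M : Type*} {n : ℤ} {φ : (ι → ℤ) → M} (h : Per n φ) {s s' : ι → ℤ}
    (hs : ∀ j, n ∣ s' j - s j) : φ s' = φ s := by
  choose y hy using hs
  have : s' = s + n • y := by
    funext j
    simp only [Pi.add_apply, Pi.smul_apply, smul_eq_mul]
    rw [← hy j]; ring
  rw [this, h]

lemma inv_nat {M : Type*} {Φ : (ι → ℤ) → M} {w : ι → ℤ} (h : ∀ z, Φ (z + w) = Φ z) (m : ℕ) :
    ∀ z, Φ (z + (m : ℤ) • w) = Φ z := by
  induction m with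
  | zero => simp
  | succ m ih =>
    intro z
    have : z + ((m + 1 : ℕ) : ℤ) • w = (z + (m : ℤ) • w) + w := by
      push_cast; rw [add_smul, one_smul, add_assoc]
    rw [this, h, ih]

lemma SL {R : Type*} [CommRing R] (P Q : ℕ) (t : ι → ℤ) (Φ F : (ι → ℤ) → R) (κ : R)
    (hΦ : ∀ z, Φ (z + (P : ℤ) • t) = Φ z)
    (hF : ∀ z, ∑ m ∈ range Q, F (z + (m : ℤ) • ((P : ℤ) • t)) = κ) (s : ι → ℤ) :
    N (P * Q) t (fun z => Φ z * F z) s = κ * N P t Φ s := by
  rw [N, sum_range_mul', N, Finset.mul_sum]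
  refine Finset.sum_congr rfl fun i _ => ?_
  rw [← hF (s + (i : ℤ) • t), Finset.sum_mul]
  refine Finset.sum_congr rfl fun m _ => ?_
  have : s + ((i + m * P : ℕ) : ℤ) • t = (s + (i : ℤ) • t) + (m : ℤ) • ((P : ℤ) • t) := by
    push_cast; rw [add_smul, mul_smul, add_assoc]
  rw [this, inv_nat hΦ, mul_comm]

variable (p : ℕ) [hp : Fact p.Prime]

/-- indicator that the `k`-th digit vanishes -/
noncomputable def dig (k : ℕ) (n : ℤ) : ZMod p :=
  if ((n / (p : ℤ) ^ k : ℤ) : ZMod p) = 0 then 1 else 0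

lemma ppow_ne (k : ℕ) : (p : ℤ) ^ k ≠ 0 := pow_ne_zero _ (by exact_mod_cast hp.out.ne_zero)

lemma dig_add (k : ℕ) (n u : ℤ) :
    dig p k (n + (p : ℤ) ^ k * u) =
      if ((n / (p : ℤ) ^ k : ℤ) : ZMod p) + (u : ZMod p) = 0 then 1 else 0 := by
  rw [dig, Int.add_mul_ediv_left _ _ (ppow_ne p k)]
  push_cast
  rfl

lemma dig_inv {k : ℕ} (n : ℤ) {d : ℤ} (hd : (p : ℤ) ^ (k + 1) ∣ d) : dig p k (n + d) = dig p k n := by
  obtain ⟨c, rfl⟩ := hd
  rw [pow_succ, mul_assoc, dig_add, dig]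
  simp

lemma dig_sum (k : ℕ) (n u : ℤ) :
    ∑ m ∈ range p, dig p k (n + (m : ℤ) * ((p : ℤ) ^ k * u)) =
      if (p : ℤ) ∣ u then 0 else 1 := by
  have h1 : ∀ m : ℕ, dig p k (n + (m : ℤ) * ((p : ℤ) ^ k * u)) =
      if ((n / (p : ℤ) ^ k : ℤ) : ZMod p) + (m : ZMod p) * (u : ZMod p) = 0 then 1 else 0 := by
    intro m
    rw [show (m : ℤ) * ((p : ℤ) ^ k * u) = (p : ℤ) ^ k * (m * u) by ring, dig_add]
    push_cast
    rfl
  simp only [h1]
  set y : ZMod p := ((n / (p : ℤ) ^ k : ℤ) : ZMod p)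
  split_ifs with hu
  · have : (u : ZMod p) = 0 := (ZMod.intCast_zmod_eq_zero_iff_dvd u p).2 hu
    simp [this]
  · have hu' : (u : ZMod p) ≠ 0 := fun h => hu ((ZMod.intCast_zmod_eq_zero_iff_dvd u p).1 h)
    have : NeZero p := ⟨hp.out.ne_zero⟩
    rw [Finset.sum_eq_single (-y / u).val]
    · rw [ZMod.natCast_zmod_val, if_pos]
      field_simp
      ring
    · intro m hm hne
      rw [if_neg]
      intro h
      apply hne
      have : (m : ZMod p) = -y / u := by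
        field_simp
        linear_combination h
      rw [← this, ZMod.val_natCast_of_lt (mem_range.1 hm)]
    · intro h
      exact absurd (mem_range.2 (ZMod.val_lt _)) h

/-- multiply by digit indicators of the pivot coordinate at levels `k, …, k+n-1` -/
noncomputable def R (j0 : ι) (Φ : (ι → ℤ) → ZMod p) (k n : ℕ) (z : ι → ℤ) : ZMod p :=
  Φ z * ∏ i ∈ range n, dig p (k + i) (z j0)

lemma R_inv (j0 : ι) (Φ : (ι → ℤ) → ZMod p) (k n : ℕ) {w : ι → ℤ}
    (hΦ : ∀ z, Φ (z + w) = Φ z) (hw : (p : ℤ) ^ (k + n) ∣ w j0) (z : ι → ℤ) :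
    R p j0 Φ k n (z + w) = R p j0 Φ k n z := by
  rw [R, R, hΦ]
  congr 1
  refine Finset.prod_congr rfl fun i hi => ?_
  exact dig_inv p _ ((pow_dvd_pow _ (by have := mem_range.1 hi; omega)).trans hw)

lemma top (j0 : ι) (Φ : (ι → ℤ) → ZMod p) (k : ℕ) (t : ι → ℤ)
    (hΦ : ∀ z, Φ (z + ((p : ℤ) ^ k) • t) = Φ z) (s : ι → ℤ) :
    N (p ^ (k + 1)) t (fun z => Φ z * dig p k (z j0)) s =
      (if (p : ℤ) ∣ t j0 then 0 else 1) * N (p ^ k) t Φ s := by
  rw [pow_succ]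
  refine SL (p ^ k) p t Φ _ _ (by exact_mod_cast hΦ) (fun z => ?_) s
  rw [← dig_sum p k (z j0) (t j0)]
  refine Finset.sum_congr rfl fun m _ => ?_
  simp

lemma R_N (j0 : ι) (Φ : (ι → ℤ) → ZMod p) (k n : ℕ) (t : ι → ℤ)
    (hΦ : ∀ z, Φ (z + ((p : ℤ) ^ k) • t) = Φ z) (ht : ¬ (p : ℤ) ∣ t j0) (s : ι → ℤ) :
    N (p ^ (k + n)) t (R p j0 Φ k n) s = N (p ^ k) t Φ s := by
  induction n with
  | zero =>
    have : R p j0 Φ k 0 = Φ := by funext z; simp [R]
    rw [this, add_zero]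
  | succ n ih =>
    have e : R p j0 Φ k (n + 1) = fun z => R p j0 Φ k n z * dig p (k + n) (z j0) := by
      funext z
      rw [R, R, Finset.prod_range_succ, mul_assoc]
    rw [e, ← add_assoc, top, if_neg ht, one_mul, ih]
    refine R_inv p j0 Φ k n (fun z => ?_) (by simp)
    have := inv_nat hΦ (p ^ n) z
    rw [← this, ← mul_smul]
    push_cast
    rw [pow_add, mul_comm]

lemma step (j0 j : ι) (n k : ℕ) (Φ : (ι → ℤ) → ZMod p) (hΦ : Per ((p : ℤ) ^ k) Φ) :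
    ∃ Φ' : (ι → ℤ) → ZMod p, Per ((p : ℤ) ^ (k + 1 + n)) Φ' ∧
      ∀ t : ι → ℤ, ¬ (p : ℤ) ∣ t j0 → (p : ℤ) ^ n ∣ t j → ∀ s,
        N (p ^ (k + 1 + n)) t Φ' s =
          (if (p : ℤ) ^ (n + 1) ∣ t j then 1 else 0) * N (p ^ k) t Φ s := by
  refine ⟨R p j0 (fun z => Φ z * (dig p k (z j0) - dig p (k + n) (z j))) (k + 1) n, ?_, ?_⟩
  · intro s y
    refine R_inv p j0 _ _ _ (fun z => ?_) (by simp) s
    have h1 := hΦ.of_dvd (pow_dvd_pow (p : ℤ) (show k ≤ k + 1 + n by omega)) z y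
    simp only [h1, Pi.add_apply, Pi.smul_apply, smul_eq_mul]
    rw [dig_inv p _ ((pow_dvd_pow _ (by omega)).mul_right _),
      dig_inv p _ ((pow_dvd_pow _ (by omega)).mul_right _)]
  · rintro t ht ⟨w, hw⟩ s
    rw [R_N p j0 _ _ _ t _ ht]
    · rw [pow_succ]
      refine SL (p ^ k) p t Φ _ _ (fun z => by exact_mod_cast hΦ z t) (fun z => ?_) s
      rw [Finset.sum_sub_distrib]
      have h1 := dig_sum p k (z j0) (t j0)
      have h2 := dig_sum p (k + n) (z j) w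
      rw [if_neg ht] at h1
      have e1 : ∑ m ∈ range p, dig p k ((z + (m : ℤ) • (((p ^ k : ℕ) : ℤ) • t)) j0) = 1 := by
        rw [← h1]
        refine Finset.sum_congr rfl fun m _ => ?_
        simp
      have e2 : ∑ m ∈ range p, dig p (k + n) ((z + (m : ℤ) • (((p ^ k : ℕ) : ℤ) • t)) j) =
          if (p : ℤ) ∣ w then 0 else 1 := by
        rw [← h2]
        refine Finset.sum_congr rfl fun m _ => ?_
        simp only [Pi.add_apply, Pi.smul_apply, smul_eq_mul, hw]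
        push_cast
        rw [pow_add, mul_assoc]
      rw [e1, e2, hw, pow_succ]
      have : (p : ℤ) ^ n * p ∣ (p : ℤ) ^ n * w ↔ (p : ℤ) ∣ w :=
        mul_dvd_mul_iff_left (ppow_ne p n)
      by_cases h : (p : ℤ) ∣ w
      · rw [if_pos h, if_pos (this.2 h), sub_zero]
      · rw [if_neg h, if_neg (fun h' => h (this.1 h')), sub_self]
    · intro z
      have h1 := hΦ.of_dvd (pow_dvd_pow (p : ℤ) (show k ≤ k + 1 by omega)) z t
      simp only [h1, Pi.add_apply, Pi.smul_apply, smul_eq_mul]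
      rw [dig_inv p _ (dvd_mul_right _ _), dig_inv p (z j)]
      rw [hw, ← mul_assoc, ← pow_add, show k + 1 + n = k + n + 1 by omega]
      exact dvd_mul_right _ _

lemma inner (j0 : ι) (n : ℕ) (J : Finset ι) (k : ℕ) (Φ : (ι → ℤ) → ZMod p)
    (hΦ : Per ((p : ℤ) ^ k) Φ) :
    ∃ (k' : ℕ) (Φ' : (ι → ℤ) → ZMod p), k ≤ k' ∧ Per ((p : ℤ) ^ k') Φ' ∧
      ∀ t : ι → ℤ, ¬ (p : ℤ) ∣ t j0 → (∀ j ∈ J, (p : ℤ) ^ n ∣ t j) → ∀ s,
        N (p ^ k') t Φ' s =
          (if ∀ j ∈ J, (p : ℤ) ^ (n + 1) ∣ t j then 1 else 0) * N (p ^ k) t Φ s := by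
  classical
  induction J using Finset.induction_on with
  | empty => exact ⟨k, Φ, le_rfl, hΦ, fun t _ _ s => by simp⟩
  | insert j J hj ih =>
    obtain ⟨k1, Φ1, hk, hP, H⟩ := ih
    obtain ⟨Φ2, hP2, H2⟩ := step p j0 j n k1 Φ1 hP
    refine ⟨k1 + 1 + n, Φ2, by omega, hP2, fun t ht hd s => ?_⟩
    rw [H2 t ht (hd j (mem_insert_self _ _)), H t ht (fun i hi => hd i (mem_insert_of_mem hi))]
    simp only [Finset.forall_mem_insert]
    by_cases h1 : (p : ℤ) ^ (n + 1) ∣ t j <;>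
      by_cases h2 : ∀ j ∈ J, (p : ℤ) ^ (n + 1) ∣ t j <;> simp [h1, h2]

lemma outer (j0 : ι) (J : Finset ι) (b : ℕ) (d : ℕ) :
    d ≤ b → ∃ (k : ℕ) (Φ : (ι → ℤ) → ZMod p), b ≤ k ∧ Per ((p : ℤ) ^ k) Φ ∧
      ∀ t : ι → ℤ, ¬ (p : ℤ) ∣ t j0 → (∀ j ∈ J, (p : ℤ) ^ (b - d) ∣ t j) → ∀ s,
        N (p ^ k) t Φ s =
          if (∀ j ∈ J, (p : ℤ) ^ b ∣ t j) ∧ (∀ j ∈ J, (p : ℤ) ^ b ∣ s j) then 1 else 0 := by
  classical
  induction d with
  | zero =>
    intro _
    let base : (ι → ℤ) → ZMod p := fun s => if ∀ j ∈ J, (p : ℤ) ^ b ∣ s j then 1 else 0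
    have hb : ∀ w : ι → ℤ, (∀ j ∈ J, (p : ℤ) ^ b ∣ w j) → ∀ z, base (z + w) = base z := by
      intro w hw z
      refine if_congr (forall₂_congr fun j hj => ?_) rfl rfl
      exact dvd_add_left (hw j hj)
    refine ⟨b, R p j0 base 0 b, le_rfl, fun s y => ?_, fun t ht hd s => ?_⟩
    · exact R_inv p j0 _ _ _ (hb _ (fun j _ => by simp)) (by simp) s
    · have := R_N p j0 base 0 b t (by simpa using hb t hd) ht s
      rw [zero_add] at this
      rw [this]
      simp only [N, pow_zero, range_one, sum_singleton, Nat.cast_zero, zero_smul, add_zero]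
      refine if_congr ⟨fun h => ⟨hd, h⟩, fun h => h.2⟩ rfl rfl
  | succ d ih =>
    intro hd
    obtain ⟨k, Φ, hk, hP, H⟩ := ih (by omega)
    obtain ⟨k', Φ', hk', hP', H'⟩ := inner p j0 (b - (d + 1)) J k Φ hP
    refine ⟨k', Φ', hk.trans hk', hP', fun t ht hdv s => ?_⟩
    rw [H' t ht hdv, show b - (d + 1) + 1 = b - d by omega]
    by_cases h : ∀ j ∈ J, (p : ℤ) ^ (b - d) ∣ t j
    · rw [if_pos h, one_mul, H t ht h]
    · rw [if_neg h, zero_mul, if_neg]
      exact fun h' => h fun j hj => (pow_dvd_pow _ (by omega)).trans (h'.1 j hj)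

/-- the indicator of a coordinate line -/
lemma L0 [Fintype ι] [DecidableEq ι] (j0 : ι) (b : ℕ) :
    ∃ k0 : ℕ, b ≤ k0 ∧ ∀ k, k0 < k → ∃ Φ : (ι → ℤ) → ZMod p, Per ((p : ℤ) ^ k) Φ ∧
      ∀ t s : ι → ℤ, N (p ^ k) t Φ s =
        if ¬ (p : ℤ) ∣ t j0 ∧ (∀ j ∈ univ.erase j0, (p : ℤ) ^ b ∣ t j) ∧
          (∀ j ∈ univ.erase j0, (p : ℤ) ^ b ∣ s j) then 1 else 0 := by
  obtain ⟨k, Φ, hk, hP, H⟩ := outer p j0 (univ.erase j0) b b le_rfl
  refine ⟨k, hk, fun k' hk' => ?_⟩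
  obtain ⟨n, rfl⟩ : ∃ n, k' = k + n + 1 := ⟨k' - k - 1, by omega⟩
  have hR : Per ((p : ℤ) ^ (k + n)) (R p j0 Φ k n) := fun s y =>
    R_inv p j0 _ _ _ (fun z => hP.of_dvd (pow_dvd_pow (p : ℤ) (by omega)) z y) (by simp) s
  refine ⟨fun z => R p j0 Φ k n z * dig p (k + n) (z j0), fun s y => ?_, fun t s => ?_⟩
  · have h1 := hR.of_dvd (pow_dvd_pow (p : ℤ) (show k + n ≤ k + n + 1 by omega)) s y
    simp only [h1, Pi.add_apply, Pi.smul_apply, smul_eq_mul]
    rw [dig_inv p _ (dvd_mul_right _ _)]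
  · rw [top p j0 _ (k + n) t (fun z => hR z t)]
    by_cases ht : (p : ℤ) ∣ t j0
    · simp [ht]
    · rw [if_neg ht, one_mul, R_N p j0 Φ k n t (fun z => hP z t) ht, H t ht (by simp)]
      simp [ht]

noncomputable def piv [Nonempty ι] (t : ι → ℤ) : ι := Classical.epsilon fun j => ¬ (p : ℤ) ∣ t j

omit hp in
lemma piv_spec [Nonempty ι] {t : ι → ℤ} (ht : Prim p t) : ¬ (p : ℤ) ∣ t (piv p t) :=
  Classical.epsilon_spec ht

lemma piv_congr [Nonempty ι] {t t' : ι → ℤ} {c : ℤ} (hc : ¬ (p : ℤ) ∣ c)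
    (h : ∀ j, (p : ℤ) ∣ t j - c * t' j) : piv p t = piv p t' := by
  have hpr : Prime (p : ℤ) := Nat.prime_iff_prime_int.1 hp.out
  have : (fun j => ¬ (p : ℤ) ∣ t j) = fun j => ¬ (p : ℤ) ∣ t' j := by
    funext j
    refine propext (not_congr ⟨fun h1 => ?_, fun h1 => ?_⟩)
    · have : (p : ℤ) ∣ c * t' j := by simpa using dvd_sub h1 (h j)
      exact (hpr.dvd_or_dvd this).resolve_left hc
    · simpa using dvd_add (h j) (h1.mul_left c)
  rw [piv, piv, this]

lemma unit_of {b : ℕ} {c : ℤ} (hc : ¬ (p : ℤ) ∣ c) : IsUnit (c : ZMod (p ^ b)) := by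
  have hpr : Prime (p : ℤ) := Nat.prime_iff_prime_int.1 hp.out
  have : IsCoprime c ((p : ℤ) ^ b) :=
    ((Prime.coprime_iff_not_dvd hpr).2 hc).symm.pow_right
  obtain ⟨u, v, huv⟩ := this
  have h2 := congrArg (fun z : ℤ => (z : ZMod (p ^ b))) huv
  have h3 : ((p : ZMod (p ^ b))) ^ b = 0 := by exact_mod_cast ZMod.natCast_self (p ^ b)
  simp only [Int.cast_add, Int.cast_mul, Int.cast_pow, Int.cast_natCast, h3, mul_zero,
    add_zero, Int.cast_one] at h2
  exact IsUnit.of_mul_eq_one_right _ h2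

omit hp in
lemma dvd_iff (b : ℕ) (x : ℤ) : (p : ℤ) ^ b ∣ x ↔ (x : ZMod (p ^ b)) = 0 := by
  rw [ZMod.intCast_zmod_eq_zero_iff_dvd]
  push_cast
  rfl

def LineInv (b : ℕ) {M : Type*} (K : (ι → ℤ) → (ι → ℤ) → M) : Prop :=
  ∀ (t s t' s' : ι → ℤ) (c c' : ℤ), ¬ (p : ℤ) ∣ c → (∀ j, (p : ℤ) ^ b ∣ t j - c * t' j) →
    (∀ j, (p : ℤ) ^ b ∣ s j - (s' j + c' * t' j)) → K t s = K t' s'

lemma LL [Fintype ι] [DecidableEq ι] [Nonempty ι] (b : ℕ) (hb : 1 ≤ b) :
    ∃ a, b ≤ a ∧ ∀ K : (ι → ℤ) → (ι → ℤ) → ZMod p, LineInv p b K →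
      ∃ h : (ι → ℤ) → ZMod p, Per ((p : ℤ) ^ a) h ∧
        ∀ t, Prim p t → ∀ s, N (p ^ a) t h s = K t s := by
  have : NeZero (p ^ b) := ⟨pow_ne_zero _ hp.out.ne_zero⟩
  choose k0 hk0 H using fun j : ι => L0 p j b
  refine ⟨univ.sup k0 + 1, ?_, fun K hK => ?_⟩
  · obtain ⟨j⟩ := ‹Nonempty ι›
    have : k0 j ≤ univ.sup k0 := Finset.le_sup (mem_univ j)
    have := hk0 j
    omega
  choose Φ hP HΦ using fun j : ι => H j (univ.sup k0 + 1)
    (Nat.lt_succ_of_le (Finset.le_sup (mem_univ j)))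
  set a := univ.sup k0 + 1
  let v : (ι → ZMod (p ^ b)) → ι → ℤ := fun σ j => ((σ j).val : ℤ)
  have hv : ∀ σ j, ((v σ j : ℤ) : ZMod (p ^ b)) = σ j := fun σ j => by simp [v]
  let coef : ι → (ι → ZMod (p ^ b)) × (ι → ZMod (p ^ b)) → ZMod p := fun j x =>
    if x.1 j = 0 ∧ x.2 j = 0 ∧ piv p (v x.1 + Pi.single j 1) = j then
      K (v x.1 + Pi.single j 1) (v x.2) else 0
  refine ⟨fun z => ∑ j, ∑ x, coef j x * Φ j (z - z j • v x.1 - v x.2), fun s y => ?_,
    fun t ht s => ?_⟩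
  · refine Finset.sum_congr rfl fun j _ => Finset.sum_congr rfl fun x _ => ?_
    congr 1
    refine (hP j).congr fun k => ⟨y k - y j * v x.1 k, ?_⟩
    simp only [Pi.add_apply, Pi.sub_apply, Pi.smul_apply, smul_eq_mul]
    ring
  have e1 : N (p ^ a) t (fun z => ∑ j, ∑ x, coef j x * Φ j (z - z j • v x.1 - v x.2)) s =
      ∑ j, ∑ x, coef j x * N (p ^ a) (t - t j • v x.1) (Φ j) (s - s j • v x.1 - v x.2) := by
    rw [N, Finset.sum_comm]
    refine Finset.sum_congr rfl fun j _ => ?_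
    rw [Finset.sum_comm]
    refine Finset.sum_congr rfl fun x _ => ?_
    rw [N, Finset.mul_sum]
    refine Finset.sum_congr rfl fun i _ => ?_
    congr 2
    funext k
    simp only [Pi.add_apply, Pi.sub_apply, Pi.smul_apply, smul_eq_mul]
    ring
  rw [e1, Finset.sum_eq_single (piv p t)]
  · set j := piv p t with hj
    have htj : ¬ (p : ℤ) ∣ t j := piv_spec p ht
    obtain ⟨u, hu⟩ := unit_of p (b := b) htj
    let σ : ι → ZMod (p ^ b) := fun k => if k = j then 0 else (↑u⁻¹ : ZMod (p ^ b)) * t k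
    let β : ι → ZMod (p ^ b) := fun k => if k = j then 0 else (s k : ZMod (p ^ b)) - s j * σ k
    have hσj : σ j = 0 := if_pos rfl
    have hβj : β j = 0 := if_pos rfl
    have c1 : ∀ k ∈ univ.erase j, (p : ℤ) ^ b ∣ (t - t j • v σ) k := by
      intro k hk
      rw [dvd_iff]
      simp only [Pi.sub_apply, Pi.smul_apply, smul_eq_mul]
      push_cast
      rw [hv, ← hu]
      simp [σ, (mem_erase.1 hk).1]
    have c2 : ∀ k ∈ univ.erase j, (p : ℤ) ^ b ∣ (s - s j • v σ - v β) k := by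
      intro k hk
      rw [dvd_iff]
      simp only [Pi.sub_apply, Pi.smul_apply, smul_eq_mul]
      push_cast
      rw [hv, hv]
      simp [β, (mem_erase.1 hk).1]
    have d1 : ∀ k, (p : ℤ) ^ b ∣ t k - t j * (v σ + Pi.single j 1 : ι → ℤ) k := by
      intro k
      by_cases hk : k = j
      · subst hk
        simp [v, hσj]
      · simpa [hk] using c1 k (mem_erase.2 ⟨hk, mem_univ _⟩)
    have d2 : ∀ k, (p : ℤ) ^ b ∣ s k - (v β k + s j * (v σ + Pi.single j 1 : ι → ℤ) k) := by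
      intro k
      by_cases hk : k = j
      · subst hk
        simp [v, hσj, hβj]
      · have := c2 k (mem_erase.2 ⟨hk, mem_univ _⟩)
        simp only [Pi.sub_apply, Pi.smul_apply, smul_eq_mul] at this
        simp only [Pi.add_apply, Pi.single_eq_of_ne hk, add_zero]
        rwa [show s k - (v β k + s j * v σ k) = s k - s j * v σ k - v β k by ring]
    rw [Finset.sum_eq_single (σ, β)]
    · rw [HΦ, if_pos ⟨by simpa [v, hσj] using htj, c1, c2⟩, mul_one]
      have : piv p (v σ + Pi.single j 1) = j :=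
        (piv_congr p htj fun k => (dvd_pow_self _ (by omega)).trans (d1 k)).symm
      simp only [coef]
      rw [if_pos ⟨hσj, hβj, this⟩]
      exact (hK t s _ _ (t j) (s j) htj d1 d2).symm
    · rintro ⟨σ', β'⟩ _ hne
      rw [HΦ]
      by_cases h0 : σ' j = 0 ∧ β' j = 0
      · rw [if_neg, mul_zero]
        rintro ⟨-, h1, h2⟩
        apply hne
        have e1 : σ' = σ := by
          funext k
          by_cases hk : k = j
          · rw [hk, h0.1, hσj]
          · have := h1 k (mem_erase.2 ⟨hk, mem_univ _⟩)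
            rw [dvd_iff] at this
            simp only [Pi.sub_apply, Pi.smul_apply, smul_eq_mul] at this
            push_cast at this
            rw [hv, ← hu, sub_eq_zero] at this
            simp only [σ, if_neg hk]
            rw [this]
            simp
        have e2 : β' = β := by
          funext k
          by_cases hk : k = j
          · rw [hk, h0.2, hβj]
          · have := h2 k (mem_erase.2 ⟨hk, mem_univ _⟩)
            rw [dvd_iff] at this
            simp only [Pi.sub_apply, Pi.smul_apply, smul_eq_mul] at this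
            push_cast at this
            rw [hv, hv, sub_eq_zero] at this
            simp only [β, if_neg hk]
            rw [← this, e1]
        rw [e1, e2]
      · simp only [coef]
        rw [if_neg (fun h => h0 ⟨h.1, h.2.1⟩), zero_mul]
    · intro h
      exact absurd (mem_univ _) h
  · intro j _ hj
    refine Finset.sum_eq_zero fun x _ => ?_
    simp only [coef]
    split_ifs with h0
    · rw [HΦ, if_neg, mul_zero]
      rintro ⟨h1, h2, -⟩
      have htj : ¬ (p : ℤ) ∣ t j := by simpa [v, h0.1] using h1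
      apply hj
      rw [← h0.2.2]
      refine (piv_congr p htj fun k => ?_).symm
      by_cases hk : k = j
      · subst hk
        simp [v, h0.1]
      · have := (dvd_pow_self _ (by omega)).trans (h2 k (mem_erase.2 ⟨hk, mem_univ _⟩))
        simpa [hk] using this
    · exact zero_mul _
  · intro h
    exact absurd (mem_univ _) h

lemma N_lineInv {b : ℕ} {g : (ι → ℤ) → ℤ} (hg : Per ((p : ℤ) ^ b) g) :
    LineInv p b fun t s => N (p ^ b) t g s := by
  have : NeZero (p ^ b) := ⟨pow_ne_zero _ hp.out.ne_zero⟩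
  intro t s t' s' c c' hc h1 h2
  have key : ∀ t s : ι → ℤ, N (p ^ b) t g s =
      ∑ x : ZMod (p ^ b), g (s + ((x.val : ℕ) : ℤ) • t) := by
    intro t s
    rw [N]
    refine (Finset.sum_bij (fun x _ => x.val) (fun x _ => mem_range.2 (ZMod.val_lt x))
      (fun x _ y _ h => ZMod.val_injective _ h) (fun i hi => ⟨(i : ZMod (p ^ b)), mem_univ _,
        ZMod.val_natCast_of_lt (mem_range.1 hi)⟩) (fun x _ => rfl)).symm
  simp only [key]
  obtain ⟨u, hu⟩ := unit_of p (b := b) hc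
  refine Fintype.sum_equiv ((u.mulLeft).trans (Equiv.addLeft (c' : ZMod (p ^ b)))) _ _ fun x => ?_
  refine hg.congr fun j => ?_
  have a1 := h1 j
  have a2 := h2 j
  rw [dvd_iff] at a1 a2 ⊢
  simp only [Pi.add_apply, Pi.smul_apply, smul_eq_mul] at a1 a2 ⊢
  push_cast at a1 a2 ⊢
  simp only [ZMod.natCast_val, ZMod.cast_id', id_eq, Equiv.trans_apply, Units.mulLeft_apply,
    Equiv.coe_addLeft, hu]
  linear_combination a2 + x * a1

lemma PM [Fintype ι] [DecidableEq ι] [Nonempty ι] (e : ℕ) (he : 1 ≤ e) (E : ℕ) :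
    ∃ a w : ℕ, e ≤ a ∧ ∀ ν : (ι → ℤ) → ℤ, LineInv p e (fun t _ => ν t) →
      ∃ g : (ι → ℤ) → ℤ, Per ((p : ℤ) ^ a) g ∧ ∀ t, Prim p t → ∀ s,
        (p : ℤ) ^ (w + E) ∣ N (p ^ a) t g s - (p : ℤ) ^ w * ν t := by
  induction E with
  | zero =>
    exact ⟨e, 0, le_rfl, fun ν _ => ⟨fun _ => 0, fun _ _ => rfl, fun _ _ _ => by simp⟩⟩
  | succ E ih =>
    obtain ⟨a0, w, ha0, H⟩ := ih
    obtain ⟨a, ha, HL⟩ := LL p (ι := ι) a0 (he.trans ha0)
    obtain ⟨c, rfl⟩ := Nat.exists_eq_add_of_le ha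
    refine ⟨a0 + c, w + c, by omega, fun ν hν => ?_⟩
    obtain ⟨g, hg, Hg⟩ := H ν hν
    let K : (ι → ℤ) → (ι → ℤ) → ℤ := fun t s =>
      (N (p ^ a0) t g s - (p : ℤ) ^ w * ν t) / (p : ℤ) ^ (w + E)
    obtain ⟨h, hh, Hh⟩ := HL (fun t s => -(K t s : ZMod p)) (by
      intro t s t' s' c c' hc h1 h2
      have e1 := N_lineInv p hg t s t' s' c c' hc h1 h2
      have e2 := hν t s t' s' c c' hc (fun j => (pow_dvd_pow _ ha0).trans (h1 j))
        (fun j => (pow_dvd_pow _ ha0).trans (h2 j))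
      simp only at e1 e2
      simp only [K, e1, e2])
    refine ⟨fun z => g z + (p : ℤ) ^ (w + c + E) * ((h z).val : ℤ), fun s y => ?_,
      fun t ht s => ?_⟩
    · simp only [hh s y, hg.of_dvd (pow_dvd_pow (p : ℤ) (Nat.le_add_right a0 c)) s y]
    · have e1 : N (p ^ (a0 + c)) t g s = (p : ℤ) ^ c * N (p ^ a0) t g s := by
        have := SL (p ^ a0) (p ^ c) t g (fun _ => 1) ((p : ℤ) ^ c)
          (fun z => by exact_mod_cast hg z t) (fun z => by simp) s
        simpa [pow_add] using this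
      have e2 : N (p ^ a0) t g s - (p : ℤ) ^ w * ν t = (p : ℤ) ^ (w + E) * K t s :=
        (Int.mul_ediv_cancel' (Hg t ht s)).symm
      have e3 : (p : ℤ) ∣ N (p ^ (a0 + c)) t (fun z => ((h z).val : ℤ)) s + K t s := by
        rw [← ZMod.intCast_zmod_eq_zero_iff_dvd]
        have := Hh t ht s
        simp only [N] at this ⊢
        push_cast
        simp only [ZMod.natCast_val, ZMod.cast_id', id_eq]
        rw [this, neg_add_cancel]
      obtain ⟨r, hr⟩ := e3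
      refine ⟨r, ?_⟩
      have e4 : N (p ^ (a0 + c)) t (fun z => g z + (p : ℤ) ^ (w + c + E) * ((h z).val : ℤ)) s =
          N (p ^ (a0 + c)) t g s +
            (p : ℤ) ^ (w + c + E) * N (p ^ (a0 + c)) t (fun z => ((h z).val : ℤ)) s := by
        simp only [N, Finset.sum_add_distrib, Finset.mul_sum]
      rw [e4, e1]
      linear_combination (p : ℤ) ^ c * e2 + (p : ℤ) ^ (w + c + E) * hr

end Pool.Agent.H19.PAut
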