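import Pool.Agent.H19.PAutA

set_option autoImplicit false
set_option linter.unusedSectionVars false

namespace Pool.Agent.H19.PAut

open Finset

@[ext] structure W (T M : Type) where
  f : T → M
  t : T

section
variable {T M : Type} [AddCommGroup T] [AddCommGroup M]

instance : Mul (W T M) := ⟨fun x y => ⟨fun s => x.f s + y.f (s + x.t), x.t + y.t⟩⟩
instance : One (W T M) := ⟨⟨fun _ => 0, 0⟩⟩
instance : Inv (W T M) := ⟨fun x => ⟨fun s => -x.f (s - x.t), -x.t⟩⟩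

@[simp] lemma mul_f (x y : W T M) (s : T) : (x * y).f s = x.f s + y.f (s + x.t) := rfl
@[simp] lemma mul_t (x y : W T M) : (x * y).t = x.t + y.t := rfl
@[simp] lemma one_f (s : T) : (1 : W T M).f s = 0 := rfl
@[simp] lemma one_t : (1 : W T M).t = 0 := rfl
@[simp] lemma inv_f (x : W T M) (s : T) : (x⁻¹).f s = -x.f (s - x.t) := rfl
@[simp] lemma inv_t (x : W T M) : (x⁻¹).t = -x.t := rfl

instance : Group (W T M) :=
  Group.ofLeftAxioms
    (fun x y z => by
      ext s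
      · simp [add_assoc]
      · simp [add_assoc])
    (fun x => by ext s <;> simp)
    (fun x => by
      ext s
      · simp [sub_eq_add_neg]
      · simp)

instance [Finite T] [Finite M] : Finite (W T M) :=
  Finite.of_injective (fun x : W T M => (x.f, x.t)) fun _ _ h =>
    W.ext (congrArg Prod.fst h) (congrArg Prod.snd h)

lemma pow_t (x : W T M) (n : ℕ) : (x ^ n).t = n • x.t := by
  induction n with
  | zero => simp
  | succ n ih => rw [pow_succ, mul_t, ih, succ_nsmul]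

lemma pow_f (x : W T M) (n : ℕ) (s : T) : (x ^ n).f s = ∑ i ∈ range n, x.f (s + i • x.t) := by
  induction n with
  | zero => simp
  | succ n ih => rw [pow_succ, mul_f, ih, pow_t, Finset.sum_range_succ]

lemma pow_f0 (x : W T M) (hx : x.t = 0) (n : ℕ) (s : T) : (x ^ n).f s = n • x.f s := by
  simp [pow_f, hx]

def cst (c : M) : W T M := ⟨fun _ => c, 0⟩

@[simp] lemma cst_f (c : M) (s : T) : (cst c : W T M).f s = c := rfl
@[simp] lemma cst_t (c : M) : (cst c : W T M).t = 0 := rfl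

lemma cst_add (a b : M) : (cst (a + b) : W T M) = cst a * cst b := by ext s <;> simp
lemma cst_zero : (cst 0 : W T M) = 1 := rfl
lemma cst_comm (a : M) (x : W T M) : cst a * x = x * cst a := by
  ext s
  · simp [add_comm]
  · simp
lemma cst_neg (a : M) : (cst (-a) : W T M) = (cst a)⁻¹ := by ext s <;> simp
lemma cst_pow (a : M) (n : ℕ) : (cst a : W T M) ^ n = cst (n • a) := by
  ext s
  · rw [pow_f0 _ rfl]; rfl
  · rw [pow_t]; simp

end

variable (p : ℕ) [hp : Fact p.Prime] {ι : Type} [Fintype ι] [DecidableEq ι] [Nonempty ι]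

lemma total (e : ℕ) (x y : ZMod (p ^ e)) : x ∣ y ∨ y ∣ x := by
  have : NeZero (p ^ e) := ⟨pow_ne_zero _ hp.out.ne_zero⟩
  have key : ∀ z : ZMod (p ^ e), z = 0 ∨ ∃ k : ℕ, Associated ((p : ZMod (p ^ e)) ^ k) z := by
    intro z
    by_cases hz : z.val = 0
    · left
      exact (ZMod.val_eq_zero z).1 hz
    · right
      obtain ⟨k, c, hc, h⟩ := Nat.exists_eq_pow_mul_and_not_dvd hz p hp.out.ne_one
      have hu : IsUnit ((c : ℤ) : ZMod (p ^ e)) := unit_of p (by exact_mod_cast hc)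
      obtain ⟨u, hu⟩ := hu
      refine ⟨k, u, ?_⟩
      rw [hu, ← ZMod.natCast_zmod_val z, h]
      push_cast
      rfl
  rcases key x with rfl | ⟨k, hk⟩
  · exact Or.inr (dvd_zero _)
  rcases key y with rfl | ⟨l, hl⟩
  · exact Or.inl (dvd_zero _)
  rcases le_total k l with h | h
  · exact Or.inl (hk.symm.dvd.trans ((pow_dvd_pow _ h).trans hl.dvd))
  · exact Or.inr (hl.symm.dvd.trans ((pow_dvd_pow _ h).trans hk.dvd))

omit [Fintype ι] [Nonempty ι] in
lemma exists_min (e : ℕ) (x : ι → ZMod (p ^ e)) (J : Finset ι) (hJ : J.Nonempty) :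
    ∃ j ∈ J, ∀ k ∈ J, x j ∣ x k := by
  induction hJ using Finset.Nonempty.cons_induction with
  | singleton a => exact ⟨a, mem_singleton_self a, by simp⟩
  | cons a s ha hs ih =>
    obtain ⟨j, hj, H⟩ := ih
    rcases total p e (x a) (x j) with h | h
    · exact ⟨a, mem_cons_self _ _, by
        simp only [mem_cons, forall_eq_or_imp]
        exact ⟨dvd_rfl, fun k hk => h.trans (H k hk)⟩⟩
    · exact ⟨j, mem_cons_of_mem hj, by
        simp only [mem_cons, forall_eq_or_imp]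
        exact ⟨h, H⟩⟩

def Q (e : ℕ) (ej : ι → ℕ) (u : ι → ℤ) (j : ι) : Prop :=
  ∀ k, ((u j : ZMod (p ^ e)) * (p : ZMod (p ^ e)) ^ (e - ej j)) ∣
    ((u k : ZMod (p ^ e)) * (p : ZMod (p ^ e)) ^ (e - ej k))

noncomputable def jz (e : ℕ) (ej : ι → ℕ) (u : ι → ℤ) : ι := Classical.epsilon (Q p e ej u)

lemma jz_spec (e : ℕ) (ej : ι → ℕ) (u : ι → ℤ) : Q p e ej u (jz p e ej u) := by
  obtain ⟨j, -, H⟩ := exists_min p e
    (fun k => (u k : ZMod (p ^ e)) * (p : ZMod (p ^ e)) ^ (e - ej k)) univ univ_nonempty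
  exact Classical.epsilon_spec (p := Q p e ej u) ⟨j, fun k => H k (mem_univ k)⟩

noncomputable def nu (e : ℕ) (ej : ι → ℕ) (j : ι) (u : ι → ℤ) : ℤ :=
  if j = jz p e ej u then (p : ℤ) ^ (e - ej j) else 0

omit [Fintype ι] in
lemma nu_inv (e : ℕ) (ej : ι → ℕ) (j : ι) : LineInv p e fun t _ => nu p e ej j t := by
  intro t _ t' _ c _ hc h1 _
  obtain ⟨u, hu⟩ := unit_of p (b := e) hc
  have h2 : ∀ k, (t k : ZMod (p ^ e)) = u * t' k := fun k => by
    have := (dvd_iff p e _).1 (h1 k)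
    push_cast at this
    rw [hu]
    exact sub_eq_zero.1 this
  have : Q p e ej t = Q p e ej t' := by
    funext i
    refine propext (forall_congr' fun k => ?_)
    rw [h2, h2, mul_assoc, mul_assoc, Units.mul_left_dvd, Units.dvd_mul_left]
  have hj : jz p e ej t = jz p e ej t' := by rw [jz, jz, this]
  simp only [nu, hj]

structure Dat (ι : Type) where
  e : ℕ
  a : ℕ
  w : ℕ
  ej : ι → ℕ
  g : ι → (ι → ℤ) → ℤ

namespace Dat

variable (D : Dat ι)

abbrev T := ι → ZMod (p ^ (D.a + D.e))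
abbrev Z := ZMod (p ^ (D.w + 2 * D.e))
abbrev M := D.Z p × ZMod (p + 1)
abbrev WW := W (D.T p) (D.M p)

structure Good : Prop where
  he : 1 ≤ D.e
  hej : ∀ j, D.ej j ≤ D.e
  per : ∀ j, Per ((p : ℤ) ^ D.a) (D.g j)
  sum : ∀ j t, Prim p t → ∀ s, (p : ℤ) ^ (D.w + 2 * D.e) ∣
    N (p ^ D.a) t (D.g j) s - (p : ℤ) ^ D.w * nu p D.e D.ej j t

def emb (u : ι → ℤ) : D.T p := fun j => (((p : ℤ) ^ D.e * u j : ℤ) : ZMod _)

def fl (s : D.T p) : ι → ℤ := fun k => ((s k).val : ℤ) / (p : ℤ) ^ D.e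

def x (j : ι) : D.WW p := ⟨fun s => ((D.g j (D.fl p s) : D.Z p), 0), Pi.single j 1⟩

def kap (s : D.T p) : D.WW p := ⟨fun z => (0, if z = s then 1 else 0), 0⟩

def G : Subgroup (D.WW p) := Subgroup.closure (Set.range (D.x p) ∪ Set.range (D.kap p))

def c (j : ι) : D.Z p := (p : D.Z p) ^ (D.w + D.e + (D.e - D.ej j))

def DD : Subgroup (D.WW p) where
  carrier := {y | ∃ τ : ι → ℤ, (∀ j, (τ j : ZMod _) = y.t j) ∧ ∀ u, Prim p u → ∀ s,
    ∑ i ∈ range (p ^ D.a), (y.f (s + i • D.emb p u)).1 =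
      ∑ j, (τ j : D.Z p) * (((p : ℤ) ^ D.w * nu p D.e D.ej j u : ℤ) : D.Z p)}
  one_mem' := ⟨0, by simp, by simp⟩
  mul_mem' := by
    rintro y z ⟨τ, h1, h2⟩ ⟨τ', h1', h2'⟩
    refine ⟨τ + τ', fun j => by simp [h1, h1'], fun u hu s => ?_⟩
    simp only [mul_f, Prod.fst_add, Finset.sum_add_distrib, Pi.add_apply, Int.cast_add, add_mul]
    rw [h2 u hu, ← h2' u hu (s + y.t)]
    simp only [add_right_comm]
  inv_mem' := by
    rintro y ⟨τ, h1, h2⟩
    refine ⟨-τ, fun j => by simp [h1], fun u hu s => ?_⟩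
    simp only [inv_f, Prod.fst_neg, Finset.sum_neg_distrib, Pi.neg_apply, Int.cast_neg, neg_mul]
    rw [← h2 u hu (s - y.t)]
    simp only [sub_add_eq_add_sub]

omit [DecidableEq ι] [Nonempty ι] [Fintype ι] in
lemma fl_emb (s : D.T p) (i : ℕ) (u : ι → ℤ) (k : ι) :
    (p : ℤ) ^ D.a ∣ D.fl p (s + i • D.emb p u) k - (D.fl p s + (i : ℤ) • u) k := by
  have : NeZero (p ^ (D.a + D.e)) := ⟨pow_ne_zero _ hp.out.ne_zero⟩
  have h : (p : ℤ) ^ (D.a + D.e) ∣ (((s + i • D.emb p u) k).val : ℤ) -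
      (((s k).val : ℤ) + (p : ℤ) ^ D.e * (i * u k)) := by
    rw [dvd_iff]
    simp only [Pi.add_apply, Pi.smul_apply]
    simp only [emb, nsmul_eq_mul]
    push_cast
    simp only [ZMod.natCast_val, ZMod.cast_id', id_eq]
    ring
  obtain ⟨r, hr⟩ := h
  refine ⟨r, ?_⟩
  have h2 : (((s + i • D.emb p u) k).val : ℤ) =
      ((s k).val : ℤ) + (p : ℤ) ^ D.e * (i * u k + (p : ℤ) ^ D.a * r) := by
    linear_combination hr
  simp only [fl, Pi.add_apply, Pi.smul_apply, smul_eq_mul] at h2 ⊢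
  rw [h2, Int.add_mul_ediv_left _ _ (ppow_ne p _)]
  ring

lemma G_le (h : D.Good p) : D.G p ≤ D.DD p := by
  rw [G, Subgroup.closure_le]
  rintro _ (⟨j, rfl⟩ | ⟨s, rfl⟩)
  · refine ⟨Pi.single j 1, fun k => by by_cases hk : k = j <;> simp [x, hk], fun u hu s => ?_⟩
    rw [Finset.sum_eq_single j (fun k _ hk => by simp [hk]) (by simp)]
    have := (dvd_iff p _ _).1 (h.sum j u hu (D.fl p s))
    rw [Int.cast_sub, sub_eq_zero] at this
    rw [Pi.single_eq_same, Int.cast_one, one_mul, ← this, N, Int.cast_sum]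
    refine Finset.sum_congr rfl fun i _ => ?_
    simp only [x]
    rw [(h.per j).congr (D.fl_emb p s i u)]
  · exact ⟨0, by simp [kap], by simp [kap]⟩

lemma pow_main (h : D.Good p) {y : D.WW p} {τ : ι → ℤ} (h1 : ∀ j, (τ j : ZMod _) = y.t j)
    (h2 : ∀ u, Prim p u → ∀ s, ∑ i ∈ range (p ^ D.a), (y.f (s + i • D.emb p u)).1 =
      ∑ j, (τ j : D.Z p) * (((p : ℤ) ^ D.w * nu p D.e D.ej j u : ℤ) : D.Z p))
    {d d' : ℕ} (hd : d + d' = D.e) {u : ι → ℤ} (hu : Prim p u)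
    (hτ : ∀ j, τ j = (p : ℤ) ^ d * u j) :
    (y ^ (p ^ d' * p ^ D.a)).t = 0 ∧ ∀ s, ((y ^ (p ^ d' * p ^ D.a)).f s).1 =
      (u (jz p D.e D.ej u) : D.Z p) * D.c p (jz p D.e D.ej u) := by
  have e1 : p ^ d' • y.t = D.emb p u := by
    funext j
    rw [Pi.smul_apply, ← h1, hτ, nsmul_eq_mul]
    simp only [emb]
    push_cast
    rw [← mul_assoc, ← pow_add, add_comm d' d, hd]
  constructor
  · rw [pow_t, mul_comm, mul_smul, e1]
    funext j
    rw [Pi.smul_apply, nsmul_eq_mul, Pi.zero_apply]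
    simp only [emb]
    have : ((p : ZMod (p ^ (D.a + D.e)))) ^ (D.a + D.e) = 0 := by
      exact_mod_cast ZMod.natCast_self (p ^ (D.a + D.e))
    push_cast
    rw [← mul_assoc, ← pow_add, this, zero_mul]
  · intro s
    rw [pow_f, Prod.fst_sum, sum_range_mul']
    have e2 : ∀ l : ℕ, ∑ m ∈ range (p ^ D.a), (y.f (s + (l + m * p ^ d') • y.t)).1 =
        ∑ j, (τ j : D.Z p) * (((p : ℤ) ^ D.w * nu p D.e D.ej j u : ℤ) : D.Z p) := by
      intro l
      rw [← h2 u hu (s + l • y.t)]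
      refine Finset.sum_congr rfl fun m _ => ?_
      rw [add_smul, mul_smul, e1, add_assoc]
    simp only [e2]
    rw [sum_const, card_range, nsmul_eq_mul]
    rw [Finset.sum_eq_single (jz p D.e D.ej u) (fun k _ hk => by simp [nu, hk]) (by simp)]
    simp only [nu, if_true, hτ, c]
    push_cast
    have hde : (p : D.Z p) ^ D.e = (p : D.Z p) ^ d * (p : D.Z p) ^ d' := by rw [← pow_add, hd]
    rw [pow_add (p : D.Z p), pow_add (p : D.Z p), hde]
    ring

omit [DecidableEq ι] in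
lemma lift_dvd (u : ι → ℤ) (k : ι) : ∃ r : D.Z p,
    (u k : D.Z p) * D.c p k = r * ((u (jz p D.e D.ej u) : D.Z p) * D.c p (jz p D.e D.ej u)) := by
  classical
  have : NeZero (p ^ D.e) := ⟨pow_ne_zero _ hp.out.ne_zero⟩
  obtain ⟨r, hr⟩ := jz_spec p D.e D.ej u k
  set j := jz p D.e D.ej u
  have h1 : (p : ℤ) ^ D.e ∣ u k * (p : ℤ) ^ (D.e - D.ej k) -
      u j * (p : ℤ) ^ (D.e - D.ej j) * (r.val : ℤ) := by
    rw [dvd_iff]
    push_cast
    simp only [ZMod.natCast_val, ZMod.cast_id', id_eq]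
    rw [hr, sub_self]
  obtain ⟨n, hn⟩ := h1
  have h2 := congrArg (fun z : ℤ => (z : D.Z p)) hn
  have h3 : ((p : D.Z p)) ^ (D.w + 2 * D.e) = 0 := by
    exact_mod_cast ZMod.natCast_self (p ^ (D.w + 2 * D.e))
  refine ⟨((r.val : ℤ) : D.Z p), ?_⟩
  simp only [Int.cast_sub, Int.cast_mul, Int.cast_pow, Int.cast_natCast] at h2 ⊢
  simp only [c]
  linear_combination (p : D.Z p) ^ (D.w + D.e) * h2 + (n : D.Z p) * h3

end Dat

end Pool.Agent.H19.PAut
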