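import Pool.Agent.H19.PAutB

set_option autoImplicit false
set_option linter.unusedSectionVars false

namespace Pool.Agent.H19.PAut

open Finset

variable (p : ℕ) [hp : Fact p.Prime] {ι : Type} [Fintype ι] [DecidableEq ι] [Nonempty ι]

lemma decomp (τ : ι → ℤ) (e : ℕ) : (∀ j, (p : ℤ) ^ e ∣ τ j) ∨
    ∃ (d : ℕ) (u : ι → ℤ), d ≤ e ∧ Prim p u ∧ ∀ j, τ j = (p : ℤ) ^ d * u j := by
  induction e with
  | zero => exact Or.inl fun j => by simp
  | succ e ih =>
    rcases ih with h | ⟨d, u, hd, hu, h⟩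
    · choose u hu using h
      by_cases hpr : Prim p u
      · exact Or.inr ⟨e, u, by omega, hpr, hu⟩
      · left
        intro j
        have : (p : ℤ) ∣ u j := by
          by_contra hc
          exact hpr ⟨j, hc⟩
        rw [hu j, pow_succ]
        exact mul_dvd_mul_left _ this
    · exact Or.inr ⟨d, u, by omega, hu, h⟩

namespace Dat

variable (D : Dat ι)

instance : NeZero (p ^ (D.a + D.e)) := ⟨pow_ne_zero _ hp.out.ne_zero⟩
instance : NeZero (p ^ (D.w + 2 * D.e)) := ⟨pow_ne_zero _ hp.out.ne_zero⟩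

def cz (c : D.Z p) : D.WW p := cst (c, 0)

lemma cz_add (a b : D.Z p) : D.cz p (a + b) = D.cz p a * D.cz p b := by
  rw [cz, cz, cz, ← cst_add]; simp

lemma cz_pow (a : D.Z p) (n : ℕ) : D.cz p a ^ n = D.cz p (n * a) := by
  rw [cz, cz, cst_pow]; simp

lemma cz_mul_mem {S : Subgroup (D.WW p)} {a : D.Z p} (h : D.cz p a ∈ S) (r : D.Z p) :
    D.cz p (r * a) ∈ S := by
  have := S.pow_mem h r.val
  rwa [cz_pow, ZMod.natCast_zmod_val] at this

/-- a power of `y` is the constant attached to its direction -/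
lemma cz_mem (h : D.Good p) {y : D.WW p} {τ : ι → ℤ} (h1 : ∀ j, (τ j : ZMod _) = y.t j)
    (h2 : ∀ u, Prim p u → ∀ s, ∑ i ∈ range (p ^ D.a), (y.f (s + i • D.emb p u)).1 =
      ∑ j, (τ j : D.Z p) * (((p : ℤ) ^ D.w * nu p D.e D.ej j u : ℤ) : D.Z p))
    {d : ℕ} (hd : d ≤ D.e) {u : ι → ℤ} (hu : Prim p u)
    (hτ : ∀ j, τ j = (p : ℤ) ^ d * u j) (k : ι) :
    D.cz p ((u k : D.Z p) * D.c p k) ∈ Subgroup.zpowers y := by
  obtain ⟨e1, e2⟩ := D.pow_main p h h1 h2 (d' := D.e - d) (by omega) hu hτ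
  set Y := y ^ (p ^ (D.e - d) * p ^ D.a) with hY
  set c0 := (u (jz p D.e D.ej u) : D.Z p) * D.c p (jz p D.e D.ej u)
  have e3 : Y ^ (p + 1) = D.cz p (((p + 1 : ℕ) : D.Z p) * c0) := by
    ext s
    · rw [pow_f0 _ e1, Prod.smul_fst, e2, nsmul_eq_mul]
      rfl
    · rw [pow_f0 _ e1, Prod.smul_snd, nsmul_eq_mul, ZMod.natCast_self, zero_mul]
      rfl
    · rw [pow_t, e1, smul_zero]
      rfl
  have e4 : D.cz p (((p + 1 : ℕ) : D.Z p) * c0) ∈ Subgroup.zpowers y := by
    rw [← e3]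
    exact Subgroup.pow_mem _ (Subgroup.pow_mem _ (Subgroup.mem_zpowers y) _) _
  have hu : IsUnit ((((p + 1 : ℕ) : ℤ)) : ZMod (p ^ (D.w + 2 * D.e))) := by
    refine unit_of p fun hc => ?_
    have : (p : ℤ) ∣ 1 := by
      push_cast at hc
      exact (dvd_add_right dvd_rfl).1 hc
    exact hp.out.one_lt.ne' (by exact_mod_cast Int.eq_one_of_dvd_one (by positivity) this)
  obtain ⟨v, hv⟩ := hu.exists_left_inv
  rw [Int.cast_natCast] at hv
  obtain ⟨r, hr⟩ := D.lift_dvd p u k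
  have := D.cz_mul_mem p e4 (r * v)
  rwa [mul_assoc, ← mul_assoc v, hv, one_mul, ← hr] at this

lemma prim_single (j : ι) : Prim p (Pi.single j 1 : ι → ℤ) :=
  ⟨j, fun hc => hp.out.one_lt.ne' (by
    rw [Pi.single_eq_same] at hc
    exact_mod_cast Int.eq_one_of_dvd_one (by positivity) hc)⟩

lemma x_mem (j : ι) : D.x p j ∈ D.G p := Subgroup.subset_closure (Or.inl ⟨j, rfl⟩)
lemma kap_mem (s : D.T p) : D.kap p s ∈ D.G p := Subgroup.subset_closure (Or.inr ⟨s, rfl⟩)

lemma x_dat (h : D.Good p) (j : ι) :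
    (∀ k, ((Pi.single j 1 : ι → ℤ) k : ZMod _) = (D.x p j).t k) ∧ ∀ u, Prim p u → ∀ s,
    ∑ i ∈ range (p ^ D.a), ((D.x p j).f (s + i • D.emb p u)).1 =
      ∑ k, ((Pi.single j 1 : ι → ℤ) k : D.Z p) *
        (((p : ℤ) ^ D.w * nu p D.e D.ej k u : ℤ) : D.Z p) := by
  refine ⟨fun k => by by_cases hk : k = j <;> simp [x, hk], fun u hu s => ?_⟩
  rw [Finset.sum_eq_single j (fun k _ hk => by simp [hk]) (by simp)]
  have := (dvd_iff p _ _).1 (h.sum j u hu (D.fl p s))
  rw [Int.cast_sub, sub_eq_zero] at this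
  rw [Pi.single_eq_same, Int.cast_one, one_mul, ← this, N, Int.cast_sum]
  refine Finset.sum_congr rfl fun i _ => ?_
  simp only [x]
  rw [(h.per j).congr (D.fl_emb p s i u)]

lemma c_mem (h : D.Good p) (j : ι) : D.cz p (D.c p j) ∈ D.G p := by
  have := D.cz_mem p h (D.x_dat p h j).1 (D.x_dat p h j).2 (Nat.zero_le _) (prim_single p j)
    (fun k => by simp) j
  rw [Pi.single_eq_same, Int.cast_one, one_mul] at this
  exact (Subgroup.zpowers_le.2 (D.x_mem p j)) this

lemma x_pow (h : D.Good p) (j : ι) :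
    ∃ r : D.Z p, D.x p j ^ (p ^ (D.a + D.e)) = D.cz p (r * D.c p j) := by
  obtain ⟨e1, e2⟩ := D.pow_main p h (D.x_dat p h j).1 (D.x_dat p h j).2 (d := 0) (d' := D.e)
    (by omega) (prim_single p j) (fun k => by simp)
  rw [← pow_add, add_comm D.e D.a] at e1 e2
  refine ⟨if jz p D.e D.ej (Pi.single j 1) = j then 1 else 0, ?_⟩
  ext s
  · rw [e2]
    split_ifs with hj
    · rw [hj]; simp [cz]
    · simp [cz, hj]
  · rw [pow_f, Prod.snd_sum]
    simp [x, cz]
  · rw [e1]; rfl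

lemma c_kill (h : D.Good p) (j : ι) : (p : D.Z p) ^ D.ej j * D.c p j = 0 := by
  have h3 : ((p : D.Z p)) ^ (D.w + 2 * D.e) = 0 := by
    exact_mod_cast ZMod.natCast_self (p ^ (D.w + 2 * D.e))
  have := h.hej j
  rw [c, ← pow_add, show D.ej j + (D.w + D.e + (D.e - D.ej j)) = D.w + 2 * D.e by omega, h3]

noncomputable def mu (h : D.Good p) (j : ι) : ZMod (p ^ D.ej j) →+ D.Z p :=
  ZMod.lift (p ^ D.ej j) ⟨zmultiplesHom _ (D.c p j), by
    simp only [zmultiplesHom_apply, zsmul_eq_mul]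
    push_cast
    exact D.c_kill p h j⟩

lemma mu_int (h : D.Good p) (j : ι) (n : ℤ) :
    D.mu p h j (n : ZMod _) = (n : D.Z p) * D.c p j := by
  rw [mu, ZMod.lift_coe]
  simp

lemma mu_inj (h : D.Good p) (j : ι) (y : ZMod (p ^ D.ej j)) (hy : D.mu p h j y = 0) : y = 0 := by
  obtain ⟨n, rfl⟩ := ZMod.intCast_surjective y
  rw [mu_int] at hy
  have h1 : (p : ℤ) ^ (D.w + 2 * D.e) ∣ n * (p : ℤ) ^ (D.w + D.e + (D.e - D.ej j)) := by
    rw [dvd_iff]
    push_cast
    exact hy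
  have := h.hej j
  rw [show D.w + 2 * D.e = D.ej j + (D.w + D.e + (D.e - D.ej j)) by omega, pow_add] at h1
  exact (dvd_iff p _ _).1 ((mul_dvd_mul_iff_right (ppow_ne p _)).1 h1)

noncomputable def red (h : D.Good p) (j : ι) : ZMod (p ^ (D.a + D.e)) →+* ZMod (p ^ D.ej j) :=
  ZMod.castHom (pow_dvd_pow p ((h.hej j).trans (Nat.le_add_left _ _))) _

noncomputable def chi (h : D.Good p) (a : ∀ j, ZMod (p ^ D.ej j)) (t : D.T p) : D.Z p :=
  ∑ j, D.mu p h j (a j * D.red p h j (t j))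

lemma chi_add (h : D.Good p) (a : ∀ j, ZMod (p ^ D.ej j)) (t t' : D.T p) :
    D.chi p h a (t + t') = D.chi p h a t + D.chi p h a t' := by
  simp [chi, mul_add, Finset.sum_add_distrib]

lemma chi_add' (h : D.Good p) (a a' : ∀ j, ZMod (p ^ D.ej j)) (t : D.T p) :
    D.chi p h (a + a') t = D.chi p h a t + D.chi p h a' t := by
  simp [chi, add_mul, Finset.sum_add_distrib]

lemma chi_zero (h : D.Good p) (a : ∀ j, ZMod (p ^ D.ej j)) : D.chi p h a 0 = 0 := by
  simp [chi]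

lemma chi_zero' (h : D.Good p) (t : D.T p) : D.chi p h 0 t = 0 := by
  simp [chi]

lemma chi_single (h : D.Good p) (a : ∀ j, ZMod (p ^ D.ej j)) (j : ι) :
    D.chi p h a (Pi.single j 1) = D.mu p h j (a j) := by
  rw [chi, Finset.sum_eq_single j (fun k _ hk => by simp [hk]) (by simp)]
  simp

lemma cz_zero : D.cz p 0 = 1 := rfl

lemma cz_sum {S : Subgroup (D.WW p)} (b : ι → D.Z p) (hb : ∀ j, D.cz p (b j) ∈ S) (J : Finset ι) :
    D.cz p (∑ j ∈ J, b j) ∈ S := by
  induction J using Finset.induction_on with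
  | empty => exact S.one_mem
  | insert j J hj ih => rw [Finset.sum_insert hj, cz_add]; exact S.mul_mem (hb j) ih

lemma chi_mem (h : D.Good p) (a : ∀ j, ZMod (p ^ D.ej j)) (t : D.T p) :
    D.cz p (D.chi p h a t) ∈ D.G p := by
  refine D.cz_sum p _ (fun j => ?_) _
  obtain ⟨n, hn⟩ := ZMod.intCast_surjective (a j * D.red p h j (t j))
  rw [← hn, mu_int]
  exact D.cz_mul_mem p (D.c_mem p h j) _

lemma chi_zpow (h : D.Good p) (a : ∀ j, ZMod (p ^ D.ej j)) {y : D.WW p} (hy : y ∈ D.G p) :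
    D.cz p (D.chi p h a y.t) ∈ Subgroup.zpowers y := by
  obtain ⟨τ, h1, h2⟩ := D.G_le p h hy
  refine D.cz_sum p _ (fun j => ?_) _
  obtain ⟨n, hn⟩ := ZMod.intCast_surjective (a j)
  rw [← hn, ← h1, map_intCast, ← Int.cast_mul, mu_int]
  rcases decomp p τ D.e with h0 | ⟨d, u, hd, hu, hτ⟩
  · obtain ⟨r, hr⟩ := (pow_dvd_pow _ (h.hej j)).trans (h0 j)
    have : ((n * τ j : ℤ) : D.Z p) * D.c p j = 0 := by
      rw [hr]
      push_cast
      linear_combination (n : D.Z p) * r * D.c_kill p h j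
    rw [this]
    exact Subgroup.one_mem _
  · have := D.cz_mul_mem p (D.cz_mem p h h1 h2 hd hu hτ j) ((n * (p : ℤ) ^ d : ℤ) : D.Z p)
    rw [hτ]
    push_cast at this ⊢
    rwa [← mul_assoc, mul_assoc (n : D.Z p)] at this

noncomputable def F (h : D.Good p) (a : ∀ j, ZMod (p ^ D.ej j)) (y : D.G p) : D.G p :=
  ⟨y * D.cz p (D.chi p h a y.1.t), (D.G p).mul_mem y.2 (D.chi_mem p h a _)⟩

lemma F_t (h : D.Good p) (a : ∀ j, ZMod (p ^ D.ej j)) (y : D.G p) : (D.F p h a y).1.t = y.1.t := by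
  simp [F, cz]

lemma F_F (h : D.Good p) (a a' : ∀ j, ZMod (p ^ D.ej j)) (y : D.G p) :
    D.F p h a (D.F p h a' y) = D.F p h (a + a') y := by
  apply Subtype.ext
  change (D.F p h a' y).1 * D.cz p (D.chi p h a (D.F p h a' y).1.t) = _
  rw [F_t]
  simp only [F]
  rw [mul_assoc, ← cz_add, chi_add', add_comm (D.chi p h a' _)]

lemma F_zero (h : D.Good p) (y : D.G p) : D.F p h 0 y = y := by
  apply Subtype.ext
  simp only [F]
  rw [chi_zero', cz_zero, mul_one]

noncomputable def FA (h : D.Good p) (a : ∀ j, ZMod (p ^ D.ej j)) : MulAut (D.G p) where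
  toFun := D.F p h a
  invFun := D.F p h (-a)
  left_inv y := by rw [F_F, neg_add_cancel, F_zero]
  right_inv y := by rw [F_F, add_neg_cancel, F_zero]
  map_mul' y z := by
    apply Subtype.ext
    simp only [F, Subgroup.coe_mul, mul_t]
    rw [chi_add, cz_add, mul_assoc, mul_assoc]
    congr 1
    rw [← mul_assoc, ← mul_assoc]
    congr 1
    exact (cst_comm _ _).symm

lemma FA_zpow (h : D.Good p) (a : ∀ j, ZMod (p ^ D.ej j)) (y : D.G p) :
    D.FA p h a y ∈ Subgroup.zpowers y := by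
  obtain ⟨n, hn⟩ := D.chi_zpow p h a y.2
  refine ⟨1 + n, Subtype.ext ?_⟩
  change ((y ^ (1 + n) : D.G p) : D.WW p) = y * D.cz p (D.chi p h a y.1.t)
  rw [← hn, zpow_add, zpow_one]
  simp

lemma one_ne (h : D.Good p) : (1 : ZMod (p ^ (D.a + D.e))) ≠ 0 := by
  have : Fact (1 < p ^ (D.a + D.e)) :=
    ⟨Nat.one_lt_pow (by have := h.he; omega) hp.out.one_lt⟩
  exact one_ne_zero

lemma single_ne (h : D.Good p) (j : ι) : (Pi.single j 1 : D.T p) ≠ 0 := fun hc =>
  D.one_ne p h (by simpa using congrFun hc j)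

lemma exp_one (h : D.Good p) (j : ι) {n : ℕ} (hn : n • (Pi.single j 1 : D.T p) = Pi.single j 1) :
    ∃ l, n = 1 + p ^ (D.a + D.e) * l := by
  have h1 : (n : ZMod (p ^ (D.a + D.e))) = 1 := by
    have := congrFun hn j
    rwa [Pi.smul_apply, Pi.single_eq_same, nsmul_eq_mul, mul_one] at this
  rcases n with _ | n
  · exact absurd (by simpa using h1.symm) (D.one_ne p h)
  · have : (n : ZMod (p ^ (D.a + D.e))) = 0 := by simpa using h1
    obtain ⟨l, hl⟩ := (ZMod.natCast_eq_zero_iff _ _).1 this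
    exact ⟨l, by omega⟩

lemma surj (h : D.Good p) (φ : MulAut (D.G p)) (hφ : ∀ y, φ y ∈ Subgroup.zpowers y) :
    ∃ a, D.FA p h a = φ := by
  have hn : ∀ y : D.G p, ∃ n : ℕ, (φ y : D.WW p) = (y : D.WW p) ^ n := fun y => by
    obtain ⟨n, hn⟩ := mem_powers_iff_mem_zpowers.2 (hφ y)
    exact ⟨n, by rw [← hn]; rfl⟩
  let X : ι → D.G p := fun j => ⟨D.x p j, D.x_mem p j⟩
  let Kp : D.T p → D.G p := fun s => ⟨D.kap p s, D.kap_mem p s⟩
  have one2 : (1 : ZMod (p + 1)) ≠ 0 := by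
    have : Fact (1 < p + 1) := ⟨by have := hp.out.one_lt; omega⟩
    exact one_ne_zero
  have kpow : ∀ (s z : D.T p) (m : ℕ), ((D.kap p s ^ m).f z) =
      (0, (m : ZMod (p + 1)) * if z = s then 1 else 0) := fun s z m => by
    rw [pow_f0 _ rfl]
    simp [kap]
  have kt : ∀ (s : D.T p) (m : ℕ), (D.kap p s ^ m).t = 0 := fun s m => by
    rw [pow_t]; simp [kap]
  have xsnd : ∀ (j : ι) (n : ℕ) (z : D.T p), ((D.x p j ^ n).f z).2 = 0 := fun j n z => by
    rw [pow_f, Prod.snd_sum]; simp [x]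
  have hX : ∀ j, (φ (X j)).1.t = Pi.single j 1 ∧ ∃ r : D.Z p,
      (φ (X j)).1 = D.x p j * D.cz p (r * D.c p j) := by
    intro j
    obtain ⟨n, e1⟩ := hn (X j)
    obtain ⟨m1, e2⟩ := hn (Kp 0)
    obtain ⟨m2, e3⟩ := hn (Kp (-Pi.single j 1))
    have r1 : X j * Kp 0 = Kp (-Pi.single j 1) * X j := by
      apply Subtype.ext
      ext s
      · simp [X, Kp, x, kap]
      · simp [X, Kp, x, kap, add_eq_zero_iff_eq_neg]
      · simp [X, Kp, x, kap]
    have r2 := congrArg (fun y => ((φ y).1.f (-(n • (Pi.single j 1 : D.T p)))).2) r1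
    simp only [map_mul, Subgroup.coe_mul, mul_f, e1, e2, e3, X, Kp, Prod.snd_add, xsnd, kpow,
      pow_t] at r2
    have xt : (D.x p j).t = Pi.single j 1 := rfl
    rw [xt, neg_add_cancel, if_pos rfl] at r2
    have hm : (m1 : ZMod (p + 1)) ≠ 0 := by
      intro h0
      have : φ (Kp 0) = 1 := by
        apply Subtype.ext
        rw [e2]
        ext s
        · simp [Kp, kpow]
        · simp [Kp, kpow, h0]
        · simp [Kp, kt]
      have h1 := congrArg (fun y : D.G p => (y.1.f 0).2) ((MulEquiv.map_eq_one_iff φ).1 this)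
      simp only [Kp, kap, if_true] at h1
      exact one2 h1
    have ht : n • (Pi.single j 1 : D.T p) = Pi.single j 1 := by
      by_contra hc
      rw [if_neg (fun hh => hc (neg_injective hh))] at r2
      exact hm (by simpa using r2)
    refine ⟨by rw [e1, pow_t]; exact ht, ?_⟩
    obtain ⟨l, rfl⟩ := D.exp_one p h j ht
    obtain ⟨r, hr⟩ := D.x_pow p h j
    refine ⟨l * r, ?_⟩
    rw [e1, pow_add (X j : D.WW p), pow_one, pow_mul]
    change D.x p j * (D.x p j ^ _) ^ l = _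
    rw [hr, cz_pow, mul_assoc]
  have hK : ∀ s, φ (Kp s) = Kp s := by
    intro s
    obtain ⟨j⟩ := ‹Nonempty ι›
    obtain ⟨m, e2⟩ := hn (Kp s)
    obtain ⟨n, e1⟩ := hn (X j * Kp s)
    obtain ⟨ht, r, hr⟩ := hX j
    set y : D.WW p := ((X j * Kp s : D.G p) : D.WW p) with hy
    have yt : y.t = Pi.single j 1 := by simp [hy, X, Kp, x, kap]
    have yf : ∀ z, (y.f z).2 = if z + Pi.single j 1 = s then 1 else 0 := fun z => by
      simp [hy, X, Kp, x, kap]
    rw [map_mul, Subgroup.coe_mul, e2, hr] at e1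
    have e3 := congrArg W.t e1
    simp only [Kp, mul_t, kt, cz, cst_t, add_zero, pow_t, yt] at e3
    obtain ⟨l, rfl⟩ := D.exp_one p h j e3.symm
    set Y := y ^ (p ^ (D.a + D.e) * l) with hY
    have Yt : Y.t = 0 := by
      rw [hY, pow_t, yt]
      funext k
      rw [Pi.smul_apply, nsmul_eq_mul, Nat.cast_mul, ZMod.natCast_self, zero_mul, zero_mul]
      rfl
    have Yc : ∀ z, Y.f (z + Pi.single j 1) = Y.f z := fun z => by
      have := congrArg (fun w => w.f z) ((Commute.refl y).pow_right (p ^ (D.a + D.e) * l)).eq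
      simp only [mul_f, ← hY, Yt, yt, add_zero] at this
      rw [add_comm (Y.f z)] at this
      exact add_left_cancel this
    rw [pow_add y, pow_one, ← hY] at e1
    have key : ∀ z, (m : ZMod (p + 1)) * (if z + Pi.single j 1 = s then 1 else 0) =
        (if z + Pi.single j 1 = s then 1 else 0) + (Y.f z).2 := fun z => by
      have := congrArg (fun w => (w.f z).2) e1
      simp only [mul_f, mul_t, Kp, kpow, Prod.snd_add, yf, yt, Yc, cz, cst_f, cst_t,
        add_zero] at this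
      simp only [x, zero_add, add_zero] at this
      exact this
    have k1 := key s
    have k2 := key (s - Pi.single j 1)
    rw [if_neg (by simpa using D.single_ne p h j), mul_zero, zero_add] at k1
    rw [← Yc, sub_add_cancel, if_pos rfl, mul_one, ← k1, add_zero] at k2
    apply Subtype.ext
    rw [e2]
    change D.kap p s ^ m = D.kap p s
    refine W.ext (funext fun z => ?_) (kt s m)
    rw [kpow, k2, one_mul]
    rfl
  choose ht r hr using hX
  refine ⟨fun j => (((r j).val : ℤ) : ZMod _), ?_⟩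
  ext1 ⟨y, hy⟩
  induction hy using Subgroup.closure_induction with
  | mem y hy =>
    rcases hy with ⟨j, rfl⟩ | ⟨s, rfl⟩
    · apply Subtype.ext
      change D.x p j * D.cz p (D.chi p h _ (Pi.single j 1)) = (φ (X j)).1
      rw [hr, chi_single, mu_int]
      simp
    · apply Subtype.ext
      change D.kap p s * D.cz p (D.chi p h _ 0) = (φ (Kp s)).1
      rw [hK, chi_zero, cz_zero, mul_one]
  | one => exact (map_one _).trans (map_one φ).symm
  | mul y z hy hz ih1 ih2 =>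
    have : (⟨y * z, (D.G p).mul_mem hy hz⟩ : D.G p) = ⟨y, hy⟩ * ⟨z, hz⟩ := rfl
    rw [this, map_mul, map_mul, ih1, ih2]
  | inv y hy ih =>
    have : (⟨y⁻¹, (D.G p).inv_mem hy⟩ : D.G p) = (⟨y, hy⟩ : D.G p)⁻¹ := rfl
    rw [this, map_inv, map_inv, ih]

end Dat

theorem main (ej : ι → ℕ) :
    ∃ (G : Type) (_ : Group G) (f : (∀ j, Multiplicative (ZMod (p ^ ej j))) →* MulAut G),
      Function.Injective f ∧ ∀ φ : MulAut G,
        (φ ∈ f.range ↔ ∀ H : Subgroup G, H.map φ.toMonoidHom = H) := by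
  obtain ⟨a, w, -, H⟩ := PM p (ι := ι) (univ.sup ej + 1) (by omega) (2 * (univ.sup ej + 1))
  choose g hg Hg using fun j => H (nu p (univ.sup ej + 1) ej j) (nu_inv p _ ej j)
  let D : Dat ι := ⟨univ.sup ej + 1, a, w, ej, g⟩
  have h : D.Good p := ⟨Nat.le_add_left _ _,
    fun j => Nat.le_succ_of_le (Finset.le_sup (f := ej) (mem_univ j)), hg, Hg⟩
  let f : (∀ j, Multiplicative (ZMod (p ^ ej j))) →* MulAut (D.G p) :=
    MonoidHom.mk' (fun b => D.FA p h fun j => (b j).toAdd) fun b b' => by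
      ext1 y
      exact (D.F_F p h _ _ y).symm
  refine ⟨D.G p, inferInstance, f, ?_, fun φ => ⟨?_, fun hφ => ?_⟩⟩
  · refine (injective_iff_map_eq_one f).2 fun b hb => ?_
    funext j
    have h1 := congrArg (fun ψ : MulAut (D.G p) => (ψ ⟨D.x p j, D.x_mem p j⟩).1) hb
    change D.x p j * D.cz p (D.chi p h _ (Pi.single j 1)) = D.x p j at h1
    rw [mul_eq_left, Dat.chi_single] at h1
    have h2 := congrArg (fun y : D.WW p => (y.f 0).1) h1
    exact D.mu_inj p h j _ h2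
  · rintro ⟨b, rfl⟩ S
    apply le_antisymm
    · rintro _ ⟨y, hy, rfl⟩
      exact (Subgroup.zpowers_le.2 hy) (D.FA_zpow p h _ y)
    · intro y hy
      refine ⟨f b⁻¹ y, (Subgroup.zpowers_le.2 hy) (D.FA_zpow p h _ y), ?_⟩
      change (f b * f b⁻¹) y = y
      rw [← map_mul, mul_inv_cancel, map_one]
      rfl
  · obtain ⟨b, hb⟩ := D.surj p h φ fun y => by
      rw [← hφ (Subgroup.zpowers y)]
      exact ⟨y, Subgroup.mem_zpowers y, rfl⟩
    exact ⟨fun j => Multiplicative.ofAdd (b j), hb⟩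

end Pool.Agent.H19.PAut
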