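import Mathlib

set_option autoImplicit false
set_option linter.unusedSectionVars false

namespace Pool.Agent.H19.Poi

variable {A : Type*} [CommRing A]

/-- an additive map with the Leibniz rule -/
structure Dn (D : A → A) : Prop where
  add : ∀ a b, D (a + b) = D a + D b
  mul : ∀ a b, D (a * b) = D a * b + a * D b

namespace Dn
variable {D : A → A} (h : Dn D)
include h

theorem zero : D 0 = 0 := by
  have := h.add 0 0
  simpa using this

theorem neg (a : A) : D (-a) = - D a := by
  have := h.add a (-a)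
  rw [add_neg_cancel, h.zero] at this
  linear_combination -this

theorem sub (a b : A) : D (a - b) = D a - D b := by
  rw [sub_eq_add_neg, h.add, h.neg, sub_eq_add_neg]

theorem one : D 1 = 0 := by
  have := h.mul 1 1
  simp only [mul_one, one_mul] at this
  linear_combination -this

theorem two : D 2 = 0 := by
  rw [← one_add_one_eq_two, h.add, h.one, add_zero]

theorem sum {ι : Type*} (s : Finset ι) (f : ι → A) : D (∑ i ∈ s, f i) = ∑ i ∈ s, D (f i) := by
  classical
  induction s using Finset.induction_on with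
  | empty => simp [h.zero]
  | insert i s hi ih => rw [Finset.sum_insert hi, Finset.sum_insert hi, h.add, ih]

end Dn

/-- total derivatives -/
def Ex (D : A → A) (f : A) : Prop := ∃ E, f = D E

section
variable {D : A → A} (h : Dn D)
include h

theorem Ex.add {f g : A} (hf : Ex D f) (hg : Ex D g) : Ex D (f + g) := by
  obtain ⟨a, rfl⟩ := hf
  obtain ⟨b, rfl⟩ := hg
  exact ⟨a + b, (h.add a b).symm⟩

theorem Ex.sub {f g : A} (hf : Ex D f) (hg : Ex D g) : Ex D (f - g) := by
  obtain ⟨a, rfl⟩ := hf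
  obtain ⟨b, rfl⟩ := hg
  exact ⟨a - b, (h.sub a b).symm⟩

theorem Ex.zero : Ex D 0 := ⟨0, h.zero.symm⟩

theorem Ex.sum {ι : Type*} (s : Finset ι) (f : ι → A) (hf : ∀ i ∈ s, Ex D (f i)) :
    Ex D (∑ i ∈ s, f i) := by
  classical
  induction s using Finset.induction_on with
  | empty => simpa using Ex.zero h
  | insert i s hi ih =>
    rw [Finset.sum_insert hi]
    exact Ex.add h (hf i (Finset.mem_insert_self _ _))
      (ih fun j hj => hf j (Finset.mem_insert_of_mem hj))

theorem parts (k : ℕ) : ∀ a b : A, Ex D (D^[k] a * b - (fun g => - D g)^[k] b * a) := by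
  induction k with
  | zero => intro a b; simpa [mul_comm] using Ex.zero h
  | succ k ih =>
    intro a b
    have h1 := ih a (- D b)
    have h2 : Ex D (D (D^[k] a * b)) := ⟨_, rfl⟩
    have h3 := Ex.add h h1 h2
    rw [h.mul] at h3
    rw [Function.iterate_succ_apply', Function.iterate_succ_apply]
    have e : D (D^[k] a) * b - (fun g => - D g)^[k] (- D b) * a =
        D^[k] a * - D b - (fun g => - D g)^[k] (- D b) * a + (D (D^[k] a) * b + D^[k] a * D b) := by
      ring
    rw [e]; exact h3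

end

theorem Ex.of_eq {D : A → A} {f g : A} (hg : Ex D g) (e : f = g) : Ex D f := e ▸ hg

/-- the explicit operator -/
def K (D : A → A) (m s x y : A) (b : Fin 3 → A) : Fin 3 → A :=
  ![D (m * D (D (b 2))),
    D (m * (D (D (b 1)) - x * D (D (b 2)) - D x * D (b 2))),
    D (m * (D (D (b 0)) - x * D (D (b 1)) + (2 * y + x * x) * D (D (b 2))
      + (x * D x + D y) * D (b 2)) + 2 * s * D (D (b 2)))]

def ip (a b : Fin 3 → A) : A := a 0 * b 0 + a 1 * b 1 + a 2 * b 2

/-- variation of the operator -/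
def K' (D : A → A) (m x ξ η : A) (b : Fin 3 → A) : Fin 3 → A :=
  ![0, D (m * (- ξ * D (D (b 2)) - D ξ * D (b 2))),
    D (m * (- ξ * D (D (b 1)) + (2 * η + 2 * x * ξ) * D (D (b 2))
      + (ξ * D x + x * D ξ + D η) * D (b 2)))]

section
variable {D : A → A} (h : Dn D) {m s x y : A} (hm : D m = 0) (hs : D s = 0)
include h hm hs

theorem skew (a b : Fin 3 → A) : Ex D (ip a (K D m s x y b) + ip b (K D m s x y a)) := by
  refine ⟨a 0 * (m * D (D (b 2))) + a 1 * (m * (D (D (b 1)) - x * D (D (b 2)) - D x * D (b 2)))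
    + a 2 * (m * (D (D (b 0)) - x * D (D (b 1)) + (2 * y + x * x) * D (D (b 2))
      + (x * D x + D y) * D (b 2)) + 2 * s * D (D (b 2)))
    + b 0 * (m * D (D (a 2))) + b 1 * (m * (D (D (a 1)) - x * D (D (a 2)) - D x * D (a 2)))
    + b 2 * (m * (D (D (a 0)) - x * D (D (a 1)) + (2 * y + x * x) * D (D (a 2))
      + (x * D x + D y) * D (a 2)) + 2 * s * D (D (a 2)))
    - (m * (D (a 0) * D (b 2) + D (a 2) * D (b 0) + D (a 1) * D (b 1)
      - x * (D (a 1) * D (b 2) + D (a 2) * D (b 1)) + (2 * y + x * x) * D (a 2) * D (b 2))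
      + 2 * s * D (a 2) * D (b 2)), ?_⟩
  simp only [ip, K, Matrix.cons_val_zero, Matrix.cons_val_one, Matrix.cons_val_two,
    Matrix.head_cons, Matrix.tail_cons, h.add, h.sub, h.mul, h.two, hm, hs]
  ring

theorem vary {E : A → A} (hE : Dn E) (hc : ∀ f, E (D f) = D (E f)) (em : E m = 0) (es : E s = 0)
    (a b : Fin 3 → A) :
    E (ip a (K D m s x y b)) = ip (fun i => E (a i)) (K D m s x y b)
      + ip a (K D m s x y fun i => E (b i)) + ip a (K' D m x (E x) (E y) b) := by
  simp only [ip, K, K', Matrix.cons_val_zero, Matrix.cons_val_one, Matrix.cons_val_two,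
    Matrix.head_cons, Matrix.tail_cons, hE.add, hE.sub, hE.mul, hE.two, hc, em, es,
    h.add, h.sub, h.mul, h.two, h.neg, hm, hs, zero_mul, mul_zero, add_zero, zero_add]
  ring

/-- potential for one term -/
def pot (D : A → A) (m x ξ η : A) (a b : Fin 3 → A) : A :=
  a 1 * (m * (- ξ * D (D (b 2)) - D ξ * D (b 2)))
    + a 2 * (m * (- ξ * D (D (b 1)) + (2 * η + 2 * x * ξ) * D (D (b 2))
      + (ξ * D x + x * D ξ + D η) * D (b 2)))
    - m * (- D (a 1) * ξ * D (b 2) + D (a 2) * η * D (b 2) + D (a 2) * x * ξ * D (b 2))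

def pot2 (D : A → A) (m x : A) (a b c : Fin 3 → A) : A :=
  m * m * D (D (c 1) - x * D (c 2)) * (D (a 2) * D (D (b 2)) - D (D (a 2)) * D (b 2))

theorem tri (a b c : Fin 3 → A) :
    Ex D (ip a (K' D m x (K D m s x y c 0) (K D m s x y c 1) b)
      + ip b (K' D m x (K D m s x y a 0) (K D m s x y a 1) c)
      + ip c (K' D m x (K D m s x y b 0) (K D m s x y b 1) a)) := by
  refine ⟨pot D m x (K D m s x y c 0) (K D m s x y c 1) a b
    + pot D m x (K D m s x y a 0) (K D m s x y a 1) b c
    + pot D m x (K D m s x y b 0) (K D m s x y b 1) c a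
    - (pot2 D m x a b c + pot2 D m x b c a + pot2 D m x c a b), ?_⟩
  simp only [ip, K, K', pot, pot2, Matrix.cons_val_zero, Matrix.cons_val_one, Matrix.cons_val_two,
    Matrix.head_cons, Matrix.tail_cons, h.add, h.sub, h.mul, h.two, h.neg, hm,
    zero_mul, mul_zero, add_zero, zero_add]
  ring

theorem jac {Ea Eb Ec : A → A} (ha : Dn Ea) (hb : Dn Eb) (hc : Dn Ec)
    (ca : ∀ f, Ea (D f) = D (Ea f)) (cb : ∀ f, Eb (D f) = D (Eb f)) (cc : ∀ f, Ec (D f) = D (Ec f))
    (am : Ea m = 0) (bm : Eb m = 0) (cm : Ec m = 0) (as : Ea s = 0) (bs : Eb s = 0) (cs : Ec s = 0)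
    (a b c : Fin 3 → A)
    (ax : Ea x = K D m s x y a 0) (ay : Ea y = K D m s x y a 1)
    (bx : Eb x = K D m s x y b 0) (by' : Eb y = K D m s x y b 1)
    (cx : Ec x = K D m s x y c 0) (cy : Ec y = K D m s x y c 1)
    (sa : Ex D (ip (fun i => Ec (a i)) (K D m s x y b) - ip (fun i => Eb (a i)) (K D m s x y c)))
    (sb : Ex D (ip (fun i => Ea (b i)) (K D m s x y c) - ip (fun i => Ec (b i)) (K D m s x y a)))
    (sc : Ex D (ip (fun i => Eb (c i)) (K D m s x y a) - ip (fun i => Ea (c i)) (K D m s x y b))) :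
    Ex D (Ec (ip a (K D m s x y b)) + Ea (ip b (K D m s x y c)) + Eb (ip c (K D m s x y a))) := by
  rw [vary h hm hs hc cc cm cs, vary h hm hs ha ca am as, vary h hm hs hb cb bm bs,
    ax, ay, bx, by', cx, cy]
  have t := tri h hm hs (x := x) (y := y) a b c
  have k1 := skew h hm hs (x := x) (y := y) a (fun i => Ec (b i))
  have k2 := skew h hm hs (x := x) (y := y) b (fun i => Ea (c i))
  have k3 := skew h hm hs (x := x) (y := y) c (fun i => Eb (a i))
  refine Ex.of_eq (Ex.add h (Ex.add h (Ex.add h t (Ex.add h k1 (Ex.add h k2 k3)))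
    (Ex.add h sa sb)) sc) ?_
  ring

end

end Pool.Agent.H19.Poi
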