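import Mathlib

set_option autoImplicit false

namespace Pool.Agent.H19.PropCh

open Finset

/-- The multiplicity `η_L(c)`: the number of lists containing `c`. -/
def mult {V : Type} [Fintype V] (L : V → Finset ℕ) (c : ℕ) : ℕ :=
  (univ.filter (fun v => c ∈ L v)).card

/-- `G` has a proportional `L`-colouring for every `k`-assignment `L`. -/
def PropChoosable {V : Type} [Fintype V] (G : SimpleGraph V) (k : ℕ) : Prop :=
  ∀ L : V → Finset ℕ, (∀ v, (L v).card = k) →
    ∃ f : V → ℕ, (∀ v, f v ∈ L v) ∧ (∀ u v, G.Adj u v → f u ≠ f v) ∧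
      ∀ c, (∃ v, c ∈ L v) →
        ((univ.filter (fun v => f v = c)).card : ℤ) = ⌊(mult L c : ℚ) / k⌋ ∨
        ((univ.filter (fun v => f v = c)).card : ℤ) = ⌈(mult L c : ℚ) / k⌉

/-- The proportional choice number. -/
noncomputable def chiPC {V : Type} [Fintype V] (G : SimpleGraph V) : ℕ :=
  sInf {k | 1 ≤ k ∧ PropChoosable G k}

end Pool.Agent.H19.PropCh
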