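import Mathlib
import Pool.Agent.H19.PropDefs

set_option autoImplicit false

namespace Pool.Agent.H19.PropBip

open Finset Pool.Agent.H19.PropCh

/-- Mendelsohn-Dulmage in Hall form. -/
lemma md {V B : Type} [Fintype V] [DecidableEq V] [DecidableEq B] (t : V → Finset B) (X : Finset B)
    (h1 : ∀ S : Finset V, S.card ≤ (S.biUnion t).card)
    (h2 : ∀ Y ⊆ X, Y.card ≤ (univ.filter fun v => ∃ y ∈ Y, y ∈ t v).card) :
    ∃ f : V → B, Function.Injective f ∧ (∀ v, f v ∈ t v) ∧ ∀ x ∈ X, ∃ v, f v = x := by
  set U := (univ : Finset V).biUnion t with hU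
  have hXU : X ⊆ U := by
    intro x hx
    have := h2 {x} (by simpa using hx)
    rw [card_singleton] at this
    obtain ⟨v, hv⟩ := card_pos.1 this
    simp only [mem_filter, mem_univ, mem_singleton, exists_eq_left, true_and] at hv
    exact mem_biUnion.2 ⟨v, mem_univ _, hv⟩
  have hV : Fintype.card V ≤ U.card := by simpa using h1 univ
  obtain ⟨g, hg, hgt⟩ := (all_card_le_biUnion_card_iff_exists_injective
    (fun x : V ⊕ Fin (U.card - Fintype.card V) => Sum.elim t (fun _ => U \ X) x)).1 (by
      intro S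
      rw [← card_toLeft_add_card_toRight]
      have hsub : S.toLeft.biUnion t ⊆
          S.biUnion (fun x => Sum.elim t (fun _ => U \ X) x) := by
        intro b hb
        obtain ⟨v, hv, hb⟩ := mem_biUnion.1 hb
        exact mem_biUnion.2 ⟨Sum.inl v, by simpa using hv, hb⟩
      rcases S.toRight.eq_empty_or_nonempty with e | ⟨d, hd⟩
      · rw [e, card_empty, add_zero]
        exact (h1 _).trans (card_le_card hsub)
      · have hY := h2 (X \ S.toLeft.biUnion t) sdiff_subset
        have hY2 : (univ.filter fun v => ∃ y ∈ X \ S.toLeft.biUnion t, y ∈ t v) ⊆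
            univ \ S.toLeft := by
          intro v hv
          simp only [mem_filter, mem_univ, true_and, mem_sdiff] at hv ⊢
          obtain ⟨y, ⟨_, hy⟩, hyv⟩ := hv
          exact fun h => hy (mem_biUnion.2 ⟨v, h, hyv⟩)
        have hY3 := card_le_card hY2
        rw [card_sdiff_of_subset (subset_univ _), card_univ] at hY3
        have hsub2 : U \ (X \ S.toLeft.biUnion t) ⊆
            S.biUnion (fun x => Sum.elim t (fun _ => U \ X) x) := by
          intro b hb
          rw [mem_sdiff] at hb
          by_cases hbX : b ∈ X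
          · apply hsub
            by_contra hn
            exact hb.2 (mem_sdiff.2 ⟨hbX, hn⟩)
          · exact mem_biUnion.2 ⟨Sum.inr d, by simpa using hd, mem_sdiff.2 ⟨hb.1, hbX⟩⟩
        have h4 := card_le_card hsub2
        rw [card_sdiff_of_subset (sdiff_subset.trans hXU)] at h4
        have h5 : S.toRight.card ≤ U.card - Fintype.card V := by
          simpa using card_le_univ S.toRight
        have h6 : S.toLeft.card ≤ Fintype.card V := card_le_univ _
        omega)
  refine ⟨fun v => g (Sum.inl v), fun a b h => Sum.inl_injective (hg h), fun v => hgt (Sum.inl v), ?_⟩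
  intro x hx
  have him : univ.image g = U := by
    apply eq_of_subset_of_card_le
    · intro b hb
      obtain ⟨y, _, rfl⟩ := mem_image.1 hb
      rcases y with v | d
      · exact mem_biUnion.2 ⟨v, mem_univ _, hgt (Sum.inl v)⟩
      · exact (mem_sdiff.1 (hgt (Sum.inr d))).1
    · rw [card_image_of_injective _ hg]; simp; omega
  have := hXU hx
  rw [← him] at this
  obtain ⟨y, _, hy⟩ := mem_image.1 this
  rcases y with v | d
  · exact ⟨v, hy⟩
  · exact absurd (hy ▸ hx) (mem_sdiff.1 (hgt (Sum.inr d))).2

/-- capacitated version: colours in `D` may be used twice, colours in `X` must be used. -/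
lemma assign {V : Type} [Fintype V] [DecidableEq V] (L : V → Finset ℕ) (D X : Finset ℕ)
    (h1 : ∀ S : Finset V, S.card ≤ (S.biUnion L).card + (S.biUnion L ∩ D).card)
    (h2 : ∀ Y ⊆ X, Y.card ≤ (univ.filter fun v => ∃ y ∈ Y, y ∈ L v).card) :
    ∃ f : V → ℕ, (∀ v, f v ∈ L v) ∧ (∀ c, (univ.filter fun v => f v = c).card ≤ 2) ∧
      (∀ c, c ∉ D → (univ.filter fun v => f v = c).card ≤ 1) ∧ ∀ c ∈ X, ∃ v, f v = c := by
  obtain ⟨g, hg, hgt, hX⟩ := md (B := ℕ × Bool)
    (fun v => (L v).image (fun c => (c, false)) ∪ (L v ∩ D).image (fun c => (c, true)))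
    (X.image fun c => (c, false)) (by
      intro S
      refine (h1 S).trans ?_
      have hsub : (S.biUnion L).image (fun c => (c, false)) ∪
          (S.biUnion L ∩ D).image (fun c => (c, true)) ⊆ S.biUnion fun v =>
          (L v).image (fun c => (c, false)) ∪ (L v ∩ D).image (fun c => (c, true)) := by
        intro b hb
        simp only [mem_union, mem_image, mem_biUnion, mem_inter] at hb ⊢
        rcases hb with ⟨c, ⟨v, hv, hc⟩, rfl⟩ | ⟨c, ⟨⟨v, hv, hc⟩, hD⟩, rfl⟩
        · exact ⟨v, hv, Or.inl ⟨c, hc, rfl⟩⟩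
        · exact ⟨v, hv, Or.inr ⟨c, ⟨hc, hD⟩, rfl⟩⟩
      refine le_trans (le_of_eq ?_) (card_le_card hsub)
      rw [card_union_of_disjoint, card_image_of_injective, card_image_of_injective]
      · intro a b h; simpa using h
      · intro a b h; simpa using h
      · rw [disjoint_left]
        intro b hb hb'
        obtain ⟨c, _, rfl⟩ := mem_image.1 hb
        obtain ⟨c', _, h⟩ := mem_image.1 hb'
        simp at h) (by
      intro Y hY
      obtain ⟨Y', hY', rfl⟩ := subset_image_iff.1 hY
      refine card_image_le.trans ((h2 Y' hY').trans (card_le_card ?_))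
      intro v hv
      simp only [mem_filter, mem_univ, true_and] at hv ⊢
      obtain ⟨y, hy, hv⟩ := hv
      exact ⟨(y, false), mem_image.2 ⟨y, hy, rfl⟩, mem_union_left _ (mem_image.2 ⟨y, hv, rfl⟩)⟩)
  have hm : ∀ v, (g v).1 ∈ L v ∧ ((g v).2 = true → (g v).1 ∈ D) := by
    intro v
    have := hgt v
    simp only [mem_union, mem_image, mem_inter] at this
    rcases this with ⟨c, hc, e⟩ | ⟨c, hc, e⟩
    · rw [← e]; exact ⟨hc, by simp⟩
    · rw [← e]; exact ⟨hc.1, fun _ => hc.2⟩
  refine ⟨fun v => (g v).1, fun v => (hm v).1, fun c => ?_, fun c hc => ?_, fun c hc => ?_⟩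
  · have := card_le_card_of_injOn (s := univ.filter fun v => (g v).1 = c)
      (t := (univ : Finset Bool)) (fun v => (g v).2) (fun _ _ => mem_univ _) (by
        intro a ha b hb h
        simp only [coe_filter, mem_univ, true_and, Set.mem_setOf_eq] at ha hb
        exact hg (Prod.ext (ha.trans hb.symm) h))
    simpa using this
  · rw [card_le_one]
    intro a ha b hb
    simp only [mem_filter, mem_univ, true_and] at ha hb
    have e1 : (g a).2 = false := by
      by_contra h; exact hc (ha ▸ (hm a).2 (by simpa using h))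
    have e2 : (g b).2 = false := by
      by_contra h; exact hc (hb ▸ (hm b).2 (by simpa using h))
    exact hg (Prod.ext (ha.trans hb.symm) (e1.trans e2.symm))
  · obtain ⟨v, hv⟩ := hX (c, false) (mem_image.2 ⟨c, hc, rfl⟩)
    exact ⟨v, by simp [hv]⟩

/-- double counting. -/
lemma dc {V : Type} [DecidableEq V] (L : V → Finset ℕ) (S : Finset V) (Y : Finset ℕ) :
    ∑ c ∈ Y, (S.filter fun v => c ∈ L v).card = ∑ v ∈ S, (Y.filter fun c => c ∈ L v).card := by
  simp only [card_filter]
  exact sum_comm

lemma core {n m k : ℕ} (hn : 1 ≤ n) (hk : m + 3 * n ^ 3 + 3 * n ≤ 2 * k)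
    (L : Fin n ⊕ Fin m → Finset ℕ) (hL : ∀ v, (L v).card = k) (H T : Finset ℕ)
    (hH : ∀ c, c ∈ H ↔ k < mult L c) (hT : T ⊆ H)
    (hA : ∀ a, n ≤ ((L (Sum.inl a)).filter fun c => c ∉ H ∨ c ∈ T).card)
    (hTc : k * T.card + H.card * (n + m) ≤ 2 * k * H.card)
    (h2 : ∀ Y : Finset ℕ, (∀ c ∈ Y, k ≤ mult L c) → Y.card ≤ (univ.filter fun v => ∃ y ∈ Y,
      y ∈ Sum.elim (fun a => (L (Sum.inl a)).filter fun c => c ∉ H ∨ c ∈ T)
        (fun b => L (Sum.inr b)) v).card) :
    ∃ f : Fin n ⊕ Fin m → ℕ, (∀ v, f v ∈ L v) ∧ (∀ a b, f (Sum.inl a) ≠ f (Sum.inr b)) ∧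
      (∀ c, (univ.filter fun v => f v = c).card ≤ 2) ∧
      (∀ c, mult L c ≤ k → (univ.filter fun v => f v = c).card ≤ 1) ∧
      ∀ c, k ≤ mult L c → ∃ v, f v = c := by
  have hk0 : 0 < k := by nlinarith [Nat.zero_le (n ^ 3)]
  set L' : Fin n ⊕ Fin m → Finset ℕ := Sum.elim (fun a => (L (Sum.inl a)).filter
    fun c => c ∉ H ∨ c ∈ T) (fun b => L (Sum.inr b)) with hL'
  have hsubL : ∀ v, L' v ⊆ L v := by
    rintro (a | b)
    · exact filter_subset _ _
    · exact Subset.refl _
  obtain ⟨f, hf1, hf2, hf3, hf4⟩ := assign L' (H \ T)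
    ((univ.biUnion L).filter fun c => k ≤ mult L c) (by
      intro S
      have hS : S.toLeft.card + S.toRight.card = S.card := card_toLeft_add_card_toRight
      have hSl : S.toLeft.card ≤ n := by simpa using card_le_univ S.toLeft
      rcases S.toRight.eq_empty_or_nonempty with e | ⟨b, hb⟩
      · rcases S.toLeft.eq_empty_or_nonempty with e' | ⟨a, ha⟩
        · rw [e, e'] at hS; simp at hS; omega
        · have h1 : L' (Sum.inl a) ⊆ S.biUnion L' := subset_biUnion_of_mem L' (by simpa using ha)
          have h2 := (hA a).trans (card_le_card h1)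
          rw [e] at hS; simp at hS; omega
      by_cases hSk : S.card ≤ k
      · have h1 : L' (Sum.inr b) ⊆ S.biUnion L' := subset_biUnion_of_mem L' (by simpa using hb)
        have h2 := card_le_card h1
        have : (L' (Sum.inr b)).card = k := hL _
        omega
      have hHN : H ⊆ S.biUnion L' := by
        intro c hc
        by_contra hcn
        have h1 : (univ.filter fun v => c ∈ L v) ⊆ univ \ S.toRight.map ⟨Sum.inr, Sum.inr_injective⟩ := by
          intro v hv
          simp only [mem_filter, mem_univ, true_and, mem_sdiff, mem_map] at hv ⊢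
          rintro ⟨b', hb', rfl⟩
          exact hcn (mem_biUnion.2 ⟨Sum.inr b', by simpa using hb', hv⟩)
        have h2 := card_le_card h1
        rw [card_sdiff_of_subset (subset_univ _), card_map] at h2
        have h3 := (hH c).1 hc
        unfold mult at h3
        simp only [card_univ, Fintype.card_sum, Fintype.card_fin] at h2
        have : 0 ≤ n ^ 3 := Nat.zero_le _
        omega
      have hN : ∀ v ∈ S, L v ⊆ S.biUnion L' := by
        intro v hv c hc
        by_cases hcH : c ∈ H
        · exact hHN hcH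
        · refine mem_biUnion.2 ⟨v, hv, ?_⟩
          rcases v with a | b
          · exact mem_filter.2 ⟨hc, Or.inl hcH⟩
          · exact hc
      set N := S.biUnion L' with hNdef
      have hd := dc L S N
      have e1 : ∑ v ∈ S, (N.filter fun c => c ∈ L v).card = S.card * k := by
        rw [← smul_eq_mul, ← sum_const]
        refine sum_congr rfl fun v hv => ?_
        rw [← hL v]; congr 1
        ext c; simp only [mem_filter]
        exact ⟨fun h => h.2, fun h => ⟨hN v hv h, h⟩⟩
      have e2 : ∑ c ∈ N, (S.filter fun v => c ∈ L v).card ≤ (N \ H).card * k + H.card * (n + m) := by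
        rw [← sum_sdiff hHN]
        refine add_le_add ?_ ?_
        · rw [← smul_eq_mul]
          refine sum_le_card_nsmul _ _ _ fun c hc => ?_
          have h1 : ¬ k < mult L c := fun h => (mem_sdiff.1 hc).2 ((hH c).2 h)
          exact (card_le_card (filter_subset_filter _ (subset_univ S))).trans (not_lt.1 h1)
        · rw [← smul_eq_mul]
          refine sum_le_card_nsmul _ _ _ fun c hc => ?_
          simpa using card_le_univ (S.filter fun v => c ∈ L v)
      have e3 : N ∩ (H \ T) = H \ T := inter_eq_right.2 (sdiff_subset.trans hHN)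
      rw [e3]
      have e4 := card_sdiff_add_card_eq_card hHN
      have e5 := card_sdiff_add_card_eq_card hT
      apply Nat.le_of_mul_le_mul_right _ hk0
      rw [← e4]
      nlinarith)
    (fun Y hY => h2 Y fun c hc => (mem_filter.1 (hY hc)).2)
  refine ⟨f, fun v => hsubL v (hf1 v), fun a b e => ?_, hf2, fun c hc => hf3 c fun h => ?_,
    fun c hc => hf4 c (mem_filter.2 ⟨?_, hc⟩)⟩
  · have h1 := (mem_filter.1 (hf1 (Sum.inl a))).2
    have h2 := hf3 (f (Sum.inl a)) (by
      intro h; rw [mem_sdiff] at h
      rcases h1 with h1 | h1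
      · exact h1 h.1
      · exact h.2 h1)
    have := card_le_one.1 h2 (Sum.inl a) (by simp) (Sum.inr b) (by simp [e])
    simp at this
  · have := (hH c).1 (mem_sdiff.1 h).1
    omega
  · obtain ⟨v, hv⟩ := card_pos.1 (lt_of_lt_of_le hk0 hc)
    exact mem_biUnion.2 ⟨v, mem_univ _, (mem_filter.1 hv).2⟩

lemma upper0 {n m k : ℕ} (hn : 1 ≤ n) (hk : m + 3 * n ^ 3 + 3 * n ≤ 2 * k)
    (L : Fin n ⊕ Fin m → Finset ℕ) (hL : ∀ v, (L v).card = k) :
    ∃ f : Fin n ⊕ Fin m → ℕ, (∀ v, f v ∈ L v) ∧ (∀ a b, f (Sum.inl a) ≠ f (Sum.inr b)) ∧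
      (∀ c, (univ.filter fun v => f v = c).card ≤ 2) ∧
      (∀ c, mult L c ≤ k → (univ.filter fun v => f v = c).card ≤ 1) ∧
      ∀ c, k ≤ mult L c → ∃ v, f v = c := by
  have hn3 : n ^ 2 ≤ n ^ 3 := Nat.pow_le_pow_right hn (by omega)
  have hn2 : n ≤ n ^ 2 := by nlinarith
  have hk0 : 0 < k := by omega
  set H := (univ.biUnion L).filter fun c => k < mult L c with hHdef
  have hH : ∀ c, c ∈ H ↔ k < mult L c := by
    intro c
    rw [hHdef, mem_filter]
    refine ⟨fun h => h.2, fun h => ⟨?_, h⟩⟩
    obtain ⟨v, hv⟩ := card_pos.1 (lt_trans hk0 h)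
    exact mem_biUnion.2 ⟨v, mem_univ _, (mem_filter.1 hv).2⟩
  by_cases hc : H.card * n < k
  · refine core hn hk L hL H ∅ hH (empty_subset _) (fun a => ?_) (by simp; nlinarith) ?_
    · have h1 : L (Sum.inl a) \ H ⊆ (L (Sum.inl a)).filter fun c => c ∉ H ∨ c ∈ (∅ : Finset ℕ) := by
        intro c hc; rw [mem_sdiff] at hc; exact mem_filter.2 ⟨hc.1, Or.inl hc.2⟩
      have h2 := card_le_card h1
      have h3 := le_card_sdiff H (L (Sum.inl a))
      rw [hL] at h3
      rcases Nat.eq_or_lt_of_le hn with e | e
      · subst e; omega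
      · have : H.card * 2 ≤ H.card * n := Nat.mul_le_mul_left _ e
        omega
    · intro Y hY
      set N := univ.filter fun v : Fin n ⊕ Fin m => ∃ y ∈ Y,
        y ∈ Sum.elim (fun a => (L (Sum.inl a)).filter fun c => c ∉ H ∨ c ∈ (∅ : Finset ℕ))
          (fun b => L (Sum.inr b)) v with hN
      have hd := dc L univ Y
      have e1 : Y.card * k ≤ ∑ c ∈ Y, (univ.filter fun v => c ∈ L v).card := by
        rw [← smul_eq_mul]; exact card_nsmul_le_sum _ _ _ hY
      have e2 : ∑ v, (Y.filter fun c => c ∈ L v).card ≤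
          ∑ v : Fin n ⊕ Fin m, ((if v ∈ N then k else 0) + Sum.elim (fun _ => H.card) (fun _ => 0) v) := by
        refine sum_le_sum fun v _ => ?_
        by_cases hv : v ∈ N
        · rw [if_pos hv]
          refine le_trans ?_ (Nat.le_add_right _ _)
          rw [← hL v]
          exact card_le_card fun c hc => (mem_filter.1 hc).2
        · rw [if_neg hv, zero_add]
          rw [hN, mem_filter] at hv
          rcases v with a | b
          · refine card_le_card fun c hc => ?_
            by_contra hcH
            rw [mem_filter] at hc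
            exact hv ⟨mem_univ _, c, hc.1, mem_filter.2 ⟨hc.2, Or.inl hcH⟩⟩
          · refine le_of_eq (card_eq_zero.2 (filter_eq_empty_iff.2 fun c hc hc' => ?_))
            exact hv ⟨mem_univ _, c, hc, hc'⟩
      have e3 : ∑ v : Fin n ⊕ Fin m, ((if v ∈ N then k else 0) +
          Sum.elim (fun _ => H.card) (fun _ => 0) v) = N.card * k + n * H.card := by
        rw [sum_add_distrib, ← sum_filter, filter_mem_eq_inter, univ_inter, sum_const,
          Fintype.sum_sum_type]
        simp
      rw [e3] at e2
      have : Y.card * k < (N.card + 1) * k := by nlinarith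
      have := Nat.lt_of_mul_lt_mul_right this
      omega
  · -- many large colours
    set X := (univ.biUnion L).filter fun c => k ≤ mult L c with hX
    obtain ⟨g, hg, hgt⟩ := (all_card_le_biUnion_card_iff_exists_injective
      (fun c : X => univ.filter fun v => c.1 ∈ L v)).1 (by
        intro Y
        set N := Y.biUnion fun c : X => univ.filter fun v => c.1 ∈ L v with hN
        have hd := dc L N (Y.map ⟨Subtype.val, Subtype.val_injective⟩)
        have e1 : (Y.map ⟨Subtype.val, Subtype.val_injective⟩).card * k ≤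
            ∑ c ∈ Y.map ⟨Subtype.val, Subtype.val_injective⟩, (N.filter fun v => c ∈ L v).card := by
          rw [← smul_eq_mul]
          refine card_nsmul_le_sum _ _ _ fun c hc => ?_
          obtain ⟨c', hc', rfl⟩ := mem_map.1 hc
          refine (mem_filter.1 c'.2).2.trans (card_le_card fun v hv => ?_)
          exact mem_filter.2 ⟨mem_biUnion.2 ⟨c', hc', hv⟩, (mem_filter.1 hv).2⟩
        have e2 : ∑ v ∈ N, ((Y.map ⟨Subtype.val, Subtype.val_injective⟩).filter
            fun c => c ∈ L v).card ≤ N.card * k := by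
          rw [← smul_eq_mul]
          refine sum_le_card_nsmul _ _ _ fun v _ => ?_
          rw [← hL v]
          exact card_le_card fun c hc => (mem_filter.1 hc).2
        rw [card_map] at e1
        exact Nat.le_of_mul_le_mul_right (by omega) hk0)
    have hR : ∀ a : Fin n, ∃ R ⊆ L (Sum.inl a), R.card = n := fun a =>
      exists_subset_card_eq (by rw [hL]; omega)
    choose R hR1 hR2 using hR
    set T0 : Finset ℕ := (univ.filter fun c : X => (g c).isLeft).map
      ⟨Subtype.val, Subtype.val_injective⟩ with hT0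
    have hT0c : T0.card ≤ n := by
      rw [hT0, card_map]
      have := card_le_card_of_injOn (s := univ.filter fun c : X => (g c).isLeft)
        (t := (univ : Finset (Fin n)).map ⟨Sum.inl, Sum.inl_injective⟩) g (by
          intro c hc
          simp only [coe_filter, mem_univ, true_and, Set.mem_setOf_eq] at hc
          obtain ⟨a, ha⟩ := Sum.isLeft_iff.1 hc
          simp [ha]) hg.injOn
      simpa using this
    have hRc : (univ.biUnion R).card ≤ n * n := by
      refine card_biUnion_le.trans ?_
      simp [hR2]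
    refine core hn hk L hL H (H ∩ (T0 ∪ univ.biUnion R)) hH inter_subset_left (fun a => ?_) ?_ ?_
    · refine (hR2 a).ge.trans (card_le_card fun c hc => mem_filter.2 ⟨hR1 a hc, ?_⟩)
      by_cases h : c ∈ H
      · exact Or.inr (mem_inter.2 ⟨h, mem_union_right _ (mem_biUnion.2 ⟨a, mem_univ _, hc⟩)⟩)
      · exact Or.inl h
    · have h1 : (H ∩ (T0 ∪ univ.biUnion R)).card ≤ n + n * n :=
        (card_le_card inter_subset_right).trans ((card_union_le _ _).trans (by omega))
      have h2 : k * (H ∩ (T0 ∪ univ.biUnion R)).card ≤ (H.card * n) * (n + n * n) :=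
        Nat.mul_le_mul (by omega) h1
      have h3 : H.card * (n * (n + n * n) + (n + m)) ≤ H.card * (2 * k) :=
        Nat.mul_le_mul_left _ (by nlinarith)
      nlinarith
    · intro Y hY
      have hYX : ∀ c ∈ Y, c ∈ X := by
        intro c hc
        obtain ⟨v, hv⟩ := card_pos.1 (lt_of_lt_of_le hk0 (hY c hc))
        exact mem_filter.2 ⟨mem_biUnion.2 ⟨v, mem_univ _, (mem_filter.1 hv).2⟩, hY c hc⟩
      rw [← card_attach]
      refine card_le_card_of_injOn (fun c => g ⟨c.1, hYX c.1 c.2⟩) ?_ ?_
      · intro c _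
        simp only [coe_filter, mem_univ, true_and, Set.mem_setOf_eq]
        refine ⟨c.1, c.2, ?_⟩
        have h1 := (mem_filter.1 (hgt ⟨c.1, hYX c.1 c.2⟩)).2
        rcases hv : g ⟨c.1, hYX c.1 c.2⟩ with a | b
        · rw [hv] at h1
          refine mem_filter.2 ⟨h1, ?_⟩
          by_cases h : c.1 ∈ H
          · refine Or.inr (mem_inter.2 ⟨h, mem_union_left _ ?_⟩)
            exact mem_map.2 ⟨⟨c.1, hYX c.1 c.2⟩, by simp [hv], rfl⟩
          · exact Or.inl h
        · rw [hv] at h1; exact h1
      · intro a _ b _ h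
        have := hg h
        exact Subtype.ext (by simpa using this)

lemma upper {n m k : ℕ} (hn : 1 ≤ n) (hk : m + 3 * n ^ 3 + 3 * n ≤ 2 * k) :
    PropChoosable (completeBipartiteGraph (Fin n) (Fin m)) k := by
  intro L hL
  obtain ⟨f, h1, h2, h3, h4, h5⟩ := upper0 hn hk L hL
  have hk0 : 0 < k := by nlinarith [Nat.zero_le (n ^ 3)]
  refine ⟨f, h1, ?_, ?_⟩
  · rintro (a | a) (b | b) h
    · simp at h
    · exact h2 a b
    · exact (h2 b a).symm
    · simp at h
  · rintro c ⟨v, hv⟩
    have hpos : 0 < mult L c := card_pos.2 ⟨v, by simpa using hv⟩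
    have hle : mult L c ≤ n + m := by
      simpa [mult] using card_le_univ (univ.filter fun v => c ∈ L v)
    have hkq : (0 : ℚ) < k := by exact_mod_cast hk0
    have h0 : 0 ≤ n ^ 3 := Nat.zero_le _
    have one : k ≤ mult L c → 1 ≤ (univ.filter fun v => f v = c).card := fun h => by
      obtain ⟨v, hv⟩ := h5 c h
      exact card_pos.2 ⟨v, by simpa using hv⟩
    rcases lt_trichotomy (mult L c) k with h | h | h
    · have f0 : ⌊(mult L c : ℚ) / k⌋ = 0 := by
        rw [Int.floor_eq_iff]; constructor
        · simp; positivity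
        · rw [div_lt_iff₀ hkq]; simp; exact_mod_cast h
      have c1 : ⌈(mult L c : ℚ) / k⌉ = 1 := by
        rw [Int.ceil_eq_iff]; constructor
        · simp; positivity
        · rw [div_le_iff₀ hkq]; simp; exact_mod_cast h.le
      rw [f0, c1]
      have := h4 c h.le
      omega
    · left
      rw [h, div_self hkq.ne', Int.floor_one]
      have := h4 c h.le
      have := one h.ge
      omega
    · have f0 : ⌊(mult L c : ℚ) / k⌋ = 1 := by
        rw [Int.floor_eq_iff]; constructor
        · rw [le_div_iff₀ hkq]; simp; exact_mod_cast h.le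
        · rw [div_lt_iff₀ hkq]; norm_num; exact_mod_cast (by omega : mult L c < 2 * k)
      have c1 : ⌈(mult L c : ℚ) / k⌉ = 2 := by
        rw [Int.ceil_eq_iff]; constructor
        · rw [lt_div_iff₀ hkq]; norm_num; exact_mod_cast h
        · rw [div_le_iff₀ hkq]; norm_num; exact_mod_cast (by omega : mult L c ≤ 2 * k)
      rw [f0, c1]
      have := h3 c
      have := one h.le
      omega

lemma lower {n m k : ℕ} (hn : 1 ≤ n) (hk1 : 1 ≤ k)
    (h : PropChoosable (completeBipartiteGraph (Fin n) (Fin m)) k) : m < 2 * k := by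
  by_contra hm
  push Not at hm
  let P : Fin n ⊕ Fin m → Prop := fun v => Sum.elim (fun a => a.val = 0) (fun b => b.val < 2 * k - 1) v
  classical
  obtain ⟨f, h1, h2, h3⟩ := h (fun v => if P v then range k else Ico k (2 * k)) (by
    intro v; by_cases hv : P v
    · simp [hv]
    · simp [hv]; omega)
  have ha : P (Sum.inl ⟨0, hn⟩) := rfl
  have hc := h1 (Sum.inl ⟨0, hn⟩)
  simp only [if_pos ha, mem_range] at hc
  have hmul : mult (fun v => if P v then range k else Ico k (2 * k)) (f (Sum.inl ⟨0, hn⟩)) = 2 * k := by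
    unfold mult
    have : (univ.filter fun v => f (Sum.inl ⟨0, hn⟩) ∈ (if P v then range k else Ico k (2 * k))) =
        insert (Sum.inl ⟨0, hn⟩) ((univ.filter fun b : Fin m => b.val < 2 * k - 1).map
          ⟨Sum.inr, Sum.inr_injective⟩) := by
      ext v
      by_cases hv : P v
      · rcases v with a | b
        · have : a = ⟨0, hn⟩ := Fin.ext hv
          simp [this, ha, hc]
        · have hb : b.val < 2 * k - 1 := hv
          simp [hv, hc, hb]
      · rcases v with a | b
        · have : a ≠ ⟨0, hn⟩ := fun e => hv (e ▸ ha)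
          simp [hv, this]; omega
        · have hb : ¬ b.val < 2 * k - 1 := hv
          simp [hv, hb]; omega
    rw [this, card_insert_of_notMem (by simp), card_map, Fin.card_filter_val_lt]
    omega
  have h4 := h3 (f (Sum.inl ⟨0, hn⟩)) ⟨Sum.inl ⟨0, hn⟩, h1 _⟩
  have hkq : (k : ℚ) ≠ 0 := by exact_mod_cast (by omega : k ≠ 0)
  have e : ((2 * k : ℕ) : ℚ) / k = (2 : ℤ) := by push_cast; field_simp
  rw [hmul, e, Int.floor_intCast, Int.ceil_intCast, or_self] at h4
  have h5 : (univ.filter fun v => f v = f (Sum.inl ⟨0, hn⟩)).card ≤ 1 := by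
    rw [card_le_one]
    have key : ∀ v, f v = f (Sum.inl ⟨0, hn⟩) → v = Sum.inl ⟨0, hn⟩ := by
      rintro (a | b) hv
      · by_contra hne
        have hP : ¬ P (Sum.inl a) := fun h => hne (congrArg Sum.inl (Fin.ext h))
        have := h1 (Sum.inl a)
        simp only [if_neg hP, mem_Ico] at this
        omega
      · exact absurd hv.symm (h2 _ _ (by simp))
    intro a ha b hb
    rw [key a (mem_filter.1 ha).2, key b (mem_filter.1 hb).2]
  omega

end Pool.Agent.H19.PropBip
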