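import Mathlib

set_option autoImplicit false
set_option linter.unusedSectionVars false

namespace Pool.Agent.H19.Rad

open Finset

variable {V : Type} [AddCommGroup V] [Module ℝ V] [DecidableEq V]

/-- linear dependence of a finite set of vectors -/
def Dep (T : Finset V) : Prop := ∃ c : V → ℝ, (∃ x ∈ T, c x ≠ 0) ∧ ∑ x ∈ T, c x • x = 0

/-- minimal dependent set -/
def Circ (T : Finset V) : Prop := Dep T ∧ ∀ U, U ⊂ T → ¬ Dep U

open Classical in
/-- circuits inside S -/
noncomputable def circs (S : Finset V) : Finset (Finset V) := S.powerset.filter Circ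

omit [DecidableEq V] in
lemma mem_circs {S C : Finset V} : C ∈ circs S ↔ C ⊆ S ∧ Circ C := by
  simp [circs]

lemma Dep.mono {T U : Finset V} (h : T ⊆ U) (hT : Dep T) : Dep U := by
  obtain ⟨c, ⟨x, hx, hc⟩, hs⟩ := hT
  refine ⟨fun y => if y ∈ T then c y else 0, ⟨x, h hx, by simpa [hx] using hc⟩, ?_⟩
  rw [← Finset.sum_subset h (f := fun y => (if y ∈ T then c y else 0) • y)]
  · rw [← hs]
    exact Finset.sum_congr rfl (fun y hy => by simp [hy])
  · intro y _ hy
    simp [hy]

lemma exists_circ (T : Finset V) (hT : Dep T) : ∃ C, C ⊆ T ∧ Circ C := by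
  induction T using Finset.strongInduction with
  | H T ih =>
    by_cases h : ∀ U, U ⊂ T → ¬ Dep U
    · exact ⟨T, Subset.refl _, hT, h⟩
    · push Not at h
      obtain ⟨U, hU, hd⟩ := h
      obtain ⟨C, hC, hc⟩ := ih U hU hd
      exact ⟨C, hC.trans hU.subset, hc⟩

lemma Circ.full {C : Finset V} (hC : Circ C) {c : V → ℝ} (hne : ∃ x ∈ C, c x ≠ 0)
    (hs : ∑ x ∈ C, c x • x = 0) : ∀ x ∈ C, c x ≠ 0 := by
  intro x hx h0
  obtain ⟨y, hy, hcy⟩ := hne
  refine hC.2 (C.erase x) (Finset.erase_ssubset hx) ⟨c, ⟨y, ?_, hcy⟩, ?_⟩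
  · refine Finset.mem_erase.2 ⟨?_, hy⟩
    rintro rfl
    exact hcy h0
  · rw [← Finset.add_sum_erase C (fun x => c x • x) hx, h0, zero_smul, zero_add] at hs
    exact hs

lemma Circ.eq_of_subset {C U : Finset V} (hC : Circ C) (hU : U ⊆ C) (hd : Dep U) : U = C := by
  by_contra hne
  exact hC.2 U (Finset.ssubset_iff_subset_ne.2 ⟨hU, hne⟩) hd

omit [DecidableEq V] in
lemma dep_of_card [Module.Finite ℝ V] {T : Finset V} (h : Module.finrank ℝ V < T.card) : Dep T := by
  obtain ⟨f, h1, h2⟩ := Module.exists_nontrivial_relation_of_finrank_lt_card h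
  exact ⟨f, h2, h1⟩

omit [DecidableEq V] in
lemma pair_indep (h : V →ₗ[ℝ] ℝ) {x y : V} (hx : h x = 1) (hy : h y = 1) (hne : x ≠ y)
    {a b : ℝ} (hab : a • x + b • y = 0) : a = 0 ∧ b = 0 := by
  have h1 : a + b = 0 := by
    have := congrArg h hab
    simpa [hx, hy] using this
  have hb : b = -a := by linarith
  subst hb
  have h2 : a • (x - y) = 0 := by rw [smul_sub]; simpa [sub_eq_add_neg] using hab
  rcases smul_eq_zero.1 h2 with h3 | h3
  · simp [h3]
  · exact absurd (sub_eq_zero.1 h3) hne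

lemma three_le_of_dep (h : V →ₗ[ℝ] ℝ) {T : Finset V} (hT : ∀ x ∈ T, h x = 1) (hd : Dep T) :
    3 ≤ T.card := by
  by_contra hlt
  obtain ⟨c, ⟨x, hx, hc⟩, hs⟩ := hd
  have h2 : T.card ≤ 2 := by omega
  by_cases h1 : T.card = 2
  · obtain ⟨a, b, hab, rfl⟩ := Finset.card_eq_two.1 h1
    rw [Finset.sum_pair hab] at hs
    have := pair_indep h (hT a (by simp)) (hT b (by simp)) hab hs
    rcases Finset.mem_insert.1 hx with rfl | hx
    · exact hc this.1
    · rw [Finset.mem_singleton.1 hx] at hc; exact hc this.2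
  · have h3 : T.card ≤ 1 := by omega
    have hT1 : T = {x} := by
      apply Finset.eq_singleton_iff_unique_mem.2 ⟨hx, ?_⟩
      intro y hy
      exact Finset.card_le_one.1 h3 y hy x hx
    rw [hT1, Finset.sum_singleton] at hs
    have := congrArg h hs
    simp [hT x hx] at this
    exact hc this

lemma circ_of_card_three (h : V →ₗ[ℝ] ℝ) {T : Finset V} (hT : ∀ x ∈ T, h x = 1) (hd : Dep T)
    (h3 : T.card = 3) : Circ T := by
  refine ⟨hd, fun U hU hdU => ?_⟩
  have := three_le_of_dep h (fun x hx => hT x (hU.subset hx)) hdU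
  have := Finset.card_lt_card hU
  omega

lemma dep_union_of_span {Z I : Finset V} (hd : Disjoint Z I) {l : V → ℝ} (hne : ∃ z ∈ Z, l z ≠ 0)
    (hm : ∑ z ∈ Z, l z • z ∈ Submodule.span ℝ (I : Set V)) : Dep (Z ∪ I) := by
  obtain ⟨c, -, hc⟩ := Submodule.mem_span_finset.1 hm
  obtain ⟨z, hz, hl⟩ := hne
  refine ⟨fun x => if x ∈ Z then l x else - c x, ⟨z, by simp [hz], by simpa [hz] using hl⟩, ?_⟩
  rw [Finset.sum_union hd]
  have e1 : ∑ x ∈ Z, (if x ∈ Z then l x else - c x) • x = ∑ x ∈ Z, l x • x :=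
    Finset.sum_congr rfl (fun x hx => by simp [hx])
  have e2 : ∑ x ∈ I, (if x ∈ Z then l x else - c x) • x = - ∑ x ∈ I, c x • x := by
    rw [← Finset.sum_neg_distrib]
    refine Finset.sum_congr rfl (fun x hx => ?_)
    have : x ∉ Z := fun hz => Finset.disjoint_left.1 hd hz hx
    simp [this]
  rw [e1, e2, hc, add_neg_cancel]

omit [DecidableEq V] in
lemma det_ne (h : V →ₗ[ℝ] ℝ) {u v a b : V} {a0 a1 b0 b1 : ℝ} (ha : a = a0 • u + a1 • v)
    (hb : b = b0 • u + b1 • v) (h1 : h a = 1) (h2 : h b = 1) (hne : a ≠ b) :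
    a0 * b1 - a1 * b0 ≠ 0 := by
  intro hD
  have e1 : b1 • a + (-a1) • b = (a0 * b1 - a1 * b0) • u := by
    rw [ha, hb]; module
  have e2 : b0 • a + (-a0) • b = (-(a0 * b1 - a1 * b0)) • v := by
    rw [ha, hb]; module
  rw [hD] at e1 e2
  simp only [zero_smul, neg_zero] at e1 e2
  have f1 := pair_indep h h1 h2 hne e1
  have f2 := pair_indep h h1 h2 hne e2
  have : b = 0 := by rw [hb, f1.1, f2.1]; simp
  rw [this] at h2
  simp at h2

omit [DecidableEq V] in
lemma cramer {u v a b x : V} {a0 a1 b0 b1 x0 x1 : ℝ} (ha : a = a0 • u + a1 • v)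
    (hb : b = b0 • u + b1 • v) (hx : x = x0 • u + x1 • v) (hD : a0 * b1 - a1 * b0 ≠ 0) :
    x = ((x0 * b1 - x1 * b0) / (a0 * b1 - a1 * b0)) • a
      + ((a0 * x1 - a1 * x0) / (a0 * b1 - a1 * b0)) • b := by
  have key : (a0 * b1 - a1 * b0) • x = (x0 * b1 - x1 * b0) • a + (a0 * x1 - a1 * x0) • b := by
    rw [ha, hb, hx]; module
  calc x = (a0 * b1 - a1 * b0)⁻¹ • ((a0 * b1 - a1 * b0) • x) := by
        rw [smul_smul, inv_mul_cancel₀ hD, one_smul]
    _ = _ := by rw [key, smul_add, smul_smul, smul_smul, div_eq_inv_mul, div_eq_inv_mul]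

/-- j independent planes with dual functionals -/
structure Frame (V : Type) [AddCommGroup V] [Module ℝ V] (j : ℕ) where
  u : Fin j → V
  v : Fin j → V
  f : Fin j → V →ₗ[ℝ] ℝ
  g : Fin j → V →ₗ[ℝ] ℝ
  fu : ∀ i i', f i (u i') = if i = i' then 1 else 0
  fv : ∀ i i', f i (v i') = 0
  gu : ∀ i i', g i (u i') = 0
  gv : ∀ i i', g i (v i') = if i = i' then 1 else 0

namespace Frame

variable {j : ℕ} (F : Frame V j)

/-- on the i-th plane -/
def OnL (i : Fin j) (x : V) : Prop := x = F.f i x • F.u i + F.g i x • F.v i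

/-- in the span of all planes -/
def InU (x : V) : Prop := x = ∑ i, (F.f i x • F.u i + F.g i x • F.v i)

open Classical in
/-- points of S on the i-th plane -/
noncomputable def L (S : Finset V) (i : Fin j) : Finset V := S.filter (F.OnL i)

/-- points of S on some plane -/
noncomputable def B (S : Finset V) : Finset V := Finset.univ.biUnion (F.L S)

/-- determinant functional -/
def psi (i : Fin j) (b : V) : V →ₗ[ℝ] ℝ := F.g i b • F.f i - F.f i b • F.g i

open Classical in
/-- points on the plane not parallel to the component of w -/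
noncomputable def N (S : Finset V) (w : V) (i : Fin j) : Finset V :=
  (F.L S i).filter (fun b => F.psi i b w ≠ 0)

omit [DecidableEq V] in
lemma psi_apply (i : Fin j) (b x : V) : F.psi i b x = F.f i x * F.g i b - F.g i x * F.f i b := by
  simp [psi]; ring

omit [DecidableEq V] in
lemma mem_L {S : Finset V} {i : Fin j} {x : V} : x ∈ F.L S i ↔ x ∈ S ∧ F.OnL i x := by
  simp [L]

lemma mem_B {S : Finset V} {x : V} : x ∈ F.B S ↔ ∃ i, x ∈ F.L S i := by
  simp [B]

omit [DecidableEq V] in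
lemma onL_of_eq {i : Fin j} {x : V} {a b : ℝ} (hx : x = a • F.u i + b • F.v i) : F.OnL i x := by
  have h1 : F.f i x = a := by rw [hx]; simp [F.fu, F.fv]
  have h2 : F.g i x = b := by rw [hx]; simp [F.gu, F.gv]
  unfold OnL
  rw [h1, h2]; exact hx

omit [DecidableEq V] in
lemma f_other {i i' : Fin j} {x : V} (hx : F.OnL i' x) (hne : i ≠ i') :
    F.f i x = 0 ∧ F.g i x = 0 := by
  unfold OnL at hx
  constructor
  · rw [hx]; simp [F.fu, F.fv, hne]
  · rw [hx]; simp [F.gu, F.gv, hne]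

omit [DecidableEq V] in
lemma line_unique (h : V →ₗ[ℝ] ℝ) {i i' : Fin j} {x : V} (h1 : h x = 1) (hx : F.OnL i x)
    (hx' : F.OnL i' x) : i = i' := by
  by_contra hne
  have := F.f_other hx' hne
  unfold OnL at hx
  rw [this.1, this.2] at hx
  simp at hx
  rw [hx] at h1
  simp at h1

omit [DecidableEq V] in
lemma inU_zero : F.InU 0 := by simp [InU]

omit [DecidableEq V] in
lemma InU.add {x y : V} (hx : F.InU x) (hy : F.InU y) : F.InU (x + y) := by
  unfold InU at *
  conv_lhs => rw [hx, hy]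
  rw [← Finset.sum_add_distrib]
  refine Finset.sum_congr rfl (fun i _ => ?_)
  simp only [map_add]; module

omit [DecidableEq V] in
lemma InU.smul {x : V} (hx : F.InU x) (t : ℝ) : F.InU (t • x) := by
  unfold InU at *
  conv_lhs => rw [hx]
  rw [Finset.smul_sum]
  refine Finset.sum_congr rfl (fun i _ => ?_)
  simp only [map_smul, smul_eq_mul]; module

omit [DecidableEq V] in
lemma InU.of_smul {x : V} {t : ℝ} (hx : F.InU (t • x)) (ht : t ≠ 0) : F.InU x := by
  have := InU.smul F hx t⁻¹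
  rwa [smul_smul, inv_mul_cancel₀ ht, one_smul] at this

omit [DecidableEq V] in
lemma InU.sum {T : Finset V} {c : V → ℝ} (hT : ∀ x ∈ T, F.InU x) : F.InU (∑ x ∈ T, c x • x) :=
  Finset.sum_induction _ F.InU (fun _ _ ha hb => InU.add F ha hb) F.inU_zero
    (fun x hx => InU.smul F (hT x hx) _)

omit [DecidableEq V] in
lemma OnL.inU {i : Fin j} {x : V} (hx : F.OnL i x) : F.InU x := by
  unfold InU
  rw [Finset.sum_eq_single i]
  · exact hx
  · intro i' _ hne
    have := F.f_other hx hne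
    simp [this.1, this.2]
  · simp

omit [DecidableEq V] in
lemma exists_comp {w : V} (hw : F.InU w) (h0 : w ≠ 0) : ∃ i, F.f i w ≠ 0 ∨ F.g i w ≠ 0 := by
  by_contra hc
  push Not at hc
  apply h0
  unfold InU at hw
  rw [hw]
  exact Finset.sum_eq_zero (fun i _ => by simp [(hc i).1, (hc i).2])

omit [DecidableEq V] in
lemma onL_of_comp {w : V} (hw : F.InU w) (i : Fin j)
    (hc : ∀ i', i' ≠ i → ¬ (F.f i' w ≠ 0 ∨ F.g i' w ≠ 0)) : F.OnL i w := by
  unfold InU at hw
  unfold OnL
  rw [Finset.sum_eq_single i] at hw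
  · exact hw
  · intro i' _ hne
    have := hc i' hne
    push Not at this
    simp [this.1, this.2]
  · simp

lemma card_N (h : V →ₗ[ℝ] ℝ) {S : Finset V} (hS : ∀ x ∈ S, h x = 1) {w : V} {i : Fin j}
    (hw : F.f i w ≠ 0 ∨ F.g i w ≠ 0) : (F.L S i).card - 1 ≤ (F.N S w i).card := by
  classical
  have h1 : ((F.L S i).filter (fun b => ¬ (F.psi i b w ≠ 0))).card ≤ 1 := by
    rw [Finset.card_le_one]
    intro a ha b hb
    by_contra hne
    simp only [Finset.mem_filter, mem_L, not_not, psi_apply] at ha hb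
    have hD := det_ne h ha.1.2 hb.1.2 (hS a ha.1.1) (hS b hb.1.1) hne
    apply hD
    rcases hw with hw | hw
    · apply mul_left_cancel₀ hw
      linear_combination F.f i a * hb.2 - F.f i b * ha.2
    · apply mul_left_cancel₀ hw
      linear_combination F.g i a * hb.2 - F.g i b * ha.2
  have h2 := Finset.card_filter_add_card_filter_not (s := F.L S i) (fun b => F.psi i b w ≠ 0)
  have h3 : (F.N S w i).card = ((F.L S i).filter (fun b => F.psi i b w ≠ 0)).card := by
    unfold N; congr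
  omega

lemma dep_three (h : V →ₗ[ℝ] ℝ) {S : Finset V} (hS : ∀ x ∈ S, h x = 1) {i : Fin j} {T : Finset V}
    (hT : T ⊆ F.L S i) (h3 : 3 ≤ T.card) : Dep T := by
  obtain ⟨T', hT', h3'⟩ := Finset.exists_subset_card_eq h3
  refine Dep.mono hT' ?_
  obtain ⟨x, a, b, hxa, hxb, hab, rfl⟩ := Finset.card_eq_three.1 h3'
  have hx := F.mem_L.1 (hT (hT' (by simp : x ∈ ({x, a, b} : Finset V))))
  have ha := F.mem_L.1 (hT (hT' (by simp : a ∈ ({x, a, b} : Finset V))))
  have hb := F.mem_L.1 (hT (hT' (by simp : b ∈ ({x, a, b} : Finset V))))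
  have hD := det_ne h ha.2 hb.2 (hS a ha.1) (hS b hb.1) hab
  have hc := cramer ha.2 hb.2 hx.2 hD
  have : ({x, a, b} : Finset V) = {x} ∪ {a, b} := Finset.insert_eq _ _
  rw [this]
  refine dep_union_of_span (l := fun _ => 1) (by simp [hxa, hxb]) ⟨x, by simp, one_ne_zero⟩ ?_
  simp only [Finset.sum_singleton, one_smul]
  rw [hc]
  exact Submodule.add_mem _ (Submodule.smul_mem _ _ (Submodule.subset_span (by simp)))
    (Submodule.smul_mem _ _ (Submodule.subset_span (by simp)))

lemma trace (h : V →ₗ[ℝ] ℝ) {S : Finset V} (hS : ∀ x ∈ S, h x = 1) {Z : Finset V} (hZ : Z ⊆ S)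
    (hZB : Disjoint Z (F.B S)) {w : V} (hw : F.InU w) {l : V → ℝ} (hl : ∑ z ∈ Z, l z • z = w)
    (hl0 : ∃ z ∈ Z, l z ≠ 0)
    (H2 : ∀ m : V → ℝ, (∃ z ∈ Z, m z ≠ 0) → F.InU (∑ z ∈ Z, m z • z) →
      (∀ z ∈ Z, m z ≠ 0) ∧ ∃ t : ℝ, t ≠ 0 ∧ ∑ z ∈ Z, m z • z = t • w)
    (A : Fin j → Finset V) (hA : ∀ i, A i ⊆ F.L S i ∧ (A i).card = 2) :
    ∃ C ∈ circs S, C \ F.B S = Z ∧ ∀ i, A i ⊆ F.N S w i → C ∩ F.L S i = A i := by
  classical
  set I : Finset V := Finset.univ.biUnion A with hI
  have hIB : I ⊆ F.B S := Finset.biUnion_mono (fun i _ => (hA i).1)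
  have hBS : F.B S ⊆ S := by
    intro x hx
    obtain ⟨i, hi⟩ := F.mem_B.1 hx
    exact (F.mem_L.1 hi).1
  have hZI : Disjoint Z I := Finset.disjoint_of_subset_right hIB hZB
  have hAI : ∀ i, A i ⊆ I := fun i => Finset.subset_biUnion_of_mem A (Finset.mem_univ i)
  have hother : ∀ i, ∀ x ∈ A i, ∃ b ∈ A i, b ≠ x ∧ ∀ y ∈ A i, y ≠ x → y = b := by
    intro i x hx
    obtain ⟨a, b, hab, e⟩ := Finset.card_eq_two.1 (hA i).2
    rw [e] at hx ⊢
    simp only [Finset.mem_insert, Finset.mem_singleton] at hx ⊢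
    rcases hx with rfl | rfl
    · exact ⟨b, Or.inr rfl, hab.symm, fun y hy hne => hy.resolve_left hne⟩
    · exact ⟨a, Or.inl rfl, hab, fun y hy hne => hy.resolve_right hne⟩
  have hdep : Dep (Z ∪ I) := by
    refine dep_union_of_span hZI hl0 ?_
    rw [hl]
    unfold InU at hw
    rw [hw]
    refine Submodule.sum_mem _ (fun i _ => ?_)
    obtain ⟨a, b, hab, e⟩ := Finset.card_eq_two.1 (hA i).2
    have haA : a ∈ A i := by simp [e]
    have hbA : b ∈ A i := by simp [e]
    have ha := F.mem_L.1 ((hA i).1 haA)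
    have hb := F.mem_L.1 ((hA i).1 hbA)
    have hD := det_ne h ha.2 hb.2 (hS a ha.1) (hS b hb.1) hab
    have hc := cramer (x := F.f i w • F.u i + F.g i w • F.v i) ha.2 hb.2 rfl hD
    rw [hc]
    exact Submodule.add_mem _ (Submodule.smul_mem _ _ (Submodule.subset_span (hAI i haA)))
      (Submodule.smul_mem _ _ (Submodule.subset_span (hAI i hbA)))
  obtain ⟨C, hCs, hC⟩ := exists_circ _ hdep
  obtain ⟨m, hm0, hm⟩ := hC.1
  have hfull := hC.full hm0 hm
  set m' : V → ℝ := fun x => if x ∈ C then m x else 0 with hm'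
  have hsplit : ∑ z ∈ Z, m' z • z + ∑ x ∈ I, m' x • x = 0 := by
    rw [← Finset.sum_union hZI, ← Finset.sum_subset hCs (f := fun x => m' x • x)]
    · rw [← hm]
      exact Finset.sum_congr rfl (fun y hy => by simp [hm', hy])
    · intro y _ hy
      simp [hm', hy]
  have hpsi : ∀ i, ∀ x ∈ A i, ∀ b ∈ A i, (∀ y ∈ A i, y ≠ x → y = b) →
      F.psi i b (∑ y ∈ I, m' y • y) = m' x * F.psi i b x := by
    intro i x hx b _ hb
    rw [map_sum, Finset.sum_eq_single x]
    · simp
    · intro y hy hne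
      obtain ⟨i', -, hi'⟩ := Finset.mem_biUnion.1 hy
      by_cases e : i = i'
      · subst e
        rw [hb y hi' hne]
        simp [psi_apply, mul_comm]
      · have := F.f_other (F.mem_L.1 ((hA i').1 hi')).2 e
        simp [psi_apply, this.1, this.2]
    · intro hn
      exact absurd (hAI i hx) hn
  have hne : ∃ z ∈ Z, m' z ≠ 0 := by
    by_contra hc
    push Not at hc
    obtain ⟨x, hx, hmx⟩ := hm0
    have hxI : x ∈ I := by
      rcases Finset.mem_union.1 (hCs hx) with h1 | h1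
      · have := hc x h1
        simp [hm', hx] at this
        exact absurd this hmx
      · exact h1
    obtain ⟨i, -, hi⟩ := Finset.mem_biUnion.1 hxI
    obtain ⟨b, hb, hbx, hb'⟩ := hother i x hi
    have e := hpsi i x hi b hb hb'
    have e0 : ∑ z ∈ Z, m' z • z = 0 := Finset.sum_eq_zero (fun z hz => by simp [hc z hz])
    rw [e0, zero_add] at hsplit
    rw [hsplit, map_zero] at e
    have hxL := F.mem_L.1 ((hA i).1 hi)
    have hbL := F.mem_L.1 ((hA i).1 hb)
    have hD := det_ne h hxL.2 hbL.2 (hS x hxL.1) (hS b hbL.1) hbx.symm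
    have : m' x = m x := by simp [hm', hx]
    rw [this, psi_apply] at e
    exact (mul_ne_zero hmx hD) e.symm
  have hU : F.InU (∑ z ∈ Z, m' z • z) := by
    have : ∑ z ∈ Z, m' z • z = (-1 : ℝ) • ∑ x ∈ I, m' x • x := by
      rw [neg_one_smul]; exact eq_neg_of_add_eq_zero_left hsplit
    rw [this]
    refine InU.smul F (InU.sum F (fun x hx => ?_)) _
    obtain ⟨i, -, hi⟩ := Finset.mem_biUnion.1 hx
    exact OnL.inU F (F.mem_L.1 ((hA i).1 hi)).2
  obtain ⟨hall, t, ht, hsum⟩ := H2 m' hne hU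
  have hZC : Z ⊆ C := by
    intro z hz
    by_contra hn
    exact hall z hz (by simp [hm', hn])
  refine ⟨C, mem_circs.2 ⟨hCs.trans (Finset.union_subset hZ (hIB.trans hBS)), hC⟩, ?_, ?_⟩
  · ext x
    simp only [Finset.mem_sdiff]
    constructor
    · rintro ⟨h1, h2⟩
      rcases Finset.mem_union.1 (hCs h1) with h3 | h3
      · exact h3
      · exact absurd (hIB h3) h2
    · intro hx
      exact ⟨hZC hx, Finset.disjoint_left.1 hZB hx⟩
  · intro i hi
    ext x
    simp only [Finset.mem_inter]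
    constructor
    · rintro ⟨h1, h2⟩
      rcases Finset.mem_union.1 (hCs h1) with h3 | h3
      · exact absurd (F.mem_B.2 ⟨i, h2⟩) (Finset.disjoint_left.1 hZB h3)
      · obtain ⟨i', -, hi'⟩ := Finset.mem_biUnion.1 h3
        have hxL := F.mem_L.1 h2
        have := F.line_unique h (hS x hxL.1) hxL.2 (F.mem_L.1 ((hA i').1 hi')).2
        rw [this]; exact hi'
    · intro hx
      refine ⟨?_, (hA i).1 hx⟩
      by_contra hn
      obtain ⟨b, hb, -, hb'⟩ := hother i x hx
      have e := hpsi i x hx b hb hb'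
      have e1 : m' x = 0 := by simp [hm', hn]
      rw [e1, zero_mul] at e
      have e2 := congrArg (F.psi i b) hsplit
      rw [map_add, e, hsum, map_zero, add_zero, map_smul, smul_eq_mul] at e2
      have hbN := hi hb
      simp only [N, Finset.mem_filter] at hbN
      exact (mul_ne_zero ht hbN.2) e2

end Frame

end Pool.Agent.H19.Rad
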