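import Mathlib
import Pool.Agent.H19.RadA

set_option autoImplicit false
set_option linter.unusedSectionVars false

namespace Pool.Agent.H19.Rad

open Finset

variable {V : Type} [AddCommGroup V] [Module ℝ V] [DecidableEq V]

/-- number of circuits through p -/
noncomputable def deg (S : Finset V) (p : V) : ℕ := ((circs S).filter (fun C => p ∈ C)).card

lemma card_circs_erase (S : Finset V) (p : V) :
    (circs S).card = (circs (S.erase p)).card + deg S p := by
  have h1 : circs (S.erase p) = (circs S).filter (fun C => ¬ p ∈ C) := by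
    ext C
    simp only [mem_circs, Finset.mem_filter, Finset.subset_erase]
    tauto
  rw [h1, deg, add_comm]
  exact (Finset.card_filter_add_card_filter_not _).symm

lemma card_circs_le (S : Finset V) (D : ℕ) (hD : ∀ p ∈ S, deg S p ≤ D) :
    (circs S).card ≤ S.card * D := by
  have h1 : circs S ⊆ S.biUnion (fun p => (circs S).filter (fun C => p ∈ C)) := by
    intro C hC
    obtain ⟨hs, ⟨c, ⟨x, hx, -⟩, -⟩, -⟩ := mem_circs.1 hC
    exact Finset.mem_biUnion.2 ⟨x, hs hx, Finset.mem_filter.2 ⟨hC, hx⟩⟩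
  exact (Finset.card_le_card h1).trans (Finset.card_biUnion_le_card_mul _ _ _ hD)

namespace Frame

variable {j : ℕ} (F : Frame V j)

/-- hypotheses of the trace lemma -/
def Good (S Z : Finset V) (w : V) : Prop :=
  Z ⊆ S ∧ Disjoint Z (F.B S) ∧ F.InU w ∧ (∃ l : V → ℝ, ∑ z ∈ Z, l z • z = w ∧ ∃ z ∈ Z, l z ≠ 0) ∧
    ∀ m : V → ℝ, (∃ z ∈ Z, m z ≠ 0) → F.InU (∑ z ∈ Z, m z • z) →
      (∀ z ∈ Z, m z ≠ 0) ∧ ∃ t : ℝ, t ≠ 0 ∧ ∑ z ∈ Z, m z • z = t • w

lemma good_single {S : Finset V} {p : V} (hp : p ∈ S) (hB : p ∉ F.B S) (hU : F.InU p) :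
    F.Good S {p} p := by
  refine ⟨by simpa using hp, by simpa using hB, hU, ⟨fun _ => 1, by simp, p, by simp, one_ne_zero⟩, ?_⟩
  intro m hm _
  simp only [Finset.mem_singleton, exists_eq_left, forall_eq, Finset.sum_singleton] at hm ⊢
  exact ⟨hm, m p, hm, rfl⟩

lemma not_mem_B {S : Finset V} {x : V} (hx : ¬ F.InU x) : x ∉ F.B S := by
  intro hB
  obtain ⟨i, hi⟩ := F.mem_B.1 hB
  exact hx (OnL.inU F (F.mem_L.1 hi).2)

lemma good_pair {S : Finset V} {x y w : V} (hx : x ∈ S) (hy : y ∈ S) (hne : x ≠ y)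
    (hxU : ¬ F.InU x) (hyU : ¬ F.InU y) {a b : ℝ} (hab : a • x + b • y = w) (hw : F.InU w)
    (h0 : a ≠ 0 ∨ b ≠ 0) : F.Good S {x, y} w := by
  have hb : b ≠ 0 := by
    intro hb
    have ha : a ≠ 0 := h0.resolve_right (not_not.2 hb)
    rw [hb, zero_smul, add_zero] at hab
    exact hxU (InU.of_smul F (hab ▸ hw) ha)
  refine ⟨?_, ?_, hw, ⟨fun z => if z = x then a else b, ?_, y, by simp, by simp [hne.symm, hb]⟩, ?_⟩
  · intro z hz
    rcases Finset.mem_insert.1 hz with rfl | hz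
    · exact hx
    · rw [Finset.mem_singleton.1 hz]; exact hy
  · rw [Finset.disjoint_left]
    intro z hz
    rcases Finset.mem_insert.1 hz with rfl | hz
    · exact F.not_mem_B hxU
    · rw [Finset.mem_singleton.1 hz]; exact F.not_mem_B hyU
  · rw [Finset.sum_pair hne]
    simp [hne.symm, hab]
  · intro m hm hU
    rw [Finset.sum_pair hne] at hU ⊢
    have hmx : m x ≠ 0 := by
      intro h1
      obtain ⟨z, hz, hz'⟩ := hm
      rcases Finset.mem_insert.1 hz with rfl | hz
      · exact hz' h1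
      · rw [Finset.mem_singleton.1 hz] at hz'
        rw [h1, zero_smul, zero_add] at hU
        exact hyU (InU.of_smul F hU hz')
    have hmy : m y ≠ 0 := by
      intro h1
      rw [h1, zero_smul, add_zero] at hU
      exact hxU (InU.of_smul F hU hmx)
    refine ⟨?_, m y / b, div_ne_zero hmy hb, ?_⟩
    · intro z hz
      rcases Finset.mem_insert.1 hz with rfl | hz
      · exact hmx
      · rw [Finset.mem_singleton.1 hz]; exact hmy
    · have e : (m x - m y / b * a) • x = (m x • x + m y • y) + (-(m y / b)) • w := by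
        rw [← hab]
        have : m y = m y / b * b := by field_simp
        conv_rhs => rw [this]
        have e2 : m y / b * b / b = m y / b := by field_simp
        rw [e2]
        module
      have hU2 : F.InU ((m x - m y / b * a) • x) := by
        rw [e]; exact InU.add F hU (InU.smul F hw _)
      have e3 : m x - m y / b * a = 0 := by
        by_contra hn
        exact hxU (InU.of_smul F hU2 hn)
      rw [e3, zero_smul, neg_smul] at e
      exact eq_of_sub_eq_zero (by rw [sub_eq_add_neg]; exact e.symm)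

lemma N_subset (S : Finset V) (w : V) (i : Fin j) : F.N S w i ⊆ F.L S i := by
  classical
  unfold N
  exact Finset.filter_subset _ _

lemma count1 (h : V →ₗ[ℝ] ℝ) {S : Finset V} (hS : ∀ x ∈ S, h x = 1) (h2 : ∀ i, 2 ≤ (F.L S i).card)
    {Z : Finset V} {w : V} (hG : F.Good S Z w) (i : Fin j) :
    (F.N S w i).card.choose 2 ≤
      ((circs S).filter (fun C => C \ F.B S = Z ∧ (C ∩ F.L S i).card = 2)).card := by
  obtain ⟨hZ, hZB, hw, ⟨l, hl, hl0⟩, H2⟩ := hG
  choose A0 hA0 using fun i => Finset.exists_subset_card_eq (h2 i)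
  rw [← Finset.card_powersetCard]
  refine Finset.card_le_card_of_forall_subsingleton (fun A C => C ∩ F.L S i = A) ?_ ?_
  · intro A hA
    obtain ⟨hA1, hA2⟩ := Finset.mem_powersetCard.1 hA
    obtain ⟨C, hC, hC1, hC2⟩ := F.trace h hS hZ hZB hw hl hl0 H2 (Function.update A0 i A) (by
      intro i'
      by_cases e : i' = i
      · subst e
        simp only [Function.update_self]
        exact ⟨hA1.trans (F.N_subset S w i'), hA2⟩
      · rw [Function.update_of_ne e]; exact hA0 i')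
    have := hC2 i (by simpa using hA1)
    simp only [Function.update_self] at this
    exact ⟨C, Finset.mem_filter.2 ⟨hC, hC1, by rw [this, hA2]⟩, this⟩
  · intro C _ A hA A' hA'
    exact hA.2.symm.trans hA'.2

lemma count2 (h : V →ₗ[ℝ] ℝ) {S : Finset V} (hS : ∀ x ∈ S, h x = 1) (h2 : ∀ i, 2 ≤ (F.L S i).card)
    {Z : Finset V} {w : V} (hG : F.Good S Z w) {i i2 : Fin j} (hne : i ≠ i2) :
    (F.N S w i).card.choose 2 * (F.N S w i2).card.choose 2 ≤
      ((circs S).filter (fun C => C \ F.B S = Z)).card := by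
  obtain ⟨hZ, hZB, hw, ⟨l, hl, hl0⟩, H2⟩ := hG
  choose A0 hA0 using fun i => Finset.exists_subset_card_eq (h2 i)
  rw [← Finset.card_powersetCard, ← Finset.card_powersetCard, ← Finset.card_product]
  refine Finset.card_le_card_of_forall_subsingleton
    (fun A C => C ∩ F.L S i = A.1 ∧ C ∩ F.L S i2 = A.2) ?_ ?_
  · rintro ⟨A, A'⟩ hA
    obtain ⟨hA, hA'⟩ := Finset.mem_product.1 hA
    obtain ⟨hA1, hA2⟩ := Finset.mem_powersetCard.1 hA
    obtain ⟨hA1', hA2'⟩ := Finset.mem_powersetCard.1 hA'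
    obtain ⟨C, hC, hC1, hC2⟩ := F.trace h hS hZ hZB hw hl hl0 H2
      (Function.update (Function.update A0 i A) i2 A') (by
      intro i'
      by_cases e2 : i' = i2
      · subst e2
        simp only [Function.update_self]
        exact ⟨hA1'.trans (F.N_subset S w i'), hA2'⟩
      · rw [Function.update_of_ne e2]
        by_cases e : i' = i
        · subst e
          simp only [Function.update_self]
          exact ⟨hA1.trans (F.N_subset S w i'), hA2⟩
        · rw [Function.update_of_ne e]; exact hA0 i')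
    have t1 := hC2 i (by rw [Function.update_of_ne hne]; simpa using hA1)
    have t2 := hC2 i2 (by simpa using hA1')
    rw [Function.update_of_ne hne] at t1
    simp only [Function.update_self] at t1 t2
    exact ⟨C, Finset.mem_filter.2 ⟨hC, hC1⟩, t1, t2⟩
  · rintro C _ ⟨A, A'⟩ hA ⟨A2, A2'⟩ hA'
    exact Prod.ext (hA.2.1.symm.trans hA'.2.1) (hA.2.2.symm.trans hA'.2.2)

lemma deg_two_comp (h : V →ₗ[ℝ] ℝ) {S : Finset V} (hS : ∀ x ∈ S, h x = 1) {l0 : ℕ} (hl2 : 2 ≤ l0)
    (h2 : ∀ i, l0 ≤ (F.L S i).card)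
    {Z : Finset V} {w : V} (hG : F.Good S Z w) {p : V} (hp : p ∈ Z) {i i2 : Fin j} (hne : i ≠ i2)
    (hi : F.f i w ≠ 0 ∨ F.g i w ≠ 0) (hi2 : F.f i2 w ≠ 0 ∨ F.g i2 w ≠ 0) :
    (l0 - 1).choose 2 * (l0 - 1).choose 2 ≤ deg S p := by
  have c1 := F.card_N h hS hi
  have c2 := F.card_N h hS hi2
  have d1 := h2 i
  have d2 := h2 i2
  refine le_trans (Nat.mul_le_mul (Nat.choose_le_choose 2 (by omega))
    (Nat.choose_le_choose 2 (by omega))) ((F.count2 h hS (fun i => hl2.trans (h2 i)) hG hne).trans ?_)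
  refine Finset.card_le_card (fun C hC => ?_)
  obtain ⟨hC1, hC2⟩ := Finset.mem_filter.1 hC
  refine Finset.mem_filter.2 ⟨hC1, ?_⟩
  rw [← hC2] at hp
  exact (Finset.mem_sdiff.1 hp).1

lemma deg_pairs (h : V →ₗ[ℝ] ℝ) {S : Finset V} (hS : ∀ x ∈ S, h x = 1) {l0 : ℕ} (hl2 : 2 ≤ l0)
    (h2 : ∀ i, l0 ≤ (F.L S i).card) {p : V} (hp : p ∈ S) (hpU : ¬ F.InU p) {Y : Finset V}
    (hY : Y ⊆ S) (hpY : p ∉ Y) (hYU : ∀ y ∈ Y, ¬ F.InU y)
    (hrel : ∀ y ∈ Y, ∃ a b : ℝ, (a ≠ 0 ∨ b ≠ 0) ∧ F.InU (a • p + b • y)) :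
    Y.card * (l0 - 1).choose 2 ≤ deg S p := by
  have key : ∀ y ∈ Y, (l0 - 1).choose 2 ≤
      ((circs S).filter (fun C => C \ F.B S = {p, y})).card := by
    intro y hy
    obtain ⟨a, b, hab, hU⟩ := hrel y hy
    have hne : p ≠ y := fun e => hpY (e ▸ hy)
    have hG := F.good_pair hp (hY hy) hne hpU (hYU y hy) rfl hU hab
    have hw0 : a • p + b • y ≠ 0 := by
      intro e
      have := pair_indep h (hS p hp) (hS y (hY hy)) hne e
      tauto
    obtain ⟨i, hi⟩ := F.exists_comp hU hw0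
    have c1 := F.card_N h hS hi
    have d1 := h2 i
    refine le_trans (Nat.choose_le_choose 2 (by omega))
      ((F.count1 h hS (fun i => hl2.trans (h2 i)) hG i).trans (Finset.card_le_card ?_))
    intro C hC
    obtain ⟨hC1, hC2⟩ := Finset.mem_filter.1 hC
    exact Finset.mem_filter.2 ⟨hC1, hC2.1⟩
  have hdisj : (Y : Set V).PairwiseDisjoint
      (fun y => (circs S).filter (fun C => C \ F.B S = {p, y})) := by
    intro y hy y' hy' hne
    rw [Function.onFun, Finset.disjoint_left]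
    intro C hC hC'
    have e := (Finset.mem_filter.1 hC).2.symm.trans (Finset.mem_filter.1 hC').2
    have : y ∈ ({p, y'} : Finset V) := by rw [← e]; simp
    rcases Finset.mem_insert.1 this with h1 | h1
    · exact hpY (h1 ▸ hy)
    · exact hne (Finset.mem_singleton.1 h1)
  calc Y.card * (l0 - 1).choose 2 = ∑ _y ∈ Y, (l0 - 1).choose 2 := by simp
    _ ≤ ∑ y ∈ Y, ((circs S).filter (fun C => C \ F.B S = {p, y})).card := Finset.sum_le_sum key
    _ = (Y.biUnion (fun y => (circs S).filter (fun C => C \ F.B S = {p, y}))).card :=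
        (Finset.card_biUnion hdisj).symm
    _ ≤ deg S p := by
        refine Finset.card_le_card (fun C hC => ?_)
        obtain ⟨y, -, hy⟩ := Finset.mem_biUnion.1 hC
        obtain ⟨hC1, hC2⟩ := Finset.mem_filter.1 hy
        refine Finset.mem_filter.2 ⟨hC1, ?_⟩
        have : p ∈ C \ F.B S := by rw [hC2]; simp
        exact (Finset.mem_sdiff.1 this).1

lemma deg_line (h : V →ₗ[ℝ] ℝ) {S : Finset V} (hS : ∀ x ∈ S, h x = 1) {i : Fin j} {p : V}
    (hp : p ∈ F.L S i) : ((F.L S i).card - 1).choose 2 ≤ deg S p := by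
  rw [← Finset.card_erase_of_mem hp, ← Finset.card_powersetCard]
  refine Finset.card_le_card_of_forall_subsingleton (fun A C => C.erase p = A) ?_ ?_
  · intro A hA
    obtain ⟨hA1, hA2⟩ := Finset.mem_powersetCard.1 hA
    have hpA : p ∉ A := fun hh => by simpa using hA1 hh
    have hsub : insert p A ⊆ F.L S i :=
      Finset.insert_subset hp (hA1.trans (Finset.erase_subset _ _))
    have hsS : insert p A ⊆ S := fun x hx => (F.mem_L.1 (hsub hx)).1
    have h3 : (insert p A).card = 3 := by rw [Finset.card_insert_of_notMem hpA, hA2]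
    refine ⟨insert p A, Finset.mem_filter.2 ⟨mem_circs.2 ⟨hsS, ?_⟩, by simp⟩, Finset.erase_insert hpA⟩
    exact circ_of_card_three h (fun x hx => hS x (hsS hx)) (F.dep_three h hS hsub h3.ge) h3
  · intro C _ A hA A' hA'
    exact hA.2.symm.trans hA'.2

/-- projection away from the span -/
noncomputable def P : V →ₗ[ℝ] V :=
  LinearMap.id - ∑ i, ((F.f i).smulRight (F.u i) + (F.g i).smulRight (F.v i))

lemma P_apply (x : V) : F.P x = x - ∑ i, (F.f i x • F.u i + F.g i x • F.v i) := by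
  simp [P, LinearMap.sum_apply]

lemma P_eq_zero {x : V} : F.P x = 0 ↔ F.InU x := by
  rw [P_apply, sub_eq_zero]; rfl

lemma onL_u (i : Fin j) : F.OnL i (F.u i) := F.onL_of_eq (a := 1) (b := 0) (by simp)

lemma onL_v (i : Fin j) : F.OnL i (F.v i) := F.onL_of_eq (a := 0) (b := 1) (by simp)

lemma extend {a b : V} (hab : ∀ s t : ℝ, F.InU (s • a + t • b) → s = 0 ∧ t = 0) :
    ∃ G : Frame V (j + 1), (∀ x, (∃ s t : ℝ, x = s • a + t • b) → G.OnL 0 x) ∧
      ∀ i x, F.OnL i x → G.OnL i.succ x := by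
  let Φ : (ℝ × ℝ) →ₗ[ℝ] V :=
    (LinearMap.fst ℝ ℝ ℝ).smulRight (F.P a) + (LinearMap.snd ℝ ℝ ℝ).smulRight (F.P b)
  have hΦ : ∀ s t : ℝ, Φ (s, t) = s • F.P a + t • F.P b := fun s t => by simp [Φ]
  have hker : LinearMap.ker Φ = ⊥ := by
    rw [LinearMap.ker_eq_bot']
    rintro ⟨s, t⟩ hst
    rw [hΦ, ← map_smul, ← map_smul, ← map_add, P_eq_zero] at hst
    obtain ⟨rfl, rfl⟩ := hab s t hst
    rfl
  obtain ⟨Ψ, hΨ⟩ := LinearMap.exists_leftInverse_of_injective Φ hker
  have hΨa : Ψ (F.P a) = (1, 0) := by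
    have := LinearMap.congr_fun hΨ (1, 0)
    simpa [hΦ] using this
  have hΨb : Ψ (F.P b) = (0, 1) := by
    have := LinearMap.congr_fun hΨ (0, 1)
    simpa [hΦ] using this
  let f0 : V →ₗ[ℝ] ℝ := (LinearMap.fst ℝ ℝ ℝ) ∘ₗ Ψ ∘ₗ F.P
  let g0 : V →ₗ[ℝ] ℝ := (LinearMap.snd ℝ ℝ ℝ) ∘ₗ Ψ ∘ₗ F.P
  have Pu : ∀ i, F.P (F.u i) = 0 := fun i => F.P_eq_zero.2 (OnL.inU F (F.onL_u i))
  have Pv : ∀ i, F.P (F.v i) = 0 := fun i => F.P_eq_zero.2 (OnL.inU F (F.onL_v i))
  have f0a : f0 a = 1 := by simp [f0, hΨa]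
  have f0b : f0 b = 0 := by simp [f0, hΨb]
  have g0a : g0 a = 0 := by simp [g0, hΨa]
  have g0b : g0 b = 1 := by simp [g0, hΨb]
  have f0u : ∀ i, f0 (F.u i) = 0 := fun i => by simp [f0, Pu]
  have f0v : ∀ i, f0 (F.v i) = 0 := fun i => by simp [f0, Pv]
  have g0u : ∀ i, g0 (F.u i) = 0 := fun i => by simp [g0, Pu]
  have g0v : ∀ i, g0 (F.v i) = 0 := fun i => by simp [g0, Pv]
  let G : Frame V (j + 1) :=
    { u := Fin.cons a F.u
      v := Fin.cons b F.v
      f := Fin.cons f0 (fun i => F.f i - F.f i a • f0 - F.f i b • g0)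
      g := Fin.cons g0 (fun i => F.g i - F.g i a • f0 - F.g i b • g0)
      fu := by
        intro i i'
        refine Fin.cases ?_ (fun i => ?_) i <;> refine Fin.cases ?_ (fun i' => ?_) i' <;>
          simp [f0a, g0a, f0u, g0u, F.fu, (Fin.succ_ne_zero _).symm]
      fv := by
        intro i i'
        refine Fin.cases ?_ (fun i => ?_) i <;> refine Fin.cases ?_ (fun i' => ?_) i' <;>
          simp [f0b, g0b, f0v, g0v, F.fv]
      gu := by
        intro i i'
        refine Fin.cases ?_ (fun i => ?_) i <;> refine Fin.cases ?_ (fun i' => ?_) i' <;>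
          simp [f0a, g0a, f0u, g0u, F.gu]
      gv := by
        intro i i'
        refine Fin.cases ?_ (fun i => ?_) i <;> refine Fin.cases ?_ (fun i' => ?_) i' <;>
          simp [f0b, g0b, f0v, g0v, F.gv, (Fin.succ_ne_zero _).symm] }
  refine ⟨G, ?_, ?_⟩
  · rintro x ⟨s, t, hx⟩
    exact G.onL_of_eq (a := s) (b := t) (by simpa [G] using hx)
  · intro i x hx
    exact G.onL_of_eq (a := F.f i x) (b := F.g i x) hx

lemma rank [Module.Finite ℝ V] : 2 * j ≤ Module.finrank ℝ V ∧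
    (Module.finrank ℝ V ≤ 2 * j → ∀ x, F.InU x) := by
  let Φ : ((Fin j → ℝ) × (Fin j → ℝ)) →ₗ[ℝ] V :=
    (Fintype.linearCombination ℝ F.u).coprod (Fintype.linearCombination ℝ F.v)
  have hΦ : ∀ α β : Fin j → ℝ, Φ (α, β) = ∑ i, α i • F.u i + ∑ i, β i • F.v i := fun α β => by
    simp [Φ, Fintype.linearCombination_apply]
  have hf : ∀ (α β : Fin j → ℝ) i, F.f i (Φ (α, β)) = α i := by
    intro α β i
    simp [hΦ, F.fu, F.fv]
  have hg : ∀ (α β : Fin j → ℝ) i, F.g i (Φ (α, β)) = β i := by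
    intro α β i
    simp [hΦ, F.gu, F.gv]
  have hinj : Function.Injective Φ := by
    rintro ⟨α, β⟩ ⟨α', β'⟩ e
    refine Prod.ext (funext fun i => ?_) (funext fun i => ?_)
    · show α i = α' i
      rw [← hf α β i, e, hf]
    · show β i = β' i
      rw [← hg α β i, e, hg]
  have hr : Module.finrank ℝ ((Fin j → ℝ) × (Fin j → ℝ)) = 2 * j := by
    simp [Module.finrank_prod]; ring
  have h1 := LinearMap.finrank_le_finrank_of_injective hinj
  refine ⟨by omega, fun hle x => ?_⟩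
  have hsurj := (LinearMap.injective_iff_surjective_of_finrank_eq_finrank (f := Φ) (by omega)).1 hinj
  obtain ⟨⟨α, β⟩, rfl⟩ := hsurj x
  unfold InU
  simp only [hf, hg]
  rw [hΦ, Finset.sum_add_distrib]

end Frame

end Pool.Agent.H19.Rad
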