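import Mathlib
import Pool.Agent.H19.RadB

set_option autoImplicit false
set_option linter.unusedSectionVars false

namespace Pool.Agent.H19.Rad

open Finset

variable {V : Type} [AddCommGroup V] [Module ℝ V] [DecidableEq V]

open Classical in
/-- points of Y in the span of a and b -/
noncomputable def lineOf (Y : Finset V) (a b : V) : Finset V :=
  Y.filter (fun x => ∃ s t : ℝ, x = s • a + t • b)

lemma mem_lineOf {Y : Finset V} {a b x : V} :
    x ∈ lineOf Y a b ↔ x ∈ Y ∧ ∃ s t : ℝ, x = s • a + t • b := by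
  simp [lineOf]

lemma circs_mono {Y S : Finset V} (h : Y ⊆ S) : circs Y ⊆ circs S := by
  intro C hC
  exact mem_circs.2 ⟨(mem_circs.1 hC).1.trans h, (mem_circs.1 hC).2⟩

lemma tri_le (Y : Finset V) (M : ℕ)
    (hM : ∀ a ∈ Y, ∀ b ∈ Y, a ≠ b → (lineOf Y a b).card ≤ M) :
    ((circs Y).filter (fun C => C.card = 3)).card ≤ Y.card ^ 2 * M := by
  have h1 : (circs Y).filter (fun C => C.card = 3) ⊆
      Y.offDiag.biUnion (fun p => (lineOf Y p.1 p.2).image (fun x => ({x, p.1, p.2} : Finset V))) := by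
    intro C hC
    obtain ⟨hC1, hC3⟩ := Finset.mem_filter.1 hC
    obtain ⟨hs, hc⟩ := mem_circs.1 hC1
    obtain ⟨x, a, b, hxa, hxb, hab, rfl⟩ := Finset.card_eq_three.1 hC3
    obtain ⟨c, hc0, hc1⟩ := hc.1
    have hx := hc.full hc0 hc1 x (by simp)
    rw [Finset.sum_insert (by simp [hxa, hxb]), Finset.sum_pair hab] at hc1
    refine Finset.mem_biUnion.2 ⟨(a, b), Finset.mem_offDiag.2 ⟨hs (by simp), hs (by simp), hab⟩,
      Finset.mem_image.2 ⟨x, mem_lineOf.2 ⟨hs (by simp), -(c a / c x), -(c b / c x), ?_⟩, rfl⟩⟩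
    have e : c x • x = -(c a • a + c b • b) := eq_neg_of_add_eq_zero_left hc1
    calc x = (c x)⁻¹ • (c x • x) := by rw [smul_smul, inv_mul_cancel₀ hx, one_smul]
      _ = _ := by rw [e, div_eq_inv_mul, div_eq_inv_mul]; module
  refine (Finset.card_le_card h1).trans ((Finset.card_biUnion_le_card_mul _ _ M ?_).trans ?_)
  · intro p hp
    obtain ⟨h1, h2, h3⟩ := Finset.mem_offDiag.1 hp
    exact Finset.card_image_le.trans (hM _ h1 _ h2 h3)
  · refine Nat.mul_le_mul_right _ ?_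
    rw [Finset.offDiag_card, sq]
    omega

lemma supsets_le (Y C : Finset V) (R : ℕ) :
    ((Y.powersetCard R).filter (fun T => C ⊆ T)).card ≤ Y.card ^ (R - C.card) := by
  refine le_trans ?_ (Nat.choose_le_pow Y.card (R - C.card))
  rw [← Finset.card_powersetCard]
  refine Finset.card_le_card_of_injOn (fun T => T \ C) ?_ ?_
  · intro T hT
    simp only [Finset.coe_filter, Set.mem_ofPred_eq, Finset.mem_powersetCard] at hT
    simp only [Finset.mem_coe, Finset.mem_powersetCard]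
    exact ⟨Finset.sdiff_subset.trans hT.1.1, by rw [Finset.card_sdiff_of_subset hT.2, hT.1.2]⟩
  · intro T hT T' hT' e
    simp only [Finset.coe_filter, Set.mem_ofPred_eq] at hT hT'
    have e' : T \ C = T' \ C := e
    rw [← Finset.sdiff_union_of_subset hT.2, ← Finset.sdiff_union_of_subset hT'.2, e']

lemma main_count [Module.Finite ℝ V] (h : V →ₗ[ℝ] ℝ) (ρ : ℕ) (hρ : Module.finrank ℝ V ≤ ρ)
    (Y : Finset V) (hY : ∀ x ∈ Y, h x = 1) (hy : 1 ≤ Y.card) (M : ℕ)
    (hM : ∀ a ∈ Y, ∀ b ∈ Y, a ≠ b → (lineOf Y a b).card ≤ M) :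
    Y.card.choose (ρ + 4) ≤ Y.card ^ 2 * M * Y.card ^ (ρ + 1) + (circs Y).card * Y.card ^ ρ := by
  rw [← Finset.card_powersetCard]
  have h1 : Y.powersetCard (ρ + 4) ⊆
      ((circs Y).filter (fun C => C.card = 3)).biUnion
        (fun C => (Y.powersetCard (ρ + 4)).filter (fun T => C ⊆ T)) ∪
      ((circs Y).filter (fun C => 4 ≤ C.card)).biUnion
        (fun C => (Y.powersetCard (ρ + 4)).filter (fun T => C ⊆ T)) := by
    intro T hT
    obtain ⟨hT1, hT2⟩ := Finset.mem_powersetCard.1 hT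
    obtain ⟨C, hC, hc⟩ := exists_circ T (dep_of_card (by omega))
    have h3 := three_le_of_dep h (fun x hx => hY x (hT1 (hC hx))) hc.1
    have hm : C ∈ circs Y := mem_circs.2 ⟨hC.trans hT1, hc⟩
    by_cases e : C.card = 3
    · exact Finset.mem_union_left _ (Finset.mem_biUnion.2
        ⟨C, Finset.mem_filter.2 ⟨hm, e⟩, Finset.mem_filter.2 ⟨hT, hC⟩⟩)
    · exact Finset.mem_union_right _ (Finset.mem_biUnion.2
        ⟨C, Finset.mem_filter.2 ⟨hm, by omega⟩, Finset.mem_filter.2 ⟨hT, hC⟩⟩)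
  refine (Finset.card_le_card h1).trans ((Finset.card_union_le _ _).trans (Nat.add_le_add ?_ ?_))
  · refine (Finset.card_biUnion_le_card_mul _ _ (Y.card ^ (ρ + 1)) ?_).trans
      (Nat.mul_le_mul_right _ (tri_le Y M hM))
    intro C hC
    have := supsets_le Y C (ρ + 4)
    rwa [(Finset.mem_filter.1 hC).2] at this
  · refine (Finset.card_biUnion_le_card_mul _ _ (Y.card ^ ρ) ?_).trans
      (Nat.mul_le_mul_right _ (Finset.card_filter_le _ _))
    intro C hC
    have h4 := (Finset.mem_filter.1 hC).2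
    exact (supsets_le Y C (ρ + 4)).trans (Nat.pow_le_pow_right hy (by omega))

lemma pow_le_choose' (y R : ℕ) (hy : 2 * R ≤ y) : y ^ R ≤ 2 ^ R * R.factorial * y.choose R := by
  have h1 := Nat.pow_sub_le_descFactorial y R
  rw [Nat.descFactorial_eq_factorial_mul_choose] at h1
  calc y ^ R ≤ (2 * (y + 1 - R)) ^ R := Nat.pow_le_pow_left (by omega) R
    _ = 2 ^ R * (y + 1 - R) ^ R := by rw [mul_pow]
    _ ≤ _ := by rw [mul_assoc]; exact Nat.mul_le_mul_left _ h1

lemma rich_line [Module.Finite ℝ V] (h : V →ₗ[ℝ] ℝ) (ρ K : ℕ) (hρ : Module.finrank ℝ V ≤ ρ)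
    (hK : 1 ≤ K) (S Y : Finset V) (hS : ∀ x ∈ S, h x = 1) (hYS : Y ⊆ S)
    (hc : (circs S).card ≤ S.card ^ 3) (hKy : S.card ≤ K * Y.card) (hy : 2 * (ρ + 4) ≤ Y.card)
    (hN : 3 * K ^ 4 * (2 ^ (ρ + 4) * (ρ + 4).factorial) < S.card) :
    ∃ a ∈ Y, ∃ b ∈ Y, a ≠ b ∧
      S.card ≤ 3 * K * (2 ^ (ρ + 4) * (ρ + 4).factorial) * (lineOf Y a b).card := by
  set Q := 2 ^ (ρ + 4) * (ρ + 4).factorial with hQ
  have hQ0 : 0 < Q := by positivity
  by_contra hcon
  push Not at hcon
  set N := S.card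
  set y := Y.card
  set M := N / (3 * K * Q) with hMdef
  have hM : ∀ a ∈ Y, ∀ b ∈ Y, a ≠ b → (lineOf Y a b).card ≤ M := by
    intro a ha b hb hab
    have := hcon a ha b hb hab
    rw [hMdef, Nat.le_div_iff_mul_le (by positivity)]
    nlinarith
  have hMN : M * (3 * K * Q) ≤ N := Nat.div_mul_le_self _ _
  have h1 := main_count h ρ hρ Y (fun x hx => hS x (hYS hx)) (by omega) M hM
  have h2 := pow_le_choose' y (ρ + 4) hy
  have h3 : (circs Y).card ≤ (K * y) ^ 3 :=
    (Finset.card_le_card (circs_mono hYS)).trans (hc.trans (Nat.pow_le_pow_left hKy 3))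
  have hy0 : 0 < y ^ (ρ + 3) := by have : 0 < y := by omega
                                   positivity
  have h4 : y ^ (ρ + 3) * y ≤ y ^ (ρ + 3) * (Q * (M + K ^ 3)) := by
    calc y ^ (ρ + 3) * y = y ^ (ρ + 4) := by ring
      _ ≤ Q * y.choose (ρ + 4) := h2
      _ ≤ Q * (y ^ 2 * M * y ^ (ρ + 1) + (K * y) ^ 3 * y ^ ρ) :=
        Nat.mul_le_mul_left _ (h1.trans (Nat.add_le_add_left (Nat.mul_le_mul_right _ h3) _))
      _ = _ := by ring
  have h5 : y ≤ Q * (M + K ^ 3) := Nat.le_of_mul_le_mul_left h4 hy0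
  have h6 : N ≤ K * (Q * (M + K ^ 3)) := hKy.trans (Nat.mul_le_mul_left _ h5)
  nlinarith

lemma sq_le_choose (l : ℕ) (hl : 4 ≤ l) : l ^ 2 ≤ 8 * (l - 1).choose 2 := by
  obtain ⟨m, rfl⟩ := Nat.exists_eq_add_of_le hl
  have : (4 + m - 1).choose 2 * 2 = (m + 3) * (m + 2) := by
    have e : 4 + m - 1 = m + 2 + 1 := by omega
    rw [e, Nat.choose_two_right, Nat.div_mul_cancel]
    · simp
    · exact (Nat.even_mul_pred_self _).two_dvd
  nlinarith

lemma two_choose (l : ℕ) : l.choose 2 * 2 + l = l * l := by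
  induction l with
  | zero => simp
  | succ n ih => rw [Nat.choose_succ_succ' , Nat.choose_one_right]; nlinarith

set_option maxHeartbeats 4000000 in
lemma structure_aux [Module.Finite ℝ V] (k ρ Q κ N q : ℕ) (hk : 1 ≤ k)
    (hQ : Q = 2 ^ (ρ + 4) * (ρ + 4).factorial) (hκ : κ = 3 * (2 * k) * Q) (hκ1 : 1 ≤ κ)
    (h : V →ₗ[ℝ] ℝ) (S : Finset V) (hr : Module.finrank ℝ V ≤ ρ) (hS : ∀ x ∈ S, h x = 1)
    (hNdef : S.card = N) (hq : k * q ≤ N) (hq2 : N < k * (q + 1))
    (hN : 3 * (2 * k) ^ 4 * Q + 16 * κ ^ 3 + 4 * κ + 4 * k * k + 4 * k * (ρ + 4) + 3 ≤ N)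
    (hdeg : ∀ p ∈ S, deg S p ≤ (q + 1).choose 2) :
    ∃ F : Frame V k, (∀ i, N ≤ κ * (F.L S i).card) ∧
        (∀ i, (F.L S i).card ≤ q + 2) ∧ ∀ p ∈ S, F.InU p → p ∈ F.B S := by
  have hκ3 : κ ^ 2 ≤ κ ^ 3 := Nat.pow_le_pow_right hκ1 (by omega)
  have hdeg2 : ∀ p ∈ S, deg S p ≤ N ^ 2 := by
    intro p hp
    refine (hdeg p hp).trans ?_
    have h1 := two_choose (q + 1)
    have h2 : q ≤ N := by nlinarith
    have h3 : 3 ≤ N := by omega
    have h4 : (q + 1) * (q + 1) ≤ (N + 1) * (N + 1) := Nat.mul_le_mul (by omega) (by omega)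
    nlinarith
  have hc : (circs S).card ≤ N ^ 3 := by
    have := card_circs_le S _ hdeg2
    rw [hNdef] at this
    calc _ ≤ N * N ^ 2 := this
      _ = N ^ 3 := by ring
  have hsize : ∀ (j : ℕ) (F : Frame V j) (i : Fin j), (F.L S i).card ≤ q + 2 := by
    intro j F i
    by_contra hlt
    have hne : (F.L S i).Nonempty := Finset.card_pos.1 (by omega)
    obtain ⟨p, hp⟩ := hne
    have h1 := (F.deg_line h hS hp).trans (hdeg p (F.mem_L.1 hp).1)
    have h2 : (q + 2).choose 2 ≤ ((F.L S i).card - 1).choose 2 :=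
      Nat.choose_le_choose 2 (by omega)
    have h3 : (q + 2).choose 2 = (q + 1).choose 1 + (q + 1).choose 2 :=
      Nat.choose_succ_succ' _ _
    rw [Nat.choose_one_right] at h3
    omega
  obtain ⟨l0, hl0⟩ : ∃ l0, l0 = (N + κ - 1) / κ := ⟨_, rfl⟩
  have hl0a : N ≤ κ * l0 := by
    have := Nat.lt_mul_div_succ (N + κ - 1) (show 0 < κ by omega)
    have e : κ * ((N + κ - 1) / κ + 1) = κ * l0 + κ := by rw [hl0]; ring
    omega
  have hl0b : ∀ l, N ≤ κ * l → l0 ≤ l := by
    intro l hl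
    rw [hl0]
    apply Nat.le_of_lt_succ
    rw [Nat.div_lt_iff_lt_mul (by omega)]
    have : l.succ * κ = κ * l + κ := by rw [Nat.succ_eq_add_one]; ring
    omega
  have hl4 : 4 ≤ l0 := by
    by_contra hlt
    have : κ * l0 ≤ κ * 3 := Nat.mul_le_mul_left _ (by omega)
    omega
  have hch := sq_le_choose l0 hl4
  have hN2 : N ^ 2 ≤ κ ^ 2 * l0 ^ 2 := by rw [← mul_pow]; exact Nat.pow_le_pow_left hl0a 2
  have hN2' : N ^ 2 ≤ 8 * κ ^ 2 * (l0 - 1).choose 2 := by nlinarith
  have hNc : N < (l0 - 1).choose 2 := by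
    by_contra hle
    have h1 : N ^ 2 ≤ 8 * κ ^ 2 * N := hN2'.trans (Nat.mul_le_mul_left _ (by omega))
    have h2 : 8 * κ ^ 2 < N := by omega
    nlinarith
  have hin : ∀ (j : ℕ) (F : Frame V j), (∀ i, N ≤ κ * (F.L S i).card) →
      ∀ p ∈ S, F.InU p → p ∈ F.B S := by
    intro j F hF p hp hU
    by_contra hB
    have hp0 : p ≠ 0 := by
      intro e
      have := hS p hp
      rw [e] at this
      simp at this
    obtain ⟨i, hi⟩ := F.exists_comp hU hp0
    have : ∃ i2, i2 ≠ i ∧ (F.f i2 p ≠ 0 ∨ F.g i2 p ≠ 0) := by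
      by_contra hn
      refine hB (F.mem_B.2 ⟨i, F.mem_L.2 ⟨hp, F.onL_of_comp hU i (fun i' hi' hh => hn ⟨i', hi', hh⟩)⟩⟩)
    obtain ⟨i2, hne, hi2⟩ := this
    have h1 := F.deg_two_comp h hS (by omega : 2 ≤ l0) (fun i => hl0b _ (hF i))
      (F.good_single hp hB hU) (Finset.mem_singleton_self p) hne.symm hi hi2
    have h2 := hdeg2 p hp
    nlinarith
  have hind : ∀ j, j ≤ k → ∃ F : Frame V j, ∀ i, N ≤ κ * (F.L S i).card := by
    intro j
    induction j with
    | zero =>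
      intro _
      exact ⟨⟨Fin.elim0, Fin.elim0, Fin.elim0, Fin.elim0, fun i => i.elim0, fun i => i.elim0,
        fun i => i.elim0, fun i => i.elim0⟩, fun i => i.elim0⟩
    | succ j ih =>
      intro hj
      obtain ⟨F, hF⟩ := ih (by omega)
      set Y := S \ F.B S with hY
      have hBc : (F.B S).card ≤ j * (q + 2) := by
        have := Finset.card_biUnion_le_card_mul (Finset.univ : Finset (Fin j)) (F.L S) (q + 2)
          (fun i _ => hsize j F i)
        simpa [Frame.B] using this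
      have hYc : N ≤ Y.card + (F.B S).card := by
        rw [hY, ← hNdef]; exact Finset.card_le_card_sdiff_add_card
      have hj2 : j * (q + 2) + (q + 2) ≤ k * (q + 2) := by
        have : (j + 1) * (q + 2) ≤ k * (q + 2) := Nat.mul_le_mul_right _ hj
        linarith
      have hY1 : q + 2 ≤ Y.card + 2 * k := by
        have e : k * (q + 2) = k * q + 2 * k := by ring
        omega
      have hKy : N ≤ 2 * k * Y.card := by
        have e1 : k * (q + 2) ≤ k * (Y.card + 2 * k) := Nat.mul_le_mul_left _ hY1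
        have e2 : k * (q + 2) = k * (q + 1) + k := by ring
        have e3 : k * (Y.card + 2 * k) = k * Y.card + 2 * (k * k) := by ring
        have e4 : 2 * k * Y.card = 2 * (k * Y.card) := by ring
        have e5 : 4 * k * k = 4 * (k * k) := by ring
        omega
      have hy : 2 * (ρ + 4) ≤ Y.card := by
        by_contra hlt
        have : 2 * k * Y.card ≤ 2 * k * (2 * (ρ + 4)) := Nat.mul_le_mul_left _ (by omega)
        have e : 2 * k * (2 * (ρ + 4)) = 4 * k * (ρ + 4) := by ring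
        omega
      obtain ⟨a, ha, b, hb, hab, hM⟩ := rich_line h ρ (2 * k) hr (by omega) S Y hS
        Finset.sdiff_subset (by rw [hNdef]; exact hc) (by rw [hNdef]; exact hKy) hy
        (by rw [hNdef, ← hQ]; omega)
      rw [hNdef, ← hQ, ← hκ] at hM
      have hYU : ∀ y ∈ Y, ¬ F.InU y := fun y hy hU =>
        (Finset.mem_sdiff.1 hy).2 (hin j F hF y (Finset.mem_sdiff.1 hy).1 hU)
      have hind : ∀ s t : ℝ, F.InU (s • a + t • b) → s = 0 ∧ t = 0 := by
        intro s t hst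
        by_contra hn
        have ht : t ≠ 0 := by
          intro e
          have hs : s ≠ 0 := fun e' => hn ⟨e', e⟩
          rw [e, zero_smul, add_zero] at hst
          exact hYU a ha (Frame.InU.of_smul F hst hs)
        have hsub : (lineOf Y a b).erase a ⊆ Y := fun x hx =>
          (mem_lineOf.1 (Finset.mem_of_mem_erase hx)).1
        have h1 := F.deg_pairs h hS (by omega : 2 ≤ l0) (fun i => hl0b _ (hF i))
          (Finset.mem_sdiff.1 ha).1 (hYU a ha) (Y := (lineOf Y a b).erase a)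
          (hsub.trans Finset.sdiff_subset) (by simp) (fun y hy => hYU y (hsub hy)) (by
            intro y hy
            obtain ⟨-, σ, τ, e⟩ := mem_lineOf.1 (Finset.mem_of_mem_erase hy)
            refine ⟨τ * s - t * σ, t, Or.inr ht, ?_⟩
            have : (τ * s - t * σ) • a + t • y = τ • (s • a + t • b) := by rw [e]; module
            rw [this]
            exact Frame.InU.smul F hst _)
        have h2 := hdeg2 a (Finset.mem_sdiff.1 ha).1
        have h3 : l0 - 1 ≤ ((lineOf Y a b).erase a).card := by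
          have := hl0b _ hM
          have := Finset.pred_card_le_card_erase (s := lineOf Y a b) (a := a)
          omega
        have h4 : (l0 - 1) * (l0 - 1).choose 2 ≤ N ^ 2 :=
          (Nat.mul_le_mul_right _ h3).trans (h1.trans h2)
        have h5 : N ≤ 2 * κ * (l0 - 1) := by
          have : l0 ≤ 2 * (l0 - 1) := by omega
          nlinarith
        have h6 : N * N ^ 2 ≤ (2 * κ * (l0 - 1)) * (8 * κ ^ 2 * (l0 - 1).choose 2) :=
          Nat.mul_le_mul h5 hN2'
        have h7 : N * N ^ 2 ≤ 16 * κ ^ 3 * N ^ 2 := by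
          calc _ ≤ _ := h6
            _ = 16 * κ ^ 3 * ((l0 - 1) * (l0 - 1).choose 2) := by ring
            _ ≤ _ := Nat.mul_le_mul_left _ h4
        have h8 : N ≤ 16 * κ ^ 3 := Nat.le_of_mul_le_mul_right h7 (pow_pos (by omega) 2)
        omega
      obtain ⟨G, hG1, hG2⟩ := F.extend hind
      refine ⟨G, fun i => ?_⟩
      refine Fin.cases ?_ (fun i => ?_) i
      · refine hM.trans (Nat.mul_le_mul_left _ (Finset.card_le_card ?_))
        intro x hx
        obtain ⟨hx1, hx2⟩ := mem_lineOf.1 hx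
        exact G.mem_L.2 ⟨(Finset.mem_sdiff.1 hx1).1, hG1 x hx2⟩
      · refine (hF i).trans (Nat.mul_le_mul_left _ (Finset.card_le_card ?_))
        intro x hx
        obtain ⟨hx1, hx2⟩ := F.mem_L.1 hx
        exact G.mem_L.2 ⟨hx1, hG2 i x hx2⟩
  obtain ⟨F, hF⟩ := hind k le_rfl
  exact ⟨F, hF, hsize k F, hin k F hF⟩

/-- the structure theorem -/
lemma structure_thm (k : ℕ) (hk : 1 ≤ k) : ∃ κ N0 : ℕ, 1 ≤ κ ∧
    ∀ (V : Type) [AddCommGroup V] [Module ℝ V] [DecidableEq V] [Module.Finite ℝ V]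
      (h : V →ₗ[ℝ] ℝ) (S : Finset V), Module.finrank ℝ V ≤ 2 * k + 1 → (∀ x ∈ S, h x = 1) →
      N0 ≤ S.card → (∀ p ∈ S, deg S p ≤ (S.card / k + 1).choose 2) →
      ∃ F : Frame V k, (∀ i, S.card ≤ κ * (F.L S i).card) ∧
        (∀ i, (F.L S i).card ≤ S.card / k + 2) ∧ ∀ p ∈ S, F.InU p → p ∈ F.B S := by
  have hκ1 : 0 < 3 * (2 * k) * (2 ^ (2 * k + 1 + 4) * (2 * k + 1 + 4).factorial) := by positivity
  exact ⟨_, _, hκ1, fun V _ _ _ _ h S hr hS hN hdeg =>
    structure_aux k (2 * k + 1) _ _ _ _ hk rfl rfl hκ1 h S hr hS rfl (Nat.mul_div_le _ _)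
    (Nat.lt_mul_div_succ _ (by omega)) hN hdeg⟩

end Pool.Agent.H19.Rad
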