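import Mathlib
import Pool.Agent.H19.RadC

set_option autoImplicit false
set_option linter.unusedSectionVars false

namespace Pool.Agent.H19.Rad

open Finset

/-- balanced sum of binomials -/
def T (k n : ℕ) : ℕ := k * (n / k).choose 3 + (n % k) * (n / k).choose 2

/-- value for odd rank -/
def U (k n : ℕ) : ℕ := T k n + 1 + (n / k - 1).choose 2

lemma div_succ_cases (k n : ℕ) (hk : 1 ≤ k) :
    ((n + 1) / k = n / k ∧ (n + 1) % k = n % k + 1) ∨
      ((n + 1) / k = n / k + 1 ∧ (n + 1) % k = 0 ∧ n % k + 1 = k) := by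
  have h1 := Nat.div_add_mod n k
  have h2 := Nat.mod_lt n (show 0 < k by omega)
  by_cases h : n % k + 1 < k
  · left
    have := (Nat.div_mod_unique (a := n + 1) (b := k) (c := n % k + 1) (d := n / k) (by omega)).2
      ⟨by omega, h⟩
    exact this
  · right
    have e : k * (n / k + 1) = k * (n / k) + k := by ring
    have := (Nat.div_mod_unique (a := n + 1) (b := k) (c := 0) (d := n / k + 1) (by omega)).2
      ⟨by omega, by omega⟩
    exact ⟨this.1, this.2, by omega⟩

lemma choose3_succ (l : ℕ) : (l + 1).choose 3 = l.choose 3 + l.choose 2 := by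
  rw [Nat.choose_succ_succ' l 2, add_comm]

lemma choose2_succ (l : ℕ) : (l + 1).choose 2 = l.choose 2 + l := by
  rw [Nat.choose_succ_succ' l 1, add_comm, Nat.choose_one_right]

lemma T_succ (k n : ℕ) (hk : 1 ≤ k) : T k (n + 1) = T k n + (n / k).choose 2 := by
  unfold T
  rcases div_succ_cases k n hk with ⟨h1, h2⟩ | ⟨h1, h2, h3⟩
  · rw [h1, h2]; ring
  · rw [h1, h2, choose3_succ]
    generalize n % k = r at h3
    subst h3
    ring

lemma convex3 (l q : ℕ) : q.choose 3 + q.choose 2 * l ≤ l.choose 3 + q.choose 2 * q := by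
  rcases le_total q l with h | h
  · obtain ⟨n, rfl⟩ := Nat.exists_eq_add_of_le h
    induction n with
    | zero => simp
    | succ n ih =>
      have h1 := ih (by omega)
      have h2 : q.choose 2 ≤ (q + n).choose 2 := Nat.choose_le_choose 2 (by omega)
      rw [← add_assoc, choose3_succ, mul_add _ _ 1]
      omega
  · obtain ⟨n, rfl⟩ := Nat.exists_eq_add_of_le h
    have key : ∀ n, (l + n).choose 3 ≤ l.choose 3 + (l + n).choose 2 * n := by
      intro n
      induction n with
      | zero => simp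
      | succ n ih =>
        have h2 : (l + n).choose 2 ≤ (l + n + 1).choose 2 := Nat.choose_le_choose 2 (by omega)
        have h3 : (l + n).choose 2 * n ≤ (l + n + 1).choose 2 * n := Nat.mul_le_mul_right _ h2
        rw [← add_assoc, choose3_succ, mul_add _ _ 1]
        omega
    have := key n
    rw [mul_add]
    omega

lemma convex3' (l q : ℕ) (hl : 1 ≤ l) (hq : 1 ≤ q) :
    q.choose 3 + q.choose 2 * l + (q - 1).choose 2 ≤
      l.choose 3 + q.choose 2 * q + (l - 1).choose 2 := by
  rcases le_total q l with h | h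
  · have := convex3 l q
    have h2 : (q - 1).choose 2 ≤ (l - 1).choose 2 := Nat.choose_le_choose 2 (by omega)
    omega
  · have h1 := convex3 (l + 1) q
    rw [choose3_succ, mul_add, mul_one] at h1
    have h2 := choose2_succ (q - 1)
    have h3 := choose2_succ (l - 1)
    rw [Nat.sub_add_cancel hq] at h2
    rw [Nat.sub_add_cancel hl] at h3
    omega

lemma T_le_sum (k n : ℕ) (l : Fin k → ℕ) (hn : n ≤ ∑ i, l i) : T k n ≤ ∑ i, (l i).choose 3 := by
  have h1 : ∑ i : Fin k, ((n / k).choose 3 + (n / k).choose 2 * l i) ≤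
      ∑ i : Fin k, ((l i).choose 3 + (n / k).choose 2 * (n / k)) :=
    Finset.sum_le_sum (fun i _ => convex3 _ _)
  simp only [Finset.sum_add_distrib, Finset.sum_const, Finset.card_univ, Fintype.card_fin,
    smul_eq_mul, ← Finset.mul_sum] at h1
  have h2 : (n / k).choose 2 * n ≤ (n / k).choose 2 * ∑ i, l i := Nat.mul_le_mul_left _ hn
  have h3 : (n / k).choose 2 * n = k * ((n / k).choose 2 * (n / k)) + (n % k) * (n / k).choose 2 := by
    conv_lhs => rw [← Nat.div_add_mod n k, Nat.div_add_mod]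
    nth_rewrite 2 [← Nat.div_add_mod n k]
    ring
  unfold T
  omega

lemma T_le_sum' (k n : ℕ) (l : Fin k → ℕ) (hn : n ≤ ∑ i, l i) (i0 : Fin k) (hl : 1 ≤ l i0)
    (hq : 1 ≤ n / k) :
    T k n + (n / k - 1).choose 2 ≤ ∑ i, (l i).choose 3 + (l i0 - 1).choose 2 := by
  have h1 : ∑ i : Fin k, ((n / k).choose 3 + (n / k).choose 2 * l i +
        if i = i0 then (n / k - 1).choose 2 else 0) ≤
      ∑ i : Fin k, ((l i).choose 3 + (n / k).choose 2 * (n / k) +
        if i = i0 then (l i0 - 1).choose 2 else 0) := by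
    refine Finset.sum_le_sum (fun i _ => ?_)
    by_cases e : i = i0
    · subst e
      simpa using convex3' _ _ hl hq
    · simpa [e] using convex3 _ _
  simp only [Finset.sum_add_distrib, Finset.sum_const, Finset.card_univ, Fintype.card_fin,
    smul_eq_mul, ← Finset.mul_sum, Finset.sum_ite_eq', Finset.mem_univ, if_true] at h1
  have h2 : (n / k).choose 2 * n ≤ (n / k).choose 2 * ∑ i, l i := Nat.mul_le_mul_left _ hn
  have h3 : (n / k).choose 2 * n = k * ((n / k).choose 2 * (n / k)) + (n % k) * (n / k).choose 2 := by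
    conv_lhs => rw [← Nat.div_add_mod n k, Nat.div_add_mod]
    nth_rewrite 2 [← Nat.div_add_mod n k]
    ring
  unfold T
  omega

variable {V : Type} [AddCommGroup V] [Module ℝ V] [DecidableEq V]

namespace Frame

variable {j : ℕ} (F : Frame V j)

/-- collinear triples on the planes -/
noncomputable def Tri (S : Finset V) : Finset (Finset V) :=
  Finset.univ.biUnion (fun i => (F.L S i).powersetCard 3)

lemma card_Tri (h : V →ₗ[ℝ] ℝ) {S : Finset V} (hS : ∀ x ∈ S, h x = 1) :
    (F.Tri S).card = ∑ i, (F.L S i).card.choose 3 := by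
  unfold Tri
  rw [Finset.card_biUnion]
  · simp
  · intro i _ i' _ hne
    rw [Function.onFun, Finset.disjoint_left]
    intro C hC hC'
    obtain ⟨h1, h2⟩ := Finset.mem_powersetCard.1 hC
    obtain ⟨h3, -⟩ := Finset.mem_powersetCard.1 hC'
    obtain ⟨x, hx⟩ : C.Nonempty := Finset.card_pos.1 (by omega)
    have a1 := F.mem_L.1 (h1 hx)
    have a2 := F.mem_L.1 (h3 hx)
    exact hne (F.line_unique h (hS x a1.1) a1.2 a2.2)

lemma Tri_sub (h : V →ₗ[ℝ] ℝ) {S : Finset V} (hS : ∀ x ∈ S, h x = 1) {C : Finset V}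
    (hC : C ∈ F.Tri S) : C ∈ circs S ∧ C \ F.B S = ∅ := by
  obtain ⟨i, -, hi⟩ := Finset.mem_biUnion.1 hC
  obtain ⟨h1, h2⟩ := Finset.mem_powersetCard.1 hi
  have hs : C ⊆ S := fun x hx => (F.mem_L.1 (h1 hx)).1
  refine ⟨mem_circs.2 ⟨hs, circ_of_card_three h (fun x hx => hS x (hs hx))
    (F.dep_three h hS h1 h2.ge) h2⟩, ?_⟩
  rw [Finset.sdiff_eq_empty_iff_subset]
  exact fun x hx => F.mem_B.2 ⟨i, h1 hx⟩

lemma card_B_le (S : Finset V) : (F.B S).card ≤ ∑ i, (F.L S i).card := Finset.card_biUnion_le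

lemma sum_le_circs (h : V →ₗ[ℝ] ℝ) {S : Finset V} (hS : ∀ x ∈ S, h x = 1) :
    ∑ i, (F.L S i).card.choose 3 ≤ (circs S).card := by
  rw [← F.card_Tri h hS]
  exact Finset.card_le_card (fun C hC => (F.Tri_sub h hS hC).1)

lemma pair_extra (h : V →ₗ[ℝ] ℝ) {S : Finset V} (hS : ∀ x ∈ S, h x = 1)
    (h2 : ∀ i, 2 ≤ (F.L S i).card) {p q w : V} (hp : p ∈ S) (hq : q ∈ S) (hne : p ≠ q)
    (hpU : ¬ F.InU p) (hqU : ¬ F.InU q) {a b : ℝ} (hab : a • p + b • q = w) (h0 : a ≠ 0 ∨ b ≠ 0)
    {i : Fin j} (hw : F.OnL i w) :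
    ∑ i, (F.L S i).card.choose 3 + (1 + ((F.L S i).card - 1).choose 2) ≤ (circs S).card := by
  have hG := F.good_pair hp hq hne hpU hqU hab (OnL.inU F hw) h0
  have hw0 : w ≠ 0 := by
    intro e
    have := pair_indep h (hS p hp) (hS q hq) hne (hab.trans e)
    tauto
  have hi : F.f i w ≠ 0 ∨ F.g i w ≠ 0 := by
    by_contra hn
    push Not at hn
    unfold OnL at hw
    rw [hn.1, hn.2] at hw
    exact hw0 (by simpa using hw)
  have c1 := F.count1 h hS h2 hG i
  have c2 := F.card_N h hS hi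
  have key : 1 + ((F.L S i).card - 1).choose 2 ≤
      ((circs S).filter (fun C => C \ F.B S = {p, q})).card := by
    by_cases hN : F.L S i ⊆ F.N S w i
    · have h3 := Finset.card_le_card hN
      have h4 := choose2_succ ((F.L S i).card - 1)
      have h5 := h2 i
      rw [Nat.sub_add_cancel (by omega)] at h4
      have h6 : (F.L S i).card.choose 2 ≤ (F.N S w i).card.choose 2 := Nat.choose_le_choose 2 h3
      have h7 : ((circs S).filter (fun C => C \ F.B S = {p, q} ∧ (C ∩ F.L S i).card = 2)).card ≤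
          ((circs S).filter (fun C => C \ F.B S = {p, q})).card := by
        refine Finset.card_le_card (fun C hC => ?_)
        obtain ⟨hC1, hC2⟩ := Finset.mem_filter.1 hC
        exact Finset.mem_filter.2 ⟨hC1, hC2.1⟩
      omega
    · obtain ⟨c, hc, hcN⟩ := Finset.not_subset.1 hN
      have hcL := F.mem_L.1 hc
      have hpsi : F.psi i c w = 0 := by
        by_contra hn
        exact hcN (by classical exact Finset.mem_filter.2 ⟨hc, hn⟩)
      rw [psi_apply] at hpsi
      have hcB : c ∈ F.B S := F.mem_B.2 ⟨i, hc⟩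
      have hpB := F.not_mem_B (S := S) hpU
      have hqB := F.not_mem_B (S := S) hqU
      have hpc : p ≠ c := fun e => hpB (e ▸ hcB)
      have hqc : q ≠ c := fun e => hqB (e ▸ hcB)
      have hc0 : F.f i c ≠ 0 ∨ F.g i c ≠ 0 := by
        by_contra hn
        push Not at hn
        have h1 := hcL.2
        unfold OnL at h1
        rw [hn.1, hn.2] at h1
        have h3 := hS c hcL.1
        rw [h1] at h3
        simp at h3
      have hwc : ∃ t : ℝ, w = t • c := by
        have e1 := hcL.2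
        unfold OnL at e1 hw
        rcases hc0 with h1 | h1
        · refine ⟨F.f i w / F.f i c, ?_⟩
          have e2 : F.g i w = F.f i w / F.f i c * F.g i c := by field_simp; linarith
          have e3 : F.f i w = F.f i w / F.f i c * F.f i c := by field_simp
          generalize F.f i w / F.f i c = t at e2 e3
          rw [hw, e2, e3]
          conv_rhs => rw [e1]
          module
        · refine ⟨F.g i w / F.g i c, ?_⟩
          have e2 : F.f i w = F.g i w / F.g i c * F.f i c := by field_simp; linarith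
          have e3 : F.g i w = F.g i w / F.g i c * F.g i c := by field_simp
          generalize F.g i w / F.g i c = t at e2 e3
          rw [hw, e2, e3]
          conv_rhs => rw [e1]
          module
      obtain ⟨t, ht⟩ := hwc
      obtain ⟨-, -, -, ⟨l, hl, hl0⟩, -⟩ := hG
      have hdis : Disjoint ({p, q} : Finset V) {c} := by simp [hpc.symm, hqc.symm]
      have hdep : Dep (({p, q} : Finset V) ∪ {c}) := by
        refine dep_union_of_span hdis hl0 ?_
        rw [hl, ht]
        exact Submodule.smul_mem _ _ (Submodule.subset_span (by simp))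
      have hcard : (({p, q} : Finset V) ∪ {c}).card = 3 := by
        rw [Finset.card_union_of_disjoint hdis, Finset.card_pair hne]; simp
      have hsub : ({p, q} : Finset V) ∪ {c} ⊆ S := by
        intro x hx
        simp only [Finset.mem_union, Finset.mem_insert, Finset.mem_singleton] at hx
        rcases hx with (rfl | rfl) | rfl
        · exact hp
        · exact hq
        · exact hcL.1
      have hcirc := circ_of_card_three h (fun x hx => hS x (hsub hx)) hdep hcard
      have hnot : (({p, q} : Finset V) ∪ {c}) ∉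
          (circs S).filter (fun C => C \ F.B S = {p, q} ∧ (C ∩ F.L S i).card = 2) := by
        intro hh
        have h3 := (Finset.mem_filter.1 hh).2.2
        have h4 : (({p, q} : Finset V) ∪ {c}) ∩ F.L S i ⊆ {c} := by
          intro x hx
          obtain ⟨hx1, hx2⟩ := Finset.mem_inter.1 hx
          simp only [Finset.mem_union, Finset.mem_insert, Finset.mem_singleton] at hx1 ⊢
          rcases hx1 with (rfl | rfl) | rfl
          · exact absurd (F.mem_B.2 ⟨i, hx2⟩) hpB
          · exact absurd (F.mem_B.2 ⟨i, hx2⟩) hqB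
          · rfl
        have := Finset.card_le_card h4
        simp only [Finset.card_singleton] at this
        omega
      have h7 : (insert (({p, q} : Finset V) ∪ {c})
          ((circs S).filter (fun C => C \ F.B S = {p, q} ∧ (C ∩ F.L S i).card = 2))).card ≤
          ((circs S).filter (fun C => C \ F.B S = {p, q})).card := by
        refine Finset.card_le_card (Finset.insert_subset ?_ (fun C hC => ?_))
        · refine Finset.mem_filter.2 ⟨mem_circs.2 ⟨hsub, hcirc⟩, ?_⟩
          ext x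
          simp only [Finset.mem_sdiff, Finset.mem_union, Finset.mem_insert, Finset.mem_singleton]
          constructor
          · rintro ⟨h1 | rfl, h3⟩
            · exact h1
            · exact absurd hcB h3
          · rintro (rfl | rfl)
            · exact ⟨Or.inl (Or.inl rfl), hpB⟩
            · exact ⟨Or.inl (Or.inr rfl), hqB⟩
        · obtain ⟨hC1, hC2⟩ := Finset.mem_filter.1 hC
          exact Finset.mem_filter.2 ⟨hC1, hC2.1⟩
      rw [Finset.card_insert_of_notMem hnot] at h7
      have h6 : ((F.L S i).card - 1).choose 2 ≤ (F.N S w i).card.choose 2 :=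
        Nat.choose_le_choose 2 c2
      omega
  have hdis : Disjoint (F.Tri S) ((circs S).filter (fun C => C \ F.B S = {p, q})) := by
    rw [Finset.disjoint_left]
    intro C hC hC'
    have e := (F.Tri_sub h hS hC).2.symm.trans (Finset.mem_filter.1 hC').2
    exact absurd e.symm (by simp)
  have hsub : F.Tri S ∪ ((circs S).filter (fun C => C \ F.B S = {p, q})) ⊆ circs S :=
    Finset.union_subset (fun C hC => (F.Tri_sub h hS hC).1) (Finset.filter_subset _ _)
  have := Finset.card_le_card hsub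
  rw [Finset.card_union_of_disjoint hdis, F.card_Tri h hS] at this
  omega

end Frame

lemma low_odd (k : ℕ) (hk : 1 ≤ k) : ∃ N0 : ℕ,
    ∀ (V : Type) [AddCommGroup V] [Module ℝ V] [DecidableEq V] [Module.Finite ℝ V]
      (h : V →ₗ[ℝ] ℝ) (S : Finset V), Module.finrank ℝ V ≤ 2 * k → (∀ x ∈ S, h x = 1) →
      N0 ≤ S.card → (∀ p ∈ S, deg S p ≤ (S.card / k + 1).choose 2) →
      T k S.card ≤ (circs S).card := by
  obtain ⟨κ, N0, -, H⟩ := structure_thm k hk
  refine ⟨N0, fun V _ _ _ _ h S hr hS hN hdeg => ?_⟩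
  obtain ⟨F, -, -, h3⟩ := H V h S (by omega) hS hN hdeg
  have hSB : S ⊆ F.B S := fun p hp => h3 p hp (F.rank.2 hr p)
  exact (T_le_sum k _ _ ((Finset.card_le_card hSB).trans (F.card_B_le S))).trans
    (F.sum_le_circs h hS)

lemma num_aux (q E l : ℕ) (hl : q ≤ l + E) (hq : 20 * (E + 3) ≤ q) :
    (q + 1).choose 2 < 2 * (l - 1).choose 2 := by
  have h1 := two_choose (q + 1)
  have h2 := two_choose (l - 1)
  obtain ⟨m, hm⟩ : ∃ m, l - 1 = m := ⟨_, rfl⟩
  rw [hm] at h2 ⊢
  have h3 : 10 * m ≥ 9 * q + 10 := by omega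
  have h4 : (9 * q + 10) * (9 * q) ≤ (10 * m) * (10 * m - 10) :=
    Nat.mul_le_mul h3 (by omega)
  obtain ⟨m', rfl⟩ : ∃ m', m = m' + 1 := ⟨m - 1, by omega⟩
  have e : 10 * (m' + 1) - 10 = 10 * m' := by omega
  rw [e] at h4
  nlinarith

set_option maxHeartbeats 4000000 in
lemma low_even (k : ℕ) (hk : 1 ≤ k) : ∃ N0 : ℕ,
    ∀ (V : Type) [AddCommGroup V] [Module ℝ V] [DecidableEq V] [Module.Finite ℝ V]
      (h : V →ₗ[ℝ] ℝ) (S : Finset V), Module.finrank ℝ V ≤ 2 * k + 1 → (∀ x ∈ S, h x = 1) →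
      N0 ≤ S.card → (∀ p ∈ S, deg S p ≤ (S.card / k + 1).choose 2) →
      U k (S.card - 2) ≤ (circs S).card := by
  obtain ⟨κ, N0, hκ, H⟩ := structure_thm k hk
  refine ⟨N0 + 8 * κ ^ 2 + 4 * κ + 3 + k * (20 * (8 * κ ^ 2 + 1 + 2 * k + 3) + 3),
    fun V _ _ _ _ h S hr hS hN hdeg => ?_⟩
  obtain ⟨F, h1, h2, h3⟩ := H V h S hr hS (by omega) hdeg
  obtain ⟨N, hNdef⟩ : ∃ N, S.card = N := ⟨_, rfl⟩
  rw [hNdef] at hN hdeg h1 h2 ⊢
  have hqa : k * (N / k) ≤ N := Nat.mul_div_le _ _
  have hqb : 20 * (8 * κ ^ 2 + 1 + 2 * k + 3) + 3 ≤ N / k := by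
    rw [Nat.le_div_iff_mul_le (by omega), mul_comm]; omega
  have hqc : 2 ≤ (N - 2) / k := by
    rw [Nat.le_div_iff_mul_le (by omega)]
    have : k * 3 ≤ k * (N / k) := Nat.mul_le_mul_left _ (by omega)
    omega
  have hqN : N / k ≤ N := Nat.div_le_self _ _
  obtain ⟨q, hqdef⟩ : ∃ q, N / k = q := ⟨_, rfl⟩
  rw [hqdef] at hdeg h2 hqa hqb hqN
  obtain ⟨i0, -, hi0⟩ := Finset.exists_min_image (Finset.univ : Finset (Fin k))
    (fun i => (F.L S i).card) ⟨⟨0, by omega⟩, Finset.mem_univ _⟩
  obtain ⟨l0, hl0⟩ : ∃ l0, (F.L S i0).card = l0 := ⟨_, rfl⟩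
  have hmin : ∀ i, l0 ≤ (F.L S i).card := fun i => hl0 ▸ hi0 i (Finset.mem_univ _)
  have hl0a : N ≤ κ * l0 := hl0 ▸ h1 i0
  have hl4 : 4 ≤ l0 := by
    by_contra hlt
    have : κ * l0 ≤ κ * 3 := Nat.mul_le_mul_left _ (by omega)
    omega
  have hch := sq_le_choose l0 hl4
  have hN2 : N ^ 2 ≤ κ ^ 2 * l0 ^ 2 := by rw [← mul_pow]; exact Nat.pow_le_pow_left hl0a 2
  have hN2' : N ^ 2 ≤ 8 * κ ^ 2 * (l0 - 1).choose 2 := by nlinarith
  have hq2 : (q + 1).choose 2 ≤ N ^ 2 := by
    have h1 := two_choose (q + 1)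
    have h3 : 3 ≤ N := by omega
    have h4 : (q + 1) * (q + 1) ≤ (N + 1) * (N + 1) := Nat.mul_le_mul (by omega) (by omega)
    nlinarith
  have hNc : N < (l0 - 1).choose 2 := by
    by_contra hle
    have h1 : N ^ 2 ≤ 8 * κ ^ 2 * N := hN2'.trans (Nat.mul_le_mul_left _ (by omega))
    have h2 : 8 * κ ^ 2 < N := by omega
    nlinarith
  set Y := S \ F.B S with hY
  have hYc : N ≤ Y.card + ∑ i, (F.L S i).card := by
    have := F.card_B_le S
    have h5 : S.card ≤ Y.card + (F.B S).card := Finset.card_le_card_sdiff_add_card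
    omega
  have hYU : ∀ y ∈ Y, ¬ F.InU y := fun y hy hU =>
    (Finset.mem_sdiff.1 hy).2 (h3 y (Finset.mem_sdiff.1 hy).1 hU)
  have hrel : ∀ p y : V, ∃ a b : ℝ, (a ≠ 0 ∨ b ≠ 0) ∧ F.InU (a • p + b • y) := by
    intro p y
    by_contra hn
    obtain ⟨G, -⟩ := F.extend (a := p) (b := y) (by
      intro s t hst
      by_contra hc
      exact hn ⟨s, t, by tauto, hst⟩)
    have := G.rank.1
    omega
  by_cases c1 : Y.card ≤ 1
  · have h5 := (T_le_sum k (N - 2 + 1) _ (by omega)).trans (F.sum_le_circs h hS)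
    rw [T_succ k _ hk] at h5
    have h6 := choose2_succ ((N - 2) / k - 1)
    rw [Nat.sub_add_cancel (by omega)] at h6
    unfold U
    omega
  by_cases c2 : Y.card = 2
  · obtain ⟨p, y, hpy, e⟩ := Finset.card_eq_two.1 c2
    have hp : p ∈ Y := by simp [e]
    have hy : y ∈ Y := by simp [e]
    have hpS := (Finset.mem_sdiff.1 hp).1
    have hyS := (Finset.mem_sdiff.1 hy).1
    obtain ⟨a, b, hab, hU⟩ := hrel p y
    have hw0 : a • p + b • y ≠ 0 := by
      intro e
      have := pair_indep h (hS p hpS) (hS y hyS) hpy e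
      tauto
    obtain ⟨i, hi⟩ := F.exists_comp hU hw0
    have hon : F.OnL i (a • p + b • y) := by
      refine F.onL_of_comp hU i (fun i2 hne hi2 => ?_)
      have h5 := F.deg_two_comp h hS (by omega : 2 ≤ l0) hmin
        (F.good_pair hpS hyS hpy (hYU p hp) (hYU y hy) rfl hU hab) (p := p) (by simp) hne.symm hi hi2
      have h6 := hdeg p hpS
      nlinarith
    have h5 := F.pair_extra h hS (fun i => le_trans (by omega) (hmin i)) hpS hyS hpy (hYU p hp)
      (hYU y hy) rfl hab hon
    have h6 := T_le_sum' k (N - 2) (fun i => (F.L S i).card) (by omega) i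
      (le_trans (by omega) (hmin i)) (by omega)
    unfold U
    omega
  exfalso
  obtain ⟨p, hp⟩ : Y.Nonempty := Finset.card_pos.1 (by omega)
  have hpS := (Finset.mem_sdiff.1 hp).1
  have h5 := F.deg_pairs h hS (by omega : 2 ≤ l0) hmin hpS (hYU p hp) (Y := Y.erase p)
    ((Finset.erase_subset _ _).trans Finset.sdiff_subset) (by simp)
    (fun y hy => hYU y (Finset.mem_of_mem_erase hy)) (fun y _ => hrel p y)
  rw [Finset.card_erase_of_mem hp] at h5
  have h6 := hdeg p hpS
  have h7 : Y.card - 1 ≤ 8 * κ ^ 2 :=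
    Nat.le_of_mul_le_mul_right (h5.trans (h6.trans (hq2.trans hN2'))) (by omega)
  have h8 : ∑ i, (F.L S i).card + (q + 2) ≤ l0 + k * (q + 2) := by
    have h9 : ∑ i ∈ Finset.univ.erase i0, (F.L S i).card ≤ (Finset.univ.erase i0).card • (q + 2) :=
      Finset.sum_le_card_nsmul _ _ _ (fun i _ => h2 i)
    rw [← Finset.add_sum_erase _ _ (Finset.mem_univ i0), hl0]
    rw [Finset.card_erase_of_mem (Finset.mem_univ _), Finset.card_univ, Fintype.card_fin,
      smul_eq_mul] at h9
    have e : k * (q + 2) = (k - 1) * (q + 2) + (q + 2) := by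
      conv_lhs => rw [← Nat.sub_add_cancel hk]
      ring
    omega
  have e : k * (q + 2) = k * q + 2 * k := by ring
  have h10 := num_aux q (8 * κ ^ 2 + 1 + 2 * k) l0 (by omega) (by omega)
  have h11 : 2 * (l0 - 1).choose 2 ≤ (Y.card - 1) * (l0 - 1).choose 2 :=
    Nat.mul_le_mul_right _ (by omega)
  omega

lemma progressive (f : ℕ → ℕ) (D : ℕ → ℕ) (N0 : ℕ) (P : V → Prop)
    (hD : ∀ n, N0 ≤ n → f (n + 1) ≤ f n + D (n + 1))
    (low : ∀ S : Finset V, (∀ x ∈ S, P x) → N0 ≤ S.card → (∀ p ∈ S, deg S p ≤ D S.card) →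
      f S.card ≤ (circs S).card) :
    ∀ S : Finset V, (∀ x ∈ S, P x) → N0 + f N0 ≤ S.card → f S.card ≤ (circs S).card := by
  have key : ∀ n, ∀ S : Finset V, (∀ x ∈ S, P x) → S.card = N0 + n →
      f (N0 + n) + min n (f N0) ≤ (circs S).card + f N0 := by
    intro n
    induction n with
    | zero => intro S _ _; simp
    | succ n ih =>
      intro S hS hc
      by_cases hlow : ∀ p ∈ S, deg S p ≤ D S.card
      · have := low S hS (by omega) hlow
        rw [hc] at this
        omega
      · push Not at hlow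
        obtain ⟨p, hp, hd⟩ := hlow
        have h1 := ih (S.erase p) (fun x hx => hS x (Finset.mem_of_mem_erase hx))
          (by rw [Finset.card_erase_of_mem hp]; omega)
        have h2 := card_circs_erase S p
        have h3 := hD (N0 + n) (by omega)
        rw [hc] at hd
        rw [← add_assoc] at hd ⊢
        omega
  intro S hS hc
  obtain ⟨n, hn⟩ := Nat.exists_eq_add_of_le (show N0 ≤ S.card by omega)
  have := key n S hS hn
  rw [hn]
  omega

lemma lower_odd (k : ℕ) (hk : 1 ≤ k) [Module.Finite ℝ V] (h : V →ₗ[ℝ] ℝ)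
    (hr : Module.finrank ℝ V ≤ 2 * k) : ∃ N1 : ℕ, ∀ S : Finset V, (∀ x ∈ S, h x = 1) →
      N1 ≤ S.card → T k S.card ≤ (circs S).card := by
  obtain ⟨N0, H⟩ := low_odd k hk
  refine ⟨_, progressive (T k) (fun n => (n / k + 1).choose 2) N0 (fun x => h x = 1) ?_
    (fun S hS hN hd => H V h S hr hS hN hd)⟩
  intro n _
  rw [T_succ k n hk]
  have : n / k ≤ (n + 1) / k := Nat.div_le_div_right (by omega)
  exact Nat.add_le_add_left (Nat.choose_le_choose 2 (by omega)) _

lemma lower_even (k : ℕ) (hk : 1 ≤ k) [Module.Finite ℝ V] (h : V →ₗ[ℝ] ℝ)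
    (hr : Module.finrank ℝ V ≤ 2 * k + 1) : ∃ N1 : ℕ, ∀ S : Finset V, (∀ x ∈ S, h x = 1) →
      N1 ≤ S.card → U k (S.card - 2) ≤ (circs S).card := by
  obtain ⟨N0, H⟩ := low_even k hk
  refine ⟨_, progressive (fun n => U k (n - 2)) (fun n => (n / k + 1).choose 2) (N0 + 2)
    (fun x => h x = 1) ?_ (fun S hS hN hd => H V h S hr hS (by omega) hd)⟩
  intro n hn
  obtain ⟨m, rfl⟩ : ∃ m, n = m + 2 := ⟨n - 2, by omega⟩
  show U k (m + 1) ≤ U k m + _
  unfold U
  rw [T_succ k m hk]
  have h1 : m / k ≤ (m + 2 + 1) / k := Nat.div_le_div_right (by omega)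
  have h2 : (m / k + 1).choose 2 ≤ ((m + 2 + 1) / k + 1).choose 2 :=
    Nat.choose_le_choose 2 (by omega)
  have h3 := choose2_succ (m / k)
  rcases div_succ_cases k m hk with ⟨e, -⟩ | ⟨e, -⟩
  · rw [e]
    generalize m / k = q at *
    omega
  · rw [e]
    generalize m / k = q at *
    rcases q with _ | q
    · simp
    · have h4 := choose2_succ q
      simp only [Nat.add_sub_cancel]
      omega

end Pool.Agent.H19.Rad
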