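import Mathlib
import Pool.Agent.H19.RadD

set_option autoImplicit false
set_option linter.unusedSectionVars false

namespace Pool.Agent.H19.Rad

open Finset

variable {V : Type} [AddCommGroup V] [Module ℝ V] [DecidableEq V]

namespace Frame

variable {j : ℕ} (F : Frame V j)

lemma proj_sum {S T : Finset V} (hT : T ⊆ F.B S) (c : V → ℝ) (i : Fin j) :
    ∑ y ∈ T ∩ F.L S i, c y • y =
      F.f i (∑ y ∈ T, c y • y) • F.u i + F.g i (∑ y ∈ T, c y • y) • F.v i := by
  rw [map_sum, map_sum, Finset.sum_smul, Finset.sum_smul, ← Finset.sum_add_distrib,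
    ← Finset.sum_subset (Finset.inter_subset_left : T ∩ F.L S i ⊆ T)]
  · refine Finset.sum_congr rfl (fun y hy => ?_)
    have := (F.mem_L.1 (Finset.mem_inter.1 hy).2).2
    unfold OnL at this
    simp only [map_smul, smul_eq_mul]
    generalize c y = t
    conv_lhs => rw [this]
    module
  · intro y hy hn
    obtain ⟨i', hi'⟩ := F.mem_B.1 (hT hy)
    have hne : i ≠ i' := by
      rintro rfl
      exact hn (Finset.mem_inter.2 ⟨hy, hi'⟩)
    have := F.f_other (F.mem_L.1 hi').2 hne
    simp [this.1, this.2]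

lemma mem_Tri (h : V →ₗ[ℝ] ℝ) {S : Finset V} (hS : ∀ x ∈ S, h x = 1) {C : Finset V}
    (hC : C ∈ circs S) (hB : C ⊆ F.B S) : C ∈ F.Tri S := by
  obtain ⟨hs, hc⟩ := mem_circs.1 hC
  obtain ⟨c, ⟨x, hx, hcx⟩, h0⟩ := hc.1
  obtain ⟨i, hi⟩ := F.mem_B.1 (hB hx)
  have h1 := F.proj_sum hB c i
  rw [h0] at h1
  simp only [map_zero, zero_smul, add_zero] at h1
  have h2 : C ∩ F.L S i = C :=
    hc.eq_of_subset Finset.inter_subset_left ⟨c, ⟨x, Finset.mem_inter.2 ⟨hx, hi⟩, hcx⟩, h1⟩
  have h3 : C ⊆ F.L S i := Finset.inter_eq_left.1 h2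
  have h4 := three_le_of_dep h (fun x hx => hS x (hs hx)) hc.1
  obtain ⟨A, hA, hA3⟩ := Finset.exists_subset_card_eq h4
  have h5 := hc.eq_of_subset hA (F.dep_three h hS (hA.trans h3) hA3.ge)
  exact Finset.mem_biUnion.2 ⟨i, Finset.mem_univ _, Finset.mem_powersetCard.2 ⟨h3, h5 ▸ hA3⟩⟩

lemma upper0 (h : V →ₗ[ℝ] ℝ) {S : Finset V} (hS : ∀ x ∈ S, h x = 1) (hB : S ⊆ F.B S) :
    (circs S).card ≤ ∑ i, (F.L S i).card.choose 3 := by
  rw [← F.card_Tri h hS]
  exact Finset.card_le_card (fun C hC => F.mem_Tri h hS hC ((mem_circs.1 hC).1.trans hB))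

lemma upper2 (h : V →ₗ[ℝ] ℝ) {S : Finset V} (hS : ∀ x ∈ S, h x = 1) {p q c0 : V} (hne : p ≠ q)
    (hB : ∀ x ∈ S, x ∈ F.B S ∨ x = p ∨ x = q) (χ : V →ₗ[ℝ] ℝ) (hχ : ∀ i x, F.OnL i x → χ x = 0)
    (hp : χ p ≠ 0) (hq : χ q ≠ 0) {i0 : Fin j} (hc0 : c0 ∈ F.L S i0) {a b : ℝ}
    (hab : a • p + b • q = c0) :
    (circs S).card ≤ ∑ i, (F.L S i).card.choose 3 + (1 + ((F.L S i0).card - 1).choose 2) := by
  have hχB : ∀ x ∈ F.B S, χ x = 0 := by
    intro x hx
    obtain ⟨i, hi⟩ := F.mem_B.1 hx
    exact hχ i x (F.mem_L.1 hi).2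
  have hc0L := F.mem_L.1 hc0
  have hsub : circs S ⊆ F.Tri S ∪ insert (insert c0 {p, q})
      ((((F.L S i0).erase c0).powersetCard 2).image (fun A => ({p, q} : Finset V) ∪ A)) := by
    intro C hC
    obtain ⟨hs, hc⟩ := mem_circs.1 hC
    obtain ⟨c, hc1, h0⟩ := hc.1
    have hfull := hc.full hc1 h0
    set T := C \ {p, q} with hT
    have hTB : T ⊆ F.B S := by
      intro x hx
      obtain ⟨h1, h2⟩ := Finset.mem_sdiff.1 hx
      rcases hB x (hs h1) with h3 | h3 | h3
      · exact h3
      · exact absurd (by simp [h3]) h2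
      · exact absurd (by simp [h3]) h2
    have hχT : χ (∑ y ∈ T, c y • y) = 0 := by
      rw [map_sum]
      exact Finset.sum_eq_zero (fun y hy => by simp [hχB y (hTB hy)])
    have hsplit : ∑ y ∈ C ∩ {p, q}, c y • y + ∑ y ∈ T, c y • y = 0 := by
      rw [← h0, hT]
      exact Finset.sum_inter_add_sum_sdiff _ _ _
    by_cases hpC : p ∈ C <;> by_cases hqC : q ∈ C
    · have e : C ∩ {p, q} = {p, q} := Finset.inter_eq_right.2 (by
        intro x hx
        rcases Finset.mem_insert.1 hx with rfl | hx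
        · exact hpC
        · rw [Finset.mem_singleton.1 hx]; exact hqC)
      rw [e, Finset.sum_pair hne] at hsplit
      have e1 := congrArg χ hsplit
      rw [map_add, hχT, map_zero] at e1
      simp only [map_add, map_smul, smul_eq_mul, add_zero] at e1
      have e2 := congrArg χ hab
      rw [hχ i0 c0 hc0L.2] at e2
      simp only [map_add, map_smul, smul_eq_mul] at e2
      have ha : a ≠ 0 := by
        intro ha
        rw [ha, zero_mul, zero_add] at e2
        have hb : b = 0 := (mul_eq_zero.1 e2).resolve_right hq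
        rw [ha, hb] at hab
        have := hS c0 hc0L.1
        rw [← hab] at this
        simp at this
      obtain ⟨t, ht⟩ : ∃ t, c p = t * a := ⟨c p / a, by field_simp⟩
      have ht0 : t ≠ 0 := by
        intro e
        exact hfull p hpC (by rw [ht, e, zero_mul])
      have htq : c q = t * b := by
        apply mul_right_cancel₀ hq
        rw [ht] at e1
        linear_combination e1 - t * e2
      have e3 : t • c0 + ∑ y ∈ T, c y • y = 0 := by
        rw [← hsplit, ← hab, ht, htq]; module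
      have e4 : ∑ y ∈ T, c y • y = (-t) • c0 := by
        rw [neg_smul]; exact eq_neg_of_add_eq_zero_right e3
      have hTC : T ⊆ C := Finset.sdiff_subset
      have hpT : p ∉ T := by simp [hT]
      have hTL : T ⊆ F.L S i0 := by
        intro x hx
        obtain ⟨i, hi⟩ := F.mem_B.1 (hTB hx)
        by_cases e : i = i0
        · exact e ▸ hi
        · exfalso
          have h1 := F.proj_sum hTB c i
          have h2 := F.f_other hc0L.2 e
          rw [e4] at h1
          simp only [map_smul, h2.1, h2.2, smul_zero, zero_smul, add_zero] at h1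
          have h3 := hc.eq_of_subset (Finset.inter_subset_left.trans hTC)
            ⟨c, ⟨x, Finset.mem_inter.2 ⟨hx, hi⟩, hfull x (hTC hx)⟩, h1⟩
          exact hpT (Finset.mem_inter.1 (h3 ▸ hpC)).1
      have hCe : C = {p, q} ∪ T := by
        rw [hT, Finset.union_sdiff_self_eq_union, eq_comm, Finset.union_eq_right, ← e]
        exact Finset.inter_subset_left
      refine Finset.mem_union_right _ ?_
      by_cases hcT : c0 ∈ T
      · refine Finset.mem_insert.2 (Or.inl ?_)
        have hdis : Disjoint ({p, q} : Finset V) {c0} := by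
          rw [Finset.disjoint_singleton_right]
          exact (Finset.mem_sdiff.1 hcT).2
        have hdep : Dep (({p, q} : Finset V) ∪ {c0}) := by
          refine dep_union_of_span (l := c) hdis ⟨p, by simp, hfull p hpC⟩ ?_
          rw [Finset.sum_pair hne]
          have : c p • p + c q • q = t • c0 := by rw [← hab, ht, htq]; module
          rw [this]
          exact Submodule.smul_mem _ _ (Submodule.subset_span (by simp))
        have := hc.eq_of_subset (U := {p, q} ∪ {c0}) (by
          rw [hCe]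
          exact Finset.union_subset_union_right (by simpa using hcT)) hdep
        rw [← this, Finset.union_comm, Finset.insert_eq c0]
      · refine Finset.mem_insert.2 (Or.inr (Finset.mem_image.2 ⟨T, ?_, hCe.symm⟩))
        refine Finset.mem_powersetCard.2 ⟨Finset.subset_erase.2 ⟨hTL, hcT⟩, ?_⟩
        have h1 : T.card ≤ 2 := by
          by_contra hlt
          have h3 := hc.eq_of_subset hTC (F.dep_three h hS hTL (by omega))
          exact hpT (h3 ▸ hpC)
        have h2 : Dep ({c0} ∪ T) := by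
          refine dep_union_of_span (l := fun _ => t) (by simpa using hcT) ⟨c0, by simp, ht0⟩ ?_
          rw [Finset.sum_singleton, eq_neg_of_add_eq_zero_left e3]
          exact Submodule.neg_mem _ (Submodule.sum_mem _ (fun y hy =>
            Submodule.smul_mem _ _ (Submodule.subset_span hy)))
        have h3 := three_le_of_dep h (fun x hx => by
          rcases Finset.mem_union.1 hx with h4 | h4
          · rw [Finset.mem_singleton.1 h4]; exact hS c0 hc0L.1
          · exact hS x (hs (hTC h4))) h2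
        have h4 := Finset.card_union_le ({c0} : Finset V) T
        rw [Finset.card_singleton] at h4
        omega
    · exfalso
      have e : C ∩ {p, q} = {p} := by
        ext x
        simp only [Finset.mem_inter, Finset.mem_insert, Finset.mem_singleton]
        constructor
        · rintro ⟨h1, rfl | rfl⟩
          · rfl
          · exact absurd h1 hqC
        · rintro rfl
          exact ⟨hpC, Or.inl rfl⟩
      rw [e, Finset.sum_singleton] at hsplit
      have e1 := congrArg χ hsplit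
      rw [map_add, hχT, map_zero, add_zero, map_smul, smul_eq_mul] at e1
      exact mul_ne_zero (hfull p hpC) hp e1
    · exfalso
      have e : C ∩ {p, q} = {q} := by
        ext x
        simp only [Finset.mem_inter, Finset.mem_insert, Finset.mem_singleton]
        constructor
        · rintro ⟨h1, rfl | rfl⟩
          · exact absurd h1 hpC
          · rfl
        · rintro rfl
          exact ⟨hqC, Or.inr rfl⟩
      rw [e, Finset.sum_singleton] at hsplit
      have e1 := congrArg χ hsplit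
      rw [map_add, hχT, map_zero, add_zero, map_smul, smul_eq_mul] at e1
      exact mul_ne_zero (hfull q hqC) hq e1
    · refine Finset.mem_union_left _ (F.mem_Tri h hS hC (fun x hx => hTB ?_))
      refine Finset.mem_sdiff.2 ⟨hx, ?_⟩
      simp only [Finset.mem_insert, Finset.mem_singleton]
      rintro (rfl | rfl)
      · exact hpC hx
      · exact hqC hx
  have h1 := (Finset.card_le_card hsub).trans (Finset.card_union_le _ _)
  have h2 := Finset.card_insert_le (insert c0 ({p, q} : Finset V))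
    ((((F.L S i0).erase c0).powersetCard 2).image (fun A => ({p, q} : Finset V) ∪ A))
  have h3 : ((((F.L S i0).erase c0).powersetCard 2).image
      (fun A => ({p, q} : Finset V) ∪ A)).card ≤ ((F.L S i0).card - 1).choose 2 := by
    refine Finset.card_image_le.trans ?_
    rw [Finset.card_powersetCard, Finset.card_erase_of_mem hc0]
  rw [F.card_Tri h hS] at h1
  omega

lemma card_B (h : V →ₗ[ℝ] ℝ) {S : Finset V} (hS : ∀ x ∈ S, h x = 1) :
    (F.B S).card = ∑ i, (F.L S i).card := by
  unfold B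
  rw [Finset.card_biUnion]
  intro i _ i' _ hne
  rw [Function.onFun, Finset.disjoint_left]
  intro x h1 h2
  have a1 := F.mem_L.1 h1
  have a2 := F.mem_L.1 h2
  exact hne (F.line_unique h (hS x a1.1) a1.2 a2.2)

lemma exists_config (h : V →ₗ[ℝ] ℝ) (hu : ∀ i, h (F.u i) = 1) (hv : ∀ i, h (F.v i) = 1)
    (l : Fin j → ℕ) : ∃ S : Finset V, (∀ x ∈ S, h x = 1) ∧ S ⊆ F.B S ∧ S.card = ∑ i, l i ∧
      (∀ i, (F.L S i).card = l i) ∧ ∀ i, 1 ≤ l i → F.u i ∈ S := by
  let pt : Fin j → ℕ → V := fun i t => (1 - (t : ℝ)) • F.u i + (t : ℝ) • F.v i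
  have hon : ∀ i t, F.OnL i (pt i t) := fun i t => F.onL_of_eq rfl
  have hh : ∀ i t, h (pt i t) = 1 := fun i t => by simp [pt, hu, hv]
  let S : Finset V := Finset.univ.biUnion (fun i => (Finset.range (l i)).image (pt i))
  have hmem : ∀ x, x ∈ S ↔ ∃ i, ∃ t < l i, pt i t = x := fun x => by simp [S]
  have hS : ∀ x ∈ S, h x = 1 := by
    intro x hx
    obtain ⟨i, t, -, rfl⟩ := (hmem x).1 hx
    exact hh i t
  have hL : ∀ i, F.L S i = (Finset.range (l i)).image (pt i) := by
    intro i
    ext x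
    rw [F.mem_L, hmem]
    simp only [Finset.mem_image, Finset.mem_range]
    constructor
    · rintro ⟨⟨i', t, ht, rfl⟩, h2⟩
      have := F.line_unique h (hh i' t) h2 (hon i' t)
      subst this
      exact ⟨t, ht, rfl⟩
    · rintro ⟨t, ht, rfl⟩
      exact ⟨⟨i, t, ht, rfl⟩, hon i t⟩
  have hcard : ∀ i, (F.L S i).card = l i := by
    intro i
    rw [hL, Finset.card_image_of_injective, Finset.card_range]
    intro t t' e
    have := congrArg (F.g i) e
    simpa [pt, F.gu, F.gv] using this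
  have hB : S ⊆ F.B S := by
    intro x hx
    obtain ⟨i, t, ht, rfl⟩ := (hmem x).1 hx
    exact F.mem_B.2 ⟨i, F.mem_L.2 ⟨hx, hon i t⟩⟩
  refine ⟨S, hS, hB, ?_, hcard, fun i hi => (hmem _).2 ⟨i, 0, hi, by simp [pt]⟩⟩
  have e : S = F.B S := Finset.Subset.antisymm hB (fun x hx => by
    obtain ⟨i, hi⟩ := F.mem_B.1 hx
    exact (F.mem_L.1 hi).1)
  conv_lhs => rw [e]
  rw [F.card_B h hS]
  exact Finset.sum_congr rfl (fun i _ => hcard i)

end Frame

lemma exists_sizes (k n : ℕ) (hk : 1 ≤ k) : ∃ l : Fin k → ℕ, ∑ i, l i = n ∧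
    ∑ i, (l i).choose 3 = T k n ∧ ∃ i0, l i0 = n / k := by
  have hr := Nat.mod_lt n (show 0 < k by omega)
  have hc : ∑ i : Fin k, (if (i : ℕ) < n % k then 1 else 0) = n % k := by
    rw [Finset.sum_boole]
    simp [Fin.card_filter_val_lt, hr.le]
  refine ⟨fun i => n / k + if (i : ℕ) < n % k then 1 else 0, ?_, ?_, ⟨k - 1, by omega⟩, ?_⟩
  · rw [Finset.sum_add_distrib, hc]
    simp [Nat.div_add_mod]
  · have : ∀ i : Fin k, (n / k + if (i : ℕ) < n % k then 1 else 0).choose 3 =
        (n / k).choose 3 + (if (i : ℕ) < n % k then 1 else 0) * (n / k).choose 2 := by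
      intro i
      split_ifs
      · rw [choose3_succ, one_mul]
      · simp
    simp only [this]
    rw [Finset.sum_add_distrib, ← Finset.sum_mul, hc]
    simp [T]
  · have : ¬ (k - 1 < n % k) := by omega
    simp [this]

lemma exists_basis (d : ℕ) : ∃ (ε : Fin (d + 1) → ℝ × (Fin d → ℝ))
    (δ : Fin (d + 1) → (ℝ × (Fin d → ℝ)) →ₗ[ℝ] ℝ), (∀ a, (ε a).1 = 1) ∧
      ∀ a b, δ a (ε b) = if a = b then 1 else 0 := by
  refine ⟨fun a => (1, fun t => if a = t.succ then 1 else 0),
    Fin.cons (LinearMap.fst ℝ ℝ _ - ∑ t : Fin d, (LinearMap.proj t) ∘ₗ LinearMap.snd ℝ ℝ _)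
      (fun t => (LinearMap.proj t) ∘ₗ LinearMap.snd ℝ ℝ _), fun _ => rfl, ?_⟩
  intro a b
  refine Fin.cases ?_ (fun a => ?_) a <;> refine Fin.cases ?_ (fun b => ?_) b
  · simp [LinearMap.sum_apply, (Fin.succ_ne_zero _).symm]
  · simp [LinearMap.sum_apply, (Fin.succ_ne_zero _).symm]
  · simp [(Fin.succ_ne_zero _).symm]
  · simp [eq_comm]

/-- frame from a biorthogonal system -/
noncomputable def mkFrame {m k : ℕ} (hk : 2 * k ≤ m) (ε : Fin m → V) (δ : Fin m → V →ₗ[ℝ] ℝ)
    (hδ : ∀ a b, δ a (ε b) = if a = b then 1 else 0) : Frame V k where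
  u i := ε ⟨2 * i, by omega⟩
  v i := ε ⟨2 * i + 1, by omega⟩
  f i := δ ⟨2 * i, by omega⟩
  g i := δ ⟨2 * i + 1, by omega⟩
  fu i i' := by simp [hδ, Fin.ext_iff]
  fv i i' := by
    have : ¬ (2 * (i : ℕ) = 2 * i' + 1) := by omega
    simp [hδ, Fin.ext_iff, this]
  gu i i' := by
    have : ¬ (2 * (i : ℕ) + 1 = 2 * i') := by omega
    simp [hδ, Fin.ext_iff, this]
  gv i i' := by simp [hδ, Fin.ext_iff]

lemma upper_odd (d k n : ℕ) (hk : 1 ≤ k) (hd : 2 * k ≤ d + 1) :
    ∃ S : Finset (ℝ × (Fin d → ℝ)), (∀ x ∈ S, x.1 = 1) ∧ S.card = n ∧ (circs S).card ≤ T k n := by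
  obtain ⟨ε, δ, h1, h2⟩ := exists_basis d
  obtain ⟨l, hl1, hl2, -⟩ := exists_sizes k n hk
  obtain ⟨S, hS, hB, hc, hL, -⟩ := (mkFrame hd ε δ h2).exists_config (LinearMap.fst ℝ ℝ _)
    (fun i => h1 _) (fun i => h1 _) l
  refine ⟨S, hS, hc.trans hl1, ?_⟩
  have := (mkFrame hd ε δ h2).upper0 (LinearMap.fst ℝ ℝ _) hS hB
  simp only [hL] at this
  omega

lemma upper_even (d k n : ℕ) (hk : 1 ≤ k) (hd : 2 * k ≤ d) (hn : k ≤ n) :
    ∃ S : Finset (ℝ × (Fin d → ℝ)), (∀ x ∈ S, x.1 = 1) ∧ S.card = n + 2 ∧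
      (circs S).card ≤ U k n := by
  obtain ⟨ε, δ, h1, h2⟩ := exists_basis d
  obtain ⟨l, hl1, hl2, i0, hi0⟩ := exists_sizes k n hk
  have hd' : 2 * k ≤ d + 1 := by omega
  set F := mkFrame hd' ε δ h2 with hF
  obtain ⟨S, hS, hB, hc, hL, hu⟩ := F.exists_config (LinearMap.fst ℝ ℝ _)
    (fun i => h1 _) (fun i => h1 _) l
  have hl0 : 1 ≤ l i0 := by rw [hi0, Nat.le_div_iff_mul_le (by omega)]; omega
  let χ := δ ⟨2 * k, by omega⟩
  have hχu : ∀ i, χ (F.u i) = 0 := by
    intro i
    have : ¬ (k = (i : ℕ)) := by omega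
    simp [χ, hF, mkFrame, h2, Fin.ext_iff, this]
  have hχv : ∀ i, χ (F.v i) = 0 := by
    intro i
    have : ¬ (2 * k = 2 * (i : ℕ) + 1) := by omega
    simp [χ, hF, mkFrame, h2, Fin.ext_iff, this]
  have hχ : ∀ i x, F.OnL i x → χ x = 0 := by
    intro i x hx
    unfold Frame.OnL at hx
    rw [hx]; simp [hχu, hχv]
  let p := ε ⟨2 * k, by omega⟩
  let q := (1 / 2 : ℝ) • p + (1 / 2 : ℝ) • F.u i0
  have hp : χ p = 1 := by simp [χ, p, h2]
  have hq : χ q = 1 / 2 := by simp [q, hp, hχu]
  have hne : p ≠ q := by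
    intro e
    rw [← e, hp] at hq
    norm_num at hq
  have hχS : ∀ x ∈ S, χ x = 0 := by
    intro x hx
    obtain ⟨i, hi⟩ := F.mem_B.1 (hB hx)
    exact hχ i x (F.mem_L.1 hi).2
  have hLe : ∀ i, F.L (S ∪ {p, q}) i = F.L S i := by
    intro i
    ext x
    simp only [F.mem_L, Finset.mem_union, Finset.mem_insert, Finset.mem_singleton]
    constructor
    · rintro ⟨h3 | rfl | rfl, h4⟩
      · exact ⟨h3, h4⟩
      · have := hχ i _ h4
        rw [hp] at this
        norm_num at this
      · have := hχ i _ h4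
        rw [hq] at this
        norm_num at this
    · rintro ⟨h3, h4⟩
      exact ⟨Or.inl h3, h4⟩
  have hS' : ∀ x ∈ S ∪ {p, q}, (LinearMap.fst ℝ ℝ (Fin d → ℝ)) x = 1 := by
    intro x hx
    simp only [Finset.mem_union, Finset.mem_insert, Finset.mem_singleton] at hx
    rcases hx with h3 | rfl | rfl
    · exact hS x h3
    · exact h1 _
    · have e1 : p.1 = 1 := h1 _
      have e2 : (F.u i0).1 = 1 := h1 _
      simp [q, e1, e2]
      norm_num
  have hdis : Disjoint S {p, q} := by
    rw [Finset.disjoint_right]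
    intro x hx hxS
    have := hχS x hxS
    simp only [Finset.mem_insert, Finset.mem_singleton] at hx
    rcases hx with rfl | rfl
    · rw [hp] at this; norm_num at this
    · rw [hq] at this; norm_num at this
  refine ⟨S ∪ {p, q}, hS', by rw [Finset.card_union_of_disjoint hdis, Finset.card_pair hne, hc, hl1],
    ?_⟩
  have := F.upper2 (LinearMap.fst ℝ ℝ _) hS' (p := p) (q := q) (c0 := F.u i0) (i0 := i0) hne (by
      intro x hx
      simp only [Finset.mem_union, Finset.mem_insert, Finset.mem_singleton] at hx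
      rcases hx with h3 | h3
      · left
        obtain ⟨i, hi⟩ := F.mem_B.1 (hB h3)
        exact F.mem_B.2 ⟨i, by rw [hLe]; exact hi⟩
      · exact Or.inr h3) χ hχ (by rw [hp]; norm_num) (by rw [hq]; norm_num)
    (by rw [hLe]; exact F.mem_L.2 ⟨hu i0 hl0, F.onL_u i0⟩) (a := -1) (b := 2) (by
      simp only [q]; module)
  simp only [hLe, hL] at this
  unfold U
  rw [← hl2, ← hi0]
  omega

end Pool.Agent.H19.Rad
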