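import Mathlib
import Pool.Agent.H19.RadE

set_option autoImplicit false
set_option linter.unusedSectionVars false

namespace Pool.Agent.H19.Rad

open Finset

lemma convex3_strict (l q : ℕ) (hq : 2 ≤ q) (h : l < q ∨ q + 1 < l) :
    q.choose 3 + q.choose 2 * l + 1 ≤ l.choose 3 + q.choose 2 * q := by
  rcases h with h | h
  · have h1 := convex3 (l + 1) q
    rw [choose3_succ, mul_add, mul_one] at h1
    have h2 := choose2_succ (q - 1)
    rw [Nat.sub_add_cancel (by omega)] at h2
    have h3 : l.choose 2 ≤ (q - 1).choose 2 := Nat.choose_le_choose 2 (by omega)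
    omega
  · obtain ⟨l', rfl⟩ : ∃ l', l = l' + 1 := ⟨l - 1, by omega⟩
    have h1 := convex3 l' q
    have h2 := choose2_succ q
    have h3 : (q + 1).choose 2 ≤ l'.choose 2 := Nat.choose_le_choose 2 (by omega)
    rw [choose3_succ, mul_add, mul_one]
    omega

lemma convex3'_strict (l q : ℕ) (hl : 1 ≤ l) (hq : 2 ≤ q) (hne : l ≠ q) :
    q.choose 3 + q.choose 2 * l + (q - 1).choose 2 + 1 ≤
      l.choose 3 + q.choose 2 * q + (l - 1).choose 2 := by
  have h2 := choose2_succ (q - 1)
  rw [Nat.sub_add_cancel (by omega)] at h2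
  rcases lt_or_gt_of_ne hne with h | h
  · have h1 := convex3 (l + 1) q
    rw [choose3_succ, mul_add, mul_one] at h1
    have h3 := choose2_succ (l - 1)
    rw [Nat.sub_add_cancel hl] at h3
    omega
  · have := convex3 l q
    have h3 : q.choose 2 ≤ (l - 1).choose 2 := Nat.choose_le_choose 2 (by omega)
    omega

lemma T_split (k n : ℕ) :
    (n / k).choose 2 * n = k * ((n / k).choose 2 * (n / k)) + (n % k) * (n / k).choose 2 := by
  conv_lhs => rw [← Nat.div_add_mod n k, Nat.div_add_mod]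
  nth_rewrite 2 [← Nat.div_add_mod n k]
  ring

lemma T_sum_gen (k n : ℕ) (l e e' : Fin k → ℕ) (hn : n ≤ ∑ i, l i)
    (h : ∀ i, (n / k).choose 3 + (n / k).choose 2 * l i + e i ≤
      (l i).choose 3 + (n / k).choose 2 * (n / k) + e' i) :
    T k n + ∑ i, e i ≤ ∑ i, (l i).choose 3 + ∑ i, e' i := by
  have h1 := Finset.sum_le_sum (s := Finset.univ) (fun i _ => h i)
  simp only [Finset.sum_add_distrib, Finset.sum_const, Finset.card_univ, Fintype.card_fin,
    smul_eq_mul, ← Finset.mul_sum] at h1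
  have h2 : (n / k).choose 2 * n ≤ (n / k).choose 2 * ∑ i, l i := Nat.mul_le_mul_left _ hn
  have h3 := T_split k n
  unfold T
  omega

lemma balanced_of_le (k n : ℕ) (l : Fin k → ℕ) (hn : n ≤ ∑ i, l i) (hq : 2 ≤ n / k)
    (h : ∑ i, (l i).choose 3 ≤ T k n) : ∀ i, n / k ≤ l i ∧ l i ≤ n / k + 1 := by
  intro i0
  by_contra hc
  have := T_sum_gen k n l (fun i => if i = i0 then 1 else 0) (fun _ => 0) hn (by
    intro i
    by_cases e : i = i0
    · subst e
      simpa using convex3_strict (l i) (n / k) hq (by omega)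
    · simpa [e] using convex3 _ _)
  simp at this
  omega

lemma balanced_of_le' (k n : ℕ) (l : Fin k → ℕ) (hn : n ≤ ∑ i, l i) (hq : 2 ≤ n / k) (i0 : Fin k)
    (hl : 1 ≤ l i0)
    (h : ∑ i, (l i).choose 3 + (l i0 - 1).choose 2 ≤ T k n + (n / k - 1).choose 2) :
    l i0 = n / k ∧ ∀ i, n / k ≤ l i ∧ l i ≤ n / k + 1 := by
  have h1 : l i0 = n / k := by
    by_contra hc
    have := T_sum_gen k n l (fun i => if i = i0 then (n / k - 1).choose 2 + 1 else 0)
      (fun i => if i = i0 then (l i0 - 1).choose 2 else 0) hn (by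
      intro i
      by_cases e : i = i0
      · subst e
        simpa [add_assoc] using convex3'_strict (l i) (n / k) hl hq hc
      · simpa [e] using convex3 _ _)
    simp at this
    omega
  refine ⟨h1, balanced_of_le k n l hn hq ?_⟩
  rw [h1] at h
  omega

lemma sum_balanced (k n : ℕ) (l : Fin k → ℕ) (hn : ∑ i, l i = n)
    (h : ∀ i, n / k ≤ l i ∧ l i ≤ n / k + 1) : ∑ i, (l i).choose 3 = T k n := by
  have h0 : ∀ i, (l i).choose 3 + (n / k).choose 2 * (n / k) =
      (n / k).choose 3 + (n / k).choose 2 * l i := by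
    intro i
    obtain ⟨h1, h2⟩ := h i
    rcases Nat.eq_or_lt_of_le h1 with e | e
    · rw [← e]
    · have : l i = n / k + 1 := by omega
      rw [this, choose3_succ]; ring
  have h1 := Finset.sum_congr (s₁ := Finset.univ) rfl (fun i _ => h0 i)
  simp only [Finset.sum_add_distrib, Finset.sum_const, Finset.card_univ, Fintype.card_fin,
    smul_eq_mul, ← Finset.mul_sum, hn] at h1
  have h3 := T_split k n
  unfold T
  omega

variable {V : Type} [AddCommGroup V] [Module ℝ V] [DecidableEq V]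

namespace Frame

variable {j : ℕ} (F : Frame V j)

lemma pair_extra' (h : V →ₗ[ℝ] ℝ) {S : Finset V} (hS : ∀ x ∈ S, h x = 1)
    (h2 : ∀ i, 2 ≤ (F.L S i).card) {p q w : V} (hp : p ∈ S) (hq : q ∈ S) (hne : p ≠ q)
    (hpU : ¬ F.InU p) (hqU : ¬ F.InU q) {a b : ℝ} (hab : a • p + b • q = w) (h0 : a ≠ 0 ∨ b ≠ 0)
    {i : Fin j} (hw : F.OnL i w) :
    ∑ i, (F.L S i).card.choose 3 + (F.L S i).card.choose 2 ≤ (circs S).card ∨
      ∃ c ∈ F.L S i, ∃ a' b' : ℝ, a' • p + b' • q = c := by
  have hG := F.good_pair hp hq hne hpU hqU hab (OnL.inU F hw) h0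
  have hw0 : w ≠ 0 := by
    intro e
    have := pair_indep h (hS p hp) (hS q hq) hne (hab.trans e)
    tauto
  by_cases hN : F.L S i ⊆ F.N S w i
  · left
    have c1 := F.count1 h hS h2 hG i
    have h3 := Finset.card_le_card hN
    have h6 : (F.L S i).card.choose 2 ≤ (F.N S w i).card.choose 2 := Nat.choose_le_choose 2 h3
    have hdis : Disjoint (F.Tri S)
        ((circs S).filter (fun C => C \ F.B S = {p, q} ∧ (C ∩ F.L S i).card = 2)) := by
      rw [Finset.disjoint_left]
      intro C hC hC'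
      have e := (F.Tri_sub h hS hC).2.symm.trans (Finset.mem_filter.1 hC').2.1
      exact absurd e.symm (by simp)
    have hsub : F.Tri S ∪
        ((circs S).filter (fun C => C \ F.B S = {p, q} ∧ (C ∩ F.L S i).card = 2)) ⊆ circs S :=
      Finset.union_subset (fun C hC => (F.Tri_sub h hS hC).1) (Finset.filter_subset _ _)
    have := Finset.card_le_card hsub
    rw [Finset.card_union_of_disjoint hdis, F.card_Tri h hS] at this
    omega
  · right
    obtain ⟨c, hc, hcN⟩ := Finset.not_subset.1 hN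
    have hcL := F.mem_L.1 hc
    have hpsi : F.psi i c w = 0 := by
      by_contra hn
      exact hcN (by classical exact Finset.mem_filter.2 ⟨hc, hn⟩)
    rw [psi_apply] at hpsi
    have hi : F.f i w ≠ 0 ∨ F.g i w ≠ 0 := by
      by_contra hn
      push Not at hn
      unfold OnL at hw
      rw [hn.1, hn.2] at hw
      exact hw0 (by simpa using hw)
    have hwc : ∃ t : ℝ, c = t • w := by
      have e1 := hcL.2
      unfold OnL at e1 hw
      rcases hi with h1 | h1
      · refine ⟨F.f i c / F.f i w, ?_⟩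
        have e2 : F.g i c = F.f i c / F.f i w * F.g i w := by field_simp; linarith
        have e3 : F.f i c = F.f i c / F.f i w * F.f i w := by field_simp
        generalize F.f i c / F.f i w = t at e2 e3
        rw [e1, e2, e3]
        conv_rhs => rw [hw]
        module
      · refine ⟨F.g i c / F.g i w, ?_⟩
        have e2 : F.f i c = F.g i c / F.g i w * F.f i w := by field_simp; linarith
        have e3 : F.g i c = F.g i c / F.g i w * F.g i w := by field_simp
        generalize F.g i c / F.g i w = t at e2 e3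
        rw [e1, e2, e3]
        conv_rhs => rw [hw]
        module
    obtain ⟨t, ht⟩ := hwc
    exact ⟨c, hc, t * a, t * b, by rw [ht, ← hab]; module⟩

lemma rebase (h : V →ₗ[ℝ] ℝ) {S : Finset V} (hS : ∀ x ∈ S, h x = 1)
    (h2 : ∀ i, 2 ≤ (F.L S i).card) :
    ∃ G : Frame V j, (∀ i, G.u i ∈ S ∧ G.v i ∈ S) ∧ (∀ i x, G.OnL i x ↔ F.OnL i x) ∧
      ∀ x, G.InU x → F.InU x := by
  have : ∀ i, ∃ a ∈ F.L S i, ∃ b ∈ F.L S i, a ≠ b := fun i => Finset.one_lt_card.1 (h2 i)
  choose a ha b hb hab using this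
  have haL := fun i => F.mem_L.1 (ha i)
  have hbL := fun i => F.mem_L.1 (hb i)
  have hD := fun i => det_ne h (haL i).2 (hbL i).2 (hS _ (haL i).1) (hS _ (hbL i).1) (hab i)
  let D : Fin j → ℝ := fun i => F.f i (a i) * F.g i (b i) - F.g i (a i) * F.f i (b i)
  have hD' : ∀ i, D i ≠ 0 := hD
  have ho : ∀ (i i' : Fin j) (x y : V), F.OnL i' x → i ≠ i' → F.psi i y x = 0 := by
    intro i i' x y hx hne
    have := F.f_other hx hne
    simp [psi_apply, this.1, this.2]
  let G : Frame V j :=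
    { u := a
      v := b
      f := fun i => (D i)⁻¹ • F.psi i (b i)
      g := fun i => (-(D i)⁻¹) • F.psi i (a i)
      fu := by
        intro i i'
        by_cases e : i = i'
        · subst e
          simp only [LinearMap.smul_apply, smul_eq_mul, if_true, psi_apply]
          exact inv_mul_cancel₀ (hD' i)
        · simp [e, ho i i' _ _ (haL i').2 e]
      fv := by
        intro i i'
        by_cases e : i = i'
        · subst e
          simp [psi_apply, mul_comm]
        · simp [ho i i' _ _ (hbL i').2 e]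
      gu := by
        intro i i'
        by_cases e : i = i'
        · subst e
          simp [psi_apply, mul_comm]
        · simp [ho i i' _ _ (haL i').2 e]
      gv := by
        intro i i'
        by_cases e : i = i'
        · subst e
          simp only [LinearMap.smul_apply, smul_eq_mul, if_true, psi_apply]
          have : F.f i (b i) * F.g i (a i) - F.g i (b i) * F.f i (a i) = - D i := by
            simp only [D]; ring
          rw [this, neg_mul_neg, inv_mul_cancel₀ (hD' i)]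
        · simp [e, ho i i' _ _ (hbL i').2 e] }
  refine ⟨G, fun i => ⟨(haL i).1, (hbL i).1⟩, fun i x => ⟨fun hx => ?_, fun hx => ?_⟩, fun x hx => ?_⟩
  · have e1 := (haL i).2
    have e2 := (hbL i).2
    unfold OnL at hx e1 e2
    refine F.onL_of_eq (a := G.f i x * F.f i (a i) + G.g i x * F.f i (b i))
      (b := G.f i x * F.g i (a i) + G.g i x * F.g i (b i)) ?_
    generalize G.f i x = s at hx
    generalize G.g i x = t at hx
    have hx' : x = s • a i + t • b i := hx
    rw [hx']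
    conv_lhs => rw [e1, e2]
    module
  · exact G.onL_of_eq (cramer (haL i).2 (hbL i).2 hx (hD i))
  · unfold InU at hx
    rw [hx]
    refine Finset.sum_induction _ F.InU (fun _ _ ha hb => InU.add F ha hb) F.inU_zero (fun i _ => ?_)
    exact InU.add F (InU.smul F (OnL.inU F (haL i).2) _) (InU.smul F (OnL.inU F (hbL i).2) _)

end Frame

lemma extremal_low (f : ℕ → ℕ) (D : ℕ) (S : Finset V)
    (hlow : ∀ p ∈ S, f (S.card - 1) ≤ (circs (S.erase p)).card)
    (hD : f S.card ≤ f (S.card - 1) + D) (hc : (circs S).card ≤ f S.card) :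
    ∀ p ∈ S, deg S p ≤ D := by
  intro p hp
  have h1 := hlow p hp
  have h2 := card_circs_erase S p
  omega

lemma extremal_odd (k : ℕ) (hk : 1 ≤ k) [Module.Finite ℝ V] (h : V →ₗ[ℝ] ℝ)
    (hr : Module.finrank ℝ V ≤ 2 * k) : ∃ N1 : ℕ, ∀ S : Finset V, (∀ x ∈ S, h x = 1) →
      N1 ≤ S.card → (circs S).card ≤ T k S.card →
      ∃ F : Frame V k, (∀ i, F.u i ∈ S ∧ F.v i ∈ S) ∧ S ⊆ F.B S ∧
        ∀ i, S.card / k ≤ (F.L S i).card ∧ (F.L S i).card ≤ S.card / k + 1 := by
  obtain ⟨N1, H1⟩ := lower_odd k hk h hr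
  obtain ⟨κ, N0, -, H⟩ := structure_thm k hk
  refine ⟨N0 + N1 + 1 + 2 * k, fun S hS hN hc => ?_⟩
  have hdeg : ∀ p ∈ S, deg S p ≤ (S.card / k + 1).choose 2 := by
    refine extremal_low (T k) _ S (fun p hp => ?_) ?_ hc
    · rw [← Finset.card_erase_of_mem hp]
      exact H1 _ (fun x hx => hS x (Finset.mem_of_mem_erase hx))
        (by rw [Finset.card_erase_of_mem hp]; omega)
    · obtain ⟨n, hn⟩ : ∃ n, S.card = n + 1 := ⟨S.card - 1, by omega⟩
      rw [hn, T_succ k n hk, Nat.add_sub_cancel]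
      have : n / k ≤ (n + 1) / k := Nat.div_le_div_right (by omega)
      exact Nat.add_le_add_left (Nat.choose_le_choose 2 (by omega)) _
  obtain ⟨F, -, -, h3⟩ := H V h S (by omega) hS (by omega) hdeg
  have hSB : S ⊆ F.B S := fun p hp => h3 p hp (F.rank.2 hr p)
  have hq : 2 ≤ S.card / k := by rw [Nat.le_div_iff_mul_le (by omega)]; omega
  have hb := balanced_of_le k S.card (fun i => (F.L S i).card)
    ((Finset.card_le_card hSB).trans (F.card_B_le S)) hq ((F.sum_le_circs h hS).trans hc)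
  obtain ⟨G, g1, g2, -⟩ := F.rebase h hS (fun i => hq.trans (hb i).1)
  have hL : ∀ i, G.L S i = F.L S i := fun i => by ext x; rw [G.mem_L, F.mem_L, g2]
  refine ⟨G, g1, fun x hx => ?_, fun i => by rw [hL]; exact hb i⟩
  obtain ⟨i, hi⟩ := F.mem_B.1 (hSB hx)
  exact G.mem_B.2 ⟨i, by rw [hL]; exact hi⟩

lemma U_succ_le (k m : ℕ) (hk : 1 ≤ k) : U k (m + 1) ≤ U k m + ((m + 2 + 1) / k + 1).choose 2 := by
  unfold U
  rw [T_succ k m hk]
  have h1 : m / k ≤ (m + 2 + 1) / k := Nat.div_le_div_right (by omega)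
  have h2 : (m / k + 1).choose 2 ≤ ((m + 2 + 1) / k + 1).choose 2 :=
    Nat.choose_le_choose 2 (by omega)
  have h3 := choose2_succ (m / k)
  rcases div_succ_cases k m hk with ⟨e, -⟩ | ⟨e, -⟩
  · rw [e]
    generalize m / k = q at *
    omega
  · rw [e]
    generalize m / k = q at *
    rcases q with _ | q
    · simp
    · have h4 := choose2_succ q
      simp only [Nat.add_sub_cancel]
      omega

set_option maxHeartbeats 4000000 in
lemma extremal_even (k : ℕ) (hk : 1 ≤ k) [Module.Finite ℝ V] (h : V →ₗ[ℝ] ℝ)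
    (hr : Module.finrank ℝ V ≤ 2 * k + 1) : ∃ N1 : ℕ, ∀ S : Finset V, (∀ x ∈ S, h x = 1) →
      N1 ≤ S.card → (circs S).card ≤ U k (S.card - 2) →
      ∃ (F : Frame V k) (p q c : V) (i0 : Fin k), (∀ i, F.u i ∈ S ∧ F.v i ∈ S) ∧ p ∈ S ∧ q ∈ S ∧
        p ≠ q ∧ ¬ F.InU p ∧ ¬ F.InU q ∧ (∀ x ∈ S, x ∈ F.B S ∨ x = p ∨ x = q) ∧ c ∈ F.L S i0 ∧
        (∃ a b : ℝ, a • p + b • q = c) ∧ (F.L S i0).card = (S.card - 2) / k ∧
        ∀ i, (S.card - 2) / k ≤ (F.L S i).card ∧ (F.L S i).card ≤ (S.card - 2) / k + 1 := by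
  obtain ⟨N1, H1⟩ := lower_even k hk h hr
  obtain ⟨κ, N0, hκ, H⟩ := structure_thm k hk
  refine ⟨N0 + 8 * κ ^ 2 + 4 * κ + 3 + k * (20 * (8 * κ ^ 2 + 1 + 2 * k + 3) + 3) + N1 + 2 + 3 * k,
    fun S hS hN hc => ?_⟩
  have hdeg : ∀ p ∈ S, deg S p ≤ (S.card / k + 1).choose 2 := by
    refine extremal_low (fun n => U k (n - 2)) _ S (fun p hp => ?_) ?_ hc
    · rw [← Finset.card_erase_of_mem hp]
      exact H1 _ (fun x hx => hS x (Finset.mem_of_mem_erase hx))
        (by rw [Finset.card_erase_of_mem hp]; omega)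
    · obtain ⟨n, hn⟩ : ∃ n, S.card = n + 2 + 1 := ⟨S.card - 3, by omega⟩
      rw [hn]
      exact U_succ_le k n hk
  obtain ⟨F, h1, h2, h3⟩ := H V h S hr hS (by omega) hdeg
  obtain ⟨N, hNdef⟩ : ∃ N, S.card = N := ⟨_, rfl⟩
  rw [hNdef] at hN hdeg h1 h2 hc ⊢
  have hqa : k * (N / k) ≤ N := Nat.mul_div_le _ _
  have hqb : 20 * (8 * κ ^ 2 + 1 + 2 * k + 3) + 3 ≤ N / k := by
    rw [Nat.le_div_iff_mul_le (by omega), mul_comm]; omega
  have hqc : 3 ≤ (N - 2) / k := by
    rw [Nat.le_div_iff_mul_le (by omega)]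
    omega
  have hqN : N / k ≤ N := Nat.div_le_self _ _
  obtain ⟨q, hqdef⟩ : ∃ q, N / k = q := ⟨_, rfl⟩
  rw [hqdef] at hdeg h2 hqa hqb hqN
  obtain ⟨i0, -, hi0⟩ := Finset.exists_min_image (Finset.univ : Finset (Fin k))
    (fun i => (F.L S i).card) ⟨⟨0, by omega⟩, Finset.mem_univ _⟩
  obtain ⟨l0, hl0⟩ : ∃ l0, (F.L S i0).card = l0 := ⟨_, rfl⟩
  have hmin : ∀ i, l0 ≤ (F.L S i).card := fun i => hl0 ▸ hi0 i (Finset.mem_univ _)
  have hl0a : N ≤ κ * l0 := hl0 ▸ h1 i0
  have hl4 : 4 ≤ l0 := by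
    by_contra hlt
    have : κ * l0 ≤ κ * 3 := Nat.mul_le_mul_left _ (by omega)
    omega
  have hch := sq_le_choose l0 hl4
  have hN2 : N ^ 2 ≤ κ ^ 2 * l0 ^ 2 := by rw [← mul_pow]; exact Nat.pow_le_pow_left hl0a 2
  have hN2' : N ^ 2 ≤ 8 * κ ^ 2 * (l0 - 1).choose 2 := by nlinarith
  have hq2 : (q + 1).choose 2 ≤ N ^ 2 := by
    have h1 := two_choose (q + 1)
    have h3 : 3 ≤ N := by omega
    have h4 : (q + 1) * (q + 1) ≤ (N + 1) * (N + 1) := Nat.mul_le_mul (by omega) (by omega)
    nlinarith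
  have hNc : N < (l0 - 1).choose 2 := by
    by_contra hle
    have h1 : N ^ 2 ≤ 8 * κ ^ 2 * N := hN2'.trans (Nat.mul_le_mul_left _ (by omega))
    have h2 : 8 * κ ^ 2 < N := by omega
    nlinarith
  set Y := S \ F.B S with hY
  have hYc : N ≤ Y.card + ∑ i, (F.L S i).card := by
    have := F.card_B_le S
    have h5 : S.card ≤ Y.card + (F.B S).card := Finset.card_le_card_sdiff_add_card
    omega
  have hYU : ∀ y ∈ Y, ¬ F.InU y := fun y hy hU =>
    (Finset.mem_sdiff.1 hy).2 (h3 y (Finset.mem_sdiff.1 hy).1 hU)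
  have hrel : ∀ p y : V, ∃ a b : ℝ, (a ≠ 0 ∨ b ≠ 0) ∧ F.InU (a • p + b • y) := by
    intro p y
    by_contra hn
    obtain ⟨G, -⟩ := F.extend (a := p) (b := y) (by
      intro s t hst
      by_contra hc
      exact hn ⟨s, t, by tauto, hst⟩)
    have := G.rank.1
    omega
  by_cases c1 : Y.card ≤ 1
  · exfalso
    have h5 := (T_le_sum k (N - 2 + 1) _ (by omega)).trans (F.sum_le_circs h hS)
    rw [T_succ k _ hk] at h5
    have h6 := choose2_succ ((N - 2) / k - 1)
    rw [Nat.sub_add_cancel (by omega)] at h6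
    unfold U at hc
    omega
  by_cases c2 : Y.card = 2
  · obtain ⟨p, y, hpy, e⟩ := Finset.card_eq_two.1 c2
    have hp : p ∈ Y := by simp [e]
    have hy : y ∈ Y := by simp [e]
    have hpS := (Finset.mem_sdiff.1 hp).1
    have hyS := (Finset.mem_sdiff.1 hy).1
    obtain ⟨a, b, hab, hU⟩ := hrel p y
    have hw0 : a • p + b • y ≠ 0 := by
      intro e
      have := pair_indep h (hS p hpS) (hS y hyS) hpy e
      tauto
    obtain ⟨i, hi⟩ := F.exists_comp hU hw0
    have hon : F.OnL i (a • p + b • y) := by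
      refine F.onL_of_comp hU i (fun i2 hne hi2 => ?_)
      have h5 := F.deg_two_comp h hS (by omega : 2 ≤ l0) hmin
        (F.good_pair hpS hyS hpy (hYU p hp) (hYU y hy) rfl hU hab) (p := p) (by simp) hne.symm hi hi2
      have h6 := hdeg p hpS
      nlinarith
    have h5 := F.pair_extra h hS (fun i => le_trans (by omega) (hmin i)) hpS hyS hpy (hYU p hp)
      (hYU y hy) rfl hab hon
    have h6 := T_le_sum' k (N - 2) (fun i => (F.L S i).card) (by omega) i
      (le_trans (by omega) (hmin i)) (by omega)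
    unfold U at hc
    have hb := balanced_of_le' k (N - 2) (fun i => (F.L S i).card) (by omega) (by omega) i
      (le_trans (by omega) (hmin i)) (by omega)
    rcases F.pair_extra' h hS (fun i => le_trans (by omega) (hmin i)) hpS hyS hpy (hYU p hp)
      (hYU y hy) rfl hab hon with h7 | ⟨c, hc0, hc1⟩
    · exfalso
      have h8 := choose2_succ ((F.L S i).card - 1)
      have h9 := hmin i
      rw [Nat.sub_add_cancel (by omega)] at h8
      omega
    obtain ⟨G, g1, g2, g3⟩ := F.rebase h hS (fun i => le_trans (by omega) (hmin i))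
    have hL : ∀ i, G.L S i = F.L S i := fun i => by ext x; rw [G.mem_L, F.mem_L, g2]
    refine ⟨G, p, y, c, i, g1, hpS, hyS, hpy, fun hh => hYU p hp (g3 p hh),
      fun hh => hYU y hy (g3 y hh), fun x hx => ?_, by rw [hL]; exact hc0, hc1,
      by rw [hL]; exact hb.1, fun i => by rw [hL]; exact hb.2 i⟩
    by_cases hxB : x ∈ F.B S
    · obtain ⟨i, hi⟩ := F.mem_B.1 hxB
      exact Or.inl (G.mem_B.2 ⟨i, by rw [hL]; exact hi⟩)
    · have : x ∈ Y := Finset.mem_sdiff.2 ⟨hx, hxB⟩
      rw [e] at this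
      right
      simpa using this
  exfalso
  obtain ⟨p, hp⟩ : Y.Nonempty := Finset.card_pos.1 (by omega)
  have hpS := (Finset.mem_sdiff.1 hp).1
  have h5 := F.deg_pairs h hS (by omega : 2 ≤ l0) hmin hpS (hYU p hp) (Y := Y.erase p)
    ((Finset.erase_subset _ _).trans Finset.sdiff_subset) (by simp)
    (fun y hy => hYU y (Finset.mem_of_mem_erase hy)) (fun y _ => hrel p y)
  rw [Finset.card_erase_of_mem hp] at h5
  have h6 := hdeg p hpS
  have h7 : Y.card - 1 ≤ 8 * κ ^ 2 :=
    Nat.le_of_mul_le_mul_right (h5.trans (h6.trans (hq2.trans hN2'))) (by omega)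
  have h8 : ∑ i, (F.L S i).card + (q + 2) ≤ l0 + k * (q + 2) := by
    have h9 : ∑ i ∈ Finset.univ.erase i0, (F.L S i).card ≤ (Finset.univ.erase i0).card • (q + 2) :=
      Finset.sum_le_card_nsmul _ _ _ (fun i _ => h2 i)
    rw [← Finset.add_sum_erase _ _ (Finset.mem_univ i0), hl0]
    rw [Finset.card_erase_of_mem (Finset.mem_univ _), Finset.card_univ, Fintype.card_fin,
      smul_eq_mul] at h9
    have e : k * (q + 2) = (k - 1) * (q + 2) + (q + 2) := by
      conv_lhs => rw [← Nat.sub_add_cancel hk]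
      ring
    omega
  have e : k * (q + 2) = k * q + 2 * k := by ring
  have h10 := num_aux q (8 * κ ^ 2 + 1 + 2 * k) l0 (by omega) (by omega)
  have h11 : 2 * (l0 - 1).choose 2 ≤ (Y.card - 1) * (l0 - 1).choose 2 :=
    Nat.mul_le_mul_right _ (by omega)
  omega

lemma exists_dual {ι : Type} [Fintype ι] [DecidableEq ι] {e : ι → V} (he : LinearIndependent ℝ e) :
    ∃ δ : ι → V →ₗ[ℝ] ℝ, ∀ a b, δ a (e b) = if a = b then 1 else 0 := by
  have hker : LinearMap.ker (Fintype.linearCombination ℝ e) = ⊥ := by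
    rw [LinearMap.ker_eq_bot']
    intro c hc
    exact funext (Fintype.linearIndependent_iff.1 he c (by
      simpa [Fintype.linearCombination_apply] using hc))
  obtain ⟨Ψ, hΨ⟩ := LinearMap.exists_leftInverse_of_injective _ hker
  refine ⟨fun a => (LinearMap.proj a) ∘ₗ Ψ, fun a b => ?_⟩
  have := LinearMap.congr_fun hΨ (Pi.single b 1)
  simp only [LinearMap.comp_apply, Fintype.linearCombination_apply_single, one_smul,
    LinearMap.id_apply] at this
  simp [this, Pi.single_apply]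

end Pool.Agent.H19.Rad
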