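import Mathlib

set_option autoImplicit false
set_option linter.unusedSectionVars false

namespace Pool.Agent.H19.Sch

open Real Topology Filter Set
open scoped ContDiff

theorem loc_iter {f g : ℝ → ℝ} {O : Set ℝ} (hO : IsOpen O) (h : ∀ y ∈ O, f y = g y) (k : ℕ) :
    ∀ y ∈ O, deriv^[k] f y = deriv^[k] g y := by
  induction k with
  | zero => exact h
  | succ k ih =>
    intro y hy
    rw [Function.iterate_succ_apply', Function.iterate_succ_apply']
    apply Filter.EventuallyEq.deriv_eq
    filter_upwards [hO.mem_nhds hy] with z hz using ih z hz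

theorem iter_const (a : ℝ) (k : ℕ) : deriv^[k + 1] (fun _ : ℝ => a) = fun _ => 0 := by
  induction k generalizing a with
  | zero => funext y; simp
  | succ k ih =>
    rw [Function.iterate_succ_apply]
    have : deriv (fun _ : ℝ => a) = fun _ => 0 := by funext y; simp
    rw [this, ih]

theorem iter_zero (k : ℕ) : deriv^[k] (fun _ : ℝ => (0 : ℝ)) = fun _ => 0 := by
  cases k with
  | zero => rfl
  | succ k => exact iter_const 0 k

theorem iter_smooth {f : ℝ → ℝ} (hf : ContDiff ℝ ∞ f) (k : ℕ) : ContDiff ℝ ∞ (deriv^[k] f) :=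
  hf.iterate_deriv k

theorem iter_has {f : ℝ → ℝ} (hf : ContDiff ℝ ∞ f) (k : ℕ) (y : ℝ) :
    HasDerivAt (deriv^[k] f) (deriv^[k + 1] f y) y := by
  rw [Function.iterate_succ_apply']
  exact ((iter_smooth hf k).differentiable (by simp) y).hasDerivAt

theorem bdd_of {f : ℝ → ℝ} (hf : Continuous f) (h0 : ∀ y, 4 < y ^ 2 → f y = 0) :
    ∃ M, ∀ y, |f y| ≤ M := by
  obtain ⟨M, hM⟩ := (isCompact_Icc (a := (-2 : ℝ)) (b := 2)).exists_bound_of_continuousOn
    hf.continuousOn
  refine ⟨max M 0, fun y => ?_⟩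
  by_cases hy : 4 < y ^ 2
  · rw [h0 y hy]; simp
  · exact (hM y ⟨by nlinarith, by nlinarith⟩).trans (le_max_left _ _)

structure Prof (S T : ℕ → ℝ → ℝ) (M : ℝ) : Prop where
  sS : ∀ k, ContDiff ℝ ∞ (S k)
  sT : ∀ k, ContDiff ℝ ∞ (T k)
  dS : ∀ k y, HasDerivAt (S k) (S (k + 1) y) y
  dT : ∀ k y, HasDerivAt (T k) (T (k + 1) y) y
  S0 : ∀ y, y ^ 2 < 1 → S 0 y = y
  S1 : ∀ y, y ^ 2 < 1 → S 1 y = 1
  S2 : ∀ y, y ^ 2 < 1 → ∀ k, S (k + 2) y = 0
  Sz : ∀ y, 2 < y ^ 2 → ∀ k, S k y = 0
  T0 : ∀ y, y ^ 2 < 3 → T 0 y = -1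
  T1 : ∀ y, y ^ 2 < 3 → ∀ k, T (k + 1) y = 0
  Tz : ∀ y, 4 < y ^ 2 → ∀ k, T k y = 0
  M1 : 1 ≤ M
  bS : ∀ k, k ≤ 4 → ∀ y, |S k y| ≤ M
  bT : ∀ k, k ≤ 4 → ∀ y, |T k y| ≤ M

theorem exists_prof : ∃ S T M, Prof S T M := by
  set s : ℝ → ℝ := fun y => y * (1 - smoothTransition (y ^ 2 - 1)) with hs
  set t : ℝ → ℝ := fun y => smoothTransition (y ^ 2 - 3) - 1 with ht
  have c2 : ∀ a : ℝ, ContDiff ℝ ∞ fun y : ℝ => smoothTransition (y ^ 2 - a) := fun a =>
    smoothTransition.contDiff.comp ((contDiff_id.pow 2).sub contDiff_const)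
  have cs : ContDiff ℝ ∞ s := contDiff_id.mul (contDiff_const.sub (c2 1))
  have ct : ContDiff ℝ ∞ t := (c2 3).sub contDiff_const
  have o1 : ∀ a : ℝ, IsOpen {y : ℝ | y ^ 2 < a} := fun a =>
    isOpen_lt (continuous_id.pow 2) continuous_const
  have o2 : ∀ a : ℝ, IsOpen {y : ℝ | a < y ^ 2} := fun a =>
    isOpen_lt continuous_const (continuous_id.pow 2)
  have e1 : ∀ k, ∀ y, y ^ 2 < 1 → deriv^[k] s y = deriv^[k] (fun y : ℝ => y) y := fun k =>
    loc_iter (o1 1) (fun y (hy : y ^ 2 < 1) => by
      simp [hs, smoothTransition.zero_of_nonpos (show y ^ 2 - 1 ≤ 0 by linarith)]) k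
  have e2 : ∀ k, ∀ y, 2 < y ^ 2 → deriv^[k] s y = 0 := fun k y hy => by
    rw [loc_iter (g := fun _ => 0) (o2 2) (fun y (hy : 2 < y ^ 2) => by
      simp [hs, smoothTransition.one_of_one_le (show 1 ≤ y ^ 2 - 1 by linarith)]) k y hy, iter_zero]
  have e3 : ∀ k, ∀ y, y ^ 2 < 3 → deriv^[k] t y = deriv^[k] (fun _ : ℝ => (-1 : ℝ)) y := fun k =>
    loc_iter (o1 3) (fun y (hy : y ^ 2 < 3) => by
      simp [ht, smoothTransition.zero_of_nonpos (show y ^ 2 - 3 ≤ 0 by linarith)]) k
  have e4 : ∀ k, ∀ y, 4 < y ^ 2 → deriv^[k] t y = 0 := fun k y hy => by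
    rw [loc_iter (g := fun _ => 0) (o2 4) (fun y (hy : 4 < y ^ 2) => by
      simp [ht, smoothTransition.one_of_one_le (show 1 ≤ y ^ 2 - 3 by linarith)]) k y hy, iter_zero]
  have did : deriv (fun y : ℝ => y) = fun _ => 1 := by funext y; simp
  choose A hA using fun k => bdd_of (iter_smooth cs k).continuous
    (fun y hy => e2 k y (by linarith))
  choose B hB using fun k => bdd_of (iter_smooth ct k).continuous (e4 k)
  have hA0 : ∀ k, 0 ≤ A k := fun k => (abs_nonneg _).trans (hA k 0)
  have hB0 : ∀ k, 0 ≤ B k := fun k => (abs_nonneg _).trans (hB k 0)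
  refine ⟨fun k => deriv^[k] s, fun k => deriv^[k] t,
    1 + ∑ k ∈ Finset.range 5, A k + ∑ k ∈ Finset.range 5, B k,
    iter_smooth cs, iter_smooth ct, iter_has cs, iter_has ct, e1 0, fun y hy => ?_,
    fun y hy k => ?_, fun y hy k => e2 k y hy, e3 0, fun y hy k => ?_, fun y hy k => e4 k y hy,
    ?_, fun k hk y => ?_, fun k hk y => ?_⟩
  · rw [e1 1 y hy]; simp
  · rw [e1 _ y hy, Function.iterate_succ_apply, did, iter_const]
  · rw [e3 _ y hy, iter_const]
  · have := Finset.sum_nonneg (s := Finset.range 5) fun k _ => hA0 k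
    have := Finset.sum_nonneg (s := Finset.range 5) fun k _ => hB0 k
    linarith
  · have := Finset.single_le_sum (s := Finset.range 5) (fun k _ => hA0 k)
      (Finset.mem_range.2 (show k < 5 by omega))
    have := Finset.sum_nonneg (s := Finset.range 5) fun k _ => hB0 k
    have := hA k y
    linarith
  · have := Finset.single_le_sum (s := Finset.range 5) (fun k _ => hB0 k)
      (Finset.mem_range.2 (show k < 5 by omega))
    have := Finset.sum_nonneg (s := Finset.range 5) fun k _ => hA0 k
    have := hB k y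
    linarith

structure Amp (c : ℝ) (β g g' : ℝ → ℝ) : Prop where
  sβ : ContDiff ℝ ∞ β
  sg : ContDiff ℝ ∞ g
  sg' : ContDiff ℝ ∞ g'
  dβ : ∀ y, HasDerivAt β (- g y) y
  dg : ∀ y, HasDerivAt g (g' y) y
  core : ∀ y, y ^ 2 < 9 → g y = c * y ∧ g' y = c
  out : ∀ y, 4 < y ^ 2 → 1 + g' y ≤ g y ^ 2
  far : ∀ y, 16 < y ^ 2 → 1 + g' y = g y ^ 2
  dec : ∃ C, ∀ y, β y ≤ C - |y|

theorem exists_amp {c : ℝ} (hc : 2 ≤ c) : ∃ β g g', Amp c β g g' := by
  set h := smoothTransition with hh
  have ch : ContDiff ℝ ∞ h := smoothTransition.contDiff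
  set g : ℝ → ℝ := fun y => c * y * (1 - h (y - 3) - h (-y - 3)) + h (y - 3) - h (-y - 3) with hg
  have c1 : ContDiff ℝ ∞ fun y : ℝ => h (y - 3) := ch.comp (contDiff_id.sub contDiff_const)
  have c2 : ContDiff ℝ ∞ fun y : ℝ => h (-y - 3) := ch.comp (contDiff_id.neg.sub contDiff_const)
  have cg : ContDiff ℝ ∞ g :=
    (((contDiff_const.mul contDiff_id).mul ((contDiff_const.sub c1).sub c2)).add c1).sub c2
  have dh : ∀ z, HasDerivAt h (deriv h z) z := fun z => (ch.differentiable (by simp) z).hasDerivAt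
  have dpos : ∀ z, 0 ≤ deriv h z := fun z => smoothTransition.monotone.deriv_nonneg
  have dneg : ∀ z, z < 0 → deriv h z = 0 := fun z hz => by
    have : h =ᶠ[𝓝 z] fun _ => 0 := by
      filter_upwards [Iio_mem_nhds hz] with w hw using smoothTransition.zero_of_nonpos (le_of_lt hw)
    rw [this.deriv_eq]; simp
  have done : ∀ z, 1 < z → deriv h z = 0 := fun z hz => by
    have : h =ᶠ[𝓝 z] fun _ => 1 := by
      filter_upwards [Ioi_mem_nhds hz] with w hw using smoothTransition.one_of_one_le (le_of_lt hw)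
    rw [this.deriv_eq]; simp
  have hz : ∀ z, z ≤ 0 → h z = 0 := fun z hz => smoothTransition.zero_of_nonpos hz
  have ho : ∀ z, 1 ≤ z → h z = 1 := fun z hz => smoothTransition.one_of_one_le hz
  have h0 : ∀ z, 0 ≤ h z := smoothTransition.nonneg
  have h1 : ∀ z, h z ≤ 1 := smoothTransition.le_one
  have dg : ∀ y, HasDerivAt g (c * (1 - h (y - 3) - h (-y - 3))
      + c * y * (- deriv h (y - 3) + deriv h (-y - 3)) + deriv h (y - 3) + deriv h (-y - 3)) y := by
    intro y
    have a1 : HasDerivAt (fun y : ℝ => h (y - 3)) (deriv h (y - 3) * 1) y :=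
      (dh _).comp y ((hasDerivAt_id y).sub_const 3)
    have a2 : HasDerivAt (fun y : ℝ => h (-y - 3)) (deriv h (-y - 3) * (-1)) y :=
      (dh _).comp y ((hasDerivAt_id y).neg.sub_const 3)
    have a3 : HasDerivAt (fun y : ℝ => c * y) (c * 1) y := (hasDerivAt_id y).const_mul c
    exact (((a3.mul ((a1.const_sub 1).sub a2)).add a1).sub a2).congr_deriv (by simp)
  have dβ : ∀ y, HasDerivAt (fun y => - ∫ s in (0 : ℝ)..y, g s) (- g y) y := fun y =>
    (cg.continuous.integral_hasStrictDerivAt 0 y).hasDerivAt.neg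
  set β : ℝ → ℝ := fun y => - ∫ s in (0 : ℝ)..y, g s with hβ
  have eβ : deriv β = fun y => - g y := funext fun y => (dβ y).deriv
  have cβ : ContDiff ℝ ∞ β := contDiff_infty_iff_deriv.2
    ⟨fun y => (dβ y).differentiableAt, by rw [eβ]; exact cg.neg⟩
  have gp : ∀ y, 4 ≤ y → g y = 1 := fun y hy => by
    simp only [hg, ho (y - 3) (by linarith), hz (-y - 3) (by linarith)]; ring
  have gn : ∀ y, y ≤ -4 → g y = -1 := fun y hy => by
    simp only [hg, ho (-y - 3) (by linarith), hz (y - 3) (by linarith)]; ring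
  refine ⟨β, g, deriv g, cβ, cg, (contDiff_infty_iff_deriv.1 cg).2, dβ,
    fun y => (dg y).differentiableAt.hasDerivAt, fun y hy => ?_, fun y hy => ?_, fun y hy => ?_, ?_⟩
  · have y1 : y < 3 := by nlinarith
    have y2 : -3 < y := by nlinarith
    rw [(dg y).deriv]
    simp only [hg, hz (y - 3) (by linarith), hz (-y - 3) (by linarith), dneg (y - 3) (by linarith),
      dneg (-y - 3) (by linarith)]
    constructor <;> ring
  · rw [(dg y).deriv]
    rcases le_total 0 y with hy0 | hy0
    · have y1 : 2 < y := by nlinarith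
      simp only [hg, hz (-y - 3) (by linarith), dneg (-y - 3) (by linarith)]
      have a := h0 (y - 3)
      have b := h1 (y - 3)
      have d := dpos (y - 3)
      generalize h (y - 3) = H at *
      generalize deriv h (y - 3) = D at *
      have k1 : 4 ≤ c * y := by nlinarith
      have k2 : 2 * c ≤ c * y := by nlinarith
      have k3 : 0 ≤ (c * y - 1) * D := mul_nonneg (by linarith) d
      have k4 : 0 ≤ (c * y - 1) * (1 - H) := mul_nonneg (by linarith) (by linarith)
      have k5 : 0 ≤ (2 * (c * y - 1) - c) * (1 - H) := mul_nonneg (by linarith) (by linarith)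
      nlinarith [sq_nonneg ((c * y - 1) * (1 - H))]
    · have y1 : y < -2 := by nlinarith
      simp only [hg, hz (y - 3) (by linarith), dneg (y - 3) (by linarith)]
      have a := h0 (-y - 3)
      have b := h1 (-y - 3)
      have d := dpos (-y - 3)
      generalize h (-y - 3) = H at *
      generalize deriv h (-y - 3) = D at *
      have k1 : 4 ≤ -(c * y) := by nlinarith
      have k2 : 2 * c ≤ -(c * y) := by nlinarith
      have k3 : 0 ≤ (-(c * y) - 1) * D := mul_nonneg (by linarith) d
      have k4 : 0 ≤ (-(c * y) - 1) * (1 - H) := mul_nonneg (by linarith) (by linarith)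
      have k5 : 0 ≤ (2 * (-(c * y) - 1) - c) * (1 - H) := mul_nonneg (by linarith) (by linarith)
      nlinarith [sq_nonneg ((-(c * y) - 1) * (1 - H))]
  · rw [(dg y).deriv]
    rcases le_total 0 y with hy0 | hy0
    · have y1 : 4 < y := by nlinarith
      simp only [hg, hz (-y - 3) (by linarith), dneg (-y - 3) (by linarith),
        ho (y - 3) (by linarith), done (y - 3) (by linarith)]
      ring
    · have y1 : y < -4 := by nlinarith
      simp only [hg, hz (y - 3) (by linarith), dneg (y - 3) (by linarith),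
        ho (-y - 3) (by linarith), done (-y - 3) (by linarith)]
      ring
  · obtain ⟨C, hC⟩ := (isCompact_Icc (a := (-4 : ℝ)) (b := 4)).exists_bound_of_continuousOn
      cβ.continuous.continuousOn
    have hb : ∀ y, -4 ≤ y → y ≤ 4 → β y ≤ C := fun y a b => (le_abs_self _).trans (hC y ⟨a, b⟩)
    refine ⟨C + 4, fun y => ?_⟩
    have d1 : ∀ y, HasDerivAt (fun y => β y + y) (- g y + 1) y := fun y =>
      (dβ y).add (hasDerivAt_id y)
    have d2 : ∀ y, HasDerivAt (fun y => β y - y) (- g y - 1) y := fun y =>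
      (dβ y).sub (hasDerivAt_id y)
    rcases le_total 4 y with h4 | h4
    · have : AntitoneOn (fun y => β y + y) (Ici 4) :=
        antitoneOn_of_deriv_nonpos (convex_Ici 4)
          (fun y _ => (d1 y).continuousAt.continuousWithinAt)
          (fun y _ => (d1 y).differentiableAt.differentiableWithinAt) fun y hy => by
            rw [interior_Ici] at hy
            rw [(d1 y).deriv, gp y (le_of_lt hy)]; norm_num
      have := this (show (4 : ℝ) ∈ Ici 4 from le_refl (4 : ℝ)) h4 h4
      have := hb 4 (by norm_num) le_rfl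
      rw [abs_of_nonneg (by linarith)]
      simp only at *
      linarith
    · rcases le_total y (-4) with h5 | h5
      · have : MonotoneOn (fun y => β y - y) (Iic (-4)) :=
          monotoneOn_of_deriv_nonneg (convex_Iic (-4))
            (fun y _ => (d2 y).continuousAt.continuousWithinAt)
            (fun y _ => (d2 y).differentiableAt.differentiableWithinAt) fun y hy => by
              rw [interior_Iic] at hy
              rw [(d2 y).deriv, gn y (le_of_lt hy)]; norm_num
        have := this h5 (show (-4 : ℝ) ∈ Iic (-4) from le_refl (-4 : ℝ)) h5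
        have := hb (-4) le_rfl (by norm_num)
        rw [abs_of_nonpos (by linarith)]
        simp only at *
        linarith
      · have := hb y h5 h4
        have : |y| ≤ 4 := abs_le.2 ⟨h5, h4⟩
        linarith

theorem not_int_right {h : ℝ → ℝ} {a : ℝ} (h1 : ∀ x, a ≤ x → 1 ≤ h x) :
    ¬ MeasureTheory.Integrable h := fun hi => by
  have : MeasureTheory.IntegrableOn (fun _ : ℝ => (1 : ℝ)) (Ici a) := by
    refine MeasureTheory.Integrable.mono' hi.integrableOn MeasureTheory.aestronglyMeasurable_const ?_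
    refine (MeasureTheory.ae_restrict_iff' measurableSet_Ici).2 (Eventually.of_forall fun x hx => ?_)
    simpa using h1 x hx
  simp at this

theorem mono_of {F F' : ℝ → ℝ} {a : ℝ} (d : ∀ x, HasDerivAt F (F' x) x)
    (h : ∀ x, a < x → 0 ≤ F' x) {x : ℝ} (hx : a ≤ x) : F a ≤ F x :=
  monotoneOn_of_deriv_nonneg (convex_Ici a) (fun y _ => (d y).continuousAt.continuousWithinAt)
    (fun y _ => (d y).differentiableAt.differentiableWithinAt) (fun y hy => by
      rw [interior_Ici] at hy
      rw [(d y).deriv]; exact h y hy) (le_refl a) hx hx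

theorem slope_le {h h' : ℝ → ℝ} (d : ∀ x, HasDerivAt h (h' x) x) (h0 : ∀ x, 0 ≤ h x)
    (hm : Monotone h') (hi : MeasureTheory.Integrable h) (a : ℝ) : h' a ≤ 0 := by
  by_contra hc
  push Not at hc
  refine not_int_right (a := a + 1 / h' a) (fun x hx => ?_) hi
  have hp : 0 < 1 / h' a := by positivity
  have := mono_of (F := fun x => h x - h' a * x) (F' := fun x => h' x - h' a * 1) (a := a)
    (fun x => (d x).sub ((hasDerivAt_id x).const_mul _))
    (fun x hx => by have := hm hx.le; linarith) (show a ≤ x by linarith)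
  have e : h' a * (1 / h' a) = 1 := by field_simp
  have := h0 a
  nlinarith

theorem no_eig_real {W : ℝ → ℝ} (h0 : ∀ x, 0 ≤ W x) (hs : ∀ x, 4 < x → W x = 0)
    {K : ℝ} (hK : ∀ x, W x ≤ K) (E : ℝ) (f f1 : ℝ → ℝ) (d1 : ∀ x, HasDerivAt f (f1 x) x)
    (d2 : ∀ x, HasDerivAt f1 ((W x - E) * f x) x)
    (hi : MeasureTheory.Integrable fun x => f x ^ 2) (x : ℝ) : f x = 0 := by
  have dh : ∀ x, HasDerivAt (fun x => f x ^ 2) (2 * (f x * f1 x)) x := fun x =>
    ((d1 x).pow 2).congr_deriv (by simp; ring)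
  have dk : ∀ x, HasDerivAt (fun x => f x * f1 x) (f1 x ^ 2 + (W x - E) * f x ^ 2) x := fun x =>
    ((d1 x).mul (d2 x)).congr_deriv (by ring)
  rcases le_or_gt E 0 with hE | hE
  · have hm : Monotone fun x => 2 * (f x * f1 x) :=
      monotone_of_hasDerivAt_nonneg (fun x => (dk x).const_mul 2) fun x => by
        have : 0 ≤ W x - E := by linarith [h0 x]
        simp only [Pi.zero_apply]
        positivity
    have a1 := slope_le dh (fun x => sq_nonneg _) hm hi
    have a2 := slope_le (h := fun x => f (-x) ^ 2) (h' := fun x => - (2 * (f (-x) * f1 (-x))))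
      (fun x => ((dh (-x)).comp x (hasDerivAt_neg x)).congr_deriv (by simp))
      (fun x => sq_nonneg _) (fun x y hxy => neg_le_neg (hm (neg_le_neg hxy))) hi.comp_neg
    have z : ∀ x, 2 * (f x * f1 x) = 0 := fun x => by
      have := a1 x
      have := a2 (-x)
      simp only [neg_neg] at *
      linarith
    have hc : ∀ y, f y ^ 2 = f x ^ 2 := fun y =>
      is_const_of_deriv_eq_zero (f := fun x => f x ^ 2) (fun x => (dh x).differentiableAt)
        (fun x => by rw [(dh x).deriv, z]) y x
    simp only [hc] at hi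
    have := (MeasureTheory.integrable_const_iff (c := f x ^ 2)).1 hi
    rcases this with h | h
    · exact pow_eq_zero_iff two_ne_zero |>.1 h
    · have := h.measure_univ_lt_top
      simp at this
  · have de : ∀ x, HasDerivAt (fun x => f1 x ^ 2 + E * f x ^ 2) (2 * W x * (f x * f1 x)) x :=
      fun x => (((d2 x).pow 2).add ((dh x).const_mul E)).congr_deriv (by simp; ring)
    have ec : ∀ x, 5 ≤ x → f1 x ^ 2 + E * f x ^ 2 = f1 5 ^ 2 + E * f 5 ^ 2 := fun x hx => by
      have b1 := mono_of de (a := 5) (fun x hx => by rw [hs x (by linarith)]; simp) hx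
      have b2 := mono_of (fun x => (de x).neg) (a := 5)
        (fun x hx => by rw [hs x (by linarith)]; simp) hx
      simp only [Pi.neg_apply] at b2
      linarith
    set e := f1 5 ^ 2 + E * f 5 ^ 2 with he
    have cf : Continuous fun x => f x ^ 2 :=
      continuous_iff_continuousAt.2 fun x => (dh x).continuousAt
    have bound : ∀ x, 5 ≤ x → e * (x - 5) ≤
        2 * E * (∫ s, f s ^ 2) + (e + e / E) - f 5 * f1 5 := fun x hx => by
      have b1 := mono_of (F := fun x => f x * f1 x + 2 * E * (∫ s in (5 : ℝ)..x, f s ^ 2) - e * x)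
        (a := 5) (fun x => ((dk x).add
          ((cf.integral_hasStrictDerivAt 5 x).hasDerivAt.const_mul (2 * E))).sub
            ((hasDerivAt_id x).const_mul e))
        (fun x hx => by
          have := ec x hx.le
          rw [hs x (by linarith)]; nlinarith) hx
      have b2 : ∫ s in (5 : ℝ)..x, f s ^ 2 ≤ ∫ s, f s ^ 2 := by
        rw [intervalIntegral.integral_of_le hx]
        exact MeasureTheory.setIntegral_le_integral hi (Eventually.of_forall fun _ => sq_nonneg _)
      have b3 := ec x hx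
      have b4 : f x ^ 2 ≤ e / E := by
        rw [le_div_iff₀ hE]; nlinarith [sq_nonneg (f1 x)]
      have b5 : f1 x ^ 2 ≤ e := by nlinarith [sq_nonneg (f x)]
      simp only [intervalIntegral.integral_same] at b1
      nlinarith [sq_nonneg (f x - f1 x), mul_le_mul_of_nonneg_left b2 (show 0 ≤ 2 * E by linarith),
        sq_nonneg (f x), sq_nonneg (f1 x)]
    have e0 : e ≤ 0 := by
      by_contra hc
      push Not at hc
      set B := 2 * E * (∫ s, f s ^ 2) + (e + e / E) - f 5 * f1 5
      have := bound (5 + (|B| + 1) / e) (by have : 0 ≤ (|B| + 1) / e := by positivity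
                                            linarith)
      have e2 : e * (5 + (|B| + 1) / e - 5) = |B| + 1 := by field_simp; ring
      have := le_abs_self B
      linarith
    have f5 : f 5 ^ 2 + f1 5 ^ 2 = 0 := by
      have : f 5 ^ 2 ≤ 0 := by
        by_contra hc
        push Not at hc
        nlinarith [sq_nonneg (f1 5), mul_pos hE hc]
      nlinarith [sq_nonneg (f1 5), sq_nonneg (f 5)]
    set L := 1 + K + E with hL
    have dn : ∀ x, HasDerivAt (fun x => f x ^ 2 + f1 x ^ 2) (2 * (1 + W x - E) * (f x * f1 x)) x :=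
      fun x => ((dh x).add ((d2 x).pow 2)).congr_deriv (by simp; ring)
    have bn : ∀ x, |2 * (1 + W x - E) * (f x * f1 x)| ≤ L * (f x ^ 2 + f1 x ^ 2) := fun x => by
      have a : |1 + W x - E| ≤ L := abs_le.2 ⟨by linarith [h0 x, hK x], by linarith [hK x]⟩
      have b : |2 * (f x * f1 x)| ≤ f x ^ 2 + f1 x ^ 2 :=
        abs_le.2 ⟨by nlinarith [sq_nonneg (f x + f1 x)], by nlinarith [sq_nonneg (f x - f1 x)]⟩
      calc _ = |1 + W x - E| * |2 * (f x * f1 x)| := by rw [← abs_mul]; congr 1; ring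
        _ ≤ _ := mul_le_mul a b (abs_nonneg _) ((abs_nonneg _).trans a)
    have dx : ∀ (l x : ℝ), HasDerivAt (fun x => (f x ^ 2 + f1 x ^ 2) * exp (l * x))
        ((2 * (1 + W x - E) * (f x * f1 x) + l * (f x ^ 2 + f1 x ^ 2)) * exp (l * x)) x :=
      fun l x => ((dn x).mul ((hasDerivAt_id x).const_mul l).exp).congr_deriv (by simp; ring)
    have fin : ∀ l : ℝ, (f x ^ 2 + f1 x ^ 2) * exp (l * x) ≤ 0 → f x = 0 := fun l h => by
      have := exp_pos (l * x)
      have : f x ^ 2 + f1 x ^ 2 ≤ 0 := by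
        by_contra hc
        push Not at hc
        nlinarith [mul_pos hc this]
      nlinarith [sq_nonneg (f x), sq_nonneg (f1 x)]
    rcases le_total x 5 with hx | hx
    · have := monotone_of_hasDerivAt_nonneg (dx L) (fun x => by
        have := (abs_le.1 (bn x)).1
        exact mul_nonneg (by linarith) (exp_pos _).le) hx
      simp only [f5, zero_mul] at this
      exact fin L this
    · have := antitone_of_hasDerivAt_nonpos (dx (-L)) (fun x => by
        have := (abs_le.1 (bn x)).2
        exact mul_nonpos_of_nonpos_of_nonneg (by linarith) (exp_pos _).le) hx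
      simp only [f5, zero_mul] at this
      exact fin (-L) this

/-- no square integrable eigenfunction for a nonnegative compactly supported potential -/
theorem no_eig {W : ℝ → ℝ} (h0 : ∀ x, 0 ≤ W x) (hs : ∀ x, 4 < x → W x = 0)
    {K : ℝ} (hK : ∀ x, W x ≤ K) (E : ℝ) (f : ℝ → ℂ) (d1 : Differentiable ℝ f)
    (d2 : Differentiable ℝ (deriv f))
    (he : ∀ x, - deriv (deriv f) x + W x * f x = E * f x)
    (hi : MeasureTheory.Integrable fun x => ‖f x‖ ^ 2) : f = 0 := by
  have key : ∀ L : ℂ →L[ℝ] ℝ, (∀ z, |L z| ≤ ‖z‖) → ∀ x, L (f x) = 0 := fun L hL x => by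
    refine no_eig_real h0 hs hK E (fun x => L (f x)) (fun x => L (deriv f x))
      (fun x => L.hasFDerivAt.comp_hasDerivAt x (d1 x).hasDerivAt)
      (fun x => (L.hasFDerivAt.comp_hasDerivAt x (d2 x).hasDerivAt).congr_deriv ?_) ?_ x
    · have : deriv (deriv f) x = (W x - E) • f x := by
        rw [Complex.real_smul]; push_cast; linear_combination - he x
      rw [this, map_smul, smul_eq_mul]
    · refine hi.mono' ((L.continuous.comp d1.continuous).pow 2).aestronglyMeasurable
        (Eventually.of_forall fun x => ?_)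
      rw [norm_pow, Real.norm_eq_abs]
      exact pow_le_pow_left₀ (abs_nonneg _) (hL _) 2
  funext x
  exact Complex.ext (key Complex.reCLM Complex.abs_re_le_norm x)
    (key Complex.imCLM Complex.abs_im_le_norm x)

end Pool.Agent.H19.Sch
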