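import Mathlib
import Pool.Agent.H19.Sch1

set_option autoImplicit false
set_option linter.unusedSectionVars false

namespace Pool.Agent.H19.Sch

open Real Topology Filter Set
open scoped ContDiff

theorem exists_inverse {X J u : ℝ × ℝ → ℝ} (hX : ContDiff ℝ ∞ X)
    (hd : ∀ z, HasFDerivAt X (J z • ContinuousLinearMap.fst ℝ ℝ ℝ
      + u z • ContinuousLinearMap.snd ℝ ℝ ℝ) z)
    (hJ : ∀ z, 0 < J z) (hb : ∀ z, |X z - z.1| ≤ 1) :
    ∃ Y : ℝ × ℝ → ℝ, ContDiff ℝ ∞ Y ∧ (∀ z, X (Y z, z.2) = z.1) ∧ (∀ z, Y (X z, z.2) = z.1) ∧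
      (∀ x t, HasDerivAt (fun x => Y (x, t)) (1 / J (Y (x, t), t)) x) ∧
      (∀ x t, HasDerivAt (fun t => Y (x, t)) (- u (Y (x, t), t) / J (Y (x, t), t)) t) := by
  have curve : ∀ (y τ : ℝ → ℝ) (a b s : ℝ), HasDerivAt y a s → HasDerivAt τ b s →
      HasDerivAt (fun s => X (y s, τ s)) (J (y s, τ s) * a + u (y s, τ s) * b) s :=
    fun y τ a b s h1 h2 => ((hd _).comp_hasDerivAt s (h1.prodMk h2)).congr_deriv (by simp)
  have dy : ∀ t y, HasDerivAt (fun y => X (y, t)) (J (y, t)) y := fun t y =>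
    (curve (fun y => y) (fun _ => t) 1 0 y (hasDerivAt_id y) (hasDerivAt_const y t)).congr_deriv
      (by simp)
  have mono : ∀ t, StrictMono fun y => X (y, t) := fun t =>
    strictMono_of_hasDerivAt_pos (dy t) fun y => hJ _
  have surj : ∀ t, Function.Surjective fun y => X (y, t) := fun t => by
    refine Continuous.surjective (continuous_iff_continuousAt.2 fun y => (dy t y).continuousAt) ?_ ?_
    · refine tendsto_atTop_mono (f := fun y => y + (-1)) (fun y => ?_)
        (tendsto_atTop_add_const_right _ _ tendsto_id)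
      have := (abs_le.1 (hb (y, t))).1
      simp only at *
      linarith
    · refine tendsto_atBot_mono (f := fun y => y + 1) (fun y => ?_)
        (tendsto_atBot_add_const_right _ _ tendsto_id)
      have := (abs_le.1 (hb (y, t))).2
      simp only at *
      linarith
  set F : ℝ × ℝ → ℝ × ℝ := fun z => (X z, z.2) with hF
  have bij : Function.Bijective F := by
    constructor
    · rintro ⟨a, t⟩ ⟨b, s⟩ h
      simp only [hF, Prod.mk.injEq] at h
      obtain ⟨h1, rfl⟩ := h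
      rw [(mono t).injective h1]
    · rintro ⟨x, t⟩
      obtain ⟨y, hy⟩ := surj t x
      exact ⟨(y, t), Prod.ext hy rfl⟩
  have cF : ContDiff ℝ ∞ F := hX.prodMk contDiff_snd
  let e : ℝ × ℝ → (ℝ × ℝ) ≃L[ℝ] (ℝ × ℝ) := fun z => ContinuousLinearEquiv.equivOfInverse
    ((J z • ContinuousLinearMap.fst ℝ ℝ ℝ + u z • ContinuousLinearMap.snd ℝ ℝ ℝ).prod
      (ContinuousLinearMap.snd ℝ ℝ ℝ))
    (((J z)⁻¹ • (ContinuousLinearMap.fst ℝ ℝ ℝ - u z • ContinuousLinearMap.snd ℝ ℝ ℝ)).prod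
      (ContinuousLinearMap.snd ℝ ℝ ℝ))
    (fun v => by
      have := (hJ z).ne'
      ext
      · simp; field_simp
      · simp)
    (fun v => by
      have := (hJ z).ne'
      ext
      · simp; field_simp; ring
      · simp)
  have dF : ∀ z, HasFDerivAt F (e z : (ℝ × ℝ) →L[ℝ] (ℝ × ℝ)) z := fun z =>
    (hd z).prodMk hasFDerivAt_snd
  have op : IsOpenMap F := isOpenMap_of_hasStrictFDerivAt_equiv (f' := e) fun z =>
    cF.contDiffAt.hasStrictFDerivAt' (dF z) (by simp)
  let H : (ℝ × ℝ) ≃ₜ (ℝ × ℝ) :=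
    (Equiv.ofBijective F bij).toHomeomorphOfContinuousOpen cF.continuous op
  have cH : ContDiff ℝ ∞ (H.symm : ℝ × ℝ → ℝ × ℝ) := H.contDiff_symm dF cF
  have h2 : ∀ z, (H.symm z).2 = z.2 := fun z =>
    (congrArg Prod.snd (H.apply_symm_apply z) : (H (H.symm z)).2 = z.2)
  have h1 : ∀ z, X ((H.symm z).1, z.2) = z.1 := fun z => by
    rw [← h2 z]; exact congrArg Prod.fst (H.apply_symm_apply z)
  have cY : ContDiff ℝ ∞ fun z => (H.symm z).1 := cH.fst
  refine ⟨fun z => (H.symm z).1, cY, h1, fun z => congrArg Prod.fst (H.symm_apply_apply z),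
    fun x t => ?_, fun x t => ?_⟩
  · have a : DifferentiableAt ℝ (fun x => (H.symm (x, t)).1) x :=
      (cY.comp (contDiff_id.prodMk contDiff_const)).differentiable (by simp) x
    have b := curve _ (fun _ => t) _ 0 x a.hasDerivAt (hasDerivAt_const x t)
    simp only [h1 (_, t)] at b
    have := b.unique (hasDerivAt_id x)
    refine a.hasDerivAt.congr_deriv ?_
    rw [eq_div_iff (hJ _).ne']; linarith
  · have a : DifferentiableAt ℝ (fun t => (H.symm (x, t)).1) t :=
      (cY.comp (contDiff_const.prodMk contDiff_id)).differentiable (by simp) t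
    have b := curve _ (fun t => t) _ 1 t a.hasDerivAt (hasDerivAt_id t)
    simp only [h1 (x, _)] at b
    have := b.unique (hasDerivAt_const t x)
    refine a.hasDerivAt.congr_deriv ?_
    rw [eq_div_iff (hJ _).ne']; linarith

theorem bdd_derivs {V : ℝ × ℝ → ℝ} (hV : ContDiff ℝ ∞ V) {P : ℝ} (hP : 0 < P)
    (per : ∀ z, V (z + (0, P)) = V z) (h0 : ∀ z : ℝ × ℝ, 16 < z.1 ^ 2 → V z = 0) (k : ℕ) :
    ∃ C, ∀ z, ‖iteratedFDeriv ℝ k V z‖ ≤ C := by
  have cF : Continuous (iteratedFDeriv ℝ k V) := hV.continuous_iteratedFDeriv (by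
    exact_mod_cast le_top)
  obtain ⟨C, hC⟩ := ((isCompact_Icc (a := (-4 : ℝ)) (b := 4)).prod
    (isCompact_Icc (a := (0 : ℝ)) (b := P))).exists_bound_of_continuousOn cF.continuousOn
  refine ⟨max C 0, fun z => ?_⟩
  by_cases hz : 16 < z.1 ^ 2
  · have : V =ᶠ[𝓝 z] fun _ => 0 := by
      filter_upwards [(isOpen_lt continuous_const (continuous_fst.pow 2)).mem_nhds hz] with w hw
        using h0 w hw
    rw [(this.iteratedFDeriv ℝ k).eq_of_nhds]
    simp
  · have p2 : Function.Periodic (fun t => iteratedFDeriv ℝ k V (z.1, t)) P := fun t => by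
      have e : V = fun z => V (z + (0, P)) := funext fun z => (per z).symm
      have := iteratedFDeriv_comp_add_right (𝕜 := ℝ) (f := V) k (0, P) (z.1, t)
      rw [← e] at this
      simpa using this.symm
    obtain ⟨s, hs, e⟩ := p2.exists_mem_Ico₀ hP z.2
    have := hC (z.1, s) ⟨⟨by nlinarith, by nlinarith⟩, hs.1, hs.2.le⟩
    rw [← e] at this
    exact this.trans (le_max_left _ _)

end Pool.Agent.H19.Sch
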