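import Mathlib
import Pool.Agent.H19.Sch2

set_option autoImplicit false
set_option linter.unusedSectionVars false

namespace Pool.Agent.H19.Sch

open Real Topology Filter Set
open scoped ContDiff

structure Tm (M ν : ℝ) (q p : ℕ → ℝ → ℝ) : Prop where
  sq : ∀ k, ContDiff ℝ ∞ (q k)
  sp : ∀ k, ContDiff ℝ ∞ (p k)
  dq0 : ∀ t, HasDerivAt (q 0) (q 1 t) t
  dq1 : ∀ t, HasDerivAt (q 1) (q 2 t) t
  dp0 : ∀ t, HasDerivAt (p 0) (p 1 t) t
  dp1 : ∀ t, HasDerivAt (p 1) (p 2 t) t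
  bq : ∀ k t, |q k t| * M ≤ ν ^ k / 4
  bp : ∀ k t, |p k t| * M ≤ ν ^ k / 4
  core : ∀ t, p 2 t / 2 - q 0 t * q 2 t / 4 = ν ^ 2 / (128 * M ^ 2)
  perq : ∀ k t, q k (t + 2 * π / ν) = q k t
  perp : ∀ k t, p k (t + 2 * π / ν) = p k t

theorem exists_tm {M ν : ℝ} (hM : 1 ≤ M) (hν : 0 < ν) : ∃ q p, Tm M ν q p := by
  have hM0 : 0 < M := by linarith
  let q : ℕ → ℝ → ℝ := fun k t => match k with
    | 0 => 1 / (4 * M) * cos (ν * t)
    | 1 => - (ν / (4 * M)) * sin (ν * t)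
    | 2 => - (ν ^ 2 / (4 * M)) * cos (ν * t)
    | _ + 3 => 0
  let p : ℕ → ℝ → ℝ := fun k t => match k with
    | 0 => 1 / (256 * M ^ 2) * cos (2 * (ν * t))
    | 1 => - (ν / (128 * M ^ 2)) * sin (2 * (ν * t))
    | 2 => - (ν ^ 2 / (64 * M ^ 2)) * cos (2 * (ν * t))
    | _ + 3 => 0
  have l1 : ∀ t, HasDerivAt (fun t => ν * t) (ν * 1) t := fun t => (hasDerivAt_id t).const_mul ν
  have l2 : ∀ t, HasDerivAt (fun t => 2 * (ν * t)) (2 * (ν * 1)) t := fun t => (l1 t).const_mul 2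
  have key : ∀ a s B : ℝ, |s| ≤ 1 → |a| * M ≤ B → |a * s| * M ≤ B := fun a s B h1 h2 => by
    rw [abs_mul]
    have : |a| * |s| ≤ |a| := mul_le_of_le_one_right (abs_nonneg _) h1
    nlinarith
  have e1 : ∀ t, ν * (t + 2 * π / ν) = ν * t + 2 * π := fun t => by field_simp
  have e2 : ∀ t, 2 * (ν * t + 2 * π) = 2 * (ν * t) + 2 * π + 2 * π := fun t => by ring
  refine ⟨q, p, fun k => ?_, fun k => ?_, fun t => ?_, fun t => ?_, fun t => ?_, fun t => ?_,
    fun k t => ?_, fun k t => ?_, fun t => ?_, fun k t => ?_, fun k t => ?_⟩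
  · rcases k with _ | _ | _ | k <;> simp only [q] <;> fun_prop
  · rcases k with _ | _ | _ | k <;> simp only [p] <;> fun_prop
  · exact ((l1 t).cos.const_mul _).congr_deriv (by simp only [q]; ring)
  · exact ((l1 t).sin.const_mul _).congr_deriv (by simp only [q]; ring)
  · exact ((l2 t).cos.const_mul _).congr_deriv (by simp only [p]; ring)
  · exact ((l2 t).sin.const_mul _).congr_deriv (by simp only [p]; ring)
  · rcases k with _ | _ | _ | k
    · refine key _ _ _ (abs_cos_le_one _) ?_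
      rw [abs_of_pos (by positivity)]; apply le_of_eq; field_simp
    · refine key _ _ _ (abs_sin_le_one _) ?_
      rw [abs_neg, abs_of_pos (by positivity)]; apply le_of_eq; field_simp; simp
    · refine key _ _ _ (abs_cos_le_one _) ?_
      rw [abs_neg, abs_of_pos (by positivity)]; apply le_of_eq; field_simp
    · simp only [q, abs_zero, zero_mul]; positivity
  · rcases k with _ | _ | _ | k
    · refine key _ _ _ (abs_cos_le_one _) ?_
      rw [abs_of_pos (by positivity), div_mul_eq_mul_div, div_le_div_iff₀ (by positivity) (by positivity)]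
      nlinarith
    · refine key _ _ _ (abs_sin_le_one _) ?_
      rw [abs_neg, abs_of_pos (by positivity), div_mul_eq_mul_div,
        div_le_div_iff₀ (by positivity) (by positivity)]
      have : 0 ≤ ν * (M * (M - 1)) := by
        have : 0 ≤ M - 1 := by linarith
        positivity
      have : 0 ≤ ν * M ^ 2 := by positivity
      simp only [zero_add, pow_one]
      nlinarith
    · refine key _ _ _ (abs_cos_le_one _) ?_
      rw [abs_neg, abs_of_pos (by positivity), div_mul_eq_mul_div,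
        div_le_div_iff₀ (by positivity) (by positivity)]
      have : 0 ≤ ν ^ 2 * (M * (M - 1)) := by
        have : 0 ≤ M - 1 := by linarith
        positivity
      have : 0 ≤ ν ^ 2 * M ^ 2 := by positivity
      simp only [zero_add, Nat.reduceAdd]
      nlinarith
    · simp only [p, abs_zero, zero_mul]; positivity
  · simp only [q, p, cos_two_mul]; field_simp; ring
  · rcases k with _ | _ | _ | k <;> simp only [q, e1, cos_add_two_pi, sin_add_two_pi]
  · rcases k with _ | _ | _ | k <;> simp only [p, e1, e2, cos_add_two_pi, sin_add_two_pi]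

section
variable (S T q p : ℕ → ℝ → ℝ) (β g g' : ℝ → ℝ)

/-- displacement and its space derivatives -/
noncomputable def A (j k : ℕ) (z : ℝ × ℝ) : ℝ := q j z.2 * S k z.1 + p j z.2 * T k z.1

noncomputable def J (z : ℝ × ℝ) : ℝ := 1 + A S T q p 0 2 z

noncomputable def Ph (z : ℝ × ℝ) : ℝ := (A S T q p 1 0 z
  + q 0 z.2 * q 1 z.2 * S 1 z.1 ^ 2 / 2 + p 0 z.2 * p 1 z.2 * T 1 z.1 ^ 2 / 2) / 2

noncomputable def Pt (z : ℝ × ℝ) : ℝ := (A S T q p 2 0 z
  + (q 1 z.2 ^ 2 + q 0 z.2 * q 2 z.2) * S 1 z.1 ^ 2 / 2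
  + (p 1 z.2 ^ 2 + p 0 z.2 * p 2 z.2) * T 1 z.1 ^ 2 / 2) / 2

noncomputable def w (z : ℝ × ℝ) : ℝ :=
  - (g z.1 + A S T q p 0 3 z / (2 * J S T q p z)) / J S T q p z

noncomputable def wy (z : ℝ × ℝ) : ℝ :=
  - (g' z.1 + A S T q p 0 4 z / (2 * J S T q p z) - A S T q p 0 3 z ^ 2 / (2 * J S T q p z ^ 2))
    / J S T q p z - w S T q p g z * A S T q p 0 3 z / J S T q p z

noncomputable def Vh (z : ℝ × ℝ) : ℝ :=
  w S T q p g z ^ 2 + wy S T q p g g' z / J S T q p z - 1 - Pt S T q p z + A S T q p 1 1 z ^ 2 / 4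

noncomputable def Bh (z : ℝ × ℝ) : ℝ := β z.1 - log (J S T q p z) / 2

noncomputable def Eh (z : ℝ × ℝ) : ℂ :=
  (Bh S T q p β z : ℝ) + ((z.2 + Ph S T q p z : ℝ) : ℂ) * Complex.I

end

section
variable {S T q p : ℕ → ℝ → ℝ} {β g g' : ℝ → ℝ} {M ν c : ℝ}
  (hP : Prof S T M) (hT : Tm M ν q p) (hA : Amp c β g g')
include hP hT

theorem A_bd (j k : ℕ) (hk : k ≤ 4) (z : ℝ × ℝ) : |A S T q p j k z| ≤ ν ^ j / 2 := by
  have a := hT.bq j z.2
  have b := hT.bp j z.2
  have c := mul_le_mul_of_nonneg_left (hP.bS k hk z.1) (abs_nonneg (q j z.2))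
  have d := mul_le_mul_of_nonneg_left (hP.bT k hk z.1) (abs_nonneg (p j z.2))
  have := abs_add_le (q j z.2 * S k z.1) (p j z.2 * T k z.1)
  rw [abs_mul, abs_mul] at this
  unfold A
  linarith

theorem J_bd (z : ℝ × ℝ) : 1 / 2 ≤ J S T q p z ∧ J S T q p z ≤ 3 / 2 := by
  have := abs_le.1 (A_bd hP hT 0 2 (by norm_num) z)
  unfold J
  constructor <;> linarith [this.1, this.2]

theorem J_pos (z : ℝ × ℝ) : 0 < J S T q p z := by linarith [(J_bd hP hT z).1]

theorem A_smooth (j k : ℕ) : ContDiff ℝ ∞ (A S T q p j k) :=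
  (((hT.sq j).comp contDiff_snd).mul ((hP.sS k).comp contDiff_fst)).add
    (((hT.sp j).comp contDiff_snd).mul ((hP.sT k).comp contDiff_fst))

theorem J_smooth : ContDiff ℝ ∞ (J S T q p) := contDiff_const.add (A_smooth hP hT 0 2)

theorem cross (y : ℝ) (k l : ℕ) : S k y * T (l + 1) y = 0 := by
  by_cases h : y ^ 2 < 3
  · rw [hP.T1 y h, mul_zero]
  · rw [hP.Sz y (by linarith), zero_mul]

theorem A_curve {y τ : ℝ → ℝ} {a b s : ℝ} (h1 : HasDerivAt y a s) (h2 : HasDerivAt τ b s)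
    (j k : ℕ) (hj : j ≤ 1) : HasDerivAt (fun s => A S T q p j k (y s, τ s))
      (A S T q p j (k + 1) (y s, τ s) * a + A S T q p (j + 1) k (y s, τ s) * b) s := by
  have dq : HasDerivAt (q j) (q (j + 1) (τ s)) (τ s) := by
    interval_cases j
    · exact hT.dq0 _
    · exact hT.dq1 _
  have dp : HasDerivAt (p j) (p (j + 1) (τ s)) (τ s) := by
    interval_cases j
    · exact hT.dp0 _
    · exact hT.dp1 _
  exact (((dq.comp s h2).mul ((hP.dS k _).comp s h1)).add
    ((dp.comp s h2).mul ((hP.dT k _).comp s h1))).congr_deriv (by simp [A]; ring)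

theorem Ph_curve {y τ : ℝ → ℝ} {a b s : ℝ} (h1 : HasDerivAt y a s) (h2 : HasDerivAt τ b s) :
    HasDerivAt (fun s => Ph S T q p (y s, τ s))
      (A S T q p 1 1 (y s, τ s) * J S T q p (y s, τ s) / 2 * a + Pt S T q p (y s, τ s) * b) s := by
  have c1 := cross hP hT (y s) 1 1
  have c2 := cross hP hT (y s) 2 0
  refine ((((A_curve hP hT h1 h2 1 0 le_rfl).add
    ((((((hT.dq0 _).comp s h2).mul ((hT.dq1 _).comp s h2)).mul
      (((hP.dS 1 _).comp s h1).pow 2)).div_const 2))).add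
    ((((((hT.dp0 _).comp s h2).mul ((hT.dp1 _).comp s h2)).mul
      (((hP.dT 1 _).comp s h1).pow 2)).div_const 2))).div_const 2).congr_deriv ?_
  simp only [A, J, Pt, Function.comp, Pi.mul_apply, Pi.pow_apply, Nat.reduceAdd, Nat.reduceSub,
    pow_one, Nat.cast_ofNat] at *
  linear_combination (- a * q 1 (τ s) * p 0 (τ s) / 2) * c1 - (a * p 1 (τ s) * q 0 (τ s) / 2) * c2

include hA

theorem Bh_curve {y τ : ℝ → ℝ} {a b s : ℝ} (h1 : HasDerivAt y a s) (h2 : HasDerivAt τ b s) :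
    HasDerivAt (fun s => Bh S T q p β (y s, τ s))
      (w S T q p g (y s, τ s) * J S T q p (y s, τ s) * a
        - A S T q p 1 2 (y s, τ s) / (2 * J S T q p (y s, τ s)) * b) s := by
  have hJ := (J_pos hP hT (y s, τ s)).ne'
  have dJ : HasDerivAt (fun s => J S T q p (y s, τ s)) _ s :=
    (A_curve hP hT h1 h2 0 2 (by norm_num)).const_add 1
  refine (((hA.dβ _).comp s h1).sub ((dJ.log hJ).div_const 2)).congr_deriv ?_
  simp only [w]
  field_simp
  ring

theorem w_curve {y : ℝ → ℝ} {a s : ℝ} (t : ℝ) (h1 : HasDerivAt y a s) :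
    HasDerivAt (fun s => w S T q p g (y s, t)) (wy S T q p g g' (y s, t) * a) s := by
  have hJ := (J_pos hP hT (y s, t)).ne'
  have h2 := hasDerivAt_const s t
  have dJ : HasDerivAt (fun s => J S T q p (y s, t)) _ s :=
    (A_curve hP hT h1 h2 0 2 (by norm_num)).const_add 1
  refine ((((hA.dg _).comp s h1).add ((A_curve hP hT h1 h2 0 3 (by norm_num)).div
    (dJ.const_mul 2) (mul_ne_zero two_ne_zero hJ))).neg.div dJ hJ).congr_deriv ?_
  simp only [w, wy, Function.comp, Pi.add_apply, Pi.neg_apply, Pi.div_apply, Nat.reduceAdd]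
  field_simp
  ring

theorem Vh_smooth : ContDiff ℝ ∞ (Vh S T q p g g') := by
  have hJ := fun z => (J_pos hP hT z).ne'
  have sJ := J_smooth hP hT
  have sA := A_smooth hP hT
  have sw : ContDiff ℝ ∞ (w S T q p g) :=
    ((hA.sg.comp contDiff_fst).add ((sA 0 3).div (contDiff_const.mul sJ)
      fun z => mul_ne_zero two_ne_zero (hJ z))).neg.div sJ hJ
  have swy : ContDiff ℝ ∞ (wy S T q p g g') :=
    ((((hA.sg'.comp contDiff_fst).add ((sA 0 4).div (contDiff_const.mul sJ)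
      fun z => mul_ne_zero two_ne_zero (hJ z))).sub (((sA 0 3).pow 2).div
        (contDiff_const.mul (sJ.pow 2)) fun z => mul_ne_zero two_ne_zero
          (pow_ne_zero 2 (hJ z)))).neg.div sJ hJ).sub ((sw.mul (sA 0 3)).div sJ hJ)
  have sq := fun k => (hT.sq k).comp (contDiff_snd (E := ℝ) (F := ℝ))
  have sp := fun k => (hT.sp k).comp (contDiff_snd (E := ℝ) (F := ℝ))
  have sS := fun k => (hP.sS k).comp (contDiff_fst (E := ℝ) (F := ℝ))
  have sT := fun k => (hP.sT k).comp (contDiff_fst (E := ℝ) (F := ℝ))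
  have sPt : ContDiff ℝ ∞ (Pt S T q p) :=
    (((sA 2 0).add (((((sq 1).pow 2).add ((sq 0).mul (sq 2))).mul ((sS 1).pow 2)).div_const 2)).add
      (((((sp 1).pow 2).add ((sp 0).mul (sp 2))).mul ((sT 1).pow 2)).div_const 2)).div_const 2
  exact ((((sw.pow 2).add (swy.div sJ hJ)).sub contDiff_const).sub sPt).add
    (((sA 1 1).pow 2).div_const 4)

theorem Eh_smooth : ContDiff ℝ ∞ (Eh S T q p β) := by
  have sq := fun k => (hT.sq k).comp (contDiff_snd (E := ℝ) (F := ℝ))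
  have sp := fun k => (hT.sp k).comp (contDiff_snd (E := ℝ) (F := ℝ))
  have sS := fun k => (hP.sS k).comp (contDiff_fst (E := ℝ) (F := ℝ))
  have sT := fun k => (hP.sT k).comp (contDiff_fst (E := ℝ) (F := ℝ))
  have sB : ContDiff ℝ ∞ (Bh S T q p β) := (hA.sβ.comp contDiff_fst).sub
    (((J_smooth hP hT).log fun z => (J_pos hP hT z).ne').div_const 2)
  have sPh : ContDiff ℝ ∞ (Ph S T q p) :=
    (((A_smooth hP hT 1 0).add ((((sq 0).mul (sq 1)).mul ((sS 1).pow 2)).div_const 2)).add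
      ((((sp 0).mul (sp 1)).mul ((sT 1).pow 2)).div_const 2)).div_const 2
  exact (Complex.ofRealCLM.contDiff.comp sB).add
    ((Complex.ofRealCLM.contDiff.comp (contDiff_snd.add sPh)).mul contDiff_const)

theorem Vh_out (z : ℝ × ℝ) (hz : 4 < z.1 ^ 2) : Vh S T q p g g' z = g z.1 ^ 2 - g' z.1 - 1 := by
  have a := hP.Sz z.1 (by linarith)
  have b := hP.Tz z.1 hz
  simp only [Vh, wy, w, J, Pt, A, a, b]
  ring

set_option maxHeartbeats 4000000 in
theorem Vh_nonneg (hν : ν = 576 * M ^ 2) (hc : c = 3 * ν) (z : ℝ × ℝ) :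
    0 ≤ Vh S T q p g g' z := by
  have hM := hP.M1
  have hν1 : 576 ≤ ν := by nlinarith
  by_cases h4 : 4 < z.1 ^ 2
  · rw [Vh_out hP hT hA z h4]; linarith [hA.out z.1 h4]
  obtain ⟨g1, g2⟩ := hA.core z.1 (by linarith)
  by_cases h1 : z.1 ^ 2 < 1
  · have t3 : z.1 ^ 2 < 3 := by linarith
    have s2 := hP.S2 z.1 h1
    have s20 : S 2 z.1 = 0 := s2 0
    have s21 : S 3 z.1 = 0 := s2 1
    have s22 : S 4 z.1 = 0 := s2 2
    have e : Vh S T q p g g' z = (c * z.1) ^ 2 - c - 1 - q 2 z.2 * z.1 / 2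
        + (p 2 z.2 / 2 - q 0 z.2 * q 2 z.2 / 4) := by
      simp only [Vh, wy, w, J, Pt, A, hP.S0 z.1 h1, hP.S1 z.1 h1, s20, s21, s22, hP.T0 z.1 t3,
        hP.T1 z.1 t3, g1, g2]
      ring
    rw [e, hT.core]
    have b := hT.bq 2 z.2
    have e2 : ν ^ 2 / (128 * M ^ 2) = 9 / 2 * ν := by rw [hν]; field_simp; ring
    have b2 : (q 2 z.2 * M) ^ 2 ≤ (ν ^ 2 / 4) ^ 2 := by
      apply sq_le_sq'
      · have := neg_abs_le (q 2 z.2); nlinarith
      · have := le_abs_self (q 2 z.2); nlinarith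
    have b3 : q 2 z.2 ^ 2 ≤ 36 * ν ^ 3 := by
      have hM2 : 0 < M ^ 2 := by positivity
      have : q 2 z.2 ^ 2 * M ^ 2 ≤ 36 * ν ^ 3 * M ^ 2 := by
        have : (ν ^ 2 / 4) ^ 2 = 36 * ν ^ 3 * M ^ 2 := by rw [hν]; ring
        nlinarith
      exact le_of_mul_le_mul_right this hM2
    rw [e2, hc]
    have hν0 : 0 < ν := by linarith
    have b4 : (q 2 z.2 / (12 * ν)) ^ 2 ≤ ν / 4 := by
      rw [div_pow, div_le_iff₀ (by positivity)]; nlinarith
    have e3 : q 2 z.2 = 12 * ν * (q 2 z.2 / (12 * ν)) := by field_simp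
    generalize q 2 z.2 / (12 * ν) = r at *
    rw [e3]
    nlinarith [sq_nonneg (3 * ν * z.1 - r)]
  · push Not at h1
    obtain ⟨j1, j2⟩ := J_bd hP hT z
    have a3 := abs_le.1 (A_bd hP hT 0 3 (by norm_num) z)
    have a4 := abs_le.1 (A_bd hP hT 0 4 (by norm_num) z)
    have a20 := abs_le.1 (A_bd hP hT 2 0 (by norm_num) z)
    have pr : ∀ (r : ℕ → ℝ) (s : ℝ), (∀ k, |r k| * M ≤ ν ^ k / 4) → |s| ≤ M →
        (r 1 ^ 2 + r 0 * r 2) * s ^ 2 / 2 ≤ ν ^ 2 / 16 := fun r s hr hs => by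
      have b : ∀ k, |r k * s| ≤ ν ^ k / 4 := fun k => by
        rw [abs_mul]; exact (mul_le_mul_of_nonneg_left hs (abs_nonneg _)).trans (hr k)
      have b0 := abs_le.1 (b 0)
      have b1 := abs_le.1 (b 1)
      have b2 := abs_le.1 (b 2)
      simp only [pow_zero, pow_one] at b0 b1
      have e : (r 1 ^ 2 + r 0 * r 2) * s ^ 2 = (r 1 * s) ^ 2 + (r 0 * s) * (r 2 * s) := by ring
      rw [e]
      generalize r 0 * s = x0 at *
      generalize r 1 * s = x1 at *
      generalize r 2 * s = x2 at *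
      nlinarith [mul_nonneg (sub_nonneg.2 b0.2) (sub_nonneg.2 b2.1),
        mul_nonneg (sub_nonneg.2 b0.1) (sub_nonneg.2 b2.2),
        mul_nonneg (sub_nonneg.2 b1.1) (sub_nonneg.2 b1.2)]
    have hPt : Pt S T q p z ≤ ν ^ 2 / 2 := by
      have := pr (fun k => q k z.2) (S 1 z.1) (fun k => hT.bq k _) (hP.bS 1 (by norm_num) _)
      have := pr (fun k => p k z.2) (T 1 z.1) (fun k => hT.bp k _) (hP.bT 1 (by norm_num) _)
      have := sq_nonneg ν
      simp only [Pt] at *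
      linarith [a20.2]
    simp only [pow_zero] at a3 a4
    have hJ0 : 0 < J S T q p z := by linarith
    set i := 1 / J S T q p z with hi
    have i1 : 2 / 3 ≤ i := by rw [hi, le_div_iff₀ hJ0]; linarith
    have i2 : i ≤ 2 := by rw [hi, div_le_iff₀ hJ0]; linarith
    have ew : w S T q p g z = - (c * z.1 + A S T q p 0 3 z * i / 2) * i := by
      simp only [w, g1, hi]; field_simp
    have ewy : wy S T q p g g' z / J S T q p z = - (c + A S T q p 0 4 z * i / 2
        - (A S T q p 0 3 z * i) ^ 2 / 2) * i ^ 2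
        - w S T q p g z * (A S T q p 0 3 z * i * i) := by
      simp only [wy, g2, hi]; field_simp
    have m3 : |A S T q p 0 3 z * i| ≤ 1 := by
      rw [abs_le]; constructor <;> nlinarith [a3.1, a3.2]
    have m4 : A S T q p 0 4 z * i ≤ 1 := by nlinarith [a4.1, a4.2]
    have m5 : |A S T q p 0 3 z * i * i| ≤ 2 := by
      have := abs_le.1 m3
      rw [abs_le]; constructor <;> nlinarith [this.1, this.2]
    have hc0 : 0 < c := by rw [hc]; linarith
    have w2 : (2 / 3 * (c - 1 / 2)) ^ 2 ≤ w S T q p g z ^ 2 := by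
      have y1 : 1 ≤ |z.1| := by rw [← sq_le_sq₀ zero_le_one (abs_nonneg _), sq_abs]; linarith
      have y2 : c - 1 / 2 ≤ |c * z.1 + A S T q p 0 3 z * i / 2| := by
        have := abs_sub_abs_le_abs_add (c * z.1) (A S T q p 0 3 z * i / 2)
        rw [abs_mul c, abs_of_pos hc0, abs_div, abs_two] at this
        nlinarith
      rw [← sq_abs (w S T q p g z), ew, abs_mul, abs_neg, abs_of_pos (show 0 < i by linarith)]
      apply pow_le_pow_left₀ (by nlinarith)
      nlinarith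
    have w3 : - (c + A S T q p 0 4 z * i / 2 - (A S T q p 0 3 z * i) ^ 2 / 2) * i ^ 2
        ≥ - (4 * c + 2) := by
      have : i ^ 2 ≤ 4 := by nlinarith
      have h5 : c + A S T q p 0 4 z * i / 2 - (A S T q p 0 3 z * i) ^ 2 / 2 ≤ c + 1 / 2 := by
        nlinarith [sq_nonneg (A S T q p 0 3 z * i)]
      nlinarith [mul_le_mul_of_nonneg_right h5 (sq_nonneg i)]
    have w4 : w S T q p g z * (A S T q p 0 3 z * i * i) ≤ w S T q p g z ^ 2 / 2 + 2 := by
      have := abs_le.1 m5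
      nlinarith [sq_nonneg (w S T q p g z - A S T q p 0 3 z * i * i),
        mul_nonneg (sub_nonneg.2 this.1) (sub_nonneg.2 this.2)]
    simp only [Vh]
    rw [ewy]
    have := sq_nonneg (A S T q p 1 1 z)
    rw [hc] at w2 w3 ⊢
    nlinarith

end

end Pool.Agent.H19.Sch
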