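import Mathlib
import Pool.Agent.H19.Sch3

set_option autoImplicit false
set_option linter.unusedSectionVars false

namespace Pool.Agent.H19.Sch

open Real Topology Filter Set
open scoped ContDiff

theorem exists_main : ∃ (V : ℝ × ℝ → ℝ) (ψ : ℝ × ℝ → ℂ) (P C : ℝ), 0 < P ∧ ContDiff ℝ ∞ V ∧
    ContDiff ℝ ∞ ψ ∧ (∀ z, 0 ≤ V z) ∧ (∀ z : ℝ × ℝ, 16 < z.1 ^ 2 → V z = 0) ∧
    (∀ z, V (z + (0, P)) = V z) ∧ V (5 / 2, 0) ≠ 0 ∧ (∀ z, ψ z ≠ 0) ∧
    (∀ z : ℝ × ℝ, ‖ψ z‖ ≤ C / (1 + z.1 ^ 2)) ∧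
    ∀ x t, Complex.I * deriv (fun s => ψ (x, s)) t
      = - deriv (deriv fun y => ψ (y, t)) x + V (x, t) * ψ (x, t) := by
  obtain ⟨S, T, M, hP⟩ := exists_prof
  have hM := hP.M1
  set ν := 576 * M ^ 2 with hν
  have hν1 : 576 ≤ ν := by nlinarith
  obtain ⟨q, p, hT⟩ := exists_tm hM (show 0 < ν by linarith)
  obtain ⟨β, g, g', hA⟩ := exists_amp (c := 3 * ν) (by linarith)
  set X : ℝ × ℝ → ℝ := fun z => z.1 + A S T q p 0 1 z with hX
  have dX : ∀ z, HasFDerivAt X (J S T q p z • ContinuousLinearMap.fst ℝ ℝ ℝ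
      + A S T q p 1 1 z • ContinuousLinearMap.snd ℝ ℝ ℝ) z := fun z => by
    refine (hasFDerivAt_fst.add
      ((((hT.dq0 z.2).comp_hasFDerivAt z hasFDerivAt_snd).mul
        ((hP.dS 1 z.1).comp_hasFDerivAt z hasFDerivAt_fst)).add
      (((hT.dp0 z.2).comp_hasFDerivAt z hasFDerivAt_snd).mul
        ((hP.dT 1 z.1).comp_hasFDerivAt z hasFDerivAt_fst)))).congr_fderiv ?_
    ext <;> simp [J, A] <;> ring
  have bX : ∀ z, |X z - z.1| ≤ 1 := fun z => by
    have := A_bd hP hT 0 1 (by norm_num) z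
    simp only [hX, add_sub_cancel_left]
    linarith
  obtain ⟨Y, sY, hXY, hYX, dYx, dYt⟩ := exists_inverse
    (contDiff_fst.add (A_smooth hP hT 0 1)) dX (J_pos hP hT) bX
  have Yout : ∀ z : ℝ × ℝ, 4 < z.1 ^ 2 → Y z = z.1 := fun z hz => by
    have := hYX z
    simpa only [A, hP.Sz z.1 (by linarith), hP.Tz z.1 hz, mul_zero, add_zero] using this
  have Yper : ∀ z : ℝ × ℝ, Y (z + (0, 2 * π / ν)) = Y z := fun z => by
    have a := hYX (Y z, z.2 + 2 * π / ν)
    have b := hXY z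
    simp only [A, hT.perq, hT.perp] at a b
    rw [b] at a
    rw [← a]; congr 1; ext <;> simp
  have sYY : ContDiff ℝ ∞ fun z : ℝ × ℝ => (Y z, z.2) := sY.prodMk contDiff_snd
  obtain ⟨C, hC⟩ := hA.dec
  refine ⟨fun z => Vh S T q p g g' (Y z, z.2), fun z => Complex.exp (Eh S T q p β (Y z, z.2)),
    2 * π / ν, 2 * exp (C + 2), by have := pi_pos; positivity, (Vh_smooth hP hT hA).comp sYY,
    ((Eh_smooth hP hT hA).comp sYY).cexp, fun z => Vh_nonneg hP hT hA rfl rfl _,
    fun z hz => ?_, fun z => ?_, ?_, fun z => Complex.exp_ne_zero _, fun z => ?_, fun x t => ?_⟩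
  · simp only [Yout z (by linarith)]
    rw [Vh_out hP hT hA _ (by simp only; linarith)]
    linarith [hA.far z.1 hz]
  · simp only [Yper, Prod.snd_add, Vh, wy, w, J, Pt, A, hT.perq, hT.perp]
  · simp only [Yout (5 / 2, 0) (by norm_num)]
    rw [Vh_out hP hT hA _ (by norm_num)]
    obtain ⟨a, b⟩ := hA.core (5 / 2) (by norm_num)
    simp only [a, b]
    nlinarith
  · have e : ‖Complex.exp (Eh S T q p β (Y z, z.2))‖ = exp (Bh S T q p β (Y z, z.2)) := by
      rw [Complex.norm_exp]; simp [Eh]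
    simp only [e]
    have a := hC (Y z)
    have b := bX (Y z, z.2)
    have b' : X (Y z, z.2) = z.1 := hXY z
    rw [b'] at b
    have c1 : |z.1| ≤ |Y z| + 1 := by
      have := abs_sub_abs_le_abs_sub z.1 (Y z)
      simp only at b
      linarith
    have j := (J_bd hP hT (Y z, z.2)).1
    have l : -1 ≤ log (J S T q p (Y z, z.2)) := by
      have := one_sub_inv_le_log_of_pos (J_pos hP hT (Y z, z.2))
      have : (J S T q p (Y z, z.2))⁻¹ ≤ 2 := by
        rw [inv_le_comm₀ (J_pos hP hT _) two_pos]; linarith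
      linarith
    have h1 : Bh S T q p β (Y z, z.2) ≤ C + 2 - |z.1| := by simp only [Bh]; linarith
    refine (exp_le_exp.2 h1).trans ?_
    rw [exp_sub, div_le_div_iff₀ (exp_pos _) (by positivity)]
    have := quadratic_le_exp_of_nonneg (abs_nonneg z.1)
    rw [sq_abs] at this
    have h2 := exp_pos (C + 2)
    have h3 := abs_nonneg z.1
    nlinarith
  · have hJ : ∀ z, ((J S T q p z : ℝ) : ℂ) ≠ 0 := fun z =>
      Complex.ofReal_ne_zero.2 (J_pos hP hT z).ne'
    have dE : ∀ {y τ : ℝ → ℝ} {a b s : ℝ}, HasDerivAt y a s → HasDerivAt τ b s →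
        HasDerivAt (fun s => Complex.exp (Eh S T q p β (y s, τ s)))
          (Complex.exp (Eh S T q p β (y s, τ s)) *
          ((w S T q p g (y s, τ s) * J S T q p (y s, τ s) * a
            - A S T q p 1 2 (y s, τ s) / (2 * J S T q p (y s, τ s)) * b : ℝ)
          + ((b + (A S T q p 1 1 (y s, τ s) * J S T q p (y s, τ s) / 2 * a
            + Pt S T q p (y s, τ s) * b) : ℝ) : ℂ) * Complex.I)) s := fun h1 h2 =>
      ((Bh_curve hP hT hA h1 h2).ofReal_comp.add
        ((h2.add (Ph_curve hP hT h1 h2)).ofReal_comp.mul_const Complex.I)).cexp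
    have d1 : deriv (fun y => Complex.exp (Eh S T q p β (Y (y, t), t))) = fun y =>
        Complex.exp (Eh S T q p β (Y (y, t), t)) * ((w S T q p g (Y (y, t), t) : ℝ)
          + ((A S T q p 1 1 (Y (y, t), t) : ℝ) : ℂ) / 2 * Complex.I) := by
      funext y
      rw [(dE (dYx y t) (hasDerivAt_const y t)).deriv]
      have := hJ (Y (y, t), t)
      push_cast
      field_simp
      ring
    have d2 := (dE (dYx x t) (hasDerivAt_const x t)).mul
      ((w_curve hP hT hA t (dYx x t)).ofReal_comp.add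
        (((A_curve hP hT (dYx x t) (hasDerivAt_const x t) 1 1 le_rfl).ofReal_comp.div_const 2).mul_const
          Complex.I))
    have d3 := dE (dYt x t) (hasDerivAt_id t)
    simp only [id] at d3
    simp only [d1]
    rw [d3.deriv]
    erw [d2.deriv]
    have := hJ (Y (x, t), t)
    simp only [Vh, Pi.add_apply, Nat.reduceAdd]
    push_cast
    generalize Complex.exp (Eh S T q p β (Y (x, t), t)) = E
    field_simp
    linear_combination (exp := 1) (4 * E * (4 * (J S T q p (Y (x, t), t) : ℂ)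
      - 2 * (A S T q p 1 1 (Y (x, t), t) : ℂ) ^ 2 * (J S T q p (Y (x, t), t) : ℂ)
      + 4 * (J S T q p (Y (x, t), t) : ℂ) * (Pt S T q p (Y (x, t), t) : ℂ)
      + (A S T q p 1 1 (Y (x, t), t) : ℂ) ^ 2 * (J S T q p (Y (x, t), t) : ℂ))) * Complex.I_mul_I

end Pool.Agent.H19.Sch
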