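import Mathlib

set_option autoImplicit false

namespace Pool.Agent.H19.Semi

open Polynomial
open scoped Quaternion Polynomial.Bivariate

/-- real two by two matrices -/
abbrev M := Matrix (Fin 2) (Fin 2) ℝ

lemma near {f : ℝ → ℝ} (hf : Continuous f) (h : 0 < f 0) : ∃ ε, 0 < ε ∧ 0 < f ε ∧ 0 < f (-ε) := by
  obtain ⟨δ, h0, h1⟩ := Metric.eventually_nhds_iff.1 (hf.continuousAt.eventually (lt_mem_nhds h))
  refine ⟨δ / 2, by positivity, h1 ?_, h1 ?_⟩
  · rw [Real.dist_eq, sub_zero, abs_of_pos (by positivity)]; linarith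
  · rw [Real.dist_eq, sub_zero, abs_neg, abs_of_pos (by positivity)]; linarith

lemma nz {r : ℝ[X]} (h : r ≠ 0) {S : Set ℝ} (hS : S.Infinite) : ∃ v ∈ S, r.eval v ≠ 0 :=
  hS.exists_notMem_finite (finite_setOfPred_isRoot h)

lemma cont (P : ℝ[X][Y]) (v : ℝ) : Continuous fun u => P.evalEval v u := by
  simp only [← map_evalRingHom_eval]
  fun_prop

lemma ev0 (P : ℝ[X][Y]) (v : ℝ) : P.evalEval v 0 = (P.coeff 0).eval v := by
  simp [evalEval, coeff_zero_eq_eval_zero]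

lemma dv {P : ℝ[X][Y]} (h : P.coeff 0 = 0) (v u : ℝ) :
    P.evalEval v u = u * P.divX.evalEval v u := by
  conv_lhs => rw [← P.X_mul_divX_add, h]
  simp

/-- the norm form -/
noncomputable def N (P Q R : ℝ[X][Y]) (u v : ℝ) : ℝ :=
  u * P.evalEval v u ^ 2 + v * Q.evalEval v u ^ 2 - u * v * R.evalEval v u ^ 2

lemma base {σ : ℝ} (hσ : σ ≠ 0) (P Q R : ℝ[X][Y])
    (h : P.coeff 0 ≠ 0 ∨ Q.coeff 0 ≠ 0 ∨ R.coeff 0 ≠ 0) :
    ∃ u v, u ≠ 0 ∧ (0 < u ∨ 0 < v) ∧ 0 < σ * N P Q R u v := by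
  have c1 := cont P
  have c2 := cont Q
  have c3 := cont R
  have c4 := cont Q.divX
  by_cases hQ : Q.coeff 0 = 0
  · have hr : P.coeff 0 ^ 2 - X * R.coeff 0 ^ 2 ≠ 0 := by
      intro e
      have k : ∀ v, v < 0 → (P.coeff 0).eval v = 0 ∧ (R.coeff 0).eval v = 0 := fun v hv => by
        have := congrArg (eval v) e
        simp only [eval_sub, eval_pow, eval_mul, eval_X, eval_zero] at this
        have a1 := sq_nonneg ((P.coeff 0).eval v)
        have a2 := mul_nonneg (neg_pos.2 hv).le (sq_nonneg ((R.coeff 0).eval v))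
        have a3 : -v * (R.coeff 0).eval v ^ 2 = 0 := by linarith
        exact ⟨pow_eq_zero_iff two_ne_zero |>.1 (by linarith),
          pow_eq_zero_iff two_ne_zero |>.1 ((mul_eq_zero.1 a3).resolve_left (by linarith))⟩
      rcases h with h | h | h
      · obtain ⟨v, h1, h2⟩ := nz h (Set.Iio_infinite 0); exact h2 (k v h1).1
      · exact h hQ
      · obtain ⟨v, h1, h2⟩ := nz h (Set.Iio_infinite 0); exact h2 (k v h1).2
    obtain ⟨v, h1, h2⟩ := nz hr (Set.Ioi_infinite 0)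
    set τ := eval v (P.coeff 0 ^ 2 - X * R.coeff 0 ^ 2) with hτ
    obtain ⟨ε, e0, e1, e2⟩ := near (f := fun u => τ * (P.evalEval v u ^ 2 +
      u * v * Q.divX.evalEval v u ^ 2 - v * R.evalEval v u ^ 2)) (by fun_prop) (by
        have : τ = P.evalEval v 0 ^ 2 + 0 * v * Q.divX.evalEval v 0 ^ 2 -
          v * R.evalEval v 0 ^ 2 := by simp [hτ, ev0]
        rw [← this]
        exact mul_self_pos.2 h2)
    have t2 : 0 < τ ^ 2 := by positivity
    rcases lt_or_gt_of_ne (mul_ne_zero hσ h2) with s | s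
    · refine ⟨-ε, v, by linarith, Or.inr h1, (mul_pos_iff_of_pos_left t2).1 ?_⟩
      rw [N, dv hQ]
      have := mul_pos (mul_pos (neg_pos.2 s) e0) e2
      linarith
    · refine ⟨ε, v, by linarith, Or.inr h1, (mul_pos_iff_of_pos_left t2).1 ?_⟩
      rw [N, dv hQ]
      have := mul_pos (mul_pos s e0) e1
      linarith
  · have hS : {v : ℝ | 0 < σ * v}.Infinite := by
      rcases lt_or_gt_of_ne hσ with s | s
      · exact (Set.Iio_infinite 0).mono fun v hv => mul_pos_of_neg_of_neg s hv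
      · exact (Set.Ioi_infinite 0).mono fun v hv => mul_pos s hv
    obtain ⟨v, h1, h2⟩ := nz hQ hS
    obtain ⟨ε, e0, e1, -⟩ := near (f := fun u => σ * N P Q R u v) (by unfold N; fun_prop) (by
      have := mul_pos h1 (sq_pos_of_ne_zero h2)
      simp only [N, ev0]
      linarith)
    exact ⟨ε, v, e0.ne', Or.inl e0, e1⟩

lemma key {σ : ℝ} (hσ : σ ≠ 0) (n : ℕ) : ∀ P Q R : ℝ[X][Y],
    (P.coeff n ≠ 0 ∨ Q.coeff n ≠ 0 ∨ R.coeff n ≠ 0) →
    ∃ u v, u ≠ 0 ∧ (0 < u ∨ 0 < v) ∧ 0 < σ * N P Q R u v := by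
  induction n with
  | zero => exact base hσ
  | succ n ih =>
    intro P Q R h
    by_cases h0 : P.coeff 0 ≠ 0 ∨ Q.coeff 0 ≠ 0 ∨ R.coeff 0 ≠ 0
    · exact base hσ P Q R h0
    · push Not at h0
      obtain ⟨u, v, h1, h2, h3⟩ := ih P.divX Q.divX R.divX (by simpa only [coeff_divX] using h)
      refine ⟨u, v, h1, h2, ?_⟩
      have := mul_pos (sq_pos_of_ne_zero h1) h3
      rw [N] at this ⊢
      rw [dv h0.1, dv h0.2.1, dv h0.2.2]
      linarith

variable {m : ℕ}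

lemma rep (c : Fin m → ℍ[ℝ,1,0,1]) (p : FreeAlgebra ℝ (Fin m)) : ∃ T P Q R : ℝ[X][Y], ∀ u v : ℝ,
    FreeAlgebra.lift ℝ (fun l => (⟨(c l).re, (c l).imI, (c l).imJ, (c l).imK⟩ : ℍ[ℝ,u,0,v])) p =
      ⟨T.evalEval v u, P.evalEval v u, Q.evalEval v u, R.evalEval v u⟩ := by
  induction p using FreeAlgebra.induction with
  | grade0 r => exact ⟨CC r, 0, 0, 0, fun u v => by ext <;> simp⟩
  | grade1 l => exact ⟨CC (c l).re, CC (c l).imI, CC (c l).imJ, CC (c l).imK, fun u v => by simp⟩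
  | mul a b ha hb =>
    obtain ⟨T, P, Q, R, ha⟩ := ha
    obtain ⟨T', P', Q', R', hb⟩ := hb
    refine ⟨T * T' + Y * P * P' + C X * Q * Q' - Y * C X * R * R',
      T * P' + P * T' - C X * Q * R' + C X * R * Q', T * Q' + Y * P * R' + Q * T' - Y * R * P',
      T * R' + P * Q' - Q * P' + R * T', fun u v => ?_⟩
    rw [map_mul, ha, hb]
    ext <;> simp [evalEval_C, mul_comm u v]
  | add a b ha hb =>
    obtain ⟨T, P, Q, R, ha⟩ := ha
    obtain ⟨T', P', Q', R', hb⟩ := hb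
    exact ⟨T + T', P + P', Q + Q', R + R', fun u v => by rw [map_add, ha, hb]; ext <;> simp⟩

def B1 (u v s : ℝ) (h : v = s ^ 2) : QuaternionAlgebra.Basis M u 0 v where
  i := !![0, u; 1, 0]
  j := !![s, 0; 0, -s]
  k := !![0, -(u * s); s, 0]
  i_mul_i := by ext i j; fin_cases i <;> fin_cases j <;> simp
  j_mul_j := by ext i j; fin_cases i <;> fin_cases j <;> simp [h, sq]
  i_mul_j := by ext i j; fin_cases i <;> fin_cases j <;> simp
  j_mul_i := by ext i j; fin_cases i <;> fin_cases j <;> simp [mul_comm]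

def B2 (u v s : ℝ) (h : u = s ^ 2) : QuaternionAlgebra.Basis M u 0 v where
  i := !![s, 0; 0, -s]
  j := !![0, v; 1, 0]
  k := !![0, s * v; -s, 0]
  i_mul_i := by ext i j; fin_cases i <;> fin_cases j <;> simp [h, sq]
  j_mul_j := by ext i j; fin_cases i <;> fin_cases j <;> simp
  i_mul_j := by ext i j; fin_cases i <;> fin_cases j <;> simp
  j_mul_i := by ext i j; fin_cases i <;> fin_cases j <;> simp [mul_comm]

lemma l1 (u v s : ℝ) (h : v = s ^ 2) (x : ℍ[ℝ,u,0,v]) : (B1 u v s h).liftHom x =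
    !![x.re + x.imJ * s, x.imI * u - x.imK * (u * s); x.imI + x.imK * s, x.re - x.imJ * s] := by
  ext i j
  fin_cases i <;> fin_cases j <;>
    simp [QuaternionAlgebra.Basis.lift, B1, Matrix.algebraMap_matrix_apply, sub_eq_add_neg]

lemma l2 (u v s : ℝ) (h : u = s ^ 2) (x : ℍ[ℝ,u,0,v]) : (B2 u v s h).liftHom x =
    !![x.re + x.imI * s, x.imJ * v + x.imK * (s * v); x.imJ - x.imK * s, x.re - x.imI * s] := by
  ext i j
  fin_cases i <;> fin_cases j <;>
    simp [QuaternionAlgebra.Basis.lift, B2, Matrix.algebraMap_matrix_apply, sub_eq_add_neg]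

lemma split {u v : ℝ} (h : 0 < u ∨ 0 < v) : ∃ φ : ℍ[ℝ,u,0,v] →ₐ[ℝ] M, ∀ x,
    (φ x).trace = 2 * x.re ∧
      (φ x).det = x.re ^ 2 - (u * x.imI ^ 2 + v * x.imJ ^ 2 - u * v * x.imK ^ 2) := by
  rcases h with h | h
  · have e := (Real.sq_sqrt h.le).symm
    refine ⟨(B2 u v _ e).liftHom, fun x => ?_⟩
    rw [l2, Matrix.trace_fin_two_of, Matrix.det_fin_two_of]
    generalize √u = s at e
    subst e
    constructor <;> ring
  · have e := (Real.sq_sqrt h.le).symm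
    refine ⟨(B1 u v _ e).liftHom, fun x => ?_⟩
    rw [l1, Matrix.trace_fin_two_of, Matrix.det_fin_two_of]
    generalize √v = s at e
    subst e
    constructor <;> ring

lemma nat {A B : Type} [Ring A] [Ring B] [Algebra ℝ A] [Algebra ℝ B] (φ : A →ₐ[ℝ] B)
    (a : Fin m → A) (p : FreeAlgebra ℝ (Fin m)) :
    FreeAlgebra.lift ℝ (fun l => φ (a l)) p = φ (FreeAlgebra.lift ℝ a p) := by
  have : FreeAlgebra.lift ℝ (fun l => φ (a l)) = φ.comp (FreeAlgebra.lift ℝ a) := by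
    ext l; simp
  rw [this, AlgHom.comp_apply]

/-- the set of values of a noncommutative polynomial on real two by two matrices -/
def Im (p : FreeAlgebra ℝ (Fin m)) : Set M := Set.range fun a : Fin m → M => FreeAlgebra.lift ℝ a p

/-- weighted homogeneity of degree `d` for the weights `w` -/
def Semihom (w : Fin m → ℕ) (d : ℕ) (p : FreeAlgebra ℝ (Fin m)) : Prop :=
  ∀ c : ℝ, FreeAlgebra.lift ℝ (fun j => c ^ w j • FreeAlgebra.ι ℝ j) p = c ^ d • p

theorem signs {p : FreeAlgebra ℝ (Fin m)} (ht : ∀ A ∈ Im p, A.trace = 0) {A0 : M} (h0 : A0 ∈ Im p)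
    (h1 : A0 ≠ 0) {σ : ℝ} (hσ : σ ≠ 0) : ∃ A ∈ Im p, 0 < σ * A.det := by
  obtain ⟨a, rfl⟩ := h0
  let c : Fin m → ℍ[ℝ,1,0,1] := fun l => ⟨(a l 0 0 + a l 1 1) / 2, (a l 0 1 + a l 1 0) / 2,
    (a l 0 0 - a l 1 1) / 2, (a l 1 0 - a l 0 1) / 2⟩
  have e : a = fun l => (B1 1 1 1 (by norm_num)).liftHom (c l) := by
    funext l
    rw [l1]
    ext i j
    fin_cases i <;> fin_cases j <;> simp [c] <;> ring
  obtain ⟨T, P, Q, R, h⟩ := rep c p
  have hn : ∃ n, P.coeff n ≠ 0 ∨ Q.coeff n ≠ 0 ∨ R.coeff n ≠ 0 := by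
    by_contra hn
    push Not at hn
    have p0 : P = 0 := Polynomial.ext fun n => (hn n).1
    have q0 : Q = 0 := Polynomial.ext fun n => (hn n).2.1
    have r0 : R = 0 := Polynomial.ext fun n => (hn n).2.2
    have t0 := ht _ ⟨a, rfl⟩
    apply h1
    beta_reduce at t0 ⊢
    rw [e, nat, h 1 1, l1] at t0 ⊢
    simp only [p0, q0, r0, evalEval_zero, Matrix.trace_fin_two_of] at t0 ⊢
    have : T.evalEval 1 1 = 0 := by linarith
    ext i j
    fin_cases i <;> fin_cases j <;> simp [this]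
  obtain ⟨n, hn⟩ := hn
  obtain ⟨u, v, -, h2, h3⟩ := key (neg_ne_zero.2 hσ) n P Q R hn
  obtain ⟨φ, hφ⟩ := split h2
  have m1 : φ ⟨T.evalEval v u, P.evalEval v u, Q.evalEval v u, R.evalEval v u⟩ ∈ Im p :=
    ⟨_, (nat φ _ p).trans (congrArg φ (h u v))⟩
  refine ⟨_, m1, ?_⟩
  have t0 := ht _ m1
  rw [(hφ _).1] at t0
  have t1 : T.evalEval v u = 0 := by linarith
  rw [(hφ _).2, t1]
  rw [N] at h3
  linarith

lemma conj {p : FreeAlgebra ℝ (Fin m)} {A : M} (h : A ∈ Im p) (g : Mˣ) : g * A * g⁻¹ ∈ Im p := by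
  obtain ⟨a, rfl⟩ := h
  let φ : M →ₐ[ℝ] M := AlgHom.ofLinearMap
    { toFun := fun A => g * A * g⁻¹
      map_add' := fun A B => by rw [mul_add, add_mul]
      map_smul' := fun c A => by simp } (by simp) fun A B => by simp [mul_assoc]
  exact ⟨_, nat φ a p⟩

lemma comp {A : M} (ht : A.trace = 0) (h : A ≠ 0) :
    ∃ g : Mˣ, A = g * !![0, -A.det; 1, 0] * g⁻¹ := by
  have k : ∀ g : M, g.det ≠ 0 → A * g = g * !![0, -A.det; 1, 0] →
      ∃ g : Mˣ, A = g * !![0, -A.det; 1, 0] * g⁻¹ := fun g h1 h2 => by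
    obtain ⟨g, rfl⟩ := (Matrix.isUnit_iff_isUnit_det g).2 h1.isUnit
    exact ⟨g, by rw [← h2, Units.mul_inv_cancel_right]⟩
  rw [Matrix.trace_fin_two] at ht
  have e : A 1 1 = - A 0 0 := by linarith
  by_cases h1 : A 1 0 = 0
  · by_cases h2 : A 0 1 = 0
    · have h3 : A 0 0 ≠ 0 := fun h3 => h (by
        ext i j; fin_cases i <;> fin_cases j <;> simp [e, h1, h2, h3])
      refine k !![1, A 0 0; 1, -A 0 0] (by
        rw [Matrix.det_fin_two_of]; intro h; apply h3; linarith) ?_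
      ext i j
      fin_cases i <;> fin_cases j <;>
        simp [Matrix.mul_apply, Matrix.det_fin_two, e, h1, h2]
    · refine k !![0, A 0 1; 1, -A 0 0] (by simpa using h2) ?_
      ext i j
      fin_cases i <;> fin_cases j <;>
        simp [Matrix.mul_apply, Matrix.det_fin_two, e, h1, mul_comm]
  · refine k !![1, A 0 0; 0, A 1 0] (by simpa using h1) ?_
    ext i j
    fin_cases i <;> fin_cases j <;> simp [Matrix.mul_apply, Matrix.det_fin_two, e] <;> ring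

lemma same {p : FreeAlgebra ℝ (Fin m)} {A B : M} (h : A ∈ Im p) (a1 : A.trace = 0) (a2 : A ≠ 0)
    (b1 : B.trace = 0) (b2 : B ≠ 0) (e : A.det = B.det) : B ∈ Im p := by
  obtain ⟨g, hg⟩ := comp a1 a2
  obtain ⟨k, hk⟩ := comp b1 b2
  have := conj (conj h g⁻¹) k
  rw [hg, e] at this
  rw [hk]
  simpa [mul_assoc] using this

lemma scale {p : FreeAlgebra ℝ (Fin m)} {w : Fin m → ℕ} {d : ℕ} (hp : Semihom w d p) {A : M}
    (h : A ∈ Im p) (c : ℝ) : c ^ d • A ∈ Im p := by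
  obtain ⟨a, rfl⟩ := h
  refine ⟨fun j => c ^ w j • a j, ?_⟩
  have := nat (FreeAlgebra.lift ℝ a) (fun j => c ^ w j • FreeAlgebra.ι ℝ j) p
  rw [hp c] at this
  simpa using this

lemma full {p : FreeAlgebra ℝ (Fin m)} {w : Fin m → ℕ} {d : ℕ} (hd : d ≠ 0) (hp : Semihom w d p)
    (ht : ∀ A ∈ Im p, A.trace = 0) {A0 : M} (h0 : A0 ∈ Im p) (h1 : A0 ≠ 0) {B : M}
    (b1 : B.trace = 0) (b2 : B.det = 0 → B = 0) : B ∈ Im p := by
  by_cases hB : B.det = 0
  · simpa [b2 hB, hd] using scale hp h0 0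
  obtain ⟨A, a1, a2⟩ := signs ht h0 h1 hB
  have a3 : A.det ≠ 0 := fun h => by simp [h] at a2
  have r : 0 < B.det / A.det := by
    rw [div_eq_mul_inv]
    have := mul_pos a2 (sq_pos_of_ne_zero (inv_ne_zero a3))
    refine this.trans_eq ?_
    field_simp
  have s := scale hp a1 ((B.det / A.det) ^ (((2 * d : ℕ) : ℝ)⁻¹))
  have e : (((B.det / A.det) ^ (((2 * d : ℕ) : ℝ)⁻¹)) ^ d • A).det = B.det := by
    rw [Matrix.det_smul, Fintype.card_fin, ← pow_mul, mul_comm d 2,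
      Real.rpow_inv_natCast_pow r.le (by omega), div_mul_cancel₀ _ a3]
  refine same s (ht _ s) (fun h => hB ?_) b1 (fun h => hB (by simp [h])) e
  rw [← e, h]
  simp

lemma cube {Z : M} (h : Z.trace = 0) : Z ^ 3 = -Z.det • Z := by
  rw [Matrix.trace_fin_two] at h
  have e : Z 1 1 = - Z 0 0 := by linarith
  ext i j
  fin_cases i <;> fin_cases j <;> simp [pow_succ, Matrix.mul_apply, Matrix.det_fin_two, e] <;> ring

theorem cls (S : Set M) (hS : ∀ A ∈ S, A.trace = 0) :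
    (∃ (m : ℕ) (p : FreeAlgebra ℝ (Fin m)) (w : Fin m → ℕ) (d : ℕ),
      d ≠ 0 ∧ Semihom w d p ∧ Im p = S) ↔
    S = {0} ∨ S = {A | A.trace = 0} ∨ S = {A | A.trace = 0 ∧ (A.det = 0 → A = 0)} := by
  constructor
  · rintro ⟨m, p, w, d, hd, hp, rfl⟩
    by_cases h : ∃ A ∈ Im p, A ≠ 0
    · obtain ⟨A0, h0, h1⟩ := h
      by_cases h2 : ∃ A ∈ Im p, A ≠ 0 ∧ A.det = 0
      · obtain ⟨A, a1, a2, a3⟩ := h2
        refine Or.inr (Or.inl (Set.Subset.antisymm hS fun B hB => ?_))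
        by_cases b : B.det = 0 → B = 0
        · exact full hd hp hS h0 h1 hB b
        · push Not at b
          exact same a1 (hS _ a1) a2 hB b.2 (a3.trans b.1.symm)
      · refine Or.inr (Or.inr (Set.Subset.antisymm (fun A hA => ⟨hS A hA, fun e => ?_⟩)
          fun B hB => full hd hp hS h0 h1 hB.1 hB.2))
        by_contra n
        exact h2 ⟨A, hA, n, e⟩
    · push Not at h
      refine Or.inl (Set.eq_singleton_iff_nonempty_unique_mem.2 ⟨⟨_, 0, rfl⟩, h⟩)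
  · let q : FreeAlgebra ℝ (Fin 2) := FreeAlgebra.ι ℝ 0 * FreeAlgebra.ι ℝ 1 -
      FreeAlgebra.ι ℝ 1 * FreeAlgebra.ι ℝ 0
    have s2 : Semihom (fun _ => 1) 2 q := fun c => by
      simp [q, smul_sub, smul_smul, sq]
    have s6 : Semihom (fun _ => 1) 6 (q ^ 3) := fun c => by
      rw [map_pow, s2 c, _root_.smul_pow, ← pow_mul]
    have t2 : ∀ a : Fin 2 → M, (FreeAlgebra.lift ℝ a q).trace = 0 := fun a => by
      simp [q, Matrix.trace_mul_comm (a 0)]
    have t6 : ∀ A ∈ Im (q ^ 3), A.trace = 0 := by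
      rintro _ ⟨a, rfl⟩
      simp [cube (t2 a), t2]
    rintro (rfl | rfl | rfl)
    · exact ⟨0, 0, fun _ => 0, 1, one_ne_zero, fun c => by simp, by simp [Im]⟩
    · have ht : ∀ A ∈ Im q, A.trace = 0 := by rintro _ ⟨a, rfl⟩; exact t2 a
      have m1 : !![0, 1; 0, 0] ∈ Im q := ⟨![!![1, 0; 0, 0], !![0, 1; 0, 0]], by
        ext i j; fin_cases i <;> fin_cases j <;> simp [q]⟩
      have m2 : (!![0, 1; 0, 0] : M) ≠ 0 := fun h => by simpa using congrFun (congrFun h 0) 1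
      refine ⟨2, q, _, 2, two_ne_zero, s2, Set.Subset.antisymm ht fun B hB => ?_⟩
      by_cases b : B.det = 0 → B = 0
      · exact full two_ne_zero s2 ht m1 m2 hB b
      · push Not at b
        exact same m1 (ht _ m1) m2 hB b.2 (by simp [b.1])
    · have m1 : !![1, 0; 0, -1] ∈ Im (q ^ 3) := ⟨![!![0, 1; 0, 0], !![0, 0; 1, 0]], by
        simp [q, pow_succ]⟩
      have m2 : (!![1, 0; 0, -1] : M) ≠ 0 := fun h => by simpa using congrFun (congrFun h 0) 0
      refine ⟨2, q ^ 3, _, 6, by norm_num, s6, Set.Subset.antisymm ?_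
        fun B hB => full (by norm_num) s6 t6 m1 m2 hB.1 hB.2⟩
      rintro _ ⟨a, rfl⟩
      refine ⟨t6 _ ⟨a, rfl⟩, fun h => ?_⟩
      beta_reduce at h ⊢
      rw [map_pow] at h ⊢
      rw [Matrix.det_pow, pow_eq_zero_iff (by norm_num)] at h
      rw [cube (t2 a), h]
      simp

end Pool.Agent.H19.Semi
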