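import Mathlib

set_option autoImplicit false

namespace Pool.Agent.H19.Sq

open Sum

/-- every nonempty subgraph has a vertex of degree at most `k` -/
def Degen {V : Type} (k : ℕ) (G : SimpleGraph V) : Prop :=
  ∀ H : G.Subgraph, H.verts.Nonempty → ∃ v ∈ H.verts, (H.neighborSet v).ncard ≤ k

/-- the maximum degree is exactly `D` -/
def MaxDeg {V : Type} (G : SimpleGraph V) (D : ℕ) : Prop :=
  (∀ v, (G.neighborSet v).ncard ≤ D) ∧ ∃ v, (G.neighborSet v).ncard = D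

/-- the square of a graph: distinct vertices at distance at most two -/
def sq {V : Type} (G : SimpleGraph V) : SimpleGraph V :=
  SimpleGraph.fromRel fun u v => G.Adj u v ∨ ∃ w, G.Adj u w ∧ G.Adj w v

def t1 : List ℕ :=
  [0, 1, 2, 0, 3, 4, 0, 5, 6, 0, 7, 8, 0, 9, 10, 0, 11, 12, 1, 3, 5, 1, 4, 6, 1, 7, 9, 1, 8, 10,
   1, 11, 13, 2, 3, 6, 2, 4, 5, 2, 7, 10, 2, 8, 9, 2, 12, 13, 3, 7, 11, 3, 8, 12, 3, 9, 13, 4, 7,
   12, 4, 8, 11, 4, 10, 13, 5, 7, 13, 5, 9, 11, 5, 10, 12, 6, 8, 13, 6, 9, 12, 6, 10, 11]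

def t2 : List ℕ :=
  [0, 16, 26, 0, 17, 27, 0, 18, 24, 0, 19, 25, 0, 20, 22, 0, 21, 23, 1, 8, 24, 1, 9, 15, 1, 10,
   14, 1, 13, 26, 1, 22, 27, 1, 23, 25, 2, 8, 20, 2, 9, 18, 2, 10, 13, 2, 14, 19, 2, 15, 16, 2,
   17, 21, 3, 6, 15, 3, 7, 18, 3, 10, 24, 3, 11, 23, 3, 12, 27, 3, 21, 26, 4, 6, 19, 4, 7, 16, 4,
   10, 17, 4, 11, 22, 4, 12, 25, 4, 15, 20, 5, 6, 21, 5, 7, 13, 5, 8, 25, 5, 9, 11, 5, 12, 18, 5,
   14, 22, 6, 13, 25, 6, 14, 27, 6, 20, 26, 7, 14, 24, 7, 15, 23, 7, 17, 22, 8, 11, 21, 8, 12, 17,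
   8, 15, 27, 9, 12, 16, 9, 19, 23, 9, 22, 26, 10, 11, 19, 10, 12, 26, 11, 20, 24, 13, 17, 23, 13,
   18, 20, 14, 16, 21, 16, 24, 25, 18, 19, 27]

def t3 : List ℕ :=
  [0, 1, 2, 3, 4, 5, 0, 6, 7, 8, 9, 10, 0, 11, 12, 13, 14, 15, 1, 6, 11, 16, 17, 18, 1, 7, 12, 19,
   20, 21, 2, 6, 12, 22, 23, 24, 2, 7, 11, 25, 26, 27, 3, 8, 13, 16, 19, 22, 3, 9, 14, 17, 20, 25,
   4, 8, 14, 18, 23, 26, 4, 9, 13, 21, 24, 27, 5, 10, 16, 20, 23, 27, 5, 15, 17, 19, 24, 26, 10,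
   15, 18, 21, 22, 25]

def t4 : List ℕ :=
  [0, 3, 6, 9, 12, 15, 18, 21, 24, 27, 30, 33, 36, 39, 42, 45, 48, 51, 54, 57, 60, 63, 66, 69, 72,
   75, 78, 81, 84, 87, 90, 93, 96, 99, 102, 105, 55, 73, 91, 108, 111, 114, 58, 76, 94, 117, 120,
   123, 19, 37, 97, 126, 129, 132, 22, 40, 100, 135, 138, 141, 25, 43, 61, 79, 144, 147, 64, 82,
   101, 127, 145, 150, 67, 85, 103, 130, 136, 148, 28, 44, 95, 109, 153, 156, 26, 46, 106, 112,
   118, 159, 23, 49, 56, 88, 121, 133, 1, 50, 77, 137, 160, 162, 4, 52, 80, 124, 131, 154, 7, 41,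
   59, 104, 157, 165, 10, 47, 74, 139, 146, 166, 13, 38, 89, 115, 151, 158, 16, 53, 70, 92, 128,
   161, 14, 31, 83, 107, 125, 142, 17, 34, 65, 122, 140, 155, 8, 20, 62, 119, 152, 163, 11, 35,
   86, 98, 110, 164, 2, 29, 71, 116, 143, 149, 5, 32, 68, 113, 134, 167]

def hub (b : Fin 28) (i : Fin 3) : Fin 14 := Fin.ofNat 14 (t1.getD (3 * b + i) 0)
def tri (τ : Fin 56) (i : Fin 3) : Fin 28 := Fin.ofNat 28 (t2.getD (3 * τ + i) 0)
def hi (a : Fin 14) (j : Fin 6) : Fin 28 := Fin.ofNat 28 (t3.getD (6 * a + j) 0)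
def ti (b : Fin 28) (j : Fin 6) : Fin 56 × Fin 3 :=
  (Fin.ofNat 56 (t4.getD (6 * b + j) 0 / 3), Fin.ofNat 3 (t4.getD (6 * b + j) 0))

lemma f1 : ∀ b i, ∃ j, hi (hub b i) j = b := by decide +kernel
lemma f2 : ∀ τ i, ∃ j, ti (tri τ i) j = (τ, i) := by decide +kernel
lemma f3 : ∀ b j, tri (ti b j).1 (ti b j).2 = b := by decide +kernel
lemma f4 : ∀ b b', (∃ i j, hub b i = hub b' j) ∨
    ∃ j j', (ti b j).1 = (ti b' j').1 ∧ (ti b j).2 ≠ (ti b' j').2 := by decide +kernel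

variable {F : Type} [AddCommGroup F]

def c (i : Fin 3) (y z : F) : F := ![y, z, y + z] i

def e (i : Fin 3) (x t : F) : F × F := ![(x, t), (t, x), (t, x - t)] i

lemma c1 (i : Fin 3) (y z : F) : ∃ t, e i (c i y z) t = (y, z) := by
  fin_cases i
  · exact ⟨z, rfl⟩
  · exact ⟨y, rfl⟩
  · exact ⟨y, by simp [c, e]⟩

lemma c2 (i j : Fin 3) (h : i ≠ j) (x x' : F) : ∃ y z, x = c i y z ∧ x' = c j y z := by
  fin_cases i <;> fin_cases j
  · exact absurd rfl h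
  · exact ⟨x, x', rfl, rfl⟩
  · exact ⟨x, x' - x, rfl, by simp [c]⟩
  · exact ⟨x', x, rfl, rfl⟩
  · exact absurd rfl h
  · exact ⟨x' - x, x, rfl, by simp [c]⟩
  · exact ⟨x', x - x', by simp [c], rfl⟩
  · exact ⟨x - x', x', by simp [c], rfl⟩
  · exact absurd rfl h

abbrev Vx (F : Type) (D : ℕ) := (Fin 28 × F) ⊕ Fin 14 ⊕ (Fin 56 × F × F) ⊕ Option (Fin D)

def rel {D : ℕ} : Vx F D → Vx F D → Prop
  | inl v, inr (inl a) => ∃ i, hub v.1 i = a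
  | inl v, inr (inr (inl s)) => ∃ i, tri s.1 i = v.1 ∧ v.2 = c i s.2.1 s.2.2
  | inr (inr (inr none)), inr (inr (inr (some _))) => True
  | _, _ => False

def gr (F : Type) [AddCommGroup F] (D : ℕ) : SimpleGraph (Vx F D) := SimpleGraph.fromRel rel

lemma rg {V ι : Type} [Fintype ι] {s : Set V} (f : ι → V) (h : s ⊆ Set.range f) :
    s.ncard ≤ Fintype.card ι := by
  refine (Set.ncard_le_ncard h (Set.finite_range f)).trans ?_
  rw [← Set.image_univ]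
  exact (Set.ncard_image_le Set.finite_univ).trans (by simp)

variable {D : ℕ}

lemma n1 (v : Fin 28 × F) (w : Vx F D) (h : (gr F D).Adj (inl v) w) :
    (∃ i, inr (inl (hub v.1 i)) = w) ∨
      ∃ j t, inr (inr (inl ((ti v.1 j).1, e (ti v.1 j).2 v.2 t))) = w := by
  obtain ⟨-, h⟩ := (SimpleGraph.fromRel_adj _ _ _).1 h
  rcases w with w | a | s | _ | w <;> simp only [rel, or_false, or_self] at h
  · obtain ⟨i, rfl⟩ := h
    exact Or.inl ⟨i, rfl⟩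
  · obtain ⟨i, h1, h2⟩ := h
    obtain ⟨j, hj⟩ := f2 s.1 i
    obtain ⟨t, ht⟩ := c1 i s.2.1 s.2.2
    refine Or.inr ⟨j, t, ?_⟩
    rw [← h1, hj, h2, ht]

lemma n2 (a : Fin 14) (w : Vx F D) (h : (gr F D).Adj (inr (inl a)) w) :
    ∃ j x, inl (hi a j, x) = w := by
  obtain ⟨-, h⟩ := (SimpleGraph.fromRel_adj _ _ _).1 h
  rcases w with w | a | s | _ | w <;> simp only [rel, false_or, or_self] at h
  obtain ⟨i, rfl⟩ := h
  obtain ⟨j, hj⟩ := f1 w.1 i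
  exact ⟨j, w.2, by rw [hj]⟩

lemma n3 (s : Fin 56 × F × F) (w : Vx F D) (h : (gr F D).Adj (inr (inr (inl s))) w) :
    ∃ i, inl (tri s.1 i, c i s.2.1 s.2.2) = w := by
  obtain ⟨-, h⟩ := (SimpleGraph.fromRel_adj _ _ _).1 h
  rcases w with w | a | s | _ | w <;> simp only [rel, false_or, or_self] at h
  obtain ⟨i, h1, h2⟩ := h
  exact ⟨i, by rw [h1, ← h2]⟩

lemma n4 (w : Vx F D) : (gr F D).Adj (inr (inr (inr none))) w ↔
    ∃ i, inr (inr (inr (some i))) = w := by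
  rw [gr, SimpleGraph.fromRel_adj]
  rcases w with w | a | s | _ | w <;> simp [rel]

lemma n5 (i : Fin D) (w : Vx F D) (h : (gr F D).Adj (inr (inr (inr (some i)))) w) :
    inr (inr (inr none)) = w := by
  obtain ⟨-, h⟩ := (SimpleGraph.fromRel_adj _ _ _).1 h
  rcases w with w | a | s | _ | w <;> simp only [rel, false_or, or_self] at h
  rfl

lemma deg [Fintype F] (h : 3 + 6 * Fintype.card F ≤ D) : MaxDeg (gr F D) D := by
  have e4 : ((gr F D).neighborSet (inr (inr (inr none)))).ncard = D := by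
    have : (gr F D).neighborSet (inr (inr (inr none))) =
        Set.range fun i : Fin D => inr (inr (inr (some i))) := Set.ext n4
    rw [this, Set.ncard_range_of_injective fun i j h => by simpa using h]
    simp
  refine ⟨fun v => ?_, _, e4⟩
  rcases v with v | a | s | _ | i
  · refine (rg (ι := Fin 3 ⊕ Fin 6 × F) (Sum.elim (fun i => inr (inl (hub v.1 i)))
      fun q => inr (inr (inl ((ti v.1 q.1).1, e (ti v.1 q.1).2 v.2 q.2)))) fun w hw => ?_).trans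
      (by simpa using h)
    rcases n1 v w hw with ⟨i, h⟩ | ⟨j, t, h⟩
    · exact ⟨inl i, h⟩
    · exact ⟨inr (j, t), h⟩
  · refine (rg (ι := Fin 6 × F) (fun q => inl (hi a q.1, q.2)) fun w hw => ?_).trans
      (by simp; omega)
    obtain ⟨j, x, h⟩ := n2 a w hw
    exact ⟨(j, x), h⟩
  · exact (rg _ (n3 s)).trans (by simp; omega)
  · exact e4.le
  · exact (rg (ι := Unit) (fun _ => inr (inr (inr none))) fun w hw => ⟨(), n5 i w hw⟩).trans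
      (by simp; omega)

lemma dgn : Degen 3 (gr F D) := by
  intro H ⟨v, hv⟩
  by_cases h1 : ∃ s, inr (inr (inl s)) ∈ H.verts
  · obtain ⟨s, hs⟩ := h1
    exact ⟨_, hs, (rg _ fun w hw => n3 s w (H.adj_sub hw)).trans (by simp)⟩
  by_cases h2 : ∃ s, inl s ∈ H.verts
  · obtain ⟨s, hs⟩ := h2
    refine ⟨_, hs, (rg (fun i => inr (inl (hub s.1 i))) fun w hw => ?_).trans (by simp)⟩
    rcases n1 s w (H.adj_sub hw) with h | ⟨j, t, rfl⟩
    · exact h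
    · exact absurd ⟨_, H.edge_vert (H.adj_symm hw)⟩ h1
  by_cases h3 : ∃ i, inr (inr (inr (some i))) ∈ H.verts
  · obtain ⟨i, hi⟩ := h3
    exact ⟨_, hi, (rg (ι := Unit) (fun _ => inr (inr (inr none)))
      fun w hw => ⟨(), n5 i w (H.adj_sub hw)⟩).trans (by simp)⟩
  refine ⟨v, hv, (rg (ι := Empty) Empty.elim fun w hw => ?_).trans (by simp)⟩
  have m := H.edge_vert (H.adj_symm hw)
  rcases v with v | a | s | _ | i
  · exact absurd ⟨_, hv⟩ h2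
  · obtain ⟨j, x, rfl⟩ := n2 a w (H.adj_sub hw)
    exact absurd ⟨_, m⟩ h2
  · exact absurd ⟨_, hv⟩ h1
  · obtain ⟨i, rfl⟩ := (n4 w).1 (H.adj_sub hw)
    exact absurd ⟨_, m⟩ h3
  · exact absurd ⟨_, hv⟩ h3

lemma clq [Fintype F] : ((28 * Fintype.card F : ℕ) : ℕ∞) ≤ (sq (gr F D)).chromaticNumber := by
  classical
  have : (sq (gr F D)).IsClique
      ((Finset.univ.map Function.Embedding.inl : Finset (Vx F D)) : Set (Vx F D)) := by
    intro u hu v hv huv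
    simp only [Finset.coe_map, Finset.coe_univ, Set.image_univ] at hu hv
    obtain ⟨u, rfl⟩ := hu
    obtain ⟨v, rfl⟩ := hv
    refine (SimpleGraph.fromRel_adj _ _ _).2 ⟨huv, Or.inl (Or.inr ?_)⟩
    rcases f4 u.1 v.1 with ⟨i, j, h⟩ | ⟨j, j', h1, h2⟩
    · exact ⟨inr (inl (hub u.1 i)), (SimpleGraph.fromRel_adj _ _ _).2 ⟨by simp, Or.inl ⟨i, rfl⟩⟩,
        (SimpleGraph.fromRel_adj _ _ _).2 ⟨by simp, Or.inr ⟨j, h.symm⟩⟩⟩
    · obtain ⟨y, z, e1, e2⟩ := c2 _ _ h2 u.2 v.2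
      exact ⟨inr (inr (inl ((ti u.1 j).1, y, z))),
        (SimpleGraph.fromRel_adj _ _ _).2 ⟨by simp, Or.inl ⟨_, f3 _ _, e1⟩⟩,
        (SimpleGraph.fromRel_adj _ _ _).2 ⟨by simp, Or.inr ⟨_, h1 ▸ f3 _ _, e2⟩⟩⟩
  simpa using this.card_le_chromaticNumber

theorem main (D : ℕ) (hD : 9 ≤ D) : ∃ (V : Type) (_ : Finite V) (G : SimpleGraph V),
    Degen 3 G ∧ MaxDeg G D ∧ ((28 * ((D - 3) / 6) : ℕ) : ℕ∞) ≤ (sq G).chromaticNumber := by
  have : NeZero ((D - 3) / 6) := ⟨by omega⟩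
  refine ⟨Vx (ZMod ((D - 3) / 6)) D, inferInstance, gr _ D, dgn, deg ?_, ?_⟩
  · rw [ZMod.card]; omega
  · simpa only [ZMod.card] using clq (F := ZMod ((D - 3) / 6)) (D := D)

end Pool.Agent.H19.Sq
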