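import Pool.Agent.H19.Sq

set_option autoImplicit false
set_option linter.unusedSectionVars false

namespace Pool.Agent.H19.Sq

open Sum

variable {F X : Type} [Field F] [CharP F 2] [AddCommGroup X] [Module F X] (U : AddSubgroup F)

def ph (l : F) (z : X) (t : F) : F × F × X := (l * t, l * t ^ 2, t • z)

lemma ph_add (l : F) (z : X) (s t : F) : ph l z (s + t) = ph l z s + ph l z t := by
  simp [ph, mul_add, add_smul, CharTwo.add_sq]

def ln (w : F × F × X) (l : F) (z : X) : Set (F × F × X) := Set.range fun t : U => w + ph l z t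

lemma ln_eq (w : F × F × X) (l : F) (z : X) (s : U) : ln U (w + ph l z s) l z = ln U w l z := by
  ext v
  constructor
  · rintro ⟨t, rfl⟩
    exact ⟨s + t, by simp [ph_add, add_assoc]⟩
  · rintro ⟨t, rfl⟩
    refine ⟨t - s, ?_⟩
    simp only [add_assoc, ← ph_add, AddSubgroupClass.coe_sub, add_sub_cancel]

def fm : Option F → F × F × X → F
  | none, w => w.1
  | some m, w => w.2.1 - m * w.1

def pt : Option F → F → F × X → F × F × X
  | none, c, q => (c, q)
  | some m, c, q => (q.1, c + m * q.1, q.2)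

/-- slopes used by the hubs -/
abbrev Sl := Option (Option {m : F // m ∉ U})

def sl : Sl U → Option F
  | none => none
  | some none => some 0
  | some (some m) => some m

abbrev Vy (X : Type) (D : ℕ) := (F × F × X) ⊕ (Sl U × F) ⊕ Set (F × F × X) ⊕ Option (Fin D)

def rl {D : ℕ} : Vy U X D → Vy U X D → Prop
  | inl v, inr (inl a) => fm (sl U a.1) v = a.2
  | inl v, inr (inr (inl s)) => ∃ l z, ln U v l z = s
  | inr (inr (inr none)), inr (inr (inr (some _))) => True
  | _, _ => False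

def gs (X : Type) [AddCommGroup X] [Module F X] (D : ℕ) : SimpleGraph (Vy U X D) :=
  SimpleGraph.fromRel (rl U)

variable {U} {D : ℕ}

lemma m1 (v : F × F × X) (w : Vy U X D) (h : (gs U X D).Adj (inl v) w) :
    (∃ i, inr (inl (i, fm (sl U i) v)) = w) ∨ ∃ l z, inr (inr (inl (ln U v l z))) = w := by
  obtain ⟨-, h⟩ := (SimpleGraph.fromRel_adj _ _ _).1 h
  rcases w with w | a | s | _ | w <;> simp only [rl, or_false, or_self] at h
  · exact Or.inl ⟨a.1, by rw [h]⟩
  · obtain ⟨l, z, rfl⟩ := h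
    exact Or.inr ⟨l, z, rfl⟩

lemma m2 (a : Sl U × F) (w : Vy U X D) (h : (gs U X D).Adj (inr (inl a)) w) :
    ∃ q, inl (pt (sl U a.1) a.2 q) = w := by
  obtain ⟨-, h⟩ := (SimpleGraph.fromRel_adj _ _ _).1 h
  rcases w with w | a | s | _ | w <;> simp only [rl, false_or, or_self] at h
  rw [← h]
  rcases sl U a.1 with _ | m
  · exact ⟨w.2, rfl⟩
  · exact ⟨(w.1, w.2.2), by simp [pt, fm]⟩

lemma m3 (s : Set (F × F × X)) : ∃ f : U → F × F × X, ∀ w : Vy U X D,
    (gs U X D).Adj (inr (inr (inl s))) w → ∃ i, inl (f i) = w := by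
  by_cases h0 : ∃ v l z, ln U v l z = s
  · obtain ⟨v, l, z, e⟩ := h0
    refine ⟨fun t => v + ph l z t, fun w h => ?_⟩
    obtain ⟨-, h⟩ := (SimpleGraph.fromRel_adj _ _ _).1 h
    rcases w with w | a | s | _ | w <;> simp only [rl, false_or, or_self] at h
    obtain ⟨l', z', e'⟩ := h
    have : w ∈ ln U v l z := by
      rw [e, ← e']
      exact ⟨0, by simp [ph]⟩
    obtain ⟨t, ht⟩ := this
    exact ⟨t, congrArg inl ht⟩
  · refine ⟨fun _ => 0, fun w h => ?_⟩
    obtain ⟨-, h⟩ := (SimpleGraph.fromRel_adj _ _ _).1 h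
    rcases w with w | a | s | _ | w <;> simp only [rl, false_or, or_self] at h
    exact absurd ⟨w, h⟩ h0

lemma m4 (w : Vy U X D) : (gs U X D).Adj (inr (inr (inr none))) w ↔
    ∃ i, inr (inr (inr (some i))) = w := by
  rw [gs, SimpleGraph.fromRel_adj]
  rcases w with w | a | s | _ | w <;> simp [rl]

lemma m5 (i : Fin D) (w : Vy U X D) (h : (gs U X D).Adj (inr (inr (inr (some i)))) w) :
    inr (inr (inr none)) = w := by
  obtain ⟨-, h⟩ := (SimpleGraph.fromRel_adj _ _ _).1 h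
  rcases w with w | a | s | _ | w <;> simp only [rl, false_or, or_self] at h
  rfl

variable [Fintype F] [Fintype X] [Fintype U] [Fintype (Sl U)] {k : ℕ}

lemma deg' (k0 : 1 ≤ k) (k1 : Fintype.card (Sl U) ≤ k) (k2 : Fintype.card U ≤ k)
    (h : k + Fintype.card F * Fintype.card X ≤ D) : MaxDeg (gs U X D) D := by
  have e4 : ((gs U X D).neighborSet (inr (inr (inr none)))).ncard = D := by
    have : (gs U X D).neighborSet (inr (inr (inr none))) =
        Set.range fun i : Fin D => inr (inr (inr (some i))) := Set.ext m4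
    rw [this, Set.ncard_range_of_injective fun i j h => by simpa using h]
    simp
  refine ⟨fun v => ?_, _, e4⟩
  rcases v with v | a | s | _ | i
  · refine (rg (ι := Sl U ⊕ F × X) (Sum.elim (fun i => inr (inl (i, fm (sl U i) v)))
      fun q => inr (inr (inl (ln U v q.1 q.2)))) fun w hw => ?_).trans
      (by rw [Fintype.card_sum, Fintype.card_prod]; omega)
    rcases m1 v w hw with ⟨i, h⟩ | ⟨j, t, h⟩
    · exact ⟨inl i, h⟩
    · exact ⟨inr (j, t), h⟩
  · exact (rg (ι := F × X) _ (m2 a)).trans (by rw [Fintype.card_prod]; omega)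
  · obtain ⟨f, hf⟩ := m3 (U := U) (D := D) s
    exact (rg _ hf).trans (by omega)
  · exact e4.le
  · exact (rg (ι := Unit) (fun _ => inr (inr (inr none))) fun w hw => ⟨(), m5 i w hw⟩).trans
      (by rw [Fintype.card_unit]; omega)

lemma dgn' (k0 : 1 ≤ k) (k1 : Fintype.card (Sl U) ≤ k) (k2 : Fintype.card U ≤ k) :
    Degen k (gs U X D) := by
  intro H ⟨v, hv⟩
  by_cases h1 : ∃ s, inr (inr (inl s)) ∈ H.verts
  · obtain ⟨s, hs⟩ := h1
    obtain ⟨f, hf⟩ := m3 (U := U) (D := D) s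
    exact ⟨_, hs, (rg _ fun w hw => hf w (H.adj_sub hw)).trans k2⟩
  by_cases h2 : ∃ s, inl s ∈ H.verts
  · obtain ⟨s, hs⟩ := h2
    refine ⟨_, hs, (rg (fun i => inr (inl (i, fm (sl U i) s))) fun w hw => ?_).trans k1⟩
    rcases m1 s w (H.adj_sub hw) with h | ⟨j, t, rfl⟩
    · exact h
    · exact absurd ⟨_, H.edge_vert (H.adj_symm hw)⟩ h1
  by_cases h3 : ∃ i, inr (inr (inr (some i))) ∈ H.verts
  · obtain ⟨i, hi⟩ := h3
    exact ⟨_, hi, (rg (ι := Unit) (fun _ => inr (inr (inr none)))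
      fun w hw => ⟨(), m5 i w (H.adj_sub hw)⟩).trans k0⟩
  refine ⟨v, hv, (rg (ι := Empty) Empty.elim fun w hw => ?_).trans (by simp)⟩
  have m := H.edge_vert (H.adj_symm hw)
  rcases v with v | a | s | _ | i
  · exact absurd ⟨_, hv⟩ h2
  · obtain ⟨j, rfl⟩ := m2 a w (H.adj_sub hw)
    exact absurd ⟨_, m⟩ h2
  · exact absurd ⟨_, hv⟩ h1
  · obtain ⟨i, rfl⟩ := (m4 w).1 (H.adj_sub hw)
    exact absurd ⟨_, m⟩ h3
  · exact absurd ⟨_, hv⟩ h3

lemma clq' : ((Fintype.card F * (Fintype.card F * Fintype.card X) : ℕ) : ℕ∞) ≤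
    (sq (gs U X D)).chromaticNumber := by
  classical
  have : (sq (gs U X D)).IsClique
      ((Finset.univ.map Function.Embedding.inl : Finset (Vy U X D)) : Set (Vy U X D)) := by
    intro u hu v hv huv
    simp only [Finset.coe_map, Finset.coe_univ, Set.image_univ] at hu hv
    obtain ⟨u, rfl⟩ := hu
    obtain ⟨v, rfl⟩ := hv
    refine (SimpleGraph.fromRel_adj _ _ _).2 ⟨huv, Or.inl (Or.inr ?_)⟩
    have hb : ∀ i, fm (sl U i) v = fm (sl U i) u → ∃ w, (gs U X D).Adj (inl u) w ∧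
        (gs U X D).Adj w (inl v) := fun i h =>
      ⟨inr (inl (i, fm (sl U i) u)), (SimpleGraph.fromRel_adj _ _ _).2 ⟨by simp, Or.inl rfl⟩,
        (SimpleGraph.fromRel_adj _ _ _).2 ⟨by simp, Or.inr h⟩⟩
    by_cases a0 : v.1 - u.1 = 0
    · exact hb none (sub_eq_zero.1 a0)
    by_cases b0 : v.2.1 - u.2.1 = 0
    · exact hb (some none) (by simp [sl, fm, sub_eq_zero.1 b0])
    by_cases hm : (v.2.1 - u.2.1) / (v.1 - u.1) ∈ U
    · set t := (v.2.1 - u.2.1) / (v.1 - u.1) with ht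
      have t0 : t ≠ 0 := div_ne_zero b0 a0
      have e : u + ph ((v.1 - u.1) / t) (t⁻¹ • (v.2.2 - u.2.2)) t = v := by
        refine Prod.ext ?_ (Prod.ext ?_ ?_)
        · simp [ph, t0]
        · have : (v.1 - u.1) / t * t ^ 2 = v.2.1 - u.2.1 := by
            rw [pow_two, ← mul_assoc, div_mul_cancel₀ _ t0, ht, mul_div_cancel₀ _ a0]
          simp [ph, this]
        · simp [ph, smul_smul, t0]
      have := ln_eq U u ((v.1 - u.1) / t) (t⁻¹ • (v.2.2 - u.2.2)) ⟨t, hm⟩
      rw [e] at this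
      exact ⟨inr (inr (inl (ln U u ((v.1 - u.1) / t) (t⁻¹ • (v.2.2 - u.2.2))))),
        (SimpleGraph.fromRel_adj _ _ _).2 ⟨by simp, Or.inl ⟨_, _, rfl⟩⟩,
        (SimpleGraph.fromRel_adj _ _ _).2 ⟨by simp, Or.inr ⟨_, _, this⟩⟩⟩
    · refine hb (some (some ⟨_, hm⟩)) ?_
      simp only [sl, fm]
      field_simp
      ring
  simpa using this.card_le_chromaticNumber

theorem main2 (e N : ℕ) : ∃ D, N ≤ D ∧ ∃ (V : Type) (_ : Finite V) (G : SimpleGraph V),
    Degen (2 ^ e + 2) G ∧ MaxDeg G D ∧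
      (((2 * (2 ^ e + 2) - 4) * (D - (2 ^ e + 2)) : ℕ) : ℕ∞) ≤ (sq G).chromaticNumber := by
  classical
  let K := GaloisField 2 (e + 1)
  have : Fintype K := Fintype.ofFinite K
  have cK : Fintype.card K = 2 ^ (e + 1) := by
    rw [← Nat.card_eq_fintype_card]; exact GaloisField.card 2 (e + 1) (by omega)
  obtain ⟨U0, hU⟩ := Sylow.exists_subgroup_card_pow_prime (G := Multiplicative K) 2 (n := e) (by
    rw [Nat.card_eq_fintype_card, Fintype.card_multiplicative, cK]
    exact pow_dvd_pow 2 (by omega))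
  let U : AddSubgroup K := U0.toAddSubgroup'
  have cU : Fintype.card U = 2 ^ e := by rw [← Nat.card_eq_fintype_card]; exact hU
  have cS : Fintype.card (Sl U) = 2 ^ e + 2 := by
    have : Fintype.card {m : K // m ∉ U} = 2 ^ e := by
      rw [Fintype.card_subtype_compl, cK, cU]; omega
    simp only [Fintype.card_option, this]
  have cX : Fintype.card (Fin N → K) = (2 ^ (e + 1)) ^ N := by simp [cK]
  have p1 : N < (2 ^ (e + 1)) ^ N := Nat.lt_pow_self (Nat.one_lt_two_pow (by omega))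
  have p2 : 1 ≤ 2 ^ (e + 1) := Nat.one_le_two_pow
  refine ⟨2 ^ e + 2 + 2 ^ (e + 1) * (2 ^ (e + 1)) ^ N, by nlinarith [Nat.zero_le (2 ^ e)],
    Vy U (Fin N → K) _, inferInstance, gs U _ _, dgn' (by omega) cS.le (by omega),
    deg' (k := 2 ^ e + 2) (by omega) cS.le (by omega) (by rw [cK, cX]), ?_⟩
  have := clq' (U := U) (X := Fin N → K) (D := 2 ^ e + 2 + 2 ^ (e + 1) * (2 ^ (e + 1)) ^ N)
  rw [cK, cX] at this
  rw [Nat.add_sub_cancel_left, show 2 * (2 ^ e + 2) - 4 = 2 ^ (e + 1) by omega]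
  exact this

end Pool.Agent.H19.Sq
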