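import Pool.Agent.H19.Sq

set_option autoImplicit false
set_option linter.unusedSectionVars false

namespace Pool.Agent.H19.Sq

open Sum

/-- a general clique construction: points, hubs, small vertices and a star -/
abbrev Vz (W A S : Type) (D : ℕ) := W ⊕ A ⊕ S ⊕ Option (Fin D)

section gen
variable {W A S : Type} (r1 : W → A → Prop) (r2 : W → S → Prop) {D : ℕ}

def rz : Vz W A S D → Vz W A S D → Prop
  | inl v, inr (inl a) => r1 v a
  | inl v, inr (inr (inl s)) => r2 v s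
  | inr (inr (inr none)), inr (inr (inr (some _))) => True
  | _, _ => False

def gz (D : ℕ) : SimpleGraph (Vz W A S D) := SimpleGraph.fromRel (rz r1 r2)

theorem gen [Fintype W] {k : ℕ} {I J L T : Type} [Fintype I] [Fintype J] [Fintype L] [Fintype T]
    (h1 : ∀ v, ∃ f : I → A, ∀ a, r1 v a → ∃ i, f i = a)
    (h2 : ∀ v, ∃ f : J → S, ∀ s, r2 v s → ∃ i, f i = s)
    (h3 : ∀ a, ∃ f : L → W, ∀ v, r1 v a → ∃ i, f i = v)
    (h4 : ∀ s, ∃ f : T → W, ∀ v, r2 v s → ∃ i, f i = v)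
    (cv : ∀ u v, (∃ a, r1 u a ∧ r1 v a) ∨ ∃ s, r2 u s ∧ r2 v s)
    (k0 : 1 ≤ k) (k1 : Fintype.card I ≤ k) (k2 : Fintype.card T ≤ k)
    (d1 : k + Fintype.card J ≤ D) (d2 : Fintype.card L ≤ D) :
    Degen k (gz r1 r2 D) ∧ MaxDeg (gz r1 r2 D) D ∧
      ((Fintype.card W : ℕ) : ℕ∞) ≤ (sq (gz r1 r2 D)).chromaticNumber := by
  classical
  choose f1 h1 using h1
  choose f2 h2 using h2
  choose f3 h3 using h3
  choose f4 h4 using h4
  have m1 : ∀ v w, (gz r1 r2 D).Adj (inl v) w →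
      (∃ i, inr (inl (f1 v i)) = w) ∨ ∃ j, inr (inr (inl (f2 v j))) = w := fun v w h => by
    obtain ⟨-, h⟩ := (SimpleGraph.fromRel_adj _ _ _).1 h
    rcases w with w | a | s | _ | w <;> simp only [rz, or_false, or_self] at h
    · obtain ⟨i, rfl⟩ := h1 v a h
      exact Or.inl ⟨i, rfl⟩
    · obtain ⟨i, rfl⟩ := h2 v s h
      exact Or.inr ⟨i, rfl⟩
  have m2 : ∀ a w, (gz r1 r2 D).Adj (inr (inl a)) w → ∃ i, inl (f3 a i) = w := fun a w h => by
    obtain ⟨-, h⟩ := (SimpleGraph.fromRel_adj _ _ _).1 h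
    rcases w with w | a | s | _ | w <;> simp only [rz, false_or, or_self] at h
    obtain ⟨i, rfl⟩ := h3 a w h
    exact ⟨i, rfl⟩
  have m3 : ∀ s w, (gz r1 r2 D).Adj (inr (inr (inl s))) w → ∃ i, inl (f4 s i) = w :=
    fun s w h => by
      obtain ⟨-, h⟩ := (SimpleGraph.fromRel_adj _ _ _).1 h
      rcases w with w | a | s | _ | w <;> simp only [rz, false_or, or_self] at h
      obtain ⟨i, rfl⟩ := h4 s w h
      exact ⟨i, rfl⟩
  have m4 : ∀ w, (gz r1 r2 D).Adj (inr (inr (inr none))) w ↔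
      ∃ i, inr (inr (inr (some i))) = w := fun w => by
    rw [gz, SimpleGraph.fromRel_adj]
    rcases w with w | a | s | _ | w <;> simp [rz]
  have m5 : ∀ i w, (gz r1 r2 D).Adj (inr (inr (inr (some i)))) w → inr (inr (inr none)) = w :=
    fun i w h => by
      obtain ⟨-, h⟩ := (SimpleGraph.fromRel_adj _ _ _).1 h
      rcases w with w | a | s | _ | w <;> simp only [rz, false_or, or_self] at h
      rfl
  refine ⟨?_, ?_, ?_⟩
  · intro H ⟨v, hv⟩
    by_cases g1 : ∃ s, inr (inr (inl s)) ∈ H.verts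
    · obtain ⟨s, hs⟩ := g1
      exact ⟨_, hs, (rg _ fun w hw => m3 s w (H.adj_sub hw)).trans k2⟩
    by_cases g2 : ∃ s, inl s ∈ H.verts
    · obtain ⟨s, hs⟩ := g2
      refine ⟨_, hs, (rg (fun i => inr (inl (f1 s i))) fun w hw => ?_).trans k1⟩
      rcases m1 s w (H.adj_sub hw) with h | ⟨j, rfl⟩
      · exact h
      · exact absurd ⟨_, H.edge_vert (H.adj_symm hw)⟩ g1
    by_cases g3 : ∃ i, inr (inr (inr (some i))) ∈ H.verts
    · obtain ⟨i, hi⟩ := g3
      exact ⟨_, hi, (rg (ι := Unit) (fun _ => inr (inr (inr none)))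
        fun w hw => ⟨(), m5 i w (H.adj_sub hw)⟩).trans k0⟩
    refine ⟨v, hv, (rg (ι := Empty) Empty.elim fun w hw => ?_).trans (by simp)⟩
    have m := H.edge_vert (H.adj_symm hw)
    rcases v with v | a | s | _ | i
    · exact absurd ⟨_, hv⟩ g2
    · obtain ⟨j, rfl⟩ := m2 a w (H.adj_sub hw)
      exact absurd ⟨_, m⟩ g2
    · exact absurd ⟨_, hv⟩ g1
    · obtain ⟨i, rfl⟩ := (m4 w).1 (H.adj_sub hw)
      exact absurd ⟨_, m⟩ g3
    · exact absurd ⟨_, hv⟩ g3
  · have e4 : ((gz r1 r2 D).neighborSet (inr (inr (inr none)))).ncard = D := by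
      have : (gz r1 r2 D).neighborSet (inr (inr (inr none))) =
          Set.range fun i : Fin D => inr (inr (inr (some i))) := Set.ext m4
      rw [this, Set.ncard_range_of_injective fun i j h => by simpa using h]
      simp
    refine ⟨fun v => ?_, _, e4⟩
    rcases v with v | a | s | _ | i
    · refine (rg (ι := I ⊕ J) (Sum.elim (fun i => inr (inl (f1 v i)))
        fun q => inr (inr (inl (f2 v q)))) fun w hw => ?_).trans
        (by rw [Fintype.card_sum]; omega)
      rcases m1 v w hw with ⟨i, h⟩ | ⟨j, h⟩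
      · exact ⟨inl i, h⟩
      · exact ⟨inr j, h⟩
    · exact (rg _ (m2 a)).trans d2
    · exact (rg _ (m3 s)).trans (by omega)
    · exact e4.le
    · exact (rg (ι := Unit) (fun _ => inr (inr (inr none))) fun w hw => ⟨(), m5 i w hw⟩).trans
        (by rw [Fintype.card_unit]; omega)
  · have : (sq (gz r1 r2 D)).IsClique
        ((Finset.univ.map Function.Embedding.inl : Finset (Vz W A S D)) : Set (Vz W A S D)) := by
      intro u hu v hv huv
      simp only [Finset.coe_map, Finset.coe_univ, Set.image_univ] at hu hv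
      obtain ⟨u, rfl⟩ := hu
      obtain ⟨v, rfl⟩ := hv
      refine (SimpleGraph.fromRel_adj _ _ _).2 ⟨huv, Or.inl (Or.inr ?_)⟩
      rcases cv u v with ⟨a, a1, a2⟩ | ⟨a, a1, a2⟩
      · exact ⟨inr (inl a), (SimpleGraph.fromRel_adj _ _ _).2 ⟨by simp, Or.inl a1⟩,
          (SimpleGraph.fromRel_adj _ _ _).2 ⟨by simp, Or.inr a2⟩⟩
      · exact ⟨inr (inr (inl a)), (SimpleGraph.fromRel_adj _ _ _).2 ⟨by simp, Or.inl a1⟩,
          (SimpleGraph.fromRel_adj _ _ _).2 ⟨by simp, Or.inr a2⟩⟩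
    simpa using this.card_le_chromaticNumber

end gen

variable {q : ℕ} [Fact q.Prime] (H : Subgroup (ZMod q)ˣ) (X : Type) [AddCommGroup X]
  [Module (ZMod q) X]

abbrev Wp := ZMod q × ZMod q × H × X

/-- elements of the subgroup as field elements -/
def co (t : H) : ZMod q := ((t : (ZMod q)ˣ) : ZMod q)

abbrev Sp := Option {m : ZMod q // m ∉ Set.range fun s : H => -co H s}

abbrev Sm := (Wp H X × (ZMod q)ˣ × X) ⊕ (H × ZMod q × H × Fin 4 × Fin 4 × X × X)

variable {H X}

def fp : Sp H → Wp H X → ZMod q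
  | none, w => w.1
  | some m, w => w.2.1 - m * w.1

def mv (w : Wp H X) (l : ZMod q) (z : X) (t : H) : Wp H X :=
  (w.1 + l * co H t, w.2.1 + l * (co H t)⁻¹, w.2.2.1 * t, w.2.2.2 + co H t • z)

def pa (a : ZMod q) : Fin 4 := Fin.ofNat 4 a.val

def r2 (w : Wp H X) : Sm H X → Prop
  | inl s => ∃ t, w = mv s.1 s.2.1 s.2.2 t
  | inr (s, b, c, i, j, y, z) => i ≤ j ∧ (pa w.1 = i ∨ pa w.1 = j) ∧
      w = (w.1, b - co H s * w.1, c, y + w.1 • z)

lemma co0 (t : H) : co H t ≠ 0 := Units.ne_zero _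

lemma xs {a b : ZMod q} (h : a - b ≠ 0) (x y : X) :
    y = x - b • (a - b)⁻¹ • (y - x) + a • (a - b)⁻¹ • (y - x) := by
  rw [sub_add, ← sub_smul, smul_smul, ← neg_sub a, neg_mul, mul_inv_cancel₀ h]
  simp

lemma cvr (ho : Odd (Nat.card H)) (u v : Wp H X) :
    (∃ a : Sp H × ZMod q, fp a.1 u = a.2 ∧ fp a.1 v = a.2) ∨ ∃ s, r2 u s ∧ r2 v s := by
  by_cases a0 : v.1 - u.1 = 0
  · exact Or.inl ⟨(none, u.1), rfl, sub_eq_zero.1 a0⟩
  by_cases hm : (v.2.1 - u.2.1) / (v.1 - u.1) ∈ Set.range fun s : H => -co H s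
  swap
  · refine Or.inl ⟨(some ⟨_, hm⟩, _), rfl, ?_⟩
    simp only [fp]
    field_simp
    ring
  obtain ⟨s, hs⟩ := hm
  have hs' : v.2.1 = u.2.1 - co H s * (v.1 - u.1) := by
    beta_reduce at hs
    rw [eq_div_iff a0] at hs
    linear_combination -hs
  refine Or.inr ?_
  by_cases hc : v.2.2.1 = u.2.2.1
  · refine ⟨inr (s, u.2.1 + co H s * u.1, u.2.2.1, min (pa u.1) (pa v.1), max (pa u.1) (pa v.1),
      u.2.2.2 - u.1 • (v.1 - u.1)⁻¹ • (v.2.2.2 - u.2.2.2), (v.1 - u.1)⁻¹ • (v.2.2.2 - u.2.2.2)),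
      ⟨min_le_max, (le_total _ _).imp (fun h => (min_eq_left h).symm) fun h => (max_eq_left h).symm,
        by simp⟩, min_le_max,
      (le_total _ _).imp (fun h => (min_eq_right h).symm) fun h => (max_eq_right h).symm,
      Prod.ext rfl (Prod.ext ?_ (Prod.ext hc ?_))⟩
    · simp only [hs']; ring
    · exact xs a0 _ _
  · obtain ⟨n, hn⟩ := ho
    set c := v.2.2.1 * u.2.2.1⁻¹ with hcd
    set t := (c * s⁻¹) ^ (n + 1) with ht
    have t2 : t * t = c * s⁻¹ := by
      rw [ht, ← pow_add, show n + 1 + (n + 1) = Nat.card H + 1 by omega, pow_succ,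
        pow_card_eq_one', one_mul]
    have cm : ∀ a b : H, co H (a * b) = co H a * co H b := fun a b => by simp [co]
    have ci : ∀ a : H, co H a⁻¹ = (co H a)⁻¹ := fun a => Units.val_inv_eq_inv_val _
    have c1 : co H c ≠ 1 := fun h => hc (by
      have : c = 1 := Subtype.ext (Units.ext h)
      exact mul_inv_eq_one.1 this)
    have t3 := congrArg (co H) t2
    rw [cm, cm, ci] at t3
    have T0 := co0 t
    have C0 := co0 c
    have S0 := co0 s
    have d0 : co H t - co H (t * c⁻¹) ≠ 0 := by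
      rw [cm, ci, sub_ne_zero]
      intro h
      apply c1
      field_simp at h
      exact h
    set l := (v.1 - u.1) / (co H t - co H (t * c⁻¹)) with hl
    set z := (co H t - co H (t * c⁻¹))⁻¹ • (v.2.2.2 - u.2.2.2) with hz
    refine ⟨inl ((u.1 - l * co H (t * c⁻¹), u.2.1 - l * (co H (t * c⁻¹))⁻¹, u.2.2.1 * (t * c⁻¹)⁻¹,
      u.2.2.2 - co H (t * c⁻¹) • z), Units.mk0 l (div_ne_zero a0 d0), z), ⟨t * c⁻¹, by
        simp only [mv, Units.val_mk0, sub_add_cancel, inv_mul_cancel_right]⟩,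
      t, Prod.ext ?_ (Prod.ext ?_ (Prod.ext ?_ ?_))⟩
    · simp only [mv, Units.val_mk0]
      have : l * (co H t - co H (t * c⁻¹)) = v.1 - u.1 := div_mul_cancel₀ _ d0
      linear_combination -this
    · simp only [mv, Units.val_mk0, hs']
      have : l * (co H t - co H (t * c⁻¹)) = v.1 - u.1 := div_mul_cancel₀ _ d0
      rw [← this, cm, ci]
      have e : co H s = co H c / (co H t * co H t) := by rw [t3]; field_simp
      rw [e]
      field_simp
      ring
    · simp only [mv, hcd, mul_inv_rev, inv_inv]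
      rw [mul_assoc, mul_assoc, inv_mul_cancel, mul_one, mul_comm v.2.2.1, mul_inv_cancel_left]
    · exact xs d0 _ _

theorem main3 (q m k N : ℕ) (hq : q.Prime) (hm : q = 4 * m + 3) (hk : q + 3 ≤ 2 * k) :
    ∃ D, N ≤ D ∧ ∃ (V : Type) (_ : Finite V) (G : SimpleGraph V), Degen k G ∧ MaxDeg G D ∧
      ∃ n : ℕ, (n : ℕ∞) ≤ (sq G).chromaticNumber ∧ q ^ 2 * (D - k) ≤ (q + 3) * n := by
  classical
  have : Fact q.Prime := ⟨hq⟩
  obtain ⟨g, hg⟩ := IsCyclic.exists_ofOrder_eq_natCard (α := (ZMod q)ˣ)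
  rw [Nat.card_eq_fintype_card, ZMod.card_units] at hg
  let H := Subgroup.zpowers (g ^ 2)
  have cH : Nat.card H = 2 * m + 1 := by
    rw [Nat.card_zpowers, orderOf_pow_of_dvd two_ne_zero (by omega), hg]; omega
  have cH' : Fintype.card H = 2 * m + 1 := by rw [← Nat.card_eq_fintype_card, cH]
  let X := Fin N → ZMod q
  have cX : Fintype.card X = q ^ N := by simp [X]
  have p1 : N < q ^ N := Nat.lt_pow_self hq.one_lt
  have cS : Fintype.card (Sp H) = 2 * m + 3 := by
    have e : Fintype.card {x // x ∈ Set.range fun s : H => -co H s} = 2 * m + 1 := by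
      rw [← cH, ← Nat.card_eq_fintype_card]
      exact Nat.card_range_of_injective fun s t h => Subtype.ext (Units.ext (neg_injective h))
    rw [Fintype.card_option, Fintype.card_subtype_compl, ZMod.card, e]
    omega
  have := gen (W := Wp H X) (fun w (a : Sp H × ZMod q) => fp a.1 w = a.2) r2
    (D := k + (2 * m + 1) * (q + 3) * q ^ N) (k := k) (I := Sp H)
    (J := (H × (ZMod q)ˣ × X) ⊕ (H × Fin 4 × X)) (L := ZMod q × H × X)
    (T := Fin 2 × Fin (m + 1))
    (fun v => ⟨fun i => (i, fp i v), fun a h => ⟨a.1, Prod.ext rfl h⟩⟩)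
    (fun v => ⟨Sum.elim (fun x => inl ((v.1 - x.2.1 * co H x.1, v.2.1 - x.2.1 * (co H x.1)⁻¹,
        v.2.2.1 * x.1⁻¹, v.2.2.2 - co H x.1 • x.2.2), x.2))
      fun x => inr (x.1, v.2.1 + co H x.1 * v.1, v.2.2.1, min (pa v.1) x.2.1, max (pa v.1) x.2.1,
        v.2.2.2 - v.1 • x.2.2, x.2.2), by
      rintro (s | ⟨s, b, c, i, j, y, z⟩) h
      · obtain ⟨t, rfl⟩ := h
        exact ⟨inl (t, s.2), by simp [mv]⟩
      · obtain ⟨h1, h2, h3⟩ := h
        rcases h2 with h2 | h2
        · refine ⟨inr (s, j, z), ?_⟩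
          rw [h3]
          simp [h2, h1]
        · refine ⟨inr (s, i, z), ?_⟩
          rw [h3]
          simp [h2, h1]⟩)
    (by
      rintro ⟨_ | a, c⟩
      · exact ⟨fun x => (c, x), fun v h => ⟨v.2, by rw [← show v.1 = c from h]⟩⟩
      · exact ⟨fun x => (x.1, c + a * x.1, x.2), fun v h => ⟨(v.1, v.2.2), by
          rw [← show v.2.1 - a * v.1 = c from h]; simp⟩⟩)
    (by
      rintro (s | ⟨s, b, c, i, j, y, z⟩)
      · obtain ⟨e⟩ : Nonempty (H ↪ Fin 2 × Fin (m + 1)) :=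
          Function.Embedding.nonempty_of_card_le (by
            rw [cH', Fintype.card_prod, Fintype.card_fin, Fintype.card_fin]; omega)
        obtain ⟨f, hf⟩ : ∃ f : Fin 2 × Fin (m + 1) → H, Function.Surjective f :=
          ⟨_, Function.invFun_surjective e.injective⟩
        refine ⟨fun x => mv s.1 s.2.1 s.2.2 (f x), fun v ⟨t, h⟩ => ?_⟩
        obtain ⟨x, rfl⟩ := hf t
        exact ⟨x, h.symm⟩
      · let a : Fin 2 × Fin (m + 1) → ZMod q := fun x => ((4 * x.2.1 + (![i, j] x.1).1 : ℕ) : ZMod q)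
        refine ⟨fun x => (a x, b - co H s * a x, c, y + a x • z), fun v ⟨_, h2, h3⟩ => ?_⟩
        have b1 := ZMod.val_lt v.1
        have b2 : ((4 * (v.1.val / 4) + v.1.val % 4 : ℕ) : ZMod q) = v.1 := by
          rw [Nat.div_add_mod, ZMod.natCast_zmod_val]
        have : ∃ x, a x = v.1 := by
          rcases h2 with rfl | rfl
          · exact ⟨(0, ⟨v.1.val / 4, by omega⟩), b2⟩
          · exact ⟨(1, ⟨v.1.val / 4, by omega⟩), b2⟩
        obtain ⟨x, hx⟩ := this
        exact ⟨x, by rw [h3]; simp only [hx]⟩)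
    (cvr (by rw [cH]; exact odd_two_mul_add_one m)) (by omega) (by omega) (by simp; omega)
    (by
      simp only [Fintype.card_sum, Fintype.card_prod, cH', cX, ZMod.card_units, Fintype.card_fin]
      rw [show q - 1 = 4 * m + 2 by omega, show q + 3 = 4 * m + 6 by omega]
      exact le_of_eq (by ring))
    (by
      simp only [Fintype.card_prod, cH', cX, ZMod.card]
      nlinarith [Nat.zero_le ((2 * m + 1) * q ^ N)])
  have f1 : Finite (Wp H X) := inferInstance
  have f2 : Finite (Sp H × ZMod q) := inferInstance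
  have f3 : Finite (H × ZMod q × H × Fin 4 × Fin 4 × X × X) := inferInstance
  have f4 : Finite (Sm H X) := inferInstance
  refine ⟨_, ?_, _, inferInstance, _, this.1, this.2.1, _, this.2.2, ?_⟩
  · have : 1 ≤ (2 * m + 1) * (q + 3) := Nat.mul_pos (by omega) (by omega)
    nlinarith
  · have : Fintype.card (Wp H X) = q * (q * ((2 * m + 1) * q ^ N)) := by
      simp only [Fintype.card_prod, cH', cX, ZMod.card]
    rw [this, Nat.add_sub_cancel_left]
    exact le_of_eq (by ring)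

end Pool.Agent.H19.Sq
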