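import Mathlib

set_option autoImplicit false

namespace Pool.Agent.H19.TChar
open Filter Topology

noncomputable def L (f : ℕ → UnitAddCircle) : UnitAddCircle := ((hyperfilter ℕ).map f).lim

lemma L_tend (f : ℕ → UnitAddCircle) : Tendsto f (hyperfilter ℕ) (𝓝 (L f)) :=
  ((hyperfilter ℕ).map f).le_nhds_lim

lemma L_add (f g : ℕ → UnitAddCircle) : L (f + g) = L f + L g :=
  tendsto_nhds_unique (L_tend _) ((L_tend f).add (L_tend g))

lemma L_ev {f : ℕ → UnitAddCircle} {c : UnitAddCircle} (h : ∀ᶠ i in atTop, f i = c) : L f = c := by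
  refine tendsto_nhds_unique (L_tend _) (tendsto_const_nhds.congr' ?_)
  rw [← Nat.cofinite_eq_atTop] at h
  exact (h.filter_mono hyperfilter_le_cofinite).mono fun i hi => hi.symm

variable {Y : Type} [AddCommGroup Y] [TopologicalSpace Y]

theorem tseq (K : Set Y) (a : Y) (e : ℕ → Y) (he : ∀ i, e i ∈ K)
    (hK : ∀ y, ∃ m : ℕ, y - m • a ∈ K) (v : ℕ → Y →ₜ+ UnitAddCircle)
    (h1 : ∀ x ∈ K, Tendsto (fun n => v n x) atTop (𝓝 0))
    (h2 : ∀ n, ∀ᶠ i in atTop, v n (e i) = v n a) :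
    ∃ τ : TopologicalSpace (Y →ₜ+ UnitAddCircle), @IsTopologicalAddGroup _ τ _ ∧ @T2Space _ τ ∧
      Tendsto v atTop (@nhds _ τ 0) := by
  let φ : (Y →ₜ+ UnitAddCircle) →+ (K → UnitAddCircle) × UnitAddCircle :=
    AddMonoidHom.mk' (fun χ => (fun x => χ x, χ a - L fun i => χ (e i))) fun χ ψ => by
      refine Prod.ext rfl ?_
      change (χ a + ψ a) - L ((fun i => χ (e i)) + fun i => ψ (e i)) =
        (χ a - L fun i => χ (e i)) + (ψ a - L fun i => ψ (e i))
      rw [L_add, add_sub_add_comm]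
  have hφ : Function.Injective φ := by
    rw [injective_iff_map_eq_zero]
    intro χ h
    have k1 : ∀ x ∈ K, χ x = 0 := fun x hx => congrFun (congrArg Prod.fst h) ⟨x, hx⟩
    have k2 : χ a - L (fun i => χ (e i)) = 0 := congrArg Prod.snd h
    rw [L_ev (c := 0) (.of_forall fun i => k1 _ (he i)), sub_zero] at k2
    ext y
    obtain ⟨m, hm⟩ := hK y
    have := k1 _ hm
    rwa [map_sub, map_nsmul, k2, smul_zero, sub_zero] at this
  refine ⟨TopologicalSpace.induced φ inferInstance, topologicalAddGroup_induced φ,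
    @Topology.IsEmbedding.t2Space _ _ (TopologicalSpace.induced φ inferInstance) _ _ _
      (@Topology.IsEmbedding.mk _ _ (TopologicalSpace.induced φ inferInstance) _ _
        (@Topology.IsInducing.mk _ _ (TopologicalSpace.induced φ inferInstance) _ _ rfl) hφ), ?_⟩
  rw [nhds_induced, tendsto_comap_iff, map_zero]
  refine Tendsto.prodMk_nhds (tendsto_pi_nhds.2 fun x => h1 x x.2) ?_
  refine tendsto_const_nhds.congr fun n => ?_
  change 0 = v n a - L fun i => v n (e i)
  rw [L_ev (h2 n), sub_self]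

theorem neg (a : Y) (h4 : 2 • (2 • a) = 0) (h2 : ∀ y : Y, 2 • y = 0 ∨ 2 • y = 2 • a)
    (w : ℕ → Y →ₜ+ UnitAddCircle) (τ : TopologicalSpace (Y →ₜ+ UnitAddCircle))
    (hτ : @IsTopologicalAddGroup _ τ _) (ht : @T2Space _ τ) (hw : Tendsto w atTop (@nhds _ τ 0)) :
    Tendsto (fun n => w n (2 • a)) atTop (𝓝 0) := by
  have ev : ∀ (χ : Y →ₜ+ UnitAddCircle) y, (χ + χ) y = χ (2 • y) := fun χ y => by
    rw [two_nsmul, map_add]; rfl
  have hF : (Set.range fun χ : Y →ₜ+ UnitAddCircle => χ + χ).Finite := by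
    refine Set.Finite.of_finite_image (f := fun ψ => ψ a)
      ((AddCircle.finite_torsion (1 : ℝ) (n := 2) two_pos).subset ?_) ?_
    · rintro _ ⟨_, ⟨χ, rfl⟩, rfl⟩
      change 2 • (χ + χ) a = 0
      rw [ev, ← map_nsmul, h4, map_zero]
    · rintro _ ⟨χ, rfl⟩ _ ⟨ψ, rfl⟩ h
      ext y
      simp only [ev] at h ⊢
      rcases h2 y with k | k <;> rw [k]
      · rw [map_zero, map_zero]
      · exact h
  have hc := (hF.subset (Set.diff_subset (t := {0}))).isClosed.isOpen_compl.mem_nhds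
    (show (0 : Y →ₜ+ UnitAddCircle) ∈ _ by simp)
  have h3 := hw.add hw
  rw [add_zero] at h3
  refine tendsto_const_nhds.congr' ((h3.eventually hc).mono fun n hn => ?_)
  have : w n + w n = 0 := by
    by_contra k
    exact hn ⟨⟨_, rfl⟩, k⟩
  change 0 = w n (2 • a)
  rw [← ev, this]; rfl

def X : Type := ZMod 4 × (ℕ →₀ ZMod 2)

noncomputable instance : AddCommGroup X := inferInstanceAs (AddCommGroup (ZMod 4 × (ℕ →₀ ZMod 2)))
instance : TopologicalSpace X := ⊥
instance : DiscreteTopology X := ⟨rfl⟩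

noncomputable def tail (n : ℕ) : (ℕ →₀ ZMod 2) →+ ZMod 2 :=
  Finsupp.liftAddHom fun i => if n ≤ i then AddMonoidHom.id _ else 0

lemma tail_single (n i : ℕ) : tail n (Finsupp.single i 1) = if n ≤ i then 1 else 0 := by
  rw [tail, Finsupp.liftAddHom_apply_single]; split_ifs <;> rfl

lemma tail_ev (x : ℕ →₀ ZMod 2) : ∀ᶠ n in atTop, tail n x = 0 := by
  induction x using Finsupp.induction_linear with
  | zero => simp
  | add f g hf hg => filter_upwards [hf, hg] with n h1 h2; rw [map_add, h1, h2, add_zero]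
  | single i c =>
    filter_upwards [eventually_gt_atTop i] with n hn
    rw [tail, Finsupp.liftAddHom_apply_single, if_neg (by omega)]; rfl

noncomputable def p1 : X →+ ZMod 4 := AddMonoidHom.fst _ _
noncomputable def p2 : X →+ (ℕ →₀ ZMod 2) := AddMonoidHom.snd _ _
noncomputable def a : X := ((1 : ZMod 4), (0 : ℕ →₀ ZMod 2))
noncomputable def e (i : ℕ) : X := ((0 : ZMod 4), Finsupp.single i (1 : ZMod 2))

/-- the character `(s, x) ↦ k s / 4 + (tail n x) / 2` -/
noncomputable def c (k : ℕ) (n : ℕ) : X →+ UnitAddCircle :=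
  k • (ZMod.toAddCircle.comp p1) + ZMod.toAddCircle.comp ((tail n).comp p2)

lemma c_apply (k n : ℕ) (x : X) :
    c k n x = ZMod.toAddCircle (k • p1 x) + ZMod.toAddCircle (tail n (p2 x)) := by
  rw [map_nsmul]; rfl

lemma c_tend (k : ℕ) (x : X) :
    Tendsto (fun n => c k n x) atTop (𝓝 0) ↔ k • p1 x = 0 := by
  have : Tendsto (fun n => c k n x) atTop (𝓝 (ZMod.toAddCircle (k • p1 x))) :=
    tendsto_const_nhds.congr' ((tail_ev (p2 x)).mono fun n hn => by
      simp only [c_apply, hn, map_zero, add_zero])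
  refine ⟨fun h => ZMod.toAddCircle_injective 4 ?_, fun h => by rwa [h, map_zero] at this⟩
  rw [map_zero]; exact tendsto_nhds_unique this h

lemma half : ZMod.toAddCircle (2 : ZMod 4) = ZMod.toAddCircle (1 : ZMod 2) := by
  have h1 := ZMod.toAddCircle_natCast (N := 4) 2
  have h2 := ZMod.toAddCircle_natCast (N := 2) 1
  push_cast at h1 h2
  rw [h1, h2]; norm_num

lemma c_e (k n : ℕ) : ∀ᶠ i in atTop, c k n (e i) = ZMod.toAddCircle (2 : ZMod 4) := by
  filter_upwards [eventually_ge_atTop n] with i hi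
  rw [c_apply, show p1 (e i) = 0 from rfl, show p2 (e i) = Finsupp.single i 1 from rfl, tail_single,
    if_pos hi, smul_zero, map_zero, zero_add, half]

lemma c_a (k m n : ℕ) : c k n (m • a) = ZMod.toAddCircle ((k * m : ℕ) : ZMod 4) := by
  rw [c_apply, map_nsmul p1, map_nsmul p2, show p1 a = 1 from rfl, show p2 a = 0 from rfl]
  simp

lemma two_smul_X (y : X) : 2 • y = 0 ∨ 2 • y = 2 • a := by
  have h2 : ∀ x : ℕ →₀ ZMod 2, 2 • x = 0 := fun x => by
    ext i
    change 2 • x i = 0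
    generalize x i = t
    revert t; decide
  have h1 : ∀ s : ZMod 4, 2 • s = 0 ∨ 2 • s = 2 • (1 : ZMod 4) := by decide
  rcases h1 y.1 with h | h
  · exact .inl (Prod.ext h (h2 _))
  · exact .inr (Prod.ext h ((h2 _).trans (h2 _).symm))

lemma four_a : 2 • (2 • a) = 0 := Prod.ext (show 2 • (2 • (1 : ZMod 4)) = 0 by decide)
  (show 2 • (2 • (0 : ℕ →₀ ZMod 2)) = 0 by simp)

lemma p1_a (m : ℕ) : p1 (m • a) = m := by
  rw [map_nsmul, show p1 a = 1 from rfl]; simp

noncomputable def res (S : AddSubgroup X) (f : X →+ UnitAddCircle) : S →ₜ+ UnitAddCircle :=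
  ⟨f.comp S.subtype, continuous_of_discreteTopology⟩

end Pool.Agent.H19.TChar
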