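import Mathlib

set_option autoImplicit false

namespace Pool.Agent.H19.Teach

/-- `T` is a no-clash teacher for the concept class `𝒞`. -/
def Teacher {n : ℕ} (𝒞 : Finset (Finset (Fin n))) (T : Finset (Fin n) → Finset (Fin n)) : Prop :=
  ∀ C ∈ 𝒞, ∀ C' ∈ 𝒞, C ≠ C' → ∃ x ∈ T C ∪ T C', ¬ (x ∈ C ↔ x ∈ C')

/-- The no-clash teaching dimension. -/
noncomputable def NCTD {n : ℕ} (𝒞 : Finset (Finset (Fin n))) : ℕ :=
  sInf {d | ∃ T, Teacher 𝒞 T ∧ ∀ C ∈ 𝒞, (T C).card ≤ d}

theorem main (n d u : ℕ) (𝒞 : Finset (Finset (Fin n))) (h : NCTD 𝒞 = d) (hdu : d ≤ u)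
    (hun : u ≤ n) : 𝒞.card * u.choose d ≤ 2 ^ u * n.choose d := by
  classical
  have hne : {d | ∃ T, Teacher 𝒞 T ∧ ∀ C ∈ 𝒞, (T C).card ≤ d}.Nonempty := by
    refine ⟨n, fun _ => Finset.univ, ?_, fun _ _ => by simp⟩
    intro C _ C' _ hne
    by_contra hc
    apply hne
    ext x
    by_contra hx
    exact hc ⟨x, by simp, hx⟩
  have hm := Nat.sInf_mem hne
  change NCTD 𝒞 ∈ _ at hm
  rw [h] at hm
  obtain ⟨T, hT, hd⟩ := hm
  have ex : ∀ C, ∃ S : Finset (Fin n), C ∈ 𝒞 → T C ⊆ S ∧ S.card = d := by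
    intro C
    by_cases hC : C ∈ 𝒞
    · obtain ⟨S, hS⟩ := Finset.exists_superset_card_eq (hd C hC) (by simpa using hdu.trans hun)
      exact ⟨S, fun _ => hS⟩
    · exact ⟨∅, fun h => absurd h hC⟩
  choose S hS using ex
  have key : 𝒞.card * (n - d).choose (u - d) ≤
      (Finset.powersetCard u (Finset.univ : Finset (Fin n))).card * 2 ^ u := by
    refine Finset.card_mul_le_card_mul (fun C U => S C ⊆ U) (fun C hC => ?_) (fun U hU => ?_)
    · have := Finset.card_filter_powersetCard_subset (S C) Finset.univ u (Finset.subset_univ _)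
        (by rw [(hS C hC).2]; exact hdu)
      rw [(hS C hC).2, Finset.card_univ, Fintype.card_fin] at this
      exact this.ge
    · rw [← (Finset.mem_powersetCard.1 hU).2, ← Finset.card_powerset]
      refine Finset.card_le_card_of_injOn (fun C => C ∩ U) ?_ ?_
      · intro C _
        simp
      · intro C hC C' hC' e
        simp only [Finset.coe_bipartiteBelow, Set.mem_ofPred_eq] at hC hC'
        by_contra hne
        obtain ⟨x, hx, hx'⟩ := hT C hC.1 C' hC'.1 hne
        have hxU : x ∈ U := by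
          rcases Finset.mem_union.1 hx with h | h
          · exact hC.2 ((hS C hC.1).1 h)
          · exact hC'.2 ((hS C' hC'.1).1 h)
        apply hx'
        have : x ∈ C ∩ U ↔ x ∈ C' ∩ U := by rw [show C ∩ U = C' ∩ U from e]
        simpa [hxU] using this
  rw [Finset.card_powersetCard, Finset.card_univ, Fintype.card_fin] at key
  have hid : n.choose u * u.choose d = n.choose d * (n - d).choose (u - d) := Nat.choose_mul hdu
  have hpos : 0 < (n - d).choose (u - d) := Nat.choose_pos (by omega)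
  apply Nat.le_of_mul_le_mul_right _ hpos
  calc 𝒞.card * u.choose d * (n - d).choose (u - d)
      = 𝒞.card * (n - d).choose (u - d) * u.choose d := by ring
    _ ≤ n.choose u * 2 ^ u * u.choose d := Nat.mul_le_mul_right _ key
    _ = 2 ^ u * (n.choose u * u.choose d) := by ring
    _ = 2 ^ u * n.choose d * (n - d).choose (u - d) := by rw [hid]; ring

end Pool.Agent.H19.Teach
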