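import Pool.Agent.H19.Teach

set_option autoImplicit false

namespace Pool.Agent.H19.Teach

open Finset

lemma few {n : ℕ} {𝒞 : Finset (Finset (Fin n))} {S : Finset (Fin n) → Finset (Fin n)}
    (hT : Teacher 𝒞 S) (U : Finset (Fin n)) : (𝒞.filter (fun C => S C ⊆ U)).card ≤ 2 ^ U.card := by
  rw [← Finset.card_powerset]
  refine Finset.card_le_card_of_injOn (fun C => C ∩ U) ?_ ?_
  · intro C _
    simp
  · intro C hC C' hC' e
    simp only [Finset.coe_filter, Set.mem_ofPred_eq] at hC hC'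
    by_contra hne
    obtain ⟨x, hx, hx'⟩ := hT C hC.1 C' hC'.1 hne
    have hxU : x ∈ U := by
      rcases Finset.mem_union.1 hx with h | h
      · exact hC.2 h
      · exact hC'.2 h
    apply hx'
    have : x ∈ C ∩ U ↔ x ∈ C' ∩ U := by rw [show C ∩ U = C' ∩ U from e]
    simpa [hxU] using this

lemma two {n : ℕ} {𝒞 : Finset (Finset (Fin n))} {S : Finset (Fin n) → Finset (Fin n)}
    (hT : Teacher 𝒞 S) (hS : ∀ C ∈ 𝒞, (S C).card = 2) (v : ℕ) :
    ∀ V : Finset (Fin n), V.card = v →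
      4 * (𝒞.filter (fun C => S C ⊆ V)).card + 4 * v ≤ 5 * v ^ 2 + 4 := by
  induction v using Nat.strong_induction_on with
  | _ v ih =>
  intro V hV
  by_cases hA : ∀ P ∈ V.powersetCard 2, (𝒞.filter (fun C => S C = P)).card ≤ 2
  · have h1 : (𝒞.filter (fun C => S C ⊆ V)).card ≤ 2 * (V.powersetCard 2).card := by
      refine Finset.card_le_mul_card_image_of_maps_to (f := S) (fun C hC => ?_) 2
        (fun P hP => le_trans (card_le_card ?_) (hA P hP))
      · rw [mem_filter] at hC
        exact mem_powersetCard.2 ⟨hC.2, hS C hC.1⟩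
      · intro C hC
        simp only [mem_filter] at hC ⊢
        exact ⟨hC.1.1, hC.2⟩
    rw [card_powersetCard, hV, Nat.choose_two_right] at h1
    have h2 : 2 * (v * (v - 1) / 2) ≤ v * (v - 1) := Nat.mul_div_le _ _
    rcases v with _ | v
    · omega
    · simp only [Nat.add_sub_cancel] at h1 h2
      nlinarith
  push Not at hA
  obtain ⟨P, hP, hw⟩ := hA
  obtain ⟨hPV, hP2⟩ := mem_powersetCard.1 hP
  obtain ⟨x, y, hxy, rfl⟩ := card_eq_two.1 hP2
  have hc : (V \ {x, y}).card + 2 = v := by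
    rw [← hV, ← hP2]; exact card_sdiff_add_card_eq_card hPV
  have hI := ih _ (by omega) (V \ {x, y}) rfl
  have hw4 : (𝒞.filter (fun C => S C = {x, y})).card ≤ 4 := by
    have := few hT {x, y}
    rw [hP2] at this
    refine le_trans (card_le_card ?_) this
    intro C hC
    simp only [mem_filter] at hC ⊢
    exact ⟨hC.1, hC.2.le⟩
  have hb : ∀ z, (𝒞.filter (fun C => S C ⊆ {x, y, z} ∧ S C ≠ {x, y})).card +
      (𝒞.filter (fun C => S C = {x, y})).card ≤ 8 := by
    intro z
    have h3 : 2 ^ ({x, y, z} : Finset (Fin n)).card ≤ 2 ^ 3 :=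
      Nat.pow_le_pow_right (by norm_num) card_le_three
    refine le_trans ?_ ((few hT {x, y, z}).trans h3)
    rw [← card_union_of_disjoint]
    · refine card_le_card ?_
      intro C hC
      simp only [mem_union, mem_filter] at hC ⊢
      rcases hC with h | h
      · exact ⟨h.1, h.2.1⟩
      · refine ⟨h.1, ?_⟩
        rw [h.2]
        intro a ha
        simp only [mem_insert, mem_singleton] at ha ⊢
        tauto
    · rw [disjoint_filter]
      exact fun C _ h => h.2
  have hcov : 𝒞.filter (fun C => S C ⊆ V) ⊆ 𝒞.filter (fun C => S C ⊆ V \ {x, y}) ∪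
      𝒞.filter (fun C => S C = {x, y}) ∪
      (V \ {x, y}).biUnion (fun z => 𝒞.filter (fun C => S C ⊆ {x, y, z} ∧ S C ≠ {x, y})) := by
    intro C hC
    rw [mem_filter] at hC
    obtain ⟨p, q, hpq, e⟩ := card_eq_two.1 (hS C hC.1)
    have hV' := hC.2
    simp only [mem_union, mem_filter, mem_biUnion, hC.1, true_and]
    rw [e] at hV' ⊢
    have hp : p ∈ V := hV' (by simp)
    have hq : q ∈ V := hV' (by simp)
    by_cases h0 : ({p, q} : Finset (Fin n)) = {x, y}
    · exact Or.inl (Or.inr h0)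
    by_cases h1 : p ∈ ({x, y} : Finset (Fin n)) <;> by_cases h2 : q ∈ ({x, y} : Finset (Fin n))
    · exact absurd (eq_of_subset_of_card_le (insert_subset h1 (singleton_subset_iff.2 h2))
        (by rw [hP2, card_pair hpq])) h0
    · refine Or.inr ⟨q, mem_sdiff.2 ⟨hq, h2⟩, ?_, h0⟩
      intro a ha
      simp only [mem_insert, mem_singleton] at ha h1 ⊢
      rcases ha with rfl | rfl <;> tauto
    · refine Or.inr ⟨p, mem_sdiff.2 ⟨hp, h1⟩, ?_, h0⟩
      intro a ha
      simp only [mem_insert, mem_singleton] at ha h2 ⊢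
      rcases ha with rfl | rfl <;> tauto
    · exact Or.inl (Or.inl (insert_subset (mem_sdiff.2 ⟨hp, h1⟩)
        (singleton_subset_iff.2 (mem_sdiff.2 ⟨hq, h2⟩))))
  have h5 := card_biUnion_le_card_mul (V \ {x, y})
    (fun z => 𝒞.filter (fun C => S C ⊆ {x, y, z} ∧ S C ≠ {x, y}))
    (8 - (𝒞.filter (fun C => S C = {x, y})).card) (fun z _ => by have := hb z; omega)
  have h6 := (card_le_card hcov).trans ((card_union_le _ _).trans
    (Nat.add_le_add (card_union_le _ _) h5))
  have h7 := few hT V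
  rw [hV] at h7
  generalize (𝒞.filter (fun C => S C = {x, y})).card = w at hw hw4 h6
  generalize (𝒞.filter (fun C => S C ⊆ V \ {x, y})).card = N' at hI h6
  generalize (𝒞.filter (fun C => S C ⊆ V)).card = N at h6 h7 ⊢
  generalize (V \ {x, y}).card = m at hc hI h6
  subst hc
  rcases Nat.eq_zero_or_pos m with rfl | hm
  · norm_num at h7 ⊢
    omega
  · have : w = 3 ∨ w = 4 := by omega
    rcases this with rfl | rfl <;> norm_num at h6 <;> nlinarith

theorem main2 (n : ℕ) (hn : 2 ≤ n) (𝒞 : Finset (Finset (Fin n))) (h : NCTD 𝒞 = 2) :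
    4 * 𝒞.card + 4 * n ≤ 5 * n ^ 2 + 4 := by
  classical
  have hne : {d | ∃ T, Teacher 𝒞 T ∧ ∀ C ∈ 𝒞, (T C).card ≤ d}.Nonempty := by
    by_contra hc
    rw [Set.not_nonempty_iff_eq_empty] at hc
    unfold NCTD at h
    rw [hc] at h
    simp at h
  have hm := Nat.sInf_mem hne
  change NCTD 𝒞 ∈ _ at hm
  rw [h] at hm
  obtain ⟨T, hT, hd⟩ := hm
  have ex : ∀ C, ∃ S : Finset (Fin n), C ∈ 𝒞 → T C ⊆ S ∧ S.card = 2 := by
    intro C
    by_cases hC : C ∈ 𝒞
    · obtain ⟨S, hS⟩ := Finset.exists_superset_card_eq (hd C hC) (by simpa using hn)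
      exact ⟨S, fun _ => hS⟩
    · exact ⟨∅, fun h => absurd h hC⟩
  choose S hS using ex
  have hT' : Teacher 𝒞 S := by
    intro C hC C' hC' hne
    obtain ⟨x, hx, hx'⟩ := hT C hC C' hC' hne
    exact ⟨x, union_subset_union (hS C hC).1 (hS C' hC').1 hx, hx'⟩
  have := two hT' (fun C hC => (hS C hC).2) n univ (by simp)
  simpa using this

end Pool.Agent.H19.Teach
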