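import Mathlib

set_option autoImplicit false

namespace Pool.Agent.H19.TreeGirth
open SimpleGraph

variable {V : Type} [Fintype V] [DecidableEq V]

noncomputable def dg (G : SimpleGraph V) (v : V) : ℕ := (G.neighborSet v).ncard

def Gi (G : SimpleGraph V) (g : ℕ) : Prop := ∀ a (c : G.Walk a a), c.IsCycle → g ≤ c.length

lemma ball (G : SimpleGraph V) (D : ℕ) (hD : ∀ v, dg G v ≤ D) : ∀ (r : ℕ) (u : V),
    ∃ B : Finset V, B.card ≤ (D + 1) ^ r ∧ ∀ w (p : G.Walk u w), p.length ≤ r → w ∈ B := by
  classical
  intro r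
  induction r with
  | zero =>
    intro u
    refine ⟨{u}, by simp, fun w p hp => ?_⟩
    have := p.eq_of_length_eq_zero (by omega)
    simp [this]
  | succ r ih =>
    intro u
    choose B hB1 hB2 using ih
    refine ⟨insert u ((G.neighborSet u).toFinset.biUnion B), ?_, fun w p hp => ?_⟩
    · have h1 := Finset.card_biUnion_le_card_mul (G.neighborSet u).toFinset B _ fun x _ => hB1 x
      have h2 : (G.neighborSet u).toFinset.card ≤ D := by
        rw [← Set.ncard_eq_toFinset_card']; exact hD u
      have h3 := Finset.card_insert_le u ((G.neighborSet u).toFinset.biUnion B)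
      have h4 : 1 ≤ (D + 1) ^ r := Nat.one_le_pow _ _ (by omega)
      have h5 := Nat.mul_le_mul_right ((D + 1) ^ r) h2
      rw [pow_succ]
      nlinarith
    · cases p with
      | nil => simp
      | cons h q =>
        refine Finset.mem_insert_of_mem (Finset.mem_biUnion.2 ⟨_, by simpa using h, hB2 _ _ q ?_⟩)
        simpa using hp

omit [Fintype V] in
lemma split (G : SimpleGraph V) (u v : V) : ∀ (a b : V) (w : (G ⊔ edge u v).Walk a b),
    w.edges.Nodup → s(u, v) ∈ w.edges →
    (∃ (p : G.Walk a u) (q : G.Walk v b), p.length + q.length ≤ w.length) ∨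
    (∃ (p : G.Walk a v) (q : G.Walk u b), p.length + q.length ≤ w.length) := by
  have tr : ∀ (a b : V) (w : (G ⊔ edge u v).Walk a b), s(u, v) ∉ w.edges →
      ∀ e ∈ w.edges, e ∈ G.edgeSet := by
    intro a b w hw e he
    have := w.edges_subset_edgeSet he
    rw [edgeSet_sup] at this
    rcases this with h | h
    · exact h
    · have : e = s(u, v) := by
        induction e using Sym2.ind with
        | _ x y =>
          rw [mem_edgeSet, edge_adj] at h
          rcases h.1 with ⟨rfl, rfl⟩ | ⟨rfl, rfl⟩
          · rfl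
          · exact Sym2.eq_swap
      exact absurd (this ▸ he) hw
  intro a b w
  induction w with
  | nil => intro _ h; simp at h
  | @cons a x b h w ih =>
    intro hn hm
    rw [Walk.edges_cons, List.nodup_cons] at hn
    by_cases e : s(a, x) = s(u, v)
    · have hw : s(u, v) ∉ w.edges := e ▸ hn.1
      rcases Sym2.eq_iff.1 e with ⟨rfl, rfl⟩ | ⟨rfl, rfl⟩
      · exact Or.inl ⟨.nil, w.transfer G (tr _ _ w hw), by simp⟩
      · exact Or.inr ⟨.nil, w.transfer G (tr _ _ w hw), by simp⟩
    · have hG : G.Adj a x := by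
        rcases h with h | h
        · exact h
        · rw [edge_adj] at h
          rcases h.1 with ⟨rfl, rfl⟩ | ⟨rfl, rfl⟩
          · exact absurd rfl e
          · exact absurd Sym2.eq_swap e
      have hm' : s(u, v) ∈ w.edges := by
        rw [Walk.edges_cons, List.mem_cons] at hm
        exact hm.resolve_left fun q => e q.symm
      rcases ih hn.2 hm' with ⟨p, q, hpq⟩ | ⟨p, q, hpq⟩
      · exact Or.inl ⟨.cons hG p, q, by simp; omega⟩
      · exact Or.inr ⟨.cons hG p, q, by simp; omega⟩

omit [Fintype V] in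
lemma gi_add (G : SimpleGraph V) (g : ℕ) (u v : V) (hG : Gi G g)
    (far : ∀ p : G.Walk u v, g < p.length) : Gi (G ⊔ edge u v) g := by
  intro a c hc
  by_cases h : s(u, v) ∈ c.edges
  · rcases split G u v a a c hc.isTrail.edges_nodup h with ⟨p, q, hpq⟩ | ⟨p, q, hpq⟩
    · have := far (q.append p).reverse
      simp at this; omega
    · have := far (q.append p)
      simp at this; omega
  · have tr : ∀ e ∈ c.edges, e ∈ G.edgeSet := by
      intro e he
      have := c.edges_subset_edgeSet he
      rw [edgeSet_sup] at this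
      rcases this with h1 | h1
      · exact h1
      · have : e = s(u, v) := by
          induction e using Sym2.ind with
          | _ x y =>
            rw [mem_edgeSet, edge_adj] at h1
            rcases h1.1 with ⟨rfl, rfl⟩ | ⟨rfl, rfl⟩
            · rfl
            · exact Sym2.eq_swap
        exact absurd (this ▸ he) h
    simpa using hG a (c.transfer G tr) (hc.transfer tr)

lemma dg_add (F : SimpleGraph V) (u v w : V) :
    dg (F ⊔ edge u v) w ≤ dg F w + (if w = u then 1 else 0) + (if w = v then 1 else 0) := by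
  have h : (F ⊔ edge u v).neighborSet w ⊆ F.neighborSet w ∪ (if w = u then {v} else ∅) ∪
      (if w = v then {u} else ∅) := by
    intro x hx
    rcases hx with hx | hx
    · exact Or.inl (Or.inl hx)
    · rw [edge_adj] at hx
      rcases hx.1 with ⟨rfl, rfl⟩ | ⟨rfl, rfl⟩
      · exact Or.inl (Or.inr (by simp))
      · exact Or.inr (by simp)
  refine (Set.ncard_le_ncard h).trans ((Set.ncard_union_le _ _).trans ?_)
  refine Nat.add_le_add ((Set.ncard_union_le _ _).trans (Nat.add_le_add le_rfl ?_)) ?_
  · split_ifs <;> simp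
  · split_ifs <;> simp

lemma dg_sup (H F : SimpleGraph V) (w : V) : dg (H ⊔ F) w ≤ dg H w + dg F w := by
  have h : (H ⊔ F).neighborSet w ⊆ H.neighborSet w ∪ F.neighborSet w := fun x hx => hx
  exact (Set.ncard_le_ncard h).trans (Set.ncard_union_le _ _)

lemma grow (H : SimpleGraph V) (g : ℕ) (hg : 1 ≤ g) (hN : 3 * 9 ^ g < Fintype.card V)
    (hD : ∀ v, dg H v ≤ 4) (hH : Gi H g) : ∀ m, m + 1 ≤ Fintype.card V →
    ∃ (S : Finset V) (F : SimpleGraph V), S.card = m + 1 ∧ F.IsAcyclic ∧
      (∀ a b, F.Adj a b → a ∈ S) ∧ (∀ a ∈ S, ∀ b ∈ S, F.Reachable a b) ∧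
      ∑ v, dg F v ≤ 2 * m ∧ (∀ v, dg F v ≤ 4) ∧ (∀ a b, H.Adj a b → ¬ F.Adj a b) ∧
      Gi (H ⊔ F) g := by
  intro m
  induction m with
  | zero =>
    intro h
    obtain ⟨x⟩ : Nonempty V := Fintype.card_pos_iff.1 h
    refine ⟨{x}, ⊥, by simp, isAcyclic_bot, by simp, ?_, by simp [dg], by simp [dg], by simp,
      by simpa using hH⟩
    intro a ha b hb
    rw [Finset.mem_singleton.1 ha, Finset.mem_singleton.1 hb]
  | succ m ih =>
    intro h
    obtain ⟨S, F, hS, hF, hin, hre, hsum, hdeg, hdis, hgi⟩ := ih (by omega)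
    choose B hB1 hB2 using ball (H ⊔ F) 8 (fun v => by
      have := dg_sup H F v; have := hD v; have := hdeg v; omega) g
    have hL : m + 1 < 2 * (S.filter fun v => dg F v ≤ 3).card := by
      have h1 := Finset.card_filter_add_card_filter_not (s := S) (fun v => dg F v ≤ 3)
      have h2 : (S.filter fun v => ¬ dg F v ≤ 3).card * 4 ≤ ∑ v, dg F v := by
        have := Finset.card_nsmul_le_sum (S.filter fun v => ¬ dg F v ≤ 3) (dg F) 4
          fun x hx => by have := (Finset.mem_filter.1 hx).2; omega
        exact (smul_eq_mul _ 4 ▸ this).trans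
          (Finset.sum_le_sum_of_subset (Finset.subset_univ _))
      omega
    obtain ⟨u, v, hu, hv, hv3, far⟩ : ∃ u v, u ∉ S ∧ v ∈ S ∧ dg F v ≤ 3 ∧
        ∀ p : (H ⊔ F).Walk u v, g < p.length := by
      by_cases big : 2 * 9 ^ g < m + 1
      · obtain ⟨u, -, hu⟩ := Finset.exists_mem_notMem_of_card_lt_card
          (s := S) (t := Finset.univ) (by rw [Finset.card_univ]; omega)
        obtain ⟨v, hv, hv2⟩ := Finset.exists_mem_notMem_of_card_lt_card
          (s := B u) (t := S.filter fun v => dg F v ≤ 3) (by have := hB1 u; norm_num at this; omega)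
        refine ⟨u, v, hu, (Finset.mem_filter.1 hv).1, (Finset.mem_filter.1 hv).2, fun p => ?_⟩
        by_contra hp
        exact hv2 (hB2 u v p (by omega))
      · obtain ⟨v, hv⟩ : (S.filter fun v => dg F v ≤ 3).Nonempty :=
          Finset.card_pos.1 (by omega)
        obtain ⟨u, hu, hu2⟩ := Finset.exists_mem_notMem_of_card_lt_card
          (s := B v) (t := Sᶜ) (by
            have := hB1 v; norm_num at this; rw [Finset.card_compl]; omega)
        refine ⟨u, v, by simpa using hu, (Finset.mem_filter.1 hv).1, (Finset.mem_filter.1 hv).2,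
          fun p => ?_⟩
        by_contra hp
        exact hu2 (hB2 v u p.reverse (by simp; omega))
    have huv : u ≠ v := fun e => hu (e ▸ hv)
    have u0 : dg F u = 0 := by
      have : F.neighborSet u = ∅ := Set.eq_empty_of_forall_notMem fun x hx => hu (hin u x hx)
      simp [dg, this]
    have nr : ¬ F.Reachable u v := by
      rintro ⟨p⟩
      cases p with
      | nil => exact huv rfl
      | cons h q => exact hu (hin _ _ h)
    have auv : (F ⊔ edge u v).Adj u v := Or.inr (by rw [edge_adj]; exact ⟨Or.inl ⟨rfl, rfl⟩, huv⟩)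
    refine ⟨insert u S, F ⊔ edge u v, by rw [Finset.card_insert_of_notMem hu, hS],
      hF.sup_edge_of_not_reachable nr, ?_, ?_, ?_, ?_, ?_, ?_⟩
    · rintro a b (h | h)
      · exact Finset.mem_insert_of_mem (hin a b h)
      · rw [edge_adj] at h
        rcases h.1 with ⟨rfl, rfl⟩ | ⟨rfl, rfl⟩
        · simp
        · exact Finset.mem_insert_of_mem hv
    · have k : ∀ a ∈ insert u S, (F ⊔ edge u v).Reachable a v := by
        intro a ha
        rcases Finset.mem_insert.1 ha with rfl | ha
        · exact auv.reachable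
        · exact (hre a ha v hv).mono le_sup_left
      exact fun a ha b hb => (k a ha).trans (k b hb).symm
    · refine (Finset.sum_le_sum fun w _ => dg_add F u v w).trans ?_
      simp only [Finset.sum_add_distrib, Finset.sum_ite_eq', Finset.mem_univ, if_true]
      omega
    · intro w
      have := dg_add F u v w
      have := hdeg w
      split_ifs at * with h1 h2 h2
      · exact absurd (h1.symm.trans h2) huv
      · subst h1; omega
      · subst h2; omega
      · omega
    · rintro a b hab (h | h)
      · exact hdis a b hab h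
      · rw [edge_adj] at h
        rcases h.1 with ⟨rfl, rfl⟩ | ⟨rfl, rfl⟩
        · have := far (.cons (Or.inl hab) .nil); simp at this; omega
        · have := far (.cons (Or.inl hab.symm) .nil); simp at this; omega
    · rw [← sup_assoc]
      exact gi_add _ g u v hgi far

/-- a bounded degree graph of girth at least `g` on many vertices can be enlarged by an edge
disjoint spanning tree keeping the girth bound -/
theorem tree (H : SimpleGraph V) (g : ℕ) (hg : 1 ≤ g) (hN : 3 * 9 ^ g < Fintype.card V)
    (hD : ∀ v, dg H v ≤ 4) (hH : Gi H g) : ∃ F : SimpleGraph V, F.IsTree ∧ (∀ v, dg F v ≤ 4) ∧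
      (∀ a b, H.Adj a b → ¬ F.Adj a b) ∧ Gi (H ⊔ F) g := by
  obtain ⟨S, F, hS, hF, -, hre, -, hdeg, hdis, hgi⟩ :=
    grow H g hg hN hD hH (Fintype.card V - 1) (by omega)
  have : S = Finset.univ := Finset.eq_univ_of_card S (by omega)
  subst this
  have : Nonempty V := Fintype.card_pos_iff.1 (by omega)
  exact ⟨F, ⟨⟨fun a b => hre a (by simp) b (by simp)⟩, hF⟩, hdeg, hdis, hgi⟩

end Pool.Agent.H19.TreeGirth
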