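import Mathlib

set_option autoImplicit false

namespace Pool.Agent.H19.Tri

/-- `A` contains no three distinct translates of a three element set. -/
def Avoids (A : Finset (ℤ × ℤ)) : Prop :=
  ¬ ∃ (X : Finset (ℤ × ℤ)) (k₁ k₂ k₃ : ℤ × ℤ), X.card = 3 ∧ k₁ ≠ k₂ ∧ k₁ ≠ k₃ ∧ k₂ ≠ k₃ ∧
    ∀ x ∈ X, x + k₁ ∈ A ∧ x + k₂ ∈ A ∧ x + k₃ ∈ A

section field
variable {F : Type} [Field F]

def On (δ : F) (w : F × F × F) : Prop := w.1 * w.2.1 = w.2.2 ^ 2 - δ

lemma line {δ : F} (hδ : ¬ IsSquare δ) (x y z a1 a2 a3 t : F)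
    (ha : ¬ (a1 = 0 ∧ a2 = 0 ∧ a3 = 0)) (ht0 : t ≠ 0) (ht1 : t ≠ 1)
    (h0 : x * y = z ^ 2 - δ) (h1 : (x + a1) * (y + a2) = (z + a3) ^ 2 - δ)
    (h2 : (x + t * a1) * (y + t * a2) = (z + t * a3) ^ 2 - δ) : False := by
  have hq : a1 * a2 - a3 ^ 2 = 0 := by
    have : t * (t - 1) * (a1 * a2 - a3 ^ 2) = 0 := by
      linear_combination h2 - t * h1 + (t - 1) * h0
    rcases mul_eq_zero.1 this with h | h
    · rcases mul_eq_zero.1 h with h | h
      · exact absurd h ht0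
      · exact absurd (sub_eq_zero.1 h) ht1
    · exact h
  have hb : x * a2 + y * a1 - 2 * z * a3 = 0 := by linear_combination h1 - h0 - hq
  apply hδ
  by_cases h : a1 = 0
  · have h3 : a3 = 0 := by
      have : a3 ^ 2 = 0 := by rw [h] at hq; linear_combination -hq
      exact pow_eq_zero_iff (two_ne_zero) |>.1 this
    have h2' : a2 ≠ 0 := fun h' => ha ⟨h, h', h3⟩
    have hx : x = 0 := by
      have : x * a2 = 0 := by rw [h, h3] at hb; linear_combination hb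
      exact (mul_eq_zero.1 this).resolve_right h2'
    exact ⟨z, by rw [hx] at h0; linear_combination h0⟩
  · refine ⟨(a1 * z - a3 * x) / a1, ?_⟩
    field_simp
    linear_combination a1 ^ 2 * h0 - a1 * x * hb + x ^ 2 * hq

lemma cross0 (u1 u2 u3 v1 v2 v3 : F) (hu : ¬ (u1 = 0 ∧ u2 = 0 ∧ u3 = 0))
    (h12 : u1 * v2 = u2 * v1) (h13 : u1 * v3 = u3 * v1) (h23 : u2 * v3 = u3 * v2) :
    ∃ t, v1 = t * u1 ∧ v2 = t * u2 ∧ v3 = t * u3 := by
  by_cases h1 : u1 = 0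
  · by_cases h2 : u2 = 0
    · have h3 : u3 ≠ 0 := fun h => hu ⟨h1, h2, h⟩
      refine ⟨v3 / u3, ?_, ?_, ?_⟩ <;> field_simp
      · linear_combination -h13
      · linear_combination -h23
    · refine ⟨v2 / u2, ?_, ?_, ?_⟩ <;> field_simp
      · linear_combination -h12
      · linear_combination h23
  · refine ⟨v1 / u1, ?_, ?_, ?_⟩ <;> field_simp
    · linear_combination h12
    · linear_combination h13

lemma dep (h2 : (2 : F) ≠ 0) (a1 a2 a3 c1 c2 c3 b1 b2 b3 d1 d2 d3 : F)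
    (hab : a1 * b2 + a2 * b1 - 2 * a3 * b3 = 0) (had : a1 * d2 + a2 * d1 - 2 * a3 * d3 = 0)
    (hcb : c1 * b2 + c2 * b1 - 2 * c3 * b3 = 0) (hcd : c1 * d2 + c2 * d1 - 2 * c3 * d3 = 0) :
    (a1 * c2 = a2 * c1 ∧ a1 * c3 = a3 * c1 ∧ a2 * c3 = a3 * c2) ∨
    (b1 * d2 = b2 * d1 ∧ b1 * d3 = b3 * d1 ∧ b2 * d3 = b3 * d2) := by
  by_contra h
  rw [not_or] at h
  obtain ⟨h, h'⟩ := h
  apply h'
  by_cases e1 : a1 * c2 = a2 * c1
  · by_cases e2 : a1 * c3 = a3 * c1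
    · have e3 : a2 * c3 ≠ a3 * c2 := fun e => h ⟨e1, e2, e⟩
      refine ⟨?_, ?_, ?_⟩ <;> grind
    · refine ⟨?_, ?_, ?_⟩ <;> grind
  · refine ⟨?_, ?_, ?_⟩ <;> grind

lemma core (h2 : (2 : F) ≠ 0) {δ : F} (hδ : ¬ IsSquare δ) (p a c b d : F × F × F)
    (ha : a ≠ 0) (hc : c ≠ 0) (hac : a ≠ c) (hb : b ≠ 0) (hd : d ≠ 0) (hbd : b ≠ d)
    (h00 : On δ p) (h10 : On δ (p + a)) (h20 : On δ (p + c)) (h01 : On δ (p + b))
    (h02 : On δ (p + d)) (h11 : On δ (p + a + b)) (h12 : On δ (p + a + d))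
    (h21 : On δ (p + c + b)) (h22 : On δ (p + c + d)) : False := by
  obtain ⟨x, y, z⟩ := p
  obtain ⟨a1, a2, a3⟩ := a
  obtain ⟨b1, b2, b3⟩ := b
  obtain ⟨c1, c2, c3⟩ := c
  obtain ⟨d1, d2, d3⟩ := d
  simp only [On, Prod.mk_add_mk] at h00 h10 h20 h01 h02 h11 h12 h21 h22
  simp only [ne_eq, Prod.mk_eq_zero, Prod.mk.injEq] at ha hc hac hb hd hbd
  rcases dep h2 a1 a2 a3 c1 c2 c3 b1 b2 b3 d1 d2 d3
    (by linear_combination h11 - h10 - h01 + h00) (by linear_combination h12 - h10 - h02 + h00)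
    (by linear_combination h21 - h20 - h01 + h00) (by linear_combination h22 - h20 - h02 + h00)
    with ⟨e1, e2, e3⟩ | ⟨e1, e2, e3⟩
  · obtain ⟨t, rfl, rfl, rfl⟩ := cross0 a1 a2 a3 c1 c2 c3 ha e1 e2 e3
    exact line hδ x y z a1 a2 a3 t ha (by rintro rfl; simp at hc) (by rintro rfl; simp at hac)
      h00 h10 h20
  · obtain ⟨t, rfl, rfl, rfl⟩ := cross0 b1 b2 b3 d1 d2 d3 hb e1 e2 e3
    exact line hδ x y z b1 b2 b3 t hb (by rintro rfl; simp at hd) (by rintro rfl; simp at hbd)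
      h00 h01 h02

end field

lemma digit (M a b c d : ℕ) (ha : a < M) (hc : c < M) (h : a + M * b = c + M * d) :
    a = c ∧ b = d := by
  have h1 : a = c := by
    have := congrArg (· % M) h
    simpa [Nat.add_mul_mod_self_left, Nat.mod_eq_of_lt ha, Nat.mod_eq_of_lt hc] using this
  subst h1
  exact ⟨rfl, Nat.eq_of_mul_eq_mul_left (by omega) (Nat.add_left_cancel h)⟩

def enc (q : ℕ) (w : ZMod q × ZMod q × ZMod q) : ℕ :=
  w.1.val + 2 * q * (w.2.1.val + 2 * q * w.2.2.val)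

def pt (n m : ℕ) : ℤ × ℤ := (((m % n : ℕ) : ℤ) + 1, ((m / n : ℕ) : ℤ) + 1)

lemma frei (q n : ℕ) [NeZero q] (w1 w2 w3 w4 : ZMod q × ZMod q × ZMod q)
    (h : pt n (enc q w1) + pt n (enc q w2) = pt n (enc q w3) + pt n (enc q w4)) :
    w1 + w2 = w3 + w4 := by
  simp only [pt, Prod.mk_add_mk, Prod.mk.injEq] at h
  obtain ⟨h1, h2⟩ := h
  have g1 : enc q w1 % n + enc q w2 % n = enc q w3 % n + enc q w4 % n := by omega
  have g2 : enc q w1 / n + enc q w2 / n = enc q w3 / n + enc q w4 / n := by omega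
  have g : enc q w1 + enc q w2 = enc q w3 + enc q w4 := by
    have e1 := Nat.div_add_mod (enc q w1) n
    have e2 := Nat.div_add_mod (enc q w2) n
    have e3 := Nat.div_add_mod (enc q w3) n
    have e4 := Nat.div_add_mod (enc q w4) n
    have g3 := congrArg (n * ·) g2
    simp only [mul_add] at g3
    omega
  have lt : ∀ x y : ZMod q, x.val + y.val < 2 * q := fun x y => by
    have := ZMod.val_lt x
    have := ZMod.val_lt y
    omega
  have cast : ∀ x y u v : ZMod q, x.val + y.val = u.val + v.val → x + y = u + v := by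
    intro x y u v h
    have := congrArg (fun k : ℕ => (k : ZMod q)) h
    simpa using this
  obtain ⟨k1, k2⟩ := digit (2 * q) (w1.1.val + w2.1.val)
    ((w1.2.1.val + w2.2.1.val) + 2 * q * (w1.2.2.val + w2.2.2.val)) (w3.1.val + w4.1.val)
    ((w3.2.1.val + w4.2.1.val) + 2 * q * (w3.2.2.val + w4.2.2.val)) (lt _ _) (lt _ _)
    (by unfold enc at g; linarith)
  obtain ⟨k3, k4⟩ := digit (2 * q) _ _ _ _ (lt _ _) (lt _ _) k2
  exact Prod.ext (cast _ _ _ _ k1) (Prod.ext (cast _ _ _ _ k3) (cast _ _ _ _ k4))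

lemma enc_lt (q : ℕ) [NeZero q] (w : ZMod q × ZMod q × ZMod q) : enc q w < 4 * q ^ 3 := by
  have h1 := ZMod.val_lt w.1
  have h2 := ZMod.val_lt w.2.1
  have h3 := ZMod.val_lt w.2.2
  unfold enc
  have e1 : w.2.1.val + 2 * q * w.2.2.val + 1 ≤ 2 * q * q := by nlinarith
  have e2 : 2 * q * (w.2.1.val + 2 * q * w.2.2.val + 1) ≤ 2 * q * (2 * q * q) :=
    Nat.mul_le_mul_left _ e1
  nlinarith

theorem prime_case (q n : ℕ) (hq : q.Prime) (h3 : 3 ≤ q) (hn : 4 * q ^ 3 ≤ n ^ 2) :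
    ∃ A : Finset (ℤ × ℤ), (∀ a ∈ A, 1 ≤ a.1 ∧ a.1 ≤ n ∧ 1 ≤ a.2 ∧ a.2 ≤ n) ∧ Avoids A ∧
      q * (q - 1) ≤ A.card := by
  classical
  have : Fact q.Prime := ⟨hq⟩
  have hch : ringChar (ZMod q) ≠ 2 := by rw [ZMod.ringChar_zmod_n]; omega
  have h2 : (2 : ZMod q) ≠ 0 := Ring.two_ne_zero hch
  obtain ⟨δ, hδ⟩ := FiniteField.exists_nonsquare hch
  have hn0 : 0 < n := by
    rcases Nat.eq_zero_or_pos n with rfl | h
    · have : 0 < q ^ 3 := by positivity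
      omega
    · exact h
  set f : ZMod q × ZMod q × ZMod q → ℤ × ℤ := fun w => pt n (enc q w) with hf
  have fr : ∀ w1 w2 w3 w4, f w1 + f w2 = f w3 + f w4 → w1 + w2 = w3 + w4 := frei q n
  have inj : Function.Injective f := fun w w' h =>
    add_right_cancel (fr w w w' w (by rw [h]))
  refine ⟨(Finset.univ.filter (On δ)).image f, ?_, ?_, ?_⟩
  · intro a ha
    obtain ⟨w, -, rfl⟩ := Finset.mem_image.1 ha
    have e1 : enc q w % n < n := Nat.mod_lt _ hn0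
    have e2 : enc q w / n < n := by
      apply Nat.div_lt_of_lt_mul
      have := enc_lt q w
      nlinarith
    simp only [hf, pt]
    generalize enc q w % n = u at e1 ⊢
    generalize enc q w / n = v at e2 ⊢
    omega
  · rintro ⟨X, k1, k2, k3, hX, h12, h13, h23, h⟩
    obtain ⟨x1, x2, x3, g12, g13, g23, rfl⟩ := Finset.card_eq_three.1 hX
    have ex : ∀ P ∈ (Finset.univ.filter (On δ)).image f, ∃ w, On δ w ∧ f w = P := by
      intro P hP
      obtain ⟨w, hw, rfl⟩ := Finset.mem_image.1 hP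
      exact ⟨w, (Finset.mem_filter.1 hw).2, rfl⟩
    obtain ⟨p1, p2, p3⟩ := h x1 (by simp)
    obtain ⟨p4, p5, p6⟩ := h x2 (by simp)
    obtain ⟨p7, p8, p9⟩ := h x3 (by simp)
    obtain ⟨w1, o1, e1⟩ := ex _ p1
    obtain ⟨w2, o2, e2⟩ := ex _ p2
    obtain ⟨w3, o3, e3⟩ := ex _ p3
    obtain ⟨w4, o4, e4⟩ := ex _ p4
    obtain ⟨w5, o5, e5⟩ := ex _ p5
    obtain ⟨w6, o6, e6⟩ := ex _ p6
    obtain ⟨w7, o7, e7⟩ := ex _ p7
    obtain ⟨w8, o8, e8⟩ := ex _ p8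
    obtain ⟨w9, o9, e9⟩ := ex _ p9
    have r5 := fr w5 w1 w2 w4 (by rw [e5, e1, e2, e4]; abel)
    have r8 := fr w8 w1 w2 w7 (by rw [e8, e1, e2, e7]; abel)
    have r6 := fr w6 w1 w3 w4 (by rw [e6, e1, e3, e4]; abel)
    have r9 := fr w9 w1 w3 w7 (by rw [e9, e1, e3, e7]; abel)
    have ne : ∀ u v : ZMod q × ZMod q × ZMod q, f u ≠ f v → u ≠ v := fun u v h e => h (by rw [e])
    have n21 : w2 ≠ w1 := ne _ _ (by rw [e1, e2]; simpa using h12.symm)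
    have n31 : w3 ≠ w1 := ne _ _ (by rw [e1, e3]; simpa using h13.symm)
    have n23 : w2 ≠ w3 := ne _ _ (by rw [e2, e3]; simpa using h23)
    have n41 : w4 ≠ w1 := ne _ _ (by rw [e1, e4]; simpa using g12.symm)
    have n71 : w7 ≠ w1 := ne _ _ (by rw [e1, e7]; simpa using g13.symm)
    have n47 : w4 ≠ w7 := ne _ _ (by rw [e4, e7]; simpa using g23)
    have key : ∀ u v w : ZMod q × ZMod q × ZMod q, w + w1 = u + v →
        w1 + (u - w1) + (v - w1) = w := fun u v w h => by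
      rw [eq_sub_of_add_eq h]; abel
    refine core h2 hδ w1 (w2 - w1) (w3 - w1) (w4 - w1) (w7 - w1) (sub_ne_zero.2 n21)
      (sub_ne_zero.2 n31) (fun e => n23 (sub_left_injective e)) (sub_ne_zero.2 n41)
      (sub_ne_zero.2 n71) (fun e => n47 (sub_left_injective e)) o1 ?_ ?_ ?_ ?_ ?_ ?_ ?_ ?_
    · rwa [add_sub_cancel]
    · rwa [add_sub_cancel]
    · rwa [add_sub_cancel]
    · rwa [add_sub_cancel]
    · rwa [key _ _ _ r5]
    · rwa [key _ _ _ r8]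
    · rwa [key _ _ _ r6]
    · rwa [key _ _ _ r9]
  · rw [Finset.card_image_of_injective _ inj]
    have hc : ((Finset.univ : Finset (ZMod q)) ×ˢ (Finset.univ.erase (0 : ZMod q))).card
        = q * (q - 1) := by
      rw [Finset.card_product, Finset.card_erase_of_mem (Finset.mem_univ _), Finset.card_univ,
        ZMod.card]
    rw [← hc]
    refine Finset.card_le_card_of_injOn (fun u => (u.2, (u.1 ^ 2 - δ) / u.2, u.1)) ?_ ?_
    · intro u hu
      have h0 : u.2 ≠ 0 := by simpa using hu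
      simp only [Finset.coe_filter, Finset.mem_univ, true_and, Set.mem_ofPred_eq, On]
      field_simp
    · intro u _ v _ h
      simp only [Prod.mk.injEq] at h
      exact Prod.ext h.2.2 h.1

theorem main (n : ℕ) (hn : 16 ≤ n) :
    ∃ A : Finset (ℤ × ℤ), (∀ a ∈ A, 1 ≤ a.1 ∧ a.1 ≤ n ∧ 1 ≤ a.2 ∧ a.2 ≤ n) ∧ Avoids A ∧
      n ^ 4 ≤ 3456 * A.card ^ 3 := by
  have hex : ∃ k : ℕ, n ^ 2 < 32 * (k + 1) ^ 3 := ⟨n ^ 2, by
    have : n ^ 2 + 1 ≤ (n ^ 2 + 1) ^ 3 := Nat.le_self_pow (by norm_num) _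
    omega⟩
  classical
  have hk := Nat.find_spec hex
  set k := Nat.find hex with hkd
  have h256 : 256 ≤ n ^ 2 := by nlinarith
  have hk2 : 2 ≤ k := by
    by_contra h
    have : k + 1 ≤ 2 := by omega
    have : (k + 1) ^ 3 ≤ 2 ^ 3 := Nat.pow_le_pow_left this 3
    omega
  have hk' : 32 * k ^ 3 ≤ n ^ 2 := by
    have := Nat.find_min hex (show k - 1 < k by omega)
    rw [show k - 1 + 1 = k by omega] at this
    omega
  obtain ⟨q, hq, h1, h2⟩ := Nat.exists_prime_lt_and_le_two_mul k (by omega)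
  have h4 : 4 * q ^ 3 ≤ n ^ 2 := by
    have : q ^ 3 ≤ (2 * k) ^ 3 := Nat.pow_le_pow_left h2 3
    rw [mul_pow] at this
    omega
  obtain ⟨A, hA, hav, hc⟩ := prime_case q n hq (by omega) h4
  refine ⟨A, hA, hav, ?_⟩
  have e1 : n ^ 2 ≤ 32 * q ^ 3 := by
    have : (k + 1) ^ 3 ≤ q ^ 3 := Nat.pow_le_pow_left h1 3
    omega
  have e2 : 2 * q ^ 2 ≤ 3 * A.card := by
    obtain ⟨r, rfl⟩ : ∃ r, q = r + 3 := ⟨q - 3, by omega⟩
    rw [show r + 3 - 1 = r + 2 by omega] at hc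
    nlinarith
  have e3 : (n ^ 2) ^ 2 ≤ (32 * q ^ 3) ^ 2 := Nat.pow_le_pow_left e1 2
  have e4 : (2 * q ^ 2) ^ 3 ≤ (3 * A.card) ^ 3 := Nat.pow_le_pow_left e2 3
  have e5 : (n ^ 2) ^ 2 = n ^ 4 := by ring
  have e6 : (32 * q ^ 3) ^ 2 = 1024 * q ^ 6 := by ring
  have e7 : (2 * q ^ 2) ^ 3 = 8 * q ^ 6 := by ring
  have e8 : (3 * A.card) ^ 3 = 27 * A.card ^ 3 := by ring
  omega

end Pool.Agent.H19.Tri
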