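import Mathlib

set_option autoImplicit false

namespace Pool.Agent.H19.Trunc
open PowerSeries

def forceN {β : Type} (n : ℕ) (k : ℕ → β) : β := Nat.rec (k 0) (fun m _ => k (m + 1)) n

lemma forceN_eq {β : Type} (n : ℕ) (k : ℕ → β) : forceN n k = k n := by cases n <;> rfl

def forceI {β : Type} (x : ℤ) (k : ℤ → β) : β :=
  match x with
  | Int.ofNat n => forceN n fun m => k (Int.ofNat m)
  | Int.negSucc n => forceN n fun m => k (Int.negSucc m)

lemma forceI_eq {β : Type} (x : ℤ) (k : ℤ → β) : forceI x k = k x := by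
  cases x <;> simp only [forceI, forceN_eq]

def forceL {β : Type} : List ℤ → (List ℤ → β) → β
  | [], k => k []
  | x :: l, k => forceI x fun y => forceL l fun m => k (y :: m)

lemma forceL_eq {β : Type} (l : List ℤ) (k : List ℤ → β) : forceL l k = k l := by
  induction l generalizing k with
  | nil => rfl
  | cons x l ih => simp only [forceL, forceI_eq, ih]

def axpy (x : ℤ) : List ℤ → List ℤ → List ℤ
  | [], c => c
  | _ :: _, [] => []
  | y :: b, z :: c => (x * y + z) :: axpy x b c

def mulT : ℕ → List ℤ → List ℤ → List ℤ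
  | 0, _, _ => []
  | n + 1, a, b => axpy (a.headD 0) b (0 :: mulT n a.tail b)

def pw (N : ℕ) (a : List ℤ) : ℕ → ℕ → List ℤ
  | 0, _ => [1]
  | f + 1, e => forceL (pw N a f (e / 2)) fun h => forceL (mulT N h h) fun s =>
      if e % 2 = 0 then s else mulT N s a

def dot : List ℤ → List ℤ → ℤ
  | x :: a, y :: b => x * y + dot a b
  | _, _ => 0

def invR (t : List ℤ) : ℕ → List ℤ
  | 0 => [1]
  | n + 1 => forceL (invR t n) fun r => (-dot t r) :: r

def invT (n : ℕ) (a : List ℤ) : List ℤ := (invR a.tail n).reverse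

def peel (J : List ℤ) : ℕ → List ℤ → List ℤ
  | 0, _ => []
  | n + 1, W => forceL W fun W => W.headD 0 :: peel J n (mulT n W.tail J)

variable {R : Type} [CommRing R]

noncomputable def ev : List ℤ → R⟦X⟧
  | [] => 0
  | x :: l => C (x : R) + X * ev l

lemma ev_ht (a : List ℤ) : (ev a : R⟦X⟧) = C ((a.headD 0 : ℤ) : R) + X * ev a.tail := by
  cases a <;> simp [ev]

lemma coeff_ev (a : List ℤ) (n : ℕ) : coeff n (ev a : R⟦X⟧) = ((a.getD n 0 : ℤ) : R) := by
  induction a generalizing n with
  | nil => simp [ev]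
  | cons x a ih =>
    cases n with
    | zero => simp [ev]
    | succ n =>
      rw [ev, map_add, coeff_succ_X_mul, ih, coeff_C, if_neg (Nat.succ_ne_zero n), zero_add]
      rfl

lemma axpy_len (x : ℤ) (b c : List ℤ) : (axpy x b c).length = c.length := by
  induction b generalizing c with
  | nil => rfl
  | cons y b ih => cases c <;> simp [axpy, ih]

lemma mulT_len (n : ℕ) (a b : List ℤ) : (mulT n a b).length = n := by
  induction n generalizing a with
  | zero => rfl
  | succ n ih => simp [mulT, axpy_len, ih]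

lemma axpy_dvd (x : ℤ) (b c : List ℤ) :
    (X : R⟦X⟧) ^ c.length ∣ ev (axpy x b c) - (C (x : R) * ev b + ev c) := by
  induction b generalizing c with
  | nil => simp [axpy, ev]
  | cons y b ih =>
    cases c with
    | nil => simp
    | cons z c =>
      obtain ⟨u, hu⟩ := ih c
      refine ⟨u, ?_⟩
      simp only [axpy, ev, List.length_cons, Int.cast_add, Int.cast_mul, map_add, map_mul]
      linear_combination X * hu

lemma mulT_dvd (n : ℕ) (a b : List ℤ) : (X : R⟦X⟧) ^ n ∣ ev (mulT n a b) - ev a * ev b := by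
  induction n generalizing a with
  | zero => simp
  | succ n ih =>
    obtain ⟨u, hu⟩ := ih a.tail
    obtain ⟨v, hv⟩ := axpy_dvd (R := R) (a.headD 0) b (0 :: mulT n a.tail b)
    refine ⟨u + v, ?_⟩
    rw [List.length_cons, mulT_len] at hv
    rw [ev_ht a]
    simp only [mulT]
    simp only [ev, Int.cast_zero, map_zero] at hv
    linear_combination hv + X * hu

/-- congruence modulo `X ^ n` -/
def Cg (n : ℕ) (f g : R⟦X⟧) : Prop := (X : R⟦X⟧) ^ n ∣ f - g

lemma Cg.rfl {n : ℕ} {f : R⟦X⟧} : Cg n f f := by simp [Cg]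

lemma Cg.symm {n : ℕ} {f g : R⟦X⟧} (h : Cg n f g) : Cg n g f := by
  obtain ⟨u, hu⟩ := h
  exact ⟨-u, by linear_combination -hu⟩

lemma Cg.trans {n : ℕ} {f g k : R⟦X⟧} (h : Cg n f g) (h' : Cg n g k) : Cg n f k := by
  obtain ⟨u, hu⟩ := h
  obtain ⟨v, hv⟩ := h'
  exact ⟨u + v, by linear_combination hu + hv⟩

lemma Cg.mul {n : ℕ} {f g f' g' : R⟦X⟧} (h : Cg n f g) (h' : Cg n f' g') : Cg n (f * f') (g * g') := by
  obtain ⟨u, hu⟩ := h
  obtain ⟨v, hv⟩ := h'
  exact ⟨u * f' + g * v, by linear_combination f' * hu + g * hv⟩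

lemma Cg.add {n : ℕ} {f g f' g' : R⟦X⟧} (h : Cg n f g) (h' : Cg n f' g') : Cg n (f + f') (g + g') := by
  obtain ⟨u, hu⟩ := h
  obtain ⟨v, hv⟩ := h'
  exact ⟨u + v, by linear_combination hu + hv⟩

lemma Cg.pow {n : ℕ} {f g : R⟦X⟧} (h : Cg n f g) (e : ℕ) : Cg n (f ^ e) (g ^ e) :=
  Dvd.dvd.trans h (sub_dvd_pow_sub_pow f g e)

lemma Cg.mono {n m : ℕ} {f g : R⟦X⟧} (h : Cg n f g) (hm : m ≤ n) : Cg m f g :=
  (pow_dvd_pow _ hm).trans h

lemma Cg.mulT {n : ℕ} {a b : List ℤ} {f g : R⟦X⟧} (h : Cg n (ev a) f) (h' : Cg n (ev b) g) :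
    Cg n (ev (mulT n a b)) (f * g) := Cg.trans (mulT_dvd n a b) (h.mul h')

lemma Cg.pw {n : ℕ} {a : List ℤ} {f : R⟦X⟧} (h : Cg n (ev a) f) (k e : ℕ) (he : e < 2 ^ k) :
    Cg n (ev (pw n a k e)) (f ^ e) := by
  induction k generalizing e with
  | zero =>
    obtain rfl : e = 0 := by simpa using he
    simp [Trunc.pw, ev, Cg]
  | succ k ih =>
    have h1 := ih (e / 2) (by rw [pow_succ] at he; omega)
    have h2 := h1.mulT h1
    simp only [Trunc.pw, forceL_eq]
    split_ifs with h0
    · rwa [← pow_add, show e / 2 + e / 2 = e by omega] at h2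
    · have h3 := h2.mulT h
      rwa [← pow_add, ← pow_succ, show e / 2 + e / 2 + 1 = e by omega] at h3

lemma peel_len (J : List ℤ) (n : ℕ) (W : List ℤ) : (peel J n W).length = n := by
  induction n generalizing W with
  | zero => rfl
  | succ n ih => simp [peel, forceL_eq, ih]

/-- homogeneous Horner form -/
noncomputable def hom (A D : R⟦X⟧) : List ℤ → R⟦X⟧
  | [] => 0
  | c :: l => C (c : R) * A ^ l.length + D * hom A D l

lemma peel_cg (A d : R⟦X⟧) (J : List ℤ) (n : ℕ) (h : Cg n (ev J * d) A) (W : List ℤ) :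
    Cg n (A * hom A (X * d) (peel J n W)) (ev W * A ^ n) := by
  induction n generalizing W with
  | zero => simp [Cg]
  | succ n ih =>
    obtain ⟨u, hu⟩ := ih (h.mono (Nat.le_succ n)) (Trunc.mulT n W.tail J)
    obtain ⟨v, hv⟩ := mulT_dvd (R := R) n W.tail J
    obtain ⟨w, hw⟩ := h.mono (Nat.le_succ n)
    refine ⟨d * u + d * A ^ n * v + ev W.tail * A ^ n * w, ?_⟩
    rw [ev_ht W]
    simp only [peel, forceL_eq, hom, peel_len]
    linear_combination X * d * hu + X * d * A ^ n * hv + X * ev W.tail * A ^ n * hw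

/-- the polynomial with the given coefficients, leading coefficient first -/
noncomputable def pol : List ℤ → Polynomial R
  | [] => 0
  | c :: l => Polynomial.C (c : R) * Polynomial.X ^ l.length + pol l

lemma pol_coeff (l : List ℤ) (i : ℕ) (h : l.length ≤ i) : (pol l : Polynomial R).coeff i = 0 := by
  induction l with
  | nil => simp [pol]
  | cons c l ih =>
    rw [List.length_cons] at h
    simp only [pol, Polynomial.coeff_add, Polynomial.coeff_C_mul_X_pow, ih (by omega)]
    rw [if_neg (by omega), add_zero]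

lemma hom_eq (A D : R⟦X⟧) (l : List ℤ) : hom A D l =
    ∑ i ∈ Finset.range l.length, C ((pol l : Polynomial R).coeff i) * D ^ (l.length - 1 - i) * A ^ i := by
  induction l with
  | nil => simp [hom]
  | cons c l ih =>
    rw [List.length_cons, Finset.sum_range_succ, hom, ih, Finset.mul_sum, add_comm]
    congr 1
    · refine Finset.sum_congr rfl fun i hi => ?_
      have hi := Finset.mem_range.1 hi
      simp only [pol, Polynomial.coeff_add, Polynomial.coeff_C_mul_X_pow]
      rw [if_neg (by omega), zero_add, show l.length + 1 - 1 - i = (l.length - 1 - i) + 1 by omega]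
      ring
    · simp [pol, pol_coeff l l.length le_rfl]

def evI (x : ℤ) : List ℤ → ℤ
  | [] => 0
  | c :: l => c * x ^ l.length + evI x l

lemma pol_eval (l : List ℤ) (x : ℤ) : (pol l : Polynomial R).eval (x : R) = (evI x l : R) := by
  induction l with
  | nil => simp [pol, evI]
  | cons c l ih => simp [pol, evI, ih]

lemma pol_map {S : Type} [CommRing S] (f : R →+* S) (l : List ℤ) :
    (pol l : Polynomial R).map f = pol l := by
  induction l with
  | nil => simp [pol]
  | cons c l ih => simp [pol, ih]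

end Pool.Agent.H19.Trunc
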