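import Mathlib

set_option autoImplicit false

namespace Pool.Agent.H19.Wave

open Set Filter Topology
open scoped NNReal

section ode
variable {E : Type} [NormedAddCommGroup E] [NormedSpace ℝ E]

theorem loc [CompleteSpace E] (F : ℝ → E → E) (K L : ℝ≥0) (hK : ∀ t, LipschitzWith K (F t))
    (hc : ∀ x, Continuous (fun t => F t x)) (hL : ∀ t x, ‖F t x‖ ≤ L) (x0 : E) (N : ℕ) :
    ∃ ψ : ℝ → E, ψ 0 = x0 ∧ ∀ t ∈ Ioo (-(N : ℝ)) N, HasDerivAt ψ (F t (ψ t)) t := by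
  have hN : (0 : ℝ) ≤ N := Nat.cast_nonneg N
  have h : IsPicardLindelof F (tmin := -(N : ℝ)) (tmax := N) ⟨0, by simp⟩ x0 (L * N) 0 L K :=
    ⟨fun t _ => (hK t).lipschitzOnWith, fun x _ => (hc x).continuousOn, fun t _ x _ => hL t x,
      by simp⟩
  obtain ⟨α, h1, h2⟩ := h.exists_eq_forall_mem_Icc_hasDerivWithinAt₀
  exact ⟨α, h1, fun t ht => (h2 t (Ioo_subset_Icc_self ht)).hasDerivAt (Icc_mem_nhds ht.1 ht.2)⟩

theorem glob [CompleteSpace E] (F : ℝ → E → E) (K L : ℝ≥0) (hK : ∀ t, LipschitzWith K (F t))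
    (hc : ∀ x, Continuous (fun t => F t x)) (hL : ∀ t x, ‖F t x‖ ≤ L) (x0 : E) :
    ∃ ψ : ℝ → E, ψ 0 = x0 ∧ ∀ t, HasDerivAt ψ (F t (ψ t)) t := by
  choose α h0 h1 using loc F K L hK hc hL x0
  have hu : ∀ N M : ℕ, 0 < N → N ≤ M → EqOn (α N) (α M) (Ioo (-(N : ℝ)) N) := by
    intro N M hN hNM
    have hN' : (0 : ℝ) < N := by exact_mod_cast hN
    have hNM' : (N : ℝ) ≤ M := by exact_mod_cast hNM
    refine ODE_solution_unique_of_mem_Ioo (v := F) (K := K) (s := fun _ => univ) (t₀ := 0)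
      (fun t _ => (hK t).lipschitzOnWith) ⟨by linarith, hN'⟩
      (fun t ht => ⟨h1 N t ht, trivial⟩)
      (fun t ht => ⟨h1 M t ⟨by linarith [ht.1], by linarith [ht.2]⟩, trivial⟩) (by rw [h0, h0])
  have hm : ∀ t : ℝ, t ∈ Ioo (-((⌈|t|⌉₊ + 1 : ℕ) : ℝ)) ((⌈|t|⌉₊ + 1 : ℕ) : ℝ) := by
    intro t
    have := Nat.le_ceil |t|
    push_cast
    constructor <;> linarith [le_abs_self t, neg_abs_le t]
  have he : ∀ (N : ℕ), ∀ t ∈ Ioo (-(N : ℝ)) N, α (⌈|t|⌉₊ + 1) t = α N t := by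
    intro N t ht
    have hN : 0 < N := by
      have : (0 : ℝ) < N := by linarith [ht.1, ht.2]
      exact_mod_cast this
    rcases le_total N (⌈|t|⌉₊ + 1) with h | h
    · exact (hu N _ hN h ht).symm
    · exact hu _ N (Nat.succ_pos _) h (hm t)
  refine ⟨fun t => α (⌈|t|⌉₊ + 1) t, h0 _, fun t => ?_⟩
  refine (h1 _ t (hm t)).congr_of_eventuallyEq ?_
  filter_upwards [Ioo_mem_nhds (hm t).1 (hm t).2] with s hs using he _ s hs

/-- radial retraction onto the unit ball -/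
noncomputable def ret (y : E) : E := (max 1 ‖y‖)⁻¹ • y

lemma ret_norm (y : E) : ‖ret y‖ ≤ 1 := by
  have h : (0 : ℝ) < max 1 ‖y‖ := lt_max_of_lt_left one_pos
  rw [ret, norm_smul, norm_inv, Real.norm_of_nonneg h.le, inv_mul_le_iff₀ h, mul_one]
  exact le_max_right _ _

lemma ret_eq {y : E} (h : ‖y‖ ≤ 1) : ret y = y := by simp [ret, max_eq_left h]

lemma ret_lip : LipschitzWith 2 (ret : E → E) := by
  refine LipschitzWith.of_dist_le_mul fun x y => ?_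
  have hx : (1 : ℝ) ≤ max 1 ‖x‖ := le_max_left _ _
  have hy : (1 : ℝ) ≤ max 1 ‖y‖ := le_max_left _ _
  have e : ret x - ret y =
      (max 1 ‖x‖)⁻¹ • (x - y) + ((max 1 ‖x‖)⁻¹ * (max 1 ‖y‖ - max 1 ‖x‖)) • ret y := by
    have e1 : (max 1 ‖x‖)⁻¹ * (max 1 ‖y‖ - max 1 ‖x‖) * (max 1 ‖y‖)⁻¹ =
        (max 1 ‖x‖)⁻¹ - (max 1 ‖y‖)⁻¹ := by field_simp
    simp only [ret, smul_smul, e1, smul_sub, sub_smul]
    abel
  have h1 : |max 1 ‖y‖ - max 1 ‖x‖| ≤ ‖x - y‖ := by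
    rw [max_comm 1, max_comm 1]
    exact (abs_max_sub_max_le_abs _ _ _).trans ((abs_norm_sub_norm_le _ _).trans
      (norm_sub_rev _ _).le)
  have h2 : |(max 1 ‖x‖)⁻¹| ≤ 1 := by
    rw [abs_of_pos (by positivity)]; exact inv_le_one_of_one_le₀ hx
  rw [dist_eq_norm, dist_eq_norm, e]
  refine (norm_add_le _ _).trans ?_
  rw [norm_smul, norm_smul, Real.norm_eq_abs, Real.norm_eq_abs, abs_mul]
  have h3 := ret_norm y
  have h4 := norm_nonneg (x - y)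
  have h5 : |(max 1 ‖x‖)⁻¹| * |max 1 ‖y‖ - max 1 ‖x‖| * ‖ret y‖ ≤ 1 * ‖x - y‖ * 1 := by gcongr
  have h6 : |(max 1 ‖x‖)⁻¹| * ‖x - y‖ ≤ 1 * ‖x - y‖ := by gcongr
  push_cast
  linarith

/-- a dissipative curve has nonincreasing norm -/
lemma norm_anti (y y' : ℝ → E) (hy : ∀ t, HasDerivAt y (y' t) t) (h0 : ℝ) (hh : 0 < h0)
    (hd : ∀ t, ∀ h ∈ Ioo 0 h0, ‖y t + h • y' t‖ ≤ ‖y t‖) : Antitone fun t => ‖y t‖ := by
  intro a b hab
  have hc : Continuous y := continuous_iff_continuousAt.2 fun t => (hy t).continuousAt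
  refine image_le_of_liminf_slope_right_le_deriv_boundary (f := fun t => ‖y t‖) (a := a) (b := b)
    (B := fun _ => ‖y a‖) (B' := fun _ => 0) hc.norm.continuousOn le_rfl continuousOn_const
    (fun x _ => hasDerivWithinAt_const _ _ _) (fun x _ r hr => Eventually.frequently ?_) ⟨hab, le_rfl⟩
  have h1 := (hasDerivAt_iff_isLittleO.1 (hy x)).def (half_pos hr)
  have h2 : Ioo x (x + h0) ∈ 𝓝[>] x := Ioo_mem_nhdsGT (by linarith)
  filter_upwards [nhdsWithin_le_nhds h1, h2] with z h3 h4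
  have h5 : 0 < z - x := by linarith [h4.1]
  have h6 := hd x (z - x) ⟨h5, by linarith [h4.2]⟩
  have h7 : ‖y z‖ ≤ ‖y x + (z - x) • y' x‖ + ‖y z - y x - (z - x) • y' x‖ := by
    refine le_trans (le_of_eq ?_) (norm_add_le _ _)
    congr 1
    abel
  rw [Real.norm_of_nonneg h5.le] at h3
  rw [slope_def_field, div_lt_iff₀ h5]
  nlinarith

end ode

/-- joint differentiability from the two one-variable derivatives -/
lemma joint (f ft fs : ℝ → ℝ → ℝ) (ht : ∀ t s, HasDerivAt (fun τ => f τ s) (ft t s) t)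
    (hs : ∀ t s, HasDerivAt (f t) (fs t s) s) (ct : Continuous fun z : ℝ × ℝ => ft z.1 z.2)
    (cs : Continuous fun z : ℝ × ℝ => fs z.1 z.2) (z : ℝ × ℝ) :
    HasFDerivAt (fun z : ℝ × ℝ => f z.1 z.2)
      (ft z.1 z.2 • ContinuousLinearMap.fst ℝ ℝ ℝ + fs z.1 z.2 • ContinuousLinearMap.snd ℝ ℝ ℝ) z := by
  have := hasStrictFDerivAt_uncurry_coprod (𝕜 := ℝ) (f := f) (u := z)
    (f₁ := fun t s => ContinuousLinearMap.toSpanSingleton ℝ (ft t s))
    (f₂ := fun t s => ContinuousLinearMap.toSpanSingleton ℝ (fs t s))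
    (Eventually.of_forall fun v => (ht v.1 v.2).hasFDerivAt)
    (Eventually.of_forall fun v => (hs v.1 v.2).hasFDerivAt)
    (((ContinuousLinearMap.toSpanSingletonLIE ℝ ℝ).continuous.comp ct).continuousAt)
    (((ContinuousLinearMap.toSpanSingletonLIE ℝ ℝ).continuous.comp cs).continuousAt)
  refine this.hasFDerivAt.congr_fderiv ?_
  ext <;> simp [Function.HasUncurry.uncurry]

lemma joint1 (f ft fs : ℝ → ℝ → ℝ) (ht : ∀ t s, HasDerivAt (fun τ => f τ s) (ft t s) t)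
    (hs : ∀ t s, HasDerivAt (f t) (fs t s) s) (ct : Continuous fun z : ℝ × ℝ => ft z.1 z.2)
    (cs : Continuous fun z : ℝ × ℝ => fs z.1 z.2) : ContDiff ℝ 1 fun z : ℝ × ℝ => f z.1 z.2 :=
  contDiff_one_iff_hasFDerivAt.2 ⟨_, by fun_prop, joint f ft fs ht hs ct cs⟩

end Pool.Agent.H19.Wave
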