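import Pool.Agent.H19.WaveA

set_option autoImplicit false
set_option linter.unusedSectionVars false

namespace Pool.Agent.H19.Wave

open Set Filter Topology
open scoped NNReal

variable {p : ℝ} [Fact (0 < p)]

abbrev X (p : ℝ) := C(AddCircle p, ℝ)

/-- pairs (antiperiodic function, its derivative) -/
def Y (p L : ℝ) : Submodule ℝ (X p × X p) where
  carrier := {y | (∀ z, y.1 (z + (L : ℝ)) = - y.1 z) ∧
    ∀ s : ℝ, HasDerivAt (fun s : ℝ => y.1 s) (y.2 s) s}
  add_mem' := fun {a b} ha hb => ⟨fun z => by simp [ha.1, hb.1, add_comm], fun s => (ha.2 s).add (hb.2 s)⟩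
  zero_mem' := ⟨by simp, fun s => hasDerivAt_const s (0 : ℝ)⟩
  smul_mem' := fun c a ha => ⟨fun z => by simp [ha.1], fun s => (ha.2 s).const_mul c⟩

lemma Y_closed (L : ℝ) : IsClosed (Y p L : Set (X p × X p)) := by
  refine IsSeqClosed.isClosed fun x y hx hy => ?_
  have h1 : ∀ z, Tendsto (fun n => (x n).1 z) atTop (𝓝 (y.1 z)) := fun z =>
    ((ContinuousEvalConst.continuous_eval_const z).tendsto _).comp ((continuous_fst.tendsto y).comp hy)
  refine ⟨fun z => tendsto_nhds_unique (h1 _) ?_, fun s => ?_⟩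
  · simpa only [(hx _).1] using (h1 z).neg
  · have h2 := (ContinuousMap.tendsto_iff_tendstoUniformly.1
      ((continuous_snd.tendsto y).comp hy)).comp fun s : ℝ => (s : AddCircle p)
    exact hasDerivAt_of_tendstoUniformly h2 (Eventually.of_forall fun n => (hx n).2)
      (fun s => h1 _) s

instance (L : ℝ) : CompleteSpace (Y p L) := (Y_closed L).completeSpace_coe

noncomputable def D (t : ℝ) (f : X p) : X p :=
  ⟨fun z => (f z - f (((2 * t : ℝ) : AddCircle p) - z)) / 2, by fun_prop⟩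

noncomputable def S (t : ℝ) (f : X p) : X p :=
  ⟨fun z => (f z + f (((2 * t : ℝ) : AddCircle p) - z)) / 2, by fun_prop⟩

lemma ev (f : X p) (z : AddCircle p) : |f z| ≤ ‖f‖ := f.norm_coe_le_norm z

lemma D_le (t : ℝ) (f : X p) (z : AddCircle p) : |D t f z| ≤ ‖f‖ := by
  have h1 := abs_le.1 (ev f z)
  have h2 := abs_le.1 (ev f (((2 * t : ℝ) : AddCircle p) - z))
  exact abs_le.2 ⟨by simp only [D, ContinuousMap.coe_mk]; linarith,
    by simp only [D, ContinuousMap.coe_mk]; linarith⟩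

lemma S_le (t : ℝ) (f : X p) (z : AddCircle p) : |S t f z| ≤ ‖f‖ := by
  have h1 := abs_le.1 (ev f z)
  have h2 := abs_le.1 (ev f (((2 * t : ℝ) : AddCircle p) - z))
  exact abs_le.2 ⟨by simp only [S, ContinuousMap.coe_mk]; linarith,
    by simp only [S, ContinuousMap.coe_mk]; linarith⟩

lemma D_sub (t : ℝ) (f f' : X p) (z : AddCircle p) : D t f z - D t f' z = D t (f - f') z := by
  simp [D]; ring

lemma S_sub (t : ℝ) (f f' : X p) (z : AddCircle p) : S t f z - S t f' z = S t (f - f') z := by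
  simp [S]; ring

/-- the hypotheses on the damping term -/
structure Hyp (g ψ : ℝ → ℝ) (C : ℝ≥0) : Prop where
  der : ∀ x, HasDerivAt g (ψ x) x
  cont : Continuous ψ
  odd : ∀ x, g (-x) = - g x
  pos : 0 < C
  bd : ∀ x, |x| ≤ 1 → 0 ≤ ψ x ∧ ψ x ≤ C
  lin : ∀ x, |x| ≤ 1 → ∃ k : ℝ, 0 ≤ k ∧ k ≤ C ∧ g x = k * x
  lipg : ∀ x y, |x| ≤ 1 → |y| ≤ 1 → |g x - g y| ≤ C * |x - y|
  lipψ : ∀ x y, |x| ≤ 1 → |y| ≤ 1 → |ψ x - ψ y| ≤ C * |x - y|

variable {g ψ : ℝ → ℝ} {C : ℝ≥0} (H : Hyp g ψ C) {L : ℝ}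

lemma Hyp.cg (H : Hyp g ψ C) : Continuous g :=
  continuous_iff_continuousAt.2 fun x => (H.der x).continuousAt

noncomputable def G (t : ℝ) (y : Y p L) : Y p L :=
  ⟨(⟨fun z => - g (D t y.1.1 z), by have := H.cg; fun_prop⟩,
    ⟨fun z => - (ψ (D t y.1.1 z) * S t y.1.2 z), by have := H.cont; fun_prop⟩), by
    refine ⟨fun z => ?_, fun s => ?_⟩
    · have h1 := y.2.1 (((2 * t : ℝ) : AddCircle p) - (z + (L : ℝ)))
      have h2 : ((2 * t : ℝ) : AddCircle p) - (z + (L : ℝ)) + (L : ℝ) =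
          ((2 * t : ℝ) : AddCircle p) - z := by abel
      rw [h2] at h1
      simp only [D, ContinuousMap.coe_mk, y.2.1, ← H.odd]
      congr 1
      linarith
    · have h1 := (y.2.2 (2 * t - s)).comp s ((hasDerivAt_id s).const_sub (2 * t))
      have h2 : HasDerivAt (fun s : ℝ => D t y.1.1 s) (S t y.1.2 s) s := by
        have := ((y.2.2 s).sub h1).div_const 2
        simp only [D, S, ContinuousMap.coe_mk, ← AddCircle.coe_sub]
        refine this.congr_deriv ?_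
        ring
      exact ((H.der _).comp s h2).neg⟩

lemma n1 (y : Y p L) : ‖y.1.1‖ ≤ ‖y‖ := norm_fst_le y.1
lemma n2 (y : Y p L) : ‖y.1.2‖ ≤ ‖y‖ := norm_snd_le y.1

lemma nle (y : Y p L) {c : ℝ} (hc : 0 ≤ c) (h1 : ∀ z, |y.1.1 z| ≤ c) (h2 : ∀ z, |y.1.2 z| ≤ c) :
    ‖y‖ ≤ c :=
  max_le ((ContinuousMap.norm_le _ hc).2 h1) ((ContinuousMap.norm_le _ hc).2 h2)

lemma G_bd (t : ℝ) (y : Y p L) (hy : ‖y‖ ≤ 1) : ‖G H t y‖ ≤ C := by
  have h1 := fun z => (D_le t y.1.1 z).trans ((n1 y).trans hy)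
  have h2 := fun z => (S_le t y.1.2 z).trans ((n2 y).trans hy)
  refine nle _ C.2 (fun z => ?_) fun z => ?_
  · obtain ⟨k, k0, k1, e⟩ := H.lin _ (h1 z)
    change |-g (D t y.1.1 z)| ≤ C
    rw [abs_neg, e, abs_mul, abs_of_nonneg k0]
    exact (mul_le_mul k1 (h1 z) (abs_nonneg _) C.2).trans (mul_one _).le
  · obtain ⟨k0, k1⟩ := H.bd _ (h1 z)
    change |-(ψ (D t y.1.1 z) * S t y.1.2 z)| ≤ C
    rw [abs_neg, abs_mul, abs_of_nonneg k0]
    exact (mul_le_mul k1 (h2 z) (abs_nonneg _) C.2).trans (mul_one _).le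

lemma G_lip (t : ℝ) (y y' : Y p L) (hy : ‖y‖ ≤ 1) (hy' : ‖y'‖ ≤ 1) :
    ‖G H t y - G H t y'‖ ≤ 2 * C * ‖y - y'‖ := by
  have h1 := fun z => (D_le t y.1.1 z).trans ((n1 y).trans hy)
  have h1' := fun z => (D_le t y'.1.1 z).trans ((n1 y').trans hy')
  have h2 := fun z => (S_le t y.1.2 z).trans ((n2 y).trans hy)
  have h3 : ∀ z, |D t y.1.1 z - D t y'.1.1 z| ≤ ‖y - y'‖ := fun z => by
    rw [D_sub]; exact (D_le _ _ _).trans (n1 (y - y'))
  have h4 : ∀ z, |S t y.1.2 z - S t y'.1.2 z| ≤ ‖y - y'‖ := fun z => by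
    rw [S_sub]; exact (S_le _ _ _).trans (n2 (y - y'))
  have hC : (0 : ℝ) ≤ C := C.2
  have hn := norm_nonneg (y - y')
  refine nle _ (by positivity) (fun z => ?_) fun z => ?_
  · change |-g (D t y.1.1 z) - -g (D t y'.1.1 z)| ≤ _
    rw [neg_sub_neg, abs_sub_comm]
    have := (H.lipg _ _ (h1 z) (h1' z)).trans (mul_le_mul_of_nonneg_left (h3 z) hC)
    nlinarith
  · change |-(ψ (D t y.1.1 z) * S t y.1.2 z) - -(ψ (D t y'.1.1 z) * S t y'.1.2 z)| ≤ _
    have a1 := (H.lipψ _ _ (h1 z) (h1' z)).trans (mul_le_mul_of_nonneg_left (h3 z) hC)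
    obtain ⟨k0, k1⟩ := H.bd _ (h1' z)
    have e : -(ψ (D t y.1.1 z) * S t y.1.2 z) - -(ψ (D t y'.1.1 z) * S t y'.1.2 z) =
        -((ψ (D t y.1.1 z) - ψ (D t y'.1.1 z)) * S t y.1.2 z +
          ψ (D t y'.1.1 z) * (S t y.1.2 z - S t y'.1.2 z)) := by ring
    rw [e, abs_neg]
    refine (abs_add_le _ _).trans ?_
    rw [abs_mul, abs_mul, abs_of_nonneg k0]
    have a2 := mul_le_mul a1 (h2 z) (abs_nonneg _) (by positivity)
    have a3 := mul_le_mul k1 (h4 z) (abs_nonneg _) hC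
    linarith

lemma G_cont (y : ℝ → Y p L) (hy : Continuous y) : Continuous fun t => G H t (y t) := by
  have h1 : Continuous fun q : ℝ × AddCircle p => D q.1 (y q.1).1.1 q.2 := by
    simp only [D, ContinuousMap.coe_mk]
    fun_prop
  have h2 : Continuous fun q : ℝ × AddCircle p => S q.1 (y q.1).1.2 q.2 := by
    simp only [S, ContinuousMap.coe_mk]
    fun_prop
  refine Continuous.subtype_mk (Continuous.prodMk ?_ ?_) _
  · exact ContinuousMap.continuous_of_continuous_uncurry _ (H.cg.comp h1).neg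
  · exact ContinuousMap.continuous_of_continuous_uncurry _ ((H.cont.comp h1).mul h2).neg

lemma conv {a b N k : ℝ} (ha : |a| ≤ N) (hb : |b| ≤ N) (k0 : 0 ≤ k) (k1 : k ≤ 1) :
    |a - k * ((a + b) / 2)| ≤ N := by
  rw [abs_le] at *
  constructor <;> nlinarith

set_option maxHeartbeats 1000000 in
include H in
theorem exists_P (y0 : Y p L) (h0 : ‖y0‖ ≤ 1) : ∃ P R Pt : ℝ → ℝ → ℝ,
    (∀ t s, HasDerivAt (fun τ => P τ s) (Pt t s) t) ∧ (∀ t s, HasDerivAt (P t) (R t s) s) ∧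
    (Continuous fun z : ℝ × ℝ => Pt z.1 z.2) ∧ (Continuous fun z : ℝ × ℝ => R z.1 z.2) ∧
    (∀ t s, P t (s + L) = - P t s) ∧ (∀ t s, Pt t (2 * t - s) = - Pt t s) ∧
    (∀ s, P 0 s = y0.1.1 s) ∧ (∀ t, 0 ≤ t → ∀ s, Pt t s = - g ((P t s - P t (2 * t - s)) / 2)) ∧
    ∀ t t' M, t ≤ t' → (∀ s, |P t s| ≤ M) → ∀ s, |P t' s| ≤ M := by
  have hC : (0 : ℝ) < C := H.pos
  obtain ⟨y, hy0, hy⟩ := glob (fun t (y : Y p L) => G H t (ret y)) (4 * C) C
    (fun t => LipschitzWith.of_dist_le_mul fun a b => by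
      have h1 := G_lip H t _ _ (ret_norm a) (ret_norm b)
      have h2 := ret_lip.dist_le_mul a b
      rw [dist_eq_norm] at h2 ⊢
      push_cast at h2 ⊢
      exact h1.trans ((mul_le_mul_of_nonneg_left h2 (by positivity)).trans (le_of_eq (by ring))))
    (fun x => G_cont H (fun _ => ret x) continuous_const) (fun t x => G_bd H t _ (ret_norm x)) y0
  have hc : Continuous y := continuous_iff_continuousAt.2 fun t => (hy t).continuousAt
  have hG := G_cont H _ (ret_lip.continuous.comp hc)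
  have d0 := fun t => (Y p L).subtypeL.hasFDerivAt.comp_hasDerivAt t (hy t)
  have d1 : ∀ t, HasDerivAt (fun t => (y t).1.1) (G H t (ret (y t))).1.1 t := fun t =>
    (ContinuousLinearMap.fst ℝ (X p) (X p)).hasFDerivAt.comp_hasDerivAt t (d0 t)
  have d2 : ∀ t, HasDerivAt (fun t => (y t).1.2) (G H t (ret (y t))).1.2 t := fun t =>
    (ContinuousLinearMap.snd ℝ (X p) (X p)).hasFDerivAt.comp_hasDerivAt t (d0 t)
  have hθ : ∀ t, 0 ≤ (max 1 ‖y t‖)⁻¹ ∧ (max 1 ‖y t‖)⁻¹ ≤ 1 := fun t =>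
    ⟨by positivity, inv_le_one_of_one_le₀ (le_max_left _ _)⟩
  have hk : ∀ t, ∀ h ∈ Ioo (0 : ℝ) (1 / C), ∀ k : ℝ, 0 ≤ k → k ≤ C →
      0 ≤ h * k * (max 1 ‖y t‖)⁻¹ ∧ h * k * (max 1 ‖y t‖)⁻¹ ≤ 1 := by
    intro t h hh k k0 k1
    have a1 := (lt_div_iff₀ hC).1 hh.2
    have a2 : h * k ≤ 1 := by nlinarith [hh.1]
    have a3 : 0 ≤ h * k := mul_nonneg hh.1.le k0
    exact ⟨mul_nonneg a3 (hθ t).1, by nlinarith [hθ t]⟩
  have hD := fun t z => (D_le t (ret (y t)).1.1 z).trans ((n1 _).trans (ret_norm (y t)))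
  have a1 := norm_anti _ _ d1 (1 / C) (by positivity) fun t h hh =>
    (ContinuousMap.norm_le _ (norm_nonneg _)).2 fun z => by
      obtain ⟨k, k0, k1, e⟩ := H.lin _ (hD t z)
      obtain ⟨b0, b1⟩ := hk t h hh k k0 k1
      have := conv (ev (y t).1.1 z) ((abs_neg _).trans_le
        (ev (y t).1.1 (((2 * t : ℝ) : AddCircle p) - z))) b0 b1
      refine le_trans (le_of_eq ?_) this
      change |(y t).1.1 z + h * -g (D t (ret (y t)).1.1 z)| = _
      rw [e]
      congr 1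
      simp [D, ret]
      ring
  have a2 := norm_anti _ _ d2 (1 / C) (by positivity) fun t h hh =>
    (ContinuousMap.norm_le _ (norm_nonneg _)).2 fun z => by
      obtain ⟨k0, k1⟩ := H.bd _ (hD t z)
      obtain ⟨b0, b1⟩ := hk t h hh _ k0 k1
      have := conv (ev (y t).1.2 z) (ev (y t).1.2 (((2 * t : ℝ) : AddCircle p) - z)) b0 b1
      refine le_trans (le_of_eq ?_) this
      change |(y t).1.2 z + h * -(ψ (D t (ret (y t)).1.1 z) * S t (ret (y t)).1.2 z)| = _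
      generalize ψ (D t (ret (y t)).1.1 z) = k
      congr 1
      simp [S, ret]
      ring
  refine ⟨fun t s => (y t).1.1 s, fun t s => (y t).1.2 s, fun t s => (G H t (ret (y t))).1.1 s,
    fun t s => ?_, fun t s => (y t).2.2 s, ?_, by fun_prop, fun t s => ?_, fun t s => ?_,
    fun s => by simp only [hy0], fun t ht s => ?_, fun t t' M ht hM s => ?_⟩
  · exact (ContinuousMap.evalCLM ℝ (s : AddCircle p)).hasFDerivAt.comp_hasDerivAt t (d1 t)
  · have : Continuous fun t => (G H t (ret (y t))).1.1 :=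
      continuous_fst.comp (continuous_subtype_val.comp hG)
    exact (this.comp continuous_fst).eval ((AddCircle.continuous_mk' p).comp continuous_snd)
  · simp only [AddCircle.coe_add, (y t).2.1]
  · change -g (D t (ret (y t)).1.1 _) = - -g (D t (ret (y t)).1.1 _)
    rw [← H.odd, ← H.odd, ← H.odd]
    congr 1
    simp only [D, ContinuousMap.coe_mk, AddCircle.coe_sub, sub_sub_cancel]
    ring
  · have b1 : ‖(y t).1.1‖ ≤ ‖(y 0).1.1‖ := a1 ht
    have b2 : ‖(y t).1.2‖ ≤ ‖(y 0).1.2‖ := a2 ht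
    have : ‖y t‖ ≤ 1 := max_le (b1.trans ((n1 _).trans (hy0 ▸ h0))) (b2.trans ((n2 _).trans (hy0 ▸ h0)))
    have e : ret (y t) = y t := ret_eq this
    beta_reduce
    erw [e]
    simp only [G, D, ContinuousMap.coe_mk, AddCircle.coe_sub]
  · have b1 : ‖(y t').1.1‖ ≤ ‖(y t).1.1‖ := a1 ht
    refine (ev _ _).trans (b1.trans ((ContinuousMap.norm_le _ ((abs_nonneg _).trans (hM 0))).2 ?_))
    intro z
    induction z using QuotientAddGroup.induction_on with
    | H z => exact hM z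

end Pool.Agent.H19.Wave
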