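import Pool.Agent.H19.WaveB

set_option autoImplicit false

namespace Pool.Agent.H19.Wave

open Set Filter Topology
open scoped NNReal

noncomputable def gg (a α x : ℝ) : ℝ := a * |x| ^ α * x

noncomputable def ps (a α x : ℝ) : ℝ := a * (α + 1) * |x| ^ α

variable {a α : ℝ}

lemma cabs (hα : 1 ≤ α) : Continuous fun x : ℝ => |x| ^ α :=
  continuous_abs.rpow_const fun _ => Or.inr (by linarith)

lemma gder (hα : 1 ≤ α) (x : ℝ) : HasDerivAt (gg a α) (ps a α x) x := by
  by_cases hx : x = 0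
  · subst hx
    rw [hasDerivAt_iff_tendsto_slope_zero]
    have h1 : Tendsto (fun x : ℝ => a * |x| ^ α) (𝓝[≠] 0) (𝓝 (ps a α 0)) := by
      have := (((cabs hα).const_mul a).tendsto 0).mono_left (nhdsWithin_le_nhds (s := {0}ᶜ))
      simpa [ps, Real.zero_rpow (show α ≠ 0 by linarith)] using this
    refine h1.congr' ?_
    filter_upwards [self_mem_nhdsWithin] with y hy
    have : y ≠ 0 := hy
    simp only [gg, zero_add, mul_zero, sub_zero, smul_eq_mul]
    field_simp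
  · have h0 : |x| ≠ 0 := abs_ne_zero.2 hx
    have h1 := (((hasDerivAt_abs hx).rpow_const (p := α) (Or.inl h0)).const_mul a).mul
      (hasDerivAt_id x)
    refine h1.congr_deriv ?_
    have h2 : (SignType.sign x : ℝ) * x = |x| := sign_mul_self x
    simp only [ps, id, Real.rpow_sub_one h0]
    field_simp
    linear_combination a * α * h2

lemma gcont (hα : 1 ≤ α) : Continuous (gg a α) :=
  continuous_iff_continuousAt.2 fun x => (gder hα x).continuousAt

lemma godd (x : ℝ) : gg a α (-x) = - gg a α x := by simp [gg]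

lemma ps_le (ha : 0 < a) (hα : 1 ≤ α) {x m : ℝ} (h : |x| ≤ m) :
    0 ≤ ps a α x ∧ ps a α x ≤ (α + 1) * (a * m ^ α) := by
  have h1 : |x| ^ α ≤ m ^ α := Real.rpow_le_rpow (abs_nonneg _) h (by linarith)
  have h2 : 0 ≤ a * (α + 1) := by positivity
  exact ⟨by unfold ps; positivity, by unfold ps; nlinarith⟩

lemma glip (ha : 0 < a) (hα : 1 ≤ α) {x y m : ℝ} (hx : |x| ≤ m) (hy : |y| ≤ m) :
    |gg a α x - gg a α y| ≤ (α + 1) * (a * m ^ α) * |x - y| :=
  (convex_Icc (-m) m).norm_image_sub_le_of_norm_hasDerivWithin_le (f := gg a α) (f' := ps a α)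
    (fun z _ => (gder hα z).hasDerivWithinAt)
    (fun _ hz => (abs_of_nonneg (ps_le ha hα (abs_le.2 hz)).1).trans_le (ps_le ha hα (abs_le.2 hz)).2)
    (abs_le.1 hy) (abs_le.1 hx)

lemma gabs (ha : 0 < a) (hα : 1 ≤ α) {x m : ℝ} (h : |x| ≤ m) : |gg a α x| ≤ a * m ^ α * m := by
  have h1 : |x| ^ α ≤ m ^ α := Real.rpow_le_rpow (abs_nonneg _) h (by linarith)
  have h0 : 0 ≤ m := (abs_nonneg _).trans h
  rw [gg, abs_mul, abs_of_nonneg (by positivity)]
  gcongr

lemma plip (hα : 1 ≤ α) {x y : ℝ} (hx : |x| ≤ 1) (hy : |y| ≤ 1) :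
    abs (|x| ^ α - |y| ^ α) ≤ α * |x - y| := by
  have := (convex_Icc (0 : ℝ) 1).norm_image_sub_le_of_norm_hasDerivWithin_le (f := fun u => u ^ α)
    (f' := fun u => α * u ^ (α - 1)) (C := α)
    (fun z _ => (Real.hasDerivAt_rpow_const (Or.inr hα)).hasDerivWithinAt)
    (fun z hz => by
      have h1 := Real.rpow_le_one hz.1 hz.2 (show 0 ≤ α - 1 by linarith)
      have h2 := Real.rpow_nonneg hz.1 (α - 1)
      rw [Real.norm_of_nonneg (by positivity)]
      nlinarith) ⟨abs_nonneg y, hy⟩ ⟨abs_nonneg x, hx⟩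
  exact this.trans (mul_le_mul_of_nonneg_left (abs_abs_sub_abs_le_abs_sub x y) (by linarith))

lemma hyp (ha : 0 < a) (hα : 1 ≤ α) : ∃ C, Hyp (gg a α) (ps a α) C := by
  have h1 : 0 < a * (α + 1) := by positivity
  have h2 : a * (α + 1) ≤ a * (α + 1) * α := by nlinarith
  obtain ⟨C, hC⟩ : ∃ C : ℝ≥0, (C : ℝ) = a * (α + 1) * α := ⟨⟨_, by positivity⟩, rfl⟩
  refine ⟨C, gder hα, (cabs hα).const_mul _, godd,
    (show (0 : ℝ) < C by rw [hC]; positivity), fun x hx => ?_, fun x hx => ?_, fun x y hx hy => ?_,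
    fun x y hx hy => ?_⟩
  · have := ps_le ha hα hx
    rw [Real.one_rpow] at this
    exact ⟨this.1, this.2.trans (by linarith)⟩
  · have := Real.rpow_le_one (abs_nonneg x) hx (show 0 ≤ α by linarith)
    exact ⟨a * |x| ^ α, by positivity, by rw [hC]; nlinarith, rfl⟩
  · have := glip ha hα hx hy
    rw [Real.one_rpow] at this
    exact this.trans (mul_le_mul_of_nonneg_right (by linarith)
      (abs_nonneg _))
  · simp only [ps, ← mul_sub, hC]
    rw [abs_mul, abs_of_pos h1, mul_assoc _ α]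
    exact mul_le_mul_of_nonneg_left (plip hα hx hy) h1.le

lemma pconv (hα : 1 ≤ α) (x y l m : ℝ) (hl : 0 ≤ l) (hm : 0 ≤ m) (h : l + m = 1) :
    |l * x + m * y| ^ α ≤ l * |x| ^ α + m * |y| ^ α := by
  refine le_trans (Real.rpow_le_rpow (abs_nonneg _) ?_ (by linarith))
    ((convexOn_rpow hα).2 (abs_nonneg x) (abs_nonneg y) hl hm h)
  refine (abs_add_le _ _).trans (le_of_eq ?_)
  simp [abs_mul, abs_of_nonneg hl, abs_of_nonneg hm]

lemma pmono (hα : 1 ≤ α) (Q : ℝ) {y z : ℝ} (hy : 0 < y) (h : y ≤ z) :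
    |(y - Q) / 2| ^ α + |(y + Q) / 2| ^ α ≤ |(z - Q) / 2| ^ α + |(z + Q) / 2| ^ α := by
  have hz : 0 < z := by linarith
  have l0 : 0 ≤ (z + y) / (2 * z) := by positivity
  have m0 : 0 ≤ (z - y) / (2 * z) := div_nonneg (by linarith) (by positivity)
  have s : (z + y) / (2 * z) + (z - y) / (2 * z) = 1 := by field_simp; ring
  have h1 := pconv hα ((z + Q) / 2) (-((z - Q) / 2)) _ _ l0 m0 s
  have h2 := pconv hα ((z - Q) / 2) (-((z + Q) / 2)) _ _ l0 m0 s
  have e1 : (z + y) / (2 * z) * ((z + Q) / 2) + (z - y) / (2 * z) * -((z - Q) / 2) = (y + Q) / 2 := by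
    field_simp; ring
  have e2 : (z + y) / (2 * z) * ((z - Q) / 2) + (z - y) / (2 * z) * -((z + Q) / 2) = (y - Q) / 2 := by
    field_simp; ring
  rw [e1, abs_neg] at h1
  rw [e2, abs_neg] at h2
  have e3 : (z - y) / (2 * z) = 1 - (z + y) / (2 * z) := by linarith
  rw [e3] at h1 h2
  linarith

noncomputable def hh (a α Q y : ℝ) : ℝ := (gg a α ((y - Q) / 2) + gg a α ((y + Q) / 2)) / 2

lemma star (ha : 0 < a) (hα : 1 ≤ α) (Q : ℝ) {y M : ℝ} (hy : 0 ≤ y) (h : y ≤ M) (hM : 0 < M) :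
    M * hh a α Q y ≤ y * hh a α Q M := by
  have d : ∀ y, HasDerivAt (hh a α Q) ((ps a α ((y - Q) / 2) * (1 / 2) +
      ps a α ((y + Q) / 2) * (1 / 2)) / 2) y := fun y =>
    (((gder hα _).comp y (((hasDerivAt_id y).sub_const Q).div_const 2)).add
      ((gder hα _).comp y (((hasDerivAt_id y).add_const Q).div_const 2))).div_const 2
  have c : ConvexOn ℝ (Ici 0) (hh a α Q) := by
    refine MonotoneOn.convexOn_of_deriv (convex_Ici 0)
      (fun y _ => (d y).continuousAt.continuousWithinAt)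
      (fun y _ => (d y).differentiableAt.differentiableWithinAt) fun y hy z _ h => ?_
    rw [interior_Ici] at hy
    rw [(d y).deriv, (d z).deriv]
    have := mul_le_mul_of_nonneg_left (pmono hα Q hy h) (show 0 ≤ a * (α + 1) by positivity)
    unfold ps
    linarith
  have h0 : hh a α Q 0 = 0 := by
    rw [hh, zero_sub, zero_add, neg_div, godd]; ring
  have := c.2 (show M ∈ Ici 0 from hM.le) (show (0 : ℝ) ∈ Ici 0 from self_mem_Ici)
    (show 0 ≤ y / M by positivity) (show 0 ≤ 1 - y / M by rw [sub_nonneg, div_le_one hM]; exact h)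
    (by ring)
  simp only [smul_eq_mul, h0, mul_zero, add_zero, div_mul_cancel₀ _ hM.ne'] at this
  refine (mul_le_mul_of_nonneg_left this hM.le).trans (le_of_eq ?_)
  field_simp

lemma hlow (ha : 0 < a) (hα : 1 ≤ α) {Q M : ℝ} (h : |Q| ≤ M) :
    a * M ^ α * M / (4 * 2 ^ α) ≤ hh a α Q M := by
  have hM : 0 ≤ M := (abs_nonneg _).trans h
  have k : ∀ u v : ℝ, 0 ≤ u → M / 2 ≤ v → a * M ^ α * M / (4 * 2 ^ α) ≤ (gg a α u + gg a α v) / 2 := by
    intro u v hu hv
    have h1 : 0 ≤ gg a α u := by unfold gg; positivity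
    have h2 : a * (M / 2) ^ α * (M / 2) ≤ gg a α v := by
      have hv0 : 0 ≤ v := by linarith
      rw [gg, abs_of_nonneg hv0]
      gcongr
    rw [Real.div_rpow hM (by norm_num)] at h2
    have e : a * M ^ α * M / (4 * 2 ^ α) = a * (M ^ α / 2 ^ α) * (M / 2) / 2 := by ring
    linarith
  rw [abs_le] at h
  rcases le_total 0 Q with hQ | hQ
  · exact k _ _ (by linarith) (by linarith)
  · rw [hh, add_comm]
    exact k _ _ (by linarith) (by linarith)

lemma half {u v M : ℝ} (hu : |u| ≤ M) (hv : |v| ≤ M) : |(u - v) / 2| ≤ M ∧ |(u + v) / 2| ≤ M := by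
  rw [abs_le] at hu hv
  exact ⟨abs_le.2 ⟨by linarith, by linarith⟩, abs_le.2 ⟨by linarith, by linarith⟩⟩

lemma hup (ha : 0 < a) (hα : 1 ≤ α) {Q M : ℝ} (h : |Q| ≤ M) : hh a α Q M ≤ a * M ^ α * M := by
  have hM : |M| ≤ M := (abs_of_nonneg ((abs_nonneg _).trans h)).le
  have h1 := (abs_le.1 (gabs ha hα (half hM h).1)).2
  have h2 := (abs_le.1 (gabs ha hα (half hM h).2)).2
  unfold hh
  linarith

lemma hlip (ha : 0 < a) (hα : 1 ≤ α) {Q M y : ℝ} (h : |Q| ≤ M) (hy : |y| ≤ M) :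
    hh a α Q M ≤ hh a α Q y + (α + 1) * (a * M ^ α) * (M - y) / 2 := by
  have hM : |M| ≤ M := (abs_of_nonneg ((abs_nonneg _).trans h)).le
  have h1 := (abs_le.1 (glip ha hα (half hM h).1 (half hy h).1)).2
  have h2 := (abs_le.1 (glip ha hα (half hM h).2 (half hy h).2)).2
  have h3 := (abs_le.1 hy).2
  rw [abs_of_nonneg (by linarith)] at h1 h2
  unfold hh
  linarith

end Pool.Agent.H19.Wave
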