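import Pool.Agent.H19.WaveC

set_option autoImplicit false

namespace Pool.Agent.H19.Wave

open Set Filter Topology intervalIntegral

variable {a α L : ℝ}

structure Sol (a α L : ℝ) (P R Pt : ℝ → ℝ → ℝ) : Prop where
  dt : ∀ t s, HasDerivAt (fun τ => P τ s) (Pt t s) t
  ds : ∀ t s, HasDerivAt (P t) (R t s) s
  ct : Continuous fun z : ℝ × ℝ => Pt z.1 z.2
  cs : Continuous fun z : ℝ × ℝ => R z.1 z.2
  anti : ∀ t s, P t (s + L) = - P t s
  odd : ∀ t s, Pt t (2 * t - s) = - Pt t s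
  eq : ∀ t, 0 ≤ t → ∀ s, Pt t s = - gg a α ((P t s - P t (2 * t - s)) / 2)
  mx : ∀ t t' M, t ≤ t' → (∀ s, |P t s| ≤ M) → ∀ s, |P t' s| ≤ M

variable {P R Pt : ℝ → ℝ → ℝ}

lemma Sol.cP (h : Sol a α L P R Pt) (t : ℝ) : Continuous (P t) :=
  continuous_iff_continuousAt.2 fun s => (h.ds t s).continuousAt

lemma Sol.drift (h : Sol a α L P R Pt) (ha : 0 < a) (hα : 1 ≤ α) {t0 M : ℝ} (h0 : 0 ≤ t0)
    (hM : ∀ s, |P t0 s| ≤ M) {t : ℝ} (ht : t ∈ Icc t0 (t0 + L)) (s : ℝ) :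
    |P t s - P t0 s| ≤ a * M ^ α * M * L := by
  have hM0 : 0 ≤ M := (abs_nonneg _).trans (hM 0)
  have := (convex_Icc t0 (t0 + L)).norm_image_sub_le_of_norm_hasDerivWithin_le
    (f := fun τ => P τ s) (f' := fun τ => Pt τ s) (C := a * M ^ α * M)
    (fun z _ => (h.dt z s).hasDerivWithinAt)
    (fun z hz => by
      have b := h.mx _ _ _ hz.1 hM
      rw [h.eq z (h0.trans hz.1), norm_neg]
      exact gabs ha hα (half (b _) (b _)).1) ⟨le_rfl, ht.1.trans ht.2⟩ ht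
  refine this.trans (mul_le_mul_of_nonneg_left ?_ (by positivity))
  rw [Real.norm_of_nonneg (by linarith [ht.1])]
  linarith [ht.2]

lemma avg (hα : 1 ≤ α) (Q : ℝ → ℝ) (hc : Continuous Q) (hQ : ∀ s, Q (s + L) = - Q s) (t0 s y : ℝ) :
    ∫ t in t0..t0 + L, gg a α ((y - Q (2 * t - s)) / 2) = ∫ σ in (0 : ℝ)..L, hh a α (Q σ) y := by
  have g := gcont (a := a) hα
  have c1 : Continuous fun σ => gg a α ((y - Q σ) / 2) := by fun_prop
  have c2 : Continuous fun σ => gg a α ((y + Q σ) / 2) := by fun_prop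
  have hp : Function.Periodic (fun σ => gg a α ((y - Q σ) / 2)) (L + L) := fun σ => by
    simp only [← add_assoc, hQ, neg_neg]
  rw [integral_comp_mul_sub (fun σ => gg a α ((y - Q σ) / 2)) two_ne_zero,
    show 2 * (t0 + L) - s = 2 * t0 - s + (L + L) by ring, hp.intervalIntegral_add_eq _ 0, zero_add,
    ← integral_add_adjacent_intervals (b := L) (c1.intervalIntegrable _ _)
      (c1.intervalIntegrable _ _)]
  have e := integral_comp_add_right (a := 0) (b := L) (fun σ => gg a α ((y - Q σ) / 2)) L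
  rw [zero_add] at e
  rw [← e]
  simp only [hQ, sub_neg_eq_add, hh]
  rw [integral_div, integral_add (c1.intervalIntegrable _ _) (c2.intervalIntegrable _ _)]
  simp only [smul_eq_mul]
  ring

lemma int_le (hL : 0 < L) {f g : ℝ → ℝ} (hf : Continuous f) (hg : Continuous g) (c d e : ℝ)
    (h : ∀ s, c * f s ≤ d * g s + e) :
    c * ∫ s in (0 : ℝ)..L, f s ≤ (d * ∫ s in (0 : ℝ)..L, g s) + e * L := by
  have := integral_mono_on (μ := MeasureTheory.volume) (g := fun s => d * g s + e) hL.le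
    ((hf.const_mul c).intervalIntegrable _ _)
    (((hg.const_mul d).add continuous_const).intervalIntegrable _ _) fun s _ => h s
  rw [integral_add ((hg.const_mul d).intervalIntegrable _ _) (by simp), integral_const_mul,
    integral_const_mul] at this
  simpa [mul_comm] using this

lemma Sol.step (h : Sol a α L P R Pt) (ha : 0 < a) (hα : 1 ≤ α) (hL : 0 < L) {t0 M : ℝ}
    (h0 : 0 ≤ t0) (hM0 : 0 < M) (hM : ∀ s, |P t0 s| ≤ M) (hw : (α + 1) * (a * M ^ α) * L ≤ 1) :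
    ∃ D, L / (4 * 2 ^ α) * (a * M ^ α) * M ≤ D ∧ D ≤ L * (a * M ^ α) * M ∧
      (∀ s, |P (t0 + L) s| ≤ M - D + (α + 1) * L ^ 2 * (a * M ^ α) ^ 2 * M) ∧
      ∀ s, 0 ≤ P t0 s →
        P t0 s * (M - D) - (α + 1) * L ^ 2 * (a * M ^ α) ^ 2 * M * M ≤ M * P (t0 + L) s := by
  have g := gcont (a := a) hα
  have cP := h.cP t0
  have ch : ∀ y, Continuous fun σ => hh a α (P t0 σ) y := fun y => by unfold hh; fun_prop
  have hw0 : 0 < a * M ^ α := by positivity
  have err : ∀ s, |P (t0 + L) s - P t0 s + ∫ σ in (0 : ℝ)..L, hh a α (P t0 σ) (P t0 s)| ≤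
      (α + 1) * L ^ 2 * (a * M ^ α) ^ 2 * M := by
    intro s
    have c1 : Continuous fun t => Pt t s := h.ct.comp (f := fun t => (t, s)) (by fun_prop)
    have c2 : Continuous fun t => gg a α ((P t0 s - P t0 (2 * t - s)) / 2) := by fun_prop
    rw [← avg hα _ cP (h.anti t0) t0 s,
      ← integral_eq_sub_of_hasDerivAt (fun t _ => h.dt t s) (c1.intervalIntegrable _ _),
      ← integral_add (c1.intervalIntegrable _ _) (c2.intervalIntegrable _ _)]
    refine (norm_integral_le_of_norm_le_const (E := ℝ)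
      (C := (α + 1) * (a * M ^ α) * (a * M ^ α * M * L)) fun t ht => ?_).trans (le_of_eq ?_)
    · rw [uIoc_of_le (by linarith)] at ht
      have b := h.mx _ _ _ ht.1.le hM
      rw [h.eq t (h0.trans ht.1.le), neg_add_eq_sub]
      refine (glip ha hα (half (hM _) (hM _)).1 (half (b _) (b _)).1).trans
        (mul_le_mul_of_nonneg_left ?_ (by positivity))
      have d1 := abs_le.1 (h.drift ha hα h0 hM ⟨ht.1.le, ht.2⟩ s)
      have d2 := abs_le.1 (h.drift ha hα h0 hM ⟨ht.1.le, ht.2⟩ (2 * t - s))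
      exact abs_le.2 ⟨by linarith, by linarith⟩
    · rw [add_sub_cancel_left, abs_of_pos hL]
      ring
  have up : ∀ s, P (t0 + L) s ≤ M - (∫ σ in (0 : ℝ)..L, hh a α (P t0 σ) M) +
      (α + 1) * L ^ 2 * (a * M ^ α) ^ 2 * M := by
    intro s
    have h1 := int_le hL (ch M) (ch (P t0 s)) 1 1 _ fun σ => by
      simpa only [one_mul] using hlip ha hα (hM σ) (hM s)
    have h2 := (abs_le.1 (err s)).2
    have h3 := mul_le_mul_of_nonneg_right hw (sub_nonneg.2 (abs_le.1 (hM s)).2)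
    have h4 := (abs_le.1 (hM s)).2
    linarith
  refine ⟨∫ σ in (0 : ℝ)..L, hh a α (P t0 σ) M, ?_, ?_, fun s => abs_le.2 ⟨?_, up s⟩, fun s hs => ?_⟩
  · have := int_le hL (ch M) (ch M) 0 1 (-(a * M ^ α * M / (4 * 2 ^ α))) fun σ => by
      linarith [hlow ha hα (hM σ)]
    have e : L / (4 * 2 ^ α) * (a * M ^ α) * M = a * M ^ α * M / (4 * 2 ^ α) * L := by ring
    linarith
  · have := int_le hL (ch M) (ch M) 1 0 (a * M ^ α * M) fun σ => by
      linarith [hup ha hα (hM σ)]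
    linarith
  · have := up (s + L)
    rw [h.anti] at this
    linarith
  · have h1 := int_le hL (ch (P t0 s)) (ch M) M (P t0 s) 0 fun σ => by
      simpa only [add_zero] using star ha hα (P t0 σ) hs (abs_le.1 (hM s)).2 hM0
    have h2 := mul_le_mul_of_nonneg_left (abs_le.1 (err s)).1 hM0.le
    linarith

lemma small {δ M : ℝ} (ha : 0 < a) (hα : 1 ≤ α) (hM : 0 < M) (h : M ≤ δ) :
    a * M ^ α * δ ≤ a * δ ^ α * M := by
  have hδ : 0 < δ := hM.trans_le h
  have h1 := Real.rpow_le_self_of_le_one (show 0 ≤ M / δ by positivity)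
    ((div_le_one hδ).2 h) hα
  rw [Real.div_rpow hM.le hδ.le, div_le_div_iff₀ (by positivity) hδ] at h1
  nlinarith

lemma alg {c A δ M w w0 D y y' : ℝ} (hc : 0 < c) (hA : 0 < A) (hδ : 0 < δ) (hM : 0 < M)
    (hMδ : M ≤ δ) (hw : 0 < w) (hw0 : w * δ ≤ w0 * M) (s1 : A * w0 ≤ c / 24) (D1 : c * w * M ≤ D)
    (D2 : D ≤ M / 2) (hy : (1 / 4 + M / (4 * δ)) * M ≤ y)
    (hy' : y * (M - D) - A * w ^ 2 * M * M ≤ M * y') :
    (1 / 4 + (M - D + A * w ^ 2 * M) / (4 * δ)) * (M - D + A * w ^ 2 * M) ≤ y' := by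
  have h1 : A * w * δ ≤ c / 24 * M := by nlinarith
  have h2 : A * w ≤ c / 24 := by
    by_contra h
    nlinarith
  have h3 : (1 / 4 + M / (4 * δ)) * (M - D) - A * w ^ 2 * M ≤ y' := by
    refine le_of_mul_le_mul_left ?_ hM
    nlinarith [mul_le_mul_of_nonneg_right hy (show 0 ≤ M - D by linarith)]
  refine le_trans ?_ h3
  have hr : M / (4 * δ) ≤ 1 / 4 := by rw [div_le_iff₀ (by positivity)]; linarith
  have e0 : 0 < A * w ^ 2 * M := by positivity
  have x1 : c * w * M / 2 ≤ D - A * w ^ 2 * M := by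
    nlinarith [mul_le_mul_of_nonneg_right h2 (show 0 ≤ w * M by positivity), mul_pos (mul_pos hc hw) hM]
  have x2 : c * w * M / 2 * (M / 2) ≤ (D - A * w ^ 2 * M) * (M - D + A * w ^ 2 * M) :=
    mul_le_mul x1 (by linarith) (by positivity) (le_trans (by positivity) x1)
  have x3 : 3 / 2 * (A * w ^ 2 * M) ≤
      (D - A * w ^ 2 * M) * (M - D + A * w ^ 2 * M) / (4 * δ) := by
    rw [le_div_iff₀ (by positivity)]
    nlinarith [mul_le_mul_of_nonneg_right h1 (show 0 ≤ w * M by positivity)]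
  have e : (1 / 4 + (M - D + A * w ^ 2 * M) / (4 * δ)) * (M - D + A * w ^ 2 * M) =
      (1 / 4 + M / (4 * δ)) * (M - D) + (1 / 4 + M / (4 * δ)) * (A * w ^ 2 * M) -
        (D - A * w ^ 2 * M) * (M - D + A * w ^ 2 * M) / (4 * δ) := by ring
  rw [e]
  nlinarith

lemma rec_w (ha : 0 < a) (hα : 1 ≤ α) {M x c : ℝ} (hM : 0 < M) (hc : 0 < c)
    (x1 : c * (a * M ^ α) ≤ x) (x2 : x ≤ L * (a * M ^ α)) (x3 : α * L * (a * M ^ α) ≤ 1 / 2) :
    1 / (a * M ^ α) + c ≤ 1 / (a * (M * (1 - x)) ^ α) ∧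
      1 / (a * (M * (1 - x)) ^ α) ≤ 1 / (a * M ^ α) + 2 * α * L := by
  have hw : 0 < a * M ^ α := by positivity
  have x0 : 0 < x := lt_of_lt_of_le (by positivity) x1
  have x4 : α * x ≤ α * L * (a * M ^ α) := by nlinarith
  have x5 : x ≤ 1 / 2 := by nlinarith
  have h1 : (1 - x) ^ α ≤ 1 - x := Real.rpow_le_self_of_le_one (by linarith) (by linarith) hα
  have h2 := one_add_mul_self_le_rpow_one_add (s := -x) (by linarith) hα
  rw [← sub_eq_add_neg] at h2
  rw [Real.mul_rpow hM.le (by linarith), ← mul_assoc]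
  have h3 : 0 < (1 - x) ^ α := Real.rpow_pos_of_pos (by linarith) _
  generalize (1 - x) ^ α = q at *
  generalize a * M ^ α = w at *
  constructor
  · rw [div_add' _ _ _ hw.ne', div_le_div_iff₀ hw (by positivity)]
    have : (1 + c * w) * q ≤ 1 := by nlinarith
    nlinarith
  · rw [div_add' _ _ _ hw.ne', div_le_div_iff₀ (by positivity) hw]
    have : 1 ≤ (1 + 2 * α * L * w) * q := by nlinarith
    nlinarith

lemma Sol.iter (h : Sol a α L P R Pt) (ha : 0 < a) (hα : 1 ≤ α) (hL : 0 < L) {δ : ℝ} (hδ : 0 < δ)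
    (i1 : ∀ s, |P 0 s| ≤ δ) (i2 : ∀ s ∈ Icc 0 (L / 3), δ / 2 ≤ P 0 s)
    (s0 : (α + 1) * (a * δ ^ α) * L ≤ 1 / 4)
    (s1 : (α + 1) * L ^ 2 * (a * δ ^ α) ≤ L / (4 * 2 ^ α) / 24) (k : ℕ) :
    ∃ M, 0 < M ∧ M ≤ δ ∧ (∀ s, |P (k * L) s| ≤ M) ∧
      (∀ s ∈ Icc 0 (L / 3), (1 / 4 + M / (4 * δ)) * M ≤ P (k * L) s) ∧
      1 / (a * δ ^ α) + k * (L / (4 * 2 ^ α) / 2) ≤ 1 / (a * M ^ α) ∧
      1 / (a * M ^ α) ≤ 1 / (a * δ ^ α) + k * (2 * α * L) := by
  induction k with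
  | zero =>
    refine ⟨δ, hδ, le_rfl, by simpa using i1, fun s hs => ?_, by simp, by simp⟩
    have : (1 / 4 + δ / (4 * δ)) * δ = δ / 2 := by field_simp; ring
    rw [this]
    simpa using i2 s hs
  | succ k ih =>
    obtain ⟨M, m0, m1, m2, m3, m4, m5⟩ := ih
    have hw : 0 < a * M ^ α := by positivity
    have w1 : a * M ^ α ≤ a * δ ^ α := by gcongr
    have w2 : (α + 1) * (a * M ^ α) * L ≤ 1 / 4 := le_trans (by gcongr) s0
    have w3 : (α + 1) * L ^ 2 * (a * M ^ α) ≤ L / (4 * 2 ^ α) / 24 := le_trans (by gcongr) s1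
    have w4 : L * (a * M ^ α) ≤ 1 / 8 := by nlinarith [mul_pos hw hL]
    have hc : 0 < L / (4 * 2 ^ α) := by positivity
    obtain ⟨D, D1, D2, D3, D4⟩ := h.step ha hα hL (t0 := k * L) (by positivity) m0 m2 (by linarith)
    have e0 : 0 < (α + 1) * L ^ 2 * (a * M ^ α) ^ 2 * M := by positivity
    have e1 : (α + 1) * L ^ 2 * (a * M ^ α) ^ 2 * M ≤ L / (4 * 2 ^ α) / 24 * (a * M ^ α) * M := by
      nlinarith [mul_le_mul_of_nonneg_right w3 (show 0 ≤ a * M ^ α * M by positivity)]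
    have e2 : 0 < L / (4 * 2 ^ α) * (a * M ^ α) * M := by positivity
    have D5 : D ≤ M / 2 := by nlinarith
    have e : M - D + (α + 1) * L ^ 2 * (a * M ^ α) ^ 2 * M =
        M * (1 - (D - (α + 1) * L ^ 2 * (a * M ^ α) ^ 2 * M) / M) := by field_simp; ring
    have r := rec_w (L := L) (x := (D - (α + 1) * L ^ 2 * (a * M ^ α) ^ 2 * M) / M) ha hα m0
      (half_pos hc) (by rw [le_div_iff₀ m0]; linarith) (by rw [div_le_iff₀ m0]; linarith)
      (by nlinarith [mul_pos hw hL])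
    rw [← e] at r
    refine ⟨M - D + (α + 1) * L ^ 2 * (a * M ^ α) ^ 2 * M, by linarith, by linarith, ?_,
      fun s hs => ?_, ?_, ?_⟩
    · simpa [add_mul] using D3
    · have := alg hc (by positivity) hδ m0 m1 hw (small ha hα m0 m1) s1 D1 D5 (m3 s hs)
        (D4 s (le_trans (by positivity) (m3 s hs)))
      simpa [add_mul] using this
    · push_cast
      linarith [r.1]
    · push_cast
      linarith [r.2]

end Pool.Agent.H19.Wave
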