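import Pool.Agent.H19.WaveD

set_option autoImplicit false

namespace Pool.Agent.H19.Wave

open Set Filter Topology intervalIntegral Real

variable {a α L : ℝ}

lemma four (hL : 0 < L) (s : ℝ) :
    fourier 1 (s : AddCircle (2 * L)) = Complex.exp ((π * s / L : ℝ) * Complex.I) := by
  rw [fourier_coe_apply]
  congr 1
  have : (L : ℂ) ≠ 0 := by exact_mod_cast hL.ne'
  push_cast
  field_simp

lemma sol (ha : 0 < a) (hα : 1 ≤ α) (hL : 0 < L) {δ : ℝ} (hδ : 0 < δ) (h1 : δ ≤ 1)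
    (h2 : δ * (π / L) ≤ 1) :
    ∃ P R Pt, Sol a α L P R Pt ∧ ∀ s, P 0 s = δ * cos (π * s / L) := by
  obtain ⟨C, H⟩ := hyp ha hα
  have : Fact (0 < 2 * L) := ⟨by positivity⟩
  let P0 : X (2 * L) := ⟨fun z => δ * (fourier 1 z).re, by fun_prop⟩
  let R0 : X (2 * L) := ⟨fun z => -(δ * (π / L) * (fourier 1 z).im), by fun_prop⟩
  have e1 : ∀ s : ℝ, P0 s = δ * cos (π * s / L) := fun s => by
    simp only [P0, ContinuousMap.coe_mk, four hL, Complex.exp_ofReal_mul_I_re]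
  have e2 : ∀ s : ℝ, R0 s = -(δ * (π / L) * sin (π * s / L)) := fun s => by
    simp only [R0, ContinuousMap.coe_mk, four hL, Complex.exp_ofReal_mul_I_im]
  have m : (P0, R0) ∈ Y (2 * L) L := by
    refine ⟨fun z => ?_, fun s => ?_⟩
    · induction z using QuotientAddGroup.induction_on with
      | H z =>
        rw [← AddCircle.coe_add, e1, e1, show π * (z + L) / L = π * z / L + π by field_simp,
          cos_add_pi, mul_neg]
    · simp only [e1, e2]
      refine ((((hasDerivAt_id s).const_mul π).div_const L).cos.const_mul δ).congr_deriv ?_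
      simp only [id]
      ring
  obtain ⟨P, R, Pt, b1, b2, b3, b4, b5, b6, b7, b8, b9⟩ := exists_P H ⟨_, m⟩
    (nle _ zero_le_one (fun z => by
      induction z using QuotientAddGroup.induction_on with
      | H z =>
        change |P0 z| ≤ 1
        rw [e1, abs_mul, abs_of_pos hδ]
        exact mul_le_one₀ h1 (abs_nonneg _) (abs_cos_le_one _)) fun z => by
      induction z using QuotientAddGroup.induction_on with
      | H z =>
        change |R0 z| ≤ 1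
        rw [e2, abs_neg, abs_mul, abs_of_pos (by positivity)]
        exact mul_le_one₀ h2 (abs_nonneg _) (abs_sin_le_one _))
  exact ⟨P, R, Pt, ⟨b1, b2, b3, b4, b5, b6, b8, b9⟩, fun s => (b7 s).trans (e1 s)⟩

variable {P R Pt : ℝ → ℝ → ℝ}

lemma pw (ha : 0 < a) (hα : 1 ≤ α) {M b t : ℝ} (hM : 0 < M) (hb : 0 < b) (ht : 0 ≤ t) :
    (1 / (a * M ^ α) ≤ b * (1 + t) → (a * b) ^ (-2 / α) * (1 + t) ^ (-2 / α) ≤ M ^ 2) ∧
    (b * (1 + t) ≤ 1 / (a * M ^ α) → M ^ 2 ≤ (a * b) ^ (-2 / α) * (1 + t) ^ (-2 / α)) := by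
  have e : M ^ 2 = (a * (1 / (a * M ^ α))) ^ (-2 / α) := by
    have : a * (1 / (a * M ^ α)) = M ^ (-α) := by rw [rpow_neg hM.le]; field_simp
    rw [this, ← rpow_mul hM.le, show -α * (-2 / α) = (2 : ℕ) by push_cast; field_simp,
      rpow_natCast]
  have n : -2 / α ≤ 0 := div_nonpos_of_nonpos_of_nonneg (by norm_num) (by linarith)
  rw [e, ← mul_rpow (by positivity) (by positivity), mul_assoc]
  exact ⟨fun h => rpow_le_rpow_of_nonpos (by positivity) (by gcongr) n,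
    fun h => rpow_le_rpow_of_nonpos (by positivity) (by gcongr) n⟩

lemma Sol.energy (h : Sol a α L P R Pt) (ha : 0 < a) (hα : 1 ≤ α) (hL : 0 < L) {δ : ℝ}
    (hδ : 0 < δ) (i1 : ∀ s, |P 0 s| ≤ δ) (i2 : ∀ s ∈ Icc 0 (L / 3), δ / 2 ≤ P 0 s)
    (s0 : (α + 1) * (a * δ ^ α) * L ≤ 1 / 4)
    (s1 : (α + 1) * L ^ 2 * (a * δ ^ α) ≤ L / (4 * 2 ^ α) / 24) :
    ∃ c C : ℝ, 0 < c ∧ ∀ t, 0 ≤ t → c * (1 + t) ^ (-2 / α) ≤ ∫ s in (0 : ℝ)..L, P t s ^ 2 ∧
      ∫ s in (0 : ℝ)..L, P t s ^ 2 ≤ C * (1 + t) ^ (-2 / α) := by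
  have hw0 : 0 < a * δ ^ α := by positivity
  have h2 : (1 : ℝ) ≤ 2 ^ α := one_le_rpow (by norm_num) (by linarith)
  set c := L / (4 * 2 ^ α) / 2 with hc
  have c0 : 0 < c := by positivity
  have c1 : c ≤ L := by
    rw [hc, div_div, div_le_iff₀ (by positivity)]
    nlinarith
  have c2 : 2 * c ≤ 1 / (a * δ ^ α) := by
    rw [le_div_iff₀ hw0]
    nlinarith [mul_pos hw0 hL, mul_le_mul_of_nonneg_right c1 hw0.le]
  refine ⟨L / 3 / 64 * (a * (1 / (a * δ ^ α) + 2 * α)) ^ (-2 / α),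
    L * (a * min c (c / L)) ^ (-2 / α), by positivity, fun t ht => ?_⟩
  obtain ⟨M, m0, m1, m2, m3, m4, m5⟩ := h.iter ha hα hL hδ i1 i2 s0 s1 ⌊t / L⌋₊
  have k1 : (⌊t / L⌋₊ : ℝ) * L ≤ t := (le_div_iff₀ hL).1 (Nat.floor_le (by positivity))
  have k3 := Nat.lt_floor_add_one (t / L)
  have k2 : t ≤ ⌊t / L⌋₊ * L + L := by
    have := (div_lt_iff₀ hL).1 k3
    linarith
  have cP : Continuous fun s => P t s ^ 2 := (h.cP t).pow 2
  have hw : 0 < a * M ^ α := by positivity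
  have w1 : a * M ^ α ≤ a * δ ^ α := by gcongr
  have w2 : (α + 1) * (a * M ^ α) * L ≤ 1 / 4 := le_trans (by gcongr) s0
  have w4 : L * (a * M ^ α) ≤ 1 / 8 := by nlinarith [mul_pos hw hL]
  constructor
  · have p := (pw ha hα m0 (b := 1 / (a * δ ^ α) + 2 * α) (by positivity) ht).1 (by
      have : 0 < 1 / (a * δ ^ α) := by positivity
      nlinarith [mul_le_mul_of_nonneg_left k1 (show 0 ≤ 2 * α by positivity)])
    have q1 : ∫ s in (0 : ℝ)..L / 3, (M / 8) ^ 2 ≤ ∫ s in (0 : ℝ)..L / 3, P t s ^ 2 := by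
      refine integral_mono_on (by positivity) (by simp) (cP.intervalIntegrable _ _) fun s hs => ?_
      have d := (abs_le.1 (h.drift ha hα (by positivity) m2 ⟨k1, k2⟩ s)).1
      have d2 := m3 s hs
      have d3 : 0 ≤ M / (4 * δ) * M := by positivity
      refine pow_le_pow_left₀ (by positivity) ?_ 2
      nlinarith
    have q2 : 0 ≤ ∫ s in L / 3..L, P t s ^ 2 :=
      integral_nonneg (by linarith) fun s _ => sq_nonneg _
    rw [← integral_add_adjacent_intervals (b := L / 3) (cP.intervalIntegrable _ _)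
      (cP.intervalIntegrable _ _)]
    rw [integral_const, smul_eq_mul] at q1
    have := mul_le_mul_of_nonneg_left p (show 0 ≤ L / 3 / 64 by positivity)
    linarith
  · have p := (pw ha hα m0 (b := min c (c / L)) (by positivity) ht).2 (by
      have b1 := min_le_left c (c / L)
      have b2 := mul_le_mul_of_nonneg_right (min_le_right c (c / L)) ht
      have b3 := mul_le_mul_of_nonneg_left k3.le c0.le
      have e : c / L * t = c * (t / L) := by ring
      nlinarith)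
    have q := int_le hL cP cP 1 0 (M ^ 2) fun s => by
      have := sq_le_sq' (abs_le.1 (h.mx _ _ _ k1 m2 s)).1 (abs_le.1 (h.mx _ _ _ k1 m2 s)).2
      simpa using this
    have := mul_le_mul_of_nonneg_left p hL.le
    linarith

lemma Sol.en_eq (h : Sol a α L P R Pt) (t : ℝ) :
    ∫ x in (0 : ℝ)..L, ((P t (t + x) - P t (t - x)) / 2) ^ 2 + ((P t (t + x) + P t (t - x)) / 2) ^ 2 =
      ∫ s in (0 : ℝ)..L, P t s ^ 2 := by
  have cP := h.cP t
  have hp : Function.Periodic (fun s => P t s ^ 2) L := fun s => by simp only [h.anti, neg_sq]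
  have e : ∀ x, ((P t (t + x) - P t (t - x)) / 2) ^ 2 + ((P t (t + x) + P t (t - x)) / 2) ^ 2 =
      (P t (t + x) ^ 2 + P t (t - x) ^ 2) / 2 := fun x => by ring
  simp only [e]
  have e1 := hp.intervalIntegral_add_eq t 0
  have e2 := hp.intervalIntegral_add_eq (t - L) 0
  rw [integral_div, integral_add (Continuous.intervalIntegrable (by fun_prop) _ _)
    (Continuous.intervalIntegrable (by fun_prop) _ _),
    integral_comp_add_left (fun s => P t s ^ 2), integral_comp_sub_left (fun s => P t s ^ 2)]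
  simp only [zero_add, add_zero, sub_zero, sub_add_cancel] at e1 e2 ⊢
  rw [e1, e2]
  ring

open ContinuousLinearMap in
lemma Sol.prim (h : Sol a α L P R Pt) : ∃ u : ℝ → ℝ → ℝ,
    ContDiff ℝ 2 (fun z : ℝ × ℝ => u z.1 z.2) ∧ u 0 0 = 0 ∧
    (∀ t x, HasDerivAt (fun τ => u τ x) ((P t (t + x) - P t (t - x)) / 2) t) ∧
    (∀ t x, HasDerivAt (u t) ((P t (t + x) + P t (t - x)) / 2) x) ∧
    (∀ t x, HasDerivAt (fun τ => (P τ (τ + x) - P τ (τ - x)) / 2)
      (Pt t (t + x) + (R t (t + x) - R t (t - x)) / 2) t) ∧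
    ∀ t x, HasDerivAt (fun x => (P t (t + x) + P t (t - x)) / 2)
      ((R t (t + x) - R t (t - x)) / 2) x := by
  have j := joint P Pt R h.dt h.ds h.ct h.cs
  have j1 := joint1 P Pt R h.dt h.ds h.ct h.cs
  have o : ∀ t x, Pt t (t - x) = - Pt t (t + x) := fun t x => by
    rw [← h.odd]; congr 1; ring
  have a1 : ∀ z : ℝ × ℝ, HasFDerivAt (fun z : ℝ × ℝ => P z.1 (z.1 + z.2))
      ((Pt z.1 (z.1 + z.2) • fst ℝ ℝ ℝ + R z.1 (z.1 + z.2) • snd ℝ ℝ ℝ).comp
        ((fst ℝ ℝ ℝ).prod (fst ℝ ℝ ℝ + snd ℝ ℝ ℝ))) z := fun z =>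
    HasFDerivAt.comp (g := fun z : ℝ × ℝ => P z.1 z.2) z (j _)
      ((fst ℝ ℝ ℝ).prod (fst ℝ ℝ ℝ + snd ℝ ℝ ℝ)).hasFDerivAt
  have a2 : ∀ z : ℝ × ℝ, HasFDerivAt (fun z : ℝ × ℝ => P z.1 (z.1 - z.2))
      ((Pt z.1 (z.1 - z.2) • fst ℝ ℝ ℝ + R z.1 (z.1 - z.2) • snd ℝ ℝ ℝ).comp
        ((fst ℝ ℝ ℝ).prod (fst ℝ ℝ ℝ - snd ℝ ℝ ℝ))) z := fun z =>
    HasFDerivAt.comp (g := fun z : ℝ × ℝ => P z.1 z.2) z (j _)
      ((fst ℝ ℝ ℝ).prod (fst ℝ ℝ ℝ - snd ℝ ℝ ℝ)).hasFDerivAt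
  let ω : ℝ × ℝ → ℝ × ℝ →L[ℝ] ℝ := fun z =>
    ((1 / 2 : ℝ) * (P z.1 (z.1 + z.2) - P z.1 (z.1 - z.2))) • fst ℝ ℝ ℝ +
      ((1 / 2 : ℝ) * (P z.1 (z.1 + z.2) + P z.1 (z.1 - z.2))) • snd ℝ ℝ ℝ
  have dω : ∀ z, HasFDerivAt ω _ z := fun z =>
    ((((a1 z).sub (a2 z)).const_mul (1 / 2 : ℝ)).smul_const (fst ℝ ℝ ℝ)).add
      ((((a1 z).add (a2 z)).const_mul (1 / 2 : ℝ)).smul_const (snd ℝ ℝ ℝ))
  have c1 : ContDiff ℝ 1 fun z : ℝ × ℝ => P z.1 (z.1 + z.2) :=
    j1.comp (f := fun z : ℝ × ℝ => (z.1, z.1 + z.2)) (by fun_prop)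
  have c2 : ContDiff ℝ 1 fun z : ℝ × ℝ => P z.1 (z.1 - z.2) :=
    j1.comp (f := fun z : ℝ × ℝ => (z.1, z.1 - z.2)) (by fun_prop)
  have cω : ContDiff ℝ 1 ω :=
    ((contDiff_const.mul (c1.sub c2)).smul contDiff_const).add
      ((contDiff_const.mul (c1.add c2)).smul contDiff_const)
  obtain ⟨f, hf⟩ := convex_univ.exists_forall_hasFDerivAt_of_fderiv_symmetric isOpen_univ
    (ω := ω) (fun z _ => (dω z).differentiableAt.differentiableWithinAt) fun z _ x y => by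
      rw [(dω z).fderiv]
      simp [o]
      ring
  have lt : ∀ t x : ℝ, HasDerivAt (fun τ : ℝ => (τ, x)) ((1 : ℝ), (0 : ℝ)) t := fun t x =>
    (hasDerivAt_id t).prodMk (hasDerivAt_const t x)
  have lx : ∀ t x : ℝ, HasDerivAt (fun y : ℝ => (t, y)) ((0 : ℝ), (1 : ℝ)) x := fun t x =>
    (hasDerivAt_const x t).prodMk (hasDerivAt_id x)
  refine ⟨fun t x => f (t, x) - f (0, 0), ?_, sub_self _, fun t x => ?_, fun t x => ?_,
    fun t x => ?_, fun t x => ?_⟩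
  · have : ContDiff ℝ ((1 : ℕ) + 1) f :=
      contDiff_succ_iff_hasFDerivAt.2 ⟨ω, cω, fun z => hf z trivial⟩
    exact ContDiff.sub (f := f) (by exact_mod_cast this) contDiff_const
  · refine (((hf (t, x) trivial).comp_hasDerivAt t (lt t x)).sub_const _).congr_deriv ?_
    simp [ω]
    ring
  · refine (((hf (t, x) trivial).comp_hasDerivAt x (lx t x)).sub_const _).congr_deriv ?_
    simp [ω]
    ring
  · refine ((((a1 (t, x)).comp_hasDerivAt t (lt t x)).sub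
      ((a2 (t, x)).comp_hasDerivAt t (lt t x))).div_const 2).congr_deriv ?_
    simp [o]
    ring
  · refine ((((a1 (t, x)).comp_hasDerivAt x (lx t x)).add
      ((a2 (t, x)).comp_hasDerivAt x (lx t x))).div_const 2).congr_deriv ?_
    simp
    ring

/-- time derivative -/
noncomputable def dT (u : ℝ → ℝ → ℝ) (t x : ℝ) : ℝ := deriv (fun τ => u τ x) t

/-- space derivative -/
noncomputable def dX (u : ℝ → ℝ → ℝ) (t x : ℝ) : ℝ := deriv (u t) x

/-- energy on the interval from `0` to `L` -/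
noncomputable def En (L : ℝ) (u : ℝ → ℝ → ℝ) (t : ℝ) : ℝ :=
  ∫ x in (0 : ℝ)..L, dT u t x ^ 2 + dX u t x ^ 2

theorem main (hL : 0 < L) (ha : 0 < a) (hα : 1 ≤ α) : ∃ u : ℝ → ℝ → ℝ,
    ContDiff ℝ 2 (fun z : ℝ × ℝ => u z.1 z.2) ∧
    (∀ t, 0 ≤ t → ∀ x, dT (dT u) t x - dX (dX u) t x + a * |dT u t x| ^ α * dT u t x = 0) ∧
    (∀ t, u t 0 = 0 ∧ u t L = 0) ∧
    ∃ c C : ℝ, 0 < c ∧ ∀ t, 0 ≤ t →
      c * (1 + t) ^ (-2 / α) ≤ En L u t ∧ En L u t ≤ C * (1 + t) ^ (-2 / α) := by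
  have hp := pi_pos
  obtain ⟨δ, hδ, d1, d2, d3, d4⟩ : ∃ δ : ℝ, 0 < δ ∧ δ ≤ 1 ∧ δ * (π / L) ≤ 1 ∧
      δ * ((α + 1) * a * L * 4) ≤ 1 ∧ δ * ((α + 1) * L ^ 2 * a / (L / (4 * 2 ^ α) / 24)) ≤ 1 := by
    have p1 : 0 < π / L := by positivity
    have p2 : 0 < (α + 1) * a * L * 4 := by positivity
    have p3 : 0 < (α + 1) * L ^ 2 * a / (L / (4 * 2 ^ α) / 24) := by positivity
    generalize π / L = k1 at *
    generalize (α + 1) * a * L * 4 = k2 at *
    generalize (α + 1) * L ^ 2 * a / (L / (4 * 2 ^ α) / 24) = k3 at *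
    refine ⟨1 / (1 + k1 + k2 + k3), by positivity, ?_, ?_, ?_, ?_⟩
    · rw [div_le_one (by positivity)]; linarith
    all_goals rw [one_div_mul_eq_div, div_le_one (by positivity)]; linarith
  have hd : δ ^ α ≤ δ := rpow_le_self_of_le_one hδ.le d1 hα
  obtain ⟨P, R, Pt, h, h0⟩ := sol ha hα hL hδ d1 d2
  obtain ⟨u, u1, u2, u3, u4, u5, u6⟩ := h.prim
  have eT : dT u = fun t x => (P t (t + x) - P t (t - x)) / 2 := by
    funext t x; exact (u3 t x).deriv
  have eX : dX u = fun t x => (P t (t + x) + P t (t - x)) / 2 := by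
    funext t x; exact (u4 t x).deriv
  have cst : ∀ f : ℝ → ℝ, (∀ t, HasDerivAt f 0 t) → ∀ t, f t = f 0 := fun f hf t =>
    is_const_of_deriv_eq_zero (fun t => (hf t).differentiableAt) (fun t => (hf t).deriv) _ _
  refine ⟨u, u1, fun t ht x => ?_, fun t => ⟨?_, ?_⟩, ?_⟩
  · rw [eT, eX, dT, dX, (u5 t x).deriv, (u6 t x).deriv, h.eq t ht, gg,
      show 2 * t - (t + x) = t - x by ring]
    ring
  · rw [cst (fun t => u t 0) (fun t => (u3 t 0).congr_deriv (by simp)) t, u2]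
  · rw [cst (fun t => u t L) (fun t => (u3 t L).congr_deriv (by
      have := h.anti t (t - L)
      rw [sub_add_cancel] at this
      rw [h.anti]
      linarith)) t]
    have := cst (fun x => u 0 x - δ * (L / π) * sin (π * x / L)) (fun x =>
      ((u4 0 x).sub ((((hasDerivAt_id x).const_mul π).div_const L).sin.const_mul
        (δ * (L / π)))).congr_deriv (by
          simp only [h0, zero_add, zero_sub, mul_neg, neg_div, cos_neg, id]
          field_simp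
          ring)) L
    simpa [u2, hL.ne'] using this
  · simp only [En, eT, eX, h.en_eq]
    refine h.energy ha hα hL hδ (fun s => ?_) (fun s hs => ?_) ?_ ?_
    · rw [h0, abs_mul, abs_of_pos hδ]
      exact mul_le_of_le_one_right hδ.le (abs_cos_le_one _)
    · have : cos (π / 3) ≤ cos (π * s / L) := cos_le_cos_of_nonneg_of_le_pi
        (div_nonneg (mul_nonneg hp.le hs.1) hL.le) (by linarith) (by
          rw [div_le_iff₀ hL]; nlinarith [hs.2])
      rw [cos_pi_div_three] at this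
      rw [h0]
      nlinarith
    · have : (α + 1) * (a * δ ^ α) * L ≤ (α + 1) * (a * δ) * L := by gcongr
      linarith
    · rw [← mul_div_assoc, div_le_one (by positivity)] at d4
      have : (α + 1) * L ^ 2 * (a * δ ^ α) ≤ (α + 1) * L ^ 2 * (a * δ) := by gcongr
      linarith

end Pool.Agent.H19.Wave
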