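import Pool.Agent.H19.WaveE

set_option autoImplicit false

namespace Pool.Agent.H19.Wave

open Set Filter Topology intervalIntegral Real

variable {a α L : ℝ}

lemma cabs' (hα : 0 < α) : Continuous fun x : ℝ => |x| ^ α :=
  continuous_abs.rpow_const fun _ => Or.inr hα.le

lemma gder' (hα : 0 < α) (x : ℝ) : HasDerivAt (gg a α) (ps a α x) x := by
  by_cases hx : x = 0
  · subst hx
    rw [hasDerivAt_iff_tendsto_slope_zero]
    have h1 : Tendsto (fun x : ℝ => a * |x| ^ α) (𝓝[≠] 0) (𝓝 (ps a α 0)) := by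
      have := (((cabs' hα).const_mul a).tendsto 0).mono_left (nhdsWithin_le_nhds (s := {0}ᶜ))
      simpa [ps, Real.zero_rpow hα.ne'] using this
    refine h1.congr' ?_
    filter_upwards [self_mem_nhdsWithin] with y hy
    have : y ≠ 0 := hy
    simp only [gg, zero_add, mul_zero, sub_zero, smul_eq_mul]
    field_simp
  · have h0 : |x| ≠ 0 := abs_ne_zero.2 hx
    have h1 := (((hasDerivAt_abs hx).rpow_const (p := α) (Or.inl h0)).const_mul a).mul
      (hasDerivAt_id x)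
    refine h1.congr_deriv ?_
    have h2 : (SignType.sign x : ℝ) * x = |x| := sign_mul_self x
    simp only [ps, id, Real.rpow_sub_one h0]
    field_simp
    linear_combination a * α * h2

lemma gcont' (hα : 0 < α) : Continuous (gg a α) :=
  continuous_iff_continuousAt.2 fun x => (gder' hα x).continuousAt

lemma ps_le' (ha : 0 < a) (hα : 0 < α) {x m : ℝ} (h : |x| ≤ m) :
    0 ≤ ps a α x ∧ ps a α x ≤ (α + 1) * (a * m ^ α) := by
  have h1 : |x| ^ α ≤ m ^ α := Real.rpow_le_rpow (abs_nonneg _) h hα.le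
  have h2 : 0 ≤ a * (α + 1) := by positivity
  exact ⟨by unfold ps; positivity, by unfold ps; nlinarith⟩

lemma glip' (ha : 0 < a) (hα : 0 < α) {x y m : ℝ} (hx : |x| ≤ m) (hy : |y| ≤ m) :
    |gg a α x - gg a α y| ≤ (α + 1) * (a * m ^ α) * |x - y| :=
  (convex_Icc (-m) m).norm_image_sub_le_of_norm_hasDerivWithin_le (f := gg a α) (f' := ps a α)
    (fun z _ => (gder' hα z).hasDerivWithinAt)
    (fun _ hz => (abs_of_nonneg (ps_le' ha hα (abs_le.2 hz)).1).trans_le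
      (ps_le' ha hα (abs_le.2 hz)).2) (abs_le.1 hy) (abs_le.1 hx)

lemma gabs' (ha : 0 < a) (hα : 0 < α) {x m : ℝ} (h : |x| ≤ m) : |gg a α x| ≤ a * m ^ α * |x| := by
  have h1 : |x| ^ α ≤ m ^ α := Real.rpow_le_rpow (abs_nonneg _) h hα.le
  rw [gg, abs_mul, abs_of_nonneg (by positivity)]
  gcongr

lemma gmono (ha : 0 < a) (hα : 0 < α) : Monotone (gg a α) :=
  monotone_of_deriv_nonneg (fun x => (gder' hα x).differentiableAt) fun x => by
    rw [(gder' hα x).deriv]; exact (ps_le' ha hα le_rfl).1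

structure Sol2 (a α L : ℝ) (P Pt : ℝ → ℝ → ℝ) : Prop where
  dt : ∀ t s, HasDerivAt (fun τ => P τ s) (Pt t s) t
  cP : Continuous fun z : ℝ × ℝ => P z.1 z.2
  ct : Continuous fun z : ℝ × ℝ => Pt z.1 z.2
  per : ∀ t, Function.Periodic (P t) (2 * L)
  eq : ∀ t, 0 ≤ t → ∀ s, Pt t s = - gg a α ((P t s - P t (2 * t - s)) / 2)

variable {P Pt : ℝ → ℝ → ℝ}

lemma Sol2.neg (h : Sol2 a α L P Pt) : Sol2 a α L (fun t s => - P t s) (fun t s => - Pt t s) :=
  ⟨fun t s => (h.dt t s).neg, h.cP.neg, h.ct.neg, fun t s => by simp only [h.per t s],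
    fun t ht s => by rw [h.eq t ht, ← godd, ← godd, ← godd]; congr 1; ring⟩

lemma Sol2.c1 (h : Sol2 a α L P Pt) (t : ℝ) : Continuous (P t) :=
  h.cP.comp (f := fun s => (t, s)) (by fun_prop)

lemma Sol2.red (h : Sol2 a α L P Pt) (hL : 0 < L) (s : ℝ) :
    ∃ s' ∈ Icc 0 (2 * L), ∀ t, P t s = P t s' := by
  have p : Function.Periodic (fun s t => P t s) (2 * L) := fun s => funext fun t => h.per t s
  obtain ⟨y, hy, e⟩ := p.exists_mem_Ico₀ (by positivity) s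
  exact ⟨y, Ico_subset_Icc_self hy, congrFun e⟩

lemma dnn {f : ℝ → ℝ} {f' t0 t : ℝ} (hf : HasDerivAt f f' t) (h0 : t0 < t)
    (h : ∀ x ∈ Icc t0 t, f x ≤ f t) : 0 ≤ f' := by
  have := (hasDerivAt_iff_tendsto_slope_left_right.1 hf).1
  refine ge_of_tendsto this ?_
  filter_upwards [Ioo_mem_nhdsLT h0] with x hx
  rw [slope_def_field]
  exact div_nonneg_of_nonpos (sub_nonpos.2 (h x ⟨hx.1.le, hx.2.le⟩)) (sub_nonpos.2 hx.2.le)

lemma dnp {f : ℝ → ℝ} {f' t1 t : ℝ} (hf : HasDerivAt f f' t) (h0 : t < t1)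
    (h : ∀ x ∈ Icc t t1, f x ≤ f t) : f' ≤ 0 := by
  have := (hasDerivAt_iff_tendsto_slope_left_right.1 hf).2
  refine le_of_tendsto this ?_
  filter_upwards [Ioo_mem_nhdsGT h0] with x hx
  rw [slope_def_field]
  exact div_nonpos_of_nonpos_of_nonneg (sub_nonpos.2 (h x ⟨hx.1.le, hx.2.le⟩)) (sub_nonneg.2 hx.1.le)

lemma Sol2.mx (h : Sol2 a α L P Pt) (ha : 0 < a) (hα : 0 < α) (hL : 0 < L) {t0 t M : ℝ}
    (h0 : 0 ≤ t0) (ht : t0 ≤ t) (hM : ∀ s, P t0 s ≤ M) (s : ℝ) : P t s ≤ M := by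
  refine le_of_forall_pos_le_add fun ε hε => ?_
  have hη : 0 < ε / (t - t0 + 1) := div_pos hε (by linarith)
  obtain ⟨⟨t', s'⟩, ⟨m1, m2⟩, hm⟩ := (isCompact_Icc.prod isCompact_Icc).exists_isMaxOn
    (s := Icc t0 t ×ˢ Icc 0 (2 * L)) ⟨(t0, 0), ⟨le_rfl, ht⟩, ⟨le_rfl, by positivity⟩⟩
    (f := fun z : ℝ × ℝ => P z.1 z.2 - ε / (t - t0 + 1) * z.1) (h.cP.sub (by fun_prop)).continuousOn
  have k : ∀ τ ∈ Icc t0 t, ∀ σ, P τ σ - ε / (t - t0 + 1) * τ ≤ P t' s' - ε / (t - t0 + 1) * t' := by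
    intro τ hτ σ
    obtain ⟨σ', h1, h2⟩ := h.red hL σ
    rw [h2]
    exact hm (a := (τ, σ')) ⟨hτ, h1⟩
  rcases m1.1.eq_or_lt with e | e
  · have h1 := k t ⟨ht, le_rfl⟩ s
    simp only at e
    subst e
    have h2 := hM s'
    have h3 : ε / (t - t0 + 1) * (t - t0 + 1) = ε := div_mul_cancel₀ _ (by linarith)
    nlinarith
  · exfalso
    have h1 := dnn ((h.dt t' s').sub ((hasDerivAt_id t').const_mul (ε / (t - t0 + 1)))) e
      fun x hx => k x ⟨hx.1, hx.2.trans m1.2⟩ s'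
    have h2 := k t' m1 (2 * t' - s')
    have h3 : gg a α 0 ≤ gg a α ((P t' s' - P t' (2 * t' - s')) / 2) := gmono ha hα (by linarith)
    rw [h.eq t' (h0.trans m1.1)] at h1
    simp only [gg, mul_zero] at h3
    simp only [gg] at h1
    linarith

lemma Sol2.mn (h : Sol2 a α L P Pt) (ha : 0 < a) (hα : 0 < α) (hL : 0 < L) {t0 t M : ℝ}
    (h0 : 0 ≤ t0) (ht : t0 ≤ t) (hM : ∀ s, M ≤ P t0 s) (s : ℝ) : M ≤ P t s :=
  neg_le_neg_iff.1 (h.neg.mx ha hα hL h0 ht (fun s => neg_le_neg (hM s)) s)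

lemma Sol2.ext (h : Sol2 a α L P Pt) (hL : 0 < L) (t : ℝ) :
    ∃ s1 s2, ∀ s, P t s2 ≤ P t s ∧ P t s ≤ P t s1 := by
  have n : (Icc 0 (2 * L)).Nonempty := ⟨0, le_rfl, by positivity⟩
  obtain ⟨s1, -, h1⟩ := isCompact_Icc.exists_isMaxOn n (h.c1 t).continuousOn
  obtain ⟨s2, -, h2⟩ := isCompact_Icc.exists_isMinOn n (h.c1 t).continuousOn
  refine ⟨s1, s2, fun s => ?_⟩
  obtain ⟨σ, m, e⟩ := h.red hL s
  rw [e]
  exact ⟨h2 m, h1 m⟩

/-- backward uniqueness -/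
lemma Sol2.back (h : Sol2 a α L P Pt) (ha : 0 < a) (hα : 0 < α) (hL : 0 < L) {t : ℝ} (ht : 0 ≤ t)
    (h0 : ∀ s, P t s = 0) (s : ℝ) : P 0 s = 0 := by
  obtain ⟨s1, s2, b⟩ := h.ext hL 0
  set K := P 0 s1 - P 0 s2 with hK
  have hD : ∀ τ, 0 ≤ τ → ∀ σ σ', |(P τ σ - P τ σ') / 2| ≤ K := fun τ hτ σ σ' => by
    have b1 := h.mx ha hα hL le_rfl hτ fun s => (b s).2
    have b2 := h.mn ha hα hL le_rfl hτ fun s => (b s).1
    exact abs_le.2 ⟨by linarith [b1 σ, b2 σ, b1 σ', b2 σ'], by linarith [b1 σ, b2 σ, b1 σ', b2 σ']⟩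
  set C := a * K ^ α + 1 with hC
  obtain ⟨⟨t', s'⟩, ⟨m1, m2⟩, hm⟩ := (isCompact_Icc.prod isCompact_Icc).exists_isMaxOn
    (s := Icc 0 t ×ˢ Icc 0 (2 * L)) ⟨(0, 0), ⟨le_rfl, ht⟩, ⟨le_rfl, by positivity⟩⟩
    (f := fun z : ℝ × ℝ => P z.1 z.2 ^ 2 * exp (2 * C * z.1))
    ((h.cP.pow 2).mul (by fun_prop)).continuousOn
  have k : ∀ τ ∈ Icc 0 t, ∀ σ, P τ σ ^ 2 * exp (2 * C * τ) ≤ P t' s' ^ 2 * exp (2 * C * t') := by
    intro τ hτ σ
    obtain ⟨σ', h1, h2⟩ := h.red hL σ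
    rw [h2]
    exact hm (a := (τ, σ')) ⟨hτ, h1⟩
  have z : P t' s' = 0 := by
    rcases m1.2.eq_or_lt with e | e
    · simp only at e
      rw [e, h0]
    · have h1 := dnp (((h.dt t' s').pow 2).mul ((hasDerivAt_id t').const_mul (2 * C)).exp) e
        fun x hx => k x ⟨m1.1.trans hx.1, hx.2⟩ s'
      have h2 := le_of_mul_le_mul_right (k t' m1 (2 * t' - s')) (exp_pos _)
      have h3 := gabs' ha hα (hD t' m1.1 s' (2 * t' - s'))
      have h4 : |(P t' s' - P t' (2 * t' - s')) / 2| ≤ |P t' s'| :=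
        (half le_rfl (sq_le_sq.1 h2)).1
      have h5 : 0 ≤ a * K ^ α := mul_nonneg ha.le (rpow_nonneg ((abs_nonneg _).trans (hD 0 le_rfl 0 0)) _)
      have h6 : |Pt t' s'| ≤ a * K ^ α * |P t' s'| := by
        rw [h.eq t' m1.1, abs_neg]
        exact h3.trans (mul_le_mul_of_nonneg_left h4 h5)
      have h7 : -(a * K ^ α * P t' s' ^ 2) ≤ P t' s' * Pt t' s' := by
        have := mul_le_mul_of_nonneg_left h6 (abs_nonneg (P t' s'))
        rw [← abs_mul, mul_left_comm, abs_mul_abs_self] at this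
        nlinarith [(abs_le.1 this).1]
      have h8 := exp_pos (2 * C * t')
      simp only [id, Pi.pow_apply, Nat.cast_ofNat, Nat.add_one_sub_one, pow_one, mul_one] at h1
      have h9 : 2 * P t' s' * Pt t' s' + P t' s' ^ 2 * (2 * C) ≤ 0 := by
        refine le_of_mul_le_mul_right ?_ h8
        linarith
      exact pow_eq_zero_iff two_ne_zero |>.1 (le_antisymm (by nlinarith) (sq_nonneg _))
  have := k 0 ⟨le_rfl, ht⟩ s
  rw [z] at this
  simpa using this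

lemma avg2 (f : ℝ → ℝ) (hp : Function.Periodic f (2 * L)) (t0 s : ℝ) :
    ∫ t in t0..t0 + L, f (2 * t - s) = (∫ σ in (0 : ℝ)..2 * L, f σ) / 2 := by
  rw [integral_comp_mul_sub f two_ne_zero, show 2 * (t0 + L) - s = 2 * t0 - s + 2 * L by ring,
    hp.intervalIntegral_add_eq _ 0, zero_add, smul_eq_mul]
  ring

lemma Sol2.gap (h : Sol2 a α L P Pt) (ha : 0 < a) (hα : 0 < α) (hL : 0 < L) {t0 lo hi K : ℝ}
    (h0 : 0 ≤ t0) (hb : ∀ s, lo ≤ P t0 s ∧ P t0 s ≤ hi) (hK : hi - lo ≤ K) {t t' : ℝ}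
    (h1 : t0 ≤ t) (h2 : t ≤ t') (h3 : t' ≤ t0 + L) (s : ℝ) :
    hi - P t s ≤ exp (a * K ^ α * L) * (hi - P t' s) := by
  have b1 := fun τ (hτ : t0 ≤ τ) => h.mx ha hα hL h0 hτ fun s => (hb s).2
  have b2 := fun τ (hτ : t0 ≤ τ) => h.mn ha hα hL h0 hτ fun s => (hb s).1
  have hK0 : 0 ≤ K := by linarith [(hb 0).1, (hb 0).2]
  have hC : 0 ≤ a * K ^ α := by positivity
  have d : ∀ τ, HasDerivAt (fun τ => exp (a * K ^ α * τ) * (hi - P τ s)) _ τ := fun τ =>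
    ((hasDerivAt_id τ).const_mul (a * K ^ α)).exp.mul ((h.dt τ s).const_sub hi)
  have m : MonotoneOn (fun τ => exp (a * K ^ α * τ) * (hi - P τ s)) (Ici t0) := by
    refine monotoneOn_of_deriv_nonneg (convex_Ici _)
      (fun τ _ => (d τ).continuousAt.continuousWithinAt)
      (fun τ _ => (d τ).differentiableAt.differentiableWithinAt) fun τ hτ => ?_
    have hτ' : t0 ≤ τ := interior_subset hτ
    rw [(d τ).deriv, h.eq τ (h0.trans hτ')]
    have e1 := gmono ha hα (show -(hi - P τ s) ≤ (P τ s - P τ (2 * τ - s)) / 2 by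
      linarith [b1 τ hτ' s, b1 τ hτ' (2 * τ - s)])
    have e0 : 0 ≤ hi - P τ s := by linarith [b1 τ hτ' s]
    have e2 := (abs_le.1 (gabs' ha hα (x := hi - P τ s) (m := K)
      (by rw [abs_of_nonneg e0]; linarith [b2 τ hτ' s]))).2
    rw [godd] at e1
    rw [abs_of_nonneg e0] at e2
    have := exp_pos (a * K ^ α * τ)
    simp only [id, mul_one, neg_neg]
    nlinarith
  have e := m h1 (h1.trans h2) h2
  simp only at e
  have e3 : exp (a * K ^ α * t') ≤ exp (a * K ^ α * t) * exp (a * K ^ α * L) := by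
    rw [← exp_add]
    exact exp_le_exp.2 (by nlinarith)
  have e0 : 0 ≤ hi - P t' s := by linarith [b1 t' (h1.trans h2) s]
  refine le_of_mul_le_mul_left (e.trans ?_) (exp_pos _)
  nlinarith

lemma Sol2.loss (h : Sol2 a α L P Pt) (ha : 0 < a) (hα : 0 < α) (hL : 0 < L) {t0 lo hi K η : ℝ}
    (h0 : 0 ≤ t0) (hb : ∀ s, lo ≤ P t0 s ∧ P t0 s ≤ hi) (hK : hi - lo ≤ K) (s : ℝ)
    (hη : hi - P (t0 + L) s ≤ η) :
    (∫ σ in (0 : ℝ)..2 * L, gg a α (((hi - P t0 σ) / exp (a * K ^ α * L) -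
      exp (a * K ^ α * L) * η) / 2)) / 2 ≤ η := by
  have g := gcont' (a := a) hα
  have cP := h.c1 t0
  have c1 : Continuous fun t => Pt t s := h.ct.comp (f := fun t => (t, s)) (by fun_prop)
  have hE := exp_pos (a * K ^ α * L)
  rw [← avg2 (fun σ => gg a α (((hi - P t0 σ) / exp (a * K ^ α * L) -
      exp (a * K ^ α * L) * η) / 2)) (fun σ => by simp only [h.per t0 σ]) t0 s]
  have e := integral_eq_sub_of_hasDerivAt (a := t0) (b := t0 + L) (fun t _ => (h.dt t s).neg)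
    (c1.neg.intervalIntegrable _ _)
  refine le_trans (integral_mono_on (by linarith) (Continuous.intervalIntegrable (by fun_prop) _ _)
    (c1.neg.intervalIntegrable _ _) fun t ht => ?_) (e.le.trans ?_)
  · simp only [Pi.neg_apply]
    rw [h.eq t (h0.trans ht.1), neg_neg]
    refine gmono ha hα ?_
    have g1 := h.gap ha hα hL h0 hb hK ht.1 ht.2 le_rfl s
    have g2 := h.gap ha hα hL h0 hb hK le_rfl ht.1 ht.2 (2 * t - s)
    have g3 := mul_le_mul_of_nonneg_left hη hE.le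
    have g4 : (hi - P t0 (2 * t - s)) / exp (a * K ^ α * L) ≤ hi - P t (2 * t - s) := by
      rw [div_le_iff₀ hE]; linarith
    linarith
  · simp only [Pi.neg_apply]
    linarith [(hb s).2]

end Pool.Agent.H19.Wave
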