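import Pool.Agent.H19.WaveF

set_option autoImplicit false

namespace Pool.Agent.H19.Wave

open Set Filter Topology intervalIntegral Real MeasureTheory

variable {a α L : ℝ} {P Pt : ℝ → ℝ → ℝ}

noncomputable def cc (a α L K : ℝ) : ℝ :=
  min (1 / (8 * exp (a * K ^ α * L) ^ 2 * (a * K ^ α)))
    (L / (2 * ((16 * exp (a * K ^ α * L)) ^ α * (16 * exp (a * K ^ α * L)))))

lemma cc_pos (ha : 0 < a) (hL : 0 < L) {K : ℝ} (hK : 0 < K) : 0 < cc a α L K := by
  unfold cc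
  positivity

lemma Sol2.decay (h : Sol2 a α L P Pt) (ha : 0 < a) (hα : 0 < α) (hL : 0 < L) {t0 lo hi K : ℝ}
    (h0 : 0 ≤ t0) (hb : ∀ s, lo ≤ P t0 s ∧ P t0 s ≤ hi) (hW : 0 < hi - lo) (hK : hi - lo ≤ K)
    (s1 s2 : ℝ) : P (t0 + L) s1 - P (t0 + L) s2 ≤
      (hi - lo) * (1 - cc a α L K * (a * (hi - lo) ^ α)) := by
  by_contra hc
  have g := gcont' (a := a) hα
  have cP := h.c1 t0
  have b1 := h.mx ha hα hL h0 (show t0 ≤ t0 + L by linarith) (fun s => (hb s).2) s1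
  have b2 := h.mn ha hα hL h0 (show t0 ≤ t0 + L by linarith) (fun s => (hb s).1) s2
  set η := cc a α L K * (a * (hi - lo) ^ α) * (hi - lo) with hη
  have l1 := h.loss ha hα hL h0 hb hK s1 (η := η) (by linarith)
  have l2 := h.neg.loss ha hα hL h0 (lo := -hi) (hi := -lo) (K := K)
    (fun s => ⟨neg_le_neg (hb s).2, neg_le_neg (hb s).1⟩) (by linarith) s2 (η := η) (by linarith)
  have hK0 : 0 < K := hW.trans_le hK
  have c1 : cc a α L K ≤ _ := min_le_left _ _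
  have c2 : cc a α L K ≤ _ := min_le_right _ _
  have w1 : a * (hi - lo) ^ α ≤ a * K ^ α := by gcongr
  have w0 : 0 < a * (hi - lo) ^ α := by positivity
  have c0 := cc_pos (α := α) ha hL hK0
  have hE := exp_pos (a * K ^ α * L)
  generalize exp (a * K ^ α * L) = E at *
  set z := (hi - lo) / (16 * E) with hz
  have z0 : 0 < z := by positivity
  have e1 : E * η ≤ 2 * z := by
    rw [le_div_iff₀ (by positivity)] at c1
    have : cc a α L K * (a * (hi - lo) ^ α) * (8 * E ^ 2) ≤ 1 := by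
      nlinarith [mul_le_mul_of_nonneg_left w1 (show 0 ≤ cc a α L K * (8 * E ^ 2) by positivity)]
    rw [hz, ← mul_div_assoc, le_div_iff₀ (by positivity), hη]
    nlinarith
  have e2 : gg a α z = a * (hi - lo) ^ α * (hi - lo) / ((16 * E) ^ α * (16 * E)) := by
    rw [gg, abs_of_pos z0, hz, div_rpow hW.le (by positivity)]
    field_simp
  have e3 : 2 * η ≤ L * gg a α z := by
    rw [le_div_iff₀ (by positivity)] at c2
    rw [e2, ← mul_div_assoc, le_div_iff₀ (by positivity), hη]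
    nlinarith [mul_le_mul_of_nonneg_right c2 (show 0 ≤ a * (hi - lo) ^ α * (hi - lo) by positivity)]
  have e4 : 3 * gg a α z ≤ gg a α (3 * z) := by
    have : z ^ α ≤ (3 * z) ^ α := rpow_le_rpow z0.le (by linarith) hα.le
    rw [gg, gg, abs_of_pos z0, abs_of_pos (by linarith)]
    nlinarith [mul_pos ha z0]
  have k : ∀ u v : ℝ, 0 ≤ u → (hi - lo) / 2 ≤ v →
      2 * gg a α z ≤ gg a α ((u / E - E * η) / 2) + gg a α ((v / E - E * η) / 2) := by
    intro u v hu hv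
    have u0 : 0 ≤ u / E := by positivity
    have v0 : 8 * z ≤ v / E := by
      rw [hz, le_div_iff₀ hE]
      have : 8 * ((hi - lo) / (16 * E)) * E = (hi - lo) / 2 := by field_simp; ring
      linarith
    have m1 := gmono ha hα (show -z ≤ (u / E - E * η) / 2 by linarith)
    have m2 := gmono ha hα (show 3 * z ≤ (v / E - E * η) / 2 by linarith)
    rw [godd] at m1
    linarith
  have i := int_le (L := 2 * L) (by positivity)
    (f := fun σ => gg a α (((hi - P t0 σ) / E - E * η) / 2))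
    (g := fun σ => gg a α (((-lo - -P t0 σ) / E - E * η) / 2)) (by fun_prop) (by fun_prop)
    (-1) 1 (-(2 * gg a α z)) fun σ => by
      rcases le_total (P t0 σ) ((hi + lo) / 2) with q | q
      · linarith [k (-lo - -P t0 σ) (hi - P t0 σ) (by linarith [(hb σ).1]) (by linarith)]
      · linarith [k (hi - P t0 σ) (-lo - -P t0 σ) (by linarith [(hb σ).2]) (by linarith)]
  have g0 : 0 < L * gg a α z := by rw [e2]; positivity
  linarith

lemma bnd {u v lo hi : ℝ} (hu : lo ≤ u ∧ u ≤ hi) (hv : lo ≤ v ∧ v ≤ hi) : |(u - v) / 2| ≤ hi - lo :=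
  abs_le.2 ⟨by linarith [hu.1, hu.2, hv.1, hv.2], by linarith [hu.1, hu.2, hv.1, hv.2]⟩

lemma Sol2.bds (h : Sol2 a α L P Pt) (ha : 0 < a) (hα : 0 < α) (hL : 0 < L) {t0 lo hi t : ℝ}
    (h0 : 0 ≤ t0) (hb : ∀ s, lo ≤ P t0 s ∧ P t0 s ≤ hi) (ht : t0 ≤ t) (s : ℝ) :
    lo ≤ P t s ∧ P t s ≤ hi :=
  ⟨h.mn ha hα hL h0 ht (fun s => (hb s).1) s, h.mx ha hα hL h0 ht (fun s => (hb s).2) s⟩

lemma Sol2.drift (h : Sol2 a α L P Pt) (ha : 0 < a) (hα : 0 < α) (hL : 0 < L) {t0 lo hi : ℝ}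
    (h0 : 0 ≤ t0) (hb : ∀ s, lo ≤ P t0 s ∧ P t0 s ≤ hi) {t : ℝ} (ht : t ∈ Icc t0 (t0 + L)) (s : ℝ) :
    |P t s - P t0 s| ≤ a * (hi - lo) ^ α * (hi - lo) * L := by
  have hM0 : 0 ≤ hi - lo := by linarith [(hb 0).1, (hb 0).2]
  have := (convex_Icc t0 (t0 + L)).norm_image_sub_le_of_norm_hasDerivWithin_le
    (f := fun τ => P τ s) (f' := fun τ => Pt τ s) (C := a * (hi - lo) ^ α * (hi - lo))
    (fun z _ => (h.dt z s).hasDerivWithinAt)
    (fun z hz => by
      have b := h.bds ha hα hL h0 hb hz.1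
      rw [h.eq z (h0.trans hz.1), norm_neg]
      exact (gabs' ha hα (bnd (b _) (b _))).trans
        (mul_le_mul_of_nonneg_left (bnd (b _) (b _)) (by positivity))) ⟨le_rfl, ht.1.trans ht.2⟩ ht
  refine this.trans (mul_le_mul_of_nonneg_left ?_ (by positivity))
  rw [Real.norm_of_nonneg (by linarith [ht.1])]
  linarith [ht.2]

noncomputable def FF (a α L : ℝ) (Q : ℝ → ℝ) (y : ℝ) : ℝ :=
  (∫ σ in (0 : ℝ)..2 * L, gg a α ((y - Q σ) / 2)) / 2

lemma Sol2.err (h : Sol2 a α L P Pt) (ha : 0 < a) (hα : 0 < α) (hL : 0 < L) {t0 lo hi : ℝ}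
    (h0 : 0 ≤ t0) (hb : ∀ s, lo ≤ P t0 s ∧ P t0 s ≤ hi) (s : ℝ) :
    |P (t0 + L) s - P t0 s + FF a α L (P t0) (P t0 s)| ≤
      (α + 1) * L ^ 2 * (a * (hi - lo) ^ α) ^ 2 * (hi - lo) := by
  have g := gcont' (a := a) hα
  have cP := h.c1 t0
  have hM0 : 0 ≤ hi - lo := by linarith [(hb 0).1, (hb 0).2]
  have c1 : Continuous fun t => Pt t s := h.ct.comp (f := fun t => (t, s)) (by fun_prop)
  have c2 : Continuous fun t => gg a α ((P t0 s - P t0 (2 * t - s)) / 2) := by fun_prop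
  rw [FF, ← avg2 (fun σ => gg a α ((P t0 s - P t0 σ) / 2)) (fun σ => by simp only [h.per t0 σ]) t0 s,
    ← integral_eq_sub_of_hasDerivAt (fun t _ => h.dt t s) (c1.intervalIntegrable _ _),
    ← intervalIntegral.integral_add (c1.intervalIntegrable _ _) (c2.intervalIntegrable _ _)]
  refine (norm_integral_le_of_norm_le_const (E := ℝ)
    (C := (α + 1) * (a * (hi - lo) ^ α) * (a * (hi - lo) ^ α * (hi - lo) * L))
    fun t ht => ?_).trans (le_of_eq ?_)
  · rw [uIoc_of_le (by linarith)] at ht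
    have b := h.bds ha hα hL h0 hb ht.1.le
    rw [h.eq t (h0.trans ht.1.le), neg_add_eq_sub]
    refine (glip' ha hα (bnd (hb _) (hb _)) (bnd (b _) (b _))).trans
      (mul_le_mul_of_nonneg_left ?_ (by positivity))
    have d1 := abs_le.1 (h.drift ha hα hL h0 hb ⟨ht.1.le, ht.2⟩ s)
    have d2 := abs_le.1 (h.drift ha hα hL h0 hb ⟨ht.1.le, ht.2⟩ (2 * t - s))
    exact abs_le.2 ⟨by linarith, by linarith⟩
  · rw [add_sub_cancel_left, abs_of_pos hL]
    ring

lemma gdiff (ha : 0 < a) (hα : 0 < α) {y y' q m : ℝ} (h : y ≤ y') (h1 : |(y' - q) / 2| ≤ m)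
    (h2 : |(y - q) / 2| ≤ m) :
    gg a α ((y' - q) / 2) ≤ gg a α ((y - q) / 2) + (α + 1) * (a * m ^ α) * ((y' - y) / 2) := by
  have := (abs_le.1 (glip' ha hα h1 h2)).2
  rw [abs_of_nonneg (by linarith), show (y' - q) / 2 - (y - q) / 2 = (y' - y) / 2 by ring] at this
  linarith

lemma FF_mono (ha : 0 < a) (hα : 0 < α) (hL : 0 < L) {Q : ℝ → ℝ} (hQ : Continuous Q) {lo hi : ℝ}
    (hb : ∀ s, lo ≤ Q s ∧ Q s ≤ hi) (hw : (α + 1) * (a * (hi - lo) ^ α) * L ≤ 1) {y y' : ℝ}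
    (h1 : lo ≤ y) (h2 : y ≤ y') (h3 : y' ≤ hi) :
    y - FF a α L Q y ≤ y' - FF a α L Q y' := by
  have g := gcont' (a := a) hα
  have i := int_le (L := 2 * L) (by positivity) (f := fun σ => gg a α ((y' - Q σ) / 2))
    (g := fun σ => gg a α ((y - Q σ) / 2)) (by fun_prop) (by fun_prop) 1 1 _ fun σ => by
      simpa only [one_mul] using gdiff ha hα h2 (bnd ⟨h1.trans h2, h3⟩ (hb σ))
        (bnd ⟨h1, h2.trans h3⟩ (hb σ))
  have := mul_le_mul_of_nonneg_right hw (sub_nonneg.2 h2)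
  unfold FF
  linarith

noncomputable def ms (L : ℝ) (S : Set ℝ) : ℝ := (volume.restrict (Ioc 0 (2 * L))).real S

lemma ms_mono {S T : Set ℝ} (h : S ⊆ T) : ms L S ≤ ms L T := measureReal_mono h

lemma FF_fine (ha : 0 < a) (hα : 0 < α) (hL : 0 < L) {Q : ℝ → ℝ} (hQ : Continuous Q) {lo hi : ℝ}
    (hb : ∀ s, lo ≤ Q s ∧ Q s ≤ hi) {b δ μ : ℝ} (hδ : 0 ≤ δ) (h1 : lo ≤ b) (h3 : b + δ ≤ hi)
    (m1 : ms L {σ | b + 2 * δ ≤ Q σ} ≤ μ) (m2 : ms L {σ | Q σ ≤ b - δ} ≤ μ) :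
    FF a α L Q (b + δ) - FF a α L Q b ≤
      (α + 1) * δ * (L * (a * δ ^ α) + μ * (a * (hi - lo) ^ α)) / 2 := by
  have g := gcont' (a := a) hα
  have hW : 0 ≤ hi - lo := by linarith
  let S : Set ℝ := {σ | b + 2 * δ ≤ Q σ} ∪ {σ | Q σ ≤ b - δ}
  have mS : MeasurableSet S := ((isClosed_le continuous_const hQ).union
    (isClosed_le hQ continuous_const)).measurableSet
  have hS : ms L S ≤ 2 * μ := (measureReal_union_le _ _).trans (by unfold ms at m1 m2; linarith)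
  have c1 : Continuous fun σ => gg a α ((b + δ - Q σ) / 2) := by fun_prop
  have c2 : Continuous fun σ => gg a α ((b - Q σ) / 2) := by fun_prop
  have p1 : 0 ≤ (α + 1) * (a * δ ^ α) * (δ / 2) := by positivity
  have p2 : 0 ≤ (α + 1) * (a * (hi - lo) ^ α) * (δ / 2) := by positivity
  have i : ∫ σ in Ioc 0 (2 * L), (gg a α ((b + δ - Q σ) / 2) - gg a α ((b - Q σ) / 2)) ≤
      ∫ σ in Ioc 0 (2 * L), ((α + 1) * (a * δ ^ α) * (δ / 2) +
        S.indicator (fun _ => (α + 1) * (a * (hi - lo) ^ α) * (δ / 2)) σ) := by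
    refine integral_mono ((c1.sub c2).integrableOn_Ioc)
      ((integrable_const _).add ((integrable_const _).indicator mS)) fun σ => ?_
    by_cases hσ : σ ∈ S
    · have := gdiff ha hα (show b ≤ b + δ by linarith) (bnd ⟨by linarith, h3⟩ (hb σ))
        (bnd ⟨h1, by linarith⟩ (hb σ))
      simp only [indicator_of_mem hσ, add_sub_cancel_left] at this ⊢
      linarith
    · simp only [S, mem_union, mem_ofPred_eq, not_or, not_le] at hσ
      have hσ' : σ ∉ S := by simp only [S, mem_union, mem_ofPred_eq, not_or, not_le]; exact hσ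
      have := gdiff ha hα (q := Q σ) (m := δ) (show b ≤ b + δ by linarith)
        (abs_le.2 ⟨by linarith [hσ.1], by linarith [hσ.2]⟩)
        (abs_le.2 ⟨by linarith [hσ.1], by linarith [hσ.2]⟩)
      simp only [indicator_of_notMem hσ', add_sub_cancel_left] at this ⊢
      linarith
  rw [MeasureTheory.integral_add (integrable_const _) ((integrable_const _).indicator mS),
    integral_indicator_const _ mS, MeasureTheory.integral_const,
    MeasureTheory.integral_sub c1.integrableOn_Ioc c2.integrableOn_Ioc] at i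
  simp only [smul_eq_mul, measureReal_restrict_apply_univ, volume_real_Ioc, sub_zero,
    max_eq_left (show 0 ≤ 2 * L by positivity)] at i
  have := mul_le_mul_of_nonneg_right hS p2
  unfold ms at this
  unfold FF
  rw [integral_of_le (by positivity), integral_of_le (by positivity)]
  linarith

def Spr (L : ℝ) (Q : ℝ → ℝ) (δ μ : ℝ) : Prop :=
  ∃ b, μ ≤ ms L {σ | b + δ ≤ Q σ} ∧ μ ≤ ms L {σ | Q σ ≤ b}

lemma Sol2.spr (h : Sol2 a α L P Pt) (ha : 0 < a) (hα : 0 < α) (hL : 0 < L)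
    {t0 lo hi W' ε μ c : ℝ} (h0 : 0 ≤ t0) (hb : ∀ s, lo ≤ P t0 s ∧ P t0 s ≤ hi) (hW : 0 < hi - lo)
    (hε : 0 < ε) (hμ : 0 < μ) (hc : 0 < c) (s1 : (α + 1) * (a * (hi - lo) ^ α) * L ≤ 1)
    (s2 : a * (hi - lo) ^ α * L ≤ ε / 4) (s3 : (α + 1) * (L * ε ^ α + μ) ≤ c)
    (s4 : (α + 1) * L ^ 2 * (a * (hi - lo) ^ α) ≤ ε * c / 4)
    (hW' : W' ≤ (hi - lo) * (1 - c * (a * (hi - lo) ^ α)))
    (hs : Spr L (P t0) (ε * (hi - lo)) μ) : Spr L (P (t0 + L)) (ε * W') μ := by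
  have hw : 0 < a * (hi - lo) ^ α := by positivity
  have d := fun s => abs_le.1 (h.drift ha hα hL h0 hb (t := t0 + L) ⟨by linarith, le_rfl⟩ s)
  have d2 : a * (hi - lo) ^ α * (hi - lo) * L ≤ ε * (hi - lo) / 4 := by nlinarith
  have w1 := mul_le_mul_of_nonneg_left hW' hε.le
  have w2 : 0 < ε * (hi - lo) * (c * (a * (hi - lo) ^ α)) := by positivity
  have w3 : 0 < ε * (hi - lo) := by positivity
  have c1 : ∀ b, μ ≤ ms L {σ | b + 2 * (ε * (hi - lo)) ≤ P t0 σ} → μ ≤ ms L {σ | P t0 σ ≤ b} →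
      Spr L (P (t0 + L)) (ε * W') μ := fun b m1 m2 =>
    ⟨b + ε * (hi - lo) / 4, m1.trans (ms_mono fun σ hσ => by
      simp only [mem_ofPred_eq] at hσ ⊢
      linarith [(d σ).1]), m2.trans (ms_mono fun σ hσ => by
      simp only [mem_ofPred_eq] at hσ ⊢
      linarith [(d σ).2])⟩
  obtain ⟨b, m1, m2⟩ := hs
  by_cases q1 : μ ≤ ms L {σ | b + 2 * (ε * (hi - lo)) ≤ P t0 σ}
  · exact c1 b q1 m2
  by_cases q2 : μ ≤ ms L {σ | P t0 σ ≤ b - ε * (hi - lo)}
  · exact c1 _ (by rwa [show b - ε * (hi - lo) + 2 * (ε * (hi - lo)) = b + ε * (hi - lo) by ring]) q2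
  obtain ⟨x, hx⟩ := nonempty_of_measureReal_ne_zero (hμ.trans_le m1).ne'
  obtain ⟨y, hy⟩ := nonempty_of_measureReal_ne_zero (hμ.trans_le m2).ne'
  simp only [mem_ofPred_eq] at hx hy
  have k1 : lo ≤ b := (hb y).1.trans hy
  have k2 : b + ε * (hi - lo) ≤ hi := hx.trans (hb x).2
  have f := FF_fine ha hα hL (h.c1 t0) hb w3.le k1 k2 (not_le.1 q1).le (not_le.1 q2).le
  rw [mul_rpow hε.le hW.le] at f
  have f2 := mul_le_mul_of_nonneg_right s3 (show 0 ≤ ε * (hi - lo) * (a * (hi - lo) ^ α) by positivity)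
  have f3 := mul_le_mul_of_nonneg_right s4 (show 0 ≤ (hi - lo) * (a * (hi - lo) ^ α) by positivity)
  have e := fun s => abs_le.1 (h.err ha hα hL h0 hb s)
  refine ⟨b - FF a α L (P t0) b + (α + 1) * L ^ 2 * (a * (hi - lo) ^ α) ^ 2 * (hi - lo),
    m1.trans (ms_mono fun σ hσ => ?_), m2.trans (ms_mono fun σ hσ => ?_)⟩
  · simp only [mem_ofPred_eq] at hσ ⊢
    have := FF_mono ha hα hL (h.c1 t0) hb s1 (by linarith) hσ (hb σ).2
    linarith [(e σ).1]
  · simp only [mem_ofPred_eq] at hσ ⊢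
    have := FF_mono ha hα hL (h.c1 t0) hb s1 (hb σ).1 hσ (by linarith)
    linarith [(e σ).2]

lemma ms_pos (hL : 0 < L) {f : ℝ → ℝ} (hf : Continuous f) {x r : ℝ} (hx : x ∈ Icc 0 (2 * L))
    (h : f x < r) : 0 < ms L {σ | f σ ≤ r} := by
  have o : IsOpen ({σ | f σ < r} ∩ Ioo 0 (2 * L)) := (isOpen_lt hf continuous_const).inter isOpen_Ioo
  rw [← closure_Ioo (by positivity)] at hx
  have n := mem_closure_iff.1 hx _ (isOpen_lt hf continuous_const) h
  refine ENNReal.toReal_pos (ne_of_gt ?_) (measure_ne_top _ _)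
  rw [Measure.restrict_apply (isClosed_le hf continuous_const).measurableSet]
  exact (o.measure_pos volume n).trans_le
    (measure_mono (inter_subset_inter (fun σ (h : f σ < r) => show f σ ≤ r from h.le)
      Ioo_subset_Ioc_self))

lemma markov (hL : 0 < L) {f : ℝ → ℝ} (hf : Continuous f) {S : Set ℝ} {r μ : ℝ} (hr : 0 ≤ r)
    (hm : μ ≤ ms L S) (h : ∀ σ ∈ S, r ≤ |f σ|) : r ^ 2 * μ ≤ ∫ σ in (0 : ℝ)..2 * L, f σ ^ 2 := by
  rw [integral_of_le (by positivity)]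
  refine le_trans (mul_le_mul_of_nonneg_left (hm.trans (ms_mono fun σ hσ => ?_)) (sq_nonneg r))
    (mul_meas_ge_le_integral_of_nonneg (Eventually.of_forall fun σ => sq_nonneg (f σ))
      (hf.pow 2).integrableOn_Ioc _)
  have := pow_le_pow_left₀ hr (h σ hσ) 2
  rwa [sq_abs] at this

lemma rec_up (ha : 0 < a) (hα : 0 < α) {W W' c : ℝ} (hW : 0 < W) (hW' : 0 < W')
    (h : W' ≤ W * (1 - c * (a * W ^ α))) : 1 / (a * W ^ α) + α * c ≤ 1 / (a * W' ^ α) := by
  have hw : 0 < a * W ^ α := by positivity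
  have h1 : W' ≤ W * exp (-(c * (a * W ^ α))) :=
    h.trans (mul_le_mul_of_nonneg_left (one_sub_le_exp_neg _) hW.le)
  have h2 := rpow_le_rpow hW'.le h1 hα.le
  rw [mul_rpow hW.le (exp_pos _).le, ← exp_mul, neg_mul, exp_neg, ← div_eq_mul_inv,
    le_div_iff₀ (exp_pos _)] at h2
  have h3 := add_one_le_exp (c * (a * W ^ α) * α)
  have h4 : 0 < W' ^ α := by positivity
  rw [div_add' _ _ _ hw.ne', div_le_div_iff₀ hw (by positivity)]
  nlinarith [mul_le_mul_of_nonneg_left h3 h4.le]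

lemma rec_lo (ha : 0 < a) (hα : 0 < α) {W W' c : ℝ} (hW : 0 < W) (hc : 0 < c)
    (h : W * (1 - c * (a * W ^ α)) ≤ W') (s : (α + 1) * (c * (a * W ^ α)) ≤ 1 / 2) :
    1 / (a * W' ^ α) ≤ 1 / (a * W ^ α) + 2 * (α + 1) * c := by
  have hw : 0 < a * W ^ α := by positivity
  have x0 : 0 < c * (a * W ^ α) := by positivity
  have x1 : c * (a * W ^ α) ≤ 1 / 2 := by nlinarith
  have h1 := one_add_mul_self_le_rpow_one_add (s := -(c * (a * W ^ α))) (by linarith)
    (show 1 ≤ α + 1 by linarith)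
  rw [← sub_eq_add_neg] at h1
  have h2 : (1 - c * (a * W ^ α)) ^ (α + 1) ≤ (1 - c * (a * W ^ α)) ^ α :=
    rpow_le_rpow_of_exponent_ge (by linarith) (by linarith) (by linarith)
  have h3 := rpow_le_rpow (mul_nonneg hW.le (by linarith)) h hα.le
  rw [mul_rpow hW.le (by linarith)] at h3
  have h4 : a * W ^ α * (1 - (α + 1) * (c * (a * W ^ α))) ≤ a * W' ^ α := by
    have : 0 < W ^ α := by positivity
    nlinarith [mul_le_mul_of_nonneg_left (h1.trans h2) hw.le]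
  generalize a * W' ^ α = w' at *
  generalize a * W ^ α = w at *
  have h5 : 0 < w' := lt_of_lt_of_le (mul_pos hw (by linarith)) h4
  rw [div_add' _ _ _ hw.ne', div_le_div_iff₀ h5 hw]
  have h6 : 0 < (α + 1) * (c * w) := by positivity
  nlinarith [mul_le_mul_of_nonneg_left h4 (show 0 ≤ 1 + 2 * ((α + 1) * (c * w)) by positivity),
    mul_nonneg (mul_pos hw h6).le (show 0 ≤ 1 - 2 * ((α + 1) * (c * w)) by linarith)]

end Pool.Agent.H19.Wave
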