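import Pool.Agent.H19.WaveG

set_option autoImplicit false

namespace Pool.Agent.H19.Wave

open Set Filter Topology intervalIntegral Real MeasureTheory

variable {a α L : ℝ} {P Pt : ℝ → ℝ → ℝ}

lemma pw' (ha : 0 < a) (hα : 0 < α) {M b t : ℝ} (hM : 0 < M) (hb : 0 < b) (ht : 0 ≤ t) :
    (1 / (a * M ^ α) ≤ b * (1 + t) → (a * b) ^ (-2 / α) * (1 + t) ^ (-2 / α) ≤ M ^ 2) ∧
    (b * (1 + t) ≤ 1 / (a * M ^ α) → M ^ 2 ≤ (a * b) ^ (-2 / α) * (1 + t) ^ (-2 / α)) := by
  have e : M ^ 2 = (a * (1 / (a * M ^ α))) ^ (-2 / α) := by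
    have : a * (1 / (a * M ^ α)) = M ^ (-α) := by rw [rpow_neg hM.le]; field_simp
    rw [this, ← rpow_mul hM.le, show -α * (-2 / α) = (2 : ℕ) by push_cast; field_simp,
      rpow_natCast]
  have n : -2 / α ≤ 0 := div_nonpos_of_nonpos_of_nonneg (by norm_num) hα.le
  rw [e, ← mul_rpow (by positivity) (by positivity), mul_assoc]
  exact ⟨fun h => rpow_le_rpow_of_nonpos (by positivity) (by gcongr) n,
    fun h => rpow_le_rpow_of_nonpos (by positivity) (by gcongr) n⟩

lemma ex_eps (hα : 0 < α) {x : ℝ} (hx : 0 < x) : ∃ ε, 0 < ε ∧ ε ≤ 1 / 2 ∧ ε ^ α ≤ x := by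
  refine ⟨min (1 / 2) (x ^ α⁻¹), by positivity, min_le_left _ _, ?_⟩
  exact (rpow_le_rpow (by positivity) (min_le_right _ _) hα.le).trans
    (rpow_inv_rpow hx.le hα.ne').le

set_option maxHeartbeats 1000000 in
theorem Sol2.rate (h : Sol2 a α L P Pt) (ha : 0 < a) (hα : 0 < α) (hL : 0 < L)
    (sg : ∀ t, ∃ s s', P t s ≤ 0 ∧ 0 ≤ P t s') (nt : ∃ s, P 0 s ≠ 0) :
    ∃ c C : ℝ, 0 < c ∧ ∀ t, 0 ≤ t → c * (1 + t) ^ (-2 / α) ≤ ∫ s in (0 : ℝ)..2 * L, P t s ^ 2 ∧
      ∫ s in (0 : ℝ)..2 * L, P t s ^ 2 ≤ C * (1 + t) ^ (-2 / α) := by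
  choose s1 s2 hb using h.ext hL
  have nz : ∀ t, 0 ≤ t → ∃ s, P t s ≠ 0 := fun t ht => by
    by_contra hc
    push Not at hc
    obtain ⟨s, hs⟩ := nt
    exact hs (h.back ha hα hL ht hc s)
  have sg' : ∀ t, P t (s2 t) ≤ 0 ∧ 0 ≤ P t (s1 t) := fun t => by
    obtain ⟨s, s', q1, q2⟩ := sg t
    exact ⟨(hb t s).1.trans q1, q2.trans (hb t s').2⟩
  obtain ⟨W, hWd⟩ : ∃ W : ℝ → ℝ, ∀ t, W t = P t (s1 t) - P t (s2 t) := ⟨_, fun _ => rfl⟩
  have W0 : ∀ t, 0 ≤ t → 0 < W t := fun t ht => by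
    obtain ⟨s, hs⟩ := nz t ht
    rw [hWd]
    rcases lt_or_gt_of_ne hs with q | q
    · linarith [(hb t s).1, (sg' t).2]
    · linarith [(hb t s).2, (sg' t).1]
  have WK : ∀ t t', 0 ≤ t → t ≤ t' → W t' ≤ W t := fun t t' ht ht' => by
    have := h.bds ha hα hL ht (hb t) ht'
    rw [hWd, hWd]
    linarith [(this (s1 t')).2, (this (s2 t')).1]
  set c := cc a α L (W 0) with hc
  have c0 : 0 < c := cc_pos ha hL (W0 0 le_rfl)
  have dec : ∀ t, 0 ≤ t → W (t + L) ≤ W t * (1 - c * (a * W t ^ α)) := fun t ht => by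
    have := h.decay ha hα hL ht (hb t) (hWd t ▸ W0 t ht) (hWd t ▸ WK 0 t le_rfl ht) (s1 (t + L))
      (s2 (t + L))
    rwa [← hWd, ← hWd] at this
  have dr : ∀ t, 0 ≤ t → ∀ t' ∈ Icc t (t + L), ∀ s, |P t' s - P t s| ≤ a * W t ^ α * W t * L :=
    fun t ht t' ht' s => by rw [hWd]; exact h.drift ha hα hL ht (hb t) ht' s
  have low : ∀ t, 0 ≤ t → W t * (1 - 2 * L * (a * W t ^ α)) ≤ W (t + L) := fun t ht => by
    have d1 := (abs_le.1 (dr t ht (t + L) ⟨by linarith, le_rfl⟩ (s1 t))).1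
    have d2 := (abs_le.1 (dr t ht (t + L) ⟨by linarith, le_rfl⟩ (s2 t))).2
    have := hWd t
    rw [hWd (t + L)]
    linarith [(hb (t + L) (s1 t)).2, (hb (t + L) (s2 t)).1]
  have up : ∀ k : ℕ, 1 / (a * W 0 ^ α) + k * (α * c) ≤ 1 / (a * W (k * L) ^ α) := by
    intro k
    induction k with
    | zero => simp
    | succ k ih =>
      have := rec_up ha hα (W0 (k * L) (by positivity)) (W0 _ (by positivity))
        (dec (k * L) (by positivity))
      push_cast
      rw [add_mul (k : ℝ) 1 L, one_mul]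
      linarith
  obtain ⟨ε, ε0, ε1, ε2⟩ := ex_eps hα (show 0 < c / (2 * (α + 1) * L) by positivity)
  obtain ⟨w, w0, w1, w2, w3⟩ : ∃ w : ℝ, 0 < w ∧ w ≤ 1 / (4 * (α + 1) * L) ∧ w ≤ ε / (4 * L) ∧
      w ≤ ε * c / (4 * ((α + 1) * L ^ 2)) :=
    ⟨min (1 / (4 * (α + 1) * L)) (min (ε / (4 * L)) (ε * c / (4 * ((α + 1) * L ^ 2)))),
      by positivity, min_le_left _ _, (min_le_right _ _).trans (min_le_left _ _),
      (min_le_right _ _).trans (min_le_right _ _)⟩
  rw [le_div_iff₀ (by positivity)] at ε2 w1 w2 w3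
  obtain ⟨k0, hk0⟩ := exists_nat_ge (1 / w / (α * c))
  obtain ⟨T, hT⟩ : ∃ T, T = (k0 : ℝ) * L := ⟨_, rfl⟩
  have T0 : 0 ≤ T := by rw [hT]; positivity
  have sm : ∀ t, T ≤ t → a * W t ^ α ≤ w := fun t ht => by
    have q1 := up k0
    have q2 : 0 < 1 / (a * W 0 ^ α) := by have := W0 0 le_rfl; positivity
    rw [div_le_iff₀ (by positivity)] at hk0
    rw [← hT] at q1
    have q3 := W0 T T0
    have q4 := (one_div_le_one_div w0 (by positivity)).1 (show 1 / w ≤ 1 / (a * W T ^ α) by linarith)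
    have q5 := W0 t (T0.trans ht)
    have q6 := WK T t T0 ht
    exact le_trans (by gcongr) q4
  obtain ⟨μ, μ0, μ1, μ2⟩ : ∃ μ, 0 < μ ∧ μ ≤ c / (2 * (α + 1)) ∧ Spr L (P T) (ε * W T) μ := by
    obtain ⟨x1, m1, e1⟩ := h.red hL (s1 T)
    obtain ⟨x2, m2, e2⟩ := h.red hL (s2 T)
    have q := W0 T T0
    have e := hWd T
    have p1 := ms_pos hL (h.c1 T).neg m1 (r := -(P T (s1 T) - W T / 4)) (by
      simp only [Pi.neg_apply, ← e1]; linarith)
    have p2 := ms_pos hL (h.c1 T) m2 (r := P T (s2 T) + W T / 4) (by rw [← e2]; linarith)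
    refine ⟨min (c / (2 * (α + 1))) (min _ _), lt_min (by positivity) (lt_min p1 p2),
      min_le_left _ _, P T (s2 T) + W T / 4,
      (min_le_right _ _).trans ((min_le_left _ _).trans (ms_mono fun σ hσ => ?_)),
      (min_le_right _ _).trans (min_le_right _ _)⟩
    simp only [mem_ofPred_eq, Pi.neg_apply] at hσ ⊢
    nlinarith
  rw [le_div_iff₀ (by positivity)] at μ1
  have it : ∀ j : ℕ, Spr L (P (T + j * L)) (ε * W (T + j * L)) μ ∧
      1 / (a * W (T + j * L) ^ α) ≤ 1 / (a * W T ^ α) + j * (4 * (α + 1) * L) := by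
    intro j
    induction j with
    | zero => simpa using μ2
    | succ j ih =>
      have q0 : T ≤ T + j * L := le_add_of_nonneg_right (by positivity)
      have q1 := T0.trans q0
      have q2 := sm _ q0
      have q3 := W0 _ q1
      have q4 := mul_le_mul_of_nonneg_left q2 (show 0 ≤ (α + 1) * L by positivity)
      have q5 := mul_le_mul_of_nonneg_left q2 hL.le
      have q6 := mul_le_mul_of_nonneg_left q2 (show 0 ≤ (α + 1) * L ^ 2 by positivity)
      have r := rec_lo ha hα q3 (by positivity) (low _ q1) (by linarith)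
      have e : T + ((j + 1 : ℕ) : ℝ) * L = T + j * L + L := by push_cast; ring
      rw [e]
      refine ⟨h.spr ha hα hL q1 (hb _) (hWd _ ▸ q3) ε0 μ0 c0 ?_ ?_ (by linarith) ?_ ?_ ?_, ?_⟩
      · rw [← hWd]; linarith
      · rw [← hWd]; linarith
      · rw [← hWd]; linarith
      · rw [← hWd]; exact dec _ q1
      · rw [← hWd]; exact ih.1
      · push_cast
        linarith [ih.2]
  have cE : Continuous fun t => ∫ s in (0 : ℝ)..2 * L, P t s ^ 2 :=
    continuous_parametric_intervalIntegral_of_continuous' (f := fun t s => P t s ^ 2)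
      (show Continuous fun z : ℝ × ℝ => P z.1 z.2 ^ 2 from h.cP.pow 2) _ _
  obtain ⟨tm, tm1, tm2⟩ := isCompact_Icc.exists_isMinOn (nonempty_Icc.2 T0) cE.continuousOn
  have e0 : 0 < ∫ s in (0 : ℝ)..2 * L, P tm s ^ 2 := by
    obtain ⟨s, hs⟩ := nz tm tm1.1
    obtain ⟨x, m, e⟩ := h.red hL s
    rw [e] at hs
    have hs' := abs_pos.2 hs
    have p := ms_pos hL (h.c1 tm).abs.neg m (r := -(|P tm x| / 2)) (by
      simp only [Pi.neg_apply]; linarith)
    refine lt_of_lt_of_le ?_ (markov hL (h.c1 tm) (half_pos hs').le le_rfl fun σ hσ =>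
      neg_le_neg_iff.1 hσ)
    exact mul_pos (by positivity) p
  have i0 : 0 < 1 / (a * W 0 ^ α) := by have := W0 0 le_rfl; positivity
  have iT : 0 < 1 / (a * W T ^ α) := by have := W0 T T0; positivity
  obtain ⟨m, m0, m1, m2⟩ : ∃ m : ℝ, 0 < m ∧ m ≤ 1 / (a * W 0 ^ α) ∧ m ≤ α * c :=
    ⟨min _ _, lt_min i0 (by positivity), min_le_left _ _, min_le_right _ _⟩
  refine ⟨min (∫ s in (0 : ℝ)..2 * L, P tm s ^ 2)
    ((ε / 4) ^ 2 * μ * (a * (1 / (a * W T ^ α) + 4 * (α + 1))) ^ (-2 / α)),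
    2 * L * (a * (m / (1 + L))) ^ (-2 / α), lt_min e0 (by positivity), fun t ht => ⟨?_, ?_⟩⟩
  · have p0 : 0 < (1 + t) ^ (-2 / α) := by positivity
    rcases le_total t T with q | q
    · have p1 : (1 + t) ^ (-2 / α) ≤ 1 := rpow_le_one_of_one_le_of_nonpos (by linarith)
        (div_nonpos_of_nonpos_of_nonneg (by norm_num) hα.le)
      exact (mul_le_mul (min_le_left _ _) p1 p0.le e0.le).trans
        ((mul_one _).le.trans (tm2 ⟨ht, q⟩))
    · obtain ⟨j, j1, j2⟩ : ∃ j : ℕ, T + j * L ≤ t ∧ t ≤ T + j * L + L := by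
        refine ⟨⌊(t - T) / L⌋₊, ?_, ?_⟩
        · linarith [(le_div_iff₀ hL).1 (Nat.floor_le (div_nonneg (sub_nonneg.2 q) hL.le))]
        · linarith [(div_lt_iff₀ hL).1 (Nat.lt_floor_add_one ((t - T) / L))]
      have q0 : T ≤ T + j * L := le_add_of_nonneg_right (by positivity)
      have q1 := T0.trans q0
      have q3 := W0 _ q1
      obtain ⟨⟨b, b1, b2⟩, i2⟩ := it j
      have d := fun s => abs_le.1 (dr _ q1 t ⟨j1, j2⟩ s)
      have d2 : a * W (T + j * L) ^ α * W (T + j * L) * L ≤ ε / 4 * W (T + j * L) := by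
        nlinarith [mul_le_mul_of_nonneg_right (sm _ q0) (mul_pos q3 hL).le]
      have p := (pw' ha hα q3 (b := 1 / (a * W T ^ α) + 4 * (α + 1)) (by positivity) ht).1 (by
        nlinarith [mul_le_mul_of_nonneg_left j1 (show 0 ≤ 4 * (α + 1) by positivity),
          mul_nonneg (show 0 ≤ 4 * (α + 1) by positivity) T0, mul_nonneg iT.le ht])
      have mk : (ε / 4 * W (T + j * L)) ^ 2 * μ ≤ ∫ s in (0 : ℝ)..2 * L, P t s ^ 2 := by
        rcases le_total b (-(ε * W (T + j * L) / 2)) with r | r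
        · refine markov hL (h.c1 t) (by positivity) b2 fun σ hσ => le_trans ?_ (neg_le_abs _)
          simp only [mem_ofPred_eq] at hσ
          linarith [(d σ).2]
        · refine markov hL (h.c1 t) (by positivity) b1 fun σ hσ => le_trans ?_ (le_abs_self _)
          simp only [mem_ofPred_eq] at hσ
          linarith [(d σ).1]
      refine (mul_le_mul_of_nonneg_right (min_le_right _ _) p0.le).trans (le_trans ?_ mk)
      have := mul_le_mul_of_nonneg_left p (show 0 ≤ (ε / 4) ^ 2 * μ by positivity)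
      linarith
  · have k1 : (⌊t / L⌋₊ : ℝ) * L ≤ t := (le_div_iff₀ hL).1 (Nat.floor_le (by positivity))
    have k2 := (div_lt_iff₀ hL).1 (Nat.lt_floor_add_one (t / L))
    have u := up ⌊t / L⌋₊
    have k0' : (0 : ℝ) ≤ ⌊t / L⌋₊ := Nat.cast_nonneg _
    generalize (⌊t / L⌋₊ : ℝ) = k at *
    have q1 : 0 ≤ k * L := by positivity
    have p := (pw' ha hα (W0 _ q1) (b := m / (1 + L)) (by positivity) ht).2 (by
      refine le_trans ?_ u
      have : m / (1 + L) * (1 + t) ≤ m * (1 + k) := by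
        rw [div_mul_eq_mul_div, div_le_iff₀ (by positivity), mul_assoc]
        exact mul_le_mul_of_nonneg_left (by nlinarith) m0.le
      nlinarith)
    have cP : Continuous fun s => P t s ^ 2 := (h.c1 t).pow 2
    have q := int_le (L := 2 * L) (by positivity) cP cP 1 0 (W (k * L) ^ 2) fun s => by
      have b := h.bds ha hα hL q1 (hb _) k1 s
      have e := hWd (k * L)
      have := sq_le_sq' (show -W (k * L) ≤ P t s by linarith [b.1, (sg' (k * L)).2])
        (show P t s ≤ W (k * L) by linarith [b.2, (sg' (k * L)).1])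
      simpa using this
    have := mul_le_mul_of_nonneg_left p (show 0 ≤ 2 * L by positivity)
    linarith

theorem allsol (hL : 0 < L) (ha : 0 < a) (hα : 0 < α) (u : ℝ → ℝ → ℝ)
    (hu : ContDiff ℝ 2 fun z : ℝ × ℝ => u z.1 z.2) (ho : ∀ t x, u t (-x) = - u t x)
    (hp : ∀ t x, u t (x + 2 * L) = u t x)
    (he : ∀ t, 0 ≤ t → ∀ x, dT (dT u) t x - dX (dX u) t x + a * |dT u t x| ^ α * dT u t x = 0)
    (hn : ∃ x, u 0 x ≠ 0 ∨ dT u 0 x ≠ 0) :
    ∃ c C : ℝ, 0 < c ∧ ∀ t, 0 ≤ t →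
      c * (1 + t) ^ (-2 / α) ≤ En L u t ∧ En L u t ≤ C * (1 + t) ^ (-2 / α) := by
  set f' := fderiv ℝ fun z : ℝ × ℝ => u z.1 z.2 with hf'
  have c1 : ContDiff ℝ 1 f' := hu.fderiv_right (by norm_num)
  have d1 : ∀ z, HasFDerivAt (fun z : ℝ × ℝ => u z.1 z.2) (f' z) z := fun z =>
    (hu.differentiable (by norm_num) z).hasFDerivAt
  have d2 : ∀ z, HasFDerivAt f' (fderiv ℝ f' z) z := fun z =>
    (c1.differentiable (by norm_num) z).hasFDerivAt
  have c2 : Continuous (fderiv ℝ f') := c1.continuous_fderiv (by norm_num)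
  have c0 := c1.continuous
  have lt : ∀ t x : ℝ, HasDerivAt (fun τ : ℝ => (τ, x)) ((1 : ℝ), (0 : ℝ)) t := fun t x =>
    (hasDerivAt_id t).prodMk (hasDerivAt_const t x)
  have lx : ∀ t x : ℝ, HasDerivAt (fun y : ℝ => (t, y)) ((0 : ℝ), (1 : ℝ)) x := fun t x =>
    (hasDerivAt_const x t).prodMk (hasDerivAt_id x)
  have ux : ∀ t x, HasDerivAt (u t) (f' (t, x) (0, 1)) x := fun t x =>
    (d1 (t, x)).comp_hasDerivAt x (lx t x)
  have eT : dT u = fun t x => f' (t, x) (1, 0) := by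
    funext t x; exact ((d1 (t, x)).comp_hasDerivAt t (lt t x)).deriv
  have eX : dX u = fun t x => f' (t, x) (0, 1) := by
    funext t x; exact (ux t x).deriv
  have ap : ∀ (γ : ℝ → ℝ × ℝ) (v w : ℝ × ℝ) (t : ℝ), HasDerivAt γ v t →
      HasDerivAt (fun τ => f' (γ τ) w) (fderiv ℝ f' (γ t) v w) t := fun γ v w t hγ =>
    (ContinuousLinearMap.apply ℝ ℝ w).hasFDerivAt.comp_hasDerivAt t ((d2 _).comp_hasDerivAt t hγ)
  have eTT : ∀ t x, dT (dT u) t x = fderiv ℝ f' (t, x) (1, 0) (1, 0) := fun t x => by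
    rw [eT]; exact (ap _ _ _ _ (lt t x)).deriv
  have eXX : ∀ t x, dX (dX u) t x = fderiv ℝ f' (t, x) (0, 1) (0, 1) := fun t x => by
    rw [eX]; exact (ap _ _ _ _ (lx t x)).deriv
  have oT : ∀ t x, dT u t (-x) = - dT u t x := fun t x => by
    simp only [dT, ho, deriv.fun_neg]
  have oX : ∀ t x, dX u t (-x) = dX u t x := fun t x => by
    have := deriv_comp_neg (u t) x
    simp only [ho, deriv.fun_neg] at this
    exact (neg_inj.1 this).symm
  have pT : ∀ t x, dT u t (x + 2 * L) = dT u t x := fun t x => by simp only [dT, hp]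
  have pX : ∀ t x, dX u t (x + 2 * L) = dX u t x := fun t x => by
    have := deriv_comp_add_const (u t) (2 * L) x
    simp only [hp] at this
    exact this.symm
  have e1 : ((1 : ℝ), (1 : ℝ)) = (1, 0) + (0, 1) := by simp
  have e2 : ((1 : ℝ), (-1 : ℝ)) = (1, 0) - (0, 1) := by simp
  have eP : ∀ t x, f' (t, x) (1, 1) = dT u t x + dX u t x := fun t x => by
    rw [e1, map_add, eT, eX]
  have h : Sol2 a α L (fun t s => f' (t, s - t) (1, 1))
      (fun t s => fderiv ℝ f' (t, s - t) (1, -1) (1, 1)) := by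
    refine ⟨fun t s => ap (fun τ => (τ, s - τ)) _ _ _
      ((hasDerivAt_id t).prodMk ((hasDerivAt_id t).const_sub s)), by fun_prop, by fun_prop,
      fun t s => ?_, fun t ht s => ?_⟩
    · simp only [eP, add_sub_right_comm, pT, pX]
    · have q := he t ht (s - t)
      have sy := second_derivative_symmetric d1 (d2 (t, s - t)) (1, 0) (0, 1)
      rw [eTT, eXX] at q
      simp only [eP]
      rw [show 2 * t - s - t = -(s - t) by ring, oT, oX, e1, e2, map_sub,
        ContinuousLinearMap.sub_apply, map_add, map_add,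
        show (dT u t (s - t) + dX u t (s - t) - (-dT u t (s - t) + dX u t (s - t))) / 2 =
          dT u t (s - t) by ring, gg]
      linarith
  have u0 : ∀ t, u t 0 = 0 := fun t => by
    have := ho t 0
    rw [neg_zero] at this
    linarith
  obtain ⟨c, C, c0', hc⟩ := h.rate ha hα hL (fun t => by
    have uL : u t L = 0 := by
      have := hp t (-L)
      rw [ho, show -L + 2 * L = L by ring] at this
      linarith
    obtain ⟨x, -, hx⟩ := exists_deriv_eq_zero hL
      (fun x _ => (ux t x).continuousAt.continuousWithinAt) ((u0 t).trans uL.symm)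
    have hx' : dX u t x = 0 := hx
    have q1 : f' (t, t + x - t) (1, 1) = dT u t x := by rw [eP, add_sub_cancel_left, hx', add_zero]
    have q2 : f' (t, t - x - t) (1, 1) = - dT u t x := by
      rw [eP, show t - x - t = -x by ring, oT, oX, hx', add_zero]
    rcases le_total (dT u t x) 0 with r | r
    · exact ⟨t + x, t - x, q1.trans_le r, by rw [q2]; linarith⟩
    · exact ⟨t - x, t + x, by rw [q2]; linarith, r.trans_eq q1.symm⟩) (by
    by_contra hz
    push Not at hz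
    have z : ∀ x, dT u 0 x = 0 ∧ dX u 0 x = 0 := fun x => by
      have q1 := hz x
      have q2 := hz (-x)
      rw [sub_zero, eP] at q1 q2
      rw [oT, oX] at q2
      constructor <;> linarith
    obtain ⟨x, r | r⟩ := hn
    · exact r ((is_const_of_deriv_eq_zero (fun x => (ux 0 x).differentiableAt)
        (fun x => (z x).2) x 0).trans (u0 0))
    · exact r (z x).1)
  have en : ∀ t, En L u t = (∫ s in (0 : ℝ)..2 * L, f' (t, s - t) (1, 1) ^ 2) / 2 := fun t => by
    have cP : Continuous fun s => f' (t, s - t) (1, 1) ^ 2 := (h.c1 t).pow 2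
    have pp : Function.Periodic (fun s => f' (t, s - t) (1, 1) ^ 2) (2 * L) := fun s =>
      congrArg (· ^ 2) (h.per t s)
    have e : ∀ x, dT u t x ^ 2 + dX u t x ^ 2 =
        (f' (t, t + x - t) (1, 1) ^ 2 + f' (t, t - x - t) (1, 1) ^ 2) / 2 := fun x => by
      rw [eP, eP, add_sub_cancel_left, show t - x - t = -x by ring, oT, oX]
      ring
    simp only [En, e]
    rw [intervalIntegral.integral_div, intervalIntegral.integral_add
      (Continuous.intervalIntegrable (by fun_prop) _ _)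
      (Continuous.intervalIntegrable (by fun_prop) _ _),
      integral_comp_add_left (fun s => f' (t, s - t) (1, 1) ^ 2),
      integral_comp_sub_left (fun s => f' (t, s - t) (1, 1) ^ 2), add_zero, sub_zero, add_comm,
      integral_add_adjacent_intervals (cP.intervalIntegrable _ _) (cP.intervalIntegrable _ _),
      show t + L = t - L + 2 * L by ring, pp.intervalIntegral_add_eq _ 0, zero_add]
  refine ⟨c / 2, C / 2, half_pos c0', fun t ht => ?_⟩
  rw [en]
  constructor <;> linarith [(hc t ht).1, (hc t ht).2]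

end Pool.Agent.H19.Wave
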