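import Pool.Agent.H19.WaveH

set_option autoImplicit false
set_option linter.unusedSectionVars false

namespace Pool.Agent.H19.Wave

open Set Filter Topology Real
open scoped NNReal

lemma glob' {E : Type} [NormedAddCommGroup E] [NormedSpace ℝ E] [CompleteSpace E]
    (F : ℝ → E → E) (K L : ℝ≥0) (hK : ∀ t, LipschitzWith K (F t))
    (hc : ∀ x, Continuous (fun t => F t x)) (hL : ∀ t x, ‖F t x‖ ≤ L) (x0 : E) :
    ∃ ψ : ℝ → E, ψ (-1) = x0 ∧ ∀ t, HasDerivAt ψ (F t (ψ t)) t := by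
  obtain ⟨ψ, h0, h⟩ := glob (fun t => F (t - 1)) K L (fun t => hK _)
    (fun x => (hc x).comp (by fun_prop)) (fun t => hL _) x0
  refine ⟨fun t => ψ (t + 1), by simpa using h0, fun t => ?_⟩
  simpa using (h (t + 1)).comp_add_const t 1

lemma udiff (f f' : ℝ → ℝ) (hf : ∀ x, HasDerivAt f (f' x) x) (hc : Continuous f') (M ε : ℝ)
    (hε : 0 < ε) : ∃ η, 0 < η ∧ η ≤ 1 ∧ ∀ x k, |x| ≤ M → |k| ≤ η →
      |f (x + k) - f x - k * f' x| ≤ ε * |k| := by
  obtain ⟨η, h0, h⟩ := Metric.uniformContinuousOn_iff_le.1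
    ((isCompact_Icc (a := -(M + 1)) (b := M + 1)).uniformContinuousOn_of_continuous
      hc.continuousOn) ε hε
  refine ⟨min η 1, by positivity, min_le_right _ _, fun x k hx hk => ?_⟩
  have k1 := hk.trans (min_le_left _ _)
  have k2 := hk.trans (min_le_right _ _)
  have hx' := abs_le.1 hx
  have k0 := abs_nonneg k
  have := (convex_Icc (x - |k|) (x + |k|)).norm_image_sub_le_of_norm_hasDerivWithin_le
    (f := fun y => f y - y * f' x) (f' := fun y => f' y - f' x) (C := ε)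
    (fun y _ => ((hf y).sub (hasDerivAt_mul_const (f' x))).hasDerivWithinAt)
    (fun y hy => h y ⟨by linarith [hy.1], by linarith [hy.2]⟩ x ⟨by linarith, by linarith⟩
      (abs_le.2 ⟨by linarith [hy.1], by linarith [hy.2]⟩))
    (x := x) (y := x + k) ⟨by linarith, by linarith⟩
    ⟨by linarith [neg_abs_le k], by linarith [le_abs_self k]⟩
  rw [add_sub_cancel_left, Real.norm_eq_abs, Real.norm_eq_abs] at this
  refine le_trans (le_of_eq ?_) this
  congr 1
  ring

variable {p : ℝ} [Fact (0 < p)] {a α L : ℝ}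

lemma solve (F : ℝ → X p → X p) {C : ℝ≥0} (hC : (0 : ℝ) < C)
    (lip : ∀ t y y', ‖y‖ ≤ 1 → ‖y'‖ ≤ 1 → ∀ z, |F t y z - F t y' z| ≤ C * ‖y - y'‖)
    (cont : ∀ y, Continuous fun t => F t y) (zero : ∀ t ≤ -1, ∀ y, F t y = 0)
    (form : ∀ t y, ‖y‖ ≤ 1 → ∀ z, ∃ (k σ : ℝ) (w : AddCircle p), 0 ≤ k ∧ k ≤ C ∧ |σ| ≤ 1 ∧
      F t y z = -(k * ((y z + σ * y w) / 2))) (y0 : X p) (h0 : ‖y0‖ ≤ 1) :
    ∃ y : ℝ → X p, (∀ t ≤ -1, y t = y0) ∧ (∀ t, ‖y t‖ ≤ ‖y0‖) ∧
      ∀ t, HasDerivAt y (F t (y t)) t := by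
  have sg : ∀ (y : X p) (σ : ℝ) w, |σ| ≤ 1 → |σ * y w| ≤ ‖y‖ := fun y σ w h => by
    rw [abs_mul]
    exact (mul_le_of_le_one_left (abs_nonneg _) h).trans (ev y w)
  obtain ⟨y, hy0, hy⟩ := glob' (fun t (y : X p) => F t (ret y)) (2 * C) C
    (fun t => LipschitzWith.of_dist_le_mul fun u v => by
      have h2 := ret_lip.dist_le_mul u v
      rw [dist_eq_norm] at h2 ⊢
      push_cast at h2 ⊢
      refine (ContinuousMap.norm_le _ (by positivity)).2 fun z => ?_
      exact (lip t _ _ (ret_norm u) (ret_norm v) z).trans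
        ((mul_le_mul_of_nonneg_left h2 hC.le).trans (le_of_eq (by ring))))
    (fun x => cont _) (fun t x => (ContinuousMap.norm_le _ hC.le).2 fun z => by
      obtain ⟨k, σ, w, k0, k1, s1, e⟩ := form t _ (ret_norm x) z
      have b := (half ((ev _ z).trans (ret_norm x)) ((sg _ σ w s1).trans (ret_norm x))).2
      rw [e, norm_neg, Real.norm_eq_abs, abs_mul, abs_of_nonneg k0]
      exact (mul_le_mul k1 b (abs_nonneg _) hC.le).trans (mul_one _).le) y0
  have hc : Continuous y := continuous_iff_continuousAt.2 fun t => (hy t).continuousAt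
  have a1 := norm_anti _ _ hy (1 / C) (by positivity) fun t h hh =>
    (ContinuousMap.norm_le _ (norm_nonneg _)).2 fun z => by
      obtain ⟨k, σ, w, k0, k1, s1, e⟩ := form t _ (ret_norm (y t)) z
      have θ0 : 0 ≤ (max 1 ‖y t‖)⁻¹ := by positivity
      have θ1 : (max 1 ‖y t‖)⁻¹ ≤ 1 := inv_le_one_of_one_le₀ (le_max_left _ _)
      have b1 := (lt_div_iff₀ hC).1 hh.2
      have b2 : h * k ≤ 1 := by nlinarith [hh.1]
      have b3 : 0 ≤ h * k := mul_nonneg hh.1.le k0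
      have := conv (ev (y t) z) (sg (y t) σ w s1) (mul_nonneg b3 θ0) (by nlinarith)
      refine le_trans (le_of_eq ?_) this
      change |y t z + h * F t (ret (y t)) z| = _
      rw [e]
      congr 1
      simp only [ret, ContinuousMap.smul_apply, smul_eq_mul]
      ring
  have c0 : ∀ t ≤ -1, y t = y0 := fun t ht => by
    rw [← hy0]
    refine (constant_of_has_deriv_right_zero hc.continuousOn (fun x hx => ?_) _ ⟨ht, le_rfl⟩).symm
    have := hy x
    rw [zero x hx.2.le] at this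
    exact this.hasDerivWithinAt
  have n : ∀ t, ‖y t‖ ≤ ‖y0‖ := fun t => by
    rcases le_total t (-1) with h | h
    · rw [c0 t h]
    · exact hy0 ▸ a1 h
  refine ⟨y, c0, n, fun t => ?_⟩
  have := hy t
  rwa [ret_eq ((n t).trans h0)] at this

/-- cutoff in time -/
noncomputable def chi (t : ℝ) : ℝ := max 0 (min 1 (t + 1))

lemma chi_c : Continuous chi := by unfold chi; fun_prop

lemma chi_b (t : ℝ) : 0 ≤ chi t ∧ chi t ≤ 1 :=
  ⟨le_max_left _ _, max_le zero_le_one (min_le_left _ _)⟩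

lemma chi_0 {t : ℝ} (h : t ≤ -1) : chi t = 0 :=
  max_eq_left ((min_le_right _ _).trans (by linarith))

lemma chi_1 {t : ℝ} (h : 0 ≤ t) : chi t = 1 := by
  rw [chi, min_eq_left (by linarith), max_eq_right zero_le_one]

noncomputable def F1 (a : ℝ) (hα : 0 < α) (t : ℝ) (y : X p) : X p :=
  ⟨fun z => -(chi t * gg a α (D t y z)), by have := gcont' (a := a) hα; fun_prop⟩

lemma pcont (hα : 0 < α) : Continuous (ps a α) := (cabs' hα).const_mul _

noncomputable def F2 (a : ℝ) (hα : 0 < α) (t : ℝ) (y r : X p) : X p :=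
  ⟨fun z => -(chi t * ps a α (D t y z) * S t r z), by have := pcont (a := a) hα; fun_prop⟩

lemma cD {y : ℝ → X p} (hy : Continuous y) :
    Continuous fun q : ℝ × AddCircle p => D q.1 (y q.1) q.2 := by
  simp only [D, ContinuousMap.coe_mk]
  fun_prop

lemma cS {y : ℝ → X p} (hy : Continuous y) :
    Continuous fun q : ℝ × AddCircle p => S q.1 (y q.1) q.2 := by
  simp only [S, ContinuousMap.coe_mk]
  fun_prop

lemma cF1 (hα : 0 < α) {y : ℝ → X p} (hy : Continuous y) :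
    Continuous fun t => F1 a hα t (y t) :=
  ContinuousMap.continuous_of_continuous_uncurry _
    ((chi_c.comp continuous_fst).mul ((gcont' hα).comp (cD hy))).neg

lemma pair (ha : 0 < a) (hα : 0 < α) (P0 R0 : X p) (h1 : ‖P0‖ ≤ 1) (h2 : ‖R0‖ ≤ 1) :
    ∃ P R : ℝ → X p, (∀ t ≤ -1, P t = P0) ∧ (∀ t ≤ -1, R t = R0) ∧ (∀ t, ‖P t‖ ≤ ‖P0‖) ∧
      (∀ t, ‖R t‖ ≤ 1) ∧ (∀ t, HasDerivAt P (F1 a hα t (P t)) t) ∧
      ∀ t, HasDerivAt R (F2 a hα t (P t) (R t)) t := by
  obtain ⟨C, hC⟩ : ∃ C : ℝ≥0, (C : ℝ) = (α + 1) * (a * 1 ^ α) := ⟨⟨_, by positivity⟩, rfl⟩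
  have C0 : (0 : ℝ) < C := by rw [hC]; positivity
  obtain ⟨P, p1, p2, p3⟩ := solve (F1 a hα) C0 (fun t y y' hy hy' z => by
      have := glip' ha hα ((D_le t y z).trans hy) ((D_le t y' z).trans hy')
      rw [D_sub, ← hC] at this
      change |-(chi t * gg a α (D t y z)) - -(chi t * gg a α (D t y' z))| ≤ _
      rw [neg_sub_neg, abs_sub_comm, ← mul_sub, abs_mul, abs_of_nonneg (chi_b t).1]
      exact (mul_le_of_le_one_left (abs_nonneg _) (chi_b t).2).trans
        (this.trans (mul_le_mul_of_nonneg_left (D_le _ _ _) C0.le)))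
    (fun y => cF1 hα continuous_const) (fun t ht y => by ext z; simp [F1, chi_0 ht])
    (fun t y hy z => by
      have b : |D t y z| ^ α ≤ 1 ^ α := rpow_le_rpow (abs_nonneg _) ((D_le t y z).trans hy) hα.le
      have b0 : 0 ≤ a * |D t y z| ^ α := by positivity
      refine ⟨chi t * (a * |D t y z| ^ α), -1, ((2 * t : ℝ) : AddCircle p) - z,
        mul_nonneg (chi_b t).1 b0, (mul_le_of_le_one_left b0 (chi_b t).2).trans ?_, by simp, ?_⟩
      · rw [hC]
        have : 0 ≤ a * 1 ^ α := by positivity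
        nlinarith
      · change -(chi t * (a * |D t y z| ^ α * D t y z)) = _
        generalize |D t y z| ^ α = k
        simp only [D, ContinuousMap.coe_mk]
        ring) P0 h1
  have cP : Continuous P := continuous_iff_continuousAt.2 fun t => (p3 t).continuousAt
  have k : ∀ t z, 0 ≤ chi t * ps a α (D t (P t) z) ∧ chi t * ps a α (D t (P t) z) ≤ C := fun t z => by
    have := ps_le' ha hα ((D_le t (P t) z).trans ((p2 t).trans h1))
    exact ⟨mul_nonneg (chi_b t).1 this.1,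
      (mul_le_of_le_one_left this.1 (chi_b t).2).trans (hC ▸ this.2)⟩
  obtain ⟨R, r1, r2, r3⟩ := solve (fun t => F2 a hα t (P t)) C0 (fun t y y' _ _ z => by
      change |-(chi t * ps a α (D t (P t) z) * S t y z) -
        -(chi t * ps a α (D t (P t) z) * S t y' z)| ≤ _
      rw [neg_sub_neg, abs_sub_comm, ← mul_sub, S_sub, abs_mul, abs_of_nonneg (k t z).1]
      exact mul_le_mul (k t z).2 (S_le _ _ _) (abs_nonneg _) C0.le)
    (fun y => ContinuousMap.continuous_of_continuous_uncurry _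
      (((chi_c.comp continuous_fst).mul ((pcont hα).comp (cD cP))).mul
        (cS continuous_const)).neg)
    (fun t ht y => by ext z; simp [F2, chi_0 ht])
    (fun t y _ z => ⟨_, 1, ((2 * t : ℝ) : AddCircle p) - z, (k t z).1, (k t z).2, by simp, by
      change -(chi t * ps a α (D t (P t) z) * S t y z) = _
      simp only [S, ContinuousMap.coe_mk, one_mul]⟩) R0 h2
  exact ⟨P, R, p1, r1, p2, fun t => (r2 t).trans h2, p3, r3⟩

/-- translation -/
noncomputable def Tr (p h : ℝ) : X p →L[ℝ] X p :=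
  ContinuousMap.compCLM ℝ ℝ ⟨fun z => z + (h : ℝ), by fun_prop⟩

lemma Tr_ap (h : ℝ) (f : X p) (z : AddCircle p) : Tr p h f z = f (z + (h : ℝ)) := rfl

lemma sdiff (ha : 0 < a) (hα : 0 < α) (P R : ℝ → X p) (n1 : ∀ t, ‖P t‖ ≤ 1) (n2 : ∀ t, ‖R t‖ ≤ 1)
    (dP : ∀ t, HasDerivAt P (F1 a hα t (P t)) t) (dR : ∀ t, HasDerivAt R (F2 a hα t (P t) (R t)) t)
    (hd : ∀ s : ℝ, HasDerivAt (fun s : ℝ => P (-1) s) (R (-1) s) s) {t : ℝ} (ht : -1 ≤ t) (s : ℝ) :
    HasDerivAt (fun s : ℝ => P t s) (R t s) s := by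
  set K := (α + 1) * (a * 2 ^ α) with hK
  have K0 : 0 < K := by positivity
  have B0 : 0 < exp (K * (t - -1)) * (1 + 1 / K) := by positivity
  rw [hasDerivAt_iff_isLittleO_nhds_zero, Asymptotics.isLittleO_iff]
  intro ε hε
  set e := ε / (exp (K * (t - -1)) * (1 + 1 / K)) with he
  have e0 : 0 < e := by positivity
  obtain ⟨η1, a0, a1, a2⟩ := udiff _ _ (gder' (a := a) hα) (pcont hα) 1 e e0
  obtain ⟨η2, b0, -, b2⟩ := udiff _ _ hd (by fun_prop) p e e0
  let W : ℝ → ℝ → X p := fun h τ => Tr p h (P τ) - P τ - h • R τ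
  let W' : ℝ → ℝ → X p := fun h τ =>
    Tr p h (F1 a hα τ (P τ)) - F1 a hα τ (P τ) - h • F2 a hα τ (P τ) (R τ)
  have dW : ∀ h τ, HasDerivAt (W h) (W' h τ) τ := fun h τ =>
    (((Tr p h).hasFDerivAt.comp_hasDerivAt τ (dP τ)).sub (dP τ)).sub ((dR τ).const_smul h)
  have i0 : ∀ h, |h| ≤ η2 → ‖W h (-1)‖ ≤ e * |h| := fun h hh =>
    (ContinuousMap.norm_le _ (by positivity)).2 fun z => by
      obtain ⟨x, hx, rfl⟩ := AddCircle.eq_coe_Ioc z
      have := b2 x h (by rw [abs_of_pos hx.1]; exact hx.2) hh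
      rw [AddCircle.coe_add] at this
      exact this
  have i1 : ∀ h τ N, |h| ≤ η1 → ‖W h τ‖ ≤ N → ‖W (-h) τ‖ ≤ N → ‖W' h τ‖ ≤ K * N + e * |h| := by
    intro h τ N hh w1 w2
    have N0 : 0 ≤ N := (norm_nonneg _).trans w1
    refine (ContinuousMap.norm_le _ (by positivity)).2 fun z => ?_
    have s1 : |S τ (R τ) z| ≤ 1 := (S_le _ _ _).trans (n2 τ)
    have s2 : |h * S τ (R τ) z| ≤ |h| := by
      rw [abs_mul]; exact mul_le_of_le_one_right (abs_nonneg _) s1
    have d1 : |D τ (P τ) z| ≤ 1 := (D_le _ _ _).trans (n1 τ)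
    have d2 : |D τ (P τ) (z + (h : ℝ))| ≤ 2 := ((D_le _ _ _).trans (n1 τ)).trans one_le_two
    have d3 : |D τ (P τ) z + h * S τ (R τ) z| ≤ 2 := (abs_add_le _ _).trans (by linarith)
    have c1 := a2 _ _ d1 (s2.trans hh)
    have c2 := glip' ha hα d2 d3
    have c3 : |D τ (P τ) (z + (h : ℝ)) - (D τ (P τ) z + h * S τ (R τ) z)| ≤ N := by
      refine le_trans (le_of_eq ?_) (half ((ev _ z).trans w1)
        ((ev _ (((2 * τ : ℝ) : AddCircle p) - z)).trans w2)).1
      congr 1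
      have e1 : ((2 * τ : ℝ) : AddCircle p) - z + ((-h : ℝ) : AddCircle p) =
          ((2 * τ : ℝ) : AddCircle p) - (z + (h : ℝ)) := by rw [AddCircle.coe_neg]; abel
      simp only [W, D, S, ContinuousMap.coe_mk, ContinuousMap.sub_apply, ContinuousMap.smul_apply,
        Tr_ap, smul_eq_mul, e1]
      ring
    have c4 := mul_le_mul_of_nonneg_left c3 K0.le
    have c5 := mul_le_mul_of_nonneg_left s2 e0.le
    have e2 : W' h τ z = -chi τ * ((gg a α (D τ (P τ) (z + (h : ℝ))) -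
        gg a α (D τ (P τ) z + h * S τ (R τ) z)) + (gg a α (D τ (P τ) z + h * S τ (R τ) z) -
          gg a α (D τ (P τ) z) - h * S τ (R τ) z * ps a α (D τ (P τ) z))) := by
      simp only [W', F1, F2, ContinuousMap.coe_mk, ContinuousMap.sub_apply,
        ContinuousMap.smul_apply, Tr_ap, smul_eq_mul]
      ring
    rw [Real.norm_eq_abs, e2, abs_mul, abs_neg, abs_of_nonneg (chi_b τ).1]
    refine (mul_le_of_le_one_left (abs_nonneg _) (chi_b τ).2).trans ((abs_add_le _ _).trans ?_)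
    linarith
  filter_upwards [Metric.closedBall_mem_nhds (0 : ℝ) (lt_min a0 b0)] with h hh
  rw [mem_closedBall_zero_iff, Real.norm_eq_abs, le_min_iff] at hh
  have g := norm_le_gronwallBound_of_norm_deriv_right_le (f := fun τ => (W h τ, W (-h) τ))
    (f' := fun τ => (W' h τ, W' (-h) τ)) (δ := e * |h|) (K := K) (ε := e * |h|) (a := -1) (b := t)
    (fun x _ => ((dW h x).prodMk (dW (-h) x)).continuousAt.continuousWithinAt)
    (fun x _ => ((dW h x).prodMk (dW (-h) x)).hasDerivWithinAt)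
    (max_le (i0 h hh.2) (abs_neg h ▸ i0 (-h) (by rw [abs_neg]; exact hh.2)))
    (fun x _ => max_le (i1 h x _ hh.1 (le_max_left _ _) (le_max_right _ _))
      (abs_neg h ▸ i1 (-h) x _ (by rw [abs_neg]; exact hh.1) (le_max_right _ _)
        (by rw [neg_neg]; exact le_max_left _ _))) t ⟨ht, le_rfl⟩
  rw [gronwallBound_of_K_ne_0 K0.ne'] at g
  have g1 := (ev (W h t) s).trans ((le_max_left _ _).trans g)
  have g2 : e * |h| * exp (K * (t - -1)) + e * |h| / K * (exp (K * (t - -1)) - 1) ≤ ε * |h| := by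
    have : ε = e * (exp (K * (t - -1)) * (1 + 1 / K)) := by rw [he]; field_simp
    have q : 0 ≤ e * |h| / K := by positivity
    rw [this]
    have : e * (exp (K * (t - -1)) * (1 + 1 / K)) * |h| =
      e * |h| * exp (K * (t - -1)) + e * |h| / K * exp (K * (t - -1)) := by ring
    linarith
  rw [AddCircle.coe_add]
  exact g1.trans g2

open ContinuousLinearMap in
lemma prim' {P R Pt : ℝ → ℝ → ℝ} (dt : ∀ t s, HasDerivAt (fun τ => P τ s) (Pt t s) t)
    (ds : ∀ t s, HasDerivAt (P t) (R t s) s) (ct : Continuous fun z : ℝ × ℝ => Pt z.1 z.2)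
    (cs : Continuous fun z : ℝ × ℝ => R z.1 z.2) (odd : ∀ t s, Pt t (2 * t - s) = - Pt t s) : ∃ u : ℝ → ℝ → ℝ,
    ContDiff ℝ 2 (fun z : ℝ × ℝ => u z.1 z.2) ∧ u 0 0 = 0 ∧
    (∀ t x, HasDerivAt (fun τ => u τ x) ((P t (t + x) - P t (t - x)) / 2) t) ∧
    (∀ t x, HasDerivAt (u t) ((P t (t + x) + P t (t - x)) / 2) x) ∧
    (∀ t x, HasDerivAt (fun τ => (P τ (τ + x) - P τ (τ - x)) / 2)
      (Pt t (t + x) + (R t (t + x) - R t (t - x)) / 2) t) ∧
    ∀ t x, HasDerivAt (fun x => (P t (t + x) + P t (t - x)) / 2)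
      ((R t (t + x) - R t (t - x)) / 2) x := by
  have j := joint P Pt R dt ds ct cs
  have j1 := joint1 P Pt R dt ds ct cs
  have o : ∀ t x, Pt t (t - x) = - Pt t (t + x) := fun t x => by
    rw [← odd]; congr 1; ring
  have a1 : ∀ z : ℝ × ℝ, HasFDerivAt (fun z : ℝ × ℝ => P z.1 (z.1 + z.2))
      ((Pt z.1 (z.1 + z.2) • fst ℝ ℝ ℝ + R z.1 (z.1 + z.2) • snd ℝ ℝ ℝ).comp
        ((fst ℝ ℝ ℝ).prod (fst ℝ ℝ ℝ + snd ℝ ℝ ℝ))) z := fun z =>
    HasFDerivAt.comp (g := fun z : ℝ × ℝ => P z.1 z.2) z (j _)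
      ((fst ℝ ℝ ℝ).prod (fst ℝ ℝ ℝ + snd ℝ ℝ ℝ)).hasFDerivAt
  have a2 : ∀ z : ℝ × ℝ, HasFDerivAt (fun z : ℝ × ℝ => P z.1 (z.1 - z.2))
      ((Pt z.1 (z.1 - z.2) • fst ℝ ℝ ℝ + R z.1 (z.1 - z.2) • snd ℝ ℝ ℝ).comp
        ((fst ℝ ℝ ℝ).prod (fst ℝ ℝ ℝ - snd ℝ ℝ ℝ))) z := fun z =>
    HasFDerivAt.comp (g := fun z : ℝ × ℝ => P z.1 z.2) z (j _)
      ((fst ℝ ℝ ℝ).prod (fst ℝ ℝ ℝ - snd ℝ ℝ ℝ)).hasFDerivAt
  let ω : ℝ × ℝ → ℝ × ℝ →L[ℝ] ℝ := fun z =>
    ((1 / 2 : ℝ) * (P z.1 (z.1 + z.2) - P z.1 (z.1 - z.2))) • fst ℝ ℝ ℝ +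
      ((1 / 2 : ℝ) * (P z.1 (z.1 + z.2) + P z.1 (z.1 - z.2))) • snd ℝ ℝ ℝ
  have dω : ∀ z, HasFDerivAt ω _ z := fun z =>
    ((((a1 z).sub (a2 z)).const_mul (1 / 2 : ℝ)).smul_const (fst ℝ ℝ ℝ)).add
      ((((a1 z).add (a2 z)).const_mul (1 / 2 : ℝ)).smul_const (snd ℝ ℝ ℝ))
  have c1 : ContDiff ℝ 1 fun z : ℝ × ℝ => P z.1 (z.1 + z.2) :=
    j1.comp (f := fun z : ℝ × ℝ => (z.1, z.1 + z.2)) (by fun_prop)
  have c2 : ContDiff ℝ 1 fun z : ℝ × ℝ => P z.1 (z.1 - z.2) :=
    j1.comp (f := fun z : ℝ × ℝ => (z.1, z.1 - z.2)) (by fun_prop)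
  have cω : ContDiff ℝ 1 ω :=
    ((contDiff_const.mul (c1.sub c2)).smul contDiff_const).add
      ((contDiff_const.mul (c1.add c2)).smul contDiff_const)
  obtain ⟨f, hf⟩ := convex_univ.exists_forall_hasFDerivAt_of_fderiv_symmetric isOpen_univ
    (ω := ω) (fun z _ => (dω z).differentiableAt.differentiableWithinAt) fun z _ x y => by
      rw [(dω z).fderiv]
      simp [o]
      ring
  have lt : ∀ t x : ℝ, HasDerivAt (fun τ : ℝ => (τ, x)) ((1 : ℝ), (0 : ℝ)) t := fun t x =>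
    (hasDerivAt_id t).prodMk (hasDerivAt_const t x)
  have lx : ∀ t x : ℝ, HasDerivAt (fun y : ℝ => (t, y)) ((0 : ℝ), (1 : ℝ)) x := fun t x =>
    (hasDerivAt_const x t).prodMk (hasDerivAt_id x)
  refine ⟨fun t x => f (t, x) - f (0, 0), ?_, sub_self _, fun t x => ?_, fun t x => ?_,
    fun t x => ?_, fun t x => ?_⟩
  · have : ContDiff ℝ ((1 : ℕ) + 1) f :=
      contDiff_succ_iff_hasFDerivAt.2 ⟨ω, cω, fun z => hf z trivial⟩
    exact ContDiff.sub (f := f) (by exact_mod_cast this) contDiff_const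
  · refine (((hf (t, x) trivial).comp_hasDerivAt t (lt t x)).sub_const _).congr_deriv ?_
    simp [ω]
    ring
  · refine (((hf (t, x) trivial).comp_hasDerivAt x (lx t x)).sub_const _).congr_deriv ?_
    simp [ω]
    ring
  · refine ((((a1 (t, x)).comp_hasDerivAt t (lt t x)).sub
      ((a2 (t, x)).comp_hasDerivAt t (lt t x))).div_const 2).congr_deriv ?_
    simp [o]
    ring
  · refine ((((a1 (t, x)).comp_hasDerivAt x (lx t x)).add
      ((a2 (t, x)).comp_hasDerivAt x (lx t x))).div_const 2).congr_deriv ?_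
    simp
    ring

theorem main' (hL : 0 < L) (ha : 0 < a) (hα : 0 < α) : ∃ u : ℝ → ℝ → ℝ,
    ContDiff ℝ 2 (fun z : ℝ × ℝ => u z.1 z.2) ∧
    (∀ t, 0 ≤ t → ∀ x, dT (dT u) t x - dX (dX u) t x + a * |dT u t x| ^ α * dT u t x = 0) ∧
    (∀ t, u t 0 = 0 ∧ u t L = 0) ∧
    ∃ c C : ℝ, 0 < c ∧ ∀ t, 0 ≤ t →
      c * (1 + t) ^ (-2 / α) ≤ En L u t ∧ En L u t ≤ C * (1 + t) ^ (-2 / α) := by
  have hp := pi_pos
  obtain ⟨δ, hδ, h1, h2, h3⟩ : ∃ δ : ℝ, 0 < δ ∧ δ ≤ 1 ∧ δ * (π / L) ≤ 1 ∧ a * δ ^ α ≤ 1 / 2 := by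
    obtain ⟨ε, e0, e1, e2⟩ := ex_eps hα (show 0 < 1 / (2 * a) by positivity)
    refine ⟨min ε (L / π), by positivity, (min_le_left _ _).trans (by linarith), ?_, ?_⟩
    · exact (mul_le_mul_of_nonneg_right (min_le_right _ _) (by positivity)).trans
        (le_of_eq (by field_simp))
    · have := (rpow_le_rpow (by positivity) (min_le_left ε (L / π)) hα.le).trans e2
      rw [le_div_iff₀ (by positivity)] at this
      linarith
  have : Fact (0 < 2 * L) := ⟨by positivity⟩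
  let P0 : X (2 * L) := ⟨fun z => δ * (fourier 1 z).re, by fun_prop⟩
  let R0 : X (2 * L) := ⟨fun z => -(δ * (π / L) * (fourier 1 z).im), by fun_prop⟩
  have e1 : ∀ s : ℝ, P0 s = δ * cos (π * s / L) := fun s => by
    simp only [P0, ContinuousMap.coe_mk, four hL, Complex.exp_ofReal_mul_I_re]
  have e2 : ∀ s : ℝ, R0 s = -(δ * (π / L) * sin (π * s / L)) := fun s => by
    simp only [R0, ContinuousMap.coe_mk, four hL, Complex.exp_ofReal_mul_I_im]
  have m : ∀ s : ℝ, HasDerivAt (fun s : ℝ => P0 s) (R0 s) s := fun s => by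
    simp only [e1, e2]
    refine ((((hasDerivAt_id s).const_mul π).div_const L).cos.const_mul δ).congr_deriv ?_
    simp only [id]
    ring
  have m1 : ‖P0‖ ≤ δ := (ContinuousMap.norm_le _ hδ.le).2 fun z => by
    obtain ⟨x, -, rfl⟩ := AddCircle.eq_coe_Ioc z
    rw [e1, Real.norm_eq_abs, abs_mul, abs_of_pos hδ]
    exact mul_le_of_le_one_right hδ.le (abs_cos_le_one _)
  have m2 : ‖R0‖ ≤ 1 := (ContinuousMap.norm_le _ zero_le_one).2 fun z => by
    obtain ⟨x, -, rfl⟩ := AddCircle.eq_coe_Ioc z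
    rw [e2, Real.norm_eq_abs, abs_neg, abs_mul, abs_of_pos (by positivity)]
    exact mul_le_one₀ h2 (abs_nonneg _) (abs_sin_le_one _)
  obtain ⟨P, R, p1, r1, p2, r2, dP, dR⟩ := pair ha hα P0 R0 (m1.trans h1) m2
  have cP : Continuous P := continuous_iff_continuousAt.2 fun t => (dP t).continuousAt
  have cR : Continuous R := continuous_iff_continuousAt.2 fun t => (dR t).continuousAt
  have ds : ∀ t s : ℝ, HasDerivAt (fun s : ℝ => P t s) (R t s) s := fun t s => by
    rcases le_total t (-1) with h | h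
    · rw [p1 t h, r1 t h]; exact m s
    · exact sdiff ha hα P R (fun t => (p2 t).trans (m1.trans h1)) r2 dP dR
        (by rw [p1 _ le_rfl, r1 _ le_rfl]; exact m) h s
  have dt : ∀ t s : ℝ, HasDerivAt (fun τ => P τ s) (F1 a hα t (P t) s) t := fun t s => by
    have := (ContinuousMap.evalCLM ℝ (M := ℝ)
      (s : AddCircle (2 * L))).hasFDerivAt.comp_hasDerivAt t (dP t)
    exact this
  obtain ⟨u, u1, u2, u3, u4, u5, u6⟩ := prim' (P := fun t s => P t s) (R := fun t s => R t s)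
    (Pt := fun t s => F1 a hα t (P t) s) dt ds
    (((cF1 hα cP).comp continuous_fst).eval ((AddCircle.continuous_mk' _).comp continuous_snd))
    (by fun_prop) fun t s => by
      change -(chi t * gg a α (D t (P t) _)) = - -(chi t * gg a α (D t (P t) _))
      rw [neg_neg, ← mul_neg, ← godd]
      congr 2
      simp only [D, ContinuousMap.coe_mk, AddCircle.coe_sub, sub_sub_cancel]
      ring
  have eT : dT u = fun t x => (P t (t + x : ℝ) - P t (t - x : ℝ)) / 2 := by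
    funext t x; exact (u3 t x).deriv
  have eX : dX u = fun t x => (P t (t + x : ℝ) + P t (t - x : ℝ)) / 2 := by
    funext t x; exact (u4 t x).deriv
  have cst : ∀ f : ℝ → ℝ, (∀ t, HasDerivAt f 0 t) → ∀ t t', f t = f t' := fun f hf t t' =>
    is_const_of_deriv_eq_zero (fun t => (hf t).differentiableAt) (fun t => (hf t).deriv) _ _
  have per : ∀ t s s' : ℝ, s' = s + 2 * L → P t s' = P t s := fun t s s' h => by
    rw [h, AddCircle.coe_add_period]
  have z0 : ∀ t, u t 0 = 0 := fun t => by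
    rw [cst (fun t => u t 0) (fun t => (u3 t 0).congr_deriv (by simp)) t 0, u2]
  have zL : ∀ t, u t L = 0 := fun t => by
    rw [cst (fun t => u t L) (fun t => (u3 t L).congr_deriv (by
      rw [per t (t - L) (t + L) (by ring)]; ring)) t (-1)]
    have := cst (fun x => u (-1) x - δ * cos (π / L) * (L / π) * sin (π * x / L)) (fun x =>
      ((u4 (-1) x).sub ((((hasDerivAt_id x).const_mul π).div_const L).sin.const_mul
        (δ * cos (π / L) * (L / π)))).congr_deriv (by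
          rw [p1 _ le_rfl, e1, e1, show π * (-1 + x) / L = π * x / L - π / L by ring,
            show π * (-1 - x) / L = -(π * x / L + π / L) by ring, cos_neg, cos_sub, cos_add]
          simp only [id]
          field_simp
          ring)) L 0
    simpa [z0, hL.ne'] using this
  have ho : ∀ t x, u t (-x) = - u t x := fun t x => by
    have := cst (fun x => u t (-x) + u t x) (fun x =>
      (((u4 t (-x)).comp x (hasDerivAt_neg x)).add (u4 t x)).congr_deriv (by
        rw [← sub_eq_add_neg, sub_neg_eq_add]; ring)) x 0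
    simp only [neg_zero, z0] at this
    linarith
  have hq : ∀ t x, u t (x + 2 * L) = u t x := fun t x => by
    have := cst (fun x => u t (x + 2 * L) - u t x) (fun x =>
      (((u4 t (x + 2 * L)).comp_add_const x (2 * L)).sub (u4 t x)).congr_deriv (by
        rw [per t (t + x) (t + (x + 2 * L)) (by ring), per t (t - (x + 2 * L)) (t - x) (by ring)]
        ring)) x (-L)
    simp only [show -L + 2 * L = L by ring, ho, zL] at this
    linarith
  have he : ∀ t, 0 ≤ t → ∀ x,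
      dT (dT u) t x - dX (dX u) t x + a * |dT u t x| ^ α * dT u t x = 0 := fun t ht x => by
    rw [eT, eX, dT, dX, (u5 t x).deriv, (u6 t x).deriv]
    simp only [F1, D, ContinuousMap.coe_mk, chi_1 ht, gg, ← AddCircle.coe_sub,
      show 2 * t - (t + x) = t - x by ring]
    ring
  refine ⟨u, u1, he, fun t => ⟨z0 t, zL t⟩, allsol hL ha hα u u1 ho hq he ?_⟩
  by_contra hn
  push Not at hn
  have k1 := (u4 0 0).unique ((hasDerivAt_const (0 : ℝ) (0 : ℝ)).congr_of_eventuallyEq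
    (Eventually.of_forall fun x => (hn x).1))
  have k2 := norm_image_sub_le_of_norm_deriv_le_segment' (f := fun τ => P τ (0 : ℝ)) (a := -1)
    (b := 0) (C := δ / 2) (fun x _ => (dt x 0).hasDerivWithinAt) (fun x _ => by
      have b := (D_le x (P x) (0 : ℝ)).trans ((p2 x).trans m1)
      have b1 := gabs' ha hα b
      change |-(chi x * gg a α (D x (P x) (0 : ℝ)))| ≤ _
      rw [abs_neg, abs_mul, abs_of_nonneg (chi_b x).1]
      refine (mul_le_of_le_one_left (abs_nonneg _) (chi_b x).2).trans (b1.trans ?_)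
      exact (mul_le_mul h3 b (abs_nonneg _) (by norm_num)).trans (le_of_eq (by ring)))
    0 ⟨by norm_num, le_rfl⟩
  simp only [add_zero, sub_zero] at k1
  rw [p1 _ le_rfl, e1, Real.norm_eq_abs, mul_zero, zero_div, cos_zero] at k2
  have := (abs_le.1 k2).1
  linarith

end Pool.Agent.H19.Wave
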